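import Pool.Agent.Lib.Qcd.Defs
import Pool.Agent.Lib.Psd.BdB

set_option autoImplicit false

/-!
# The averaged homotopy operator

`hom1 ν β z = ∫ ν y ∫_0^1 β_{y + t (z - y)} (z - y) dt dy`: the average over the base point `y` of the Poincare primitive.
`hom1_smooth`: differentiation under a weighted integral over the compact set `closedBall 0 1 ×ˢ Icc 0 1` (`param_key`, `param_aux`).
`hom1_fderiv`: the formula for the deviation of `d (hom1 ν β)` from `β`. `hom1_bound`: the bound by an integral of `tn β`,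
by the substitution `p = z + s (y - z)` (`subst_ball`).
-/

open MeasureTheory Set Metric
open scoped ContDiff ENNReal Topology

namespace Pool.Agent.Lib.Qcd

open Pool.Agent.P28b04d Pool.Agent.Lib.Psd

namespace GauAAux

theorem param_key {E F G : Type} [NormedAddCommGroup E] [NormedSpace ℝ E] [FiniteDimensional ℝ E]
    [NormedAddCommGroup F] [NormedSpace ℝ F] [FiniteDimensional ℝ F] [MeasurableSpace F] [BorelSpace F]
    [NormedAddCommGroup G] [NormedSpace ℝ G] [FiniteDimensional ℝ G]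
    (μ : Measure F) [IsFiniteMeasureOnCompacts μ] {K : Set F} (hK : IsCompact K) {w : F → ℝ}
    (hw : Continuous w) {Ψ : E × F → G} (hΨ : ContDiff ℝ 1 Ψ) (z₀ : E) :
    HasFDerivAt (fun z => ∫ η in K, w η • Ψ (z, η) ∂μ)
      (∫ η in K, w η • ((fderiv ℝ Ψ (z₀, η)).comp (ContinuousLinearMap.inl ℝ E F)) ∂μ) z₀ := by
  have hcd : Continuous (fun p => fderiv ℝ Ψ p) := hΨ.continuous_fderiv (by simp)
  set Ψ' : E × F → E →L[ℝ] G := fun p => (fderiv ℝ Ψ p).comp (ContinuousLinearMap.inl ℝ E F)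
    with hΨ'
  have hder' : Continuous Ψ' := hcd.clm_comp continuous_const
  have hwΨ' : Continuous (fun p : E × F => w p.2 • Ψ' p) := (hw.comp continuous_snd).smul hder'
  have hc : IsCompact (closedBall z₀ 1 ×ˢ K) := (isCompact_closedBall z₀ 1).prod hK
  obtain ⟨C, hC⟩ := hc.exists_bound_of_continuousOn hwΨ'.continuousOn
  have hfin : IsFiniteMeasure (μ.restrict K) := ⟨by
    rw [Measure.restrict_apply_univ]; exact hK.measure_lt_top⟩
  have hsl : ∀ z, Continuous (fun η => w η • Ψ (z, η)) := fun z =>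
    hw.smul (hΨ.continuous.comp (Continuous.prodMk_right z))
  have hsl' : Continuous (fun η => w η • Ψ' (z₀, η)) :=
    hw.smul (hder'.comp (Continuous.prodMk_right z₀))
  refine hasFDerivAt_integral_of_dominated_of_fderiv_le (bound := fun _ => C)
    (F' := fun z η => w η • Ψ' (z, η)) (closedBall_mem_nhds z₀ one_pos) ?_ ?_ ?_ ?_ ?_ ?_
  · exact Filter.Eventually.of_forall fun z => (hsl z).aestronglyMeasurable
  · exact (hsl z₀).continuousOn.integrableOn_compact hK
  · exact hsl'.aestronglyMeasurable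
  · rw [ae_restrict_iff' hK.measurableSet]
    exact Filter.Eventually.of_forall fun η hη z hz => hC (z, η) ⟨hz, hη⟩
  · exact integrable_const C
  · refine Filter.Eventually.of_forall fun η z hz => ?_
    have h2 : HasFDerivAt Ψ (fderiv ℝ Ψ (z, η)) (z, η) :=
      (hΨ.differentiable (by simp) _).hasFDerivAt
    exact (h2.comp z (hasFDerivAt_prodMk_left z η)).const_smul (w η)

theorem param_aux {E F : Type} [NormedAddCommGroup E] [NormedSpace ℝ E] [FiniteDimensional ℝ E]
    [NormedAddCommGroup F] [NormedSpace ℝ F] [FiniteDimensional ℝ F] [MeasurableSpace F] [BorelSpace F]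
    (μ : Measure F) [IsFiniteMeasureOnCompacts μ] {K : Set F} (hK : IsCompact K) {w : F → ℝ}
    (hw : Continuous w) (m : ℕ) :
    ∀ (G : Type) [NormedAddCommGroup G] [NormedSpace ℝ G] [FiniteDimensional ℝ G] (Ψ : E × F → G),
    ContDiff ℝ ∞ Ψ → ContDiff ℝ m (fun z => ∫ η in K, w η • Ψ (z, η) ∂μ) := by
  induction m with
  | zero =>
    intro G _ _ _ Ψ hΨ
    rw [Nat.cast_zero, contDiff_zero, continuous_iff_continuousAt]
    intro z₀
    exact (param_key μ hK hw (hΨ.of_le (by simp)) z₀).continuousAt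
  | succ m ih =>
    intro G _ _ _ Ψ hΨ
    have hk := fun z₀ => param_key μ hK hw (Ψ := Ψ) (hΨ.of_le (by simp)) z₀
    rw [Nat.cast_add, Nat.cast_one, contDiff_succ_iff_fderiv]
    refine ⟨fun z => (hk z).differentiableAt, fun h => by simp at h, ?_⟩
    have h1 : ContDiff ℝ ∞ (fun p => (fderiv ℝ Ψ p).comp (ContinuousLinearMap.inl ℝ E F)) :=
      (hΨ.fderiv_right (m := ∞) (by simp)).clm_comp contDiff_const
    have h2 := ih _ _ h1
    have h3 : (fderiv ℝ fun z => ∫ η in K, w η • Ψ (z, η) ∂μ) = fun z =>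
      ∫ η in K, w η • ((fderiv ℝ Ψ (z, η)).comp (ContinuousLinearMap.inl ℝ E F)) ∂μ := by
      funext z
      exact (hk z).fderiv
    rw [h3]
    exact h2

/-- The joint function. -/
noncomputable def Psi (β : W → W →L[ℝ] ℝ) (p : W × (W × ℝ)) : ℝ :=
  β (p.2.1 + p.2.2 • (p.1 - p.2.1)) (p.1 - p.2.1)

theorem Psi_smooth {β : W → W →L[ℝ] ℝ} (hβ : ContDiff ℝ ∞ β) : ContDiff ℝ ∞ (Psi β) := by
  unfold Psi
  have h1 : ContDiff ℝ ∞ (fun p : W × (W × ℝ) => p.1 - p.2.1) :=
    contDiff_fst.sub (contDiff_fst.comp contDiff_snd)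
  have h2 : ContDiff ℝ ∞ (fun p : W × (W × ℝ) => p.2.1 + p.2.2 • (p.1 - p.2.1)) :=
    (contDiff_fst.comp contDiff_snd).add ((contDiff_snd.comp contDiff_snd).smul h1)
  exact (hβ.comp h2).clm_apply h1

theorem Psi_fderiv {β : W → W →L[ℝ] ℝ} (hβ : ContDiff ℝ ∞ β) (z : W) (q : W × ℝ) (v : W) :
    (fderiv ℝ (Psi β) (z, q)).comp (ContinuousLinearMap.inl ℝ W (W × ℝ)) v =
      q.2 * fderiv ℝ β (q.1 + q.2 • (z - q.1)) v (z - q.1) + β (q.1 + q.2 • (z - q.1)) v := by
  have h2 : HasFDerivAt (Psi β) (fderiv ℝ (Psi β) (z, q)) (z, q) :=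
    ((Psi_smooth hβ).differentiable (by simp) _).hasFDerivAt
  have h3 : HasFDerivAt (fun z => Psi β (z, q))
      ((fderiv ℝ (Psi β) (z, q)).comp (ContinuousLinearMap.inl ℝ W (W × ℝ))) z :=
    HasFDerivAt.comp (g := Psi β) (f := fun z => (z, q)) z h2 (hasFDerivAt_prodMk_left z q)
  have h4 : HasFDerivAt (fun z : W => q.1 + q.2 • (z - q.1)) (q.2 • ContinuousLinearMap.id ℝ W) z :=
    (((hasFDerivAt_id z).sub_const q.1).const_smul q.2).const_add q.1
  have h5 : HasFDerivAt β (fderiv ℝ β (q.1 + q.2 • (z - q.1))) (q.1 + q.2 • (z - q.1)) :=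
    (hβ.differentiable (by simp) _).hasFDerivAt
  have h6 := (h5.comp z h4).clm_apply ((hasFDerivAt_id z).sub_const q.1)
  have h7 := h3.unique h6
  rw [h7]
  simp only [add_apply, ContinuousLinearMap.comp_apply,
    ContinuousLinearMap.flip_apply, smul_apply, ContinuousLinearMap.id_apply,
    Function.comp_apply, id_eq, map_smul, smul_eq_mul]
  ring

/-- Iterated and double integral. -/
theorem iter {ν : W → ℝ} (hν : Continuous ν) (hz : ∀ y, 1 ≤ ‖y‖ → ν y = 0) {g : W × ℝ → ℝ}
    (hg : Continuous g) :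
    ∫ y, ν y * ∫ t in (0 : ℝ)..1, g (y, t) =
      ∫ p in closedBall (0 : W) 1 ×ˢ Icc (0 : ℝ) 1, ν p.1 * g p := by
  have hc : Continuous (fun p : W × ℝ => ν p.1 * g p) := (hν.comp continuous_fst).mul hg
  have hi : IntegrableOn (fun p : W × ℝ => ν p.1 * g p) (closedBall (0 : W) 1 ×ˢ Icc (0 : ℝ) 1)
      ((volume : Measure W).prod volume) :=
    hc.continuousOn.integrableOn_compact ((isCompact_closedBall 0 1).prod isCompact_Icc)
  rw [Measure.volume_eq_prod, setIntegral_prod _ hi]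
  have h1 : ∫ y, ν y * ∫ t in (0 : ℝ)..1, g (y, t) =
      ∫ y in closedBall (0 : W) 1, ν y * ∫ t in (0 : ℝ)..1, g (y, t) := by
    refine (setIntegral_eq_integral_of_forall_compl_eq_zero fun y hy => ?_).symm
    have : 1 ≤ ‖y‖ := by
      rw [mem_closedBall_zero_iff, not_le] at hy
      exact hy.le
    rw [hz y this, zero_mul]
  rw [h1]
  refine setIntegral_congr_fun measurableSet_closedBall fun y _ => ?_
  simp only
  rw [intervalIntegral.integral_of_le zero_le_one, integral_Icc_eq_integral_Ioc,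
    ← integral_const_mul]

theorem hom1_eq {ν : W → ℝ} (hν : Continuous ν) (hz : ∀ y, 1 ≤ ‖y‖ → ν y = 0) {β : W → W →L[ℝ] ℝ}
    (hβ : ContDiff ℝ ∞ β) : hom1 ν β = fun z =>
      ∫ p in closedBall (0 : W) 1 ×ˢ Icc (0 : ℝ) 1, ν p.1 • Psi β (z, p) := by
  funext z
  unfold hom1
  have hg : Continuous (fun p : W × ℝ => Psi β (z, p)) :=
    (Psi_smooth hβ).continuous.comp (Continuous.prodMk_right z)
  exact iter hν hz hg

end GauAAux

open GauAAux

theorem hom1_smooth {ν : W → ℝ} (hν : Continuous ν) (hz : ∀ y, 1 ≤ ‖y‖ → ν y = 0) {β : W → W →L[ℝ] ℝ}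
    (hβ : ContDiff ℝ ∞ β) : ContDiff ℝ ∞ (hom1 ν β) := by
  rw [hom1_eq hν hz hβ, contDiff_infty]
  intro m
  exact param_aux (E := W) (F := W × ℝ) volume
    ((isCompact_closedBall 0 1).prod isCompact_Icc) (w := fun p => ν p.1)
    (hν.comp continuous_fst) m ℝ (Psi β) (Psi_smooth hβ)

namespace GauAAux

theorem fderiv_hom1 {ν : W → ℝ} (hν : Continuous ν) (hz : ∀ y, 1 ≤ ‖y‖ → ν y = 0)
    {β : W → W →L[ℝ] ℝ} (hβ : ContDiff ℝ ∞ β) (z v : W) :
    fderiv ℝ (hom1 ν β) z v = ∫ y, ν y * ∫ t in (0 : ℝ)..1,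
      (t * fderiv ℝ β (y + t • (z - y)) v (z - y) + β (y + t • (z - y)) v) := by
  have hK : IsCompact (closedBall (0 : W) 1 ×ˢ Icc (0 : ℝ) 1) :=
    (isCompact_closedBall 0 1).prod isCompact_Icc
  have h1 := param_key (E := W) (F := W × ℝ) volume hK (w := fun p => ν p.1)
    (hν.comp continuous_fst) (Ψ := Psi β) ((Psi_smooth hβ).of_le (by simp)) z
  have hcd : Continuous (fun q : W × ℝ => (fderiv ℝ (Psi β) (z, q)).comp (ContinuousLinearMap.inl ℝ W (W × ℝ))) :=
    (((Psi_smooth hβ).continuous_fderiv (by simp)).comp (Continuous.prodMk_right z)).clm_comp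
      continuous_const
  have hint : IntegrableOn (fun q : W × ℝ => ν q.1 • (fderiv ℝ (Psi β) (z, q)).comp
      (ContinuousLinearMap.inl ℝ W (W × ℝ))) (closedBall (0 : W) 1 ×ˢ Icc (0 : ℝ) 1) volume :=
    ((hν.comp continuous_fst).smul hcd).continuousOn.integrableOn_compact hK
  have hb : Continuous (fun q : W × ℝ => q.1 + q.2 • (z - q.1)) := by fun_prop
  have hfb : Continuous (fun p => fderiv ℝ β p) := hβ.continuous_fderiv (by simp)
  have hg : Continuous (fun q : W × ℝ => q.2 * fderiv ℝ β (q.1 + q.2 • (z - q.1)) v (z - q.1) +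
      β (q.1 + q.2 • (z - q.1)) v) := by
    have h2 : Continuous (fun q : W × ℝ => fderiv ℝ β (q.1 + q.2 • (z - q.1))) := hfb.comp hb
    have h3 : Continuous (fun q : W × ℝ => β (q.1 + q.2 • (z - q.1))) := hβ.continuous.comp hb
    have h4 : Continuous (fun q : W × ℝ => fderiv ℝ β (q.1 + q.2 • (z - q.1)) v (z - q.1)) :=
      (h2.clm_apply continuous_const).clm_apply (by fun_prop)
    exact (continuous_snd.mul h4).add (h3.clm_apply continuous_const)
  rw [hom1_eq hν hz hβ, h1.fderiv, ContinuousLinearMap.integral_apply hint]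
  rw [iter hν hz hg]
  refine setIntegral_congr_fun hK.measurableSet fun q _ => ?_
  simp only [smul_apply, smul_eq_mul]
  rw [← Psi_fderiv hβ z q v]

theorem inner {β : W → W →L[ℝ] ℝ} (hβ : ContDiff ℝ ∞ β) (z v y : W) :
    ∫ t in (0 : ℝ)..1, (t * fderiv ℝ β (y + t • (z - y)) v (z - y) + β (y + t • (z - y)) v) =
      β z v - ∫ t in (0 : ℝ)..1, t * dd β (y + t • (z - y)) (z - y) v := by
  have hb : Continuous (fun t : ℝ => y + t • (z - y)) := by fun_prop
  have hfb : Continuous (fun p => fderiv ℝ β p) := hβ.continuous_fderiv (by simp)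
  have h2 : Continuous (fun t : ℝ => fderiv ℝ β (y + t • (z - y))) := hfb.comp hb
  have h3 : Continuous (fun t : ℝ => β (y + t • (z - y)) v) :=
    (hβ.continuous.comp hb).clm_apply continuous_const
  have h4 : Continuous (fun t : ℝ => fderiv ℝ β (y + t • (z - y)) v (z - y)) :=
    (h2.clm_apply continuous_const).clm_apply continuous_const
  have h5 : Continuous (fun t : ℝ => fderiv ℝ β (y + t • (z - y)) (z - y) v) :=
    (h2.clm_apply continuous_const).clm_apply continuous_const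
  have hdd : Continuous (fun t : ℝ => t * dd β (y + t • (z - y)) (z - y) v) := by
    unfold dd
    exact continuous_id.mul (h5.sub h4)
  have hA : Continuous (fun t : ℝ => t * fderiv ℝ β (y + t • (z - y)) v (z - y) +
      β (y + t • (z - y)) v) := (continuous_id.mul h4).add h3
  have hB : Continuous (fun t : ℝ => β (y + t • (z - y)) v +
      t * fderiv ℝ β (y + t • (z - y)) (z - y) v) := h3.add (continuous_id.mul h5)
  have hd : ∀ t : ℝ, HasDerivAt (fun t : ℝ => t * β (y + t • (z - y)) v)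
      (β (y + t • (z - y)) v + t * fderiv ℝ β (y + t • (z - y)) (z - y) v) t := by
    intro t
    have h6 : HasDerivAt (fun t : ℝ => y + t • (z - y)) (z - y) t := by
      have := ((hasDerivAt_id t).smul_const (z - y)).const_add y
      simpa using this
    have h7 : HasFDerivAt β (fderiv ℝ β (y + t • (z - y))) (y + t • (z - y)) :=
      (hβ.differentiable (by simp) _).hasFDerivAt
    have h8 := h7.comp_hasDerivAt t h6
    have h9 := h8.clm_apply (hasDerivAt_const t v)
    have h10 : HasDerivAt (fun t : ℝ => t * β (y + t • (z - y)) v) _ t := (hasDerivAt_id t).mul h9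
    refine h10.congr_deriv ?_
    simp
  have hF : ∫ t in (0 : ℝ)..1, (β (y + t • (z - y)) v +
      t * fderiv ℝ β (y + t • (z - y)) (z - y) v) = β z v := by
    rw [intervalIntegral.integral_eq_sub_of_hasDerivAt (fun t _ => hd t)
      (hB.intervalIntegrable _ _)]
    simp
  rw [← hF, ← intervalIntegral.integral_sub (hB.intervalIntegrable _ _)
    (hdd.intervalIntegrable _ _)]
  refine intervalIntegral.integral_congr fun t _ => ?_
  simp only [dd]
  ring

theorem cont_dd {β : W → W →L[ℝ] ℝ} (hβ : ContDiff ℝ ∞ β) (z v : W) :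
    Continuous (fun q : W × ℝ => q.2 * dd β (q.1 + q.2 • (z - q.1)) (z - q.1) v) := by
  have hb : Continuous (fun q : W × ℝ => q.1 + q.2 • (z - q.1)) := by fun_prop
  have hfb : Continuous (fun p => fderiv ℝ β p) := hβ.continuous_fderiv (by simp)
  have h2 : Continuous (fun q : W × ℝ => fderiv ℝ β (q.1 + q.2 • (z - q.1))) := hfb.comp hb
  have h4 : Continuous (fun q : W × ℝ => fderiv ℝ β (q.1 + q.2 • (z - q.1)) v (z - q.1)) :=
    (h2.clm_apply continuous_const).clm_apply (by fun_prop)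
  have h5 : Continuous (fun q : W × ℝ => fderiv ℝ β (q.1 + q.2 • (z - q.1)) (z - q.1) v) :=
    (h2.clm_apply (by fun_prop)).clm_apply continuous_const
  unfold dd
  exact continuous_snd.mul (h5.sub h4)

end GauAAux

theorem hom1_fderiv {ν : W → ℝ} (hν : Continuous ν) (hz : ∀ y, 1 ≤ ‖y‖ → ν y = 0) (hi : ∫ y, ν y = 1)
    {β : W → W →L[ℝ] ℝ} (hβ : ContDiff ℝ ∞ β) (z v : W) :
    β z v - fderiv ℝ (hom1 ν β) z v =
      ∫ y, ν y * ∫ t in (0 : ℝ)..1, t * dd β (y + t • (z - y)) (z - y) v := by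
  rw [fderiv_hom1 hν hz hβ]
  simp_rw [inner hβ z v]
  have hcs : HasCompactSupport ν := by
    apply HasCompactSupport.intro (isCompact_closedBall (0 : W) 1)
    intro y hy
    rw [mem_closedBall_zero_iff, not_le] at hy
    exact hz y hy.le
  have hiν : Integrable ν := hν.integrable_of_hasCompactSupport hcs
  have hc2 : Continuous (fun y : W => ∫ t in (0 : ℝ)..1, t * dd β (y + t • (z - y)) (z - y) v) := by
    apply intervalIntegral.continuous_parametric_intervalIntegral_of_continuous' (f := fun y t =>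
      t * dd β (y + t • (z - y)) (z - y) v)
    exact cont_dd hβ z v
  have hi2 : Integrable (fun y => ν y * ∫ t in (0 : ℝ)..1, t * dd β (y + t • (z - y)) (z - y) v) :=
    (hν.mul hc2).integrable_of_hasCompactSupport hcs.mul_right
  have h1 : ∫ y, ν y * (β z v - ∫ t in (0 : ℝ)..1, t * dd β (y + t • (z - y)) (z - y) v) =
      β z v - ∫ y, ν y * ∫ t in (0 : ℝ)..1, t * dd β (y + t • (z - y)) (z - y) v := by
    simp_rw [mul_sub]
    rw [integral_sub (hiν.mul_const _) hi2, integral_mul_const, hi, one_mul]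
  rw [h1]
  ring

namespace GauAAux

theorem dd_tn (β : W → W →L[ℝ] ℝ) (p a b : W) : |dd β p a b| ≤ tn β p * ‖a‖ * ‖b‖ := by
  have h1 : dd β p a b = (fderiv ℝ β p - (fderiv ℝ β p).flip) a b := by
    simp [dd]
  rw [h1, ← Real.norm_eq_abs]
  exact ContinuousLinearMap.le_opNorm₂ _ _ _

theorem norm_sub_cont {X Y : Type} [TopologicalSpace X] [SeminormedAddCommGroup Y] {f g : X → Y}
    (hf : Continuous f) (hg : Continuous g) : Continuous (fun x => ‖f x - g x‖) :=
  (hf.sub hg).norm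

theorem cont_flip {V : Type} [NormedAddCommGroup V] [NormedSpace ℝ V] :
    Continuous (fun L : V →L[ℝ] V →L[ℝ] ℝ => ‖L - L.flip‖) := by
  have h1 : Continuous (fun L : V →L[ℝ] V →L[ℝ] ℝ => L.flip) :=
    (ContinuousLinearMap.flipₗᵢ ℝ V V ℝ).continuous
  exact norm_sub_cont (Y := V →L[ℝ] V →L[ℝ] ℝ) continuous_id h1

theorem tn_cts {β : W → W →L[ℝ] ℝ} (hβ : ContDiff ℝ ∞ β) : Continuous (tn β) := by
  unfold tn
  have hfb : Continuous (fun p => fderiv ℝ β p) := hβ.continuous_fderiv (by simp)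
  exact cont_flip.comp hfb

theorem finrankW : Module.finrank ℝ W = 6 := by
  rw [Module.finrank_pi_fintype]
  simp

/-- The substitution. -/
theorem subst_ball {f : W → ℝ≥0∞} (hf : Measurable f) (z : W) (hz : ‖z‖ ≤ 1) {s : ℝ} (hs : 0 < s) :
    ∫⁻ y in closedBall (0 : W) 1, f (z + s • (y - z)) ≤
      (ENNReal.ofReal (s ^ 6))⁻¹ * ∫⁻ p in closedBall z (2 * s), f p := by
  have h1 : ∫⁻ y in closedBall (0 : W) 1, f (z + s • (y - z)) ≤
      ∫⁻ y : W, (closedBall z (2 * s)).indicator f (z + s • (y - z)) := by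
    rw [← lintegral_indicator measurableSet_closedBall]
    refine lintegral_mono fun y => ?_
    by_cases hy : y ∈ closedBall (0 : W) 1
    · rw [indicator_of_mem hy, indicator_of_mem]
      rw [mem_closedBall, dist_eq_norm, add_sub_cancel_left, norm_smul, Real.norm_eq_abs,
        abs_of_pos hs, mul_comm]
      apply mul_le_mul_of_nonneg_right _ hs.le
      rw [mem_closedBall_zero_iff] at hy
      calc ‖y - z‖ ≤ ‖y‖ + ‖z‖ := norm_sub_le _ _
        _ ≤ 2 := by linarith
    · rw [indicator_of_notMem hy]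
      exact zero_le
  refine h1.trans ?_
  set g := (closedBall z (2 * s)).indicator f with hgdef
  have hg : Measurable g := hf.indicator measurableSet_closedBall
  have h2 : ∫⁻ y : W, g (z + s • (y - z)) = ∫⁻ y : W, g (z + s • y) := by
    have := lintegral_sub_right_eq_self (μ := (volume : Measure W)) (fun y => g (z + s • y)) z
    exact this
  have h3 : ∫⁻ y : W, g (z + s • y) = ENNReal.ofReal |(s ^ 6)⁻¹| * ∫⁻ y : W, g (z + y) := by
    have h4 := Measure.map_addHaar_smul (volume : Measure W) hs.ne'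
    rw [finrankW] at h4
    have h5 : ∫⁻ y, g (z + y) ∂(Measure.map (fun y : W => s • y) (volume : Measure W)) =
        ∫⁻ y, g (z + s • y) :=
      lintegral_map (hg.comp (measurable_const_add z)) (measurable_const_smul s)
    rw [← h5, h4, lintegral_smul_measure, smul_eq_mul]
  have h6 : ∫⁻ y : W, g (z + y) = ∫⁻ y : W, g y :=
    lintegral_add_left_eq_self (μ := (volume : Measure W)) g z
  rw [h2, h3, h6, hgdef, lintegral_indicator measurableSet_closedBall,
    abs_of_pos (by positivity), ENNReal.ofReal_inv_of_pos (by positivity)]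

end GauAAux

theorem hom1_bound {ν : W → ℝ} (hν : Continuous ν) (h0 : ∀ y, 0 ≤ ν y) {b : ℝ} (hb : ∀ y, ν y ≤ b)
    (hz : ∀ y, 1 ≤ ‖y‖ → ν y = 0) (hi : ∫ y, ν y = 1) {β : W → W →L[ℝ] ℝ} (hβ : ContDiff ℝ ∞ β) {z : W}
    (hz1 : ‖z‖ ≤ 1) (v : W) :
    ENNReal.ofReal |β z v - fderiv ℝ (hom1 ν β) z v| ≤ ENNReal.ofReal (2 * b * ‖v‖) *
      ∫⁻ s in Ioo (0 : ℝ) 1, (ENNReal.ofReal (s ^ 6))⁻¹ *
        ∫⁻ p in closedBall z (2 * s), ENNReal.ofReal (tn β p) := by
  have hb0 : 0 ≤ b := (h0 0).trans (hb 0)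
  have htn0 : ∀ p, 0 ≤ tn β p := fun p =>
    norm_nonneg (fderiv ℝ β p - (fderiv ℝ β p).flip)
  have hK : IsCompact (closedBall (0 : W) 1 ×ˢ Icc (0 : ℝ) 1) :=
    (isCompact_closedBall 0 1).prod isCompact_Icc
  rw [hom1_fderiv hν hz hi hβ, iter hν hz (cont_dd hβ z v), ← Real.norm_eq_abs,
    ofReal_norm]
  refine (enorm_integral_le_lintegral_enorm _).trans ?_
  have hmt : Measurable (fun p => ENNReal.ofReal (tn β p)) := (tn_cts hβ).measurable.ennreal_ofReal
  have h1 : ∫⁻ q in closedBall (0 : W) 1 ×ˢ Icc (0 : ℝ) 1,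
      ‖ν q.1 * (q.2 * dd β (q.1 + q.2 • (z - q.1)) (z - q.1) v)‖ₑ ≤
      ∫⁻ q in closedBall (0 : W) 1 ×ˢ Icc (0 : ℝ) 1, ENNReal.ofReal (2 * b * ‖v‖) *
        ENNReal.ofReal (tn β (q.1 + q.2 • (z - q.1))) := by
    refine setLIntegral_mono' hK.measurableSet fun q hq => ?_
    rw [← ofReal_norm, ← ENNReal.ofReal_mul (by positivity)]
    apply ENNReal.ofReal_le_ofReal
    obtain ⟨hq1, hq2, hq3⟩ := hq
    rw [mem_closedBall_zero_iff] at hq1
    rw [Real.norm_eq_abs, abs_mul, abs_mul, abs_of_nonneg (h0 _), abs_of_nonneg hq2]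
    have h3 := dd_tn β (q.1 + q.2 • (z - q.1)) (z - q.1) v
    have h4 : ‖z - q.1‖ ≤ 2 := by
      calc ‖z - q.1‖ ≤ ‖z‖ + ‖q.1‖ := norm_sub_le _ _
        _ ≤ 2 := by linarith
    have h5 : |dd β (q.1 + q.2 • (z - q.1)) (z - q.1) v| ≤
        tn β (q.1 + q.2 • (z - q.1)) * 2 * ‖v‖ := by
      refine h3.trans ?_
      apply mul_le_mul_of_nonneg_right _ (norm_nonneg _)
      exact mul_le_mul_of_nonneg_left h4 (htn0 _)
    calc ν q.1 * (q.2 * |dd β (q.1 + q.2 • (z - q.1)) (z - q.1) v|)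
        ≤ b * (1 * (tn β (q.1 + q.2 • (z - q.1)) * 2 * ‖v‖)) := by
          apply mul_le_mul (hb _) _ (by positivity) hb0
          exact mul_le_mul hq3 h5 (abs_nonneg _) zero_le_one
      _ = 2 * b * ‖v‖ * tn β (q.1 + q.2 • (z - q.1)) := by ring
  refine h1.trans ?_
  have hmq : Measurable (fun q : W × ℝ => ENNReal.ofReal (tn β (q.1 + q.2 • (z - q.1)))) :=
    hmt.comp (by fun_prop)
  rw [lintegral_const_mul _ hmq]
  apply mul_le_mul_right
  rw [Measure.volume_eq_prod, ← Measure.prod_restrict, lintegral_prod_symm _ hmq.aemeasurable]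
  rw [show (volume : Measure ℝ).restrict (Icc 0 1) = volume.restrict (Ioo 0 1) from
    (Measure.restrict_congr_set Ioo_ae_eq_Icc).symm]
  have h6 : ∫⁻ s in Ioo (0 : ℝ) 1, ∫⁻ y in closedBall (0 : W) 1,
      ENNReal.ofReal (tn β (y + s • (z - y))) =
      ∫⁻ s in Ioo (0 : ℝ) 1, ∫⁻ y in closedBall (0 : W) 1,
        ENNReal.ofReal (tn β (z + s • (y - z))) := by
    have hpre : (fun s : ℝ => 1 - s) ⁻¹' Ioo 0 1 = Ioo 0 1 := by
      ext s
      simp only [mem_preimage, mem_Ioo]
      constructor <;> rintro ⟨h1, h2⟩ <;> constructor <;> linarith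
    have hmp : MeasurePreserving (fun s : ℝ => 1 - s) volume volume :=
      Measure.measurePreserving_sub_left volume (1 : ℝ)
    have h7 := hmp.setLIntegral_comp_preimage (measurableSet_Ioo (a := (0 : ℝ)) (b := 1))
      (f := fun s => ∫⁻ y in closedBall (0 : W) 1, ENNReal.ofReal (tn β (z + s • (y - z)))) (by
        have : Measurable (fun q : ℝ × W => ENNReal.ofReal (tn β (z + q.1 • (q.2 - z)))) :=
          hmt.comp (by fun_prop)
        exact this.lintegral_prod_right')
    rw [hpre] at h7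
    rw [← h7]
    refine setLIntegral_congr_fun measurableSet_Ioo fun s _ => ?_
    refine lintegral_congr fun y => ?_
    have : y + s • (z - y) = z + (1 - s) • (y - z) := by
      rw [sub_smul, one_smul, smul_sub, smul_sub]
      abel
    rw [this]
  rw [h6]
  refine setLIntegral_mono' measurableSet_Ioo fun s hs => ?_
  exact subst_ball hmt z hz1 hs.1

end Pool.Agent.Lib.Qcd
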