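import Pool.Agent.Lib.Qcd.Defs
import Pool.Agent.Lib.Psd.Alg

set_option autoImplicit false

/-!
# Near conformal matrices: linear algebra

PROOFS. Rows `L i ∈ ℝ⁴`, `g i j = ⟨L i, L j⟩`. `omg_skew`, `nrm2_omg_le`: `|omg i j| ≤ 2 |L i| |L j|` (`omg L i j = 2 ⟨J0 (L i), L j⟩`, `|J0 y| = |y|`, Cauchy-Schwarz). `Pf_omg`: expansion (`Matrix.det_succ_row_zero`, `Fin.sum_univ_succ`, `ring`).
`qalg`: let `ℓ²` be the maximum of the `|L i|²`. `nc` with `x = e_i, y = e_j`: `ℓ² / (1 + ε) ≤ |L i|² ≤ ℓ²`; with `x = e_i ± e_j, y = e_i ∓ e_j`: `|4 g i j| ≤ ε |L i ∓ L j|² ≤ 4 ε ℓ²`, so `|g i j| ≤ ε ℓ²` for `i ≠ j`.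
Upper bound: for `w ∈ ℝ⁴`, `v_j = ⟨w, L j⟩`: `|v|⁴ = ⟨w, ∑ v_j L j⟩² ≤ |w|² ∑ v_i v_j g i j ≤ |w|² ℓ² (1 + 3 ε) |v|²`, hence `∑_j ⟨w, L j⟩² ≤ ℓ² (1 + 3 ε) |w|²`; with `w = J0 (L i)`: `nrm2 (omg L) = 4 ∑_i ∑_j ⟨J0 (L i), L j⟩² ≤ 16 ℓ⁴ (1 + 3 ε)`.
Lower bound: `(det L)² = det (L Lᵀ) = det g ≥ ℓ⁸ ((1 + ε)⁻⁴ - C ε)` (expand the `4 × 4` determinant; all off-diagonal entries are at most `ε ℓ²`; `ε ≤ 1`), so `4 |Pf (omg L)| = 16 |det L| ≥ 16 ℓ⁴ (1 - C ε)`. With `nrm2 L ≤ 4 ℓ²` and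
`4 |Pf T| ≤ nrm2 T` (`Pf_split`, `nrm2_split`, `nrm2_nonneg` of `Psd.Alg`) both claims follow. (If `ℓ = 0` everything is `0`.)
`dJ_sq`: `∑_i |∑_j J j i L j|² = ∑_{j,k} (∑_i J j i J k i) ⟨L j, L k⟩ = nrm2 L`, `|J0 (L i)| = |L i|`, and the mixed term is `- 2 ∑_{i,j} J j i ⟨L j, J0 (L i)⟩ = - ∑_{i,j} J j i omg L i j`.
`dJ_le`: `J j i = 2 sd c i j / √(nrm2 (sd c))`. For a skew-symmetric self-dual `T`: `∑_i T i j T i k = (nrm2 T / 4) δ_{jk}` (write out: `T 2 3 = T 0 1`, `T 3 1 = T 0 2`, `T 1 2 = T 0 3`), so `J` is orthogonal; `∑ J j i c i j = 2 √(nrm2 (sd c)) ≥ 2 (1 - η) √(nrm2 c)`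
(`sd c ⟂ asd c`, `nrm2_split`); `∑ J j i (omg L i j - c i j) ≥ - 2 √(nrm2 (omg L - c))` (Cauchy-Schwarz, `∑ J² = 4`); `2 nrm2 L ≤ 2 (1 + C ε) √(nrm2 (omg L)) ≤ 2 (1 + C ε) (√(nrm2 c) + √(nrm2 (omg L - c)))` (Minkowski) by `qalg`.
`dJ0_le` is the case `c = c0`, `η = 0` (`c0_facts`: `sd c0 = c0`, `nrm2 c0 = 16`), with the same proof.
-/

open MeasureTheory Set Metric
open scoped ContDiff ENNReal

namespace Pool.Agent.Lib.Qcd

open Pool.Agent.P28b04d Pool.Agent.Lib.Psd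

namespace QAlgAux

theorem omg_eq (L : Fin 4 → Fin 4 → ℝ) (i j : Fin 4) : omg L i j = 2 * ∑ a, J0 (L i) a * L j a := by
  simp only [omg, J0, Fin.sum_univ_four, Matrix.cons_val_zero, Matrix.cons_val_one,
    Matrix.cons_val]
  ring

theorem J0_sq (y : Fin 4 → ℝ) : ∑ a, J0 y a ^ 2 = ∑ a, y a ^ 2 := by
  simp only [J0, Fin.sum_univ_four, Matrix.cons_val_zero, Matrix.cons_val_one,
    Matrix.cons_val]
  ring

theorem omg_sq_le (L : Fin 4 → Fin 4 → ℝ) (i j : Fin 4) :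
    omg L i j ^ 2 ≤ 4 * ((∑ a, L i a ^ 2) * ∑ a, L j a ^ 2) := by
  have h1 : (∑ a, J0 (L i) a * L j a) ^ 2 ≤ (∑ a, J0 (L i) a ^ 2) * ∑ a, L j a ^ 2 :=
    Finset.sum_mul_sq_le_sq_mul_sq _ _ _
  rw [J0_sq] at h1
  rw [omg_eq, mul_pow]
  linarith

theorem nc_diag {ε : ℝ} {L : Fin 4 → Fin 4 → ℝ} (h : nc ε L) (i j : Fin 4) :
    ∑ a, L i a ^ 2 ≤ (1 + ε) * ∑ a, L j a ^ 2 := by
  have := h (fun k => if k = i then 1 else 0) (fun k => if k = j then 1 else 0) (by simp)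
  simpa using this

theorem nc_off' {ε : ℝ} (hε : 0 ≤ ε) {P Q g : ℝ} (hP : 0 ≤ P) (hQ : 0 ≤ Q)
    (h : P + Q + 2 * g ≤ (1 + ε) * (P + Q - 2 * g)) : g ≤ ε / 4 * (P + Q) := by
  by_cases hg : 0 ≤ g
  · nlinarith [mul_nonneg hε hg]
  · push Not at hg
    have : 0 ≤ ε / 4 * (P + Q) := by positivity
    linarith

theorem nc_off {ε : ℝ} (hε : 0 ≤ ε) {L : Fin 4 → Fin 4 → ℝ} (h : nc ε L) {i j : Fin 4}
    (hij : i ≠ j) :
    |∑ a, L i a * L j a| ≤ ε / 4 * (∑ a, L i a ^ 2 + ∑ a, L j a ^ 2) := by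
  have hsum : ∀ s : ℝ, s ^ 2 = 1 → ∑ k : Fin 4, ((if k = i then (1 : ℝ) else 0) +
      s * (if k = j then 1 else 0)) ^ 2 = 2 := by
    intro s hs
    have e : ∀ k : Fin 4, ((if k = i then (1 : ℝ) else 0) + s * (if k = j then 1 else 0)) ^ 2 =
        (if k = i then 1 else 0) + (if k = j then 1 else 0) := by
      intro k
      by_cases h1 : k = i
      · have h2 : k ≠ j := by rw [h1]; exact hij
        simp [h1, hij]
      · by_cases h2 : k = j
        · have h3 : ¬ j = i := fun h => hij h.symm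
          simp [h2, h3, hs]
        · simp [h1, h2]
    rw [Finset.sum_congr rfl fun k _ => e k, Finset.sum_add_distrib]
    simp
    norm_num
  have hval : ∀ s : ℝ, ∀ a : Fin 4, ∑ k : Fin 4, ((if k = i then (1 : ℝ) else 0) +
      s * (if k = j then 1 else 0)) * L k a = L i a + s * L j a := by
    intro s a
    simp only [add_mul, Finset.sum_add_distrib, ite_mul, one_mul, zero_mul, mul_assoc,
      Finset.sum_ite_eq', Finset.mem_univ, if_true]
    rw [← Finset.mul_sum]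
    simp
  have hq : ∀ s : ℝ, s ^ 2 = 1 → ∑ a, (L i a + s * L j a) ^ 2 =
      ∑ a, L i a ^ 2 + ∑ a, L j a ^ 2 + 2 * (s * ∑ a, L i a * L j a) := by
    intro s hs
    rw [Finset.mul_sum, Finset.mul_sum, ← Finset.sum_add_distrib, ← Finset.sum_add_distrib]
    refine Finset.sum_congr rfl fun a _ => ?_
    have : (L i a + s * L j a) ^ 2 = L i a ^ 2 + s ^ 2 * L j a ^ 2 + 2 * (s * (L i a * L j a)) := by
      ring
    rw [this, hs, one_mul]
  have key : ∀ s : ℝ, s ^ 2 = 1 → s * ∑ a, L i a * L j a ≤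
      ε / 4 * (∑ a, L i a ^ 2 + ∑ a, L j a ^ 2) := by
    intro s hs
    have hs' : (-s) ^ 2 = 1 := by rw [neg_sq, hs]
    have h1 := h (fun k => (if k = i then (1 : ℝ) else 0) + s * (if k = j then 1 else 0))
      (fun k => (if k = i then (1 : ℝ) else 0) + -s * (if k = j then 1 else 0))
      (by rw [hsum s hs, hsum (-s) hs'])
    simp only [hval] at h1
    rw [hq s hs, hq (-s) hs'] at h1
    refine nc_off' hε (Finset.sum_nonneg fun a _ => sq_nonneg _)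
      (Finset.sum_nonneg fun a _ => sq_nonneg _) ?_
    refine h1.trans (le_of_eq ?_)
    ring
  rw [abs_le]
  have h1 := key 1 (by norm_num)
  have h2 := key (-1) (by norm_num)
  constructor <;> linarith

theorem nc_up {ε : ℝ} {L : Fin 4 → Fin 4 → ℝ} (h : nc ε L) (x : Fin 4 → ℝ) :
    ∑ a, (∑ i, x i * L i a) ^ 2 ≤ (1 + ε) * ((∑ i, x i ^ 2) * ∑ a, L 0 a ^ 2) := by
  have hx : 0 ≤ ∑ i, x i ^ 2 := Finset.sum_nonneg fun i _ => sq_nonneg _
  have h1 := h x (fun k => if k = 0 then √(∑ i, x i ^ 2) else 0) (by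
    simp [Real.sq_sqrt hx])
  refine h1.trans (le_of_eq ?_)
  congr 1
  rw [Finset.mul_sum]
  refine Finset.sum_congr rfl fun a _ => ?_
  simp only [ite_mul, zero_mul, Finset.sum_ite_eq', Finset.mem_univ, if_true]
  rw [mul_pow, Real.sq_sqrt hx]

theorem col_le {ε : ℝ} {L : Fin 4 → Fin 4 → ℝ} (h : nc ε L) (w : Fin 4 → ℝ) :
    ∑ j, (∑ a, w a * L j a) ^ 2 ≤ (1 + ε) * (∑ a, L 0 a ^ 2) * ∑ a, w a ^ 2 := by
  set v : Fin 4 → ℝ := fun j => ∑ a, w a * L j a with hv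
  set S : ℝ := ∑ j, v j ^ 2 with hS
  have hS0 : 0 ≤ S := Finset.sum_nonneg fun i _ => sq_nonneg _
  change S ≤ _
  have h1 : S = ∑ a, w a * ∑ j, v j * L j a := by
    rw [hS]
    simp only [Finset.mul_sum]
    rw [Finset.sum_comm]
    refine Finset.sum_congr rfl fun j _ => ?_
    rw [pow_two]
    nth_rewrite 2 [hv]
    rw [Finset.mul_sum]
    refine Finset.sum_congr rfl fun a _ => ?_
    ring
  have h2 : S ^ 2 ≤ (∑ a, w a ^ 2) * ∑ a, (∑ j, v j * L j a) ^ 2 := by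
    nth_rewrite 1 [h1]
    exact Finset.sum_mul_sq_le_sq_mul_sq _ _ _
  have h3 := nc_up h v
  have hw : 0 ≤ ∑ a, w a ^ 2 := Finset.sum_nonneg fun i _ => sq_nonneg _
  have h4 : S ^ 2 ≤ ((1 + ε) * (∑ a, L 0 a ^ 2) * ∑ a, w a ^ 2) * S := by
    refine (h2.trans (mul_le_mul_of_nonneg_left h3 hw)).trans (le_of_eq ?_)
    ring
  rcases hS0.eq_or_lt with h0 | h0
  · rw [← h0]
    have hL : 0 ≤ ∑ a, L 0 a ^ 2 := Finset.sum_nonneg fun i _ => sq_nonneg _
    have h5 := nc_diag h 0 0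
    rcases hL.eq_or_lt with h6 | h6
    · rw [← h6]; simp
    · have h7 : 0 ≤ ε := by
        by_contra hcon
        push Not at hcon
        nlinarith
      positivity
  · rw [pow_two] at h4
    exact le_of_mul_le_mul_right h4 h0

theorem det_near {D : Matrix (Fin 4) (Fin 4) ℝ} {ε : ℝ} (hε : 0 ≤ ε) (hε1 : ε ≤ 1)
    (h : ∀ i j, |D i j - if i = j then 1 else 0| ≤ ε) : 1 - 188 * ε ≤ D.det := by
  have hoff : ∀ i j, i ≠ j → |D i j| ≤ ε := by
    intro i j hij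
    have := h i j
    rwa [if_neg hij, sub_zero] at this
  have hdiag : ∀ i, 1 - ε ≤ D i i := by
    intro i
    have := h i i
    rw [if_pos rfl] at this
    linarith [(abs_le.1 this).1]
  have hall : ∀ i j, |D i j| ≤ 2 := by
    intro i j
    by_cases hij : i = j
    · have := h i j
      rw [if_pos hij] at this
      have h2 := abs_le.1 this
      exact abs_le.2 ⟨by linarith [h2.1], by linarith [h2.2]⟩
    · exact (hoff i j hij).trans (by linarith)
  rw [Matrix.det_apply]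
  rw [← Finset.add_sum_erase Finset.univ _ (Finset.mem_univ (1 : Equiv.Perm (Fin 4)))]
  have h1 : 1 - 4 * ε ≤ Equiv.Perm.sign (1 : Equiv.Perm (Fin 4)) •
      ∏ i, D ((1 : Equiv.Perm (Fin 4)) i) i := by
    rw [Equiv.Perm.sign_one, one_smul]
    simp only [Equiv.Perm.one_apply]
    have h2 : ∏ _i : Fin 4, (1 - ε) ≤ ∏ i, D i i :=
      Finset.prod_le_prod (fun i _ => by linarith) fun i _ => hdiag i
    rw [Finset.prod_const, Finset.card_univ, Fintype.card_fin] at h2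
    refine le_trans ?_ h2
    have h3 := one_add_mul_le_pow (a := -ε) (by linarith) 4
    have e1 : (1 : ℝ) + (4 : ℕ) * -ε = 1 - 4 * ε := by push_cast; ring
    have e2 : (1 : ℝ) + -ε = 1 - ε := by ring
    rw [e1, e2] at h3
    exact h3
  have h2 : |∑ σ ∈ Finset.univ.erase (1 : Equiv.Perm (Fin 4)), Equiv.Perm.sign σ •
      ∏ i, D (σ i) i| ≤ 184 * ε := by
    have h3 : ∀ σ ∈ Finset.univ.erase (1 : Equiv.Perm (Fin 4)),
        |Equiv.Perm.sign σ • ∏ i, D (σ i) i| ≤ 8 * ε := by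
      intro σ hσ
      have hne := Finset.ne_of_mem_erase hσ
      obtain ⟨i0, hi0⟩ : ∃ i, σ i ≠ i := by
        by_contra hcon
        push Not at hcon
        exact hne (Equiv.ext hcon)
      have h4 : |Equiv.Perm.sign σ • ∏ i, D (σ i) i| = ∏ i, |D (σ i) i| := by
        rcases Int.units_eq_one_or (Equiv.Perm.sign σ) with h5 | h5
        · rw [h5, one_smul, Finset.abs_prod]
        · rw [h5, Units.neg_smul, one_smul, abs_neg, Finset.abs_prod]
      rw [h4, ← Finset.mul_prod_erase Finset.univ _ (Finset.mem_univ i0)]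
      have h6 : ∏ i ∈ Finset.univ.erase i0, |D (σ i) i| ≤ ∏ _i ∈ Finset.univ.erase i0, (2 : ℝ) :=
        Finset.prod_le_prod (fun i _ => abs_nonneg _) fun i _ => hall _ _
      rw [Finset.prod_const, Finset.card_erase_of_mem (Finset.mem_univ i0), Finset.card_univ,
        Fintype.card_fin] at h6
      have h7 := hoff (σ i0) i0 hi0
      have h8 : 0 ≤ ∏ i ∈ Finset.univ.erase i0, |D (σ i) i| :=
        Finset.prod_nonneg fun i _ => abs_nonneg _
      calc |D (σ i0) i0| * ∏ i ∈ Finset.univ.erase i0, |D (σ i) i| ≤ ε * 2 ^ (4 - 1) :=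
            mul_le_mul h7 h6 h8 hε
        _ = 8 * ε := by norm_num; ring
    refine (Finset.abs_sum_le_sum_abs _ _).trans ((Finset.sum_le_sum h3).trans ?_)
    rw [Finset.sum_const, Finset.card_erase_of_mem (Finset.mem_univ _), Finset.card_univ,
      Fintype.card_perm, Fintype.card_fin, nsmul_eq_mul]
    have : ((Nat.factorial 4 - 1 : ℕ) : ℝ) = 23 := by
      have : Nat.factorial 4 - 1 = 23 := by decide
      rw [this]; norm_num
    rw [this]
    linarith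
  have h3 := (abs_le.1 h2).1
  linarith

theorem gram_det (L : Fin 4 → Fin 4 → ℝ) {A ε : ℝ} (hA : 0 < A) (hε : 0 ≤ ε) (hε1 : ε ≤ 1)
    (hd : ∀ i, |∑ a, L i a * L i a - A| ≤ ε * A)
    (ho : ∀ i j, i ≠ j → |∑ a, L i a * L j a| ≤ ε * A) :
    A ^ 4 * (1 - 188 * ε) ≤ (Matrix.of L).det ^ 2 := by
  have h1 : ((Matrix.of L) * (Matrix.of L).transpose).det = (Matrix.of L).det ^ 2 := by
    rw [Matrix.det_mul, Matrix.det_transpose, pow_two]
  have h2 : ∀ i j, ((Matrix.of L) * (Matrix.of L).transpose) i j = ∑ a, L i a * L j a := by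
    intro i j
    rw [Matrix.mul_apply]
    rfl
  have h3 : 1 - 188 * ε ≤ (A⁻¹ • ((Matrix.of L) * (Matrix.of L).transpose)).det := by
    refine det_near hε hε1 fun i j => ?_
    rw [Matrix.smul_apply, smul_eq_mul, h2]
    by_cases hij : i = j
    · subst hij
      rw [if_pos rfl]
      have e1 : A⁻¹ * ∑ a, L i a * L i a - 1 = A⁻¹ * (∑ a, L i a * L i a - A) := by
        rw [mul_sub, inv_mul_cancel₀ hA.ne']
      rw [e1, abs_mul, abs_of_pos (inv_pos.2 hA), inv_mul_le_iff₀ hA]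
      have := hd i
      linarith
    · rw [if_neg hij, sub_zero, abs_mul, abs_of_pos (inv_pos.2 hA), inv_mul_le_iff₀ hA]
      have := ho i j hij
      linarith
  rw [Matrix.det_smul, h1, Fintype.card_fin] at h3
  have h4 : A ^ 4 * (A⁻¹ ^ 4 * (Matrix.of L).det ^ 2) = (Matrix.of L).det ^ 2 := by
    rw [← mul_assoc, ← mul_pow, mul_inv_cancel₀ hA.ne', one_pow, one_mul]
  have h5 := mul_le_mul_of_nonneg_left h3 (by positivity : 0 ≤ A ^ 4)
  rwa [h4] at h5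

theorem Pf_le {T : Fin 4 → Fin 4 → ℝ} (hT : Skew T) : 4 * |Pf T| ≤ nrm2 T := by
  have h1 := nrm2_split hT
  have h2 := Pf_split hT
  have h3 := nrm2_nonneg (sd T)
  have h4 := nrm2_nonneg (asd T)
  rcases abs_cases (Pf T) with h | h <;> linarith [h.1]

theorem ip_le (S T : Fin 4 → Fin 4 → ℝ) :
    ∑ i, ∑ j, S i j * T i j ≤ √(nrm2 S) * √(nrm2 T) := by
  have h1 : ∑ p : Fin 4 × Fin 4, S p.1 p.2 * T p.1 p.2 ≤
      √(∑ p : Fin 4 × Fin 4, S p.1 p.2 ^ 2) * √(∑ p : Fin 4 × Fin 4, T p.1 p.2 ^ 2) :=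
    Real.sum_mul_le_sqrt_mul_sqrt _ _ _
  rw [Fintype.sum_prod_type, Fintype.sum_prod_type, Fintype.sum_prod_type] at h1
  exact h1

theorem mink (S T : Fin 4 → Fin 4 → ℝ) :
    √(nrm2 (fun i j => S i j + T i j)) ≤ √(nrm2 S) + √(nrm2 T) := by
  have hS := nrm2_nonneg S
  have hT := nrm2_nonneg T
  rw [Real.sqrt_le_left (by positivity)]
  have h1 : nrm2 (fun i j => S i j + T i j) = nrm2 S + nrm2 T + 2 * ∑ i, ∑ j, S i j * T i j := by
    unfold nrm2
    rw [Finset.mul_sum, ← Finset.sum_add_distrib, ← Finset.sum_add_distrib]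
    refine Finset.sum_congr rfl fun i _ => ?_
    rw [Finset.mul_sum, ← Finset.sum_add_distrib, ← Finset.sum_add_distrib]
    refine Finset.sum_congr rfl fun j _ => ?_
    ring
  have h2 := ip_le S T
  have h3 := Real.sq_sqrt hS
  have h4 := Real.sq_sqrt hT
  rw [h1, add_sq, h3, h4]
  linarith

end QAlgAux

open QAlgAux

theorem omg_skew (L : Fin 4 → Fin 4 → ℝ) : Skew (omg L) := by
  intro i j
  unfold omg
  ring

theorem nrm2_omg_le (L : Fin 4 → Fin 4 → ℝ) : nrm2 (omg L) ≤ 4 * nrm2 L ^ 2 := by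
  have h1 : nrm2 (omg L) ≤ ∑ i, ∑ j, 4 * ((∑ a, L i a ^ 2) * ∑ a, L j a ^ 2) :=
    Finset.sum_le_sum fun i _ => Finset.sum_le_sum fun j _ => omg_sq_le L i j
  refine h1.trans (le_of_eq ?_)
  unfold nrm2
  rw [pow_two, Finset.sum_mul_sum, Finset.mul_sum]
  refine Finset.sum_congr rfl fun i _ => ?_
  rw [Finset.mul_sum]

theorem Pf_omg (L : Fin 4 → Fin 4 → ℝ) : Pf (omg L) = 4 * (Matrix.of L).det := by
  rw [Matrix.det_succ_row_zero]
  simp only [Fin.sum_univ_four, Matrix.det_fin_three, Matrix.submatrix_apply, Matrix.of_apply, Pf,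
    omg, Fin.succ_zero_eq_one, Fin.succ_one_eq_two, Fin.succAbove_zero]
  simp [Fin.succAbove, Fin.ext_iff]
  ring


theorem qalg : ∃ C : ℝ, 1 ≤ C ∧ ∀ ε : ℝ, 0 ≤ ε → ε ≤ 1 / C → ∀ L : Fin 4 → Fin 4 → ℝ, nc ε L →
    nrm2 L ^ 2 ≤ (1 + C * ε) * nrm2 (omg L) ∧
      nrm2 (omg L) ≤ (1 + C * ε) * (4 * |Pf (omg L)|) := by
  refine ⟨400, by norm_num, ?_⟩
  intro ε hε hε1 L h
  have hε2 : 400 * ε ≤ 1 := by linarith
  obtain ⟨A, hAdef⟩ : ∃ A : ℝ, A = ∑ a, L 0 a ^ 2 := ⟨_, rfl⟩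
  have hA0 : 0 ≤ A := by rw [hAdef]; exact Finset.sum_nonneg fun i _ => sq_nonneg _
  have hup : ∀ i, ∑ a, L i a ^ 2 ≤ (1 + ε) * A := fun i => by rw [hAdef]; exact nc_diag h i 0
  have hlo : ∀ i, A ≤ (1 + ε) * ∑ a, L i a ^ 2 := fun i => by rw [hAdef]; exact nc_diag h 0 i
  have hB : nrm2 L ≤ 4 * ((1 + ε) * A) := by
    unfold nrm2
    calc ∑ i, ∑ j, L i j ^ 2 ≤ ∑ _i : Fin 4, (1 + ε) * A := Finset.sum_le_sum fun i _ => hup i
      _ = 4 * ((1 + ε) * A) := by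
        rw [Finset.sum_const, Finset.card_univ, Fintype.card_fin, nsmul_eq_mul]
        norm_num
  have hB0 := nrm2_nonneg L
  have hO : nrm2 (omg L) ≤ 16 * ((1 + ε) * A) ^ 2 := by
    unfold nrm2
    have h1 : ∀ i, ∑ j, omg L i j ^ 2 ≤ 4 * ((1 + ε) * A) ^ 2 := by
      intro i
      have h2 := col_le h (J0 (L i))
      rw [J0_sq, ← hAdef] at h2
      have h3 : ∑ j, omg L i j ^ 2 = 4 * ∑ j, (∑ a, J0 (L i) a * L j a) ^ 2 := by
        rw [Finset.mul_sum]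
        refine Finset.sum_congr rfl fun j _ => ?_
        rw [omg_eq]
        ring
      rw [h3]
      have h4 : (1 + ε) * A * ∑ a, L i a ^ 2 ≤ (1 + ε) * A * ((1 + ε) * A) :=
        mul_le_mul_of_nonneg_left (hup i) (by positivity)
      calc 4 * ∑ j, (∑ a, J0 (L i) a * L j a) ^ 2 ≤ 4 * ((1 + ε) * A * ((1 + ε) * A)) := by
            linarith
        _ = 4 * ((1 + ε) * A) ^ 2 := by ring
    calc ∑ i, ∑ j, omg L i j ^ 2 ≤ ∑ _i : Fin 4, 4 * ((1 + ε) * A) ^ 2 :=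
          Finset.sum_le_sum fun i _ => h1 i
      _ = 16 * ((1 + ε) * A) ^ 2 := by
        rw [Finset.sum_const, Finset.card_univ, Fintype.card_fin, nsmul_eq_mul]
        push_cast
        ring
  have hd : 0 ≤ 1 - 188 * ε := by linarith
  have hP : 16 * A ^ 2 * (1 - 188 * ε) ≤ 4 * |Pf (omg L)| := by
    rcases hA0.eq_or_lt with h0 | h0
    · rw [← h0]
      have := abs_nonneg (Pf (omg L))
      simp only [ne_eq, OfNat.ofNat_ne_zero, not_false_eq_true, zero_pow, mul_zero, zero_mul]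
      linarith
    · have h1 := gram_det L h0 hε (by linarith) (fun i => by
        have e1 : ∑ a, L i a * L i a = ∑ a, L i a ^ 2 :=
          Finset.sum_congr rfl fun a _ => (pow_two _).symm
        rw [e1, abs_le]
        have h2 := hup i
        have h3 := hlo i
        constructor
        · by_contra hcon
          push Not at hcon
          have h4 : ∑ a, L i a ^ 2 < (1 - ε) * A := by linarith
          have h5 : (1 + ε) * ∑ a, L i a ^ 2 < (1 + ε) * ((1 - ε) * A) :=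
            mul_lt_mul_of_pos_left h4 (by linarith)
          nlinarith [mul_nonneg (mul_nonneg hε hε) hA0]
        · linarith) (fun i j hij => by
        have h2 := nc_off hε h hij
        have h3 := hup i
        have h4 := hup j
        refine h2.trans ?_
        have h5 : ∑ a, L i a ^ 2 + ∑ a, L j a ^ 2 ≤ 4 * A := by nlinarith
        have h6 : 0 ≤ ε / 4 := by linarith
        calc ε / 4 * (∑ a, L i a ^ 2 + ∑ a, L j a ^ 2) ≤ ε / 4 * (4 * A) :=
              mul_le_mul_of_nonneg_left h5 h6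
          _ = ε * A := by ring)
      have h2 : (A ^ 2 * (1 - 188 * ε)) ^ 2 ≤ |(Matrix.of L).det| ^ 2 := by
        rw [sq_abs]
        refine le_trans ?_ h1
        have h3 : (1 - 188 * ε) ^ 2 ≤ 1 - 188 * ε := by nlinarith
        calc (A ^ 2 * (1 - 188 * ε)) ^ 2 = A ^ 4 * (1 - 188 * ε) ^ 2 := by ring
          _ ≤ A ^ 4 * (1 - 188 * ε) := mul_le_mul_of_nonneg_left h3 (by positivity)
      have h3 := (sq_le_sq₀ (by positivity) (abs_nonneg _)).1 h2
      rw [Pf_omg, abs_mul, abs_of_pos (by norm_num : (0:ℝ) < 4)]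
      linarith
  have hPf := Pf_le (omg_skew L)
  have hnum : (1 + ε) ^ 2 ≤ (1 + 400 * ε) * (1 - 188 * ε) := by nlinarith
  have hA2 : 0 ≤ 16 * A ^ 2 := by positivity
  have hkey : 16 * ((1 + ε) * A) ^ 2 ≤ (1 + 400 * ε) * (4 * |Pf (omg L)|) := by
    calc 16 * ((1 + ε) * A) ^ 2 = 16 * A ^ 2 * (1 + ε) ^ 2 := by ring
      _ ≤ 16 * A ^ 2 * ((1 + 400 * ε) * (1 - 188 * ε)) := mul_le_mul_of_nonneg_left hnum hA2
      _ = (1 + 400 * ε) * (16 * A ^ 2 * (1 - 188 * ε)) := by ring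
      _ ≤ (1 + 400 * ε) * (4 * |Pf (omg L)|) := mul_le_mul_of_nonneg_left hP (by linarith)
  constructor
  · have h1 : nrm2 L ^ 2 ≤ (4 * ((1 + ε) * A)) ^ 2 := pow_le_pow_left₀ hB0 hB 2
    calc nrm2 L ^ 2 ≤ (4 * ((1 + ε) * A)) ^ 2 := h1
      _ = 16 * ((1 + ε) * A) ^ 2 := by ring
      _ ≤ (1 + 400 * ε) * (4 * |Pf (omg L)|) := hkey
      _ ≤ (1 + 400 * ε) * nrm2 (omg L) := mul_le_mul_of_nonneg_left hPf (by linarith)
  · exact hO.trans hkey

theorem dJ_sq {J : Fin 4 → Fin 4 → ℝ} (L : Fin 4 → Fin 4 → ℝ)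
    (hJ : ∀ j k, ∑ i, J j i * J k i = if j = k then 1 else 0) :
    nrm2 (dJ J L) = 2 * nrm2 L - ∑ i, ∑ j, J j i * omg L i j := by
  have h1 : nrm2 (dJ J L) = ∑ i, ∑ a, (∑ j, J j i * L j a) ^ 2 + ∑ i, ∑ a, J0 (L i) a ^ 2 -
      2 * ∑ i, ∑ a, (∑ j, J j i * L j a) * J0 (L i) a := by
    unfold nrm2 dJ
    rw [Finset.mul_sum, ← Finset.sum_add_distrib, ← Finset.sum_sub_distrib]
    refine Finset.sum_congr rfl fun i _ => ?_
    rw [Finset.mul_sum, ← Finset.sum_add_distrib, ← Finset.sum_sub_distrib]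
    refine Finset.sum_congr rfl fun a _ => ?_
    ring
  have h2 : ∑ i, ∑ a, J0 (L i) a ^ 2 = nrm2 L :=
    Finset.sum_congr rfl fun i _ => J0_sq (L i)
  have h3 : ∑ i, ∑ a, (∑ j, J j i * L j a) ^ 2 = nrm2 L := by
    have e1 : ∀ a, ∑ i, (∑ j, J j i * L j a) ^ 2 = ∑ j, L j a ^ 2 := by
      intro a
      have e2 : ∀ i, (∑ j, J j i * L j a) ^ 2 = ∑ j, ∑ k, L j a * L k a * (J j i * J k i) := by
        intro i
        rw [pow_two, Finset.sum_mul_sum]
        refine Finset.sum_congr rfl fun j _ => Finset.sum_congr rfl fun k _ => ?_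
        ring
      rw [Finset.sum_congr rfl fun i _ => e2 i, Finset.sum_comm]
      refine Finset.sum_congr rfl fun j _ => ?_
      rw [Finset.sum_comm]
      have e3 : ∀ k, ∑ i, L j a * L k a * (J j i * J k i) =
          L j a * L k a * (if j = k then 1 else 0) := by
        intro k
        rw [← Finset.mul_sum, hJ]
      rw [Finset.sum_congr rfl fun k _ => e3 k]
      simp only [mul_ite, mul_one, mul_zero, Finset.sum_ite_eq, Finset.mem_univ, if_true]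
      ring
    rw [Finset.sum_comm, Finset.sum_congr rfl fun a _ => e1 a, Finset.sum_comm]
    rfl
  have h4 : 2 * ∑ i, ∑ a, (∑ j, J j i * L j a) * J0 (L i) a = ∑ i, ∑ j, J j i * omg L i j := by
    rw [Finset.mul_sum]
    refine Finset.sum_congr rfl fun i _ => ?_
    simp only [omg_eq, Finset.mul_sum, Finset.sum_mul]
    rw [Finset.sum_comm]
    refine Finset.sum_congr rfl fun j _ => Finset.sum_congr rfl fun a _ => ?_
    ring
  rw [h1, h2, h3, h4]
  ring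

namespace QAlgAux

theorem sd_orth {T : Fin 4 → Fin 4 → ℝ} (h : Skew T) (j k : Fin 4) :
    ∑ i, sd T i j * sd T i k = nrm2 (sd T) / 4 * (if j = k then 1 else 0) := by
  obtain ⟨⟨e1, e2, e3, e4⟩, ⟨e5, e6, e7⟩, ⟨e8, e9, e10⟩⟩ := Psd.AlgAux.sk h
  fin_cases j <;> fin_cases k <;>
    simp only [nrm2, sd, st, Fin.sum_univ_four, Matrix.cons_val_zero, Matrix.cons_val_one,
      Matrix.cons_val, e1, e2, e3, e4, e5, e6, e7, e8, e9, e10, Fin.zero_eta, Fin.mk_one,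
      Fin.reduceFinMk, if_true, Fin.reduceEq, if_false, zero_ne_one, one_ne_zero] <;>
    ring

theorem sd_ip {T : Fin 4 → Fin 4 → ℝ} (h : Skew T) : ∑ i, ∑ j, sd T i j * T i j = nrm2 (sd T) := by
  obtain ⟨⟨e1, e2, e3, e4⟩, ⟨e5, e6, e7⟩, ⟨e8, e9, e10⟩⟩ := Psd.AlgAux.sk h
  simp only [nrm2, sd, st, Fin.sum_univ_four, Matrix.cons_val_zero, Matrix.cons_val_one,
    Matrix.cons_val, e1, e2, e3, e4, e5, e6, e7, e8, e9, e10]
  ring

theorem sd_skew {T : Fin 4 → Fin 4 → ℝ} (h : Skew T) : Skew (sd T) := by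
  obtain ⟨⟨e1, e2, e3, e4⟩, ⟨e5, e6, e7⟩, ⟨e8, e9, e10⟩⟩ := Psd.AlgAux.sk h
  intro i j
  fin_cases i <;> fin_cases j <;>
    simp only [sd, st, Matrix.cons_val_zero, Matrix.cons_val_one,
      Matrix.cons_val, e1, e2, e3, e4, e5, e6, e7, e8, e9, e10, Fin.zero_eta, Fin.mk_one,
      Fin.reduceFinMk] <;>
    ring

/-- the common estimate -/
theorem dJ_main {c : Fin 4 → Fin 4 → ℝ} (hc : Skew c) (hN : 0 < nrm2 (sd c)) {C ε : ℝ}
    (L : Fin 4 → Fin 4 → ℝ) (hC : 0 ≤ C * ε) (hq : nrm2 L ^ 2 ≤ (1 + C * ε) * nrm2 (omg L)) :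
    nrm2 (dJ (fun j i => 2 / √(nrm2 (sd c)) * sd c i j) L) ≤
      2 * (1 + C * ε) * (√(nrm2 c) + √(nrm2 (fun i j => omg L i j - c i j))) -
        2 * √(nrm2 (sd c)) + 2 * √(nrm2 (fun i j => omg L i j - c i j)) := by
  set N : ℝ := nrm2 (sd c) with hNd
  have hs : 0 < √N := Real.sqrt_pos.2 hN
  have hss : √N * √N = N := Real.mul_self_sqrt hN.le
  set J : Fin 4 → Fin 4 → ℝ := fun j i => 2 / √N * sd c i j with hJd
  have hJ : ∀ j k, ∑ i, J j i * J k i = if j = k then 1 else 0 := by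
    intro j k
    have e1 : ∀ i, J j i * J k i = 4 / N * (sd c i j * sd c i k) := by
      intro i
      have : (2 / √N) * (2 / √N) = 4 / N := by
        rw [div_mul_div_comm, hss]
        norm_num
      calc J j i * J k i = (2 / √N) * (2 / √N) * (sd c i j * sd c i k) := by
            simp only [hJd]; ring
        _ = _ := by rw [this]
    rw [Finset.sum_congr rfl fun i _ => e1 i, ← Finset.mul_sum, sd_orth hc, ← hNd, ← mul_assoc]
    have : 4 / N * (N / 4) = 1 := by field_simp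
    rw [this, one_mul]
  rw [dJ_sq L hJ]
  have h1 : ∑ i, ∑ j, J j i * omg L i j = ∑ i, ∑ j, J j i * c i j +
      ∑ i, ∑ j, J j i * (omg L i j - c i j) := by
    rw [← Finset.sum_add_distrib]
    refine Finset.sum_congr rfl fun i _ => ?_
    rw [← Finset.sum_add_distrib]
    refine Finset.sum_congr rfl fun j _ => ?_
    ring
  have h2 : ∑ i, ∑ j, J j i * c i j = 2 * √N := by
    have e1 : ∑ i, ∑ j, J j i * c i j = 2 / √N * ∑ i, ∑ j, sd c i j * c i j := by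
      rw [Finset.mul_sum]
      refine Finset.sum_congr rfl fun i _ => ?_
      rw [Finset.mul_sum]
      refine Finset.sum_congr rfl fun j _ => ?_
      simp only [hJd]
      ring
    rw [e1, sd_ip hc, ← hNd]
    rw [div_mul_eq_mul_div, div_eq_iff hs.ne']
    rw [mul_assoc, hss]
  have h3 : -(2 * √(nrm2 (fun i j => omg L i j - c i j))) ≤
      ∑ i, ∑ j, J j i * (omg L i j - c i j) := by
    have e1 := ip_le (fun i j => -(J j i)) (fun i j => omg L i j - c i j)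
    have e2 : nrm2 (fun i j => -(J j i)) = 4 := by
      unfold nrm2
      rw [Finset.sum_comm]
      have e3 : ∀ j, ∑ i, (-(J j i)) ^ 2 = 1 := by
        intro j
        have := hJ j j
        rw [if_pos rfl] at this
        rw [← this]
        refine Finset.sum_congr rfl fun i _ => ?_
        ring
      rw [Finset.sum_congr rfl fun j _ => e3 j]
      simp
    have e4 : √(4 : ℝ) = 2 := by
      rw [show (4 : ℝ) = 2 ^ 2 by norm_num]
      exact Real.sqrt_sq (by norm_num)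
    rw [e2, e4] at e1
    have e5 : ∑ i, ∑ j, -(J j i) * (omg L i j - c i j) =
        -∑ i, ∑ j, J j i * (omg L i j - c i j) := by
      rw [← Finset.sum_neg_distrib]
      refine Finset.sum_congr rfl fun i _ => ?_
      rw [← Finset.sum_neg_distrib]
      refine Finset.sum_congr rfl fun j _ => ?_
      ring
    rw [e5] at e1
    linarith
  have h4 : nrm2 L ≤ (1 + C * ε) * (√(nrm2 c) + √(nrm2 (fun i j => omg L i j - c i j))) := by
    have e1 : nrm2 L ≤ (1 + C * ε) * √(nrm2 (omg L)) := by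
      have e2 : nrm2 L ^ 2 ≤ ((1 + C * ε) * √(nrm2 (omg L))) ^ 2 := by
        rw [mul_pow, Real.sq_sqrt (nrm2_nonneg _)]
        refine hq.trans (mul_le_mul_of_nonneg_right ?_ (nrm2_nonneg _))
        nlinarith
      exact (sq_le_sq₀ (nrm2_nonneg _) (by positivity)).1 e2
    have e3 := mink c (fun i j => omg L i j - c i j)
    have e4 : (fun i j => c i j + (omg L i j - c i j)) = omg L := by
      funext i j
      ring
    rw [e4] at e3
    exact e1.trans (mul_le_mul_of_nonneg_left e3 (by linarith))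
  rw [h1, h2]
  linarith

end QAlgAux

theorem dJ_le : ∃ C : ℝ, 1 ≤ C ∧ ∀ ε η : ℝ, 0 ≤ ε → ε ≤ 1 / C → 0 ≤ η → η ≤ 1 / 2 →
    ∀ c : Fin 4 → Fin 4 → ℝ, Skew c → 0 < nrm2 c → nrm2 (asd c) ≤ η ^ 2 * nrm2 c →
      ∃ J : Fin 4 → Fin 4 → ℝ, (∀ i j, J i j = -J j i) ∧ ∀ L : Fin 4 → Fin 4 → ℝ, nc ε L →
        nrm2 (dJ J L) ≤ C * ((ε + η) * Real.sqrt (nrm2 c) +
          Real.sqrt (nrm2 (fun i j => omg L i j - c i j))) := by
  obtain ⟨C, hC, hq⟩ := qalg
  refine ⟨6 * C, by linarith, ?_⟩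
  intro ε η hε hε1 hη hη1 c hc hc0 hasd
  have hC0 : 0 < C := by linarith
  have hε2 : ε ≤ 1 / C := hε1.trans (one_div_le_one_div_of_le hC0 (by linarith))
  have hCε : C * ε ≤ 1 := by
    have := mul_le_mul_of_nonneg_left hε2 hC0.le
    rwa [mul_one_div, div_self hC0.ne'] at this
  have hCε0 : 0 ≤ C * ε := by positivity
  have hsplit := nrm2_split hc
  have hη2 : η ^ 2 ≤ η := by nlinarith
  have hN1 : (1 - η ^ 2) * nrm2 c ≤ nrm2 (sd c) := by linarith
  have hη3 : η ^ 2 ≤ 1 / 4 := by nlinarith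
  have hN : 0 < nrm2 (sd c) := by
    have : 0 < (1 - η ^ 2) * nrm2 c := by
      apply mul_pos _ hc0
      linarith
    linarith
  have hsN : (1 - η) * √(nrm2 c) ≤ √(nrm2 (sd c)) := by
    apply Real.le_sqrt_of_sq_le
    rw [mul_pow, Real.sq_sqrt hc0.le]
    refine le_trans (mul_le_mul_of_nonneg_right ?_ hc0.le) hN1
    nlinarith
  refine ⟨fun j i => 2 / √(nrm2 (sd c)) * sd c i j, ?_, ?_⟩
  · intro i j
    change 2 / √(nrm2 (sd c)) * sd c j i = -(2 / √(nrm2 (sd c)) * sd c i j)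
    rw [sd_skew hc j i]
    ring
  · intro L hL
    have h1 := dJ_main hc hN L hCε0 (hq ε hε hε2 L hL).1
    refine h1.trans ?_
    set s : ℝ := √(nrm2 c) with hs
    set r : ℝ := √(nrm2 (fun i j => omg L i j - c i j)) with hr
    have hs0 : 0 ≤ s := Real.sqrt_nonneg _
    have hr0 : 0 ≤ r := Real.sqrt_nonneg _
    have h2 : C * ε * r ≤ r := by
      have := mul_le_mul_of_nonneg_right hCε hr0
      linarith
    have h3 : 0 ≤ C * ε * s := by positivity
    have h4 : η * s ≤ C * (η * s) := by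
      have : 0 ≤ η * s := by positivity
      nlinarith
    have h5 : r ≤ C * r := by nlinarith
    nlinarith [mul_nonneg hη hs0]

theorem dJ0_le : ∃ C : ℝ, 1 ≤ C ∧ ∀ ε : ℝ, 0 ≤ ε → ε ≤ 1 / C → ∀ L : Fin 4 → Fin 4 → ℝ, nc ε L →
    nrm2 (dJ (fun j i => c0 i j / 2) L) ≤
      C * (ε + Real.sqrt (nrm2 (fun i j => omg L i j - c0 i j))) := by
  obtain ⟨C, hC, hq⟩ := qalg
  refine ⟨8 * C, by linarith, ?_⟩
  intro ε hε hε1 L hL
  have hC0 : 0 < C := by linarith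
  have hε2 : ε ≤ 1 / C := hε1.trans (one_div_le_one_div_of_le hC0 (by linarith))
  have hCε : C * ε ≤ 1 := by
    have := mul_le_mul_of_nonneg_left hε2 hC0.le
    rwa [mul_one_div, div_self hC0.ne'] at this
  have hCε0 : 0 ≤ C * ε := by positivity
  obtain ⟨f1, f2, f3, f4, f5⟩ := c0_facts
  have hN : 0 < nrm2 (sd c0) := by rw [f4, f2]; norm_num
  have h1 := dJ_main f1 hN L hCε0 (hq ε hε hε2 L hL).1
  have e4 : √(16 : ℝ) = 4 := by
    rw [show (16 : ℝ) = 4 ^ 2 by norm_num]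
    exact Real.sqrt_sq (by norm_num)
  rw [f4, f2, e4] at h1
  have e5 : (fun j i : Fin 4 => (2 : ℝ) / 4 * c0 i j) = fun j i => c0 i j / 2 := by
    funext j i
    ring
  rw [e5] at h1
  refine h1.trans ?_
  set r : ℝ := √(nrm2 (fun i j => omg L i j - c0 i j)) with hr
  have hr0 : 0 ≤ r := Real.sqrt_nonneg _
  have h2 : C * ε * r ≤ r := by
    have := mul_le_mul_of_nonneg_right hCε hr0
    linarith
  have h5 : r ≤ C * r := by nlinarith
  nlinarith

end Pool.Agent.Lib.Qcd
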