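import Pool.Agent.Lib.Qcd.Ker

set_option autoImplicit false

/-!
# Averages of a lift with a radial kernel

PROOF. Fix `Φ` (Lipschitz, `lift_lip`; differentiable off `0`), `x`, `N`. `g s = ∫ φ y • Φ (x + s y) dy` is continuous (Lipschitz) in `s`, `g 0 = Φ x`. For `s > 0`: `x + s y ≠ 0` for almost every `y`, so `g' s = ∫ φ y • fderiv ℝ Φ (x + s y) y dy` (`hasDerivAt_integral_of_dominated_loc_of_lip`). Let `e_1, .., e_6` be the real basis
`Pi.single k 1, Pi.single k I` of `W`, `∂_a`. By `KW.der`, `φ y y = - ∑_a (∂_a G y) e_a` (`Re hp y e_a` is the real coordinate `y_a`), so `g' s = - ∫ ∑_a ∂_a G (y) ∂_a Φ (x + s y) dy`. With `p_k = ∂_{e_k} Φ (x + s y)`, `q_k = ∂_{i e_k} Φ (x + s y)`, `b_k = bb Φ (x + s y) e_k = q_k - i p_k`: `∂_{e_k} G p_k + ∂_{i e_k} G q_k =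
∂_{e_k} G (- i q_k + i b_k) + ∂_{i e_k} G (i p_k + b_k)`. The terms without `b_k` integrate to `0`: `∫ (∂_{i e_k} G (y) ∂_{e_k} Φ (x + s y) - ∂_{e_k} G (y) ∂_{i e_k} Φ (x + s y)) dy = s⁻¹ ∫ (∂_{i e_k} G ∂_{e_k} f - ∂_{e_k} G ∂_{i e_k} f)`, `f y = Φ (x + s y)` Lipschitz, and integration by parts
(`LipschitzWith.integral_lineDeriv_mul_eq` for the real components, `lineDeriv = fderiv` almost everywhere) gives `- s⁻¹ ∫ (∂_{e_k} ∂_{i e_k} G - ∂_{i e_k} ∂_{e_k} G) f = 0`. So `‖g' s‖ ≤ C ∫_{‖y‖ ≤ 1} ‖bb Φ (x + s y)‖ dy` with `C ≥ 6 sup ‖fderiv ℝ G‖` (`G` and hence `fderiv ℝ G` vanish for `‖y‖ > 1`, and at `‖y‖ = 1`). Integrate over `(0, N)`: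
`g N - g 0 = ∫_0^N g'` (`intervalIntegral.integral_eq_sub_of_hasDerivAt_of_le` with `g` continuous on `[0, N]`, `g'` bounded and measurable; or bound `‖g b - g a‖` on subintervals).
-/

open MeasureTheory Set Metric
open scoped ContDiff ENNReal

namespace Pool.Agent.Lib.Qcd

open Pool.Agent.P28b04d Pool.Agent.Lib.Psd

namespace AvgLAux

/-- the standard complex basis -/
def ek (k : Fin 3) : W := Pi.single k 1

theorem ek_norm (k : Fin 3) : ‖ek k‖ = 1 := by
  unfold ek
  rw [Pi.norm_single, norm_one]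

theorem Iek_norm (k : Fin 3) : ‖Complex.I • ek k‖ = 1 := by
  rw [norm_smul, ek_norm, Complex.norm_I, mul_one]

theorem hp_ek (y : W) (k : Fin 3) : hp y (ek k) = star (y k) := by
  unfold hp ek
  rw [Finset.sum_eq_single k]
  · rw [Pi.single_eq_same, mul_one]
  · intro j _ hj
    rw [Pi.single_eq_of_ne hj, mul_zero]
  · intro h
    exact absurd (Finset.mem_univ k) h

theorem hp_Iek (y : W) (k : Fin 3) : hp y (Complex.I • ek k) = star (y k) * Complex.I := by
  have h := hp_ek y k
  unfold hp at h ⊢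
  rw [← h, Finset.sum_mul]
  refine Finset.sum_congr rfl fun j _ => ?_
  rw [Pi.smul_apply, smul_eq_mul]
  ring

theorem decomp (y : W) :
    y = ∑ k, ((y k).re • ek k + (y k).im • (Complex.I • ek k)) := by
  funext j
  rw [Finset.sum_apply, Finset.sum_eq_single j]
  · simp only [Pi.add_apply, Pi.smul_apply, ek, Pi.single_eq_same, smul_eq_mul, mul_one,
      Complex.real_smul]
    exact (Complex.re_add_im (y j)).symm
  · intro k _ hk
    simp only [Pi.add_apply, Pi.smul_apply, ek, Pi.single_eq_of_ne hk.symm, smul_zero, add_zero]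
  · intro h
    exact absurd (Finset.mem_univ j) h

theorem bb_apply (Φ : W → W) (z v : W) :
    bb Φ z v = fderiv ℝ Φ z (Complex.I • v) - Complex.I • fderiv ℝ Φ z v := rfl

section

variable {φ G : W → ℝ} (h : KW φ G)

include h

theorem der_ek (y : W) (k : Fin 3) : fderiv ℝ G y (ek k) = -((y k).re * φ y) := by
  rw [h.der, hp_ek]
  simp

theorem der_Iek (y : W) (k : Fin 3) :
    fderiv ℝ G y (Complex.I • ek k) = -((y k).im * φ y) := by
  rw [h.der, hp_Iek]
  simp

/-- the algebraic identity -/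
theorem key_id (Φ : W → W) (z y : W) :
    φ y • fderiv ℝ Φ z y = -(Complex.I • ∑ k, (fderiv ℝ G y (Complex.I • ek k) • fderiv ℝ Φ z (ek k) -
        fderiv ℝ G y (ek k) • fderiv ℝ Φ z (Complex.I • ek k)) +
      ∑ k, (fderiv ℝ G y (ek k) • (Complex.I • bb Φ z (ek k)) +
        fderiv ℝ G y (Complex.I • ek k) • bb Φ z (ek k))) := by
  have h1 : φ y • fderiv ℝ Φ z y = ∑ k, -(fderiv ℝ G y (ek k) • fderiv ℝ Φ z (ek k) +
      fderiv ℝ G y (Complex.I • ek k) • fderiv ℝ Φ z (Complex.I • ek k)) := by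
    conv_lhs => rw [decomp y]
    rw [map_sum, Finset.smul_sum, ← decomp y]
    refine Finset.sum_congr rfl fun k _ => ?_
    rw [der_ek h, der_Iek h, map_add, map_smul, map_smul]
    module
  rw [h1, Finset.smul_sum, ← Finset.sum_add_distrib, ← Finset.sum_neg_distrib]
  refine Finset.sum_congr rfl fun k _ => ?_
  rw [bb_apply]
  funext j
  simp only [Pi.neg_apply, Pi.add_apply, Pi.smul_apply, Pi.sub_apply, smul_eq_mul,
    Complex.real_smul]
  ring_nf
  rw [Complex.I_sq]
  ring

theorem G_supp : HasCompactSupport G := by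
  refine HasCompactSupport.of_support_subset_isCompact (isCompact_closedBall (0 : W) 1) ?_
  intro y hy
  rw [mem_closedBall_zero_iff]
  by_contra hcon
  exact hy (h.zG y (not_le.mp hcon).le)

theorem dG_cont : Continuous (fderiv ℝ G) := h.sG.continuous_fderiv (by simp)

theorem dG_supp : HasCompactSupport (fderiv ℝ G) := (G_supp h).fderiv ℝ

theorem dG_out {y : W} (hy : 1 < ‖y‖) : fderiv ℝ G y = 0 := by
  have h1 : G =ᶠ[nhds y] fun _ => 0 := by
    have h2 : ∀ᶠ x in nhds y, 1 < ‖x‖ := continuous_norm.continuousAt.eventually (lt_mem_nhds hy)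
    filter_upwards [h2] with x hx
    exact h.zG x hx.le
  rw [h1.fderiv_eq]
  simp

theorem dG_bdd : ∃ M : ℝ, 0 ≤ M ∧ ∀ y, ‖fderiv ℝ G y‖ ≤ M := by
  obtain ⟨M, hM⟩ := (dG_supp h).exists_bound_of_continuous (dG_cont h)
  exact ⟨M, (norm_nonneg _).trans (hM 0), hM⟩

/-- `∂_w G` is smooth -/
theorem dGw_smooth (w : W) : ContDiff ℝ ∞ (fun y => fderiv ℝ G y w) :=
  (h.sG.fderiv_right (m := ∞) (by simp)).clm_apply contDiff_const

theorem dGw_supp (w : W) : HasCompactSupport (fun y => fderiv ℝ G y w) := by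
  refine (dG_supp h).mono' ?_
  intro y hy
  refine subset_closure ?_
  intro h0
  apply hy
  simp only
  rw [h0]
  rfl

theorem dGw_lip (w : W) : ∃ K : NNReal, LipschitzWith K (fun y => fderiv ℝ G y w) :=
  ContDiff.lipschitzWith_of_hasCompactSupport (n := ∞) (dGw_supp h w) (dGw_smooth h w) (by simp)

theorem dGw_int (w : W) : Integrable (fun y => fderiv ℝ G y w) :=
  (dGw_smooth h w).continuous.integrable_of_hasCompactSupport (dGw_supp h w)

theorem snd_symm (y v w : W) :
    lineDeriv ℝ (fun y => fderiv ℝ G y w) y (-v) = lineDeriv ℝ (fun y => fderiv ℝ G y v) y (-w) := by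
  have hd : DifferentiableAt ℝ (fderiv ℝ G) y :=
    ((h.sG.fderiv_right (m := ∞) (by simp)).differentiable (by simp)).differentiableAt
  have h1 : ∀ v w : W, lineDeriv ℝ (fun y => fderiv ℝ G y w) y (-v) =
      -(fderiv ℝ (fderiv ℝ G) y v w) := by
    intro v w
    have h2 : HasFDerivAt (fun y => fderiv ℝ G y w)
        ((ContinuousLinearMap.apply ℝ ℝ w).comp (fderiv ℝ (fderiv ℝ G) y)) y :=
      (ContinuousLinearMap.apply ℝ ℝ w).hasFDerivAt.comp y hd.hasFDerivAt
    rw [h2.differentiableAt.lineDeriv_eq_fderiv, h2.fderiv]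
    simp
  rw [h1, h1]
  have h3 : IsSymmSndFDerivAt ℝ G y :=
    (h.sG.contDiffAt).isSymmSndFDerivAt (by
      rw [minSmoothness_of_isRCLikeNormedField]
      exact WithTop.coe_le_coe.mpr (le_top : (2 : ℕ∞) ≤ ⊤))
  rw [h3.eq v w]

/-- integration by parts -/
theorem ibp {F : W → ℝ} {L : NNReal} (hF : LipschitzWith L F) (v w : W) :
    ∫ y, lineDeriv ℝ F y v * fderiv ℝ G y w = ∫ y, lineDeriv ℝ F y w * fderiv ℝ G y v := by
  obtain ⟨K1, hK1⟩ := dGw_lip h w
  obtain ⟨K2, hK2⟩ := dGw_lip h v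
  rw [hF.integral_lineDeriv_mul_eq hK1 (dGw_supp h w) v,
    hF.integral_lineDeriv_mul_eq hK2 (dGw_supp h v) w]
  refine integral_congr_ae (Filter.Eventually.of_forall fun y => ?_)
  simp only
  rw [snd_symm h]

end

theorem ae_ne (a : W) : ∀ᵐ y : W, y ≠ a := by
  rw [ae_iff]
  have h1 : {y : W | ¬ y ≠ a} = {a} := by
    ext y
    simp
  rw [h1]
  exact measure_singleton a

theorem ae_ne' (x : W) {s : ℝ} (hs : 0 < s) : ∀ᵐ y : W, x + s • y ≠ 0 := by
  filter_upwards [ae_ne (-(s⁻¹ • x))] with y hy h0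
  apply hy
  have h1 : s • y = -x := by
    rw [eq_neg_iff_add_eq_zero, add_comm]
    exact h0
  rw [← smul_neg, ← h1, smul_smul, inv_mul_cancel₀ hs.ne', one_smul]

theorem lift_diff {Φ : W → W} (hΦ : HLoc (n := 2) Φ) {z : W} (hz : z ≠ 0) :
    DifferentiableAt ℝ Φ z :=
  (hΦ.smooth.contDiffAt (isOpen_compl_singleton.mem_nhds hz)).differentiableAt (by simp)

section

variable {φ G : W → ℝ} (h : KW φ G) {Φ : W → W} (hΦ : HLoc (n := 2) Φ) {L : NNReal}
  (hL : LipschitzWith L Φ)

theorem dΦ_meas (Φ : W → W) (x v : W) (s : ℝ) :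
    AEStronglyMeasurable (fun y : W => fderiv ℝ Φ (x + s • y) v) volume :=
  ((measurable_fderiv_apply_const ℝ Φ v).comp
    (measurable_const.add (measurable_id.const_smul s))).aestronglyMeasurable

include hL in
theorem dΦ_le (z v : W) : ‖fderiv ℝ Φ z v‖ ≤ L * ‖v‖ :=
  (ContinuousLinearMap.le_opNorm _ _).trans
    (mul_le_mul_of_nonneg_right (norm_fderiv_le_of_lipschitz ℝ hL) (norm_nonneg _))

include h hL in
theorem int_dG (x v w : W) (s : ℝ) :
    Integrable (fun y : W => fderiv ℝ G y w • fderiv ℝ Φ (x + s • y) v) := by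
  refine Integrable.mono' ((dGw_int h w).norm.mul_const (L * ‖v‖)) ?_ ?_
  · exact ((dGw_int h w).aestronglyMeasurable).smul (dΦ_meas Φ x v s)
  · refine Filter.Eventually.of_forall fun y => ?_
    rw [norm_smul]
    exact mul_le_mul_of_nonneg_left (dΦ_le hL _ v) (norm_nonneg _)

include h hΦ hL in
theorem ibpΦ (x v w : W) {s : ℝ} (hs : 0 < s) :
    ∫ y : W, (fderiv ℝ G y w • fderiv ℝ Φ (x + s • y) v -
      fderiv ℝ G y v • fderiv ℝ Φ (x + s • y) w) = 0 := by
  have hI := (int_dG h hL x v w s).sub (int_dG h hL x w v s)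
  have key : ∀ l : W →L[ℝ] ℝ, l (∫ y : W, (fderiv ℝ G y w • fderiv ℝ Φ (x + s • y) v -
      fderiv ℝ G y v • fderiv ℝ Φ (x + s • y) w)) = 0 := by
    intro l
    have hF : LipschitzWith (‖l‖₊ * (L * Real.nnabs s)) (fun y : W => l (Φ (x + s • y))) := by
      refine l.lipschitz.comp (hL.comp ?_)
      refine LipschitzWith.of_dist_le_mul fun a b => ?_
      rw [dist_add_left, dist_smul₀]
      simp
    have h1 := ibp h hF v w
    have hder : ∀ u : W, ∀ᵐ y : W, lineDeriv ℝ (fun y : W => l (Φ (x + s • y))) y u =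
        s * l (fderiv ℝ Φ (x + s • y) u) := by
      intro u
      filter_upwards [ae_ne' x hs] with y hy
      have h2 : HasFDerivAt (fun y : W => x + s • y) (s • ContinuousLinearMap.id ℝ W) y :=
        ((hasFDerivAt_id y).const_smul s).const_add x
      have h3 : HasFDerivAt (fun y : W => l (Φ (x + s • y)))
          (l.comp ((fderiv ℝ Φ (x + s • y)).comp (s • ContinuousLinearMap.id ℝ W))) y :=
        l.hasFDerivAt.comp y ((lift_diff hΦ hy).hasFDerivAt.comp y h2)
      rw [h3.differentiableAt.lineDeriv_eq_fderiv, h3.fderiv]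
      simp
    have h2 : ∫ y : W, (s * l (fderiv ℝ Φ (x + s • y) v)) * fderiv ℝ G y w =
        ∫ y : W, (s * l (fderiv ℝ Φ (x + s • y) w)) * fderiv ℝ G y v := by
      refine Eq.trans ?_ (h1.trans ?_)
      · refine integral_congr_ae ?_
        filter_upwards [hder v] with y hy
        rw [hy]
      · refine integral_congr_ae ?_
        filter_upwards [hder w] with y hy
        rw [hy]
    have h3 : s * l (∫ y : W, (fderiv ℝ G y w • fderiv ℝ Φ (x + s • y) v -
        fderiv ℝ G y v • fderiv ℝ Φ (x + s • y) w)) = 0 := by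
      rw [integral_sub (int_dG h hL x v w s) (int_dG h hL x w v s), map_sub,
        ← l.integral_comp_comm (int_dG h hL x v w s), ← l.integral_comp_comm (int_dG h hL x w v s),
        mul_sub, ← integral_const_mul, ← integral_const_mul, sub_eq_zero]
      refine Eq.trans ?_ (h2.trans ?_)
      · refine integral_congr_ae (Filter.Eventually.of_forall fun y => ?_)
        simp only [map_smul, smul_eq_mul]
        ring
      · refine integral_congr_ae (Filter.Eventually.of_forall fun y => ?_)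
        simp only [map_smul, smul_eq_mul]
        ring
    exact (mul_eq_zero.mp h3).resolve_left hs.ne'
  funext j
  refine Complex.ext ?_ ?_
  · exact key (Complex.reCLM.comp (ContinuousLinearMap.proj (R := ℝ) j))
  · exact key (Complex.imCLM.comp (ContinuousLinearMap.proj (R := ℝ) j))

/-- the part without `b` -/
noncomputable def AA (G : W → ℝ) (Φ : W → W) (x : W) (s : ℝ) (y : W) : W :=
  ∑ k, (fderiv ℝ G y (Complex.I • ek k) • fderiv ℝ Φ (x + s • y) (ek k) -
        fderiv ℝ G y (ek k) • fderiv ℝ Φ (x + s • y) (Complex.I • ek k))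

/-- the part with `b` -/
noncomputable def BB (G : W → ℝ) (Φ : W → W) (x : W) (s : ℝ) (y : W) : W :=
  ∑ k, (fderiv ℝ G y (ek k) • (Complex.I • bb Φ (x + s • y) (ek k)) +
        fderiv ℝ G y (Complex.I • ek k) • bb Φ (x + s • y) (ek k))

include h hL in
theorem AA_int (x : W) (s : ℝ) : Integrable (AA G Φ x s) := by
  refine integrable_finsetSum _ fun k _ => ?_
  exact (int_dG h hL x _ _ s).sub (int_dG h hL x _ _ s)

include h hΦ hL in
theorem AA_zero (x : W) {s : ℝ} (hs : 0 < s) : ∫ y, AA G Φ x s y = 0 := by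
  have h1 : ∫ y, AA G Φ x s y = ∑ k : Fin 3, ∫ y : W,
      (fderiv ℝ G y (Complex.I • ek k) • fderiv ℝ Φ (x + s • y) (ek k) -
        fderiv ℝ G y (ek k) • fderiv ℝ Φ (x + s • y) (Complex.I • ek k)) :=
    integral_finsetSum _ fun k _ => (int_dG h hL x _ _ s).sub (int_dG h hL x _ _ s)
  rw [h1]
  exact Finset.sum_eq_zero fun k _ => ibpΦ h hΦ hL x _ _ hs

include h hL in
theorem BB_int (x : W) (s : ℝ) : Integrable (BB G Φ x s) := by
  refine integrable_finsetSum _ fun k _ => ?_
  have e : ∀ y : W, fderiv ℝ G y (ek k) • (Complex.I • bb Φ (x + s • y) (ek k)) +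
        fderiv ℝ G y (Complex.I • ek k) • bb Φ (x + s • y) (ek k) =
      (Complex.I • (fderiv ℝ G y (ek k) • fderiv ℝ Φ (x + s • y) (Complex.I • ek k)) +
        fderiv ℝ G y (ek k) • fderiv ℝ Φ (x + s • y) (ek k)) +
      (fderiv ℝ G y (Complex.I • ek k) • fderiv ℝ Φ (x + s • y) (Complex.I • ek k) -
        Complex.I • (fderiv ℝ G y (Complex.I • ek k) • fderiv ℝ Φ (x + s • y) (ek k))) := by
    intro y
    rw [bb_apply]
    funext j
    simp only [Pi.add_apply, Pi.smul_apply, Pi.sub_apply, smul_eq_mul, Complex.real_smul]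
    ring_nf
    rw [Complex.I_sq]
    ring
  simp only [e]
  exact (((int_dG h hL x _ _ s).smul Complex.I).add (int_dG h hL x _ _ s)).add
    ((int_dG h hL x _ _ s).sub ((int_dG h hL x _ _ s).smul Complex.I))

include h hΦ hL in
theorem der_bound {M : ℝ} (hM0 : 0 ≤ M) (hM : ∀ y, ‖fderiv ℝ G y‖ ≤ M) (x : W) {s : ℝ}
    (hs : 0 < s) : ‖∫ y : W, φ y • fderiv ℝ Φ (x + s • y) y‖ₑ ≤
      ENNReal.ofReal (6 * M) * ∫⁻ y in closedBall (0 : W) 1, ‖bb Φ (x + s • y)‖ₑ := by
  have h1 : ∫ y : W, φ y • fderiv ℝ Φ (x + s • y) y = -∫ y, BB G Φ x s y := by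
    have h2 : ∀ y : W, φ y • fderiv ℝ Φ (x + s • y) y =
        -(Complex.I • AA G Φ x s y + BB G Φ x s y) := fun y => key_id h Φ (x + s • y) y
    have h3 : ∫ a, (Complex.I • AA G Φ x s a + BB G Φ x s a) =
        (∫ a, Complex.I • AA G Φ x s a) + ∫ a, BB G Φ x s a :=
      integral_add ((AA_int h hL x s).smul Complex.I) (BB_int h hL x s)
    simp only [h2]
    rw [integral_neg, h3, integral_smul, AA_zero h hΦ hL x hs, smul_zero, zero_add]
  rw [h1, enorm_neg]
  have hout : ∀ y, y ∉ closedBall (0 : W) 1 → BB G Φ x s y = 0 := by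
    intro y hy
    rw [mem_closedBall_zero_iff, not_le] at hy
    unfold BB
    rw [dG_out h hy]
    simp
  rw [← setIntegral_eq_integral_of_forall_compl_eq_zero hout]
  refine (enorm_integral_le_lintegral_enorm _).trans ?_
  rw [← lintegral_const_mul' _ _ ENNReal.ofReal_ne_top]
  refine lintegral_mono fun y => ?_
  have h3 : ‖BB G Φ x s y‖ ≤ 6 * M * ‖bb Φ (x + s • y)‖ := by
    unfold BB
    refine (norm_sum_le _ _).trans ?_
    have h4 : ∀ k : Fin 3, ‖fderiv ℝ G y (ek k) • (Complex.I • bb Φ (x + s • y) (ek k)) +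
        fderiv ℝ G y (Complex.I • ek k) • bb Φ (x + s • y) (ek k)‖ ≤
        2 * M * ‖bb Φ (x + s • y)‖ := by
      intro k
      have h5 : ‖bb Φ (x + s • y) (ek k)‖ ≤ ‖bb Φ (x + s • y)‖ := by
        have := (bb Φ (x + s • y)).le_opNorm (ek k)
        rwa [ek_norm, mul_one] at this
      have h6 : ‖fderiv ℝ G y (ek k)‖ ≤ M := by
        have := (fderiv ℝ G y).le_opNorm (ek k)
        rw [ek_norm, mul_one] at this
        exact this.trans (hM y)
      have h7 : ‖fderiv ℝ G y (Complex.I • ek k)‖ ≤ M := by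
        have := (fderiv ℝ G y).le_opNorm (Complex.I • ek k)
        rw [Iek_norm, mul_one] at this
        exact this.trans (hM y)
      refine (norm_add_le _ _).trans ?_
      rw [norm_smul, norm_smul, norm_smul, Complex.norm_I, one_mul]
      have h8 := mul_le_mul h6 h5 (norm_nonneg _) hM0
      have h9 := mul_le_mul h7 h5 (norm_nonneg _) hM0
      linarith
    refine (Finset.sum_le_sum fun k _ => h4 k).trans ?_
    rw [Finset.sum_const, Finset.card_univ, Fintype.card_fin]
    simp only [nsmul_eq_mul, Nat.cast_ofNat]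
    linarith
  calc ‖BB G Φ x s y‖ₑ = ENNReal.ofReal ‖BB G Φ x s y‖ := (ofReal_norm _).symm
    _ ≤ ENNReal.ofReal (6 * M * ‖bb Φ (x + s • y)‖) := ENNReal.ofReal_le_ofReal h3
    _ = ENNReal.ofReal (6 * M) * ‖bb Φ (x + s • y)‖ₑ := by
      rw [ENNReal.ofReal_mul (by positivity), ofReal_norm]

theorem φ_supp {φ G : W → ℝ} (h : KW φ G) : HasCompactSupport φ := by
  refine HasCompactSupport.of_support_subset_isCompact (isCompact_closedBall (0 : W) 1) ?_
  intro y hy
  rw [mem_closedBall_zero_iff]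
  by_contra hcon
  exact hy (h.zφ y (not_le.mp hcon).le)

theorem φ_int {φ G : W → ℝ} (h : KW φ G) : Integrable φ :=
  h.sφ.continuous.integrable_of_hasCompactSupport (φ_supp h)

include hL in
theorem F_int (x : W) (s : ℝ) (h : KW φ G) : Integrable (fun y : W => φ y • Φ (x + s • y)) := by
  refine Continuous.integrable_of_hasCompactSupport ?_ ?_
  · exact h.sφ.continuous.smul (hL.continuous.comp (by fun_prop))
  · exact (φ_supp h).smul_right

include h hΦ hL in
theorem hasDer (x : W) {s : ℝ} (hs : 0 < s) :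
    HasDerivAt (fun s : ℝ => ∫ y : W, φ y • Φ (x + s • y))
      (∫ y : W, φ y • fderiv ℝ Φ (x + s • y) y) s := by
  refine (hasDerivAt_integral_of_dominated_loc_of_lip (s := Set.univ)
    (bound := fun y => φ y * L) Filter.univ_mem ?_ (F_int hL x s h) ?_ ?_
    ((φ_int h).mul_const _) ?_).2
  · exact Filter.Eventually.of_forall fun t => (F_int hL x t h).aestronglyMeasurable
  · have h1 : ∀ y : W, φ y • fderiv ℝ Φ (x + s • y) y =
        -(Complex.I • AA G Φ x s y + BB G Φ x s y) := fun y => key_id h Φ (x + s • y) y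
    simp only [h1]
    exact (((AA_int h hL x s).smul Complex.I).add (BB_int h hL x s)).neg.aestronglyMeasurable
  · refine Filter.Eventually.of_forall fun y => ?_
    refine LipschitzOnWith.of_dist_le_mul fun a _ b _ => ?_
    by_cases hy : 1 ≤ ‖y‖
    · simp only [h.zφ y hy, zero_smul, dist_self]
      positivity
    · push Not at hy
      have h2 : dist (x + a • y) (x + b • y) ≤ dist a b := by
        rw [dist_add_left, dist_eq_norm, ← sub_smul, norm_smul, dist_eq_norm]
        exact mul_le_of_le_one_right (norm_nonneg _) hy.le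
      have h3 := hL.dist_le_mul (x + a • y) (x + b • y)
      rw [dist_smul₀, Real.norm_eq_abs, abs_of_nonneg (h.nn y)]
      have h4 : ((Real.nnabs (φ y * L) : NNReal) : ℝ) = φ y * L := by
        rw [Real.coe_nnabs, abs_of_nonneg (mul_nonneg (h.nn y) L.coe_nonneg)]
      rw [h4, mul_assoc]
      refine mul_le_mul_of_nonneg_left (h3.trans ?_) (h.nn y)
      exact mul_le_mul_of_nonneg_left h2 L.coe_nonneg
  · filter_upwards [ae_ne' x hs] with y hy
    have h2 : HasDerivAt (fun t : ℝ => x + t • y) y s := by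
      have := ((hasDerivAt_id s).smul_const y).const_add x
      simpa using this
    exact ((lift_diff hΦ hy).hasFDerivAt.comp_hasDerivAt s h2).const_smul (φ y)

include hL in
theorem g_cont (h : KW φ G) (x : W) (N : ℝ) :
    ContinuousOn (fun s : ℝ => ∫ y : W, φ y • Φ (x + s • y)) (Icc 0 N) := by
  refine continuousOn_integral_of_compact_support (isCompact_closedBall (0 : W) 1) ?_ ?_
  · refine Continuous.continuousOn ?_
    have h1 := h.sφ.continuous
    have h2 := hL.continuous
    change Continuous fun p : ℝ × W => φ p.2 • Φ (x + p.1 • p.2)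
    fun_prop
  · intro s y _ hy
    rw [mem_closedBall_zero_iff, not_le] at hy
    rw [h.zφ y hy.le, zero_smul]

end

end AvgLAux

open AvgLAux in
theorem avgL {φ G : W → ℝ} (h : KW φ G) : ∃ C : ℝ, 1 ≤ C ∧ ∀ Φ : W → W, HLoc (n := 2) Φ → ∀ N : ℝ, 0 < N →
    ∀ x : W, ‖(∫ y, φ y • Φ (x + N • y)) - Φ x‖ₑ ≤
      ENNReal.ofReal C * ∫⁻ s in Ioo (0 : ℝ) N, ∫⁻ y in closedBall (0 : W) 1, ‖bb Φ (x + s • y)‖ₑ := by
  obtain ⟨M, hM0, hM⟩ := dG_bdd h
  refine ⟨6 * M + 1, by linarith, fun Φ hΦ N hN x => ?_⟩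
  obtain ⟨L, hL⟩ := lift_lip hΦ
  have hg0 : ∫ y : W, φ y • Φ (x + (0 : ℝ) • y) = Φ x := by
    simp only [zero_smul, add_zero]
    rw [integral_smul_const, h.int, one_smul]
  have hder := fun (s : ℝ) (hs : 0 < s) => hasDer h hΦ hL x hs
  have hbd : ∀ s : ℝ, 0 < s → ‖∫ y : W, φ y • fderiv ℝ Φ (x + s • y) y‖ ≤ L := by
    intro s hs
    refine (norm_integral_le_of_norm_le ((φ_int h).mul_const (L : ℝ)) ?_).trans ?_
    · refine Filter.Eventually.of_forall fun y => ?_
      rw [norm_smul, Real.norm_eq_abs, abs_of_nonneg (h.nn y)]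
      by_cases hy : 1 ≤ ‖y‖
      · rw [h.zφ y hy, zero_mul, zero_mul]
      · push Not at hy
        refine mul_le_mul_of_nonneg_left ((dΦ_le hL _ y).trans ?_) (h.nn y)
        exact mul_le_of_le_one_right L.coe_nonneg hy.le
    · rw [integral_mul_const, h.int, one_mul]
  have hint : IntervalIntegrable (fun s : ℝ => ∫ y : W, φ y • fderiv ℝ Φ (x + s • y) y)
      volume 0 N := by
    rw [intervalIntegrable_iff_integrableOn_Ioo_of_le hN.le]
    have h1 : AEStronglyMeasurable (fun s : ℝ => ∫ y : W, φ y • fderiv ℝ Φ (x + s • y) y)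
        (volume.restrict (Ioo 0 N)) := by
      refine (aestronglyMeasurable_deriv (fun s : ℝ => ∫ y : W, φ y • Φ (x + s • y)) _).congr ?_
      filter_upwards [ae_restrict_mem measurableSet_Ioo] with s hs
      exact (hder s hs.1).deriv
    refine Integrable.mono' (g := fun _ => (L : ℝ)) (integrableOn_const (by simp)) h1 ?_
    filter_upwards [ae_restrict_mem measurableSet_Ioo] with s hs
    exact hbd s hs.1
  have hftc := intervalIntegral.integral_eq_sub_of_hasDerivAt_of_le hN.le (g_cont hL h x N)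
    (fun s hs => hder s hs.1) hint
  simp only [hg0] at hftc
  rw [← hftc, intervalIntegral.integral_of_le hN.le, integral_Ioc_eq_integral_Ioo]
  refine (enorm_integral_le_lintegral_enorm _).trans ?_
  rw [← lintegral_const_mul' _ _ ENNReal.ofReal_ne_top]
  refine setLIntegral_mono' measurableSet_Ioo fun s hs => ?_
  refine (der_bound h hΦ hL hM0 hM x hs.1).trans ?_
  gcongr
  linarith

end Pool.Agent.Lib.Qcd
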