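import Pool.Agent.Lib.Qcd.Cov

set_option autoImplicit false

/-!
# Balls of `W` and balls of the chart

PROOFS, all from `lcov`. `‖·‖` is the maximum norm on `W`; `‖x‖² ≤ nsq x ≤ 3 ‖x‖²`, `nsq x = |hp z x|² + |hp u x|² + |hp v x|²`. `ballW`: if `‖x - z‖ ≤ ρ ≤ 1/4` then `c = hp z x` satisfies `|c - 1| ≤ √3 ρ ≤ 0.44` and `y = yc z u v x`, `|c| ‖y‖ ≤ √3 ρ`, so `‖y‖ ≤ 4 ρ`; the Jacobian `|c|⁴` is at most `5`
and the disc `|c - 1| ≤ √3 ρ` has area `3 π ρ²`. `ball4`: if `|c - 1| ≤ ρ` and `‖y‖ < ρ` (`ρ ≤ 1/8`) then `x = c sig z u v y` satisfies `‖x - z‖ ≤ |c - 1| + |c| ‖Lf u v y‖ ≤ 4 ρ`, `|c|⁴ ≥ 1/2`, the disc has area `π ρ²`. `ballT`: the unit ball of `W` is covered (up to `0`) by the three sets `|x_i| = ‖x‖`;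
on the `i`-th, with the frame `eb i, eb (i+1), eb (i+2)` (an `ON3`), `c = x_i`, `|c| ≤ 1`, `‖y‖ ≤ √2 < 2`, `k x = k (sig y)`, `nsq x ≥ |c|²`, so `∫ ≤ ∫_{|c| ≤ 1} |c|⁴ |c|⁻² ∫_{‖y‖<2} k (sig y) ≤ π ∫`. `ballR`: scaling (`x ↦ R x`, `Measure.addHaar` of a dilation, real dimension `6`).
-/

open MeasureTheory Set Metric
open scoped ContDiff ENNReal

namespace Pool.Agent.Lib.Qcd

open Pool.Agent.P28b04d Pool.Agent.Lib.Psd

namespace BallAux

theorem nsq_norm (x : W) : nsq x = ∑ k, ‖x k‖ ^ 2 := by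
  unfold nsq
  exact Finset.sum_congr rfl fun k _ => Complex.normSq_eq_norm_sq _

theorem norm_le_nsq (x : W) : ‖x‖ ^ 2 ≤ nsq x := by
  have h0 : 0 ≤ nsq x := by rw [nsq_norm]; positivity
  have h1 : ‖x‖ ≤ Real.sqrt (nsq x) := by
    rw [pi_norm_le_iff_of_nonneg (Real.sqrt_nonneg _)]
    intro k
    apply Real.le_sqrt_of_sq_le
    rw [nsq_norm]
    exact Finset.single_le_sum (f := fun k => ‖x k‖ ^ 2) (fun i _ => by positivity)
      (Finset.mem_univ k)
  calc ‖x‖ ^ 2 ≤ Real.sqrt (nsq x) ^ 2 := by gcongr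
    _ = nsq x := Real.sq_sqrt h0

theorem nsq_le_norm (x : W) : nsq x ≤ 3 * ‖x‖ ^ 2 := by
  rw [nsq_norm, Fin.sum_univ_three]
  have h := fun k => norm_le_pi_norm x k
  have h0 := h 0
  have h1 := h 1
  have h2 := h 2
  have e : ∀ k, ‖x k‖ ^ 2 ≤ ‖x‖ ^ 2 := fun k => by
    have := h k
    gcongr
  linarith [e 0, e 1, e 2]

theorem hp_sub (a b c : W) : hp a (b - c) = hp a b - hp a c := by
  simp only [hp, Pi.sub_apply, mul_sub, Finset.sum_sub_distrib]

theorem nsq_basis {z u v : W} (h : ON3 z u v) (x : W) :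
    nsq x = ‖hp z x‖ ^ 2 + ‖hp u x‖ ^ 2 + ‖hp v x‖ ^ 2 := by
  have h1 : (nsq x : ℂ) = ((‖hp z x‖ ^ 2 + ‖hp u x‖ ^ 2 + ‖hp v x‖ ^ 2 : ℝ) : ℂ) := by
    rw [nsq_eq_hp]
    conv_lhs => rw [show hp x x = hp x (hp z x • z + hp u x • u + hp v x • v) by rw [← basis_eq h x]]
    rw [hp_add_right, hp_add_right, hp_smul_right, hp_smul_right, hp_smul_right]
    rw [← hp_star z x, ← hp_star u x, ← hp_star v x]
    push_cast
    rw [← Complex.mul_conj', ← Complex.mul_conj', ← Complex.mul_conj']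
    rfl
  exact_mod_cast h1

theorem yc_norm (z u v x : W) : ‖yc z u v x‖ ^ 2 = (‖hp u x‖ ^ 2 + ‖hp v x‖ ^ 2) / ‖hp z x‖ ^ 2 := by
  rw [EuclideanSpace.norm_sq_eq, Fin.sum_univ_four]
  simp only [Real.norm_eq_abs, sq_abs]
  have e : ∀ w : ℂ, w.re ^ 2 + w.im ^ 2 = ‖w‖ ^ 2 := by
    intro w
    rw [← Complex.normSq_eq_norm_sq, Complex.normSq_apply]; ring
  change (hp u x / hp z x).re ^ 2 + (hp u x / hp z x).im ^ 2 + (hp v x / hp z x).re ^ 2 +
    (hp v x / hp z x).im ^ 2 = _
  rw [e, add_assoc, e, norm_div, norm_div, div_pow, div_pow, ← add_div]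

theorem near {z u v : W} (h : ON3 z u v) {ρ : ℝ} {x : W} (hx : x ∈ closedBall z ρ) :
    ‖hp z x - 1‖ ^ 2 + ‖hp u x‖ ^ 2 + ‖hp v x‖ ^ 2 ≤ 3 * ρ ^ 2 := by
  have h1 := nsq_basis h (x - z)
  have h2 := nsq_le_norm (x - z)
  rw [mem_closedBall, dist_eq_norm] at hx
  rw [hp_sub, hp_sub, hp_sub, h.zz] at h1
  have huz : hp u z = 0 := by rw [← hp_star, h.zu, star_zero]
  have hvz : hp v z = 0 := by rw [← hp_star, h.zv, star_zero]
  rw [huz, hvz, sub_zero, sub_zero] at h1
  rw [← h1]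
  calc nsq (x - z) ≤ 3 * ‖x - z‖ ^ 2 := h2
    _ ≤ 3 * ρ ^ 2 := by gcongr

/-- upper bound of an integral by a product of integrals -/
theorem up {z u v : W} (h : ON3 z u v) {S : Set W} (hS : MeasurableSet S) {g : W → ℝ≥0∞}
    (hg : Measurable g) (A : Set ℂ) (hA : MeasurableSet A) (B : Set E) (hB : MeasurableSet B)
    (k : E → ℝ≥0∞) (hk : Measurable k) (M : ℝ≥0∞)
    (hpt : ∀ c : ℂ, c ≠ 0 → ∀ y : E, c • sig z u v y ∈ S → c ∈ A ∧ y ∈ B ∧
      ENNReal.ofReal (‖c‖ ^ 4) * g (c • sig z u v y) ≤ M * k y) :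
    ∫⁻ x in S, g x ≤ M * volume A * ∫⁻ y in B, k y := by
  rw [← lintegral_indicator hS, lcov h (hg.indicator hS)]
  have h1 : ∀ (c : ℂ) (y : E), ENNReal.ofReal (‖c‖ ^ 4) * S.indicator g (c • sig z u v y) ≤
      A.indicator (fun _ => B.indicator (fun y => M * k y) y) c := by
    intro c y
    by_cases hc : c = 0
    · subst hc; simp
    by_cases hS' : c • sig z u v y ∈ S
    · obtain ⟨h2, h3, h4⟩ := hpt c hc y hS'
      rw [indicator_of_mem hS', indicator_of_mem h2, indicator_of_mem h3]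
      exact h4
    · rw [indicator_of_notMem hS', mul_zero]
      exact bot_le
  calc _ ≤ ∫⁻ c : ℂ, ∫⁻ y : E, A.indicator (fun _ => B.indicator (fun y => M * k y) y) c :=
        lintegral_mono fun c => lintegral_mono fun y => h1 c y
    _ = ∫⁻ c : ℂ, A.indicator (fun _ => ∫⁻ y : E, B.indicator (fun y => M * k y) y) c := by
        refine lintegral_congr fun c => ?_
        by_cases hc : c ∈ A
        · simp only [indicator_of_mem hc]
        · simp only [indicator_of_notMem hc, lintegral_zero]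
    _ = M * volume A * ∫⁻ y in B, k y := by
        rw [lintegral_indicator hA, setLIntegral_const, lintegral_indicator hB,
          lintegral_const_mul _ hk]
        ring

/-- lower bound of an integral by a product of integrals -/
theorem down {z u v : W} (h : ON3 z u v) {S : Set W} (hS : MeasurableSet S) {g : W → ℝ≥0∞}
    (hg : Measurable g) (A : Set ℂ) (hA : MeasurableSet A) (B : Set E) (hB : MeasurableSet B)
    (k : E → ℝ≥0∞) (hk : Measurable k) (M : ℝ≥0∞)
    (hpt : ∀ c ∈ A, ∀ y ∈ B, c • sig z u v y ∈ S ∧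
      M * k y ≤ ENNReal.ofReal (‖c‖ ^ 4) * g (c • sig z u v y)) :
    M * volume A * ∫⁻ y in B, k y ≤ ∫⁻ x in S, g x := by
  rw [← lintegral_indicator hS, lcov h (hg.indicator hS)]
  have h1 : ∀ (c : ℂ) (y : E), A.indicator (fun _ => B.indicator (fun y => M * k y) y) c ≤
      ENNReal.ofReal (‖c‖ ^ 4) * S.indicator g (c • sig z u v y) := by
    intro c y
    by_cases hc : c ∈ A
    · rw [indicator_of_mem hc]
      by_cases hy : y ∈ B
      · rw [indicator_of_mem hy]
        obtain ⟨h2, h3⟩ := hpt c hc y hy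
        rw [indicator_of_mem h2]
        exact h3
      · rw [indicator_of_notMem hy]
        exact bot_le
    · rw [indicator_of_notMem hc]
      exact bot_le
  calc _ = ∫⁻ c : ℂ, A.indicator (fun _ => ∫⁻ y : E, B.indicator (fun y => M * k y) y) c := by
        rw [lintegral_indicator hA, setLIntegral_const, lintegral_indicator hB,
          lintegral_const_mul _ hk]
        ring
    _ = ∫⁻ c : ℂ, ∫⁻ y : E, A.indicator (fun _ => B.indicator (fun y => M * k y) y) c := by
        refine lintegral_congr fun c => ?_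
        by_cases hc : c ∈ A
        · simp only [indicator_of_mem hc]
        · simp only [indicator_of_notMem hc, lintegral_zero]
    _ ≤ _ := lintegral_mono fun c => lintegral_mono fun y => h1 c y

theorem hp_c {z u v : W} (h : ON3 z u v) (c : ℂ) (y : E) : hp z (c • sig z u v y) = c := by
  rw [hp_smul_right, hp_sig h, mul_one]

theorem nsq_c {z u v : W} (h : ON3 z u v) (c : ℂ) (y : E) :
    nsq (c • sig z u v y) = ‖c‖ ^ 2 * (1 + ‖y‖ ^ 2) := by
  rw [nsq_smul, nsq_sig h, Complex.normSq_eq_norm_sq]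

theorem hp_eb (i : Fin 3) (x : W) : hp (eb i) x = x i := by
  unfold hp eb
  rw [Finset.sum_eq_single i]
  · simp
  · intro k _ hk
    simp [hk]
  · intro hi; exact absurd (Finset.mem_univ i) hi

end BallAux

open BallAux

/-- on these balls the first coordinate is close to `1` -/
theorem ball_hp {z u v : W} (h : ON3 z u v) {ρ : ℝ} (hρ : ρ ≤ 1 / 4) {x : W} (hx : x ∈ closedBall z ρ) :
    ‖hp z x - 1‖ ≤ 2 * ρ ∧ ‖yc z u v x‖ ≤ 4 * ρ := by
  have h1 := near h hx
  have h0 : 0 ≤ ρ := by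
    rw [mem_closedBall] at hx
    exact dist_nonneg.trans hx
  have h2 : ‖hp z x - 1‖ ≤ 2 * ρ := by
    refine abs_le_of_sq_le_sq' ?_ (by positivity) |>.2
    nlinarith [sq_nonneg ‖hp u x‖, sq_nonneg ‖hp v x‖]
  refine ⟨h2, ?_⟩
  have h3 : 1 / 2 ≤ ‖hp z x‖ := by
    have h4 : ‖(1 : ℂ)‖ ≤ ‖hp z x‖ + ‖hp z x - 1‖ := by
      have := norm_sub_le (hp z x) (hp z x - 1)
      rwa [sub_sub_cancel] at this
    rw [norm_one] at h4
    linarith
  have h5 : ‖yc z u v x‖ ^ 2 ≤ (4 * ρ) ^ 2 := by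
    rw [yc_norm, div_le_iff₀ (by positivity)]
    have h6 : ‖hp u x‖ ^ 2 + ‖hp v x‖ ^ 2 ≤ 3 * ρ ^ 2 := by nlinarith [sq_nonneg ‖hp z x - 1‖]
    have h7 : (1 / 2 : ℝ) ^ 2 ≤ ‖hp z x‖ ^ 2 := by gcongr
    nlinarith [sq_nonneg ρ]
  exact abs_le_of_sq_le_sq' h5 (by positivity) |>.2

theorem ballW : ∃ C : ℝ, 1 ≤ C ∧ ∀ z u v : W, ON3 z u v → ∀ ρ : ℝ, 0 < ρ → ρ ≤ 1 / 4 →
    ∀ k : E → ℝ≥0∞, Measurable k →
      ∫⁻ x in closedBall z ρ, k (yc z u v x) ≤
        ENNReal.ofReal (C * ρ ^ 2) * ∫⁻ y in ball (0 : E) (C * ρ), k y := by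
  refine ⟨100, by norm_num, fun z u v h ρ hρ hρ4 k hk => ?_⟩
  have h1 := up h (S := closedBall z ρ) measurableSet_closedBall (hk.comp (yc_meas z u v))
    (closedBall 1 (2 * ρ)) measurableSet_closedBall (ball (0 : E) (100 * ρ)) measurableSet_ball k hk
    (ENNReal.ofReal 6) (by
      intro c hc y hy
      obtain ⟨h2, h3⟩ := ball_hp h hρ4 hy
      rw [hp_c h] at h2
      rw [yc_sig h hc] at h3
      refine ⟨?_, ?_, ?_⟩
      · rw [mem_closedBall, dist_eq_norm]; exact h2
      · rw [mem_ball_zero_iff]; linarith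
      · simp only [Function.comp]
        rw [yc_sig h hc]
        gcongr
        have h4 : ‖c‖ ≤ 3 / 2 := by
          have := norm_add_le (c - 1) 1
          rw [sub_add_cancel, norm_one] at this
          linarith
        calc ‖c‖ ^ 4 ≤ (3 / 2) ^ 4 := by gcongr
          _ ≤ 6 := by norm_num)
  refine h1.trans ?_
  gcongr
  rw [Complex.volume_closedBall, ← ENNReal.ofReal_pow (by positivity)]
  have h5 : (NNReal.pi : ℝ≥0∞) = ENNReal.ofReal Real.pi := by
    rw [ENNReal.ofReal_eq_coe_nnreal Real.pi_pos.le]; rfl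
  rw [h5, ← ENNReal.ofReal_mul (by positivity), ← ENNReal.ofReal_mul (by positivity)]
  apply ENNReal.ofReal_le_ofReal
  have := Real.pi_lt_d2
  nlinarith [sq_nonneg ρ]

theorem ball4 : ∃ C : ℝ, 1 ≤ C ∧ ∀ z u v : W, ON3 z u v → ∀ ρ : ℝ, 0 < ρ → ρ ≤ 1 / C →
    ∀ k : E → ℝ≥0∞, Measurable k →
      ENNReal.ofReal (ρ ^ 2) * ∫⁻ y in ball (0 : E) ρ, k y ≤
        ENNReal.ofReal C * ∫⁻ x in closedBall z (C * ρ), k (yc z u v x) := by
  refine ⟨8, by norm_num, fun z u v h ρ hρ hρ4 k hk => ?_⟩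
  have hc1 : ∀ c ∈ closedBall (1 : ℂ) ρ, ‖c - 1‖ ≤ ρ ∧ 1 - ρ ≤ ‖c‖ ∧ ‖c‖ ≤ 1 + ρ := by
    intro c hc
    rw [mem_closedBall, dist_eq_norm] at hc
    refine ⟨hc, ?_, ?_⟩
    · have := norm_sub_le c (c - 1)
      rw [sub_sub_cancel, norm_one] at this
      linarith
    · have := norm_add_le (c - 1) 1
      rw [sub_add_cancel, norm_one] at this
      linarith
  have h1 := down h (S := closedBall z (8 * ρ)) measurableSet_closedBall (hk.comp (yc_meas z u v))
    (closedBall 1 ρ) measurableSet_closedBall (ball (0 : E) ρ) measurableSet_ball k hk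
    (ENNReal.ofReal (1 / 2)) (by
      intro c hc y hy
      obtain ⟨h2, h3, h4⟩ := hc1 c hc
      have hc0 : c ≠ 0 := by
        intro h0
        rw [h0, norm_zero] at h3
        linarith
      rw [mem_ball_zero_iff] at hy
      refine ⟨?_, ?_⟩
      · rw [mem_closedBall, dist_eq_norm]
        have h5 : c • sig z u v y - z = (c - 1) • z + c • Lf u v y := by
          rw [sig, smul_add, sub_smul, one_smul]
          abel
        rw [h5]
        have h6 : ‖z‖ ≤ 1 := by
          have h7 := norm_le_nsq z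
          have h8 : nsq z = 1 := by
            have h9 := nsq_eq_hp z
            rw [h.zz] at h9
            exact_mod_cast h9
          rw [h8] at h7
          nlinarith [norm_nonneg z]
        have h7 := Lf_norm h y
        calc _ ≤ ‖(c - 1) • z‖ + ‖c • Lf u v y‖ := norm_add_le _ _
          _ = ‖c - 1‖ * ‖z‖ + ‖c‖ * ‖Lf u v y‖ := by rw [norm_smul, norm_smul]
          _ ≤ ρ * 1 + 2 * (2 * ρ) := by
            gcongr
            · linarith
            · exact h7.trans (by linarith)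
          _ ≤ 8 * ρ := by linarith
      · simp only [Function.comp]
        rw [yc_sig h hc0]
        gcongr
        calc (1 / 2 : ℝ) ≤ (7 / 8) ^ 4 := by norm_num
          _ ≤ ‖c‖ ^ 4 := by
            gcongr
            linarith)
  calc ENNReal.ofReal (ρ ^ 2) * ∫⁻ y in ball (0 : E) ρ, k y
      ≤ ENNReal.ofReal 8 * (ENNReal.ofReal (1 / 2) * volume (closedBall (1 : ℂ) ρ)) *
          ∫⁻ y in ball (0 : E) ρ, k y := by
        gcongr
        rw [Complex.volume_closedBall, ← ENNReal.ofReal_pow (by positivity)]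
        have h5 : (NNReal.pi : ℝ≥0∞) = ENNReal.ofReal Real.pi := by
          rw [ENNReal.ofReal_eq_coe_nnreal Real.pi_pos.le]; rfl
        rw [h5, ← ENNReal.ofReal_mul (by positivity), ← ENNReal.ofReal_mul (by positivity),
          ← ENNReal.ofReal_mul (by positivity)]
        apply ENNReal.ofReal_le_ofReal
        have := Real.pi_gt_three
        nlinarith [sq_nonneg ρ]
    _ = ENNReal.ofReal 8 * (ENNReal.ofReal (1 / 2) * volume (closedBall (1 : ℂ) ρ) *
          ∫⁻ y in ball (0 : E) ρ, k y) := by ring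
    _ ≤ _ := by gcongr; exact h1

theorem eb_ON3 (i : Fin 3) : ON3 (eb i) (eb (i + 1)) (eb (i + 2)) := by
  have h : ∀ i j : Fin 3, hp (eb i) (eb j) = if i = j then 1 else 0 := by
    intro i j
    unfold hp eb
    rw [Finset.sum_eq_single i]
    · by_cases hij : i = j
      · subst hij; simp
      · simp [hij]
    · intro k _ hk
      simp [hk]
    · intro hi; exact absurd (Finset.mem_univ i) hi
  constructor
  all_goals rw [h]
  all_goals fin_cases i <;> simp

theorem ballT : ∃ C : ℝ, 1 ≤ C ∧ ∀ k : W → ℝ≥0∞, Measurable k →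
    (∀ c : ℂ, c ≠ 0 → ∀ x : W, x ≠ 0 → k (c • x) = k x) →
      ∫⁻ x in closedBall (0 : W) 1, k x / ENNReal.ofReal (nsq x) ≤
        ENNReal.ofReal C * ∑ i : Fin 3, ∫⁻ y in ball (0 : E) 2, k (sig (eb i) (eb (i + 1)) (eb (i + 2)) y) := by
  refine ⟨4, by norm_num, fun k hk hh => ?_⟩
  set S : Fin 3 → Set W := fun i => {x | ‖x‖ ≤ 1 ∧ ‖x‖ ≤ ‖x i‖} with hSdef
  have hSm : ∀ i, MeasurableSet (S i) := by
    intro i
    apply MeasurableSet.inter
    · exact measurableSet_le measurable_norm measurable_const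
    · exact measurableSet_le measurable_norm (measurable_pi_apply i).norm
  have hcov : closedBall (0 : W) 1 ⊆ ⋃ i, S i := by
    intro x hx
    rw [mem_closedBall_zero_iff] at hx
    rw [mem_iUnion]
    obtain ⟨i, hi⟩ : ∃ i, ‖x‖ ≤ ‖x i‖ := by
      by_contra hcon
      push Not at hcon
      have h1 : ‖x‖ < ‖x‖ := by
        have h0 : 0 < ‖x‖ := lt_of_le_of_lt (norm_nonneg _) (hcon 0)
        exact (pi_norm_lt_iff h0).mpr hcon
      exact lt_irrefl _ h1
    exact ⟨i, hx, hi⟩
  have hnm : Measurable fun x : W => ENNReal.ofReal (nsq x) := by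
    apply Measurable.ennreal_ofReal
    unfold nsq
    exact Finset.measurable_sum _ fun i _ =>
      (Complex.continuous_normSq.measurable.comp (measurable_pi_apply i))
  calc ∫⁻ x in closedBall (0 : W) 1, k x / ENNReal.ofReal (nsq x)
      ≤ ∫⁻ x in ⋃ i, S i, k x / ENNReal.ofReal (nsq x) := lintegral_mono_set hcov
    _ ≤ ∑' i, ∫⁻ x in S i, k x / ENNReal.ofReal (nsq x) := lintegral_iUnion_le _ _
    _ = ∑ i, ∫⁻ x in S i, k x / ENNReal.ofReal (nsq x) := tsum_fintype _
    _ ≤ ∑ i, ENNReal.ofReal 4 *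
          ∫⁻ y in ball (0 : E) 2, k (sig (eb i) (eb (i + 1)) (eb (i + 2)) y) := by
        refine Finset.sum_le_sum fun i _ => ?_
        have hON := eb_ON3 i
        have hsm : Continuous fun y : E => sig (eb i) (eb (i + 1)) (eb (i + 2)) y := by
          unfold sig
          fun_prop
        have h1 := up hON (hSm i) (hk.div hnm) (closedBall 0 1) measurableSet_closedBall
          (ball (0 : E) 2) measurableSet_ball
          (fun y => k (sig (eb i) (eb (i + 1)) (eb (i + 2)) y)) (hk.comp hsm.measurable) 1 (by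
            intro c hc y hy
            obtain ⟨h2, h3⟩ := hy
            have h4 : (c • sig (eb i) (eb (i + 1)) (eb (i + 2)) y) i = c := by
              rw [← hp_eb i (c • sig (eb i) (eb (i + 1)) (eb (i + 2)) y), hp_c hON]
            rw [h4] at h3
            have h5 : ‖c‖ ≤ 1 := by
              have := norm_le_pi_norm (c • sig (eb i) (eb (i + 1)) (eb (i + 2)) y) i
              rw [h4] at this
              linarith
            have hcpos : 0 < ‖c‖ := norm_pos_iff.mpr hc
            have h6 := nsq_le_norm (c • sig (eb i) (eb (i + 1)) (eb (i + 2)) y)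
            rw [nsq_c hON] at h6
            have h7 : ‖c • sig (eb i) (eb (i + 1)) (eb (i + 2)) y‖ ^ 2 ≤ ‖c‖ ^ 2 := by gcongr
            refine ⟨?_, ?_, ?_⟩
            · rw [mem_closedBall_zero_iff]; exact h5
            · rw [mem_ball_zero_iff]
              have h8 : ‖c‖ ^ 2 * (1 + ‖y‖ ^ 2) ≤ ‖c‖ ^ 2 * 3 := by linarith
              have h9 := le_of_mul_le_mul_left h8 (by positivity)
              refine abs_lt_of_sq_lt_sq' ?_ (by norm_num) |>.2
              linarith
            · change ENNReal.ofReal (‖c‖ ^ 4) * (k (c • sig (eb i) (eb (i + 1)) (eb (i + 2)) y) /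
                ENNReal.ofReal (nsq (c • sig (eb i) (eb (i + 1)) (eb (i + 2)) y))) ≤ _
              rw [nsq_c hON, hh c hc _ (sig_ne hON y), one_mul]
              have h8 : ENNReal.ofReal (‖c‖ ^ 4) *
                  (k (sig (eb i) (eb (i + 1)) (eb (i + 2)) y) / ENNReal.ofReal (‖c‖ ^ 2 * (1 + ‖y‖ ^ 2))) =
                  (ENNReal.ofReal (‖c‖ ^ 4) / ENNReal.ofReal (‖c‖ ^ 2 * (1 + ‖y‖ ^ 2))) *
                  k (sig (eb i) (eb (i + 1)) (eb (i + 2)) y) := by
                rw [div_eq_mul_inv, div_eq_mul_inv]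
                ring
              rw [h8, ← ENNReal.ofReal_div_of_pos (by positivity)]
              have h9 : ENNReal.ofReal (‖c‖ ^ 4 / (‖c‖ ^ 2 * (1 + ‖y‖ ^ 2))) ≤ 1 := by
                rw [ENNReal.ofReal_le_one, div_le_one (by positivity)]
                have h10 : ‖c‖ ^ 2 ≤ 1 := by
                  calc ‖c‖ ^ 2 ≤ 1 ^ 2 := by gcongr
                    _ = 1 := by norm_num
                calc ‖c‖ ^ 4 = ‖c‖ ^ 2 * ‖c‖ ^ 2 := by ring
                  _ ≤ ‖c‖ ^ 2 * (1 + ‖y‖ ^ 2) := by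
                    gcongr
                    nlinarith [sq_nonneg ‖y‖]
              calc _ ≤ 1 * k (sig (eb i) (eb (i + 1)) (eb (i + 2)) y) := by gcongr
                _ = _ := one_mul _)
        refine h1.trans ?_
        gcongr
        rw [one_mul, Complex.volume_closedBall]
        have h5 : (NNReal.pi : ℝ≥0∞) = ENNReal.ofReal Real.pi := by
          rw [ENNReal.ofReal_eq_coe_nnreal Real.pi_pos.le]; rfl
        rw [h5, ENNReal.ofReal_one, one_pow, one_mul]
        apply ENNReal.ofReal_le_ofReal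
        have := Real.pi_lt_d2
        linarith
    _ = _ := by rw [Finset.mul_sum]

/-- scaling of integrals of homogeneous functions -/
theorem ballR {k : W → ℝ≥0∞} (hk : Measurable k) {m : ℕ}
    (hh : ∀ r : ℝ, 0 < r → ∀ x : W, x ≠ 0 → k (r • x) = k x / ENNReal.ofReal (r ^ m)) {R : ℝ} (hR : 0 < R) :
    ∫⁻ x in closedBall (0 : W) R, k x =
      ENNReal.ofReal (R ^ 6 / R ^ m) * ∫⁻ x in closedBall (0 : W) 1, k x := by
  have hfr : Module.finrank ℝ W = 6 := by
    simp [W, Module.finrank_pi_fintype, Complex.finrank_real_complex]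
  have hf : Measurable ((closedBall (0 : W) R).indicator k) :=
    hk.indicator measurableSet_closedBall
  have h1 : ∫⁻ x, (closedBall (0 : W) R).indicator k (R • x) =
      ENNReal.ofReal |(R ^ 6)⁻¹| * ∫⁻ x, (closedBall (0 : W) R).indicator k x := by
    have h2 := Measure.map_addHaar_smul (volume : Measure W) hR.ne'
    rw [hfr] at h2
    have h2' := lintegral_map (μ := (volume : Measure W)) hf (measurable_const_smul R)
    rw [← h2', h2, lintegral_smul_measure]
    rfl
  have h3 : ∫⁻ x, (closedBall (0 : W) R).indicator k (R • x) =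
      (ENNReal.ofReal (R ^ m))⁻¹ * ∫⁻ x in closedBall (0 : W) 1, k x := by
    rw [← lintegral_indicator measurableSet_closedBall, ← lintegral_const_mul _
      (hk.indicator measurableSet_closedBall)]
    have h4 : ∀ᵐ x : W, x ≠ 0 := by
      have : (volume : Measure W) {0} = 0 := by simp
      exact (compl_mem_ae_iff (s := {(0 : W)})).mpr this
    refine lintegral_congr_ae (h4.mono fun x hx => ?_)
    simp only
    by_cases h5 : x ∈ closedBall (0 : W) 1
    · have h6 : R • x ∈ closedBall (0 : W) R := by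
        rw [mem_closedBall_zero_iff] at h5 ⊢
        rw [norm_smul, Real.norm_eq_abs, abs_of_pos hR]
        nlinarith
      rw [indicator_of_mem h5, indicator_of_mem h6, hh R hR x hx, div_eq_mul_inv, mul_comm]
    · have h6 : R • x ∉ closedBall (0 : W) R := by
        rw [mem_closedBall_zero_iff] at h5 ⊢
        rw [norm_smul, Real.norm_eq_abs, abs_of_pos hR]
        intro h7
        apply h5
        by_contra h8
        push Not at h8
        nlinarith
      rw [indicator_of_notMem h5, indicator_of_notMem h6, mul_zero]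
  rw [h3, lintegral_indicator measurableSet_closedBall, abs_of_pos (by positivity),
    ENNReal.ofReal_inv_of_pos (by positivity)] at h1
  have h7 : ENNReal.ofReal (R ^ 6) ≠ 0 := by
    rw [Ne, ENNReal.ofReal_eq_zero, not_le]; positivity
  have h8 : ENNReal.ofReal (R ^ 6) ≠ ⊤ := ENNReal.ofReal_ne_top
  calc ∫⁻ x in closedBall (0 : W) R, k x
      = ENNReal.ofReal (R ^ 6) * ((ENNReal.ofReal (R ^ 6))⁻¹ * ∫⁻ x in closedBall (0 : W) R, k x) := by
        rw [← mul_assoc, ENNReal.mul_inv_cancel h7 h8, one_mul]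
    _ = ENNReal.ofReal (R ^ 6) * ((ENNReal.ofReal (R ^ m))⁻¹ * ∫⁻ x in closedBall (0 : W) 1, k x) := by
        rw [h1]
    _ = _ := by
        rw [ENNReal.ofReal_div_of_pos (by positivity), div_eq_mul_inv, mul_assoc]

end Pool.Agent.Lib.Qcd
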