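import Pool.Agent.Lib.Qcd.GDefA
import Pool.Agent.Lib.Psd.FrameG

set_option autoImplicit false

/-!
# A normalised lift in charts, II

Notation of `GDefA`; `y = sig z u v x`, `N = 1 + ∑ G_a²`, `H = Φ z + g`, `Φ y = λ H`, `hp H H = N`; for `w ∈ ℝ⁴`, `ξ_w = ∑_a (∑_i w_i DG i a) • fr p q a ∈ span (p, q)`, `nsq ξ_w = ∑_a (∑_i w_i DG i a)²`, `hp H ξ_w = hp g ξ_w`.
PROOFS. By `Phi_fderiv` and the definition of `hd` (the component along `Φ y = λ H` is removed, and `Dλ w • H` is such a multiple): `hd Φ y (Lf u v w) = λ • ξ'_w`, `ξ'_w = ξ_w - (hp g ξ_w / N) • H`; `nsq (Φ y) = |λ|² N`.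
`co_omg`: `co (ch (pl Φ) z u v) i j x = dd (pl Φ) y (fr i) (fr j)` (`co_ch`, `pl_conn`) `= 2 Im hp (hd (fr i)) (hd (fr j)) / nsq (Φ y)` (`dd_pl`) `= 2 Im hp (ξ'_i) (ξ'_j) / N`, `hp ξ'_i ξ'_j = hp ξ_i ξ_j - conj (hp g ξ_i) hp g ξ_j / N`, and `omg (DG x) i j = 2 Im hp ξ_i ξ_j` (expand). So the difference is at most
`2 |ξ_i| |ξ_j| (1 - 1/N) + 2 |g|² |ξ_i| |ξ_j| / N² ≤ 4 |g|² |ξ_i| |ξ_j|`, `|g|² = ∑ G_a²`, and `|ξ_i| |ξ_j| ≤ nrm2 (DG x)` (`nrm2 (DG x) = ∑_i |ξ_i|²`).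
`nc_DG`: let `∑ w₁² ≤ ∑ w₂²`. `(Lf w)ʰ = Lf w - (hp y (Lf w) / nsq y) • y` is orthogonal to `y` and `hd Φ y (Lf w) = hd Φ y (Lf w)ʰ` (`hd_self`); `nsq (Lf w)ʰ = |w|² - |hp y (Lf w)|² / (1 + ‖x‖²)` lies between `|w|² / (1 + ‖x‖²)` and `|w|²` (`|hp y (Lf w)| ≤ ‖x‖ |w|`; `hp z (Lf w) = 0`). `QCL` holds at `y` by homogeneity (`hd_hom` with `c = 1 / √nsq y`).
With `k² = 1 + ‖x‖²`: `nsq (Lf w₁)ʰ ≤ |w₁|² ≤ |w₂|² ≤ nsq (k (Lf w₂)ʰ)`, so `nsq (hd (Lf w₁)) ≤ (1 + ε) (1 + ‖x‖²) nsq (hd (Lf w₂))`. Finally `nsq (hd (Lf w)) = |λ|² (|ξ_w|² - |hp g ξ_w|² / N)` lies between `|λ|² |ξ_w|² / N` and `|λ|² |ξ_w|²`, so `|ξ_{w₁}|² ≤ (1 + ε) (1 + ‖x‖²) N |ξ_{w₂}|²`.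
`lamG_fderiv`: `hΦ.nrm`; `Dλ w / λ` has real part `⟨x, w⟩ / (1 + ‖x‖²) - ⟨G, ξ_w⟩ / N` (differentiate the logarithm of `lamG_nsq`, valid near `x`) and imaginary part `pl Φ y (Lf w) - Im hp g ξ_w / N`: `pl Φ y (Lf w) = a0 (λ H) (Dλ w • H + λ ξ_w) = Im (Dλ w / λ) + Im hp H ξ_w / N` (`a0_apply`); and `a0 y (Lf w) = Im hp (Lf x) (Lf w) / (1 + ‖x‖²)` is at most
`‖x‖ ‖w‖`; `|ξ_w| ≤ √(nrm2 (DG x)) ‖w‖`.
-/

open MeasureTheory Set Metric
open scoped ContDiff ENNReal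

namespace Pool.Agent.Lib.Qcd

open Pool.Agent.P28b04d Pool.Agent.Lib.Psd

namespace GDefBAux

open FrameGAux in
theorem hp_add_left' (a b c : W) : hp (a + b) c = hp a c + hp b c := hp_add_left a b c

/-- combination of the frame `(p, ip, q, iq)` -/
noncomputable def cf (p q : W) (s : Fin 4 → ℝ) : W := ∑ a, s a • fr p q a

def im4 (s t : Fin 4 → ℝ) : ℝ := s 0 * t 1 - s 1 * t 0 + (s 2 * t 3 - s 3 * t 2)

def re4 (s t : Fin 4 → ℝ) : ℝ := ∑ a, s a * t a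

theorem re4_self (s : Fin 4 → ℝ) : re4 s s = ∑ a, s a ^ 2 := by
  unfold re4
  refine Finset.sum_congr rfl fun a _ => ?_
  ring

theorem re4_nonneg (s : Fin 4 → ℝ) : 0 ≤ re4 s s := by
  rw [re4_self]
  exact Finset.sum_nonneg fun a _ => sq_nonneg _

theorem cs (s t : Fin 4 → ℝ) : re4 s t ^ 2 + im4 s t ^ 2 ≤ re4 s s * re4 t t := by
  simp only [re4, im4, Fin.sum_univ_four]
  nlinarith [sq_nonneg (s 0 * t 2 - s 1 * t 3 - s 2 * t 0 + s 3 * t 1),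
    sq_nonneg (s 0 * t 3 + s 1 * t 2 - s 2 * t 1 - s 3 * t 0)]

theorem cf_eq (p q : W) (s : Fin 4 → ℝ) :
    cf p q s = ((s 0 : ℂ) + s 1 * Complex.I) • p + ((s 2 : ℂ) + s 3 * Complex.I) • q := by
  rw [cf, Fin.sum_univ_four]
  funext k
  simp [fr]
  ring

theorem hp_cf {p q : W} (hpp : hp p p = 1) (hqq : hp q q = 1) (hpq : hp p q = 0) (s t : Fin 4 → ℝ) :
    hp (cf p q s) (cf p q t) = (re4 s t : ℂ) + (im4 s t : ℂ) * Complex.I := by
  have hqp : hp q p = 0 := by rw [← hp_star, hpq, star_zero]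
  have hI : Complex.I * Complex.I = -1 := Complex.I_mul_I
  rw [cf_eq, cf_eq]
  simp only [hp_add_right, hp_smul_right, FrameGAux.hp_add_left, FrameGAux.hp_smul_left, hpp, hqq, hpq, hqp]
  simp only [re4, im4, Fin.sum_univ_four]
  simp
  linear_combination (-(s 1 : ℂ) * t 1 - s 3 * t 3) * hI

theorem normSq_hp_cf {p q : W} (hpp : hp p p = 1) (hqq : hp q q = 1) (hpq : hp p q = 0)
    (s t : Fin 4 → ℝ) : Complex.normSq (hp (cf p q s) (cf p q t)) ≤ re4 s s * re4 t t := by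
  rw [hp_cf hpp hqq hpq]
  have h := cs s t
  have h1 : Complex.normSq ((re4 s t : ℂ) + (im4 s t : ℂ) * Complex.I) = re4 s t ^ 2 + im4 s t ^ 2 := by
    rw [Complex.normSq_add_mul_I]
  rw [h1]
  exact h

theorem nsq_cf {p q : W} (hpp : hp p p = 1) (hqq : hp q q = 1) (hpq : hp p q = 0) (s : Fin 4 → ℝ) :
    nsq (cf p q s) = re4 s s := by
  have h1 : (nsq (cf p q s) : ℂ) = (re4 s s : ℂ) := by
    rw [nsq_eq_hp, hp_cf hpp hqq hpq]
    have : im4 s s = 0 := by simp only [im4]; ring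
    rw [this]
    simp
  exact_mod_cast h1

theorem nsq_smul (c : ℂ) (a : W) : nsq (c • a) = Complex.normSq c * nsq a := by
  unfold nsq
  rw [Finset.mul_sum]
  refine Finset.sum_congr rfl fun k _ => ?_
  rw [Pi.smul_apply, smul_eq_mul, Complex.normSq_mul]

theorem core1 {l D : ℂ} {H ξ : W} {N : ℝ} (hl : l ≠ 0) (hN : N ≠ 0) (hH : hp H H = (N : ℂ)) :
    (D • H + l • ξ) - (hp (l • H) (D • H + l • ξ) / (nsq (l • H) : ℂ)) • (l • H) =
      l • (ξ - (hp H ξ / (N : ℂ)) • H) := by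
  have hNc : (N : ℂ) ≠ 0 := by exact_mod_cast hN
  have hn : (nsq (l • H) : ℂ) = star l * l * N := by
    rw [nsq_eq_hp, hp_smul_right, FrameGAux.hp_smul_left, hH]
    ring
  have hsl : star l ≠ 0 := by simpa using hl
  rw [hn, FrameGAux.hp_smul_left, hp_add_right, hp_smul_right, hp_smul_right, hH]
  have h1 : star l * (D * N + l * hp H ξ) / (star l * l * N) = D / l + hp H ξ / N := by
    field_simp
  rw [h1, smul_sub, smul_smul, smul_smul]
  have h2 : (D / l + hp H ξ / N) * l = D + l * (hp H ξ / N) := by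
    field_simp
  rw [h2, add_smul]
  abel

theorem core2 {H ξ η : W} {N : ℝ} (hN : N ≠ 0) (hH : hp H H = (N : ℂ)) :
    hp (ξ - (hp H ξ / (N : ℂ)) • H) (η - (hp H η / (N : ℂ)) • H) =
      hp ξ η - star (hp H ξ) * hp H η / N := by
  have hNc : (N : ℂ) ≠ 0 := by exact_mod_cast hN
  have hs : hp ξ H = star (hp H ξ) := (hp_star H ξ).symm
  simp only [FrameGAux.hp_sub_left, FrameGAux.hp_sub_right, hp_smul_right, FrameGAux.hp_smul_left, hH, hs]
  have h3 : star (hp H ξ / (N : ℂ)) = star (hp H ξ) / N := by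
    rw [star_div₀]
    simp
  rw [h3]
  field_simp
  ring

theorem Lf_cf (u v : W) (x : E) : Lf u v x = cf u v (fun i => x i) := Lf_apply u v x

theorem re4_E (x : E) : re4 (fun i => x i) (fun i => x i) = ‖x‖ ^ 2 := by
  rw [re4_self, EuclideanSpace.norm_sq_eq]
  simp

variable {Φ : W → W} {z u v p q : W}

/-- coordinates of the derivative of the chart -/
noncomputable def Lw (Φ : W → W) (z u v p q : W) (x : E) (w : Fin 4 → ℝ) (a : Fin 4) : ℝ :=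
  ∑ i, w i * DG Φ z u v p q x i a

/-- the vector `Φ z + g` -/
noncomputable def HH (Φ : W → W) (z u v p q : W) (x : E) : W := Φ z + cf p q (Gc Φ z u v p q x)

/-- `1 + |g|²` -/
noncomputable def NN (Φ : W → W) (z u v p q : W) (x : E) : ℝ := 1 + ∑ a, Gc Φ z u v p q x a ^ 2

theorem NN_pos (x : E) : 1 ≤ NN Φ z u v p q x := by
  unfold NN
  have : 0 ≤ ∑ a, Gc Φ z u v p q x a ^ 2 := Finset.sum_nonneg fun a _ => sq_nonneg _
  linarith

theorem hpz_cf (h' : ON3 (Φ z) p q) (s : Fin 4 → ℝ) : hp (Φ z) (cf p q s) = 0 := by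
  rw [cf_eq, hp_add_right, hp_smul_right, hp_smul_right, h'.zu, h'.zv]
  ring

theorem hpcf_z (h' : ON3 (Φ z) p q) (s : Fin 4 → ℝ) : hp (cf p q s) (Φ z) = 0 := by
  rw [← hp_star, hpz_cf h', star_zero]

theorem HH_cf (h' : ON3 (Φ z) p q) (x : E) (s : Fin 4 → ℝ) :
    hp (HH Φ z u v p q x) (cf p q s) = hp (cf p q (Gc Φ z u v p q x)) (cf p q s) := by
  rw [HH, FrameGAux.hp_add_left, hpz_cf h', zero_add]

theorem HH_HH (h' : ON3 (Φ z) p q) (x : E) :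
    hp (HH Φ z u v p q x) (HH Φ z u v p q x) = ((NN Φ z u v p q x : ℝ) : ℂ) := by
  rw [HH, FrameGAux.hp_add_left, hp_add_right, hp_add_right, hpz_cf h', hpcf_z h', h'.zz, ← nsq_eq_hp,
    nsq_cf h'.uu h'.vv h'.uv, re4_self, NN]
  push_cast
  ring

theorem normSq_HH (h' : ON3 (Φ z) p q) (x : E) (s : Fin 4 → ℝ) :
    Complex.normSq (hp (HH Φ z u v p q x) (cf p q s)) ≤
      (∑ a, Gc Φ z u v p q x a ^ 2) * re4 s s := by
  rw [HH_cf h', ← re4_self]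
  exact normSq_hp_cf h'.uu h'.vv h'.uv _ _

theorem Phi_HH (h' : ON3 (Φ z) p q) {x : E} (hx : lamG Φ z u v x ≠ 0) :
    Φ (sig z u v x) = lamG Φ z u v x • HH Φ z u v p q x := Phi_eq h' hx

theorem fd_HH (hΦ : HLoc (n := 2) Φ) (h : ON3 z u v) (h' : ON3 (Φ z) p q) {x : E}
    (hx : lamG Φ z u v x ≠ 0) (w : E) :
    fderiv ℝ Φ (sig z u v x) (Lf u v w) =
      (fderiv ℝ (lamG Φ z u v) x w) • HH Φ z u v p q x +
        lamG Φ z u v x • cf p q (Lw Φ z u v p q x (fun i => w i)) := Phi_fderiv hΦ h h' hx w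

theorem hd_Lf (hΦ : HLoc (n := 2) Φ) (h : ON3 z u v) (h' : ON3 (Φ z) p q) {x : E}
    (hx : lamG Φ z u v x ≠ 0) (w : E) :
    hd Φ (sig z u v x) (Lf u v w) =
      lamG Φ z u v x • (cf p q (Lw Φ z u v p q x (fun i => w i)) -
        (hp (HH Φ z u v p q x) (cf p q (Lw Φ z u v p q x (fun i => w i))) /
          ((NN Φ z u v p q x : ℝ) : ℂ)) • HH Φ z u v p q x) := by
  have hN : NN Φ z u v p q x ≠ 0 := by
    have := NN_pos (Φ := Φ) (z := z) (u := u) (v := v) (p := p) (q := q) x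
    linarith
  unfold hd
  rw [fd_HH hΦ h h' hx, Phi_HH h' hx]
  exact core1 hx hN (HH_HH h' x)

theorem nsq_Phi (h' : ON3 (Φ z) p q) {x : E} (hx : lamG Φ z u v x ≠ 0) :
    nsq (Φ (sig z u v x)) = Complex.normSq (lamG Φ z u v x) * NN Φ z u v p q x := by
  have h1 : (nsq (HH Φ z u v p q x) : ℂ) = ((NN Φ z u v p q x : ℝ) : ℂ) := by
    rw [nsq_eq_hp, HH_HH h']
  have h2 : nsq (HH Φ z u v p q x) = NN Φ z u v p q x := by exact_mod_cast h1
  rw [Phi_HH h' hx, nsq_smul, h2]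

theorem nsq_proj {H ξ : W} {N : ℝ} (hN : N ≠ 0) (hH : hp H H = (N : ℂ)) :
    nsq (ξ - (hp H ξ / (N : ℂ)) • H) = nsq ξ - Complex.normSq (hp H ξ) / N := by
  have h1 : (nsq (ξ - (hp H ξ / (N : ℂ)) • H) : ℂ) =
      ((nsq ξ - Complex.normSq (hp H ξ) / N : ℝ) : ℂ) := by
    rw [nsq_eq_hp, core2 hN hH, ← nsq_eq_hp]
    push_cast
    rw [Complex.star_def, ← Complex.normSq_eq_conj_mul_self]
  exact_mod_cast h1

theorem nsq_hd (hΦ : HLoc (n := 2) Φ) (h : ON3 z u v) (h' : ON3 (Φ z) p q) {x : E}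
    (hx : lamG Φ z u v x ≠ 0) (w : E) :
    Complex.normSq (lamG Φ z u v x) * (re4 (Lw Φ z u v p q x (fun i => w i)) (Lw Φ z u v p q x (fun i => w i)) /
        NN Φ z u v p q x) ≤ nsq (hd Φ (sig z u v x) (Lf u v w)) ∧
      nsq (hd Φ (sig z u v x) (Lf u v w)) ≤
        Complex.normSq (lamG Φ z u v x) * re4 (Lw Φ z u v p q x (fun i => w i)) (Lw Φ z u v p q x (fun i => w i)) := by
  have hN1 := NN_pos (Φ := Φ) (z := z) (u := u) (v := v) (p := p) (q := q) x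
  have hN : NN Φ z u v p q x ≠ 0 := by linarith
  have hNp : 0 < NN Φ z u v p q x := by linarith
  set s := Lw Φ z u v p q x (fun i => w i) with hs
  have h1 := normSq_HH (u := u) (v := v) h' x s
  have h2 : ∑ a, Gc Φ z u v p q x a ^ 2 = NN Φ z u v p q x - 1 := by unfold NN; ring
  rw [h2] at h1
  have h3 := re4_nonneg s
  have h4 := Complex.normSq_nonneg (hp (HH Φ z u v p q x) (cf p q s))
  have h5 := Complex.normSq_nonneg (lamG Φ z u v x)
  rw [hd_Lf hΦ h h' hx w, nsq_smul, nsq_proj hN (HH_HH h' x), nsq_cf h'.uu h'.vv h'.uv]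
  constructor
  · apply mul_le_mul_of_nonneg_left _ h5
    have h6 : Complex.normSq (hp (HH Φ z u v p q x) (cf p q s)) / NN Φ z u v p q x ≤
        (NN Φ z u v p q x - 1) * re4 s s / NN Φ z u v p q x := by gcongr
    have h7 : (NN Φ z u v p q x - 1) * re4 s s / NN Φ z u v p q x = re4 s s - re4 s s / NN Φ z u v p q x := by
      field_simp
    rw [h7] at h6
    linarith
  · apply mul_le_mul_of_nonneg_left _ h5
    have : 0 ≤ Complex.normSq (hp (HH Φ z u v p q x) (cf p q s)) / NN Φ z u v p q x := by positivity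
    linarith

theorem qcl_at (hΦ : HLoc (n := 2) Φ) {ε : ℝ} (hq : QCL ε Φ) {y : W} (hy : y ≠ 0) {a b : W}
    (ha : hp y a = 0) (hb : hp y b = 0) (hab : nsq a ≤ nsq b) :
    nsq (hd Φ y a) ≤ (1 + ε) * nsq (hd Φ y b) := by
  have hyp : 0 < nsq y := by
    rcases (Function.ne_iff.mp hy) with ⟨k, hk⟩
    exact Finset.sum_pos' (fun i _ => Complex.normSq_nonneg _)
      ⟨k, Finset.mem_univ k, Complex.normSq_pos.mpr hk⟩
  set r : ℝ := (Real.sqrt (nsq y))⁻¹ with hr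
  have hrp : 0 < r := inv_pos.mpr (Real.sqrt_pos.mpr hyp)
  have hr2 : r ^ 2 * nsq y = 1 := by
    rw [hr, inv_pow, Real.sq_sqrt hyp.le, inv_mul_cancel₀ hyp.ne']
  have hc : (r : ℂ) ≠ 0 := by exact_mod_cast hrp.ne'
  have hn : Complex.normSq (r : ℂ) = r ^ 2 := by rw [Complex.normSq_ofReal]; ring
  have hs : ∀ a b : W, hp ((r : ℂ) • a) ((r : ℂ) • b) = (r : ℂ) ^ 2 * hp a b := by
    intro a b
    rw [hp_smul_right, FrameGAux.hp_smul_left]
    simp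
    ring
  have h1 := hq ((r : ℂ) • y) ((r : ℂ) • a) ((r : ℂ) • b) (by rw [nsq_smul, hn, hr2])
    (by rw [hs, ha, mul_zero]) (by rw [hs, hb, mul_zero])
    (by rw [nsq_smul, nsq_smul, hn]; exact mul_le_mul_of_nonneg_left hab (by positivity))
  rw [hd_hom hΦ hc hy, hd_hom hΦ hc hy, nsq_smul, nsq_smul, hn] at h1
  have h2 : r ^ 2 * nsq (hd Φ y a) ≤ r ^ 2 * ((1 + ε) * nsq (hd Φ y b)) := by linarith
  exact le_of_mul_le_mul_left h2 (by positivity)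

theorem hp_sig_Lf (h : ON3 z u v) (x w : E) :
    hp (sig z u v x) (Lf u v w) = hp (cf u v (fun i => x i)) (cf u v (fun i => w i)) := by
  have h1 : hp z (cf u v (fun i => w i)) = 0 := by
    rw [cf_eq, hp_add_right, hp_smul_right, hp_smul_right, h.zu, h.zv]
    ring
  rw [sig, FrameGAux.hp_add_left, Lf_cf, Lf_cf, h1, zero_add]

theorem normSq_hp_sig (h : ON3 z u v) (x w : E) :
    Complex.normSq (hp (sig z u v x) (Lf u v w)) ≤ ‖x‖ ^ 2 * ‖w‖ ^ 2 := by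
  rw [hp_sig_Lf h, ← re4_E, ← re4_E]
  exact normSq_hp_cf h.uu h.vv h.uv _ _

theorem norm_hp_sig (h : ON3 z u v) (x w : E) : ‖hp (sig z u v x) (Lf u v w)‖ ≤ ‖x‖ * ‖w‖ := by
  have h1 := normSq_hp_sig h x w
  rw [Complex.normSq_eq_norm_sq] at h1
  have h2 : ‖hp (sig z u v x) (Lf u v w)‖ ^ 2 ≤ (‖x‖ * ‖w‖) ^ 2 := by
    rw [mul_pow]; exact h1
  exact le_of_sq_le_sq h2 (by positivity)

/-- removing the component along `y` -/
theorem hd_proj (hΦ : HLoc (n := 2) Φ) {y : W} (hy : y ≠ 0) (W₀ : W) (c : ℂ) :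
    hd Φ y (W₀ - c • y) = hd Φ y W₀ := by
  have h1 : W₀ - c • y = W₀ + (-c) • y := by
    rw [neg_smul, sub_eq_add_neg]
  rw [h1, hd_add, hd_self hΦ hy, add_zero]

theorem Lw_ev (x : E) (i : Fin 4) : Lw Φ z u v p q x (fun j => (ev i) j) = DG Φ z u v p q x i := by
  funext a
  unfold Lw
  rw [Finset.sum_eq_single i]
  · simp [ev]
  · intro j _ hj
    simp [ev, hj]
  · intro h
    exact absurd (Finset.mem_univ i) h

theorem re4_row_le (L : Fin 4 → Fin 4 → ℝ) (i : Fin 4) : re4 (L i) (L i) ≤ nrm2 L := by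
  rw [re4_self]
  exact Finset.single_le_sum (f := fun i => ∑ j, L i j ^ 2)
    (fun i _ => Finset.sum_nonneg fun j _ => sq_nonneg _) (Finset.mem_univ i)

theorem re4_Lw_le (x : E) (w : Fin 4 → ℝ) :
    re4 (Lw Φ z u v p q x w) (Lw Φ z u v p q x w) ≤ nrm2 (DG Φ z u v p q x) * ∑ i, w i ^ 2 := by
  rw [re4_self]
  have h1 : ∀ a, Lw Φ z u v p q x w a ^ 2 ≤ (∑ i, w i ^ 2) * ∑ i, DG Φ z u v p q x i a ^ 2 := fun a =>
    Finset.sum_mul_sq_le_sq_mul_sq _ _ _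
  calc ∑ a, Lw Φ z u v p q x w a ^ 2 ≤ ∑ a, (∑ i, w i ^ 2) * ∑ i, DG Φ z u v p q x i a ^ 2 :=
        Finset.sum_le_sum fun a _ => h1 a
    _ = nrm2 (DG Φ z u v p q x) * ∑ i, w i ^ 2 := by
        rw [← Finset.mul_sum, Finset.sum_comm, nrm2, mul_comm]

end GDefBAux

open GDefBAux

variable {Φ : W → W} {z u v p q : W}

theorem co_omg (hΦ : HLoc (n := 2) Φ) (h : ON3 z u v) (h' : ON3 (Φ z) p q) {x : E}
    (hx : lamG Φ z u v x ≠ 0) (i j : Fin 4) :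
    |co (ch (pl Φ) z u v) i j x - omg (DG Φ z u v p q x) i j| ≤
      4 * (∑ a, Gc Φ z u v p q x a ^ 2) * nrm2 (DG Φ z u v p q x) := by
  have hN1 := NN_pos (Φ := Φ) (z := z) (u := u) (v := v) (p := p) (q := q) x
  have hNp : 0 < NN Φ z u v p q x := by linarith
  have hN : NN Φ z u v p q x ≠ 0 := hNp.ne'
  have hγ : ∑ a, Gc Φ z u v p q x a ^ 2 = NN Φ z u v p q x - 1 := by unfold NN; ring
  have hlp : 0 < Complex.normSq (lamG Φ z u v x) := Complex.normSq_pos.mpr hx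
  rw [co_ch h (pl_conn hΦ).smooth, dd_pl hΦ (sig_ne h x), ← Lf_ev, ← Lf_ev, hd_Lf hΦ h h' hx,
    hd_Lf hΦ h h' hx, Lw_ev, Lw_ev, nsq_Phi h' hx, hp_smul_right, FrameGAux.hp_smul_left,
    core2 hN (HH_HH h' x)]
  set L := DG Φ z u v p q x with hL
  set N := NN Φ z u v p q x with hNdef
  set l := lamG Φ z u v x with hl
  set P := hp (cf p q (L i)) (cf p q (L j)) with hP
  set ai := hp (HH Φ z u v p q x) (cf p q (L i)) with hai
  set aj := hp (HH Φ z u v p q x) (cf p q (L j)) with haj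
  set M := nrm2 L with hM
  have hPim : P.im = im4 (L i) (L j) := by
    rw [hP, hp_cf h'.uu h'.vv h'.uv]
    simp
  have homg : omg L i j = 2 * P.im := by
    rw [hPim]
    rfl
  have h1 : (l * (star l * (P - star ai * aj / N))).im =
      Complex.normSq l * (P.im - (star ai * aj).im / N) := by
    have e1 : l * (star l * (P - star ai * aj / N)) = (Complex.normSq l : ℂ) * (P - star ai * aj / N) := by
      rw [← mul_assoc, Complex.star_def, Complex.mul_conj]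
    rw [e1, Complex.im_ofReal_mul, Complex.sub_im, Complex.div_ofReal_im]
  rw [h1, homg]
  have hMi : re4 (L i) (L i) ≤ M := re4_row_le L i
  have hMj : re4 (L j) (L j) ≤ M := re4_row_le L j
  have hi0 := re4_nonneg (L i)
  have hj0 := re4_nonneg (L j)
  have hM0 : 0 ≤ M := hi0.trans hMi
  have hN0 : 0 ≤ N - 1 := by linarith
  have hPb : |P.im| ≤ M := by
    apply abs_le_of_sq_le_sq _ hM0
    have h2 := cs (L i) (L j)
    rw [hPim]
    have h3 : re4 (L i) (L i) * re4 (L j) (L j) ≤ M * M := by gcongr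
    nlinarith [sq_nonneg (re4 (L i) (L j))]
  have hab : |(star ai * aj).im| ≤ (N - 1) * M := by
    have h2 : ‖star ai * aj‖ ^ 2 ≤ ((N - 1) * M) ^ 2 := by
      rw [norm_mul, mul_pow, norm_star, ← Complex.normSq_eq_norm_sq, ← Complex.normSq_eq_norm_sq]
      have h3 := normSq_HH (u := u) (v := v) h' x (L i)
      have h4 := normSq_HH (u := u) (v := v) h' x (L j)
      rw [hγ] at h3 h4
      have h5 := Complex.normSq_nonneg ai
      have h6 := Complex.normSq_nonneg aj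
      calc Complex.normSq ai * Complex.normSq aj
          ≤ ((N - 1) * re4 (L i) (L i)) * ((N - 1) * re4 (L j) (L j)) := by gcongr
        _ ≤ ((N - 1) * M) * ((N - 1) * M) := by gcongr
        _ = ((N - 1) * M) ^ 2 := by ring
    have h3 : ‖star ai * aj‖ ≤ (N - 1) * M := by
      exact le_of_sq_le_sq h2 (by positivity)
    exact (Complex.abs_im_le_norm _).trans h3
  rw [hγ]
  have e2 : 2 * (Complex.normSq l * (P.im - (star ai * aj).im / N)) / (Complex.normSq l * N) - 2 * P.im =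
      -(2 * P.im * ((N - 1) / N)) - 2 * (star ai * aj).im / N ^ 2 := by
    field_simp
    ring
  rw [e2]
  have e3 : (N - 1) / N ≤ N - 1 := div_le_self hN0 hN1
  have e4 : 0 ≤ (N - 1) / N := by positivity
  have e5 : |2 * P.im * ((N - 1) / N)| ≤ 2 * M * (N - 1) := by
    rw [abs_mul, abs_mul, abs_of_nonneg e4, abs_of_pos (by norm_num : (0 : ℝ) < 2)]
    gcongr
  have e6 : |2 * (star ai * aj).im / N ^ 2| ≤ 2 * ((N - 1) * M) := by
    rw [abs_div, abs_mul, abs_of_pos (by norm_num : (0 : ℝ) < 2), abs_of_pos (by positivity : 0 < N ^ 2)]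
    have h7 : 1 ≤ N ^ 2 := by nlinarith
    refine (div_le_self (by positivity) h7).trans ?_
    gcongr
  have e7 : |-(2 * P.im * ((N - 1) / N)) - 2 * (star ai * aj).im / N ^ 2| ≤
      |2 * P.im * ((N - 1) / N)| + |2 * (star ai * aj).im / N ^ 2| := by
    refine (abs_sub _ _).trans ?_
    rw [abs_neg]
  nlinarith

theorem nc_DG (hΦ : HLoc (n := 2) Φ) {ε : ℝ} (hε : 0 ≤ ε) (hq : QCL ε Φ) (h : ON3 z u v)
    (h' : ON3 (Φ z) p q) {x : E} (hx : lamG Φ z u v x ≠ 0) {ε' : ℝ}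
    (hε' : (1 + ε) * (1 + ‖x‖ ^ 2) * (1 + ∑ a, Gc Φ z u v p q x a ^ 2) ≤ 1 + ε') :
    nc ε' (DG Φ z u v p q x) := by
  intro w₁ w₂ hw
  have hN1 := NN_pos (Φ := Φ) (z := z) (u := u) (v := v) (p := p) (q := q) x
  have hNp : 0 < NN Φ z u v p q x := by linarith
  have hlp : 0 < Complex.normSq (lamG Φ z u v x) := Complex.normSq_pos.mpr hx
  set y := sig z u v x with hy
  have hy0 : y ≠ 0 := sig_ne h x
  set K : ℝ := 1 + ‖x‖ ^ 2 with hK
  have hKp : 0 < K := by positivity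
  have hyK : nsq y = K := nsq_sig h x
  have hyy : hp y y = ((K : ℝ) : ℂ) := by rw [← nsq_eq_hp, hyK]
  -- projections
  have key : ∀ w : Fin 4 → ℝ, ∃ η : W, hp y η = 0 ∧ hd Φ y η = hd Φ y (Lf u v (WithLp.toLp 2 w)) ∧
      nsq η ≤ ∑ i, w i ^ 2 ∧ ∑ i, w i ^ 2 ≤ K * nsq η := by
    intro w
    set w' : E := WithLp.toLp 2 w with hw'
    have hwn : ‖w'‖ ^ 2 = ∑ i, w i ^ 2 := by
      rw [← re4_E, re4_self]
    refine ⟨Lf u v w' - (hp y (Lf u v w') / (K : ℂ)) • y, ?_, hd_proj hΦ hy0 _ _, ?_, ?_⟩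
    · have hKc : (K : ℂ) ≠ 0 := by exact_mod_cast hKp.ne'
      rw [FrameGAux.hp_sub_right, hp_smul_right, hyy]
      field_simp
      ring
    · rw [nsq_proj hKp.ne' hyy, Lf_cf, nsq_cf h.uu h.vv h.uv, re4_E, hwn]
      have : 0 ≤ Complex.normSq (hp y (cf u v fun i => w' i)) / K := by
        have := Complex.normSq_nonneg (hp y (cf u v fun i => w' i))
        positivity
      linarith
    · have h1 := normSq_hp_sig h x w'
      rw [nsq_proj hKp.ne' hyy]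
      rw [Lf_cf] at h1 ⊢
      rw [nsq_cf h.uu h.vv h.uv, re4_E, ← hwn]
      have h2 : K * (‖w'‖ ^ 2 - Complex.normSq (hp y (cf u v fun i => w' i)) / K) =
          K * ‖w'‖ ^ 2 - Complex.normSq (hp y (cf u v fun i => w' i)) := by
        field_simp
      rw [h2, hK]
      nlinarith
  obtain ⟨η₁, h1a, h1b, h1c, _⟩ := key w₁
  obtain ⟨η₂, h2a, h2b, _, h2d⟩ := key w₂
  have hsK : Real.sqrt K ^ 2 = K := Real.sq_sqrt hKp.le
  have hns : ∀ b : W, nsq ((Real.sqrt K) • b) = K * nsq b := by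
    intro b
    rw [← Complex.coe_smul, GDefBAux.nsq_smul, Complex.normSq_ofReal, ← sq, hsK]
  have h3 : nsq η₁ ≤ nsq ((Real.sqrt K) • η₂) := by
    rw [hns]
    linarith
  have h4 := qcl_at hΦ hq hy0 h1a (b := (Real.sqrt K) • η₂) (by
    rw [← Complex.coe_smul, hp_smul_right, h2a, mul_zero]) h3
  rw [hd_smul, hns, h1b, h2b] at h4
  have h5 := (nsq_hd hΦ h h' hx (WithLp.toLp 2 w₁)).1
  have h6 := (nsq_hd hΦ h h' hx (WithLp.toLp 2 w₂)).2
  have e1 : ∀ w : Fin 4 → ℝ, re4 (Lw Φ z u v p q x (fun i => (WithLp.toLp 2 w : E) i))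
      (Lw Φ z u v p q x (fun i => (WithLp.toLp 2 w : E) i)) =
      ∑ a, (∑ i, w i * DG Φ z u v p q x i a) ^ 2 := by
    intro w
    rw [re4_self]
    rfl
  rw [e1] at h5 h6
  set X₁ := ∑ a, (∑ i, w₁ i * DG Φ z u v p q x i a) ^ 2 with hX₁
  set X₂ := ∑ a, (∑ i, w₂ i * DG Φ z u v p q x i a) ^ 2 with hX₂
  have hX₂0 : 0 ≤ X₂ := Finset.sum_nonneg fun a _ => sq_nonneg _
  set N := NN Φ z u v p q x with hN
  set l := Complex.normSq (lamG Φ z u v x) with hl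
  have h7 : l * (X₁ / N) ≤ (1 + ε) * (K * (l * X₂)) := by
    refine h5.trans (h4.trans ?_)
    gcongr
  have h8 : X₁ ≤ (1 + ε) * K * N * X₂ := by
    have h9 : l * X₁ ≤ l * ((1 + ε) * K * N * X₂) := by
      have h10 : l * (X₁ / N) * N ≤ (1 + ε) * (K * (l * X₂)) * N := by gcongr
      have h11 : l * (X₁ / N) * N = l * X₁ := by field_simp
      rw [h11] at h10
      linarith
    exact le_of_mul_le_mul_left h9 hlp
  refine h8.trans ?_
  have : (1 + ε) * K * N ≤ 1 + ε' := hε'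
  gcongr

theorem lamG_fderiv (hΦ : NL Φ) (h : ON3 z u v) (h' : ON3 (Φ z) p q) {x : E} (hx : lamG Φ z u v x ≠ 0)
    (w : E) : ‖fderiv ℝ (lamG Φ z u v) x w‖ ≤ ‖lamG Φ z u v x‖ * (2 * ‖x‖ * ‖w‖ +
      |pl Φ (sig z u v x) (Lf u v w) - a0 (sig z u v x) (Lf u v w)| +
      2 * Real.sqrt (∑ a, Gc Φ z u v p q x a ^ 2) * Real.sqrt (nrm2 (DG Φ z u v p q x)) * ‖w‖) := by
  have hN1 := NN_pos (Φ := Φ) (z := z) (u := u) (v := v) (p := p) (q := q) x
  have hNp : 0 < NN Φ z u v p q x := by linarith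
  have hlp : 0 < ‖lamG Φ z u v x‖ := norm_pos_iff.mpr hx
  set y := sig z u v x with hy
  have hy0 : y ≠ 0 := sig_ne h x
  set K : ℝ := 1 + ‖x‖ ^ 2 with hK
  have hK1 : 1 ≤ K := by
    have := sq_nonneg ‖x‖
    linarith
  have hKp : 0 < K := by linarith
  have hyK : nsq y = K := nsq_sig h x
  set N := NN Φ z u v p q x with hN
  set l := lamG Φ z u v x with hl
  have hlN : ‖l‖ ^ 2 * N = K := by
    rw [← Complex.normSq_eq_norm_sq, ← nsq_Phi h' hx, ← hy, hΦ.nrm, hyK]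
  set D := fderiv ℝ (lamG Φ z u v) x w with hD
  set s := Lw Φ z u v p q x (fun i => w i) with hs
  set A := hp (HH Φ z u v p q x) (cf p q s) with hA
  set Z := hp (Φ y) (fderiv ℝ Φ y (Lf u v w)) with hZ
  have hZ1 : Z = star l * (D * N + l * A) := by
    rw [hZ, hy, fd_HH hΦ.loc h h' hx, Phi_HH h' hx, FrameGAux.hp_smul_left, hp_add_right, hp_smul_right,
      hp_smul_right, HH_HH h' x]
  have hZre : Z.re = (hp y (Lf u v w)).re := nl_re hΦ hy0 _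
  have hZim : Z.im = K * pl Φ y (Lf u v w) := by
    have h1 : pl Φ y (Lf u v w) = Z.im / nsq (Φ y) := by
      change a0 (Φ y) (fderiv ℝ Φ y (Lf u v w)) = _
      rw [a0_apply]
    rw [h1, hΦ.nrm, hyK]
    field_simp
  set T := |pl Φ y (Lf u v w) - a0 y (Lf u v w)| with hT
  have hhp := norm_hp_sig h x w
  rw [← hy] at hhp
  have ha0 : |a0 y (Lf u v w)| ≤ ‖x‖ * ‖w‖ := by
    rw [a0_apply, hyK, abs_div, abs_of_pos hKp]
    exact (div_le_self (abs_nonneg _) hK1).trans ((Complex.abs_im_le_norm _).trans hhp)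
  have hpl : |pl Φ y (Lf u v w)| ≤ T + ‖x‖ * ‖w‖ := by
    have : pl Φ y (Lf u v w) = (pl Φ y (Lf u v w) - a0 y (Lf u v w)) + a0 y (Lf u v w) := by ring
    rw [this]
    exact (abs_add_le _ _).trans (add_le_add le_rfl ha0)
  have hZn : ‖Z‖ ≤ ‖x‖ * ‖w‖ + K * (T + ‖x‖ * ‖w‖) := by
    refine (Complex.norm_le_abs_re_add_abs_im Z).trans ?_
    rw [hZre, hZim, abs_mul, abs_of_pos hKp]
    have h1 : |(hp y (Lf u v w)).re| ≤ ‖x‖ * ‖w‖ := (Complex.abs_re_le_norm _).trans hhp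
    gcongr
  set g := Real.sqrt (∑ a, Gc Φ z u v p q x a ^ 2) with hg
  set m := Real.sqrt (nrm2 (DG Φ z u v p q x)) with hm
  have hγ0 : 0 ≤ ∑ a, Gc Φ z u v p q x a ^ 2 := Finset.sum_nonneg fun a _ => sq_nonneg _
  have hn0 : 0 ≤ nrm2 (DG Φ z u v p q x) := Finset.sum_nonneg fun a _ => Finset.sum_nonneg fun b _ => sq_nonneg _
  have hAn : ‖A‖ ≤ g * (m * ‖w‖) := by
    have h1 := normSq_HH (u := u) (v := v) h' x s
    have h2 := re4_Lw_le (Φ := Φ) (z := z) (u := u) (v := v) (p := p) (q := q) x (fun i => w i)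
    have h3 : ∑ i, w i ^ 2 = ‖w‖ ^ 2 := by rw [← re4_E, re4_self]
    rw [h3] at h2
    rw [Complex.normSq_eq_norm_sq] at h1
    have h4 : ‖A‖ ^ 2 ≤ (g * (m * ‖w‖)) ^ 2 := by
      rw [mul_pow, mul_pow, hg, hm, Real.sq_sqrt hγ0, Real.sq_sqrt hn0]
      refine h1.trans ?_
      gcongr
    exact le_of_sq_le_sq h4 (by positivity)
  -- solve for D
  have hDN : ‖l‖ * N * ‖D‖ ≤ ‖Z‖ + ‖l‖ ^ 2 * ‖A‖ := by
    have h1 : star l * (D * N) = Z - star l * (l * A) := by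
      rw [hZ1]; ring
    have h2 : ‖star l * (D * N)‖ = ‖l‖ * N * ‖D‖ := by
      rw [norm_mul, norm_mul, norm_star, Complex.norm_real, Real.norm_eq_abs, abs_of_pos hNp]
      ring
    rw [← h2, h1]
    refine (norm_sub_le _ _).trans ?_
    rw [norm_mul, norm_mul, norm_star]
    have : ‖l‖ * (‖l‖ * ‖A‖) = ‖l‖ ^ 2 * ‖A‖ := by ring
    rw [this]
  have hfin : ‖l‖ * N * ‖D‖ ≤ ‖l‖ * N * (‖l‖ * (2 * ‖x‖ * ‖w‖ + T + 2 * g * m * ‖w‖)) := by
    refine hDN.trans ?_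
    have h1 : ‖l‖ * N * (‖l‖ * (2 * ‖x‖ * ‖w‖ + T + 2 * g * m * ‖w‖)) =
        K * (2 * ‖x‖ * ‖w‖ + T + 2 * g * m * ‖w‖) := by
      rw [← hlN]; ring
    rw [h1]
    have h2 : ‖l‖ ^ 2 ≤ K := by
      rw [← hlN]
      have := sq_nonneg ‖l‖
      nlinarith
    have h3 : ‖l‖ ^ 2 * ‖A‖ ≤ K * (g * (m * ‖w‖)) := by gcongr
    have h4 : ‖x‖ * ‖w‖ ≤ K * (‖x‖ * ‖w‖) := by
      have : 0 ≤ ‖x‖ * ‖w‖ := by positivity
      nlinarith
    have h5 : 0 ≤ K * (g * (m * ‖w‖)) := by positivity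
    nlinarith
  exact le_of_mul_le_mul_left hfin (by positivity)

end Pool.Agent.Lib.Qcd
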