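import Pool.Agent.Lib.Qcd.Lift
import Pool.Agent.Lib.Psd.NdP
import Pool.Agent.Lib.Psd.CmpF

set_option autoImplicit false

/-!
# Quasiconformal maps and their lifts

PROOFS. `frob_tv`: for unit `z` and `u ⟂ z`: `∑_{i,j} |u_i conj z_j + z_i conj u_j|² = 2 |u|² |z|² + 2 Re (∑ u_i conj z_i)(...) = 2 nsq u`. `qcl`: differentiate `F (pt y) = pt (Φ y)` at the unit vector `z` in a direction `v ⟂ z` (`contDiffAt_pt`): with `fderiv_pt`,
`fderiv ℝ F (pt z) (tv z v) = fderiv ℝ pt (Φ z) (dΦ v)`; `dΦ v = k Φ z + hd v`, `fderiv_pt_self` kills `k Φ z`, and by `fderiv_pt_hom` with `c = 1 / |Φ z|` and `fderiv_pt` the value is `tv (Φ z / |Φ z|) (hd v / |Φ z|)`. So `frob (fderiv ℝ F (pt z) (tv z v)) = 2 nsq (hd Φ z v) / nsq (Φ z)`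
and `frob (tv z v) = 2 nsq v`; `pt z ∈ CP 2` (see `P28b04d.Proj`), `tv z v ∈ Tan (pt z)` (`tv_mem`). Insert in `QC` (`K ^ 2 ≤ 1 + ε`).
`frameL`: let `y = Φ z / |Φ z|` (`|Φ z|² = nsq (Φ z)`), `ON3 y p q` (`exists_ON3`), and let `L i` be the real coordinates of `(hp p ξ, hp q ξ) / |Φ z|`, `ξ = hd Φ z (fr u v i)`, so that `ξ = |Φ z| ((L i 0 + i L i 1) p + (L i 2 + i L i 3) q)` (`hp y ξ = 0` and a vector orthogonal
to `y, p, q` vanishes). Then `nsq (hd Φ z (∑ w_i fr_i)) = nsq (Φ z) ∑_a (∑_i w_i L i a)²`; `nc ε L` from `QCL ε Φ` (`∑ w_i fr_i ⟂ z` has `nsq = ∑ w_i²`, and divide by `nsq (Φ z) > 0`); `omg L i j = 2 Im hp (ξ_i, ξ_j) / nsq (Φ z) = dd (pl Φ) z (fr i) (fr j)` (`dd_pl`);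
the fourth claim: the coordinates of `∑_j J j i ξ_j - i ξ_i` are `|Φ z|` times `dJ J L i` (multiplication by `i` is `J0`); `nrm2 L > 0` by `hd_inj`.
-/

open MeasureTheory Set Metric
open scoped ContDiff ENNReal

namespace Pool.Agent.Lib.Qcd

open Pool.Agent.P28b04d Pool.Agent.Lib.Psd

namespace QclAux

theorem hp_zero_right (a : W) : hp a 0 = 0 := by
  have h := hp_smul_right a 0 0
  simpa using h

theorem hp_sum_right (a : W) (f : Fin 4 → W) : hp a (∑ i, f i) = ∑ i, hp a (f i) := by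
  simp only [Fin.sum_univ_four, hp_add_right]

theorem hp_neg_right (a b : W) : hp a (-b) = -hp a b := by
  rw [← neg_one_smul ℂ b, hp_smul_right]
  simp

theorem hp_sub_right (a b c : W) : hp a (b - c) = hp a b - hp a c := by
  rw [sub_eq_add_neg, hp_add_right, hp_neg_right, sub_eq_add_neg]

theorem hp_rsmul_right (a b : W) (r : ℝ) : hp a (r • b) = (r : ℂ) * hp a b := by
  rw [CmpFAux.rsmul, hp_smul_right]

/-- Parseval -/
theorem hp_pars {y p q : W} (h : ON3 y p q) (a b : W) :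
    hp a b = star (hp y a) * hp y b + star (hp p a) * hp p b + star (hp q a) * hp q b := by
  conv_lhs => rw [NdPAux.expand h b]
  rw [hp_add_right, hp_add_right, hp_smul_right, hp_smul_right, hp_smul_right, hp_star, hp_star,
    hp_star]
  ring

theorem nsq_pars {y p q : W} (h : ON3 y p q) (a : W) (ha : hp y a = 0) :
    nsq a = (hp p a).re ^ 2 + (hp p a).im ^ 2 + ((hp q a).re ^ 2 + (hp q a).im ^ 2) := by
  have h1 : (nsq a : ℂ) = hp a a := nsq_eq_hp a
  rw [hp_pars h a a, ha] at h1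
  have h2 := congrArg Complex.re h1
  simp only [Complex.ofReal_re, Complex.add_re, Complex.mul_re, Complex.star_def, Complex.conj_re,
    Complex.conj_im, Complex.zero_re, Complex.zero_im] at h2
  rw [h2]
  ring

theorem nsq_eq_zero {a : W} (ha : nsq a = 0) : a = 0 := by
  by_contra h
  have := Pool.Agent.P28b04d.nsq_pos h
  linarith

theorem nsq_one {z u v : W} (h : ON3 z u v) : nsq z = 1 := by
  have h1 : (nsq z : ℂ) = hp z z := nsq_eq_hp z
  rw [h.zz] at h1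
  exact_mod_cast h1

theorem hp_fr_zero {z u v : W} (h : ON3 z u v) (i : Fin 4) : hp z (fr u v i) = 0 := by
  fin_cases i <;> simp [fr, hp_smul_right, h.zu, h.zv]

/-- length of a combination of the frame -/
theorem nsq_comb {z u v : W} (h : ON3 z u v) (r : Fin 4 → ℝ) :
    nsq (∑ i, r i • fr u v i) = ∑ i, r i ^ 2 := by
  have hvu : hp v u = 0 := by rw [← hp_star, h.uv, star_zero]
  have h0 : hp z (∑ i, r i • fr u v i) = 0 := by
    rw [hp_sum_right]
    refine Finset.sum_eq_zero fun i _ => ?_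
    rw [hp_rsmul_right, hp_fr_zero h, mul_zero]
  rw [nsq_pars h _ h0]
  simp only [Fin.sum_univ_four, hp_add_right, hp_rsmul_right]
  simp [fr, hp_smul_right, h.uu, h.vv, h.uv, hvu]
  ring

theorem hd_comb (Φ : W → W) (z : W) (f : Fin 4 → W) (r : Fin 4 → ℝ) :
    hd Φ z (∑ i, r i • f i) = ∑ i, r i • hd Φ z (f i) := by
  simp only [Fin.sum_univ_four, hd_add, hd_smul]

end QclAux

open QclAux

theorem frob_tv {z u : W} (hz : nsq z = 1) (hu : hp z u = 0) : frob (tv z u) = 2 * nsq u := by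
  have e : ∀ a : W, nsq a = Complex.normSq (a 0) + Complex.normSq (a 1) + Complex.normSq (a 2) := by
    intro a
    rw [ConnBAux.nsq_eq, Fin.sum_univ_three]
  have h1 : frob (tv z u) = 2 * nsq z * nsq u + 2 * ((hp z u) ^ 2).re := by
    rw [e z, e u]
    simp only [frob, tv, hp, Fin.sum_univ_three, Complex.normSq_apply, Complex.star_def, pow_two,
      Complex.add_re, Complex.add_im, Complex.mul_re, Complex.mul_im, Complex.conj_re, Complex.conj_im]
    ring
  rw [h1, hz, hu]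
  simp

namespace QclAux

/-- the differential of `F` at `pt z` on a tangent vector -/
theorem frob_dF {F : Mat → Mat} (hF : ContDiff ℝ ∞ F) {Φ : W → W} (h : HLoc (n := 2) Φ)
    (hpt : ∀ z : W, z ≠ 0 → F (pt z) = pt (Φ z)) {z v : W} (hz : nsq z = 1) (hv : hp z v = 0) :
    frob (fderiv ℝ F (pt z) (tv z v)) = 2 * nsq (hd Φ z v) / nsq (Φ z) := by
  have hz0 : z ≠ 0 := AmbAAux.nsq_ne_zero hz
  have hn0 : Φ z ≠ 0 := h.ne hz0
  have hn : 0 < nsq (Φ z) := Pool.Agent.P28b04d.nsq_pos hn0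
  have hF1 : HasFDerivAt F (fderiv ℝ F (pt z)) (pt z) := (hF.differentiable (by simp) (pt z)).hasFDerivAt
  have h1 := hF1.comp z (AmbAAux.hasFDerivAt_pt hz0)
  have hΦ : HasFDerivAt Φ (fderiv ℝ Φ z) z := ((h.contDiffAt hz0).differentiableAt (by simp)).hasFDerivAt
  have h2 := (AmbAAux.hasFDerivAt_pt hn0).comp z hΦ
  have h3 : (F ∘ (pt : W → Mat)) =ᶠ[nhds z] ((pt : W → Mat) ∘ Φ) := by
    filter_upwards [ConnBAux.nhds_ne hz0] with y hy
    exact hpt y hy
  have h4 := DFunLike.congr_fun ((h1.congr_of_eventuallyEq h3.symm).unique h2) v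
  rw [ContinuousLinearMap.comp_apply, ContinuousLinearMap.comp_apply, fderiv_pt hz hv] at h4
  rw [h4]
  set k : ℂ := hp (Φ z) (fderiv ℝ Φ z v) / (nsq (Φ z) : ℂ) with hk
  have h5 : fderiv ℝ Φ z v = hd Φ z v + k • Φ z := by
    unfold hd
    rw [← hk]
    abel
  have hh : hp (Φ z) (hd Φ z v) = 0 := hp_hd h hz0 v
  set ρ : ℝ := Real.sqrt (nsq (Φ z)) with hρ
  have hρ0 : 0 < ρ := Real.sqrt_pos.2 hn
  have hρ2 : ρ ^ 2 = nsq (Φ z) := Real.sq_sqrt hn.le
  set c : ℂ := ((ρ⁻¹ : ℝ) : ℂ) with hc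
  have hc0 : c ≠ 0 := by
    rw [hc]
    exact_mod_cast (inv_pos.2 hρ0).ne'
  have hcn : Complex.normSq c = (nsq (Φ z))⁻¹ := by
    rw [hc, Complex.normSq_ofReal, ← hρ2]
    field_simp
  have h6 : fderiv ℝ (pt : W → Mat) (Φ z) (fderiv ℝ Φ z v) = tv (c • Φ z) (c • hd Φ z v) := by
    rw [h5, map_add, fderiv_pt_self hn0, add_zero, ← fderiv_pt_hom hc0 hn0, fderiv_pt]
    · rw [Pool.Agent.P28b04d.nsq_smul, hcn, inv_mul_cancel₀ hn.ne']
    · rw [ConnBAux.hp_smul_smul, hh, mul_zero]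
  rw [h6, frob_tv, Pool.Agent.P28b04d.nsq_smul, hcn]
  · field_simp
  · rw [Pool.Agent.P28b04d.nsq_smul, hcn, inv_mul_cancel₀ hn.ne']
  · rw [ConnBAux.hp_smul_smul, hh, mul_zero]

end QclAux

theorem qcl {F : Mat → Mat} (hF : ContDiff ℝ ∞ F) {Φ : W → W} (h : HLoc (n := 2) Φ)
    (hpt : ∀ z : W, z ≠ 0 → F (pt z) = pt (Φ z)) {K ε : ℝ} (hK : K ^ 2 ≤ 1 + ε) (hq : QC K F) :
    QCL ε Φ := by
  intro z v w hz hv hw hvw
  have hz0 : z ≠ 0 := AmbAAux.nsq_ne_zero hz
  have hn : 0 < nsq (Φ z) := Pool.Agent.P28b04d.nsq_pos (h.ne hz0)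
  have h1 := hq (pt z) (pt_mem hz0) (tv z v) (tv_mem hz hv) (tv z w) (tv_mem hz hw)
    (by rw [frob_tv hz hv, frob_tv hz hw]; linarith)
  rw [frob_dF hF h hpt hz hv, frob_dF hF h hpt hz hw] at h1
  have h2 : 0 ≤ nsq (hd Φ z w) := Pool.Agent.P28b04d.nsq_nonneg _
  have h3 : 2 * nsq (hd Φ z v) / nsq (Φ z) ≤ (1 + ε) * (2 * nsq (hd Φ z w) / nsq (Φ z)) :=
    h1.trans (mul_le_mul_of_nonneg_right hK (by positivity))
  have h4 : (1 + ε) * (2 * nsq (hd Φ z w) / nsq (Φ z)) = 2 * ((1 + ε) * nsq (hd Φ z w)) / nsq (Φ z) := by ring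
  rw [h4, div_le_div_iff_of_pos_right hn] at h3
  linarith

theorem frameL {Φ : W → W} (h : HLoc (n := 2) Φ) {z u v : W} (hz : ON3 z u v) :
    ∃ L : Fin 4 → Fin 4 → ℝ, (∀ ε : ℝ, QCL ε Φ → nc ε L) ∧ omg L = cmp (dd (pl Φ) z) u v ∧
      (∀ r : Fin 4 → ℝ, nsq (hd Φ z (∑ i, r i • fr u v i)) = nsq (Φ z) * ∑ a, (∑ i, r i * L i a) ^ 2) ∧
      (∀ (J : Fin 4 → Fin 4 → ℝ) (i : Fin 4),
        nsq (∑ j, J j i • hd Φ z (fr u v j) - Complex.I • hd Φ z (fr u v i)) =
          nsq (Φ z) * ∑ a, dJ J L i a ^ 2) ∧ 0 < nrm2 L := by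
  have hz1 : nsq z = 1 := nsq_one hz
  have hz0 : z ≠ 0 := AmbAAux.nsq_ne_zero hz1
  have hn0 : Φ z ≠ 0 := h.ne hz0
  have hn : 0 < nsq (Φ z) := Pool.Agent.P28b04d.nsq_pos hn0
  set ρ : ℝ := Real.sqrt (nsq (Φ z)) with hρ
  have hρ0 : 0 < ρ := Real.sqrt_pos.2 hn
  have hρ2 : ρ ^ 2 = nsq (Φ z) := Real.sq_sqrt hn.le
  set c : ℂ := ((ρ⁻¹ : ℝ) : ℂ) with hc
  have hcn : Complex.normSq c = (nsq (Φ z))⁻¹ := by
    rw [hc, Complex.normSq_ofReal, ← hρ2]
    field_simp
  have hy1 : nsq (c • Φ z) = 1 := by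
    rw [Pool.Agent.P28b04d.nsq_smul, hcn, inv_mul_cancel₀ hn.ne']
  obtain ⟨p, q, hpq⟩ := exists_ON3 hy1
  have hsc : star c = c := by rw [hc]; exact Complex.conj_ofReal _
  have hyz : ∀ a : W, hp (Φ z) a = 0 → hp (c • Φ z) a = 0 := by
    intro a ha
    rw [CmpFAux.hp_smul_left, ha, mul_zero]
  set ξ : Fin 4 → W := fun i => hd Φ z (fr u v i) with hξ
  have hξ0 : ∀ i, hp (c • Φ z) (ξ i) = 0 := fun i => hyz _ (hp_hd h hz0 _)
  set L : Fin 4 → Fin 4 → ℝ := fun i =>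
    ![(hp p (ξ i)).re / ρ, (hp p (ξ i)).im / ρ, (hp q (ξ i)).re / ρ, (hp q (ξ i)).im / ρ] with hL
  have hL0 : ∀ i, L i 0 = (hp p (ξ i)).re / ρ := fun i => rfl
  have hL1 : ∀ i, L i 1 = (hp p (ξ i)).im / ρ := fun i => rfl
  have hL2 : ∀ i, L i 2 = (hp q (ξ i)).re / ρ := fun i => rfl
  have hL3 : ∀ i, L i 3 = (hp q (ξ i)).im / ρ := fun i => rfl
  have key : ∀ r : Fin 4 → ℝ,
      nsq (hd Φ z (∑ i, r i • fr u v i)) = nsq (Φ z) * ∑ a, (∑ i, r i * L i a) ^ 2 := by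
    intro r
    rw [hd_comb]
    have h0 : hp (c • Φ z) (∑ i, r i • hd Φ z (fr u v i)) = 0 := by
      rw [hp_sum_right]
      refine Finset.sum_eq_zero fun i _ => ?_
      rw [hp_rsmul_right]
      have := hξ0 i
      rw [hξ] at this
      rw [this, mul_zero]
    rw [nsq_pars hpq _ h0, ← hρ2]
    have e : ∀ (x : W), (hp x (∑ i, r i • hd Φ z (fr u v i))).re = ∑ i, r i * (hp x (ξ i)).re ∧
        (hp x (∑ i, r i • hd Φ z (fr u v i))).im = ∑ i, r i * (hp x (ξ i)).im := by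
      intro x
      rw [hp_sum_right, Complex.re_sum, Complex.im_sum]
      constructor
      · refine Finset.sum_congr rfl fun i _ => ?_
        rw [hp_rsmul_right, Complex.re_ofReal_mul]
      · refine Finset.sum_congr rfl fun i _ => ?_
        rw [hp_rsmul_right, Complex.im_ofReal_mul]
    rw [(e p).1, (e p).2, (e q).1, (e q).2]
    simp only [Fin.sum_univ_four, hL0, hL1, hL2, hL3]
    field_simp
    ring
  refine ⟨L, ?_, ?_, key, ?_, ?_⟩
  · intro ε hQ x y hxy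
    have h1 := hQ z (∑ i, x i • fr u v i) (∑ i, y i • fr u v i) hz1 (by
      rw [hp_sum_right]
      refine Finset.sum_eq_zero fun i _ => ?_
      rw [hp_rsmul_right, hp_fr_zero hz, mul_zero]) (by
      rw [hp_sum_right]
      refine Finset.sum_eq_zero fun i _ => ?_
      rw [hp_rsmul_right, hp_fr_zero hz, mul_zero]) (by rw [nsq_comb hz, nsq_comb hz]; exact hxy)
    rw [key, key] at h1
    have h2 : nsq (Φ z) * ∑ a, (∑ i, x i * L i a) ^ 2 ≤
        nsq (Φ z) * ((1 + ε) * ∑ a, (∑ i, y i * L i a) ^ 2) := by linarith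
    exact le_of_mul_le_mul_left h2 hn
  · funext i j
    have h1 : cmp (dd (pl Φ) z) u v i j = 2 * (hp (ξ i) (ξ j)).im / nsq (Φ z) := dd_pl h hz0 _ _
    rw [h1, hp_pars hpq (ξ i) (ξ j), hξ0 i, hξ0 j, ← hρ2]
    unfold omg
    rw [hL0, hL1, hL2, hL3, hL0, hL1, hL2, hL3]
    simp only [Complex.add_im, Complex.mul_im, Complex.star_def, Complex.conj_re, Complex.conj_im,
      Complex.zero_re, Complex.zero_im]
    field_simp
    ring
  · intro J i
    have e0 : hp (c • Φ z) (∑ j, J j i • hd Φ z (fr u v j) - Complex.I • hd Φ z (fr u v i)) = 0 := by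
      rw [hp_sub_right, hp_sum_right, hp_smul_right]
      have h1 : ∀ j, hp (c • Φ z) (J j i • hd Φ z (fr u v j)) = 0 := by
        intro j
        rw [hp_rsmul_right]
        have := hξ0 j
        rw [hξ] at this
        rw [this, mul_zero]
      have h2 : hp (c • Φ z) (hd Φ z (fr u v i)) = 0 := hξ0 i
      rw [Finset.sum_eq_zero fun j _ => h1 j, h2, mul_zero, sub_zero]
    rw [nsq_pars hpq _ e0, ← hρ2]
    have e : ∀ (x : W), (hp x (∑ j, J j i • hd Φ z (fr u v j) - Complex.I • hd Φ z (fr u v i))).re =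
        ∑ j, J j i * (hp x (ξ j)).re + (hp x (ξ i)).im ∧
        (hp x (∑ j, J j i • hd Φ z (fr u v j) - Complex.I • hd Φ z (fr u v i))).im =
        ∑ j, J j i * (hp x (ξ j)).im - (hp x (ξ i)).re := by
      intro x
      rw [hp_sub_right, hp_sum_right, hp_smul_right, Complex.sub_re, Complex.sub_im, Complex.re_sum,
        Complex.im_sum, Complex.mul_re, Complex.mul_im, Complex.I_re, Complex.I_im]
      constructor
      · have h1 : ∀ j, (hp x (J j i • hd Φ z (fr u v j))).re = J j i * (hp x (ξ j)).re := by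
          intro j
          rw [hp_rsmul_right, Complex.re_ofReal_mul]
        rw [Finset.sum_congr rfl fun j _ => h1 j]
        show _ = _ + (hp x (hd Φ z (fr u v i))).im
        ring
      · have h1 : ∀ j, (hp x (J j i • hd Φ z (fr u v j))).im = J j i * (hp x (ξ j)).im := by
          intro j
          rw [hp_rsmul_right, Complex.im_ofReal_mul]
        rw [Finset.sum_congr rfl fun j _ => h1 j]
        show _ = _ - (hp x (hd Φ z (fr u v i))).re
        ring
    rw [(e p).1, (e p).2, (e q).1, (e q).2]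
    have d0 : dJ J L i 0 = ∑ j, J j i * L j 0 + L i 1 := by
      unfold dJ J0
      simp
    have d1 : dJ J L i 1 = ∑ j, J j i * L j 1 - L i 0 := by
      unfold dJ J0
      simp
    have d2 : dJ J L i 2 = ∑ j, J j i * L j 2 + L i 3 := by
      unfold dJ J0
      simp
    have d3 : dJ J L i 3 = ∑ j, J j i * L j 3 - L i 2 := by
      unfold dJ J0
      simp
    rw [Fin.sum_univ_four (f := fun a => dJ J L i a ^ 2), d0, d1, d2, d3]
    simp only [Fin.sum_univ_four, hL0, hL1, hL2, hL3]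
    field_simp
    ring
  · have h1 : (0 : ℝ) ≤ nrm2 L := Finset.sum_nonneg fun i _ => Finset.sum_nonneg fun j _ => sq_nonneg _
    rcases h1.lt_or_eq with h2 | h2
    · exact h2
    · exfalso
      have h3 : ∀ j, L 0 j = 0 := by
        intro j
        have a1 := (Finset.sum_eq_zero_iff_of_nonneg (fun i _ =>
          Finset.sum_nonneg fun j _ => sq_nonneg (L i j))).1 h2.symm 0 (Finset.mem_univ _)
        have a2 := (Finset.sum_eq_zero_iff_of_nonneg (fun j _ => sq_nonneg (L 0 j))).1 a1 j (Finset.mem_univ _)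
        exact pow_eq_zero_iff (two_ne_zero) |>.1 a2
      have h4 := key (fun i => if i = 0 then 1 else 0)
      have h5 : nsq (hd Φ z u) = 0 := by
        have e1 : (∑ i, (if i = (0 : Fin 4) then (1 : ℝ) else 0) • fr u v i) = u := by
          simp [fr]
        rw [e1] at h4
        rw [h4]
        simp [h3]
      have h6 := hd_inj h hz0 hz.zu (nsq_eq_zero h5)
      have h7 := hz.uu
      rw [h6, hp_zero_right] at h7
      exact zero_ne_one h7

end Pool.Agent.Lib.Qcd
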