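import Pool.Agent.Lib.Qcd.Sgn
import Pool.Agent.Lib.Qcd.Qcl
import Pool.Agent.Lib.Qcd.Alg

set_option autoImplicit false

/-!
# Quasiconformal lifts have pinched curvature

PROOF. `frameL` at `z, u, v`: `T = cmp (dd (pl Φ) z) u v = omg L` with `nc ε L`, `nrm2 L > 0`. `qalg`: `0 < nrm2 L ^ 2 ≤ (1 + Cε) nrm2 T` and `nrm2 T ≤ (1 + C ε) 4 |Pf T|`, so `Pf T ≠ 0`; by `pf_pos` (`pl_conn`) `Pf T > 0`. `Pf_split`, `nrm2_split` (`Psd.Alg`):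
`nrm2 (asd T) = (nrm2 T - 4 Pf T) / 2 ≤ (C ε / 2) (4 Pf T)` and `nrm2 (sd T) = (nrm2 T + 4 Pf T) / 2 ≥ 4 Pf T` (`nrm2 T ≥ 4 Pf T`), so `nrm2 (asd T) ≤ C ε nrm2 (sd T) ≤ κ ^ 2 nrm2 (sd T)`.
-/

open MeasureTheory Set Metric
open scoped ContDiff ENNReal

namespace Pool.Agent.Lib.Qcd

open Pool.Agent.P28b04d Pool.Agent.Lib.Psd

theorem qpin : ∃ C : ℝ, 1 ≤ C ∧ ∀ ε : ℝ, 0 ≤ ε → ε ≤ 1 / C → ∀ Φ : W → W, HLoc (n := 2) Φ → QCL ε Φ →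
    ∀ κ : ℝ, C * ε ≤ κ ^ 2 → Pinched κ (pl Φ) := by
  obtain ⟨C, hC, hq⟩ := qalg
  refine ⟨C, hC, fun ε hε hεC Φ hΦ hQ κ hκ => ?_⟩
  have hCε : 0 ≤ C * ε := mul_nonneg (by linarith) hε
  have key : ∀ z u v : W, ON3 z u v →
      nrm2 (cmp (dd (pl Φ) z) u v) ≤ (1 + C * ε) * (4 * |Pf (cmp (dd (pl Φ) z) u v)|) ∧
        Pf (cmp (dd (pl Φ) z) u v) ≠ 0 := by
    intro z u v hz
    obtain ⟨L, hnc, hom, -, -, hpos⟩ := frameL hΦ hz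
    obtain ⟨h1, h2⟩ := hq ε hε hεC L (hnc ε hQ)
    rw [hom] at h1 h2
    refine ⟨h2, fun h0 => ?_⟩
    rw [h0, abs_zero, mul_zero, mul_zero] at h2
    have h3 : (1 + C * ε) * nrm2 (cmp (dd (pl Φ) z) u v) ≤ 0 :=
      mul_nonpos_of_nonneg_of_nonpos (by linarith) h2
    have h4 : 0 < nrm2 L ^ 2 := by positivity
    linarith
  have hpf := pf_pos (pl_conn hΦ) (fun z u v hz => (key z u v hz).2)
  intro z u v hz
  have h1 := (key z u v hz).1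
  have h2 := hpf z u v hz
  rw [abs_of_pos h2] at h1
  have hs := cmp_skew (pl Φ) z u v
  have h3 := nrm2_split hs
  have h4 := Pf_split hs
  have h5 := nrm2_nonneg (sd (cmp (dd (pl Φ) z) u v))
  have h6 := nrm2_nonneg (asd (cmp (dd (pl Φ) z) u v))
  rw [h3, h4] at h1
  have h7 : 2 * nrm2 (asd (cmp (dd (pl Φ) z) u v)) ≤
      C * ε * (nrm2 (sd (cmp (dd (pl Φ) z) u v)) - nrm2 (asd (cmp (dd (pl Φ) z) u v))) := by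
    linarith
  have h8 : 0 ≤ C * ε * nrm2 (asd (cmp (dd (pl Φ) z) u v)) := mul_nonneg hCε h6
  have h9 : C * ε * nrm2 (sd (cmp (dd (pl Φ) z) u v)) ≤
      κ ^ 2 * nrm2 (sd (cmp (dd (pl Φ) z) u v)) := mul_le_mul_of_nonneg_right hκ h5
  linarith

end Pool.Agent.Lib.Qcd
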