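import Pool.Agent.Lib.Qcd.CtrlG
import Pool.Agent.Lib.Qcd.GDefB
import Pool.Agent.Lib.Qcd.Alg
import Pool.Agent.Lib.Qcd.Pin
import Pool.Agent.Lib.Psd.FlatC

set_option autoImplicit false

/-!
# The deviation of the chart from linearity for the almost complex structure of the curvature

PROOF. Constants: `C_A` for `qalg` and `dJ_le`; `κ₁, κ₂, η_f` small, to be chosen (depending on `κ`). `ctrlG` gives `ρ₀, A`; choose `ρ ≤ ρ₀` and `ε₀` with `A² ρ ^ (7/4) ≤ κ₂`, `(1 + ε₀) (1 + ρ²) (1 + κ₂) ≤ 1 + κ₁`, `ρ` at most the radius `r₀` of `flatc η_f`, and such that `pl Φ` is `Pinched κ₀` for the `κ₀` of `flatc` (`qpin`). For `‖x‖ < r ≤ ρ`: `∑ Gc² ≤ κ₂`, `nc κ₁ (DG x)` (`nc_DG`),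
`|co - omg (DG)| ≤ 4 κ₂ N` entrywise (`co_omg`), `N = nrm2 (DG x)`, and `N ≤ 2 √(nrm2 (omg (DG x)))` (`qalg`). So with `|T| = √(nrm2 T)` (Minkowski): `|co - omg| ≤ 16 κ₂ N ≤ 32 κ₂ |omg|`, `|omg| ≤ 2 |co|`, `N ≤ 4 |co|`, `|co| ≤ 2 |omg| ≤ 4 N` (`nrm2_omg_le`).
`flatc η_f` at the radius `r`: `c_Ω` with `∫_{ball 0 r} (co i j - c_Ω i j)² ≤ η_f² nrm2 c_Ω r⁴`, `nrm2 (asd c_Ω) ≤ η_f² nrm2 c_Ω`. `dJ_le` with `ε = κ₁`, `η = η_f`, `c = c_Ω`: `J`, and `nrm2 (dJ J (DG x)) ≤ C ((κ₁ + η_f) |c_Ω| + |omg - c_Ω|)`, `|omg - c_Ω| ≤ 64 κ₂ |co| + |co - c_Ω| ≤ 64 κ₂ |c_Ω| + (1 + 64 κ₂) |co - c_Ω|`. Integrate over `ball 0 r` (volume `V r⁴`, Cauchy-Schwarz):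
`∫ nrm2 (dJ J (DG x)) ≤ C' (κ₁ + κ₂ + η_f) |c_Ω| r⁴`. Finally `|c_Ω| ≤ C₂ ‖c‖²`: `V r⁴ |c_Ω| ≤ ∫ |co - c_Ω| + ∫ |co| ≤ 4 η_f √V |c_Ω| r⁴ + 4 ∫ N`, and `∫ N = ∑_k ∫ DG_k² ≤ ∑_k (2 ∫ (DG_k - c_k)² + 2 V c_k² r⁴) ≤ 32 (1 + V) ‖c‖² r⁴` (closeness with constant `1`); `4 η_f √V ≤ V / 2`. So each `∫ (dJ i a)² ≤ C₃ (κ₁ + κ₂ + η_f) ‖c‖² r⁴ ≤ κ² ‖c‖² r⁴`.
(All functions are continuous on `closedBall 0 r`: `Gc_smooth`, or replace `DG` by `dm G` with `extG` for a slightly smaller `ρ`.)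
-/

open MeasureTheory Set Metric
open scoped ContDiff ENNReal

namespace Pool.Agent.Lib.Qcd

open Pool.Agent.P28b04d Pool.Agent.Lib.Psd

namespace BndGAux

theorem sqrt_nrm2 (A : Fin 4 → Fin 4 → ℝ) : Real.sqrt (nrm2 A) =
    ‖(WithLp.toLp 2 (fun k : Fin 4 × Fin 4 => A k.1 k.2) : EuclideanSpace ℝ (Fin 4 × Fin 4))‖ := by
  rw [EuclideanSpace.norm_eq]
  congr 1
  rw [Fintype.sum_prod_type]
  unfold nrm2
  refine Finset.sum_congr rfl fun i _ => Finset.sum_congr rfl fun j _ => ?_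
  simp

theorem tri (A B : Fin 4 → Fin 4 → ℝ) : Real.sqrt (nrm2 (fun i j => A i j + B i j)) ≤
    Real.sqrt (nrm2 A) + Real.sqrt (nrm2 B) := by
  rw [sqrt_nrm2, sqrt_nrm2, sqrt_nrm2]
  exact norm_add_le
    (WithLp.toLp 2 (fun k : Fin 4 × Fin 4 => A k.1 k.2) : EuclideanSpace ℝ (Fin 4 × Fin 4))
    (WithLp.toLp 2 (fun k : Fin 4 × Fin 4 => B k.1 k.2))

theorem tri3 (A B C : Fin 4 → Fin 4 → ℝ) : Real.sqrt (nrm2 (fun i j => A i j - C i j)) ≤
    Real.sqrt (nrm2 (fun i j => A i j - B i j)) + Real.sqrt (nrm2 (fun i j => B i j - C i j)) := by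
  have h := tri (fun i j => A i j - B i j) (fun i j => B i j - C i j)
  have e : (fun i j => (A i j - B i j) + (B i j - C i j)) = fun i j => A i j - C i j := by
    funext i j; ring
  rw [e] at h
  exact h

theorem tri2 (A B : Fin 4 → Fin 4 → ℝ) : Real.sqrt (nrm2 A) ≤
    Real.sqrt (nrm2 (fun i j => A i j - B i j)) + Real.sqrt (nrm2 B) := by
  have h := tri (fun i j => A i j - B i j) B
  have e : (fun i j => (A i j - B i j) + B i j) = A := by
    funext i j; ring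
  rw [e] at h
  exact h

theorem nrm2_symm (A B : Fin 4 → Fin 4 → ℝ) : nrm2 (fun i j => A i j - B i j) =
    nrm2 (fun i j => B i j - A i j) := by
  unfold nrm2
  refine Finset.sum_congr rfl fun i _ => Finset.sum_congr rfl fun j _ => ?_
  ring

/-- the pointwise algebra -/
theorem ptw {L T cΩ : Fin 4 → Fin 4 → ℝ} {s : ℝ} (hs : 0 ≤ s) (hs1 : s ≤ 1 / 21)
    (hN : nrm2 L ^ 2 ≤ 2 * nrm2 (omg L)) (hO : nrm2 (omg L) ≤ 4 * nrm2 L ^ 2)
    (hco : ∀ i j, |T i j - omg L i j| ≤ s / 2 * nrm2 L) :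
    Real.sqrt (nrm2 T) ≤ 3 * nrm2 L ∧
      Real.sqrt (nrm2 (fun i j => omg L i j - cΩ i j)) ≤
        8 * s * Real.sqrt (nrm2 cΩ) + 2 * Real.sqrt (nrm2 (fun i j => T i j - cΩ i j)) := by
  obtain ⟨N, hNe⟩ : ∃ N, N = nrm2 L := ⟨_, rfl⟩
  obtain ⟨a, ha⟩ : ∃ a, a = Real.sqrt (nrm2 (omg L)) := ⟨_, rfl⟩
  obtain ⟨e, he⟩ : ∃ e, e = Real.sqrt (nrm2 (fun i j => T i j - omg L i j)) := ⟨_, rfl⟩
  obtain ⟨d, hd⟩ : ∃ d, d = Real.sqrt (nrm2 (fun i j => T i j - cΩ i j)) := ⟨_, rfl⟩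
  have hN0 : 0 ≤ N := by rw [hNe]; exact nrm2_nonneg _
  have ha0 : 0 ≤ a := by rw [ha]; exact Real.sqrt_nonneg _
  have he0 : 0 ≤ e := by rw [he]; exact Real.sqrt_nonneg _
  have hd0 : 0 ≤ d := by rw [hd]; exact Real.sqrt_nonneg _
  have hasq : a ^ 2 = nrm2 (omg L) := by rw [ha]; exact Real.sq_sqrt (nrm2_nonneg _)
  have hNa : N ≤ 2 * a := by
    apply le_of_sq_le_sq _ (by positivity)
    rw [hNe, mul_pow, hasq]
    have := nrm2_nonneg (omg L)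
    linarith
  have haN : a ≤ 2 * N := by
    apply le_of_sq_le_sq _ (by positivity)
    rw [hasq, hNe, mul_pow]
    linarith
  have heN : e ≤ 2 * s * N := by
    rw [he]
    apply Real.sqrt_le_iff.2
    refine ⟨by positivity, ?_⟩
    have h1 : ∀ i j, (T i j - omg L i j) ^ 2 ≤ (s / 2 * N) ^ 2 := by
      intro i j
      rw [← sq_abs, hNe]
      exact pow_le_pow_left₀ (abs_nonneg _) (hco i j) 2
    calc nrm2 (fun i j => T i j - omg L i j) ≤ ∑ _i : Fin 4, ∑ _j : Fin 4, (s / 2 * N) ^ 2 := by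
          unfold nrm2
          exact Finset.sum_le_sum fun i _ => Finset.sum_le_sum fun j _ => h1 i j
      _ = (2 * s * N) ^ 2 := by simp; ring
  have hT1 : Real.sqrt (nrm2 T) ≤ e + a := by
    rw [he, ha]
    exact tri2 T (omg L)
  have hT0 : 0 ≤ Real.sqrt (nrm2 T) := Real.sqrt_nonneg _
  have hsN : s * N ≤ 1 / 21 * N := mul_le_mul_of_nonneg_right hs1 hN0
  refine ⟨?_, ?_⟩
  · rw [← hNe]
    linarith
  · have hT2 : a ≤ e + Real.sqrt (nrm2 T) := by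
      have := tri2 (omg L) T
      rw [nrm2_symm (omg L) T] at this
      rw [he, ha]
      exact this
    have hsN2 : s * N ≤ s * (2 * a) := mul_le_mul_of_nonneg_left hNa hs
    have hsa : s * a ≤ 1 / 21 * a := mul_le_mul_of_nonneg_right hs1 ha0
    have haT : a ≤ 2 * Real.sqrt (nrm2 T) := by linarith
    have heT : e ≤ 8 * s * Real.sqrt (nrm2 T) := by
      have h1 : s * a ≤ s * (2 * Real.sqrt (nrm2 T)) := mul_le_mul_of_nonneg_left haT hs
      linarith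
    have hTc : Real.sqrt (nrm2 T) ≤ d + Real.sqrt (nrm2 cΩ) := by
      rw [hd]
      exact tri2 T cΩ
    have h2 : Real.sqrt (nrm2 (fun i j => omg L i j - cΩ i j)) ≤ e + d := by
      have := tri3 (omg L) T cΩ
      rw [nrm2_symm (omg L) T] at this
      rw [he, hd]
      exact this
    have h3 : 8 * s * Real.sqrt (nrm2 T) ≤ 8 * s * (d + Real.sqrt (nrm2 cΩ)) :=
      mul_le_mul_of_nonneg_left hTc (by positivity)
    have h4 : s * d ≤ 1 / 21 * d := mul_le_mul_of_nonneg_right hs1 hd0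
    rw [← hd]
    nlinarith

theorem volr' {r : ℝ} (hr : 0 < r) : volume.real (ball (0 : E) r) ≤ 5 * r ^ 4 := by
  have h1 : volume (ball (0 : E) r) = ENNReal.ofReal (r ^ 4 * (Real.pi ^ 2 / 2)) := by
    rw [EuclideanSpace.volume_ball, Fintype.card_fin]
    have h2 : ((4 : ℕ) : ℝ) / 2 + 1 = ((2 : ℕ) : ℝ) + 1 := by norm_num
    have h3 : √Real.pi ^ 4 = Real.pi ^ 2 := by
      have : √Real.pi ^ 4 = (√Real.pi ^ 2) ^ 2 := by ring
      rw [this, Real.sq_sqrt Real.pi_pos.le]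
    rw [h2, Real.Gamma_nat_eq_factorial, h3, ← ENNReal.ofReal_pow hr.le,
      ← ENNReal.ofReal_mul (by positivity)]
    norm_num [Nat.factorial]
  rw [Measure.real, h1, ENNReal.toReal_ofReal (by positivity)]
  have h4 : Real.pi < 3.15 := Real.pi_lt_d2
  have h4' : 0 < Real.pi := Real.pi_pos
  have h5 : Real.pi ^ 2 / 2 ≤ 5 := by nlinarith
  have h6 : 0 ≤ r ^ 4 := by positivity
  nlinarith

theorem nrm2_cont {T : Fin 4 → Fin 4 → E → ℝ} (hT : ∀ i j, Continuous (T i j)) :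
    Continuous fun x => nrm2 (fun i j => T i j x) := by
  unfold nrm2
  exact continuous_finsetSum _ fun i _ => continuous_finsetSum _ fun j _ => (hT i j).pow 2

theorem dJ_cont (J : Fin 4 → Fin 4 → ℝ) {L : Fin 4 → Fin 4 → E → ℝ}
    (hL : ∀ i j, Continuous (L i j)) (i a : Fin 4) :
    Continuous fun x => dJ J (fun i j => L i j x) i a := by
  unfold dJ
  refine (continuous_finsetSum _ fun j _ => continuous_const.mul (hL j a)).sub ?_
  unfold J0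
  fin_cases a
  · exact (hL i 1).neg
  · exact hL i 0
  · exact (hL i 3).neg
  · exact hL i 2

theorem QCL.mono {ε ε' : ℝ} {Φ : W → W} (h : QCL ε Φ) (hε : ε ≤ ε') : QCL ε' Φ := by
  intro z v w hz hv hw hvw
  refine (h z v w hz hv hw hvw).trans (mul_le_mul_of_nonneg_right (by linarith) ?_)
  unfold nsq
  exact Finset.sum_nonneg fun _ _ => Complex.normSq_nonneg _

/-- the integrated estimate -/
theorem core {r : ℝ} (hr : 0 < r) {L T : Fin 4 → Fin 4 → E → ℝ}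
    (hL : ∀ i j, Continuous (L i j)) (hT : ∀ i j, Continuous (T i j))
    {s C₂ κ : ℝ} (hs : 0 < s) (hs1 : s ≤ 1 / 21) (hC₂ : 1 ≤ C₂) (hκ : 100000 * C₂ * s ≤ κ ^ 2)
    {cΩ J : Fin 4 → Fin 4 → ℝ} (hcΩ : 0 < nrm2 cΩ)
    (hclose : ∀ i j, ∫ x in ball (0 : E) r, (T i j x - cΩ i j) ^ 2 ≤ s ^ 2 * nrm2 cΩ * r ^ 4)
    (hN : ∀ x : E, ‖x‖ < r → nrm2 (fun i j => L i j x) ^ 2 ≤ 2 * nrm2 (omg fun i j => L i j x))
    (hO : ∀ x : E, ‖x‖ < r → nrm2 (omg fun i j => L i j x) ≤ 4 * nrm2 (fun i j => L i j x) ^ 2)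
    (hco : ∀ x : E, ‖x‖ < r → ∀ i j, |T i j x - omg (fun i j => L i j x) i j| ≤
      s / 2 * nrm2 (fun i j => L i j x))
    (hJ : ∀ x : E, ‖x‖ < r → nrm2 (dJ J fun i j => L i j x) ≤ C₂ * ((s + s) * Real.sqrt (nrm2 cΩ) +
      Real.sqrt (nrm2 (fun i j => omg (fun i j => L i j x) i j - cΩ i j))))
    {c : Fin 4 × Fin 4 → ℝ}
    (hc : ∀ k : Fin 4 × Fin 4, ∫ x in ball (0 : E) r, (L k.1 k.2 x - c k) ^ 2 ≤
      (1 * ‖c‖) ^ 2 * r ^ 4) (i a : Fin 4) :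
    ∫ x in ball (0 : E) r, (dJ J (fun i j => L i j x) i a) ^ 2 ≤ (κ * ‖c‖) ^ 2 * r ^ 4 := by
  obtain ⟨m, hm⟩ : ∃ m, m = Real.sqrt (nrm2 cΩ) := ⟨_, rfl⟩
  have hm0 : 0 < m := by rw [hm]; exact Real.sqrt_pos.2 hcΩ
  have hmsq : nrm2 cΩ = m ^ 2 := by rw [hm]; exact (Real.sq_sqrt hcΩ.le).symm
  set V := volume.real (ball (0 : E) r) with hV
  have hV1 : r ^ 4 ≤ V := Psd.FlatCAux.volr hr
  have hV2 : V ≤ 5 * r ^ 4 := volr' hr
  have hr4 : 0 < r ^ 4 := by positivity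
  have hconst : ∀ b : ℝ, ∫ _x in ball (0 : E) r, b = V * b := by
    intro b
    rw [setIntegral_const, smul_eq_mul]
  -- the function `|T - cΩ|`
  have cD2 : Continuous fun x => nrm2 (fun i j => T i j x - cΩ i j) := by
    have h := nrm2_cont (T := fun i j x => T i j x - cΩ i j)
      (fun i j => (hT i j).sub continuous_const)
    exact h
  have cD : Continuous fun x => Real.sqrt (nrm2 (fun i j => T i j x - cΩ i j)) :=
    Real.continuous_sqrt.comp cD2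
  have hD2 : ∫ x in ball (0 : E) r, nrm2 (fun i j => T i j x - cΩ i j) ≤
      16 * (s ^ 2 * m ^ 2 * r ^ 4) := by
    unfold nrm2
    have cX : ∀ i j, Continuous fun x => (T i j x - cΩ i j) ^ 2 := fun i j =>
      ((hT i j).sub continuous_const).pow 2
    rw [integral_finsetSum _ fun i _ =>
      (Psd.FlatCAux.intb (continuous_finsetSum _ fun j _ => cX i j) r)]
    calc ∑ i, ∫ x in ball (0 : E) r, ∑ j, (T i j x - cΩ i j) ^ 2
        = ∑ i, ∑ j, ∫ x in ball (0 : E) r, (T i j x - cΩ i j) ^ 2 := by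
          refine Finset.sum_congr rfl fun i _ => ?_
          rw [integral_finsetSum _ fun j _ => Psd.FlatCAux.intb (cX i j) r]
      _ ≤ ∑ _i : Fin 4, ∑ _j : Fin 4, s ^ 2 * m ^ 2 * r ^ 4 := by
          refine Finset.sum_le_sum fun i _ => Finset.sum_le_sum fun j _ => ?_
          rw [← hmsq]
          exact hclose i j
      _ = _ := by simp; ring
  have hD : ∫ x in ball (0 : E) r, Real.sqrt (nrm2 (fun i j => T i j x - cΩ i j)) ≤
      11 * (s * m * r ^ 4) := by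
    have h1 : ∫ x in ball (0 : E) r, Real.sqrt (nrm2 (fun i j => T i j x - cΩ i j)) ≤
        ∫ x in ball (0 : E) r, (1 / (2 * (s * m)) * nrm2 (fun i j => T i j x - cΩ i j) +
          s * m / 2) := by
      refine Psd.FlatCAux.imono cD ((cD2.const_mul _).add continuous_const) fun x _ => ?_
      obtain ⟨D, hDe⟩ : ∃ D, D = Real.sqrt (nrm2 (fun i j => T i j x - cΩ i j)) := ⟨_, rfl⟩
      have h2 : nrm2 (fun i j => T i j x - cΩ i j) = D ^ 2 := by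
        rw [hDe]
        exact (Real.sq_sqrt (nrm2_nonneg _)).symm
      simp only [Pi.add_apply]
      rw [← hDe, h2]
      have hsm : 0 < s * m := by positivity
      have h3 : 1 / (2 * (s * m)) * D ^ 2 + s * m / 2 - D = (D - s * m) ^ 2 / (2 * (s * m)) := by
        field_simp
        ring
      have h4 : 0 ≤ (D - s * m) ^ 2 / (2 * (s * m)) := by positivity
      linarith
    rw [integral_add ((Psd.FlatCAux.intb cD2 r).const_mul _)
      (Psd.FlatCAux.intb continuous_const r), integral_const_mul, hconst] at h1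
    have h5 : 1 / (2 * (s * m)) * ∫ x in ball (0 : E) r, nrm2 (fun i j => T i j x - cΩ i j) ≤
        1 / (2 * (s * m)) * (16 * (s ^ 2 * m ^ 2 * r ^ 4)) :=
      mul_le_mul_of_nonneg_left hD2 (by positivity)
    have h6 : 1 / (2 * (s * m)) * (16 * (s ^ 2 * m ^ 2 * r ^ 4)) = 8 * (s * m * r ^ 4) := by
      field_simp
      ring
    have h7 : V * (s * m / 2) ≤ 5 * r ^ 4 * (s * m / 2) :=
      mul_le_mul_of_nonneg_right hV2 (by positivity)
    have h8 : 0 ≤ s * m * r ^ 4 := by positivity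
    nlinarith
  -- the function `N`
  have cN : Continuous fun x => nrm2 (fun i j => L i j x) := nrm2_cont hL
  have hNint : ∫ x in ball (0 : E) r, nrm2 (fun i j => L i j x) ≤ 192 * (‖c‖ ^ 2 * r ^ 4) := by
    unfold nrm2
    have cX : ∀ i j, Continuous fun x => (L i j x) ^ 2 := fun i j => (hL i j).pow 2
    rw [integral_finsetSum _ fun i _ =>
      (Psd.FlatCAux.intb (continuous_finsetSum _ fun j _ => cX i j) r)]
    calc ∑ i, ∫ x in ball (0 : E) r, ∑ j, (L i j x) ^ 2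
        = ∑ i, ∑ j, ∫ x in ball (0 : E) r, (L i j x) ^ 2 := by
          refine Finset.sum_congr rfl fun i _ => ?_
          rw [integral_finsetSum _ fun j _ => Psd.FlatCAux.intb (cX i j) r]
      _ ≤ ∑ _i : Fin 4, ∑ _j : Fin 4, 12 * (‖c‖ ^ 2 * r ^ 4) := by
          refine Finset.sum_le_sum fun i _ => Finset.sum_le_sum fun j _ => ?_
          have cY : Continuous fun x => (L i j x - c (i, j)) ^ 2 :=
            ((hL i j).sub continuous_const).pow 2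
          have h1 : ∫ x in ball (0 : E) r, (L i j x) ^ 2 ≤
              ∫ x in ball (0 : E) r, (2 * (L i j x - c (i, j)) ^ 2 + 2 * c (i, j) ^ 2) := by
            refine Psd.FlatCAux.imono (cX i j) ((cY.const_mul 2).add continuous_const)
              fun x _ => ?_
            simp only [Pi.add_apply]
            have := sq_nonneg ((L i j x - c (i, j)) - c (i, j))
            nlinarith
          rw [integral_add ((Psd.FlatCAux.intb cY r).const_mul _)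
            (Psd.FlatCAux.intb continuous_const r), integral_const_mul, hconst] at h1
          have h2 := hc (i, j)
          have h3 : c (i, j) ^ 2 ≤ ‖c‖ ^ 2 := by
            rw [← sq_abs]
            exact pow_le_pow_left₀ (abs_nonneg _) (norm_le_pi_norm c (i, j)) 2
          have h4 : V * (2 * c (i, j) ^ 2) ≤ 5 * r ^ 4 * (2 * ‖c‖ ^ 2) :=
            mul_le_mul hV2 (by linarith) (by positivity) (by positivity)
          rw [one_mul] at h2
          linarith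
      _ = _ := by simp; ring
  have hpt := fun x hx => ptw (cΩ := cΩ) hs.le hs1 (hN x hx) (hO x hx) (hco x hx)
  -- bound of `m`
  have hmle : m ≤ 1300 * ‖c‖ ^ 2 := by
    have h1 : ∫ _x in ball (0 : E) r, m ≤ ∫ x in ball (0 : E) r,
        (Real.sqrt (nrm2 (fun i j => T i j x - cΩ i j)) + 3 * nrm2 (fun i j => L i j x)) := by
      refine Psd.FlatCAux.imono continuous_const (cD.add (cN.const_mul 3)) fun x hx => ?_
      simp only [Pi.add_apply]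
      have h2 := (hpt x hx).1
      have h3 := tri2 cΩ (fun i j => T i j x)
      rw [nrm2_symm cΩ (fun i j => T i j x)] at h3
      rw [hm]
      linarith
    rw [hconst, integral_add (Psd.FlatCAux.intb cD r) ((Psd.FlatCAux.intb cN r).const_mul 3),
      integral_const_mul] at h1
    have h2 : r ^ 4 * m ≤ V * m := mul_le_mul_of_nonneg_right hV1 hm0.le
    have h3 : s * (m * r ^ 4) ≤ 1 / 21 * (m * r ^ 4) :=
      mul_le_mul_of_nonneg_right hs1 (by positivity)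
    have h4 : r ^ 4 * m ≤ r ^ 4 * (1300 * ‖c‖ ^ 2) + 0 := by
      have h5 : 0 ≤ r ^ 4 * m := by positivity
      nlinarith
    rw [add_zero] at h4
    exact le_of_mul_le_mul_left h4 hr4
  -- the deviation
  have cF : Continuous fun x => (dJ J (fun i j => L i j x) i a) ^ 2 := (dJ_cont J hL i a).pow 2
  have h1 : ∫ x in ball (0 : E) r, (dJ J (fun i j => L i j x) i a) ^ 2 ≤
      ∫ x in ball (0 : E) r, (C₂ * (10 * s * m) +
        2 * C₂ * Real.sqrt (nrm2 (fun i j => T i j x - cΩ i j))) := by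
    refine Psd.FlatCAux.imono cF (continuous_const.add (cD.const_mul _)) fun x hx => ?_
    simp only [Pi.add_apply]
    have h2 := (hpt x hx).2
    have h3 := hJ x hx
    have h4 : (dJ J (fun i j => L i j x) i a) ^ 2 ≤ nrm2 (dJ J fun i j => L i j x) := by
      unfold nrm2
      calc (dJ J (fun i j => L i j x) i a) ^ 2 ≤ ∑ j, (dJ J (fun i j => L i j x) i j) ^ 2 :=
            Finset.single_le_sum (f := fun j => (dJ J (fun i j => L i j x) i j) ^ 2)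
              (fun _ _ => sq_nonneg _) (Finset.mem_univ a)
        _ ≤ _ := Finset.single_le_sum
              (f := fun i => ∑ j, (dJ J (fun i j => L i j x) i j) ^ 2)
              (fun _ _ => Finset.sum_nonneg fun _ _ => sq_nonneg _) (Finset.mem_univ i)
    rw [← hm] at h2 h3
    have h5 : C₂ * ((s + s) * m +
        Real.sqrt (nrm2 (fun i' j => omg (fun i j => L i j x) i' j - cΩ i' j))) ≤
        C₂ * ((s + s) * m + (8 * s * m +
          2 * Real.sqrt (nrm2 (fun i j => T i j x - cΩ i j)))) :=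
      mul_le_mul_of_nonneg_left (by linarith) (by linarith)
    linarith
  rw [integral_add (Psd.FlatCAux.intb continuous_const r)
    ((Psd.FlatCAux.intb cD r).const_mul _), hconst, integral_const_mul] at h1
  have h2 : V * (C₂ * (10 * s * m)) ≤ 5 * r ^ 4 * (C₂ * (10 * s * m)) :=
    mul_le_mul_of_nonneg_right hV2 (by positivity)
  have h3 : 2 * C₂ * ∫ x in ball (0 : E) r, Real.sqrt (nrm2 (fun i j => T i j x - cΩ i j)) ≤
      2 * C₂ * (11 * (s * m * r ^ 4)) := mul_le_mul_of_nonneg_left hD (by linarith)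
  have h4 : C₂ * s * m * (72 * r ^ 4) ≤ C₂ * s * (1300 * ‖c‖ ^ 2) * (72 * r ^ 4) := by
    refine mul_le_mul_of_nonneg_right (mul_le_mul_of_nonneg_left hmle (by positivity))
      (by positivity)
  have h5 : 100000 * C₂ * s * (‖c‖ ^ 2 * r ^ 4) ≤ κ ^ 2 * (‖c‖ ^ 2 * r ^ 4) :=
    mul_le_mul_of_nonneg_right hκ (by positivity)
  have h6 : 0 ≤ C₂ * s * ‖c‖ ^ 2 * r ^ 4 := by positivity
  calc _ ≤ V * (C₂ * (10 * s * m)) + 2 * C₂ *
        ∫ x in ball (0 : E) r, Real.sqrt (nrm2 (fun i j => T i j x - cΩ i j)) := h1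
    _ ≤ 5 * r ^ 4 * (C₂ * (10 * s * m)) + 2 * C₂ * (11 * (s * m * r ^ 4)) := add_le_add h2 h3
    _ = C₂ * s * m * (72 * r ^ 4) := by ring
    _ ≤ C₂ * s * (1300 * ‖c‖ ^ 2) * (72 * r ^ 4) := h4
    _ ≤ κ ^ 2 * (‖c‖ ^ 2 * r ^ 4) := by nlinarith
    _ = _ := by ring

theorem params {C₁ C₂ κ : ℝ} (hC₁ : 1 ≤ C₁) (hC₂ : 1 ≤ C₂) (hκ : 0 < κ) : ∃ s : ℝ, 0 < s ∧
    s ≤ 1 / 21 ∧ s ≤ 1 / C₁ ∧ s ≤ 1 / C₂ ∧ 100000 * C₂ * s ≤ κ ^ 2 := by
  refine ⟨min (1 / 21) (min (1 / C₁) (min (1 / C₂) (κ ^ 2 / (100000 * C₂)))), by positivity,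
    min_le_left _ _, (min_le_right _ _).trans (min_le_left _ _),
    (min_le_right _ _).trans ((min_le_right _ _).trans (min_le_left _ _)), ?_⟩
  have h := (min_le_right (1 / 21) (min (1 / C₁) (min (1 / C₂) (κ ^ 2 / (100000 * C₂))))).trans
    ((min_le_right _ _).trans (min_le_right _ _))
  calc _ ≤ 100000 * C₂ * (κ ^ 2 / (100000 * C₂)) := mul_le_mul_of_nonneg_left h (by positivity)
    _ = κ ^ 2 := by field_simp

theorem radius {ρ₀ r₀ s A : ℝ} (hρ₀ : 0 < ρ₀) (hr₀ : 0 < r₀) (hs : 0 < s) (hs1 : s ≤ 1 / 21)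
    (hA : 1 ≤ A) : ∃ ρ : ℝ, 0 < ρ ∧ ρ ≤ ρ₀ / 2 ∧ ρ ≤ r₀ ∧ ρ ^ 2 ≤ s / 8 ∧
      (A * ρ ^ (7 / 8 : ℝ)) ^ 2 ≤ s / 8 := by
  have hA0 : 0 < A := by linarith
  have hsA : 0 < s / (8 * A) := by positivity
  obtain ⟨ρ, hρ⟩ : ∃ ρ, ρ = min (ρ₀ / 2) (min r₀ (min (s / 8) ((s / (8 * A)) ^ (8 / 7 : ℝ)))) :=
    ⟨_, rfl⟩
  have hpos : 0 < ρ := by
    rw [hρ]
    have : 0 < (s / (8 * A)) ^ (8 / 7 : ℝ) := Real.rpow_pos_of_pos hsA _
    positivity
  have h1 : ρ ≤ ρ₀ / 2 := by rw [hρ]; exact min_le_left _ _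
  have h2 : ρ ≤ r₀ := by rw [hρ]; exact (min_le_right _ _).trans (min_le_left _ _)
  have h3 : ρ ≤ s / 8 := by
    rw [hρ]
    exact (min_le_right _ _).trans ((min_le_right _ _).trans (min_le_left _ _))
  have h4 : ρ ≤ (s / (8 * A)) ^ (8 / 7 : ℝ) := by
    rw [hρ]
    exact (min_le_right _ _).trans ((min_le_right _ _).trans (min_le_right _ _))
  refine ⟨ρ, hpos, h1, h2, ?_, ?_⟩
  · nlinarith
  · have h5 : ρ ^ (7 / 8 : ℝ) ≤ s / (8 * A) := by
      calc ρ ^ (7 / 8 : ℝ) ≤ ((s / (8 * A)) ^ (8 / 7 : ℝ)) ^ (7 / 8 : ℝ) :=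
            Real.rpow_le_rpow hpos.le h4 (by norm_num)
        _ = s / (8 * A) := by
            rw [← Real.rpow_mul hsA.le]
            norm_num
    have h6 : A * ρ ^ (7 / 8 : ℝ) ≤ s / 8 := by
      calc A * ρ ^ (7 / 8 : ℝ) ≤ A * (s / (8 * A)) := mul_le_mul_of_nonneg_left h5 hA0.le
        _ = s / 8 := by field_simp
    have h7 : 0 ≤ A * ρ ^ (7 / 8 : ℝ) := mul_nonneg hA0.le (Real.rpow_nonneg hpos.le _)
    nlinarith

end BndGAux

open BndGAux in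
theorem bndG (κ : ℝ) (hκ : 0 < κ) : ∃ ρ ε₀ : ℝ, 0 < ρ ∧ 0 < ε₀ ∧ ∀ Φ : W → W, NL Φ → QCL ε₀ Φ →
    (∀ z v : W, nsq z = 1 → |pl Φ z v - a0 z v| ≤ ‖v‖) → ∀ z u v p q : W, ON3 z u v → ON3 (Φ z) p q →
      ∀ r : ℝ, 0 < r → r ≤ ρ → ∀ c : Fin 4 × Fin 4 → ℝ, c ≠ 0 →
        (∀ k : Fin 4 × Fin 4, ∫ x in ball (0 : E) r, (DG Φ z u v p q x k.1 k.2 - c k) ^ 2 ≤
          (1 * ‖c‖) ^ 2 * r ^ 4) →
        ∃ J : Fin 4 → Fin 4 → ℝ, (∀ i j, J i j = -J j i) ∧ ∀ i a,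
          ∫ x in ball (0 : E) r, (dJ J (DG Φ z u v p q x) i a) ^ 2 ≤ (κ * ‖c‖) ^ 2 * r ^ 4 := by
  obtain ⟨C₁, hC₁, hq⟩ := qalg
  obtain ⟨C₂, hC₂, hdJ⟩ := dJ_le
  obtain ⟨C₃, hC₃, hpin⟩ := qpin
  obtain ⟨ρ₀, ε₁, A, hρ₀, hρ₀1, hε₁, hA, hAρ, hctrl⟩ := ctrlG
  obtain ⟨s, hs, hs1, hsC₁, hsC₂, hsκ⟩ := params hC₁ hC₂ hκ
  obtain ⟨r₀, κ₀, hr₀, hr₀1, hκ₀, hκ₀1, hflat⟩ := flatc s hs
  obtain ⟨ρ, hρ, hρρ₀, hρr₀, hρs, hρA⟩ := radius hρ₀ hr₀ hs hs1 hA
  have hC₃0 : 0 < C₃ := by linarith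
  obtain ⟨ε₀, hε₀, hε₀1, hε₀s, hε₀C⟩ : ∃ ε₀ : ℝ, 0 < ε₀ ∧ ε₀ ≤ ε₁ ∧ ε₀ ≤ s / 8 ∧
      C₃ * ε₀ ≤ κ₀ ^ 2 := by
    refine ⟨min ε₁ (min (s / 8) (κ₀ ^ 2 / C₃)), by positivity, min_le_left _ _,
      (min_le_right _ _).trans (min_le_left _ _), ?_⟩
    have h := (min_le_right ε₁ (min (s / 8) (κ₀ ^ 2 / C₃))).trans (min_le_right _ _)
    calc _ ≤ C₃ * (κ₀ ^ 2 / C₃) := mul_le_mul_of_nonneg_left h hC₃0.le
      _ = κ₀ ^ 2 := by field_simp
  refine ⟨ρ, ε₀, hρ, hε₀, ?_⟩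
  intro Φ hΦ hQ htame z u v p q hon hon' r hr hrρ c hc0 hc
  have hctr := fun x (hx : ‖x‖ ≤ ρ₀) =>
    hctrl Φ hΦ (QCL.mono hQ hε₀1) htame z u v p q hon hon' x hx
  obtain ⟨G, hGs, hG⟩ := extG hΦ.loc hon hρ₀ (p := p) (q := q) (fun x hx => (hctr x hx).2.2)
  have hε₀C₃ : ε₀ ≤ 1 / C₃ := by
    rw [le_div_iff₀ hC₃0]
    nlinarith
  have hpinned : Pinched κ₀ (pl Φ) := hpin ε₀ hε₀.le hε₀C₃ Φ hΦ.loc hQ κ₀ hε₀C
  have hconn := pl_conn hΦ.loc
  obtain ⟨cΩ, hcs, hcp, hca, hcl⟩ := (hflat (pl Φ) hconn hpinned z u v hon).1 r hr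
    (hrρ.trans hρr₀)
  obtain ⟨J, hJs, hJ⟩ := hdJ s s hs.le hsC₂ hs.le (by linarith) cΩ hcs hcp hca
  refine ⟨J, hJs, ?_⟩
  -- the matrices
  have hlt : ∀ x : E, ‖x‖ < r → ‖x‖ < 3 * ρ₀ / 4 := fun x hx => by linarith
  have hdm : ∀ x : E, ‖x‖ < r → (fun i j => pd i (G j) x) = DG Φ z u v p q x := fun x hx =>
    hG x (hlt x hx)
  have hcont : ∀ i j, Continuous (pd i (G j)) := by
    intro i j
    have h1 : ContDiff ℝ ∞ (fderiv ℝ (G j)) := (hGs j).fderiv_right (by simp)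
    exact (h1.clm_apply contDiff_const).continuous
  have hcoc : ∀ i j, Continuous (co (ch (pl Φ) z u v) i j) := fun i j =>
    (co_contDiff (ch_smooth hon hconn.smooth) i j).continuous
  -- pointwise facts
  have hGc : ∀ x : E, ‖x‖ < r → ∑ a, Gc Φ z u v p q x a ^ 2 ≤ s / 8 := by
    intro x hx
    have h1 := (hctr x (by linarith)).2.1
    have h2 : ‖x‖ ^ (7 / 8 : ℝ) ≤ ρ ^ (7 / 8 : ℝ) :=
      Real.rpow_le_rpow (norm_nonneg _) (by linarith) (by norm_num)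
    have h3 : Real.sqrt (∑ a, Gc Φ z u v p q x a ^ 2) ≤ A * ρ ^ (7 / 8 : ℝ) :=
      h1.trans (mul_le_mul_of_nonneg_left h2 (by linarith))
    have h4 : Real.sqrt (∑ a, Gc Φ z u v p q x a ^ 2) ^ 2 ≤ (A * ρ ^ (7 / 8 : ℝ)) ^ 2 :=
      pow_le_pow_left₀ (Real.sqrt_nonneg _) h3 2
    rw [Real.sq_sqrt (Finset.sum_nonneg fun _ _ => sq_nonneg _)] at h4
    exact h4.trans hρA
  have hnc : ∀ x : E, ‖x‖ < r → nc s (DG Φ z u v p q x) := by
    intro x hx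
    refine nc_DG hΦ.loc hε₀.le hQ hon hon' (hctr x (by linarith)).2.2 ?_
    have h1 := hGc x hx
    have h2 : ‖x‖ ^ 2 ≤ s / 8 := by
      have : ‖x‖ ^ 2 ≤ ρ ^ 2 := pow_le_pow_left₀ (norm_nonneg _) (by linarith) 2
      linarith
    calc (1 + ε₀) * (1 + ‖x‖ ^ 2) * (1 + ∑ a, Gc Φ z u v p q x a ^ 2)
        ≤ (1 + s / 8) * (1 + s / 8) * (1 + s / 8) := by
          have h3 : 0 ≤ ∑ a, Gc Φ z u v p q x a ^ 2 := Finset.sum_nonneg fun _ _ => sq_nonneg _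
          gcongr
      _ ≤ 1 + s := by nlinarith [mul_pos hs hs, mul_pos (mul_pos hs hs) hs]
  have hfin := fun i a => core (J := J) (c := c) hr hcont hcoc hs hs1 hC₂ hsκ hcp hcl
    (fun x hx => by
      rw [hdm x hx]
      have h1 := (hq s hs.le hsC₁ _ (hnc x hx)).1
      have h2 : C₁ * s ≤ 1 := by
        rw [le_div_iff₀ (by linarith)] at hsC₁
        linarith
      refine h1.trans (mul_le_mul_of_nonneg_right (by linarith) (nrm2_nonneg _)))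
    (fun x hx => nrm2_omg_le _)
    (fun x hx i j => by
      rw [hdm x hx]
      have h1 := co_omg hΦ.loc hon hon' (hctr x (by linarith)).2.2 i j
      refine h1.trans ?_
      have h2 := hGc x hx
      have h3 := nrm2_nonneg (DG Φ z u v p q x)
      exact mul_le_mul_of_nonneg_right (by linarith) h3)
    (fun x hx => by
      rw [hdm x hx]
      exact hJ _ (hnc x hx))
    (fun k => by
      have h1 := hc k
      have h2 : ∫ x in ball (0 : E) r, (pd k.1 (G k.2) x - c k) ^ 2 =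
          ∫ x in ball (0 : E) r, (DG Φ z u v p q x k.1 k.2 - c k) ^ 2 := by
        refine setIntegral_congr_fun measurableSet_ball fun x hx => ?_
        have h3 := congrFun (congrFun (hdm x (by simpa using hx)) k.1) k.2
        beta_reduce at h3
        beta_reduce
        rw [h3]
      rw [h2]
      exact h1) i a
  intro i a
  have h1 := hfin i a
  have h2 : ∫ x in ball (0 : E) r, (dJ J (DG Φ z u v p q x) i a) ^ 2 =
      ∫ x in ball (0 : E) r, (dJ J (fun i j => pd i (G j) x) i a) ^ 2 := by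
    refine setIntegral_congr_fun measurableSet_ball fun x hx => ?_
    beta_reduce
    rw [hdm x (by simpa using hx)]
  rw [h2]
  exact h1

end Pool.Agent.Lib.Qcd
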