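import Pool.Agent.Lib.Qcd.Defs

set_option autoImplicit false

/-!
# A Caccioppoli inequality

PROOF. Let `ζ` be smooth, `0 ≤ ζ ≤ 1`, `ζ = 1` on `closedBall z r`, `ζ = 0` off `ball z (2 r)`, `‖fderiv ℝ ζ‖ ≤ K / r` (a fixed bump function of `(x - z) / r`, e.g. a `ContDiffBump` at `0` with radii `1, 3/2`), and `u = ζ w`, smooth on `W` with compact support (`w` is smooth on `ball z (3 r)`). For a smooth `u : W → W` with compact support, with the real basis
`e_k = Pi.single k 1`, `i e_k`, `∂_a` and the real Hermitian product `⟨a, b⟩ = Re hp a b` (`⟨i a, i b⟩ = ⟨a, b⟩`): `∑_k |∂_{i e_k} u - i ∂_{e_k} u|² = ∑_k (|∂_{e_k} u|² + |∂_{i e_k} u|²) - 2 ∑_k ⟨∂_{i e_k} u, i ∂_{e_k} u⟩` and `∫ ⟨∂_b u, i ∂_a u⟩ = - ∫ ⟨u, i ∂_b ∂_a u⟩ = - ∫ ⟨u, i ∂_a ∂_b u⟩ = ∫ ⟨∂_a u, i ∂_b u⟩ = - ∫ ⟨i ∂_a u, ∂_b u⟩`, so it is `0`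
(integration by parts `integral_mul_fderiv_eq_neg_fderiv_mul_of_integrable` for the components). Hence `∫ ∑_a |∂_a u|² = ∫ ∑_k |bb u e_k|²`, and by the equivalence of norms `∫ ‖fderiv ℝ u‖² ≤ C ∫ ‖bb u‖²`. `bb u x v = ζ x • bb w x v + (fderiv ℝ ζ x (i v)) • w x - (fderiv ℝ ζ x v) • i w x`, so `‖bb u x‖² ≤ 2 ‖bb w x‖² + 8 K² r⁻² ‖w x‖²` on `closedBall z (2 r)`
and `bb u = 0` outside; `fderiv ℝ u = fderiv ℝ w` on `ball z r` and, by continuity, on `closedBall z r` (or note that the sphere is a null set).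
-/

open MeasureTheory Set Metric
open scoped ContDiff ENNReal

namespace Pool.Agent.Lib.Qcd

open Pool.Agent.P28b04d Pool.Agent.Lib.Psd

namespace CaccAux

/-- real part of the `j`-th coordinate -/
noncomputable def Lr (j : Fin 3) : W →L[ℝ] ℝ :=
  Complex.reCLM.comp (ContinuousLinearMap.proj (R := ℝ) (φ := fun _ : Fin 3 => ℂ) j)

/-- imaginary part of the `j`-th coordinate -/
noncomputable def Li (j : Fin 3) : W →L[ℝ] ℝ :=
  Complex.imCLM.comp (ContinuousLinearMap.proj (R := ℝ) (φ := fun _ : Fin 3 => ℂ) j)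

lemma Lr_apply (j : Fin 3) (x : W) : Lr j x = (x j).re := rfl

lemma Li_apply (j : Fin 3) (x : W) : Li j x = (x j).im := rfl

lemma fd_comp {u : W → W} (hu : ContDiff ℝ ∞ u) (L : W →L[ℝ] ℝ) (x v : W) :
    fderiv ℝ (fun y => L (u y)) x v = L (fderiv ℝ u x v) := by
  have h1 : HasFDerivAt u (fderiv ℝ u x) x := (hu.differentiable (by simp) x).hasFDerivAt
  have h2 := L.hasFDerivAt.comp x h1
  have h3 : HasFDerivAt (fun y => L (u y)) (L.comp (fderiv ℝ u x)) x := h2
  rw [h3.fderiv]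
  rfl

lemma cont_fd {f : W → ℝ} (hf : ContDiff ℝ ∞ f) (a : W) : ContDiff ℝ ∞ (fun x => fderiv ℝ f x a) :=
  (hf.fderiv_right (m := ∞) (by simp)).clm_apply contDiff_const

lemma supp_fd {f : W → ℝ} (cf : HasCompactSupport f) (a : W) :
    HasCompactSupport (fun x => fderiv ℝ f x a) := cf.fderiv_apply (𝕜 := ℝ) a

lemma swap {f g : W → ℝ} (hf : ContDiff ℝ ∞ f) (hg : ContDiff ℝ ∞ g) (cf : HasCompactSupport f)
    (cg : HasCompactSupport g) (a b : W) :
    ∫ x, fderiv ℝ f x a * fderiv ℝ g x b = ∫ x, fderiv ℝ f x b * fderiv ℝ g x a := by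
  have key : ∀ a b : W, ∫ x, fderiv ℝ f x a * fderiv ℝ g x b =
      - ∫ x, f x * fderiv ℝ (fun y => fderiv ℝ g y b) x a := by
    intro a b
    have h := integral_mul_fderiv_eq_neg_fderiv_mul_of_integrable (μ := (volume : Measure W))
      (f := f) (g := fun y => fderiv ℝ g y b) (v := a)
      (((cont_fd hf a).continuous.mul (cont_fd hg b).continuous).integrable_of_hasCompactSupport
        ((supp_fd cf a).mul_right))
      ((hf.continuous.mul (cont_fd (cont_fd hg b) a).continuous).integrable_of_hasCompactSupport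
        cf.mul_right)
      ((hf.continuous.mul (cont_fd hg b).continuous).integrable_of_hasCompactSupport cf.mul_right)
      (fun x _ => hf.differentiable (by simp) x)
      (fun x _ => (cont_fd hg b).differentiable (by simp) x)
    rw [h, neg_neg]
  rw [key a b, key b a]
  congr 1
  refine integral_congr_ae (Filter.Eventually.of_forall fun x => ?_)
  have hd : DifferentiableAt ℝ (fderiv ℝ g) x :=
    (hg.fderiv_right (m := ∞) (by simp)).differentiable (by simp) x
  have e : ∀ c d : W, fderiv ℝ (fun y => fderiv ℝ g y d) x c = fderiv ℝ (fderiv ℝ g) x c d := by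
    intro c d
    rw [fderiv_clm_apply hd (differentiableAt_const d)]
    simp
  simp only
  rw [e, e]
  congr 1
  have hs : IsSymmSndFDerivAt ℝ g x := by
    refine hg.contDiffAt.isSymmSndFDerivAt ?_
    simp only [minSmoothness_of_isRCLikeNormedField]
    exact WithTop.coe_le_coe.2 le_top
  exact hs.eq a b

/-- the sum of the squares of the derivatives in two directions -/
noncomputable def sq4 (u : W → W) (k j : Fin 3) (x : W) : ℝ :=
  Complex.normSq (fderiv ℝ u x (Pi.single k 1) j) + Complex.normSq (fderiv ℝ u x (Pi.single k Complex.I) j)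

noncomputable def sb (u : W → W) (k j : Fin 3) (x : W) : ℝ :=
  Complex.normSq (bb u x (Pi.single k 1) j)

lemma bb_apply (u : W → W) (x v : W) : bb u x v = fderiv ℝ u x (Complex.I • v) - Complex.I • fderiv ℝ u x v := rfl

lemma I_single (k : Fin 3) : Complex.I • (Pi.single k 1 : W) = Pi.single k Complex.I := by
  ext l
  by_cases h : l = k
  · subst h
    simp
  · simp [h]

lemma one_pair {u : W → W} (hu : ContDiff ℝ ∞ u) (cu : HasCompactSupport u) (k j : Fin 3) :
    ∫ x, sq4 u k j x = ∫ x, sb u k j x := by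
  set f : W → ℝ := fun x => Lr j (u x) with hf
  set g : W → ℝ := fun x => Li j (u x) with hg
  have cf : ContDiff ℝ ∞ f := (Lr j).contDiff.comp hu
  have cg : ContDiff ℝ ∞ g := (Li j).contDiff.comp hu
  have sf : HasCompactSupport f := cu.comp_left (g := fun y => Lr j y) (map_zero _)
  have sg : HasCompactSupport g := cu.comp_left (g := fun y => Li j y) (map_zero _)
  set a : W := Pi.single k 1 with ha
  set b : W := Pi.single k Complex.I with hb
  have e1 : ∀ x, sb u k j x = sq4 u k j x +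
      2 * (fderiv ℝ f x b * fderiv ℝ g x a - fderiv ℝ f x a * fderiv ℝ g x b) := by
    intro x
    unfold sb sq4
    rw [bb_apply, I_single, hf, hg, fd_comp hu, fd_comp hu, fd_comp hu, fd_comp hu, Lr_apply, Li_apply,
      Lr_apply, Li_apply, ← ha, ← hb]
    rw [Pi.sub_apply, Pi.smul_apply, Complex.normSq_apply, Complex.normSq_apply, Complex.normSq_apply]
    simp only [Complex.sub_re, Complex.sub_im, smul_eq_mul, Complex.mul_re, Complex.mul_im, Complex.I_re,
      Complex.I_im, zero_mul, one_mul, zero_sub, zero_add, sub_neg_eq_add]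
    ring
  have i1 : Integrable (fun x => fderiv ℝ f x b * fderiv ℝ g x a) volume :=
    ((cont_fd cf b).continuous.mul (cont_fd cg a).continuous).integrable_of_hasCompactSupport
      ((supp_fd sf b).mul_right)
  have i2 : Integrable (fun x => fderiv ℝ f x a * fderiv ℝ g x b) volume :=
    ((cont_fd cf a).continuous.mul (cont_fd cg b).continuous).integrable_of_hasCompactSupport
      ((supp_fd sf a).mul_right)
  have i3 : Integrable (fun x => sq4 u k j x) volume := by
    have hc : Continuous (fun x => sq4 u k j x) := by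
      unfold sq4
      have h1 : Continuous (fun x => fderiv ℝ u x) := hu.continuous_fderiv (by simp)
      have h2 : ∀ v : W, Continuous (fun x => fderiv ℝ u x v j) := fun v =>
        (continuous_apply j).comp (h1.clm_apply continuous_const)
      exact (Complex.continuous_normSq.comp (h2 _)).add (Complex.continuous_normSq.comp (h2 _))
    refine hc.integrable_of_hasCompactSupport ?_
    have h3 : HasCompactSupport (fderiv ℝ u) := cu.fderiv (𝕜 := ℝ)
    exact h3.comp_left (g := fun T : W →L[ℝ] W =>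
      Complex.normSq (T (Pi.single k 1) j) + Complex.normSq (T (Pi.single k Complex.I) j)) (by simp)
  have hsw := swap cf cg sf sg b a
  calc ∫ x, sq4 u k j x = (∫ x, sq4 u k j x) +
        ∫ x, 2 * (fderiv ℝ f x b * fderiv ℝ g x a - fderiv ℝ f x a * fderiv ℝ g x b) := by
        have h0 : ∫ x, 2 * (fderiv ℝ f x b * fderiv ℝ g x a - fderiv ℝ f x a * fderiv ℝ g x b) = 0 := by
          rw [integral_const_mul, integral_sub i1 i2, hsw, sub_self, mul_zero]
        rw [h0, add_zero]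
    _ = ∫ x, (sq4 u k j x +
        2 * (fderiv ℝ f x b * fderiv ℝ g x a - fderiv ℝ f x a * fderiv ℝ g x b)) :=
        (integral_add i3 ((i1.sub i2).const_mul 2)).symm
    _ = ∫ x, sb u k j x := by
        refine integral_congr_ae (Filter.Eventually.of_forall fun x => ?_)
        simp only
        rw [e1]

lemma normSq_le_norm (w : W) (j : Fin 3) : Complex.normSq (w j) ≤ ‖w‖ ^ 2 := by
  rw [Complex.normSq_eq_norm_sq]
  exact pow_le_pow_left₀ (norm_nonneg _) (norm_le_pi_norm w j) 2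

lemma norm_sq_le (w : W) : ‖w‖ ^ 2 ≤ ∑ j, Complex.normSq (w j) := by
  obtain ⟨j, hj⟩ : ∃ j, ‖w‖ = ‖w j‖ := by
    obtain ⟨j, _, hj⟩ := Finset.exists_mem_eq_sup' Finset.univ_nonempty (fun j => ‖w j‖₊)
    refine ⟨j, ?_⟩
    have h1 : ‖w‖₊ = Finset.univ.sup' Finset.univ_nonempty (fun j => ‖w j‖₊) := by
      rw [Pi.nnnorm_def, Finset.sup'_eq_sup]
    rw [hj] at h1
    rw [← coe_nnnorm, ← coe_nnnorm, h1]
  rw [hj, ← Complex.normSq_eq_norm_sq]
  exact Finset.single_le_sum (f := fun j => Complex.normSq (w j)) (fun i _ => Complex.normSq_nonneg _)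
    (Finset.mem_univ j)

lemma norm_single (k : Fin 3) (c : ℂ) : ‖(Pi.single k c : W)‖ = ‖c‖ := by
  rw [Pi.norm_single]

lemma decomp (v : W) : v = ∑ k : Fin 3, ((v k).re • (Pi.single k 1 : W) + (v k).im • (Pi.single k Complex.I : W)) := by
  ext l
  rw [Finset.sum_apply]
  simp only [Pi.add_apply, Pi.smul_apply]
  rw [Finset.sum_eq_single l]
  · simp
  · intro k _ hk
    simp [Pi.single_eq_of_ne hk.symm]
  · simp

lemma fd_le (T : W →L[ℝ] W) : ‖T‖ ^ 2 ≤ 6 * ∑ k : Fin 3, ∑ j : Fin 3,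
    (Complex.normSq (T (Pi.single k 1) j) + Complex.normSq (T (Pi.single k Complex.I) j)) := by
  have h1 : ‖T‖ ≤ ∑ k : Fin 3, (‖T (Pi.single k 1)‖ + ‖T (Pi.single k Complex.I)‖) := by
    refine T.opNorm_le_bound (by positivity) fun v => ?_
    have e : T v = ∑ k : Fin 3, ((v k).re • T (Pi.single k 1) + (v k).im • T (Pi.single k Complex.I)) := by
      conv_lhs => rw [decomp v]
      rw [map_sum]
      refine Finset.sum_congr rfl fun k _ => ?_
      rw [map_add, map_smul, map_smul]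
    rw [e, Finset.sum_mul]
    refine (norm_sum_le _ _).trans (Finset.sum_le_sum fun k _ => ?_)
    refine (norm_add_le _ _).trans ?_
    rw [norm_smul, norm_smul, add_mul]
    have h2 : ‖(v k).re‖ ≤ ‖v‖ := (Complex.abs_re_le_norm (v k)).trans (norm_le_pi_norm v k)
    have h3 : ‖(v k).im‖ ≤ ‖v‖ := (Complex.abs_im_le_norm (v k)).trans (norm_le_pi_norm v k)
    rw [mul_comm ‖T (Pi.single k 1)‖, mul_comm ‖T (Pi.single k Complex.I)‖]
    exact add_le_add (mul_le_mul_of_nonneg_right h2 (norm_nonneg _))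
      (mul_le_mul_of_nonneg_right h3 (norm_nonneg _))
  have h2 : ∀ k : Fin 3, ‖T (Pi.single k 1)‖ ^ 2 + ‖T (Pi.single k Complex.I)‖ ^ 2 ≤ ∑ j : Fin 3,
      (Complex.normSq (T (Pi.single k 1) j) + Complex.normSq (T (Pi.single k Complex.I) j)) := by
    intro k
    rw [Finset.sum_add_distrib]
    exact add_le_add (norm_sq_le _) (norm_sq_le _)
  have h3 := Finset.sum_le_sum (s := Finset.univ) fun k _ => h2 k
  simp only [Fin.sum_univ_three] at h1 h3 ⊢
  set a0 := ‖T (Pi.single 0 1)‖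
  set a1 := ‖T (Pi.single 1 1)‖
  set a2 := ‖T (Pi.single 2 1)‖
  set b0 := ‖T (Pi.single 0 Complex.I)‖
  set b1 := ‖T (Pi.single 1 Complex.I)‖
  set b2 := ‖T (Pi.single 2 Complex.I)‖
  have h4 : ‖T‖ ^ 2 ≤ (a0 + b0 + (a1 + b1) + (a2 + b2)) ^ 2 := pow_le_pow_left₀ (norm_nonneg _) h1 2
  nlinarith [sq_nonneg (a0 - b0), sq_nonneg (a0 - a1), sq_nonneg (a0 - b1), sq_nonneg (a0 - a2),
    sq_nonneg (a0 - b2), sq_nonneg (b0 - a1), sq_nonneg (b0 - b1), sq_nonneg (b0 - a2),
    sq_nonneg (b0 - b2), sq_nonneg (a1 - b1), sq_nonneg (a1 - a2), sq_nonneg (a1 - b2),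
    sq_nonneg (b1 - a2), sq_nonneg (b1 - b2), sq_nonneg (a2 - b2)]

lemma sb_le (u : W → W) (x : W) : ∑ k : Fin 3, ∑ j : Fin 3, sb u k j x ≤ 9 * ‖bb u x‖ ^ 2 := by
  have h : ∀ k j : Fin 3, sb u k j x ≤ ‖bb u x‖ ^ 2 := by
    intro k j
    unfold sb
    refine (normSq_le_norm _ j).trans (pow_le_pow_left₀ (norm_nonneg _) ?_ 2)
    refine ((bb u x).le_opNorm _).trans ?_
    rw [norm_single, norm_one, mul_one]
  calc ∑ k : Fin 3, ∑ j : Fin 3, sb u k j x ≤ ∑ _k : Fin 3, ∑ _j : Fin 3, ‖bb u x‖ ^ 2 :=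
        Finset.sum_le_sum fun k _ => Finset.sum_le_sum fun j _ => h k j
    _ = 9 * ‖bb u x‖ ^ 2 := by
        simp only [Finset.sum_const, Finset.card_univ, Fintype.card_fin, nsmul_eq_mul]
        push_cast
        ring

lemma cont_bb {u : W → W} (hu : ContDiff ℝ ∞ u) : Continuous (fun x => bb u x) := by
  unfold bb
  have h1 : Continuous (fun x => fderiv ℝ u x) := hu.continuous_fderiv (by simp)
  exact (h1.clm_comp continuous_const).sub (continuous_const.clm_comp h1)

lemma supp_bb {u : W → W} (cu : HasCompactSupport u) : HasCompactSupport (fun x => bb u x) := by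
  have h3 : HasCompactSupport (fderiv ℝ u) := cu.fderiv (𝕜 := ℝ)
  exact h3.comp_left (g := fun T : W →L[ℝ] W => T.comp mI - mI.comp T) (by simp)

/-- the global inequality -/
lemma glob {u : W → W} (hu : ContDiff ℝ ∞ u) (cu : HasCompactSupport u) :
    ∫⁻ x, ‖fderiv ℝ u x‖ₑ ^ 2 ≤ ENNReal.ofReal 54 * ∫⁻ x, ‖bb u x‖ₑ ^ 2 := by
  have c1 : Continuous (fun x => fderiv ℝ u x) := hu.continuous_fderiv (by simp)
  have s1 : HasCompactSupport (fderiv ℝ u) := cu.fderiv (𝕜 := ℝ)
  have i1 : Integrable (fun x => ‖fderiv ℝ u x‖ ^ 2) volume := by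
    have h1 : Continuous (fun x => ‖fderiv ℝ u x‖ ^ 2) := c1.norm.pow 2
    have h2 : HasCompactSupport (fun x => ‖fderiv ℝ u x‖ ^ 2) :=
      s1.comp_left (g := fun T : W →L[ℝ] W => ‖T‖ ^ 2) (by simp)
    exact h1.integrable_of_hasCompactSupport h2
  have i2 : Integrable (fun x => ‖bb u x‖ ^ 2) volume := by
    have h1 : Continuous (fun x => ‖bb u x‖ ^ 2) := (cont_bb hu).norm.pow 2
    have h2 : HasCompactSupport (fun x => ‖bb u x‖ ^ 2) :=
      (supp_bb cu).comp_left (g := fun T : W →L[ℝ] W => ‖T‖ ^ 2) (by simp)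
    exact h1.integrable_of_hasCompactSupport h2
  have hc : ∀ v : W, ∀ j : Fin 3, Continuous (fun x => fderiv ℝ u x v j) := fun v j =>
    (continuous_apply j).comp (c1.clm_apply continuous_const)
  have i3 : ∀ k j : Fin 3, Integrable (fun x => sq4 u k j x) volume := by
    intro k j
    have hcc : Continuous (fun x => sq4 u k j x) := by
      unfold sq4
      exact (Complex.continuous_normSq.comp (hc _ j)).add (Complex.continuous_normSq.comp (hc _ j))
    refine hcc.integrable_of_hasCompactSupport ?_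
    exact s1.comp_left (g := fun T : W →L[ℝ] W =>
      Complex.normSq (T (Pi.single k 1) j) + Complex.normSq (T (Pi.single k Complex.I) j)) (by simp)
  have i4 : ∀ k j : Fin 3, Integrable (fun x => sb u k j x) volume := by
    intro k j
    have hcc : Continuous (fun x => sb u k j x) := by
      unfold sb
      exact Complex.continuous_normSq.comp ((continuous_apply j).comp
        ((cont_bb hu).clm_apply continuous_const))
    refine hcc.integrable_of_hasCompactSupport ?_
    exact (supp_bb cu).comp_left (g := fun T : W →L[ℝ] W => Complex.normSq (T (Pi.single k 1) j)) (by simp)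
  have hmain : ∫ x, ‖fderiv ℝ u x‖ ^ 2 ≤ 54 * ∫ x, ‖bb u x‖ ^ 2 := by
    calc ∫ x, ‖fderiv ℝ u x‖ ^ 2 ≤ ∫ x, 6 * ∑ k : Fin 3, ∑ j : Fin 3, sq4 u k j x := by
          refine integral_mono i1 ?_ fun x => fd_le (fderiv ℝ u x)
          exact (integrable_finsetSum _ fun k _ => integrable_finsetSum _ fun j _ => i3 k j).const_mul 6
      _ = 6 * ∑ k : Fin 3, ∑ j : Fin 3, ∫ x, sq4 u k j x := by
          rw [integral_const_mul, integral_finsetSum _ fun k _ => integrable_finsetSum _ fun j _ => i3 k j]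
          congr 1
          exact Finset.sum_congr rfl fun k _ => integral_finsetSum _ fun j _ => i3 k j
      _ = 6 * ∑ k : Fin 3, ∑ j : Fin 3, ∫ x, sb u k j x := by
          congr 1
          exact Finset.sum_congr rfl fun k _ => Finset.sum_congr rfl fun j _ => one_pair hu cu k j
      _ = 6 * ∫ x, ∑ k : Fin 3, ∑ j : Fin 3, sb u k j x := by
          rw [integral_finsetSum _ fun k _ => integrable_finsetSum _ fun j _ => i4 k j]
          congr 1
          exact Finset.sum_congr rfl fun k _ => (integral_finsetSum _ fun j _ => i4 k j).symm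
      _ ≤ 6 * ∫ x, 9 * ‖bb u x‖ ^ 2 := by
          refine mul_le_mul_of_nonneg_left ?_ (by norm_num)
          refine integral_mono ?_ (i2.const_mul 9) fun x => sb_le u x
          exact integrable_finsetSum _ fun k _ => integrable_finsetSum _ fun j _ => i4 k j
      _ = 54 * ∫ x, ‖bb u x‖ ^ 2 := by
          rw [integral_const_mul]
          ring
  have e1 : ∫⁻ x, ‖fderiv ℝ u x‖ₑ ^ 2 = ENNReal.ofReal (∫ x, ‖fderiv ℝ u x‖ ^ 2) := by
    rw [ofReal_integral_eq_lintegral_ofReal i1 (Filter.Eventually.of_forall fun x => by positivity)]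
    refine lintegral_congr fun x => ?_
    rw [ENNReal.ofReal_pow (norm_nonneg _), ofReal_norm_eq_enorm]
  have e2 : ∫⁻ x, ‖bb u x‖ₑ ^ 2 = ENNReal.ofReal (∫ x, ‖bb u x‖ ^ 2) := by
    rw [ofReal_integral_eq_lintegral_ofReal i2 (Filter.Eventually.of_forall fun x => by positivity)]
    refine lintegral_congr fun x => ?_
    rw [ENNReal.ofReal_pow (norm_nonneg _), ofReal_norm_eq_enorm]
  rw [e1, e2, ← ENNReal.ofReal_mul (by norm_num)]
  exact ENNReal.ofReal_le_ofReal hmain

/-- the fixed bump -/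
noncomputable def psi : ContDiffBump (0 : W) where
  rIn := 5 / 4
  rOut := 3 / 2
  rIn_pos := by norm_num
  rIn_lt_rOut := by norm_num

lemma psi_bound : ∃ K : ℝ, 0 ≤ K ∧ ∀ x : W, ‖fderiv ℝ (psi : W → ℝ) x‖ ≤ K := by
  have h1 : Continuous (fderiv ℝ (psi : W → ℝ)) := (psi.contDiff (n := ⊤)).continuous_fderiv (by simp)
  have h2 : HasCompactSupport (fderiv ℝ (psi : W → ℝ)) := psi.hasCompactSupport.fderiv (𝕜 := ℝ)
  obtain ⟨K, hK⟩ := h1.bounded_above_of_compact_support h2
  exact ⟨K, (norm_nonneg _).trans (hK 0), hK⟩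

lemma norm_mI_le (v : W) : ‖mI v‖ ≤ ‖v‖ := by
  change ‖Complex.I • v‖ ≤ ‖v‖
  rw [norm_smul, Complex.norm_I, one_mul]

end CaccAux

open CaccAux

theorem cacc : ∃ C : ℝ, 1 ≤ C ∧ ∀ (w : W → W) (z : W) (r : ℝ), 0 < r → ContDiffOn ℝ ∞ w (ball z (3 * r)) →
    ∫⁻ x in closedBall z r, ‖fderiv ℝ w x‖ₑ ^ 2 ≤
      ENNReal.ofReal (C / r ^ 2) * (∫⁻ x in closedBall z (2 * r), ‖w x‖ₑ ^ 2) +
        ENNReal.ofReal C * ∫⁻ x in closedBall z (2 * r), ‖bb w x‖ₑ ^ 2 := by
  obtain ⟨K, hK0, hK⟩ := psi_bound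
  refine ⟨108 * (1 + 4 * K ^ 2), by nlinarith [sq_nonneg K], ?_⟩
  intro w z r hr hw
  set ζ : W → ℝ := fun x => psi (r⁻¹ • (x - z)) with hζ
  have hmap : ContDiff ℝ ∞ (fun x : W => r⁻¹ • (x - z)) := by fun_prop
  have hζs : ContDiff ℝ ∞ ζ := (psi.contDiff (n := ⊤)).comp hmap
  set u : W → W := fun x => ζ x • w x with hu
  have hζ1 : ∀ x, ‖x - z‖ ≤ 5 / 4 * r → ζ x = 1 := by
    intro x hx
    refine psi.one_of_mem_closedBall ?_
    rw [mem_closedBall, dist_zero_right, norm_smul, norm_inv, Real.norm_of_nonneg hr.le,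
      inv_mul_le_iff₀ hr]
    change ‖x - z‖ ≤ r * (5 / 4)
    linarith
  have hζ0 : ∀ x, 3 / 2 * r ≤ ‖x - z‖ → ζ x = 0 := by
    intro x hx
    refine psi.zero_of_le_dist ?_
    rw [dist_zero_right, norm_smul, norm_inv, Real.norm_of_nonneg hr.le, le_inv_mul_iff₀ hr]
    change r * (3 / 2) ≤ ‖x - z‖
    linarith
  -- off the closed ball of radius `3/2 r` the function vanishes nearby
  have hev0 : ∀ x, 3 / 2 * r < ‖x - z‖ → u =ᶠ[nhds x] fun _ => 0 := by
    intro x hx
    have : ∀ᶠ y in nhds x, 3 / 2 * r < ‖y - z‖ := by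
      have hc : Continuous (fun y : W => ‖y - z‖) := by fun_prop
      exact hc.continuousAt.eventually (lt_mem_nhds hx)
    filter_upwards [this] with y hy
    change ζ y • w y = 0
    rw [hζ0 y hy.le, zero_smul]
  have hev1 : ∀ x, ‖x - z‖ < 5 / 4 * r → u =ᶠ[nhds x] w := by
    intro x hx
    have : ∀ᶠ y in nhds x, ‖y - z‖ < 5 / 4 * r := by
      have hc : Continuous (fun y : W => ‖y - z‖) := by fun_prop
      exact hc.continuousAt.eventually (gt_mem_nhds hx)
    filter_upwards [this] with y hy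
    change ζ y • w y = w y
    rw [hζ1 y hy.le, one_smul]
  have hwat : ∀ x, ‖x - z‖ < 3 * r → ContDiffAt ℝ ∞ w x := fun x hx =>
    hw.contDiffAt (isOpen_ball.mem_nhds (by rwa [mem_ball, dist_eq_norm]))
  have hus : ContDiff ℝ ∞ u := by
    rw [contDiff_iff_contDiffAt]
    intro x
    by_cases hx : ‖x - z‖ < 3 * r
    · exact hζs.contDiffAt.smul (hwat x hx)
    · refine contDiffAt_const.congr_of_eventuallyEq (hev0 x ?_)
      push Not at hx
      linarith
  have huc : HasCompactSupport u := by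
    refine HasCompactSupport.of_support_subset_isCompact (isCompact_closedBall z (3 / 2 * r)) ?_
    intro x hx
    rw [Function.mem_support] at hx
    by_contra hcon
    rw [mem_closedBall, dist_eq_norm, not_le] at hcon
    apply hx
    change ζ x • w x = 0
    rw [hζ0 x hcon.le, zero_smul]
  -- the left side
  have hL : ∫⁻ x in closedBall z r, ‖fderiv ℝ w x‖ₑ ^ 2 ≤ ∫⁻ x, ‖fderiv ℝ u x‖ₑ ^ 2 := by
    calc ∫⁻ x in closedBall z r, ‖fderiv ℝ w x‖ₑ ^ 2 = ∫⁻ x in closedBall z r, ‖fderiv ℝ u x‖ₑ ^ 2 := by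
          refine setLIntegral_congr_fun measurableSet_closedBall fun x hx => ?_
          rw [mem_closedBall, dist_eq_norm] at hx
          rw [(hev1 x (by linarith)).fderiv_eq]
      _ ≤ ∫⁻ x, ‖fderiv ℝ u x‖ₑ ^ 2 := setLIntegral_le_lintegral _ _
  -- the derivative of the cut-off
  have hζd : ∀ x v, |fderiv ℝ ζ x v| ≤ K / r * ‖v‖ := by
    intro x v
    have h1 : HasFDerivAt (psi : W → ℝ) (fderiv ℝ (psi : W → ℝ) (r⁻¹ • (x - z))) (r⁻¹ • (x - z)) :=
      ((psi.contDiff (n := ⊤)).differentiable (by simp) _).hasFDerivAt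
    have h2 : HasFDerivAt (fun x : W => r⁻¹ • (x - z)) (r⁻¹ • ContinuousLinearMap.id ℝ W) x :=
      ((hasFDerivAt_id x).sub_const z).const_smul r⁻¹
    have h3 := h1.comp x h2
    have h4 : fderiv ℝ ζ x = (fderiv ℝ (psi : W → ℝ) (r⁻¹ • (x - z))).comp
      (r⁻¹ • ContinuousLinearMap.id ℝ W) := h3.fderiv
    rw [h4, ContinuousLinearMap.comp_apply, ContinuousLinearMap.smul_apply,
      ContinuousLinearMap.id_apply, map_smul, smul_eq_mul, abs_mul, abs_of_pos (inv_pos.2 hr)]
    have h5 := (fderiv ℝ (psi : W → ℝ) (r⁻¹ • (x - z))).le_opNorm v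
    rw [Real.norm_eq_abs] at h5
    have h6 : |fderiv ℝ (psi : W → ℝ) (r⁻¹ • (x - z)) v| ≤ K * ‖v‖ :=
      h5.trans (mul_le_mul_of_nonneg_right (hK _) (norm_nonneg _))
    calc r⁻¹ * |fderiv ℝ (psi : W → ℝ) (r⁻¹ • (x - z)) v| ≤ r⁻¹ * (K * ‖v‖) :=
          mul_le_mul_of_nonneg_left h6 (inv_pos.2 hr).le
      _ = K / r * ‖v‖ := by ring
  have hζle : ∀ x, |ζ x| ≤ 1 := by
    intro x
    rw [abs_of_nonneg psi.nonneg]
    exact psi.le_one
  have hpt : ∀ x, ‖bb u x‖ ^ 2 ≤ (closedBall z (2 * r)).indicator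
      (fun x => 2 * ‖bb w x‖ ^ 2 + 8 * K ^ 2 / r ^ 2 * ‖w x‖ ^ 2) x := by
    intro x
    by_cases hx : ‖x - z‖ ≤ 2 * r
    · have hxm : x ∈ closedBall z (2 * r) := by rwa [mem_closedBall, dist_eq_norm]
      rw [indicator_of_mem hxm]
      have hx3 : ‖x - z‖ < 3 * r := by linarith
      have hdw : HasFDerivAt w (fderiv ℝ w x) x := ((hwat x hx3).differentiableAt (by simp)).hasFDerivAt
      have hdζ : HasFDerivAt ζ (fderiv ℝ ζ x) x := (hζs.differentiable (by simp) x).hasFDerivAt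
      have hdu : fderiv ℝ u x = ζ x • fderiv ℝ w x + (fderiv ℝ ζ x).smulRight (w x) :=
        (hdζ.smul hdw).fderiv
      have hbu : ∀ v, bb u x v = ζ x • bb w x v +
          ((fderiv ℝ ζ x (Complex.I • v)) • w x - (fderiv ℝ ζ x v) • (Complex.I • w x)) := by
        intro v
        rw [bb_apply, bb_apply, hdu]
        simp only [ContinuousLinearMap.add_apply, ContinuousLinearMap.smul_apply,
          ContinuousLinearMap.smulRight_apply, smul_add, smul_sub]
        rw [smul_comm Complex.I (ζ x), smul_comm Complex.I ((fderiv ℝ ζ x) v)]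
        abel
      have hn : ‖bb u x‖ ≤ ‖bb w x‖ + 2 * (K / r) * ‖w x‖ := by
        refine (bb u x).opNorm_le_bound (by positivity) fun v => ?_
        rw [hbu v]
        have hIv : ‖Complex.I • v‖ = ‖v‖ := by rw [norm_smul, Complex.norm_I, one_mul]
        have hIw : ‖Complex.I • w x‖ = ‖w x‖ := by rw [norm_smul, Complex.norm_I, one_mul]
        have a1 : ‖ζ x • bb w x v‖ ≤ ‖bb w x‖ * ‖v‖ := by
          rw [norm_smul, Real.norm_eq_abs]
          calc |ζ x| * ‖bb w x v‖ ≤ 1 * ‖bb w x v‖ := mul_le_mul_of_nonneg_right (hζle x) (norm_nonneg _)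
            _ ≤ ‖bb w x‖ * ‖v‖ := by rw [one_mul]; exact (bb w x).le_opNorm v
        have a2 : ‖(fderiv ℝ ζ x (Complex.I • v)) • w x‖ ≤ K / r * ‖v‖ * ‖w x‖ := by
          rw [norm_smul, Real.norm_eq_abs]
          refine mul_le_mul_of_nonneg_right ?_ (norm_nonneg _)
          have := hζd x (Complex.I • v)
          rwa [hIv] at this
        have a3 : ‖(fderiv ℝ ζ x v) • (Complex.I • w x)‖ ≤ K / r * ‖v‖ * ‖w x‖ := by
          rw [norm_smul, Real.norm_eq_abs, hIw]
          exact mul_le_mul_of_nonneg_right (hζd x v) (norm_nonneg _)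
        calc ‖ζ x • bb w x v + ((fderiv ℝ ζ x (Complex.I • v)) • w x - (fderiv ℝ ζ x v) • (Complex.I • w x))‖
            ≤ ‖ζ x • bb w x v‖ + (‖(fderiv ℝ ζ x (Complex.I • v)) • w x‖ +
              ‖(fderiv ℝ ζ x v) • (Complex.I • w x)‖) :=
              (norm_add_le _ _).trans (add_le_add le_rfl (norm_sub_le _ _))
          _ ≤ ‖bb w x‖ * ‖v‖ + (K / r * ‖v‖ * ‖w x‖ + K / r * ‖v‖ * ‖w x‖) :=
              add_le_add a1 (add_le_add a2 a3)
          _ = _ := by ring
      have hsq : ‖bb u x‖ ^ 2 ≤ (‖bb w x‖ + 2 * (K / r) * ‖w x‖) ^ 2 :=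
        pow_le_pow_left₀ (norm_nonneg _) hn 2
      have e : 8 * K ^ 2 / r ^ 2 * ‖w x‖ ^ 2 = 2 * (2 * (K / r) * ‖w x‖) ^ 2 := by
        rw [mul_pow, mul_pow, div_pow]
        ring
      rw [e]
      nlinarith [sq_nonneg (‖bb w x‖ - 2 * (K / r) * ‖w x‖)]
    · push Not at hx
      have hxm : x ∉ closedBall z (2 * r) := by
        rw [mem_closedBall, dist_eq_norm, not_le]
        exact hx
      rw [indicator_of_notMem hxm]
      have h0 : fderiv ℝ u x = 0 := by
        rw [(hev0 x (by linarith)).fderiv_eq]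
        simp
      have h1 : bb u x = 0 := by
        unfold bb
        rw [h0]
        simp
      rw [h1]
      simp
  have hR : ∫⁻ x, ‖bb u x‖ₑ ^ 2 ≤ 2 * (∫⁻ x in closedBall z (2 * r), ‖bb w x‖ₑ ^ 2) +
      ENNReal.ofReal (8 * K ^ 2 / r ^ 2) * ∫⁻ x in closedBall z (2 * r), ‖w x‖ₑ ^ 2 := by
    have hmw : AEMeasurable (fun x => ‖w x‖ₑ ^ 2) (volume.restrict (closedBall z (2 * r))) := by
      have h1 : ContinuousOn w (closedBall z (2 * r)) :=
        hw.continuousOn.mono (closedBall_subset_ball (by linarith))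
      exact ((h1.aemeasurable measurableSet_closedBall).enorm).pow_const 2
    calc ∫⁻ x, ‖bb u x‖ₑ ^ 2 ≤ ∫⁻ x, (closedBall z (2 * r)).indicator
          (fun x => 2 * ‖bb w x‖ₑ ^ 2 + ENNReal.ofReal (8 * K ^ 2 / r ^ 2) * ‖w x‖ₑ ^ 2) x := by
          refine lintegral_mono fun x => ?_
          have h1 := hpt x
          by_cases hx : x ∈ closedBall z (2 * r)
          · rw [indicator_of_mem hx] at h1 ⊢
            calc ‖bb u x‖ₑ ^ 2 = ENNReal.ofReal (‖bb u x‖ ^ 2) := by
                  rw [ENNReal.ofReal_pow (norm_nonneg _), ofReal_norm_eq_enorm]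
              _ ≤ ENNReal.ofReal (2 * ‖bb w x‖ ^ 2 + 8 * K ^ 2 / r ^ 2 * ‖w x‖ ^ 2) :=
                  ENNReal.ofReal_le_ofReal h1
              _ = _ := by
                  rw [ENNReal.ofReal_add (by positivity) (by positivity), ENNReal.ofReal_mul (by norm_num),
                    ENNReal.ofReal_mul (by positivity), ENNReal.ofReal_pow (norm_nonneg _),
                    ENNReal.ofReal_pow (norm_nonneg _), ofReal_norm_eq_enorm, ofReal_norm_eq_enorm]
                  simp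
          · rw [indicator_of_notMem hx] at h1 ⊢
            have h2 : ‖bb u x‖ = 0 := by
              have := norm_nonneg (bb u x)
              nlinarith
            have h3 : ‖bb u x‖ₑ = 0 := by
              rw [← ofReal_norm_eq_enorm, h2, ENNReal.ofReal_zero]
            rw [h3]
            simp
      _ = ∫⁻ x in closedBall z (2 * r),
          (2 * ‖bb w x‖ₑ ^ 2 + ENNReal.ofReal (8 * K ^ 2 / r ^ 2) * ‖w x‖ₑ ^ 2) :=
          lintegral_indicator measurableSet_closedBall _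
      _ = (∫⁻ x in closedBall z (2 * r), 2 * ‖bb w x‖ₑ ^ 2) +
          ∫⁻ x in closedBall z (2 * r), ENNReal.ofReal (8 * K ^ 2 / r ^ 2) * ‖w x‖ₑ ^ 2 :=
          lintegral_add_right' _ (hmw.const_mul _)
      _ ≤ _ := by
          rw [lintegral_const_mul' _ _ (by simp), lintegral_const_mul' _ _ ENNReal.ofReal_ne_top]
  calc ∫⁻ x in closedBall z r, ‖fderiv ℝ w x‖ₑ ^ 2 ≤ ∫⁻ x, ‖fderiv ℝ u x‖ₑ ^ 2 := hL
    _ ≤ ENNReal.ofReal 54 * ∫⁻ x, ‖bb u x‖ₑ ^ 2 := glob hus huc
    _ ≤ ENNReal.ofReal 54 * (2 * (∫⁻ x in closedBall z (2 * r), ‖bb w x‖ₑ ^ 2) +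
      ENNReal.ofReal (8 * K ^ 2 / r ^ 2) * ∫⁻ x in closedBall z (2 * r), ‖w x‖ₑ ^ 2) := by gcongr
    _ = ENNReal.ofReal (54 * (8 * K ^ 2 / r ^ 2)) * (∫⁻ x in closedBall z (2 * r), ‖w x‖ₑ ^ 2) +
        ENNReal.ofReal (54 * 2) * ∫⁻ x in closedBall z (2 * r), ‖bb w x‖ₑ ^ 2 := by
        rw [ENNReal.ofReal_mul (by norm_num), ENNReal.ofReal_mul (by norm_num), mul_add,
          ← mul_assoc, ← mul_assoc, add_comm]
        simp
    _ ≤ _ := by
        refine add_le_add (mul_le_mul' (ENNReal.ofReal_le_ofReal ?_) le_rfl)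
          (mul_le_mul' (ENNReal.ofReal_le_ofReal ?_) le_rfl)
        · rw [mul_div_assoc', div_le_div_iff_of_pos_right (by positivity)]
          nlinarith [sq_nonneg K]
        · nlinarith [sq_nonneg K]

end Pool.Agent.Lib.Qcd
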