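import Pool.Agent.Lib.Qcd.Defs

set_option autoImplicit false

/-!
# Change of variables `x = c (z + Lf u v y)`

PROOFS. `z, u, v` is a unitary basis: every `x` is `hp z x • z + hp u x • u + hp v x • v` (the difference is orthogonal to the basis; or use that the matrix of a unitary basis is invertible). `sig_yc`, `yc_sig`: `hp z (sig z u v y) = 1`, and `Lf u v y = (y 0 + i y 1) u + (y 2 + i y 3) v`.
`lcov`: the real-linear map `S (c, w) = c • z + Lf u v w`, `ℂ × E → W`, preserves the volume: it is the composition of the obvious measure-preserving identification `ℂ × E ≃ ℂ³` (coordinates; `volume_preserving_piFinSuccAbove`-type lemmas, `Complex.volume_preserving_equiv_pi`, `EuclideanSpace.volume_preserving_...`)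
and of the unitary map of `ℂ³` with columns `z, u, v`, whose real determinant is `|det|² = 1` (`MeasureTheory.Measure.addHaar_preimage_linearMap`, `LinearMap.det_restrictScalars`; or it is an isometry of `EuclideanSpace ℂ (Fin 3)`; `Psd.Dens` has the same step). Then for fixed `c ≠ 0`
substitute `w = c y` (complex multiplication on `E = ℂ²`, Jacobian `|c|⁴`), `c • z + Lf u v (c y) = c • sig z u v y`; Tonelli.
-/

open MeasureTheory Set Metric
open scoped ContDiff ENNReal

namespace Pool.Agent.Lib.Qcd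

open Pool.Agent.P28b04d Pool.Agent.Lib.Psd

namespace CovAux

theorem hp_swap (a b : W) : hp b a = star (hp a b) := by
  simp only [hp, star_sum, star_mul', star_star]
  exact Finset.sum_congr rfl fun k _ => mul_comm _ _

theorem hp_comb (a z u v : W) (x y t : ℂ) :
    hp a (x • z + y • u + t • v) = x * hp a z + y * hp a u + t * hp a v := by
  simp [hp, Fin.sum_univ_three]
  ring

/-- the matrix with columns `z, u, v` -/
def MM (z u v : W) : Matrix (Fin 3) (Fin 3) ℂ := Matrix.of fun i j => (![z, u, v] j) i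

/-- the inverse matrix -/
def MN (z u v : W) : Matrix (Fin 3) (Fin 3) ℂ := Matrix.of fun i j => star ((![z, u, v] i) j)

theorem MN_mul {z u v : W} (h : ON3 z u v) : MN z u v * MM z u v = 1 := by
  have h7 : hp u z = 0 := by rw [hp_swap, h.zu, star_zero]
  have h8 : hp v z = 0 := by rw [hp_swap, h.zv, star_zero]
  have h9 : hp v u = 0 := by rw [hp_swap, h.uv, star_zero]
  ext i j
  have e : (MN z u v * MM z u v) i j = hp (![z, u, v] i) (![z, u, v] j) := by
    rw [Matrix.mul_apply]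
    rfl
  rw [e]
  fin_cases i <;> fin_cases j
  · exact h.zz
  · exact h.zu
  · exact h.zv
  · exact h7
  · exact h.uu
  · exact h.uv
  · exact h8
  · exact h9
  · exact h.vv

theorem MM_mul {z u v : W} (h : ON3 z u v) : MM z u v * MN z u v = 1 :=
  mul_eq_one_comm.mp (MN_mul h)

theorem det_MM {z u v : W} (h : ON3 z u v) : Complex.normSq (MM z u v).det = 1 := by
  have h1 : (MN z u v).det = star (MM z u v).det := by
    rw [← Matrix.det_conjTranspose]
    congr 1
  have h2 := congrArg Matrix.det (MN_mul h)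
  rw [Matrix.det_mul, Matrix.det_one, h1] at h2
  have h3 : ((Complex.normSq (MM z u v).det : ℝ) : ℂ) = 1 := by
    rw [← h2, Complex.normSq_eq_conj_mul_self]
    rfl
  exact_mod_cast h3

theorem lint_det {V : Type} [NormedAddCommGroup V] [NormedSpace ℝ V] [MeasurableSpace V]
    [BorelSpace V] [FiniteDimensional ℝ V] (μ : Measure V) [μ.IsAddHaarMeasure] (f : V →ₗ[ℝ] V)
    (hf : LinearMap.det f ≠ 0) {k : V → ℝ≥0∞} (hk : Measurable k) :
    ∫⁻ x, k x ∂μ = ENNReal.ofReal |LinearMap.det f| * ∫⁻ x, k (f x) ∂μ := by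
  have h1 := Measure.map_linearMap_addHaar_eq_smul_addHaar μ hf
  have hfm : Measurable f := f.continuous_of_finiteDimensional.measurable
  rw [← lintegral_map hk hfm, h1, lintegral_smul_measure, smul_eq_mul, ← mul_assoc,
    ← ENNReal.ofReal_mul (abs_nonneg _), ← abs_mul, mul_inv_cancel₀ hf, abs_one,
    ENNReal.ofReal_one, one_mul]

theorem lint_unit {z u v : W} (h : ON3 z u v) {k : W → ℝ≥0∞} (hk : Measurable k) :
    ∫⁻ x, k x = ∫⁻ w : W, k (w 0 • z + w 1 • u + w 2 • v) := by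
  have hdet : LinearMap.det ((Matrix.toLin' (MM z u v)).restrictScalars ℝ) = 1 := by
    rw [LinearMap.det_restrictScalars, Algebra.norm_complex_apply, LinearMap.det_toLin', det_MM h]
  have h1 := lint_det (volume : Measure W) ((Matrix.toLin' (MM z u v)).restrictScalars ℝ)
    (by rw [hdet]; exact one_ne_zero) hk
  rw [h1, hdet, abs_one, ENNReal.ofReal_one, one_mul]
  refine lintegral_congr fun w => ?_
  congr 1
  ext i
  have : ((Matrix.toLin' (MM z u v)).restrictScalars ℝ) w i =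
      ∑ j, (![z, u, v] j) i * w j := rfl
  rw [this, Fin.sum_univ_three]
  simp
  ring

theorem lint_scale {a : ℂ} (ha : a ≠ 0) {g : (Fin 2 → ℂ) → ℝ≥0∞} (hg : Measurable g) :
    ∫⁻ b, g b = ENNReal.ofReal (‖a‖ ^ 4) * ∫⁻ b : Fin 2 → ℂ, g (a • b) := by
  have hdet : LinearMap.det (((a • LinearMap.id : (Fin 2 → ℂ) →ₗ[ℂ] (Fin 2 → ℂ))).restrictScalars ℝ)
      = ‖a‖ ^ 4 := by
    rw [LinearMap.det_restrictScalars, Algebra.norm_complex_apply, LinearMap.det_smul,
      LinearMap.det_id, mul_one, Module.finrank_fin_fun, map_pow, Complex.normSq_eq_norm_sq]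
    ring
  have hne : ‖a‖ ^ 4 ≠ 0 := pow_ne_zero _ (norm_ne_zero_iff.mpr ha)
  have h1 := lint_det (volume : Measure (Fin 2 → ℂ))
    (((a • LinearMap.id : (Fin 2 → ℂ) →ₗ[ℂ] (Fin 2 → ℂ))).restrictScalars ℝ)
    (by rw [hdet]; exact hne) hg
  rw [h1, hdet, abs_of_nonneg (by positivity)]
  rfl

theorem lint_cons {α : Type} [MeasureSpace α] [SigmaFinite (volume : Measure α)] {n : ℕ}
    {φ : (Fin (n + 1) → α) → ℝ≥0∞} (hφ : Measurable φ) :
    ∫⁻ x, φ x = ∫⁻ a, ∫⁻ b : Fin n → α, φ (Fin.cons a b) := by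
  have h1 := (volume_preserving_piFinSuccAbove (fun _ : Fin (n + 1) => α) 0).symm
  have h2 := h1.lintegral_comp hφ
  rw [← h2]
  erw [lintegral_prod]
  · refine lintegral_congr fun a => lintegral_congr fun b => ?_
    congr 1
    have : (MeasurableEquiv.piFinSuccAbove (fun _ : Fin (n + 1) => α) 0).symm (a, b) =
        Fin.insertNth 0 a b := rfl
    rw [this, Fin.insertNth_zero]
    rfl
  · exact (hφ.comp h1.measurable).aemeasurable

theorem lint_C {φ : ℂ → ℝ≥0∞} (hφ : Measurable φ) :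
    ∫⁻ a, φ a = ∫⁻ x : ℝ, ∫⁻ y : ℝ, φ ⟨x, y⟩ := by
  have h1 := Complex.volume_preserving_equiv_real_prod.symm
  have h2 := h1.lintegral_comp hφ
  rw [← h2]
  erw [lintegral_prod]
  · rfl
  · exact (hφ.comp h1.measurable).aemeasurable

theorem lint_zero {α : Type} [MeasureSpace α] {φ : (Fin 0 → α) → ℝ≥0∞} (x : Fin 0 → α) :
    ∫⁻ y, φ y = φ x := by
  rw [Measure.volume_pi_eq_dirac x, lintegral_dirac]

theorem lint_C2 {φ : (Fin 2 → ℂ) → ℝ≥0∞} (hφ : Measurable φ) :
    ∫⁻ b, φ b = ∫⁻ a : ℝ, ∫⁻ b : ℝ, ∫⁻ c : ℝ, ∫⁻ d : ℝ, φ ![⟨a, b⟩, ⟨c, d⟩] := by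
  have m2 : Measurable fun p : ℂ × ℂ => φ ![p.1, p.2] := by
    refine hφ.comp (measurable_pi_lambda _ fun i => ?_)
    fin_cases i
    · exact measurable_fst
    · exact measurable_snd
  have e1 : ∫⁻ b, φ b = ∫⁻ a : ℂ, ∫⁻ c : ℂ, φ ![a, c] := by
    rw [lint_cons hφ]
    refine lintegral_congr fun a => ?_
    have m1 : Measurable fun b : Fin 1 → ℂ => φ (Fin.cons a b) := by
      refine hφ.comp (measurable_pi_lambda _ fun i => ?_)
      refine Fin.cases ?_ (fun j => ?_) i
      · exact measurable_const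
      · exact measurable_pi_apply j
    rw [lint_cons m1]
    refine lintegral_congr fun c => ?_
    rw [lint_zero ![]]
    rfl
  rw [e1, lint_C m2.lintegral_prod_right']
  refine lintegral_congr fun a => lintegral_congr fun b => ?_
  have m3 : Measurable fun c : ℂ => φ ![⟨a, b⟩, c] :=
    m2.comp (measurable_const.prodMk measurable_id)
  exact lint_C m3

theorem lint_R4 {φ : (Fin 4 → ℝ) → ℝ≥0∞} (hφ : Measurable φ) :
    ∫⁻ b, φ b = ∫⁻ a : ℝ, ∫⁻ b : ℝ, ∫⁻ c : ℝ, ∫⁻ d : ℝ, φ ![a, b, c, d] := by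
  have hm : ∀ {n : ℕ} {ψ : (Fin (n + 1) → ℝ) → ℝ≥0∞}, Measurable ψ → ∀ a : ℝ,
      Measurable fun b : Fin n → ℝ => ψ (Fin.cons a b) := by
    intro n ψ hψ a
    refine hψ.comp (measurable_pi_lambda _ fun i => ?_)
    refine Fin.cases ?_ (fun j => ?_) i
    · exact measurable_const
    · exact measurable_pi_apply j
  rw [lint_cons hφ]
  refine lintegral_congr fun a => ?_
  rw [lint_cons (hm hφ a)]
  refine lintegral_congr fun b => ?_
  rw [lint_cons (hm (hm hφ a) b)]
  refine lintegral_congr fun c => ?_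
  rw [lint_cons (hm (hm (hm hφ a) b) c)]
  refine lintegral_congr fun d => ?_
  rw [lint_zero ![]]
  rfl

theorem lint_E {φ : E → ℝ≥0∞} (hφ : Measurable φ) :
    ∫⁻ b, φ b = ∫⁻ a : ℝ, ∫⁻ b : ℝ, ∫⁻ c : ℝ, ∫⁻ d : ℝ, φ !₂[a, b, c, d] := by
  have h1 := PiLp.volume_preserving_toLp (Fin 4)
  rw [← h1.lintegral_comp hφ]
  exact lint_R4 (hφ.comp h1.measurable)

theorem lint_CE {φ : (Fin 2 → ℂ) → ℝ≥0∞} (hφ : Measurable φ) :
    ∫⁻ b, φ b = ∫⁻ y : E, φ ![(y 0 : ℂ) + y 1 * Complex.I, (y 2 : ℂ) + y 3 * Complex.I] := by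
  have hm : Measurable fun y : E =>
      φ ![(y 0 : ℂ) + y 1 * Complex.I, (y 2 : ℂ) + y 3 * Complex.I] := by
    refine hφ.comp (measurable_pi_lambda _ fun i => ?_)
    fin_cases i
    · exact Continuous.measurable (by fun_prop)
    · exact Continuous.measurable (by fun_prop)
  rw [lint_C2 hφ, lint_E hm]
  refine lintegral_congr fun a => lintegral_congr fun b => lintegral_congr fun c =>
    lintegral_congr fun d => ?_
  have e : ∀ p q : ℝ, (⟨p, q⟩ : ℂ) = (p : ℂ) + q * Complex.I := fun p q => Complex.mk_eq_add_mul_I p q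
  rw [e, e]
  rfl

end CovAux

open CovAux

theorem basis_eq {z u v : W} (h : ON3 z u v) (x : W) : x = hp z x • z + hp u x • u + hp v x • v := by
  have h1 : Matrix.mulVec (MM z u v * MN z u v) x = x := by
    rw [MM_mul h, Matrix.one_mulVec]
  rw [← Matrix.mulVec_mulVec] at h1
  have h2 : Matrix.mulVec (MN z u v) x = ![hp z x, hp u x, hp v x] := by
    ext i
    fin_cases i <;> rfl
  rw [h2] at h1
  conv_lhs => rw [← h1]
  ext i
  have : Matrix.mulVec (MM z u v) ![hp z x, hp u x, hp v x] i =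
      ∑ j, (![z, u, v] j) i * (![hp z x, hp u x, hp v x] : Fin 3 → ℂ) j := rfl
  rw [this, Fin.sum_univ_three]
  simp
  ring

private theorem Lf_eq (u v : W) (y : E) : Lf u v y = ((y 0 : ℂ) + y 1 * Complex.I) • u + ((y 2 : ℂ) + y 3 * Complex.I) • v := by
  rw [Lf_apply, Fin.sum_univ_four]
  ext i
  simp [fr]
  ring

private theorem hp_sig {z u v : W} (h : ON3 z u v) (c : ℂ) (y : E) : hp z (c • sig z u v y) = c := by
  have e : c • sig z u v y = c • z + (c * ((y 0 : ℂ) + y 1 * Complex.I)) • u +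
      (c * ((y 2 : ℂ) + y 3 * Complex.I)) • v := by
    rw [sig, Lf_eq]
    module
  rw [e, hp_comb, h.zz, h.zu, h.zv]
  ring

private theorem hpu_sig {z u v : W} (h : ON3 z u v) (c : ℂ) (y : E) :
    hp u (c • sig z u v y) = c * ((y 0 : ℂ) + y 1 * Complex.I) := by
  have e : c • sig z u v y = c • z + (c * ((y 0 : ℂ) + y 1 * Complex.I)) • u +
      (c * ((y 2 : ℂ) + y 3 * Complex.I)) • v := by
    rw [sig, Lf_eq]
    module
  have h7 : hp u z = 0 := by rw [hp_swap, h.zu, star_zero]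
  rw [e, hp_comb, h.uu, h7, h.uv]
  ring

private theorem hpv_sig {z u v : W} (h : ON3 z u v) (c : ℂ) (y : E) :
    hp v (c • sig z u v y) = c * ((y 2 : ℂ) + y 3 * Complex.I) := by
  have e : c • sig z u v y = c • z + (c * ((y 0 : ℂ) + y 1 * Complex.I)) • u +
      (c * ((y 2 : ℂ) + y 3 * Complex.I)) • v := by
    rw [sig, Lf_eq]
    module
  have h8 : hp v z = 0 := by rw [hp_swap, h.zv, star_zero]
  have h9 : hp v u = 0 := by rw [hp_swap, h.uv, star_zero]
  rw [e, hp_comb, h.vv, h8, h9]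
  ring

theorem sig_yc {z u v : W} (h : ON3 z u v) {x : W} (hx : hp z x ≠ 0) :
    hp z x • sig z u v (yc z u v x) = x := by
  have e0 : ((yc z u v x 0 : ℝ) : ℂ) + (yc z u v x 1 : ℝ) * Complex.I = hp u x / hp z x :=
    Complex.re_add_im _
  have e1 : ((yc z u v x 2 : ℝ) : ℂ) + (yc z u v x 3 : ℝ) * Complex.I = hp v x / hp z x :=
    Complex.re_add_im _
  rw [sig, Lf_eq, e0, e1]
  conv_rhs => rw [basis_eq h x]
  rw [smul_add, smul_add, smul_smul, smul_smul, mul_div_cancel₀ _ hx, mul_div_cancel₀ _ hx,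
    add_assoc]

theorem yc_sig {z u v : W} (h : ON3 z u v) {c : ℂ} (hc : c ≠ 0) (y : E) : yc z u v (c • sig z u v y) = y := by
  have e0 : hp u (c • sig z u v y) / hp z (c • sig z u v y) = (y 0 : ℂ) + y 1 * Complex.I := by
    rw [hpu_sig h, hp_sig h, mul_div_cancel_left₀ _ hc]
  have e1 : hp v (c • sig z u v y) / hp z (c • sig z u v y) = (y 2 : ℂ) + y 3 * Complex.I := by
    rw [hpv_sig h, hp_sig h, mul_div_cancel_left₀ _ hc]
  rw [yc, e0, e1]
  ext i
  fin_cases i <;> simp

theorem yc_meas (z u v : W) : Measurable (yc z u v) := by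
  have hh : ∀ a : W, Measurable fun x : W => hp a x := by
    intro a
    have : (fun x : W => hp a x) = fun x => ∑ k, star (a k) * x k := rfl
    rw [this]
    fun_prop
  have h1 : Measurable fun x : W => (hp u x / hp z x : ℂ) := (hh u).div (hh z)
  have h2 : Measurable fun x : W => (hp v x / hp z x : ℂ) := (hh v).div (hh z)
  refine (WithLp.measurable_toLp 2 _).comp (measurable_pi_lambda _ fun i => ?_)
  fin_cases i
  · exact Complex.measurable_re.comp h1
  · exact Complex.measurable_im.comp h1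
  · exact Complex.measurable_re.comp h2
  · exact Complex.measurable_im.comp h2

theorem lcov {z u v : W} (h : ON3 z u v) {k : W → ℝ≥0∞} (hk : Measurable k) :
    ∫⁻ x, k x = ∫⁻ c : ℂ, ∫⁻ y : E, ENNReal.ofReal (‖c‖ ^ 4) * k (c • sig z u v y) := by
  have hm0 : Measurable fun w : W => k (w 0 • z + w 1 • u + w 2 • v) :=
    hk.comp (Continuous.measurable (by fun_prop))
  rw [lint_unit h hk, lint_cons hm0]
  refine lintegral_congr_ae ?_
  have hae : ∀ᵐ c : ℂ, c ≠ 0 := by
    rw [ae_iff]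
    simp
  filter_upwards [hae] with c hc
  have hm1 : Measurable fun b : Fin 2 → ℂ => k (c • z + b 0 • u + b 1 • v) :=
    hk.comp (Continuous.measurable (by fun_prop))
  have e1 : ∫⁻ b : Fin 2 → ℂ, k ((Fin.cons c b : Fin 3 → ℂ) 0 • z + (Fin.cons c b : Fin 3 → ℂ) 1 • u +
      (Fin.cons c b : Fin 3 → ℂ) 2 • v) = ∫⁻ b : Fin 2 → ℂ, k (c • z + b 0 • u + b 1 • v) := rfl
  rw [e1, lint_scale hc hm1]
  have hm2 : Measurable fun b : Fin 2 → ℂ => k (c • z + (c • b) 0 • u + (c • b) 1 • v) :=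
    hm1.comp (Continuous.measurable (by fun_prop) : Measurable fun b : Fin 2 → ℂ => c • b)
  rw [lint_CE hm2]
  rw [← lintegral_const_mul']
  · refine lintegral_congr fun y => ?_
    congr 2
    rw [sig, Lf_eq]
    simp
    module
  · exact ENNReal.ofReal_ne_top

end Pool.Agent.Lib.Qcd
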