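import Pool.Agent.Lib.Qcd.Lift
import Pool.Agent.Lib.Qcd.Alg
import Pool.Agent.Lib.Qcd.Qcl

/-!
# The norm of the exterior derivative

PROOFS. `dd_le_tn`: `dd α z v w = (fderiv ℝ α z - (fderiv ℝ α z).flip) v w`. `tn_hom`: `fderiv ℝ α (c • z) (c • v) (c • w) = fderiv ℝ α z v w` (`ConnBAux.fderiv_hom`), and `v ↦ c • v` multiplies norms by `‖c‖`. `co_le_tn`: `co_ch`, `‖fr u v i‖ ≤ 1`.
`tn_le`: for `ζ = sig z u v x`, `‖x‖ ≤ R`, and `v ∈ W` write `v = a ζ + Lf u v w`, `a = hp z v` (`hp z ζ = 1`), `w ∈ E` with `‖w‖ ≤ C (1 + R) ‖v‖` (the coordinates of `v - a ζ ⟂ z` in the frame `fr u v`; `z, u, v` is a basis); since `dd α ζ (c ζ) w' = 0`,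
`dd α ζ v v' = dd α ζ (Lf w) (Lf w') = ∑ w_i w'_j co (ch α z u v) i j x` (`co_ch`), at most `4 ‖w‖ ‖w'‖ √nrm2`; `‖A - A.flip‖` is bounded by the best constant (`ContinuousLinearMap.opNorm_le_bound₂`).
`sqrt_le_tn`: the converse inequality from `co_le_tn` (16 components). `hd_le`: `frameL` at the unit vector `z` with a frame `u, v` (`exists_ON3`), `qalg`: `nrm2 L ≤ 2 √(nrm2 (omg L)) ≤ 8 tn (pl Φ) z` (for `C ε ≤ 1`); for `v = a z + v'`, `v' ⟂ z`: `hd Φ z v = hd Φ z v'` (`hd_add`, `hd_self`) and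
`nsq (hd Φ z v') ≤ nsq (Φ z) nrm2 L nsq v'`. `fderiv_hloc_hom`, `bb_hom`: `dΦ_{cz} = c dΦ_z c⁻¹` (`fderiv_lift_hom`). `fderiv_le`: `nl_fderiv` at unit `z`: `|hp z v| ≤ 3 ‖v‖`, `|pl Φ z v| ≤ |a0 z v| + ‖v‖ ≤ 4 ‖v‖`, `‖Φ z‖ ≤ 1`, and `hd_le`.
`bb_le`: at a unit vector `z`, `bb Φ z (a z) = 0`, so take `v ⟂ z`, `v = ∑ r_i fr u v i`: by `nl_fderiv` `bb Φ z v = (hd Φ z (i v) - i hd Φ z v) + i (γ (i v) - i γ (v)) Φ z`, `γ = pl Φ - a0` at `z` (`a0 z v = Im hp z v = 0`, `Re hp z v = 0`), the second part is at most `2 δ ‖v‖`; the first part is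
`∑ r_i (∑_j J j i hd (fr j) - i hd (fr i))` with `J j i = c0 i j / 2` (`i fr_0 = fr_1`, `i fr_1 = - fr_0`, ...), whose `nsq` is at most `4 ∑ r_i² · nsq (Φ z) · nrm2 (dJ J L)` (fourth clause of `frameL`), and `dJ0_le` with `omg L - c0 = cmp (dd (pl Φ - a0) z) u v` (`cmp (dd a0 z) u v = c0`, `dd_a0`,
`hp_fr` in `Psd.CmpF`), bounded by `4 tn (pl Φ - a0) z` (`√(nrm2 ·) ≤ 4 max`).
-/

set_option autoImplicit false



open MeasureTheory Set Metric
open scoped ContDiff ENNReal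

namespace Pool.Agent.Lib.Qcd

open Pool.Agent.P28b04d Pool.Agent.Lib.Psd

namespace TnAux

theorem tnExp {z u v : W} (h : ON3 z u v) (y : W) :
    y = hp z y • z + hp u y • u + hp v y • v := by
  set Q : Matrix (Fin 3) (Fin 3) ℂ := Matrix.of ![z, u, v] with hQ
  have hp_star' : ∀ a b : W, star (hp a b) = hp b a := hp_star
  have huz : hp u z = 0 := by rw [← hp_star', h.zu, star_zero]
  have hvz : hp v z = 0 := by rw [← hp_star', h.zv, star_zero]
  have hvu : hp v u = 0 := by rw [← hp_star', h.uv, star_zero]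
  have h1 : (Q.map star) * Q.transpose = 1 := by
    ext i j
    rw [Matrix.mul_apply, Matrix.one_apply]
    have e : ∑ k, (Q.map star) i k * Q.transpose k j = hp (Q i) (Q j) := rfl
    rw [e]
    fin_cases i <;> fin_cases j
    exacts [h.zz, h.zu, h.zv, huz, h.uu, h.uv, hvz, hvu, h.vv]
  have h2 : Q.transpose * (Q.map star) = 1 := mul_eq_one_comm.1 h1
  funext k
  have h3 : y k = ∑ l, (Q.transpose * (Q.map star)) k l * y l := by
    rw [h2]
    simp [Matrix.one_apply]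
  rw [h3]
  simp only [Matrix.mul_apply, Fin.sum_univ_three, Matrix.transpose_apply, Matrix.map_apply,
    Pi.add_apply, Pi.smul_apply, smul_eq_mul, hp, hQ, Matrix.of_apply, Matrix.cons_val_zero,
    Matrix.cons_val_one, Matrix.cons_val]
  ring

/-- real coordinates in the frame -/
noncomputable def rc (u v y : W) : Fin 4 → ℝ := ![(hp u y).re, (hp u y).im, (hp v y).re, (hp v y).im]

theorem csm (c : ℂ) (w : W) : c • w = c.re • w + c.im • (Complex.I • w) := by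
  funext k
  simp only [Pi.smul_apply, Pi.add_apply, smul_eq_mul, Complex.real_smul]
  conv_lhs => rw [← Complex.re_add_im c]
  ring

theorem tnDec {z u v : W} (h : ON3 z u v) (y : W) :
    y = hp z y • z + ∑ i, rc u v y i • fr u v i := by
  conv_lhs => rw [tnExp h y]
  rw [csm (hp u y) u, csm (hp v y) v, Fin.sum_univ_four]
  simp only [rc, fr, Matrix.cons_val_zero, Matrix.cons_val_one, Matrix.cons_val]
  abel

theorem hp_le (a b : W) : ‖hp a b‖ ≤ 3 * ‖a‖ * ‖b‖ := by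
  unfold hp
  refine (norm_sum_le _ _).trans ?_
  have h1 : ∀ k ∈ (Finset.univ : Finset (Fin 3)), ‖star (a k) * b k‖ ≤ ‖a‖ * ‖b‖ := by
    intro k _
    rw [norm_mul, norm_star]
    exact mul_le_mul (norm_le_pi_norm a k) (norm_le_pi_norm b k) (norm_nonneg _) (norm_nonneg _)
  refine (Finset.sum_le_sum h1).trans (le_of_eq ?_)
  rw [Finset.sum_const, Finset.card_univ, Fintype.card_fin]
  simp
  ring

theorem nsq_le (a : W) : nsq a ≤ 3 * ‖a‖ ^ 2 := by
  have h1 : nsq a ≤ ∑ _k : Fin 3, ‖a‖ ^ 2 := by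
    refine Finset.sum_le_sum fun k _ => ?_
    rw [Complex.normSq_eq_norm_sq]
    have h2 := norm_le_pi_norm a k
    have h3 := norm_nonneg (a k)
    nlinarith
  refine h1.trans (le_of_eq ?_)
  simp

theorem nsqn (a : W) : 0 ≤ nsq a := Finset.sum_nonneg fun _ _ => Complex.normSq_nonneg _

theorem norm_sq_le (a : W) : ‖a‖ ^ 2 ≤ nsq a := by
  have h0 := nsqn a
  have h1 : ‖a‖ ≤ Real.sqrt (nsq a) := by
    rw [pi_norm_le_iff_of_nonneg (Real.sqrt_nonneg _)]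
    intro k
    refine Real.le_sqrt_of_sq_le ?_
    rw [← Complex.normSq_eq_norm_sq]
    exact Finset.single_le_sum (f := fun k => Complex.normSq (a k)) (fun i _ => Complex.normSq_nonneg _)
      (Finset.mem_univ k)
  calc ‖a‖ ^ 2 ≤ (Real.sqrt (nsq a)) ^ 2 := by
        exact pow_le_pow_left₀ (norm_nonneg _) h1 2
    _ = nsq a := Real.sq_sqrt h0

theorem norm_fr {z u v : W} (h : ON3 z u v) (i : Fin 4) : ‖fr u v i‖ ≤ 1 := by
  obtain ⟨_, hu, hv⟩ := norm_le_one h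
  fin_cases i
  · simpa [fr] using hu
  · simpa [fr, norm_smul] using hu
  · simpa [fr] using hv
  · simpa [fr, norm_smul] using hv

theorem abs_rc {z u v : W} (h : ON3 z u v) (y : W) (i : Fin 4) : |rc u v y i| ≤ 3 * ‖y‖ := by
  obtain ⟨_, hu, hv⟩ := norm_le_one h
  have h0 := norm_nonneg y
  have h1 : ‖hp u y‖ ≤ 3 * ‖y‖ := by
    refine (hp_le u y).trans ?_
    nlinarith
  have h2 : ‖hp v y‖ ≤ 3 * ‖y‖ := by
    refine (hp_le v y).trans ?_
    nlinarith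
  fin_cases i
  · exact (Complex.abs_re_le_norm _).trans h1
  · exact (Complex.abs_im_le_norm _).trans h1
  · exact (Complex.abs_re_le_norm _).trans h2
  · exact (Complex.abs_im_le_norm _).trans h2

theorem dd_eq (α : W → W →L[ℝ] ℝ) (z v w : W) :
    dd α z v w = (fderiv ℝ α z - (fderiv ℝ α z).flip) v w := rfl

theorem tn_nonneg (α : W → W →L[ℝ] ℝ) (z : W) : 0 ≤ tn α z := by
  unfold tn
  exact norm_nonneg (fderiv ℝ α z - (fderiv ℝ α z).flip)

theorem dd_abs (α : W → W →L[ℝ] ℝ) (z v w : W) : |dd α z v w| ≤ tn α z * ‖v‖ * ‖w‖ := by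
  rw [dd_eq]
  exact ContinuousLinearMap.le_opNorm₂ (fderiv ℝ α z - (fderiv ℝ α z).flip) v w

theorem tn_of {α : W → W →L[ℝ] ℝ} {z : W} {C : ℝ} (hC : 0 ≤ C)
    (h : ∀ v w, |dd α z v w| ≤ C * ‖v‖ * ‖w‖) : tn α z ≤ C :=
  ContinuousLinearMap.opNorm_le_bound₂ _ hC h

theorem tn_hom_le {α : W → W →L[ℝ] ℝ} (hs : ContDiffOn ℝ ∞ α {0}ᶜ)
    (hh : ∀ c : ℂ, c ≠ 0 → ∀ z : W, z ≠ 0 → ∀ v : W, α (c • z) (c • v) = α z v) {c : ℂ} (hc : c ≠ 0)
    {z : W} (hz : z ≠ 0) : tn α (c • z) ≤ tn α z / ‖c‖ ^ 2 := by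
  have hn : 0 < ‖c‖ := norm_pos_iff.2 hc
  refine tn_of (div_nonneg (tn_nonneg _ _) (by positivity)) fun v w => ?_
  have e1 : v = c • (c⁻¹ • v) := by rw [smul_smul, mul_inv_cancel₀ hc, one_smul]
  have e2 : w = c • (c⁻¹ • w) := by rw [smul_smul, mul_inv_cancel₀ hc, one_smul]
  have e3 : dd α (c • z) v w = dd α z (c⁻¹ • v) (c⁻¹ • w) := by
    conv_lhs => rw [e1, e2]
    exact ConnBAux.dd_hom' hs hh hc hz _ _
  rw [e3]
  refine (dd_abs α z _ _).trans (le_of_eq ?_)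
  rw [norm_smul, norm_smul, norm_inv]
  field_simp

end TnAux

open TnAux

theorem dd_le_tn (α : W → W →L[ℝ] ℝ) (z v w : W) : |dd α z v w| ≤ tn α z * ‖v‖ * ‖w‖ := dd_abs α z v w

theorem tn_hom {α : W → W →L[ℝ] ℝ} (hs : ContDiffOn ℝ ∞ α {0}ᶜ)
    (hh : ∀ c : ℂ, c ≠ 0 → ∀ z : W, z ≠ 0 → ∀ v : W, α (c • z) (c • v) = α z v) {c : ℂ} (hc : c ≠ 0)
    {z : W} (hz : z ≠ 0) : tn α (c • z) = tn α z / ‖c‖ ^ 2 := by
  have hn : 0 < ‖c‖ := norm_pos_iff.2 hc
  refine le_antisymm (tn_hom_le hs hh hc hz) ?_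
  have h1 := tn_hom_le hs hh (inv_ne_zero hc) (smul_ne_zero hc hz)
  rw [smul_smul, inv_mul_cancel₀ hc, one_smul, norm_inv] at h1
  rw [div_le_iff₀ (by positivity)]
  refine h1.trans (le_of_eq ?_)
  field_simp

theorem co_le_tn {α : W → W →L[ℝ] ℝ} (hs : ContDiffOn ℝ ∞ α {0}ᶜ) {z u v : W} (h : ON3 z u v) (i j : Fin 4)
    (x : E) : |co (ch α z u v) i j x| ≤ tn α (sig z u v x) := by
  rw [co_ch h hs]
  refine (dd_abs _ _ _ _).trans ?_
  have h0 := tn_nonneg α (sig z u v x)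
  have h1 := norm_fr h i
  have h2 := norm_fr h j
  have h3 := norm_nonneg (fr u v i)
  have h4 := norm_nonneg (fr u v j)
  have h5 : ‖fr u v i‖ * ‖fr u v j‖ ≤ 1 := by nlinarith
  calc tn α (sig z u v x) * ‖fr u v i‖ * ‖fr u v j‖ = tn α (sig z u v x) * (‖fr u v i‖ * ‖fr u v j‖) := by ring
    _ ≤ tn α (sig z u v x) * 1 := mul_le_mul_of_nonneg_left h5 h0
    _ = tn α (sig z u v x) := mul_one _


namespace TnAux

theorem ent_le_sqrt (T : Fin 4 → Fin 4 → ℝ) (i j : Fin 4) : |T i j| ≤ Real.sqrt (nrm2 T) := by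
  refine Real.abs_le_sqrt ?_
  have h1 : T i j ^ 2 ≤ ∑ j, T i j ^ 2 :=
    Finset.single_le_sum (f := fun j => T i j ^ 2) (fun _ _ => sq_nonneg _) (Finset.mem_univ j)
  have h2 : ∑ j, T i j ^ 2 ≤ ∑ i, ∑ j, T i j ^ 2 :=
    Finset.single_le_sum (f := fun i => ∑ j, T i j ^ 2)
      (fun _ _ => Finset.sum_nonneg fun _ _ => sq_nonneg _) (Finset.mem_univ i)
  exact h1.trans h2

theorem sqrt_le_of_ent {T : Fin 4 → Fin 4 → ℝ} {B : ℝ} (hB : 0 ≤ B) (h : ∀ i j, |T i j| ≤ B) :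
    Real.sqrt (nrm2 T) ≤ 4 * B := by
  refine Real.sqrt_le_iff.2 ⟨by positivity, ?_⟩
  have h1 : nrm2 T ≤ ∑ _i : Fin 4, ∑ _j : Fin 4, B ^ 2 := by
    refine Finset.sum_le_sum fun i _ => Finset.sum_le_sum fun j _ => ?_
    exact sq_le_sq' (abs_le.1 (h i j)).1 (abs_le.1 (h i j)).2
  refine h1.trans (le_of_eq ?_)
  simp
  ring

theorem dd_red {α : W → W →L[ℝ] ℝ} {ζ : W} (h0 : ∀ (c : ℂ) (w : W), dd α ζ (c • ζ) w = 0)
    (a b : ℂ) (y y' : W) : dd α ζ (a • ζ + y) (b • ζ + y') = dd α ζ y y' := by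
  rw [dd_add_left, h0, dd_add_right, dd_skew α ζ y (b • ζ), h0]
  ring

theorem bil_le {α : W → W →L[ℝ] ℝ} {ζ : W} {f : Fin 4 → W} {S D : ℝ} (hS : ∀ i j, |dd α ζ (f i) (f j)| ≤ S)
    {r r' : Fin 4 → ℝ} {A A' : ℝ} (hA : 0 ≤ A) (hA' : 0 ≤ A')
    (hD : 0 ≤ D) (hr : ∀ i, |r i| ≤ D * A) (hr' : ∀ i, |r' i| ≤ D * A') :
    |dd α ζ (∑ i, r i • f i) (∑ i, r' i • f i)| ≤ 16 * D ^ 2 * S * A * A' := by
  rw [CmpFAux.dd_sum_left]
  have h1 : ∀ i, |r i * dd α ζ (f i) (∑ j, r' j • f j)| ≤ D * A * (4 * (D * A' * S)) := by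
    intro i
    rw [abs_mul]
    refine mul_le_mul (hr i) ?_ (abs_nonneg _) (by positivity)
    rw [CmpFAux.dd_sum_right]
    refine (Finset.abs_sum_le_sum_abs _ _).trans ?_
    refine (Finset.sum_le_sum (g := fun _ => D * A' * S) fun j _ => ?_).trans (le_of_eq ?_)
    · rw [abs_mul]
      exact mul_le_mul (hr' j) (hS i j) (abs_nonneg _) (by positivity)
    · simp
  refine (Finset.abs_sum_le_sum_abs _ _).trans ?_
  refine (Finset.sum_le_sum (g := fun _ => D * A * (4 * (D * A' * S))) fun i _ => h1 i).trans (le_of_eq ?_)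
  simp
  ring

theorem cont_gen {X V G : Type} [TopologicalSpace X] [NormedAddCommGroup V] [NormedSpace ℝ V]
    [NormedAddCommGroup G] [NormedSpace ℝ G] {s : Set X} {f g : X → V →L[ℝ] G}
    (hf : ContinuousOn f s) (hg : ContinuousOn g s) : ContinuousOn (fun x => ‖f x - g x‖) s :=
  (hf.sub hg).norm

end TnAux

theorem tn_le (R : ℝ) (hR : 0 < R) : ∃ C : ℝ, 1 ≤ C ∧ ∀ α : W → W →L[ℝ] ℝ, ContDiffOn ℝ ∞ α {0}ᶜ →
    (∀ z : W, z ≠ 0 → ∀ (c : ℂ) (w : W), dd α z (c • z) w = 0) → ∀ z u v : W, ON3 z u v →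
      ∀ x : E, ‖x‖ ≤ R → tn α (sig z u v x) ≤ C * Real.sqrt (nrm2 (fun i j => co (ch α z u v) i j x)) := by
  set D : ℝ := 3 * (1 + 3 * (1 + 2 * R)) with hD
  have hD0 : 1 ≤ D := by rw [hD]; nlinarith
  refine ⟨16 * D ^ 2, by nlinarith, fun α hs hrad z u v h x hx => ?_⟩
  set ζ := sig z u v x with hζ
  have hζ0 : ζ ≠ 0 := sig_ne h x
  have hz1 := (norm_le_one h).1
  have hζn : ‖ζ‖ ≤ 1 + 2 * R := by
    rw [hζ, sig]
    refine (norm_add_le _ _).trans ?_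
    have := Lf_norm h x
    linarith
  have hζz : hp z ζ = 1 := hp_sig h x
  set S : ℝ := Real.sqrt (nrm2 (fun i j => co (ch α z u v) i j x)) with hS
  have hS0 : 0 ≤ S := Real.sqrt_nonneg _
  have hSe : ∀ i j, |dd α ζ (fr u v i) (fr u v j)| ≤ S := by
    intro i j
    rw [hζ, ← co_ch h hs]
    exact ent_le_sqrt (fun i j => co (ch α z u v) i j x) i j
  -- decomposition of a vector
  have hdec : ∀ w : W, ∃ r : Fin 4 → ℝ, w = hp z w • ζ + ∑ i, r i • fr u v i ∧ ∀ i, |r i| ≤ D * ‖w‖ := by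
    intro w
    refine ⟨rc u v (w - hp z w • ζ), ?_, ?_⟩
    · have h1 := TnAux.tnDec h (w - hp z w • ζ)
      have h2 : hp z (w - hp z w • ζ) = 0 := by
        rw [sub_eq_add_neg, ← neg_smul, hp_add_right, Pool.Agent.Lib.Psd.hp_smul_right, hζz]
        ring
      rw [h2, zero_smul, zero_add] at h1
      rw [← h1]
      abel
    · intro i
      refine (abs_rc h _ i).trans ?_
      have h3 : ‖w - hp z w • ζ‖ ≤ ‖w‖ + 3 * ‖w‖ * (1 + 2 * R) := by
        refine (norm_sub_le _ _).trans ?_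
        rw [norm_smul]
        have h4 : ‖hp z w‖ ≤ 3 * ‖w‖ := by
          refine (hp_le z w).trans ?_
          have := norm_nonneg w
          nlinarith
        have h5 := mul_le_mul h4 hζn (norm_nonneg _) (by positivity)
        linarith
      rw [hD]
      nlinarith [norm_nonneg w]
  refine tn_of (by positivity) fun v₁ v₂ => ?_
  obtain ⟨r, hr, hrb⟩ := hdec v₁
  obtain ⟨r', hr', hrb'⟩ := hdec v₂
  have h6 : dd α ζ v₁ v₂ = dd α ζ (∑ i, r i • fr u v i) (∑ i, r' i • fr u v i) := by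
    conv_lhs => rw [hr, hr']
    exact dd_red (hrad ζ hζ0) _ _ _ _
  rw [h6]
  refine (bil_le hSe (norm_nonneg v₁) (norm_nonneg v₂) (by linarith) hrb hrb').trans (le_of_eq ?_)
  ring

theorem tn_cont {α : W → W →L[ℝ] ℝ} (hs : ContDiffOn ℝ ∞ α {0}ᶜ) : ContinuousOn (tn α) {0}ᶜ := by
  have h1 : ContinuousOn (fderiv ℝ α) {0}ᶜ :=
    hs.continuousOn_fderiv_of_isOpen isOpen_compl_singleton (by simp)
  have h2 : ContinuousOn (fun z => (fderiv ℝ α z).flip) {0}ᶜ :=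
    (ContinuousLinearMap.flipₗᵢ ℝ W W ℝ).continuous.comp_continuousOn h1
  exact cont_gen (V := W) (G := W →L[ℝ] ℝ) h1 h2

namespace TnAux

theorem hp_sum (a : W) (r : Fin 4 → ℝ) (f : Fin 4 → W) :
    hp a (∑ i, r i • f i) = ∑ i, (r i : ℂ) * hp a (f i) := by
  rw [Fin.sum_univ_four, Fin.sum_univ_four, hp_add_right, hp_add_right, hp_add_right]
  simp only [CmpFAux.rsmul, Pool.Agent.Lib.Psd.hp_smul_right]

theorem fr_perp {z u v : W} (h : ON3 z u v) (i : Fin 4) : hp z (fr u v i) = 0 := by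
  fin_cases i
  · exact h.zu
  · show hp z (Complex.I • u) = 0
    rw [Pool.Agent.Lib.Psd.hp_smul_right, h.zu, mul_zero]
  · exact h.zv
  · show hp z (Complex.I • v) = 0
    rw [Pool.Agent.Lib.Psd.hp_smul_right, h.zv, mul_zero]

theorem sum_perp {z u v : W} (h : ON3 z u v) (r : Fin 4 → ℝ) : hp z (∑ i, r i • fr u v i) = 0 := by
  rw [hp_sum]
  simp [fr_perp h]

/-- Parseval -/
theorem rc_sq_le {z u v : W} (h : ON3 z u v) (y : W) : ∑ i, rc u v y i ^ 2 ≤ nsq y := by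
  have hL : ∀ a b c : W, hp (a + b) c = hp a c + hp b c := by
    intro a b c
    rw [← hp_star, hp_add_right, star_add, hp_star, hp_star]
  have hS : ∀ (a b : W) (c : ℂ), hp (c • a) b = star c * hp a b := fun a b c =>
    CmpFAux.hp_smul_left c a b
  have h1 : (nsq y : ℂ) = star (hp z y) * hp z y + star (hp u y) * hp u y + star (hp v y) * hp v y := by
    rw [nsq_eq_hp]
    conv_lhs => rw [tnExp h y]
    rw [hL, hL, hS, hS, hS]
    have e1 : hp z (hp z y • z + hp u y • u + hp v y • v) = hp z y := by rw [← tnExp h y]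
    have e2 : hp u (hp z y • z + hp u y • u + hp v y • v) = hp u y := by rw [← tnExp h y]
    have e3 : hp v (hp z y • z + hp u y • u + hp v y • v) = hp v y := by rw [← tnExp h y]
    rw [e1, e2, e3]
  have h2 : ∀ c : ℂ, star c * c = ((c.re ^ 2 + c.im ^ 2 : ℝ) : ℂ) := by
    intro c
    rw [Complex.star_def, ← Complex.normSq_eq_conj_mul_self, Complex.normSq_apply]
    congr 1
    ring
  rw [h2, h2, h2] at h1
  have h3 : nsq y = (hp z y).re ^ 2 + (hp z y).im ^ 2 + ((hp u y).re ^ 2 + (hp u y).im ^ 2) +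
      ((hp v y).re ^ 2 + (hp v y).im ^ 2) := by
    exact_mod_cast h1
  rw [h3, Fin.sum_univ_four]
  simp only [rc, Matrix.cons_val_zero, Matrix.cons_val_one, Matrix.cons_val]
  nlinarith [sq_nonneg (hp z y).re, sq_nonneg (hp z y).im]

theorem cs (r : Fin 4 → ℝ) (L : Fin 4 → Fin 4 → ℝ) :
    ∑ a, (∑ i, r i * L i a) ^ 2 ≤ (∑ i, r i ^ 2) * nrm2 L := by
  have h1 : ∀ a, (∑ i, r i * L i a) ^ 2 ≤ (∑ i, r i ^ 2) * ∑ i, L i a ^ 2 := fun a =>
    Finset.sum_mul_sq_le_sq_mul_sq Finset.univ r (fun i => L i a)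
  refine (Finset.sum_le_sum fun a _ => h1 a).trans (le_of_eq ?_)
  rw [← Finset.mul_sum, nrm2, Finset.sum_comm]

theorem ne_of_unit {z : W} (hz : nsq z = 1) : z ≠ 0 := AmbBAux.ne_zero_of_unit hz

end TnAux

theorem hd_le : ∃ C : ℝ, 1 ≤ C ∧ ∀ ε : ℝ, 0 ≤ ε → ε ≤ 1 / C → ∀ Φ : W → W, HLoc (n := 2) Φ → QCL ε Φ →
    ∀ z v : W, nsq z = 1 → nsq (hd Φ z v) ≤ C * nsq (Φ z) * tn (pl Φ) z * nsq v := by
  obtain ⟨C, hC, hq⟩ := qalg
  refine ⟨6 * C, by linarith, fun ε hε0 hε Φ hΦ hQ z y hz => ?_⟩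
  have hC0 : 0 < C := by linarith
  have hεC : ε ≤ 1 / C := hε.trans (by
    apply one_div_le_one_div_of_le hC0
    linarith)
  have hCε : C * ε ≤ 1 := by
    rw [le_div_iff₀ hC0] at hεC
    linarith
  have hz0 : z ≠ 0 := ne_of_unit hz
  obtain ⟨u, v, h⟩ := exists_ON3 hz
  obtain ⟨L, hL1, hL2, hL3, -, -⟩ := frameL hΦ h
  obtain ⟨h1, -⟩ := hq ε hε0 hεC L (hL1 ε hQ)
  set t := tn (pl Φ) z with ht
  have ht0 : 0 ≤ t := tn_nonneg _ _
  have hent : ∀ i j, |omg L i j| ≤ t := by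
    intro i j
    rw [hL2]
    refine (dd_abs (pl Φ) z _ _).trans ?_
    have a1 := norm_fr h i
    have a2 := norm_fr h j
    have a3 := norm_nonneg (fr u v i)
    have a4 := norm_nonneg (fr u v j)
    have a5 : ‖fr u v i‖ * ‖fr u v j‖ ≤ 1 := by nlinarith
    calc tn (pl Φ) z * ‖fr u v i‖ * ‖fr u v j‖ = t * (‖fr u v i‖ * ‖fr u v j‖) := by rw [ht]; ring
      _ ≤ t * 1 := mul_le_mul_of_nonneg_left a5 ht0
      _ = t := mul_one _
  have h2 : nrm2 (omg L) ≤ 16 * t ^ 2 := by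
    have h3 := sqrt_le_of_ent ht0 hent
    have h4 := Real.sqrt_nonneg (nrm2 (omg L))
    have h5 := Real.sq_sqrt (nrm2_nonneg (omg L))
    nlinarith
  have hn0 := nrm2_nonneg L
  have h6 : nrm2 L ≤ 6 * t := by
    have h7 : nrm2 L ^ 2 ≤ 2 * (16 * t ^ 2) := by
      refine h1.trans ?_
      have := nrm2_nonneg (omg L)
      nlinarith
    nlinarith
  have h8 : hd Φ z y = hd Φ z (∑ i, rc u v y i • fr u v i) := by
    conv_lhs => rw [TnAux.tnDec h y]
    rw [hd_add, hd_self hΦ hz0, zero_add]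
  rw [h8, hL3]
  have h9 : ∑ a, (∑ i, rc u v y i * L i a) ^ 2 ≤ nsq y * (6 * t) := by
    refine (cs _ _).trans ?_
    exact mul_le_mul (rc_sq_le h y) h6 hn0 (nsqn y)
  have h10 := nsqn (Φ z)
  have h11 := nsqn y
  calc nsq (Φ z) * ∑ a, (∑ i, rc u v y i * L i a) ^ 2 ≤ nsq (Φ z) * (nsq y * (6 * t)) :=
        mul_le_mul_of_nonneg_left h9 h10
    _ = 6 * (nsq (Φ z) * t * nsq y) := by ring
    _ ≤ 6 * C * (nsq (Φ z) * t * nsq y) := by
        refine mul_le_mul_of_nonneg_right (by linarith) (by positivity)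
    _ = 6 * C * nsq (Φ z) * t * nsq y := by ring

namespace TnAux

/-- a real linear operator which is complex homogeneous along a complex line -/
theorem norm_hom_le {A B : W →L[ℝ] W} {c : ℂ} (hc : c ≠ 0) (h : ∀ v, A (c • v) = c • B v) : ‖A‖ ≤ ‖B‖ := by
  have hn : 0 < ‖c‖ := norm_pos_iff.2 hc
  refine ContinuousLinearMap.opNorm_le_bound _ (norm_nonneg _) fun v => ?_
  have e1 : v = c • (c⁻¹ • v) := by rw [smul_smul, mul_inv_cancel₀ hc, one_smul]
  have e2 : A v = c • B (c⁻¹ • v) := by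
    conv_lhs => rw [e1]
    exact h _
  rw [e2, norm_smul]
  have h1 := B.le_opNorm (c⁻¹ • v)
  rw [norm_smul, norm_inv] at h1
  have h2 := mul_le_mul_of_nonneg_left h1 hn.le
  refine h2.trans (le_of_eq ?_)
  field_simp

theorem norm_hom {A B : W →L[ℝ] W} {c : ℂ} (hc : c ≠ 0) (h : ∀ v, A (c • v) = c • B v) : ‖A‖ = ‖B‖ := by
  refine le_antisymm (norm_hom_le hc h) (norm_hom_le (inv_ne_zero hc) fun v => ?_)
  have h1 := h (c⁻¹ • v)
  rw [smul_smul, mul_inv_cancel₀ hc, one_smul] at h1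
  rw [h1, smul_smul, inv_mul_cancel₀ hc, one_smul]

theorem bb_apply (Φ : W → W) (z v : W) :
    bb Φ z v = fderiv ℝ Φ z (Complex.I • v) - Complex.I • fderiv ℝ Φ z v := rfl

end TnAux

theorem norm_fderiv_hom {Φ : W → W} (h : HLoc (n := 2) Φ) {c : ℂ} (hc : c ≠ 0) {z : W} (hz : z ≠ 0) :
    ‖fderiv ℝ Φ (c • z)‖ = ‖fderiv ℝ Φ z‖ :=
  norm_hom hc fun v => fderiv_lift_hom h hc hz v

theorem norm_bb_hom {Φ : W → W} (h : HLoc (n := 2) Φ) {c : ℂ} (hc : c ≠ 0) {z : W} (hz : z ≠ 0) :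
    ‖bb Φ (c • z)‖ = ‖bb Φ z‖ := by
  refine norm_hom hc fun v => ?_
  rw [bb_apply, bb_apply, smul_comm Complex.I c v, fderiv_lift_hom h hc hz, fderiv_lift_hom h hc hz,
    smul_sub, smul_comm Complex.I c]

namespace TnAux

theorem norm_unit {a : W} (h : nsq a = 1) : ‖a‖ ≤ 1 := by
  have h1 := norm_sq_le a
  have h2 := norm_nonneg a
  nlinarith

theorem a0_abs {z : W} (hz : nsq z = 1) (v : W) : |a0 z v| ≤ 3 * ‖v‖ := by
  rw [a0_apply, hz, div_one]
  refine (Complex.abs_im_le_norm _).trans ((hp_le z v).trans ?_)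
  have h1 := norm_unit hz
  have h2 := norm_nonneg v
  nlinarith [norm_nonneg z]

theorem hp_abs {z : W} (hz : nsq z = 1) (v : W) : ‖hp z v‖ ≤ 3 * ‖v‖ := by
  refine (hp_le z v).trans ?_
  have h1 := norm_unit hz
  have h2 := norm_nonneg v
  nlinarith [norm_nonneg z]

theorem I_frame {u v : W} (i : Fin 4) :
    Complex.I • fr u v i = ∑ j, (c0 i j / 2) • fr u v j := by
  rw [Fin.sum_univ_four]
  have hI : ∀ w : W, Complex.I • Complex.I • w = -w := by
    intro w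
    rw [smul_smul, Complex.I_mul_I, neg_one_smul]
  fin_cases i
  · simp [fr, c0]
  · show Complex.I • Complex.I • u = _
    rw [hI]
    simp [fr, c0]
  · simp [fr, c0]
  · show Complex.I • Complex.I • v = _
    rw [hI]
    simp [fr, c0]

theorem hd_sum (Φ : W → W) (z : W) (r : Fin 4 → ℝ) (f : Fin 4 → W) :
    hd Φ z (∑ i, r i • f i) = ∑ i, r i • hd Φ z (f i) := by
  rw [Fin.sum_univ_four, Fin.sum_univ_four, hd_add, hd_add, hd_add, hd_smul, hd_smul, hd_smul, hd_smul]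

end TnAux

theorem fderiv_le : ∃ C : ℝ, 1 ≤ C ∧ ∀ ε : ℝ, 0 ≤ ε → ε ≤ 1 / C → ∀ Φ : W → W, NL Φ → QCL ε Φ →
    (∀ z v : W, nsq z = 1 → |pl Φ z v - a0 z v| ≤ ‖v‖) →
      ∀ z : W, nsq z = 1 → ‖fderiv ℝ Φ z‖ ≤ C * (1 + Real.sqrt (tn (pl Φ) z)) := by
  obtain ⟨C, hC, hq⟩ := hd_le
  refine ⟨3 * C + 7, by linarith, fun ε hε0 hε Φ hΦ hQ hpl z hz => ?_⟩
  have hC0 : 0 < C := by linarith
  have hεC : ε ≤ 1 / C := hε.trans (by
    apply one_div_le_one_div_of_le hC0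
    linarith)
  have hnΦ : nsq (Φ z) = 1 := by rw [hΦ.nrm, hz]
  have hΦ1 := norm_unit hnΦ
  set t := tn (pl Φ) z with ht
  have ht0 : 0 ≤ t := tn_nonneg _ _
  have hst := Real.sqrt_nonneg t
  have hst2 := Real.sq_sqrt ht0
  refine ContinuousLinearMap.opNorm_le_bound _ (by positivity) fun v => ?_
  have hv0 := norm_nonneg v
  rw [nl_fderiv hΦ hz]
  have h1 : ‖hd Φ z v‖ ≤ 3 * C * Real.sqrt t * ‖v‖ := by
    have h2 := hq ε hε0 hεC Φ hΦ.loc hQ z v hz
    rw [hnΦ, mul_one] at h2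
    have h3 := norm_sq_le (hd Φ z v)
    have h4 := nsq_le v
    have h5 : ‖hd Φ z v‖ ^ 2 ≤ (3 * C * Real.sqrt t * ‖v‖) ^ 2 := by
      calc ‖hd Φ z v‖ ^ 2 ≤ C * t * nsq v := h3.trans h2
        _ ≤ C * t * (3 * ‖v‖ ^ 2) := mul_le_mul_of_nonneg_left h4 (by positivity)
        _ = (3 * C) * (t * ‖v‖ ^ 2) := by ring
        _ ≤ (3 * C) ^ 2 * (t * ‖v‖ ^ 2) := by
            refine mul_le_mul_of_nonneg_right ?_ (by positivity)
            nlinarith
        _ = (3 * C * Real.sqrt t * ‖v‖) ^ 2 := by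
            linear_combination (-(3 * C) ^ 2 * ‖v‖ ^ 2) * hst2
    exact (abs_le_of_sq_le_sq' h5 (by positivity)).2
  have h6 : ‖((hp z v).re + pl Φ z v * Complex.I : ℂ)‖ ≤ 7 * ‖v‖ := by
    refine (norm_add_le _ _).trans ?_
    rw [norm_mul, Complex.norm_I, mul_one, Complex.norm_real, Complex.norm_real, Real.norm_eq_abs,
      Real.norm_eq_abs]
    have h7 := (Complex.abs_re_le_norm (hp z v)).trans (hp_abs hz v)
    have h8 := hpl z v hz
    have h9 := a0_abs hz v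
    have h10 : |pl Φ z v| ≤ |pl Φ z v - a0 z v| + |a0 z v| := by
      have := abs_add_le (pl Φ z v - a0 z v) (a0 z v)
      rwa [sub_add_cancel] at this
    linarith
  refine (norm_add_le _ _).trans ?_
  rw [norm_smul]
  have h11 : ‖((hp z v).re + pl Φ z v * Complex.I : ℂ)‖ * ‖Φ z‖ ≤ 7 * ‖v‖ * 1 :=
    mul_le_mul h6 hΦ1 (norm_nonneg _) (by positivity)
  have h12 : 0 ≤ Real.sqrt t * ‖v‖ := by positivity
  nlinarith

theorem bb_le : ∃ C : ℝ, 1 ≤ C ∧ ∀ ε : ℝ, 0 ≤ ε → ε ≤ 1 / C → ∀ Φ : W → W, NL Φ → QCL ε Φ →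
    ∀ δ : ℝ, 0 ≤ δ → (∀ z v : W, nsq z = 1 → |pl Φ z v - a0 z v| ≤ δ * ‖v‖) →
      ∀ z : W, nsq z = 1 → ‖bb Φ z‖ ^ 2 ≤ C * (ε + δ ^ 2 + tn (fun y => pl Φ y - a0 y) z) := by
  obtain ⟨C, hC, hq⟩ := dJ0_le
  refine ⟨2000 * C, by linarith, fun ε hε0 hε Φ hΦ hQ δ hδ hpl z hz => ?_⟩
  have hC0 : 0 < C := by linarith
  have hεC : ε ≤ 1 / C := hε.trans (by
    apply one_div_le_one_div_of_le hC0
    linarith)
  have hnΦ : nsq (Φ z) = 1 := by rw [hΦ.nrm, hz]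
  have hΦ1 := norm_unit hnΦ
  have hz0 : z ≠ 0 := ne_of_unit hz
  have hz1 := norm_unit hz
  obtain ⟨u, v, h⟩ := exists_ON3 hz
  obtain ⟨L, hL1, hL2, -, hL4, -⟩ := frameL hΦ.loc h
  set t := tn (fun y => pl Φ y - a0 y) z with ht
  have ht0 : 0 ≤ t := tn_nonneg _ _
  -- the deviation of the form
  have hent : ∀ i j, |omg L i j - c0 i j| ≤ t := by
    intro i j
    have e1 : omg L i j - c0 i j = dd (fun y => pl Φ y - a0 y) z (fr u v i) (fr u v j) := by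
      rw [dd_sub (pl_conn hΦ.loc).smooth a0_conn.smooth hz0, dd_a0 hz0 (fr_perp h i) (fr_perp h j),
        CmpFAux.hp_fr h, hz, div_one, hL2]
      rfl
    rw [e1]
    refine (dd_abs _ z _ _).trans ?_
    have a1 := norm_fr h i
    have a2 := norm_fr h j
    have a3 := norm_nonneg (fr u v i)
    have a4 := norm_nonneg (fr u v j)
    have a5 : ‖fr u v i‖ * ‖fr u v j‖ ≤ 1 := by nlinarith
    calc t * ‖fr u v i‖ * ‖fr u v j‖ = t * (‖fr u v i‖ * ‖fr u v j‖) := by ring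
      _ ≤ t * 1 := mul_le_mul_of_nonneg_left a5 ht0
      _ = t := mul_one _
  set N := nrm2 (dJ (fun j i => c0 i j / 2) L) with hN
  have hN0 : 0 ≤ N := nrm2_nonneg _
  have hN1 : N ≤ C * (ε + 4 * t) := by
    refine (hq ε hε0 hεC L (hL1 ε hQ)).trans ?_
    have h1 : Real.sqrt (nrm2 (fun i j => omg L i j - c0 i j)) ≤ 4 * t := sqrt_le_of_ent ht0 hent
    exact mul_le_mul_of_nonneg_left (by linarith) hC0.le
  -- the frame vectors
  have hfr : ∀ i, ‖hd Φ z (Complex.I • fr u v i) - Complex.I • hd Φ z (fr u v i)‖ ≤ Real.sqrt N := by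
    intro i
    rw [I_frame, hd_sum]
    refine Real.le_sqrt_of_sq_le ((norm_sq_le _).trans ?_)
    have h1 := hL4 (fun j i => c0 i j / 2) i
    rw [hnΦ, one_mul] at h1
    rw [h1]
    exact Finset.single_le_sum (f := fun i => ∑ a, dJ (fun j i => c0 i j / 2) L i a ^ 2)
      (fun _ _ => Finset.sum_nonneg fun _ _ => sq_nonneg _) (Finset.mem_univ i)
  -- horizontal vectors
  have hhor : ∀ y : W, hp z y = 0 → bb Φ z y = (hd Φ z (Complex.I • y) - Complex.I • hd Φ z y) +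
      ((pl Φ z (Complex.I • y) * Complex.I + pl Φ z y : ℂ)) • Φ z := by
    intro y hy
    have hy' : hp z (Complex.I • y) = 0 := by
      rw [Pool.Agent.Lib.Psd.hp_smul_right, hy, mul_zero]
    rw [bb_apply, nl_fderiv hΦ hz, nl_fderiv hΦ hz, hy, hy', Complex.zero_re, Complex.ofReal_zero,
      zero_add, zero_add, smul_add, smul_smul]
    have e1 : Complex.I * (pl Φ z y * Complex.I) = -(pl Φ z y : ℂ) := by
      linear_combination (pl Φ z y : ℂ) * Complex.I_mul_I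
    rw [e1, add_smul, neg_smul]
    abel
  have hplh : ∀ y : W, hp z y = 0 → |pl Φ z y| ≤ δ * ‖y‖ := by
    intro y hy
    have h1 := hpl z y hz
    rwa [a0_apply, hy, Complex.zero_im, zero_div, sub_zero] at h1
  have hsN := Real.sqrt_nonneg N
  have hfin : ‖bb Φ z‖ ≤ 12 * Real.sqrt N + 24 * δ := by
    refine ContinuousLinearMap.opNorm_le_bound _ (by positivity) fun w => ?_
    set r := rc u v w with hr
    set y : W := ∑ i, r i • fr u v i with hy
    have hyp : hp z y = 0 := sum_perp h r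
    have e1 : bb Φ z w = bb Φ z y := by
      conv_lhs => rw [TnAux.tnDec h w]
      rw [map_add]
      have e2 : bb Φ z (hp z w • z) = 0 := by
        rw [bb_apply, smul_smul, fderiv_lift_self hΦ.loc hz0, fderiv_lift_self hΦ.loc hz0, smul_smul,
          sub_self]
      rw [e2, zero_add]
    have hw0 := norm_nonneg w
    have hyn : ‖y‖ ≤ 12 * ‖w‖ := by
      rw [hy]
      refine (norm_sum_le _ _).trans ?_
      refine (Finset.sum_le_sum (g := fun _ => 3 * ‖w‖) fun i _ => ?_).trans (le_of_eq ?_)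
      · rw [norm_smul, Real.norm_eq_abs]
        have a1 := abs_rc h w i
        have a2 := norm_fr h i
        calc |r i| * ‖fr u v i‖ ≤ (3 * ‖w‖) * 1 := mul_le_mul a1 a2 (norm_nonneg _) (by positivity)
          _ = 3 * ‖w‖ := mul_one _
      · simp
        ring
    rw [e1, hhor y hyp]
    have h1 : ‖hd Φ z (Complex.I • y) - Complex.I • hd Φ z y‖ ≤ 12 * Real.sqrt N * ‖w‖ := by
      have e3 : hd Φ z (Complex.I • y) - Complex.I • hd Φ z y =
          ∑ i, r i • (hd Φ z (Complex.I • fr u v i) - Complex.I • hd Φ z (fr u v i)) := by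
        have e4 : Complex.I • y = ∑ i, r i • (Complex.I • fr u v i) := by
          rw [hy, Finset.smul_sum]
          refine Finset.sum_congr rfl fun i _ => ?_
          rw [smul_comm]
        rw [e4, hy, hd_sum, hd_sum, Finset.smul_sum, ← Finset.sum_sub_distrib]
        refine Finset.sum_congr rfl fun i _ => ?_
        rw [smul_sub, smul_comm]
      rw [e3]
      refine (norm_sum_le _ _).trans ?_
      refine (Finset.sum_le_sum (g := fun _ => 3 * ‖w‖ * Real.sqrt N) fun i _ => ?_).trans (le_of_eq ?_)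
      · rw [norm_smul, Real.norm_eq_abs]
        exact mul_le_mul (abs_rc h w i) (hfr i) (norm_nonneg _) (by positivity)
      · simp
        ring
    have h2 : ‖((pl Φ z (Complex.I • y) * Complex.I + pl Φ z y : ℂ)) • Φ z‖ ≤ 24 * δ * ‖w‖ := by
      rw [norm_smul]
      have h3 : ‖((pl Φ z (Complex.I • y) * Complex.I + pl Φ z y : ℂ))‖ ≤ 2 * (δ * ‖y‖) := by
        refine (norm_add_le _ _).trans ?_
        rw [norm_mul, Complex.norm_I, mul_one, Complex.norm_real, Complex.norm_real, Real.norm_eq_abs,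
          Real.norm_eq_abs]
        have h4 := hplh y hyp
        have h5 := hplh (Complex.I • y) (by rw [Pool.Agent.Lib.Psd.hp_smul_right, hyp, mul_zero])
        rw [norm_smul, Complex.norm_I, one_mul] at h5
        linarith
      have h6 : ‖((pl Φ z (Complex.I • y) * Complex.I + pl Φ z y : ℂ))‖ * ‖Φ z‖ ≤ 2 * (δ * ‖y‖) * 1 :=
        mul_le_mul h3 hΦ1 (norm_nonneg _) (by positivity)
      have h7 : δ * ‖y‖ ≤ δ * (12 * ‖w‖) := mul_le_mul_of_nonneg_left hyn hδ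
      linarith
    refine (norm_add_le _ _).trans ?_
    linarith
  have hb0 := norm_nonneg (bb Φ z)
  have hs2 := Real.sq_sqrt hN0
  have h8 : ‖bb Φ z‖ ^ 2 ≤ (12 * Real.sqrt N + 24 * δ) ^ 2 := pow_le_pow_left₀ hb0 hfin 2
  have h9 : (12 * Real.sqrt N + 24 * δ) ^ 2 ≤ 288 * N + 1152 * δ ^ 2 := by
    nlinarith [sq_nonneg (12 * Real.sqrt N - 24 * δ)]
  have h10 : 0 ≤ δ ^ 2 := sq_nonneg δ
  have h11 : 0 ≤ C * ε := by positivity
  have h12 : 0 ≤ C * t := by positivity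
  have h13 : δ ^ 2 ≤ C * δ ^ 2 := by nlinarith
  nlinarith

end Pool.Agent.Lib.Qcd
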