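import Pool.Agent.Lib.Qcd.Defs

set_option autoImplicit false

/-!
# Global closeness to the Fubini-Study form

PROOF: as `Psd.Ptw` and `TopCAux.unit_int` in `Psd.TopC`, with the unit ball replaced by the ball of radius `R`. With `γ = α - a0` and, at the point `sig z u v x`, the frame `p, q` of `chart_frame`: `t = cmp (dd γ (sig x)) p q`, `T = t + ρ⁻² c0`: `4 Pf t = nrm2 (sd t) - nrm2 (asd t)`,
`asd t = asd T` (`asd c0 = 0`) and `nrm2 (asd T) ≤ κ² nrm2 (sd T) ≤ κ² (2 nrm2 (sd t) + 32 ρ⁻⁴)`, so (`arith` in `Psd.Ptw`) `nrm2 t ≤ 2 (3 Pf t + 48 κ² ρ⁻⁴)` and `0 ≤ 3 Pf t + 48 κ² ρ⁻⁴`. `co (ch γ z u v) x = tr a d m₁ m₂ t` with `|a|, |d|, |m_i| ≤ 1`,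
`Pf (co (ch γ)) = (a d)² Pf t = ρ⁻² Pf t` and `nrm2 (co (ch γ)) ≤ C nrm2 t` (`tr_le`), and `ρ² = 1 + ‖x‖² ≤ 1 + R²` on the ball: `nrm2 (co (ch γ) x) ≤ 2 C (1 + R²) (3 Pf (co (ch γ) x) + 48 κ² ρ⁻⁶)`, the bracket being `≥ 0` for ALL `x` (first claim of `ptw`).
Integrate: `∫_{ball 0 R} (3 Pf + C κ² ρ⁻⁶) ≤ ∫ cutR R' (3 Pf + C κ² ρ⁻⁶)` for `R' ≥ R` and `∫ cutR R' Pf → 0` by `pfint` (`γ` is `Basic`, `Conn.sub`), `ρ⁻⁶` is integrable (`g_int`).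
-/

open MeasureTheory Set Metric
open scoped ContDiff ENNReal

namespace Pool.Agent.Lib.Qcd

open Pool.Agent.P28b04d Pool.Agent.Lib.Psd

namespace TopDAux

open TopCAux PtwAux

theorem ptwR (R : ℝ) : ∃ C : ℝ, 1 ≤ C ∧ ∀ κ : ℝ, 0 ≤ κ → κ ≤ 1 / 4 →
    ∀ α : W → W →L[ℝ] ℝ, Conn α → Pinched κ α →
    ∀ z u v : W, ON3 z u v → ∀ x : E,
      0 ≤ 3 * Pf (fun i j => co (ch (fun y => α y - a0 y) z u v) i j x) + C * κ ^ 2 * ((1 + ‖x‖ ^ 2) ^ 3)⁻¹ ∧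
      (‖x‖ ≤ R → nrm2 (fun i j => co (ch (fun y => α y - a0 y) z u v) i j x) ≤
        C * (3 * Pf (fun i j => co (ch (fun y => α y - a0 y) z u v) i j x) +
          C * κ ^ 2 * ((1 + ‖x‖ ^ 2) ^ 3)⁻¹)) := by
  obtain ⟨C1, hC1, htr⟩ := tr_le
  have hR2 : 0 ≤ R ^ 2 := sq_nonneg R
  have hCR : 0 ≤ 2 * C1 * (1 + R ^ 2) := by positivity
  refine ⟨48 + 2 * C1 * (1 + R ^ 2), by linarith, ?_⟩
  intro κ hκ hκ' α hα hpin z u v h x
  obtain ⟨p, q, a, d, m₁, m₂, ρ, hρ, hρ2, hON, ha, ha1, hd, hd1, hm1, hm2, hρad, -, -, -, -,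
    hco, ha0, hpn⟩ := chart_frame h x
  have hy0 : sig z u v x ≠ 0 := sig_ne h x
  have hβ : Basic (fun y => α y - a0 y) := hα.sub a0_conn
  set y := sig z u v x with hy
  set σ : Fin 4 → Fin 4 → ℝ := cmp (dd (fun y => α y - a0 y) y) p q with hσ
  set τ : Fin 4 → Fin 4 → ℝ := cmp (dd α y) p q with hτ
  have ht : (fun i j => co (ch (fun y => α y - a0 y) z u v) i j x) = tr a d m₁ m₂ σ := by
    funext i j
    exact hco _ hβ.smooth (fun c w => hβ.dd_left hy0 c w) i j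
  set qq : ℝ := (ρ ^ 2)⁻¹ with hqq
  have hqpos : 0 < qq := by rw [hqq]; positivity
  have hσs : Skew σ := fun i j => dd_skew _ _ _ _
  have hτσ : τ = fun i j => σ i j + qq * c0 i j := by
    funext i j
    have e1 : σ i j = τ i j - cmp (dd a0 y) p q i j := by
      rw [hσ, hτ]
      exact dd_sub hα.smooth a0_conn.smooth hy0 _ _
    rw [e1, ha0 i j]
    ring
  obtain ⟨hc1, hc2, hc3, hc4, hc5⟩ := c0_facts
  have hasd : asd τ = asd σ := by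
    funext i j
    rw [hτσ, asd_add σ (fun i j => qq * c0 i j) i j, asd_smul qq c0 i j, hc3]
    ring
  have hsd : sd τ = fun i j => sd σ i j + qq * c0 i j := by
    funext i j
    rw [hτσ, sd_add σ (fun i j => qq * c0 i j) i j, sd_smul qq c0 i j, hc4]
  have hsm : nrm2 (fun i j => qq * c0 i j) = qq ^ 2 * 16 := by
    rw [← hc2]
    unfold nrm2
    rw [Finset.mul_sum]
    refine Finset.sum_congr rfl fun i _ => ?_
    rw [Finset.mul_sum]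
    refine Finset.sum_congr rfl fun j _ => ?_
    ring
  have hNle : nrm2 (asd σ) ≤ κ ^ 2 * (2 * nrm2 (sd σ) + 32 * qq ^ 2) := by
    have h1 := hpn κ α hα hpin
    rw [← hτ, hasd] at h1
    refine h1.trans (mul_le_mul_of_nonneg_left ?_ (sq_nonneg κ))
    rw [hsd]
    refine (nrm2_add (sd σ) (fun i j => qq * c0 i j)).trans (le_of_eq ?_)
    rw [hsm]
    ring
  have hk2 : κ ^ 2 ≤ 1 / 16 := by nlinarith
  obtain ⟨b1, b2⟩ := arith (sq_nonneg κ) hk2 (nrm2_nonneg (sd σ)) hqpos hNle (Pf_split hσs)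
  have hPft : Pf (tr a d m₁ m₂ σ) = qq * Pf σ := by
    rw [Pf_tr hσs]
    congr 1
    rw [hqq]
    refine eq_inv_of_mul_eq_one_left ?_
    calc (a * d) ^ 2 * ρ ^ 2 = (ρ * a * d) ^ 2 := by ring
      _ = 1 := by rw [hρad]; norm_num
  have hq3 : ((1 + ‖x‖ ^ 2) ^ 3)⁻¹ = qq ^ 3 := by
    rw [hqq, ← hρ2, inv_pow]
  rw [ht, hPft, hq3]
  have hk0 : 0 ≤ κ ^ 2 := sq_nonneg κ
  have c1 : 0 ≤ qq * (3 * Pf σ + 48 * κ ^ 2 * qq ^ 2) := mul_nonneg hqpos.le b1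
  have c2 : 3 * (qq * Pf σ) + (48 + 2 * C1 * (1 + R ^ 2)) * κ ^ 2 * qq ^ 3 =
      qq * (3 * Pf σ + 48 * κ ^ 2 * qq ^ 2) + 2 * C1 * (1 + R ^ 2) * κ ^ 2 * qq ^ 3 := by ring
  have c3 : 0 ≤ 2 * C1 * (1 + R ^ 2) * κ ^ 2 * qq ^ 3 := by
    have : 0 ≤ C1 := by linarith
    positivity
  refine ⟨by rw [c2]; linarith, fun hx => ?_⟩
  have hq2 : 1 ≤ (1 + R ^ 2) * qq := by
    have h1 : ρ ^ 2 ≤ 1 + R ^ 2 := by
      rw [hρ2]
      have := pow_le_pow_left₀ (norm_nonneg x) hx 2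
      linarith
    rw [hqq, ← div_eq_mul_inv, le_div_iff₀ (by positivity)]
    linarith
  have d1 : nrm2 (tr a d m₁ m₂ σ) ≤ C1 * nrm2 σ :=
    htr a d m₁ m₂ (by rw [abs_of_pos ha]; exact ha1) (by rw [abs_of_pos hd]; exact hd1) hm1 hm2 σ
  have d2 : nrm2 σ ≤ 2 * (1 + R ^ 2) * (qq * (3 * Pf σ + 48 * κ ^ 2 * qq ^ 2)) := by
    rw [nrm2_split hσs]
    refine b2.trans ?_
    have := mul_le_mul_of_nonneg_right hq2 b1
    linarith
  rw [c2]
  have hC0 : 0 ≤ C1 := by linarith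
  calc nrm2 (tr a d m₁ m₂ σ) ≤ C1 * nrm2 σ := d1
    _ ≤ C1 * (2 * (1 + R ^ 2) * (qq * (3 * Pf σ + 48 * κ ^ 2 * qq ^ 2))) :=
        mul_le_mul_of_nonneg_left d2 hC0
    _ = 2 * C1 * (1 + R ^ 2) * (qq * (3 * Pf σ + 48 * κ ^ 2 * qq ^ 2)) := by ring
    _ ≤ (48 + 2 * C1 * (1 + R ^ 2)) * (qq * (3 * Pf σ + 48 * κ ^ 2 * qq ^ 2) +
        2 * C1 * (1 + R ^ 2) * κ ^ 2 * qq ^ 3) := by
        refine mul_le_mul (by linarith) (by linarith) c1 (by linarith)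

theorem cutR_oneR {R T : ℝ} (hT : 1 ≤ T) (hRT : R ≤ T) {x : E} (hx : ‖x‖ ≤ R) : cutR T x = 1 := by
  refine Real.smoothTransition.one_of_one_le ?_
  have h1 : ‖x‖ ^ 2 ≤ T ^ 2 := pow_le_pow_left₀ (norm_nonneg x) (hx.trans hRT) 2
  have h2 : ‖x‖ ^ 2 / T ^ 2 ≤ 1 := (div_le_one (by positivity)).2 h1
  linarith

/-- the integral over the ball of radius `R` -/
theorem ball_intR {R C0 κ : ℝ} {α : W → W →L[ℝ] ℝ} (hα : Conn α) {z u v : W}
    (hz : ON3 z u v) (h0 : 0 ≤ C0)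
    (hp : ∀ x : E,
      0 ≤ 3 * Pf (fun i j => co (ch (fun y => α y - a0 y) z u v) i j x) + C0 * κ ^ 2 * ((1 + ‖x‖ ^ 2) ^ 3)⁻¹ ∧
      (‖x‖ ≤ R → nrm2 (fun i j => co (ch (fun y => α y - a0 y) z u v) i j x) ≤
        C0 * (3 * Pf (fun i j => co (ch (fun y => α y - a0 y) z u v) i j x) +
          C0 * κ ^ 2 * ((1 + ‖x‖ ^ 2) ^ 3)⁻¹))) :
    ∫ x in ball (0 : E) R, nrm2 (fun i j => co (ch (fun y => α y - a0 y) z u v) i j x) ≤
      C0 * (C0 * κ ^ 2 * ∫ x : E, ((1 + ‖x‖ ^ 2) ^ 3)⁻¹) := by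
  have hγ : Basic (fun y => α y - a0 y) := hα.sub a0_conn
  have hsm := ch_smooth hz hγ.smooth
  set t : Fin 4 → Fin 4 → E → ℝ := fun i j => co (ch (fun y => α y - a0 y) z u v) i j with ht
  have htc : ∀ i j, Continuous (t i j) := fun i j => co_cont hsm i j
  have hPf := Pf_cont htc
  have hN := nrm2_cont htc
  set F : E → ℝ := fun x => 3 * Pf (fun i j => t i j x) + C0 * κ ^ 2 * ((1 + ‖x‖ ^ 2) ^ 3)⁻¹ with hF
  have hFc : Continuous F := (continuous_const.mul hPf).add (continuous_const.mul g_cont)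
  have hF0 : ∀ x, 0 ≤ F x := fun x => (hp x).1
  have step1 : ∫ x in ball (0 : E) R, nrm2 (fun i j => t i j x) ≤
      C0 * ∫ x in ball (0 : E) R, F x := by
    rw [← integral_const_mul]
    refine setIntegral_mono_on (ball_int hN R) (ball_int (continuous_const.mul hFc) R)
      measurableSet_ball fun x hx => ?_
    rw [mem_ball, dist_zero_right] at hx
    exact (hp x).2 hx.le
  have step2 : ∫ x in ball (0 : E) R, F x ≤ C0 * κ ^ 2 * ∫ x : E, ((1 + ‖x‖ ^ 2) ^ 3)⁻¹ := by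
    refine le_of_forall_pos_le_add fun ε hε => ?_
    obtain ⟨R₀, -, hR⟩ := pfint hγ hz (ε / 3) (by positivity)
    set T := max R₀ (max 1 R) with hTdef
    have hT1 : 1 ≤ T := (le_max_left _ _).trans (le_max_right _ _)
    have hTR : R ≤ T := (le_max_right _ _).trans (le_max_right _ _)
    have h1 := hR T (le_max_left _ _)
    have hcF : Integrable fun x => cutR T x * F x :=
      ((cutR_cont T).mul hFc).integrable_of_hasCompactSupport (cutR_supp hT1).mul_right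
    have hcP : Integrable fun x => cutR T x * Pf (fun i j => t i j x) :=
      ((cutR_cont T).mul hPf).integrable_of_hasCompactSupport (cutR_supp hT1).mul_right
    have hcg : Integrable fun x : E => cutR T x * ((1 + ‖x‖ ^ 2) ^ 3)⁻¹ :=
      ((cutR_cont T).mul g_cont).integrable_of_hasCompactSupport (cutR_supp hT1).mul_right
    have h2 : ∫ x in ball (0 : E) R, F x ≤ ∫ x, cutR T x * F x := by
      have h3 : ∫ x in ball (0 : E) R, F x = ∫ x in ball (0 : E) R, cutR T x * F x := by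
        refine setIntegral_congr_fun measurableSet_ball fun x hx => ?_
        rw [mem_ball, dist_zero_right] at hx
        show F x = cutR T x * F x
        rw [cutR_oneR hT1 hTR hx.le, one_mul]
      rw [h3]
      exact setIntegral_le_integral hcF
        (Filter.Eventually.of_forall fun x => mul_nonneg (cutR_nonneg T x) (hF0 x))
    have h4 : ∫ x, cutR T x * F x = 3 * (∫ x, cutR T x * Pf (fun i j => t i j x)) +
        C0 * κ ^ 2 * ∫ x : E, cutR T x * ((1 + ‖x‖ ^ 2) ^ 3)⁻¹ := by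
      rw [← integral_const_mul, ← integral_const_mul, ← integral_add (hcP.const_mul _)
        (hcg.const_mul _)]
      refine integral_congr_ae (Filter.Eventually.of_forall fun x => ?_)
      simp only [hF]
      ring
    have h5 : ∫ x : E, cutR T x * ((1 + ‖x‖ ^ 2) ^ 3)⁻¹ ≤ ∫ x : E, ((1 + ‖x‖ ^ 2) ^ 3)⁻¹ := by
      refine integral_mono hcg g_int fun x => ?_
      have h6 : 0 ≤ ((1 + ‖x‖ ^ 2) ^ 3)⁻¹ := by positivity
      calc cutR T x * ((1 + ‖x‖ ^ 2) ^ 3)⁻¹ ≤ 1 * ((1 + ‖x‖ ^ 2) ^ 3)⁻¹ := by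
            gcongr
            exact cutR_le_one T x
        _ = _ := one_mul _
    have h7 : C0 * κ ^ 2 * ∫ x : E, cutR T x * ((1 + ‖x‖ ^ 2) ^ 3)⁻¹ ≤
        C0 * κ ^ 2 * ∫ x : E, ((1 + ‖x‖ ^ 2) ^ 3)⁻¹ := by gcongr
    have h8 := (le_abs_self _).trans h1
    linarith
  calc _ ≤ C0 * ∫ x in ball (0 : E) R, F x := step1
    _ ≤ _ := by gcongr

end TopDAux

theorem topd (R : ℝ) (hR : 1 ≤ R) : ∃ C : ℝ, 1 ≤ C ∧ ∀ κ : ℝ, 0 ≤ κ → κ ≤ 1 / 4 →
    ∀ α : W → W →L[ℝ] ℝ, Conn α → Pinched κ α → ∀ z u v : W, ON3 z u v →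
      ∫ x in ball (0 : E) R, nrm2 (fun i j => co (ch (fun y => α y - a0 y) z u v) i j x) ≤ C * κ ^ 2 := by
  obtain ⟨C0, hC0, hptw⟩ := TopDAux.ptwR R
  set I : ℝ := ∫ x : E, ((1 + ‖x‖ ^ 2) ^ 3)⁻¹ with hI
  have hI0 : 0 ≤ I := integral_nonneg fun x => by positivity
  refine ⟨C0 * (C0 * I) + 1, by have : 0 ≤ C0 * (C0 * I) := by positivity
                                linarith, ?_⟩
  intro κ hκ hκ4 α hα hP z u v hz
  have hU := TopDAux.ball_intR hα hz (by linarith) (hptw κ hκ hκ4 α hα hP z u v hz)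
  rw [← hI] at hU
  refine hU.trans ?_
  have h1 : 0 ≤ κ ^ 2 := sq_nonneg κ
  calc C0 * (C0 * κ ^ 2 * I) = C0 * (C0 * I) * κ ^ 2 := by ring
    _ ≤ (C0 * (C0 * I) + 1) * κ ^ 2 := mul_le_mul_of_nonneg_right (by linarith) h1

end Pool.Agent.Lib.Qcd
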