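import Pool.Agent.Lib.Qcd.Grow
import Pool.Agent.Lib.Qcd.Ball
import Pool.Agent.Lib.Qcd.Tn
import Pool.Agent.Lib.Qcd.TopD

set_option autoImplicit false

/-!
# The curvature in small balls of `W`

PROOFS. `growW`: `nsq z = 1`, `exists_ON3` gives `u, v`. For `x ∈ closedBall z ρ`, `c = hp z x`, `|c| ≥ 1/2`, `x = c • sig z u v (yc x)` (`sig_yc`), so `tn α x = tn α (sig (yc x)) / |c|² ≤ 4 tn α (sig (yc x)) ≤ 4 C √nrm2 (co (ch α z u v) (yc x))` (`tn_hom`, `tn_le 1` with `‖yc x‖ ≤ 4 ρ ≤ 1`,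
`ball_hp`); `ballW` with `k y = ofReal √nrm2 (co (ch α z u v) y)` (continuous) and `growE` on `ball 0 (C ρ)` (`C ρ ≤ r₀`): `ρ² (C ρ)^(15/4) = C' ρ^(23/4)`. (`ofReal_integral_eq_lintegral_ofReal` converts.)
`topW`: `k x = ofReal (nsq x * tn γ x)`, `γ = α - a0` (`Basic`: `Conn.sub`), is invariant under complex multiples (`tn_hom`), `tn γ x = k x / nsq x`; `ballT` and `tn_le 2`, `nsq (sig y) = 1 + ‖y‖² ≤ 5`: `∫_{closedBall 0 1} tn γ ≤ C ∑_i ∫_{ball 0 2} √nrm2 (co (ch γ (eb i) ..)) ≤ C (∫_{ball 0 2} nrm2)^(1/2) ≤ C κ`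
(Cauchy-Schwarz, `topd 2`).
-/

open MeasureTheory Set Metric
open scoped ContDiff ENNReal

namespace Pool.Agent.Lib.Qcd

open Pool.Agent.P28b04d Pool.Agent.Lib.Psd

namespace GrowWAux

open TopCAux

theorem sq_cont {lam : E → E →L[ℝ] ℝ} (h : ContDiff ℝ ∞ lam) :
    Continuous fun y => Real.sqrt (nrm2 (fun i j => co lam i j y)) :=
  Real.continuous_sqrt.comp (nrm2_cont fun i j => co_cont h i j)

/-- Cauchy-Schwarz on a ball -/
theorem sqrt_int {f : E → ℝ} (hf : Continuous f) (h0 : ∀ x, 0 ≤ f x) {R K κ : ℝ} (hK : 0 ≤ K)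
    (hκ : 0 ≤ κ) (h : ∫ x in ball (0 : E) R, f x ≤ K * κ ^ 2) :
    ∫ x in ball (0 : E) R, Real.sqrt (f x) ≤ (volume.real (ball (0 : E) R) + K) / 2 * κ := by
  set V : ℝ := volume.real (ball (0 : E) R) with hV
  have hV0 : 0 ≤ V := ENNReal.toReal_nonneg
  set I : ℝ := ∫ x in ball (0 : E) R, Real.sqrt (f x) with hI
  have key : ∀ t : ℝ, 0 < t → 2 * t * I ≤ t ^ 2 * V + K * κ ^ 2 := by
    intro t _
    have h1 : ∫ x in ball (0 : E) R, 2 * t * Real.sqrt (f x) ≤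
        ∫ x in ball (0 : E) R, (t ^ 2 + f x) := by
      refine setIntegral_mono_on (ball_int (continuous_const.mul (Real.continuous_sqrt.comp hf)) R)
        (ball_int (continuous_const.add hf) R) measurableSet_ball fun x _ => ?_
      nlinarith [sq_nonneg (t - Real.sqrt (f x)), Real.sq_sqrt (h0 x)]
    rw [integral_const_mul, integral_add (ball_int continuous_const R) (ball_int hf R),
      setIntegral_const, smul_eq_mul] at h1
    linarith
  rcases hκ.eq_or_lt with h2 | h2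
  · rw [← h2, mul_zero]
    refine le_of_forall_pos_le_add fun ε hε => ?_
    have h3 := key (2 * ε / (V + 1)) (by positivity)
    rw [← h2] at h3
    set t : ℝ := 2 * ε / (V + 1) with ht
    have ht0 : 0 < t := by positivity
    have h4 : t * (2 * I) ≤ t * (t * V) := by nlinarith
    have h5 : 2 * I ≤ t * V := le_of_mul_le_mul_left h4 ht0
    have h6 : t * V ≤ 2 * ε := by
      rw [ht, div_mul_eq_mul_div, div_le_iff₀ (by positivity)]
      nlinarith
    linarith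
  · have h3 := key κ h2
    have h4 : κ * (2 * I) ≤ κ * (κ * (V + K)) := by nlinarith
    have h5 : 2 * I ≤ κ * (V + K) := le_of_mul_le_mul_left h4 h2
    linarith

theorem rpow_ineq {ρ C A B D : ℝ} (hρ : 0 < ρ) (hC : 1 ≤ C) :
    4 * B * (C * ρ ^ 2 * (A * (C * ρ) ^ (15 / 4 : ℝ))) =
      4 * B * C * A * C ^ (15 / 4 : ℝ) * ρ ^ (23 / 4 : ℝ) := by
  have h1 : (C * ρ) ^ (15 / 4 : ℝ) = C ^ (15 / 4 : ℝ) * ρ ^ (15 / 4 : ℝ) :=
    Real.mul_rpow (by linarith) hρ.le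
  have h2 : ρ ^ (23 / 4 : ℝ) = ρ ^ 2 * ρ ^ (15 / 4 : ℝ) := by
    rw [← Real.rpow_natCast ρ 2, ← Real.rpow_add hρ]
    congr 1
    norm_num
  rw [h1, h2]
  ring

theorem tn_nonneg (α : W → W →L[ℝ] ℝ) (z : W) : 0 ≤ tn α z :=
  norm_nonneg (fderiv ℝ α z - (fderiv ℝ α z).flip)

end GrowWAux

open GrowWAux TopCAux

theorem growW : ∃ ρ₀ κ₀ A : ℝ, 0 < ρ₀ ∧ ρ₀ ≤ 1 / 4 ∧ 0 < κ₀ ∧ κ₀ ≤ 1 / 4 ∧ 1 ≤ A ∧
    ∀ α : W → W →L[ℝ] ℝ, Conn α → Pinched κ₀ α → ∀ z : W, nsq z = 1 → ∀ ρ : ℝ, 0 < ρ → ρ ≤ ρ₀ →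
      ∫⁻ x in closedBall z ρ, ENNReal.ofReal (tn α x) ≤ ENNReal.ofReal (A * ρ ^ (23 / 4 : ℝ)) := by
  obtain ⟨r₀, κ₀, A, hr₀, hr₁, hκ₀, hκ₁, hA, hgrow⟩ := growE
  obtain ⟨C, hC, hball⟩ := ballW
  obtain ⟨B, hB, htn⟩ := tn_le 1 one_pos
  have hC0 : 0 < C := by linarith
  have hCp : 1 ≤ C ^ (15 / 4 : ℝ) := Real.one_le_rpow hC (by norm_num)
  refine ⟨min (1 / 4) (r₀ / C), κ₀, 4 * B * C * A * C ^ (15 / 4 : ℝ), by positivity,
    min_le_left _ _, hκ₀, hκ₁, ?_, ?_⟩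
  · have h1 : 1 ≤ 4 * B := by linarith
    have h2 : 1 ≤ 4 * B * C := one_le_mul_of_one_le_of_one_le h1 hC
    have h3 : 1 ≤ 4 * B * C * A := one_le_mul_of_one_le_of_one_le h2 hA
    exact one_le_mul_of_one_le_of_one_le h3 hCp
  intro α hα hP z hz ρ hρ hρ₀
  have hρ4 : ρ ≤ 1 / 4 := hρ₀.trans (min_le_left _ _)
  have hρC : C * ρ ≤ r₀ := by
    have := hρ₀.trans (min_le_right _ _)
    rw [le_div_iff₀ hC0] at this
    linarith
  obtain ⟨u, v, hzuv⟩ := exists_ON3 hz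
  set f : E → ℝ := fun y => Real.sqrt (nrm2 (fun i j => co (ch α z u v) i j y)) with hf
  have hfc : Continuous f := sq_cont (ch_smooth hzuv hα.smooth)
  have hf0 : ∀ y, 0 ≤ f y := fun y => Real.sqrt_nonneg _
  have hpt : ∀ x ∈ closedBall z ρ, ENNReal.ofReal (tn α x) ≤
      ENNReal.ofReal (4 * B) * ENNReal.ofReal (f (yc z u v x)) := by
    intro x hx
    obtain ⟨h1, h2⟩ := ball_hp hzuv hρ4 hx
    have hc : 1 / 2 ≤ ‖hp z x‖ := by
      have h3 : ‖(1 : ℂ)‖ ≤ ‖hp z x‖ + ‖hp z x - 1‖ := by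
        have : (1 : ℂ) = hp z x - (hp z x - 1) := by ring
        calc ‖(1 : ℂ)‖ = ‖hp z x - (hp z x - 1)‖ := by rw [← this]
          _ ≤ _ := norm_sub_le _ _
      rw [norm_one] at h3
      linarith
    have hc0 : hp z x ≠ 0 := by
      intro h
      rw [h, norm_zero] at hc
      linarith
    have h4 := htn α hα.smooth (fun y hy c w => hα.dd_left hy c w) z u v hzuv (yc z u v x)
      (by linarith)
    have h5 : tn α x = tn α (sig z u v (yc z u v x)) / ‖hp z x‖ ^ 2 := by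
      rw [← tn_hom hα.smooth hα.hom hc0 (sig_ne hzuv _), sig_yc hzuv hc0]
    rw [← ENNReal.ofReal_mul (by positivity)]
    refine ENNReal.ofReal_le_ofReal ?_
    rw [h5, div_le_iff₀ (by positivity)]
    have h6 : (1 : ℝ) ≤ 4 * ‖hp z x‖ ^ 2 := by nlinarith
    have h7 : 0 ≤ B * f (yc z u v x) := mul_nonneg (by linarith) (hf0 _)
    calc tn α (sig z u v (yc z u v x)) ≤ B * f (yc z u v x) := h4
      _ ≤ B * f (yc z u v x) * (4 * ‖hp z x‖ ^ 2) := le_mul_of_one_le_right h7 h6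
      _ = _ := by ring
  have hint : ∫⁻ y in ball (0 : E) (C * ρ), ENNReal.ofReal (f y) ≤
      ENNReal.ofReal (A * (C * ρ) ^ (15 / 4 : ℝ)) := by
    rw [← ofReal_integral_eq_lintegral_ofReal (ball_int hfc _)
      (Filter.Eventually.of_forall hf0)]
    exact ENNReal.ofReal_le_ofReal (hgrow α hα hP z u v hzuv (C * ρ) (by positivity) hρC)
  calc ∫⁻ x in closedBall z ρ, ENNReal.ofReal (tn α x)
      ≤ ∫⁻ x in closedBall z ρ, ENNReal.ofReal (4 * B) * ENNReal.ofReal (f (yc z u v x)) :=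
        setLIntegral_mono' measurableSet_closedBall hpt
    _ = ENNReal.ofReal (4 * B) * ∫⁻ x in closedBall z ρ, ENNReal.ofReal (f (yc z u v x)) :=
        lintegral_const_mul' _ _ ENNReal.ofReal_ne_top
    _ ≤ ENNReal.ofReal (4 * B) * (ENNReal.ofReal (C * ρ ^ 2) *
          ∫⁻ y in ball (0 : E) (C * ρ), ENNReal.ofReal (f y)) := by
        gcongr
        exact hball z u v hzuv ρ hρ hρ4 (fun y => ENNReal.ofReal (f y)) hfc.measurable.ennreal_ofReal
    _ ≤ ENNReal.ofReal (4 * B) * (ENNReal.ofReal (C * ρ ^ 2) *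
          ENNReal.ofReal (A * (C * ρ) ^ (15 / 4 : ℝ))) := by gcongr
    _ = ENNReal.ofReal (4 * B * C * A * C ^ (15 / 4 : ℝ) * ρ ^ (23 / 4 : ℝ)) := by
        rw [← ENNReal.ofReal_mul (by positivity), ← ENNReal.ofReal_mul (by positivity),
          rpow_ineq (D := 0) hρ hC]

theorem topW : ∃ C : ℝ, 1 ≤ C ∧ ∀ κ : ℝ, 0 ≤ κ → κ ≤ 1 / 4 → ∀ α : W → W →L[ℝ] ℝ, Conn α → Pinched κ α →
    ∫⁻ x in closedBall (0 : W) 1, ENNReal.ofReal (tn (fun y => α y - a0 y) x) ≤ ENNReal.ofReal (C * κ) := by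
  obtain ⟨C, hC, hball⟩ := ballT
  obtain ⟨B, hB, htn⟩ := tn_le 2 two_pos
  obtain ⟨D, hD, htop⟩ := topd 2 (by norm_num)
  set V : ℝ := volume.real (ball (0 : E) 2) with hV
  have hV0 : 0 ≤ V := ENNReal.toReal_nonneg
  refine ⟨C * (3 * (5 * B * ((V + D) / 2))) + 1, ?_, ?_⟩
  · have : 0 ≤ C * (3 * (5 * B * ((V + D) / 2))) := by positivity
    linarith
  intro κ hκ hκ4 α hα hP
  have hγ : Basic (fun y => α y - a0 y) := hα.sub a0_conn
  set γ : W → W →L[ℝ] ℝ := fun y => α y - a0 y with hγd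
  have htc := tn_cont hγ.smooth
  have hnc : Continuous fun x : W => nsq x := by
    unfold nsq
    exact continuous_finsetSum _ fun i _ => Complex.continuous_normSq.comp (continuous_apply i)
  set k : W → ℝ≥0∞ := fun x => ENNReal.ofReal (nsq x * tn γ x) with hk
  have hkm : Measurable k := by
    refine Measurable.ennreal_ofReal ?_
    exact measurable_of_continuousOn_compl_singleton 0 (hnc.continuousOn.mul htc)
  have hkh : ∀ c : ℂ, c ≠ 0 → ∀ x : W, x ≠ 0 → k (c • x) = k x := by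
    intro c hc x hx
    have hc' : ‖c‖ ≠ 0 := norm_ne_zero_iff.2 hc
    simp only [hk]
    rw [tn_hom hγ.smooth hγ.hom hc hx, ConnBAux.nsq_smul, Complex.normSq_eq_norm_sq]
    congr 1
    field_simp
  have h1 : ∫⁻ x in closedBall (0 : W) 1, ENNReal.ofReal (tn γ x) =
      ∫⁻ x in closedBall (0 : W) 1, k x / ENNReal.ofReal (nsq x) := by
    refine lintegral_congr_ae ?_
    have h20 : ∀ᵐ x ∂(volume : Measure W), x ≠ 0 := by
      rw [ae_iff]
      have : {a : W | ¬ a ≠ 0} = {0} := by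
        ext a
        simp
      rw [this]
      exact measure_singleton 0
    have h2 : ∀ᵐ x ∂(volume.restrict (closedBall (0 : W) 1)), x ≠ 0 := ae_restrict_of_ae h20
    filter_upwards [h2] with x hx
    have h3 : 0 < nsq x := ConnBAux.nsq_pos hx
    simp only [hk]
    rw [← ENNReal.ofReal_div_of_pos h3, mul_div_cancel_left₀ _ h3.ne']
  have h4 : ∀ i : Fin 3, ∫⁻ y in ball (0 : E) 2, k (sig (eb i) (eb (i + 1)) (eb (i + 2)) y) ≤
      ENNReal.ofReal (5 * B * ((V + D) / 2) * κ) := by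
    intro i
    have hON := eb_ON3 i
    set f : E → ℝ := fun y =>
      nrm2 (fun a b => co (ch γ (eb i) (eb (i + 1)) (eb (i + 2))) a b y) with hf
    have hfc : Continuous f := nrm2_cont fun a b => co_cont (ch_smooth hON hγ.smooth) a b
    have hsf : Continuous fun y => Real.sqrt (f y) := Real.continuous_sqrt.comp hfc
    have h5 : ∀ y ∈ ball (0 : E) 2, k (sig (eb i) (eb (i + 1)) (eb (i + 2)) y) ≤
        ENNReal.ofReal (5 * B * Real.sqrt (f y)) := by
      intro y hy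
      rw [mem_ball, dist_zero_right] at hy
      simp only [hk]
      refine ENNReal.ofReal_le_ofReal ?_
      have h6 := htn γ hγ.smooth (fun y hy c w => hγ.dd_left hy c w) _ _ _ hON y hy.le
      rw [nsq_sig hON]
      have h7 : 1 + ‖y‖ ^ 2 ≤ 5 := by nlinarith [norm_nonneg y]
      calc (1 + ‖y‖ ^ 2) * tn γ (sig (eb i) (eb (i + 1)) (eb (i + 2)) y)
          ≤ 5 * (B * Real.sqrt (f y)) := mul_le_mul h7 h6 (tn_nonneg _ _) (by norm_num)
        _ = _ := by ring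
    have h8 := sqrt_int hfc (fun y => nrm2_nonneg _) (by linarith) hκ (htop κ hκ hκ4 α hα hP _ _ _ hON)
    calc ∫⁻ y in ball (0 : E) 2, k (sig (eb i) (eb (i + 1)) (eb (i + 2)) y)
        ≤ ∫⁻ y in ball (0 : E) 2, ENNReal.ofReal (5 * B * Real.sqrt (f y)) :=
          setLIntegral_mono' measurableSet_ball h5
      _ = ENNReal.ofReal (∫ y in ball (0 : E) 2, 5 * B * Real.sqrt (f y)) := by
          have hg : Continuous fun y => 5 * B * Real.sqrt (f y) := continuous_const.mul hsf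
          rw [ofReal_integral_eq_lintegral_ofReal (ball_int hg _)
            (Filter.Eventually.of_forall fun y => by positivity)]
      _ ≤ ENNReal.ofReal (5 * B * ((V + D) / 2) * κ) := by
          refine ENNReal.ofReal_le_ofReal ?_
          rw [integral_const_mul, mul_assoc (5 * B)]
          exact mul_le_mul_of_nonneg_left h8 (by positivity)
  rw [h1]
  calc ∫⁻ x in closedBall (0 : W) 1, k x / ENNReal.ofReal (nsq x)
      ≤ ENNReal.ofReal C * ∑ i : Fin 3,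
        ∫⁻ y in ball (0 : E) 2, k (sig (eb i) (eb (i + 1)) (eb (i + 2)) y) := hball k hkm hkh
    _ ≤ ENNReal.ofReal C * ∑ _i : Fin 3, ENNReal.ofReal (5 * B * ((V + D) / 2) * κ) := by
        gcongr with i
        exact h4 i
    _ = ENNReal.ofReal (C * (3 * (5 * B * ((V + D) / 2) * κ))) := by
        rw [Finset.sum_const, Finset.card_univ, Fintype.card_fin, nsmul_eq_mul,
          ENNReal.ofReal_mul (show (0 : ℝ) ≤ C by linarith),
          ENNReal.ofReal_mul (show (0 : ℝ) ≤ 3 by norm_num)]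
        norm_num
    _ ≤ _ := by
        refine ENNReal.ofReal_le_ofReal ?_
        nlinarith

end Pool.Agent.Lib.Qcd
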