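import Pool.Agent.Lib.Qcd.Mor
import Pool.Agent.Lib.Qcd.GrowW
import Pool.Agent.Lib.Qcd.Pin

set_option autoImplicit false

/-!
# Hölder continuity of lifts

PROOF. `qpin` with `C ε₀ ≤ κ₀²`: `pl Φ` is `Pinched κ₀` (`κ₀` of `growW`) and `Conn` (`pl_conn`). For `x ≠ 0` let `x = r x₁`, `r = √nsq x`, `nsq x₁ = 1`: `‖fderiv ℝ Φ x‖ = ‖fderiv ℝ Φ x₁‖ ≤ C (1 + √(tn (pl Φ) x₁)) = C (1 + r √(tn (pl Φ) x))` (`norm_fderiv_hom`, `fderiv_le`, `tn_hom`).
Let `nsq z = 1` and `‖x - z‖ ≤ ρ₀`, `ρ₀` small. For `0 < s ≤ ρ₀`: all points `y` of `closedBall x s` satisfy `1/2 ≤ √nsq y ≤ 2`, so by Cauchy-Schwarz `∫_{closedBall x s} ‖fderiv ℝ Φ‖ ≤ C (|B_s| + 2 |B_s|^(1/2) (∫_{closedBall x s} tn (pl Φ))^(1/2))`; by scaling (`x = r x₁`, `1/2 ≤ r ≤ 2`, `closedBall x s = r • closedBall x₁ (s/r)`,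
`tn_hom`; or `closedBall x s ⊆ ...`) and `growW` at `x₁`, `∫_{closedBall x s} tn (pl Φ) ≤ A' s^(23/4)`, hence the bound `A'' s^(3 + 23/8) = A'' s^(47/8)` (`s ≤ 1`: `s⁶ ≤ s^(47/8)`). `morrey` with `r = ρ₀` (`Φ` is smooth on `ball z (3 ρ₀)`, which does not contain `0`).
-/

open MeasureTheory Set Metric
open scoped ContDiff ENNReal

namespace Pool.Agent.Lib.Qcd

open Pool.Agent.P28b04d Pool.Agent.Lib.Psd

namespace HolAux

theorem norm_sq_le (x : W) : ‖x‖ ^ 2 ≤ nsq x := by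
  have h0 : 0 ≤ nsq x := Finset.sum_nonneg fun k _ => Complex.normSq_nonneg _
  have h1 : ‖x‖ ≤ Real.sqrt (nsq x) := by
    rw [pi_norm_le_iff_of_nonneg (Real.sqrt_nonneg _)]
    intro k
    apply Real.le_sqrt_of_sq_le
    rw [← Complex.normSq_eq_norm_sq]
    exact Finset.single_le_sum (f := fun k => Complex.normSq (x k))
      (fun k _ => Complex.normSq_nonneg _) (Finset.mem_univ k)
  calc ‖x‖ ^ 2 ≤ Real.sqrt (nsq x) ^ 2 := by gcongr
    _ = nsq x := Real.sq_sqrt h0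

theorem nsq_le (x : W) : nsq x ≤ 3 * ‖x‖ ^ 2 := by
  have h1 : ∀ k ∈ (Finset.univ : Finset (Fin 3)), Complex.normSq (x k) ≤ ‖x‖ ^ 2 := by
    intro k _
    rw [Complex.normSq_eq_norm_sq]
    have := norm_le_pi_norm x k
    gcongr
  calc nsq x ≤ ∑ _k : Fin 3, ‖x‖ ^ 2 := Finset.sum_le_sum h1
    _ = 3 * ‖x‖ ^ 2 := by simp

theorem nsq_pos' {x : W} (hx : x ≠ 0) : 0 < nsq x := by
  have h1 : 0 < ‖x‖ := norm_pos_iff.mpr hx
  have := norm_sq_le x
  nlinarith

theorem nsq_smul' (r : ℝ) (x : W) : nsq (r • x) = r ^ 2 * nsq x := by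
  unfold nsq
  rw [Finset.mul_sum]
  refine Finset.sum_congr rfl fun k _ => ?_
  rw [Pi.smul_apply, Complex.real_smul, Complex.normSq_mul, Complex.normSq_ofReal]
  ring

theorem rsmul (r : ℝ) (x : W) : (r : ℂ) • x = r • x := by
  ext k
  simp [Complex.real_smul]

theorem finrank_W : Module.finrank ℝ W = 6 := by
  simp [W, Module.finrank_pi_fintype, Complex.finrank_real_complex]

theorem lint_scale (f : W → ℝ≥0∞) {r : ℝ} (hr : 0 < r) (x : W) (s : ℝ) :
    ∫⁻ y in closedBall (r • x) (r * s), f y =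
      ENNReal.ofReal (r ^ 6) * ∫⁻ y in closedBall x s, f (r • y) := by
  have hr0 : r ≠ 0 := hr.ne'
  have hmap := Measure.map_addHaar_smul (volume : Measure W) hr0
  rw [finrank_W] at hmap
  have habs : |(r ^ 6)⁻¹| = (r ^ 6)⁻¹ := abs_of_pos (by positivity)
  rw [habs] at hmap
  have hme : MeasurableEmbedding (fun y : W => r • y) :=
    (Homeomorph.smulOfNeZero r hr0).measurableEmbedding
  have hpre : (fun y : W => r • y) ⁻¹' closedBall (r • x) (r * s) = closedBall x s := by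
    ext y
    simp only [mem_preimage, mem_closedBall, dist_eq_norm, ← smul_sub, norm_smul, Real.norm_eq_abs,
      abs_of_pos hr]
    exact mul_le_mul_iff_right₀ hr
  have h1 : ∫⁻ y in closedBall x s, f (r • y) =
      ∫⁻ y in closedBall (r • x) (r * s), f y ∂(Measure.map (r • ·) (volume : Measure W)) := by
    rw [← hpre, hme.restrict_map, hme.lintegral_map]
  rw [h1, hmap, Measure.restrict_smul, lintegral_smul_measure, smul_eq_mul, ← mul_assoc,
    ← ENNReal.ofReal_mul (by positivity), mul_inv_cancel₀ (by positivity), ENNReal.ofReal_one, one_mul]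

theorem tn_nn (α : W → W →L[ℝ] ℝ) (x : W) : 0 ≤ tn α x := by
  unfold tn
  positivity

theorem fd_le {Φ : W → W} (h : HLoc (n := 2) Φ) {C : ℝ} (hC : 1 ≤ C)
    (hf : ∀ z : W, nsq z = 1 → ‖fderiv ℝ Φ z‖ ≤ C * (1 + Real.sqrt (tn (pl Φ) z))) {x : W} (hx : x ≠ 0)
    (hx2 : nsq x ≤ 4) {l : ℝ} (hl : 0 < l) :
    ‖fderiv ℝ Φ x‖ ≤ C * (1 + l) + C / l * tn (pl Φ) x := by
  have hp := nsq_pos' hx
  set r := Real.sqrt (nsq x) with hr
  have hr0 : 0 < r := Real.sqrt_pos.mpr hp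
  have hr2 : r ^ 2 = nsq x := Real.sq_sqrt hp.le
  set x1 : W := (r⁻¹ : ℝ) • x with hx1
  have hn1 : nsq x1 = 1 := by
    rw [hx1, nsq_smul', ← hr2]
    field_simp
  have hx1' : (r : ℂ) • x1 = x := by
    rw [rsmul, hx1, smul_smul, mul_inv_cancel₀ hr0.ne', one_smul]
  have hx10 : x1 ≠ 0 := by
    intro h0
    rw [h0, smul_zero] at hx1'
    exact hx hx1'.symm
  have hrc : (r : ℂ) ≠ 0 := by exact_mod_cast hr0.ne'
  have h1 : ‖fderiv ℝ Φ x‖ = ‖fderiv ℝ Φ x1‖ := by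
    rw [← norm_fderiv_hom h hrc hx10, hx1']
  have hcon := pl_conn h
  have h2 : tn (pl Φ) x = tn (pl Φ) x1 / r ^ 2 := by
    have := tn_hom hcon.smooth hcon.hom hrc hx10
    rw [hx1', Complex.norm_real, Real.norm_eq_abs, abs_of_pos hr0] at this
    exact this
  have h3 : tn (pl Φ) x1 = r ^ 2 * tn (pl Φ) x := by
    rw [h2]; field_simp
  have htn : 0 ≤ tn (pl Φ) x := tn_nn _ _
  have h4 : Real.sqrt (tn (pl Φ) x1) ≤ l + tn (pl Φ) x / l := by
    apply Real.sqrt_le_iff.mpr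
    constructor
    · positivity
    · rw [h3, hr2]
      have h5 : (l + tn (pl Φ) x / l) ^ 2 = (l - tn (pl Φ) x / l) ^ 2 + 4 * tn (pl Φ) x := by
        field_simp
        ring
      rw [h5]
      nlinarith [sq_nonneg (l - tn (pl Φ) x / l)]
  have h6 := hf x1 hn1
  rw [h1]
  calc ‖fderiv ℝ Φ x1‖ ≤ C * (1 + Real.sqrt (tn (pl Φ) x1)) := h6
    _ ≤ C * (1 + (l + tn (pl Φ) x / l)) := by gcongr
    _ = C * (1 + l) + C / l * tn (pl Φ) x := by ring

theorem tn_ball {α : W → W →L[ℝ] ℝ} (hα : Conn α) {ρ A : ℝ} (hρ1 : ρ ≤ 1 / 4) (hA : 1 ≤ A)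
    (hg : ∀ z : W, nsq z = 1 → ∀ s : ℝ, 0 < s → s ≤ ρ →
      ∫⁻ x in closedBall z s, ENNReal.ofReal (tn α x) ≤ ENNReal.ofReal (A * s ^ (23 / 4 : ℝ)))
    {x : W} (hx : x ≠ 0) (h1 : 4 / 25 ≤ nsq x) {s : ℝ} (hs : 0 < s) (hsρ : s ≤ ρ * (2 / 5)) :
    ∫⁻ y in closedBall x s, ENNReal.ofReal (tn α y) ≤ ENNReal.ofReal (6 * A * s ^ (23 / 4 : ℝ)) := by
  have hp := nsq_pos' hx
  set r := Real.sqrt (nsq x) with hr
  have hr0 : 0 < r := Real.sqrt_pos.mpr hp
  have hr2 : r ^ 2 = nsq x := Real.sq_sqrt hp.le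
  have hr25 : 2 / 5 ≤ r := by
    apply Real.le_sqrt_of_sq_le
    norm_num
    exact h1
  set x1 : W := (r⁻¹ : ℝ) • x with hx1
  have hn1 : nsq x1 = 1 := by
    rw [hx1, nsq_smul', ← hr2]
    field_simp
  have hx1' : r • x1 = x := by
    rw [hx1, smul_smul, mul_inv_cancel₀ hr0.ne', one_smul]
  have hsr : 0 < s / r := by positivity
  have hsr2 : s / r ≤ ρ := by
    rw [div_le_iff₀ hr0]
    have : 0 ≤ ρ := by nlinarith
    nlinarith
  have hg1 := hg x1 hn1 (s / r) hsr hsr2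
  have hxs : r * (s / r) = s := by field_simp
  have e1 := lint_scale (fun y => ENNReal.ofReal (tn α y)) hr0 x1 (s / r)
  rw [hx1', hxs] at e1
  rw [e1]
  have hrc : (r : ℂ) ≠ 0 := by exact_mod_cast hr0.ne'
  have h0 : (0 : W) ∉ closedBall x1 (s / r) := by
    intro hm
    rw [mem_closedBall, dist_eq_norm, zero_sub, norm_neg] at hm
    have h3 := nsq_le x1
    rw [hn1] at h3
    have h4 : ‖x1‖ ≤ 1 / 4 := hm.trans (hsr2.trans hρ1)
    have h5 := norm_nonneg x1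
    nlinarith
  have e2 : ∫⁻ y in closedBall x1 (s / r), ENNReal.ofReal (tn α (r • y)) =
      ENNReal.ofReal ((r ^ 2)⁻¹) * ∫⁻ y in closedBall x1 (s / r), ENNReal.ofReal (tn α y) := by
    rw [← lintegral_const_mul' _ _ ENNReal.ofReal_ne_top]
    apply setLIntegral_congr_fun measurableSet_closedBall
    intro y hy
    have hy0 : y ≠ 0 := by
      rintro rfl
      exact h0 hy
    have h5 := tn_hom hα.smooth hα.hom hrc hy0
    rw [rsmul, Complex.norm_real, Real.norm_eq_abs, abs_of_pos hr0] at h5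
    simp only
    rw [h5, ← ENNReal.ofReal_mul (by positivity)]
    congr 1
    rw [div_eq_inv_mul]
  rw [e2, ← mul_assoc, ← ENNReal.ofReal_mul (by positivity)]
  calc ENNReal.ofReal (r ^ 6 * (r ^ 2)⁻¹) * ∫⁻ y in closedBall x1 (s / r), ENNReal.ofReal (tn α y)
      ≤ ENNReal.ofReal (r ^ 6 * (r ^ 2)⁻¹) * ENNReal.ofReal (A * (s / r) ^ (23 / 4 : ℝ)) := by gcongr
    _ = ENNReal.ofReal (r ^ 6 * (r ^ 2)⁻¹ * (A * (s / r) ^ (23 / 4 : ℝ))) := by
        rw [← ENNReal.ofReal_mul (by positivity)]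
    _ ≤ ENNReal.ofReal (6 * A * s ^ (23 / 4 : ℝ)) := by
        apply ENNReal.ofReal_le_ofReal
        have e3 : r ^ 6 * (r ^ 2)⁻¹ = r ^ (4 : ℝ) := by
          have : r ^ 6 * (r ^ 2)⁻¹ = r ^ 4 := by field_simp
          rw [this]
          norm_cast
        rw [e3, Real.div_rpow hs.le hr0.le]
        have e4 : r ^ (4 : ℝ) * (A * (s ^ (23 / 4 : ℝ) / r ^ (23 / 4 : ℝ))) =
            (r ^ (4 : ℝ) / r ^ (23 / 4 : ℝ)) * A * s ^ (23 / 4 : ℝ) := by ring
        rw [e4, ← Real.rpow_sub hr0]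
        have e5 : r ^ (4 - 23 / 4 : ℝ) ≤ 6 := by
          have e6 : (4 - 23 / 4 : ℝ) = -(7 / 4) := by norm_num
          rw [e6, Real.rpow_neg hr0.le, ← Real.inv_rpow hr0.le]
          have e7 : r⁻¹ ≤ 5 / 2 := by
            rw [inv_le_comm₀ hr0 (by norm_num)]
            norm_num
            exact hr25
          calc (r⁻¹) ^ (7 / 4 : ℝ) ≤ (5 / 2 : ℝ) ^ (7 / 4 : ℝ) := by
                apply Real.rpow_le_rpow (by positivity) e7 (by norm_num)
            _ ≤ 6 := by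
                rw [show (7 / 4 : ℝ) = 7 * (1 / 4 : ℝ) by norm_num, Real.rpow_mul (by norm_num)]
                have : ((5 / 2 : ℝ) ^ (7 : ℝ)) ≤ (6 : ℝ) ^ (4 : ℝ) := by norm_num
                calc ((5 / 2 : ℝ) ^ (7 : ℝ)) ^ (1 / 4 : ℝ) ≤ ((6 : ℝ) ^ (4 : ℝ)) ^ (1 / 4 : ℝ) := by
                      apply Real.rpow_le_rpow (by positivity) this (by norm_num)
                  _ = 6 := by
                      rw [← Real.rpow_mul (by norm_num)]
                      norm_num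
        have : 0 ≤ A * s ^ (23 / 4 : ℝ) := by positivity
        nlinarith

end HolAux

open HolAux in
theorem hol : ∃ ρ₀ ε₀ A : ℝ, 0 < ρ₀ ∧ ρ₀ ≤ 1 / 16 ∧ 0 < ε₀ ∧ 1 ≤ A ∧ ∀ Φ : W → W, NL Φ → QCL ε₀ Φ →
    (∀ z v : W, nsq z = 1 → |pl Φ z v - a0 z v| ≤ ‖v‖) → ∀ z x : W, nsq z = 1 → ‖x - z‖ ≤ ρ₀ →
      ‖Φ x - Φ z‖ ≤ A * ‖x - z‖ ^ (7 / 8 : ℝ) := by
  obtain ⟨C1, hC1, hpin⟩ := qpin
  obtain ⟨ρ1, κ0, A0, hρ1, hρ1', hκ0, hκ0', hA0, hgrow⟩ := growW
  obtain ⟨C2, hC2, hfd⟩ := fderiv_le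
  obtain ⟨C3, hC3, hmor⟩ := morrey
  set V : ℝ := (volume (ball (0 : W) 1)).toReal with hV
  have hV0 : 0 ≤ V := ENNReal.toReal_nonneg
  have hC1p : 0 < C1 := by linarith
  have hC2p : 0 < C2 := by linarith
  have hC3p : 0 < C3 := by linarith
  have hA0p : 0 < A0 := by linarith
  set ρ₀ := min (1 / 16) (ρ1 * (2 / 5)) with hρ₀
  set ε₀ := min (min (1 / C1) (1 / C2)) (κ0 ^ 2 / C1) with hε₀
  have hρp : 0 < ρ₀ := by positivity
  have hεp : 0 < ε₀ := by positivity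
  set A2 : ℝ := C2 * (2 * V + 6 * A0) with hA2
  have hA2p : 1 ≤ A2 := by
    rw [hA2]; nlinarith
  refine ⟨ρ₀, ε₀, C3 * A2, hρp, min_le_left _ _, hεp, by nlinarith, ?_⟩
  intro Φ hΦ hq hb z x hz hxz
  have hcon := pl_conn hΦ.loc
  have hε1 : ε₀ ≤ 1 / C1 := (min_le_left _ _).trans (min_le_left _ _)
  have hε2 : ε₀ ≤ 1 / C2 := (min_le_left _ _).trans (min_le_right _ _)
  have hε3 : C1 * ε₀ ≤ κ0 ^ 2 := by
    have : ε₀ ≤ κ0 ^ 2 / C1 := min_le_right _ _
    rw [le_div_iff₀ hC1p] at this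
    linarith
  have hP : Pinched κ0 (pl Φ) := hpin ε₀ hεp.le hε1 Φ hΦ.loc hq κ0 hε3
  have hg := hgrow (pl Φ) hcon hP
  have hf := hfd ε₀ hεp.le hε2 Φ hΦ hq hb
  -- geometry
  have hzn : 1 / 2 < ‖z‖ := by
    have := nsq_le z
    rw [hz] at this
    have h5 := norm_nonneg z
    nlinarith
  have hz1 : ‖z‖ ≤ 1 := by
    have := norm_sq_le z
    rw [hz] at this
    have h5 := norm_nonneg z
    nlinarith
  have hρ16 : ρ₀ ≤ 1 / 16 := min_le_left _ _
  have hρ1r : ρ₀ ≤ ρ1 * (2 / 5) := min_le_right _ _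
  refine hmor Φ z ρ₀ A2 hρp (by linarith) ?_ ?_ x hxz
  · refine (hΦ.loc.smooth.of_le (by exact_mod_cast le_top)).mono ?_
    intro y hy
    rw [mem_compl_iff, mem_singleton_iff]
    rintro rfl
    rw [mem_ball, dist_eq_norm, zero_sub, norm_neg] at hy
    linarith
  · intro x' hx' s hs hsρ
    have hx'n : ‖x'‖ ≤ 17 / 16 := by
      have : ‖x'‖ ≤ ‖x' - z‖ + ‖z‖ := by simpa using norm_add_le (x' - z) z
      linarith
    have hx'z : 7 / 16 < ‖x'‖ := by
      have : ‖z‖ ≤ ‖x' - z‖ + ‖x'‖ := by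
        have := norm_sub_norm_le z (x')
        rw [norm_sub_rev z x'] at this
        linarith
      linarith
    have hx'0 : x' ≠ 0 := by
      rintro rfl
      simp at hx'z
      linarith
    have hx'q : 4 / 25 ≤ nsq x' := by
      have := norm_sq_le x'
      nlinarith
    have hs1 : s ≤ 1 := by linarith
    set l : ℝ := s ^ (-(1 / 8) : ℝ) with hl
    have hlp : 0 < l := Real.rpow_pos_of_pos hs _
    have hball : ∀ y ∈ closedBall x' s, ‖fderiv ℝ Φ y‖ₑ ≤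
        ENNReal.ofReal (C2 * (1 + l)) + ENNReal.ofReal (C2 / l) * ENNReal.ofReal (tn (pl Φ) y) := by
      intro y hy
      rw [mem_closedBall, dist_eq_norm] at hy
      have hyn : ‖y‖ ≤ 9 / 8 := by
        have : ‖y‖ ≤ ‖y - x'‖ + ‖x'‖ := by simpa using norm_add_le (y - x') x'
        linarith
      have hy0 : y ≠ 0 := by
        rintro rfl
        rw [zero_sub, norm_neg] at hy
        linarith
      have hy4 : nsq y ≤ 4 := by
        have := nsq_le y
        have h5 := norm_nonneg y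
        nlinarith
      have h6 := fd_le hΦ.loc hC2 hf hy0 hy4 hlp
      have htn : 0 ≤ tn (pl Φ) y := tn_nn _ _
      rw [← ofReal_norm, ← ENNReal.ofReal_mul (by positivity), ← ENNReal.ofReal_add (by positivity) (by positivity)]
      exact ENNReal.ofReal_le_ofReal h6
    have hvol : volume (closedBall x' s) = ENNReal.ofReal (s ^ 6 * V) := by
      rw [Measure.addHaar_closedBall _ _ hs.le, finrank_W, ENNReal.ofReal_mul (by positivity), hV,
        ENNReal.ofReal_toReal measure_ball_lt_top.ne]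
    have htb := tn_ball hcon hρ1' hA0 hg hx'0 hx'q hs (hsρ.trans hρ1r)
    calc ∫⁻ y in closedBall x' s, ‖fderiv ℝ Φ y‖ₑ
        ≤ ∫⁻ y in closedBall x' s, (ENNReal.ofReal (C2 * (1 + l)) +
            ENNReal.ofReal (C2 / l) * ENNReal.ofReal (tn (pl Φ) y)) :=
          setLIntegral_mono' measurableSet_closedBall hball
      _ = ENNReal.ofReal (C2 * (1 + l)) * volume (closedBall x' s) +
            ENNReal.ofReal (C2 / l) * ∫⁻ y in closedBall x' s, ENNReal.ofReal (tn (pl Φ) y) := by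
          rw [lintegral_add_left measurable_const, setLIntegral_const, lintegral_const_mul' _ _ ENNReal.ofReal_ne_top]
      _ ≤ ENNReal.ofReal (C2 * (1 + l)) * ENNReal.ofReal (s ^ 6 * V) +
            ENNReal.ofReal (C2 / l) * ENNReal.ofReal (6 * A0 * s ^ (23 / 4 : ℝ)) := by
          rw [hvol]
          gcongr
      _ = ENNReal.ofReal (C2 * (1 + l) * (s ^ 6 * V) + C2 / l * (6 * A0 * s ^ (23 / 4 : ℝ))) := by
          rw [← ENNReal.ofReal_mul (by positivity), ← ENNReal.ofReal_mul (by positivity),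
            ← ENNReal.ofReal_add (by positivity) (by positivity)]
      _ ≤ ENNReal.ofReal (A2 * s ^ (47 / 8 : ℝ)) := by
          apply ENNReal.ofReal_le_ofReal
          have e1 : C2 / l * (6 * A0 * s ^ (23 / 4 : ℝ)) = C2 * (6 * A0) * s ^ (47 / 8 : ℝ) := by
            have : s ^ (23 / 4 : ℝ) / l = s ^ (47 / 8 : ℝ) := by
              rw [hl, ← Real.rpow_sub hs]
              norm_num
            rw [← this]
            ring
          have e2 : l * s ^ 6 = s ^ (47 / 8 : ℝ) := by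
            rw [hl, ← Real.rpow_natCast s 6, ← Real.rpow_add hs]
            norm_num
          have e3 : s ^ 6 ≤ s ^ (47 / 8 : ℝ) := by
            rw [← Real.rpow_natCast s 6]
            apply Real.rpow_le_rpow_of_exponent_ge hs hs1
            norm_num
          have e4 : C2 * (1 + l) * (s ^ 6 * V) = C2 * V * (s ^ 6 + l * s ^ 6) := by ring
          rw [e1, e4, e2, hA2]
          have h7 : C2 * V * (s ^ 6 + s ^ (47 / 8 : ℝ)) ≤ C2 * V * (s ^ (47 / 8 : ℝ) + s ^ (47 / 8 : ℝ)) := by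
            gcongr
          nlinarith

end Pool.Agent.Lib.Qcd
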