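import Pool.Agent.Lib.Qcd.GDefA
import Pool.Agent.Lib.Qcd.Hol

set_option autoImplicit false

/-!
# The chart of a lift near its centre

PROOF. `hol` gives `ρ', ε₀, A'`. `sig z u v x - z = Lf u v x`, `‖Lf u v x‖ ≤ 2 ‖x‖` (`ChartAAux.Lf_norm`), so for `2 ‖x‖ ≤ ρ'`: `‖Φ (sig x) - Φ z‖ ≤ 2 A' ‖x‖ ^ (7/8)`. `lamG - 1 = hp (Φ z) (Φ (sig x) - Φ z)` (`hp (Φ z) (Φ z) = 1`), `hp p (Φ (sig x)) = hp p (Φ (sig x) - Φ z)` (`hp p (Φ z) = 0`), likewise for `q`, and `|hp a w| ≤ √(nsq w) ≤ 2 ‖w‖` for unit `a`.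
So `‖lamG - 1‖ ≤ 4 A' ‖x‖ ^ (7/8)`, which is at most `1/2` for `‖x‖ ≤ ρ₀` small, and then `√(∑ Gc²) ≤ 2 · 4 A' ‖x‖ ^ (7/8) · 2`.
-/

open MeasureTheory Set Metric
open scoped ContDiff ENNReal

namespace Pool.Agent.Lib.Qcd

open Pool.Agent.P28b04d Pool.Agent.Lib.Psd

namespace CtrlAux

theorem hp_norm_le (a b : W) : ‖hp a b‖ ≤ 3 * ‖a‖ * ‖b‖ := by
  unfold hp
  refine (norm_sum_le _ _).trans ?_
  have h : ∀ k ∈ (Finset.univ : Finset (Fin 3)), ‖star (a k) * b k‖ ≤ ‖a‖ * ‖b‖ := by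
    intro k _
    rw [norm_mul, norm_star]
    exact mul_le_mul (norm_le_pi_norm a k) (norm_le_pi_norm b k) (norm_nonneg _) (norm_nonneg _)
  refine (Finset.sum_le_card_nsmul _ _ _ h).trans ?_
  simp
  linarith

theorem hp_sub_right (a b c : W) : hp a (b - c) = hp a b - hp a c := by
  have h := hp_add_right a (b - c) c
  rw [sub_add_cancel] at h
  rw [h]
  ring

theorem main {Φ : W → W} {z u v p q : W} (h' : ON3 (Φ z) p q) {x : E} {B : ℝ}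
    (hB : ‖Φ (sig z u v x) - Φ z‖ ≤ B) (hB' : 3 * B ≤ 1 / 2) :
    ‖lamG Φ z u v x - 1‖ ≤ 3 * B ∧ Real.sqrt (∑ a, Gc Φ z u v p q x a ^ 2) ≤ 9 * B ∧
      lamG Φ z u v x ≠ 0 := by
  have hpz : hp p (Φ z) = 0 := by rw [← hp_star, h'.zu, star_zero]
  have hqz : hp q (Φ z) = 0 := by rw [← hp_star, h'.zv, star_zero]
  obtain ⟨nz, np, nq⟩ := norm_le_one h'
  have hn : ∀ a : W, ‖a‖ ≤ 1 → ‖hp a (Φ (sig z u v x) - Φ z)‖ ≤ 3 * B := by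
    intro a ha
    refine (hp_norm_le _ _).trans ?_
    have h1 : ‖a‖ * ‖Φ (sig z u v x) - Φ z‖ ≤ 1 * B :=
      mul_le_mul ha hB (norm_nonneg _) zero_le_one
    linarith
  have hB0 : 0 ≤ B := (norm_nonneg _).trans hB
  have hlam : ‖lamG Φ z u v x - 1‖ ≤ 3 * B := by
    have := hn _ nz
    rwa [hp_sub_right, h'.zz] at this
  have hlow : 1 / 2 ≤ ‖lamG Φ z u v x‖ := by
    have h1 : ‖(1 : ℂ)‖ ≤ ‖lamG Φ z u v x‖ + ‖lamG Φ z u v x - 1‖ := by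
      have := norm_sub_le (lamG Φ z u v x) (lamG Φ z u v x - 1)
      rwa [sub_sub_cancel] at this
    rw [norm_one] at h1
    linarith
  have hne : lamG Φ z u v x ≠ 0 := by
    intro h0
    rw [h0, norm_zero] at hlow
    linarith
  have hP : ∀ a : W, ‖a‖ ≤ 1 → hp a (Φ z) = 0 →
      ‖hp a (Φ (sig z u v x)) / lamG Φ z u v x‖ ≤ 6 * B := by
    intro a ha h0
    have h1 := hn a ha
    rw [hp_sub_right, h0, sub_zero] at h1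
    rw [norm_div, div_le_iff₀ (by linarith)]
    calc ‖hp a (Φ (sig z u v x))‖ ≤ 3 * B := h1
      _ = 6 * B * (1 / 2) := by ring
      _ ≤ 6 * B * ‖lamG Φ z u v x‖ := mul_le_mul_of_nonneg_left hlow (by linarith)
  refine ⟨hlam, ?_, hne⟩
  have hp1 := hP p np hpz
  have hq1 := hP q nq hqz
  rw [Real.sqrt_le_left (by linarith)]
  have e1 : ∑ a, Gc Φ z u v p q x a ^ 2 =
      ‖hp p (Φ (sig z u v x)) / lamG Φ z u v x‖ ^ 2 +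
        ‖hp q (Φ (sig z u v x)) / lamG Φ z u v x‖ ^ 2 := by
    rw [← Complex.normSq_eq_norm_sq, ← Complex.normSq_eq_norm_sq, Complex.normSq_apply,
      Complex.normSq_apply, Fin.sum_univ_four]
    simp only [Gc, Matrix.cons_val_zero, Matrix.cons_val_one, Matrix.cons_val]
    ring
  rw [e1]
  have h3 := norm_nonneg (hp p (Φ (sig z u v x)) / lamG Φ z u v x)
  have h4 := norm_nonneg (hp q (Φ (sig z u v x)) / lamG Φ z u v x)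
  nlinarith

end CtrlAux

theorem ctrlG : ∃ ρ₀ ε₀ A : ℝ, 0 < ρ₀ ∧ ρ₀ ≤ 1 / 16 ∧ 0 < ε₀ ∧ 1 ≤ A ∧ A * ρ₀ ^ (7 / 8 : ℝ) ≤ 1 / 2 ∧
    ∀ Φ : W → W, NL Φ → QCL ε₀ Φ → (∀ z v : W, nsq z = 1 → |pl Φ z v - a0 z v| ≤ ‖v‖) →
      ∀ z u v p q : W, ON3 z u v → ON3 (Φ z) p q → ∀ x : E, ‖x‖ ≤ ρ₀ →
        ‖lamG Φ z u v x - 1‖ ≤ A * ‖x‖ ^ (7 / 8 : ℝ) ∧
          Real.sqrt (∑ a, Gc Φ z u v p q x a ^ 2) ≤ A * ‖x‖ ^ (7 / 8 : ℝ) ∧ lamG Φ z u v x ≠ 0 := by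
  obtain ⟨ρ', ε₀, A', hρ', hρ'1, hε₀, hA', hhol⟩ := hol
  set A : ℝ := 18 * A' with hA
  have hA1 : 1 ≤ A := by rw [hA]; linarith
  set t : ℝ := 1 / (2 * A) with ht
  have ht0 : 0 < t := by positivity
  have ht1 : t ≤ 1 := by
    rw [ht, div_le_one (by linarith)]
    linarith
  set ρ₀ : ℝ := min (ρ' / 2) (t ^ 2) with hρ₀
  have hρ₀0 : 0 < ρ₀ := lt_min (by linarith) (by positivity)
  have hρ₀1 : ρ₀ ≤ ρ' / 2 := min_le_left _ _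
  have hρ₀2 : ρ₀ ≤ t ^ 2 := min_le_right _ _
  have hAρ : A * ρ₀ ^ (7 / 8 : ℝ) ≤ 1 / 2 := by
    have h1 : ρ₀ ^ (7 / 8 : ℝ) ≤ (t ^ 2) ^ (7 / 8 : ℝ) :=
      Real.rpow_le_rpow hρ₀0.le hρ₀2 (by norm_num)
    have h2 : (t ^ 2) ^ (7 / 8 : ℝ) ≤ t := by
      rw [← Real.rpow_natCast, ← Real.rpow_mul ht0.le]
      calc t ^ (((2 : ℕ) : ℝ) * (7 / 8 : ℝ)) ≤ t ^ (1 : ℝ) :=
            Real.rpow_le_rpow_of_exponent_ge ht0 ht1 (by norm_num)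
        _ = t := Real.rpow_one t
    have h3 : A * t = 1 / 2 := by
      rw [ht]
      field_simp
    calc A * ρ₀ ^ (7 / 8 : ℝ) ≤ A * t := mul_le_mul_of_nonneg_left (h1.trans h2) (by linarith)
      _ = 1 / 2 := h3
  refine ⟨ρ₀, ε₀, A, hρ₀0, by linarith, hε₀, hA1, hAρ, ?_⟩
  intro Φ hΦ hq hpl z u v p q h h' x hx
  have hz : nsq z = 1 := by
    have h1 := nsq_eq_hp z
    rw [h.zz] at h1
    exact_mod_cast h1
  have hsig : sig z u v x - z = Lf u v x := by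
    rw [sig, add_sub_cancel_left]
  have hL := Lf_norm h x
  have hxn := norm_nonneg x
  have h1 := hhol Φ hΦ hq hpl z (sig z u v x) hz (by rw [hsig]; linarith)
  rw [hsig] at h1
  have h2 : ‖Lf u v x‖ ^ (7 / 8 : ℝ) ≤ 2 * ‖x‖ ^ (7 / 8 : ℝ) := by
    calc ‖Lf u v x‖ ^ (7 / 8 : ℝ) ≤ (2 * ‖x‖) ^ (7 / 8 : ℝ) :=
          Real.rpow_le_rpow (norm_nonneg _) hL (by norm_num)
      _ = (2 : ℝ) ^ (7 / 8 : ℝ) * ‖x‖ ^ (7 / 8 : ℝ) := Real.mul_rpow zero_le_two hxn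
      _ ≤ 2 * ‖x‖ ^ (7 / 8 : ℝ) := by
          refine mul_le_mul_of_nonneg_right ?_ (Real.rpow_nonneg hxn _)
          calc (2 : ℝ) ^ (7 / 8 : ℝ) ≤ (2 : ℝ) ^ (1 : ℝ) :=
                Real.rpow_le_rpow_of_exponent_le one_le_two (by norm_num)
            _ = 2 := Real.rpow_one 2
  have hX0 : 0 ≤ ‖x‖ ^ (7 / 8 : ℝ) := Real.rpow_nonneg hxn _
  have hXρ : ‖x‖ ^ (7 / 8 : ℝ) ≤ ρ₀ ^ (7 / 8 : ℝ) := Real.rpow_le_rpow hxn hx (by norm_num)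
  have h3 : ‖Φ (sig z u v x) - Φ z‖ ≤ 2 * A' * ‖x‖ ^ (7 / 8 : ℝ) := by
    refine h1.trans ?_
    have := mul_le_mul_of_nonneg_left h2 (by linarith : (0 : ℝ) ≤ A')
    linarith
  have h4 : A * ‖x‖ ^ (7 / 8 : ℝ) ≤ 1 / 2 :=
    (mul_le_mul_of_nonneg_left hXρ (by linarith)).trans hAρ
  have h5 : 0 ≤ A' * ‖x‖ ^ (7 / 8 : ℝ) := by positivity
  have e : A * ‖x‖ ^ (7 / 8 : ℝ) = 18 * (A' * ‖x‖ ^ (7 / 8 : ℝ)) := by rw [hA]; ring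
  have e2 : 2 * A' * ‖x‖ ^ (7 / 8 : ℝ) = 2 * (A' * ‖x‖ ^ (7 / 8 : ℝ)) := by ring
  obtain ⟨g1, g2, g3⟩ := CtrlAux.main (p := p) (q := q) h' h3 (by rw [e2]; linarith)
  rw [e2] at g1 g2
  exact ⟨g1.trans (by linarith), g2.trans (by linarith), g3⟩

end Pool.Agent.Lib.Qcd
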