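import Pool.Agent.Lib.Psd.AmbB
import Pool.Agent.Lib.Psd.TopC
import Pool.Agent.Lib.P28b04d.Fam

set_option autoImplicit false

/-!
# Quasiconformal diffeomorphisms of the projective plane: definitions

`frob`: squared Frobenius norm of a matrix (on `Tan P` this is twice the Fubini-Study metric up to a constant). `QC K F`: at every point of `ℂP²` the differential of `F` distorts the ratio of two lengths at most by the factor `K`.
`HLoc Φ` (from `P28b04d`): homogeneous lift. `hd Φ z v`: the derivative of a lift modulo the line of `Φ z`; `pl Φ` the pull-back of the connection form `a0`; `QCL ε Φ`: the horizontal derivative is conformal up to the factor `1 + ε`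
(for squared lengths). `NL Φ`: a lift preserving the Hermitian length. `tn α z`: norm of `dα` at `z`. `bb Φ z = dΦ_z ∘ i - i ∘ dΦ_z`. Matrices: the rows `L i` of `L : Fin 4 → Fin 4 → ℝ` are vectors of `ℝ⁴ = ℂ²`;
`omg L i j = 2 Im ⟨L i, L j⟩` the pull-back of `2 ω`; `nc ε L`: near conformal; `J0` multiplication by `i`; `dJ J L` the deviation of `L` from `J`-linearity.
-/

open MeasureTheory Set Metric
open scoped ContDiff ENNReal

namespace Pool.Agent.Lib.Qcd

open Pool.Agent.P28b04d Pool.Agent.Lib.Psd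

/-- Squared Frobenius norm. -/
def frob (Y : Mat) : ℝ := ∑ i, ∑ j, Complex.normSq (Y i j)

/-- `K`-quasiconformal on `ℂP²` for the Fubini-Study metric. -/
def QC (K : ℝ) (F : Mat → Mat) : Prop :=
  ∀ P ∈ CP 2, ∀ Y ∈ Tan P, ∀ Z ∈ Tan P, frob Y ≤ frob Z →
    frob (fderiv ℝ F P Y) ≤ K ^ 2 * frob (fderiv ℝ F P Z)

/-- Pull-back of the connection form by a lift. -/
noncomputable def pl (Φ : W → W) (z : W) : W →L[ℝ] ℝ := (a0 (Φ z)).comp (fderiv ℝ Φ z)

/-- Horizontal part of the derivative of a lift. -/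
noncomputable def hd (Φ : W → W) (z v : W) : W :=
  fderiv ℝ Φ z v - (hp (Φ z) (fderiv ℝ Φ z v) / (nsq (Φ z) : ℂ)) • Φ z

/-- The horizontal derivative is conformal up to `1 + ε`. -/
def QCL (ε : ℝ) (Φ : W → W) : Prop := ∀ z v w : W, nsq z = 1 → hp z v = 0 → hp z w = 0 → nsq v ≤ nsq w →
  nsq (hd Φ z v) ≤ (1 + ε) * nsq (hd Φ z w)

/-- Lifts preserving the Hermitian length. -/
structure NL (Φ : W → W) : Prop where
  loc : HLoc (n := 2) Φ
  nrm : ∀ z : W, nsq (Φ z) = nsq z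

/-- Norm of the exterior derivative. -/
noncomputable def tn (α : W → W →L[ℝ] ℝ) (z : W) : ℝ := ‖fderiv ℝ α z - (fderiv ℝ α z).flip‖

/-- Multiplication by `i`. -/
noncomputable def mI : W →L[ℝ] W := (Complex.I • ContinuousLinearMap.id ℂ W).restrictScalars ℝ

/-- Deviation of the derivative from complex linearity. -/
noncomputable def bb (Φ : W → W) (z : W) : W →L[ℝ] W := (fderiv ℝ Φ z).comp mI - mI.comp (fderiv ℝ Φ z)

/-- Pull-back of `2 ω` by the map with rows `L i`. -/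
def omg (L : Fin 4 → Fin 4 → ℝ) (i j : Fin 4) : ℝ :=
  2 * (L i 0 * L j 1 - L i 1 * L j 0 + (L i 2 * L j 3 - L i 3 * L j 2))

/-- Near conformal. -/
def nc (ε : ℝ) (L : Fin 4 → Fin 4 → ℝ) : Prop := ∀ x y : Fin 4 → ℝ, ∑ i, x i ^ 2 ≤ ∑ i, y i ^ 2 →
  ∑ a, (∑ i, x i * L i a) ^ 2 ≤ (1 + ε) * ∑ a, (∑ i, y i * L i a) ^ 2

/-- Multiplication by `i` on `ℝ⁴ = ℂ²`. -/
def J0 (y : Fin 4 → ℝ) : Fin 4 → ℝ := ![-y 1, y 0, -y 3, y 2]

/-- Deviation from `J`-linearity. -/
def dJ (J L : Fin 4 → Fin 4 → ℝ) (i a : Fin 4) : ℝ := ∑ j, J j i * L j a - J0 (L i) a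

/-- Chart coordinate of a point of `W`. -/
noncomputable def yc (z u v x : W) : E :=
  !₂[(hp u x / hp z x).re, (hp u x / hp z x).im, (hp v x / hp z x).re, (hp v x / hp z x).im]

/-- Standard basis vectors of `ℂ³`. -/
def eb (i : Fin 3) : W := Pi.single i 1

/-- The lift in a chart: coefficient of `Φ z`. -/
noncomputable def lamG (Φ : W → W) (z u v : W) (x : E) : ℂ := hp (Φ z) (Φ (sig z u v x))

/-- The lift in an affine chart of the target centred at `Φ z`. -/
noncomputable def Gc (Φ : W → W) (z u v p q : W) (x : E) : Fin 4 → ℝ :=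
  ![(hp p (Φ (sig z u v x)) / lamG Φ z u v x).re, (hp p (Φ (sig z u v x)) / lamG Φ z u v x).im,
    (hp q (Φ (sig z u v x)) / lamG Φ z u v x).re, (hp q (Φ (sig z u v x)) / lamG Φ z u v x).im]

/-- First derivatives of four functions. -/
noncomputable def dm (G : Fin 4 → E → ℝ) (x : E) (i a : Fin 4) : ℝ := pd i (G a) x

/-- First derivatives of `Gc`. -/
noncomputable def DG (Φ : W → W) (z u v p q : W) (x : E) : Fin 4 → Fin 4 → ℝ :=
  dm (fun a y => Gc Φ z u v p q y a) x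

/-- Kernels on `W`: `φ` radial, `dG_x v = - Re ⟨x, v⟩ φ x`. -/
structure KW (φ G : W → ℝ) : Prop where
  sφ : ContDiff ℝ ∞ φ
  sG : ContDiff ℝ ∞ G
  nn : ∀ x, 0 ≤ φ x
  zφ : ∀ x, 1 ≤ ‖x‖ → φ x = 0
  zG : ∀ x, 1 ≤ ‖x‖ → G x = 0
  int : ∫ x, φ x = 1
  rot : ∀ c : ℂ, ‖c‖ = 1 → ∀ x, φ (c • x) = φ x
  der : ∀ x v, fderiv ℝ G x v = -((hp x v).re * φ x)

/-- Average of the Poincaré primitives of a one-form with base points distributed by `ν`. -/
noncomputable def hom1 (ν : W → ℝ) (β : W → W →L[ℝ] ℝ) (z : W) : ℝ :=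
  ∫ y, ν y * ∫ t in (0 : ℝ)..1, β (y + t • (z - y)) (z - y)

end Pool.Agent.Lib.Qcd
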