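import Pool.Agent.Lib.Psd.FlatC
import Pool.Agent.Lib.Qcd.Defs

set_option autoImplicit false

/-!
# Growth of the constants of a flat function, and of the curvature

PROOFS. `growT`: for `r / 2 ≤ r' ≤ r ≤ r₀`: on `ball 0 r'`, with `V = volume.real (ball 0 1)`: `V r'⁴ (c r k - c r' k)² ≤ 2 ∫_{B(r')} (T k - c r k)² + 2 ∫_{B(r')} (T k - c r' k)² ≤ 2 η₀² (16 ‖c r‖² + ‖c r'‖²) r'⁴` (`r⁴ ≤ 16 r'⁴`), so
`‖c r - c r'‖ ≤ C η₀ (‖c r‖ + ‖c r'‖)` and, for `η₀` small, `‖c r‖` and `‖c r'‖` differ by a factor at most `2^(1/8)`. Iterate: `s ≤ r`, `2^m s ≤ r < 2^(m+1) s`: `m + 1` steps (`r, r/2, ..., r/2^m, s`), factor `2^((m+1)/8) ≤ 2^(1/8) (r/s)^(1/8) ≤ 2 (r/s)^(1/8)`.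
`growE`: take `η₀` from `growT` with `K = Fin 4 × Fin 4`; `flatc (η₀ / 4)` gives `r₀, κ` and at every scale `c` with `∫ (co - c i j)² ≤ (η₀/4)² nrm2 c r⁴`, `nrm2 c ≤ 16 ‖c‖²`; at the scale `r₁ ≤ r₀`: `topc`: `∫_{ball 0 r₁} (co - c0 i j)² ≤ C (κ² + r₁⁶)`; choose `r₁` with `C r₁² ≤ 1/100` and then
`κ₀ ≤ r₁³` (`Pinched` is monotone in `κ`): so `|c(r₁) - c0|` is at most `1 + η₀ ‖c(r₁)‖`, `‖c(r₁)‖ ≤ 10`. By `growT` `‖c(r)‖ ≤ 20 r^(-1/8)`, and `∫_{ball 0 r} √nrm2 ≤ ∑ ∫ |co - c| + 16 ‖c‖ V r⁴ ≤ A r⁴ r^(-1/8) ≤ A r^(15/4)` (Cauchy-Schwarz, `r ≤ 1`).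
-/

open MeasureTheory Set Metric
open scoped ContDiff ENNReal

namespace Pool.Agent.Lib.Qcd

open Pool.Agent.P28b04d Pool.Agent.Lib.Psd

namespace GrowAux

open FlatCAux

theorem two_const {f : E → ℝ} (hf : Continuous f) {r : ℝ} (hr : 0 < r) (a b : ℝ) :
    r ^ 4 * (a - b) ^ 2 ≤ 2 * (∫ x in ball (0 : E) r, (f x - a) ^ 2) +
      2 * ∫ x in ball (0 : E) r, (f x - b) ^ 2 := by
  have ca : Continuous fun x => (f x - a) ^ 2 := (hf.sub continuous_const).pow 2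
  have cb : Continuous fun x => (f x - b) ^ 2 := (hf.sub continuous_const).pow 2
  have h1 : ∫ _x in ball (0 : E) r, (a - b) ^ 2 ≤
      ∫ x in ball (0 : E) r, (2 * (f x - a) ^ 2 + 2 * (f x - b) ^ 2) :=
    imono continuous_const ((ca.const_mul 2).add (cb.const_mul 2)) fun x _ => by
      have := sq_nonneg ((f x - a) + (f x - b))
      show (a - b) ^ 2 ≤ 2 * (f x - a) ^ 2 + 2 * (f x - b) ^ 2
      nlinarith
  rw [setIntegral_const, smul_eq_mul, integral_add ((intb ca r).const_mul 2)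
    ((intb cb r).const_mul 2), integral_const_mul, integral_const_mul] at h1
  have h2 := mul_le_mul_of_nonneg_right (volr hr) (sq_nonneg (a - b))
  exact h2.trans h1

theorem bmono {f : E → ℝ} (hf : Continuous f) (h0 : ∀ x, 0 ≤ f x) {r' r : ℝ} (h : r' ≤ r) :
    ∫ x in ball (0 : E) r', f x ≤ ∫ x in ball (0 : E) r, f x :=
  setIntegral_mono_set (intb hf r) (ae_of_all _ h0) (ball_subset_ball h).eventuallyLE

theorem step {K : Type} [Fintype K] {T : K → E → ℝ} (hT : ∀ k, Continuous (T k)) {η r₀ : ℝ}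
    (hη : 0 ≤ η) {c : ℝ → K → ℝ} (h : ∀ r : ℝ, 0 < r → r ≤ r₀ → ∀ k,
      ∫ x in ball (0 : E) r, (T k x - c r k) ^ 2 ≤ (η * ‖c r‖) ^ 2 * r ^ 4) {r' r : ℝ}
    (h0 : 0 < r') (h1 : r / 2 ≤ r') (h2 : r' ≤ r) (h3 : r ≤ r₀) :
    ‖c r - c r'‖ ≤ 6 * η * (‖c r‖ + ‖c r'‖) := by
  have hr : 0 < r := h0.trans_le h2
  rw [pi_norm_le_iff_of_nonneg (by positivity)]
  intro k
  rw [Pi.sub_apply, Real.norm_eq_abs]
  apply abs_le_of_sq_le_sq _ (by positivity)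
  have g1 := two_const (hT k) h0 (c r k) (c r' k)
  have g2 : ∫ x in ball (0 : E) r', (T k x - c r k) ^ 2 ≤
      ∫ x in ball (0 : E) r, (T k x - c r k) ^ 2 :=
    bmono (((hT k).sub continuous_const).pow 2) (fun x => sq_nonneg _) h2
  have g3 := h r hr h3 k
  have g4 := h r' h0 (h2.trans h3) k
  have g5 : r ^ 4 ≤ 16 * r' ^ 4 := by
    have : r ^ 4 ≤ (2 * r') ^ 4 := pow_le_pow_left₀ hr.le (by linarith) 4
    calc r ^ 4 ≤ (2 * r') ^ 4 := this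
      _ = 16 * r' ^ 4 := by ring
  have g6 : (η * ‖c r‖) ^ 2 * r ^ 4 ≤ (η * ‖c r‖) ^ 2 * (16 * r' ^ 4) :=
    mul_le_mul_of_nonneg_left g5 (by positivity)
  have hr'4 : 0 < r' ^ 4 := by positivity
  have g7 : r' ^ 4 * (c r k - c r' k) ^ 2 ≤
      r' ^ 4 * (32 * (η * ‖c r‖) ^ 2 + 2 * (η * ‖c r'‖) ^ 2) := by
    calc r' ^ 4 * (c r k - c r' k) ^ 2 ≤ 2 * ((η * ‖c r‖) ^ 2 * (16 * r' ^ 4)) +
          2 * ((η * ‖c r'‖) ^ 2 * r' ^ 4) := by linarith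
      _ = _ := by ring
  have g8 := le_of_mul_le_mul_left g7 hr'4
  refine g8.trans ?_
  have hA : 0 ≤ η * ‖c r‖ := by positivity
  have hB : 0 ≤ η * ‖c r'‖ := by positivity
  have e : 6 * η * (‖c r‖ + ‖c r'‖) = 6 * (η * ‖c r‖ + η * ‖c r'‖) := by ring
  rw [e]
  nlinarith [mul_nonneg hA hB]

theorem ratio {a b e q : ℝ} (ha : 0 ≤ a) (he1 : e < 1) (hq : 1 + e ≤ q * (1 - e))
    (h : |a - b| ≤ e * (a + b)) : b ≤ q * a := by
  have h1 : b - a ≤ e * (a + b) := (neg_le_abs (a - b) |>.trans h) |> fun h => by linarith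
  have h2 : b * (1 - e) ≤ a * (1 + e) := by linarith
  have h3 : a * (1 + e) ≤ a * (q * (1 - e)) := mul_le_mul_of_nonneg_left hq ha
  have h4 : b * (1 - e) ≤ (q * a) * (1 - e) := by linarith
  exact le_of_mul_le_mul_right h4 (by linarith)

theorem iterq {K : Type} [Fintype K] {r₀ q : ℝ} {c : ℝ → K → ℝ} (hq : 1 ≤ q)
    (hst : ∀ r' r : ℝ, 0 < r' → r / 2 ≤ r' → r' ≤ r → r ≤ r₀ → ‖c r'‖ ≤ q * ‖c r‖ ∧
      ‖c r‖ ≤ q * ‖c r'‖) (m : ℕ) : ∀ s r : ℝ, 0 < s → s ≤ r → r ≤ 2 ^ m * s → r ≤ r₀ →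
      ‖c s‖ ≤ q ^ m * ‖c r‖ ∧ ‖c r‖ ≤ q ^ m * ‖c s‖ := by
  induction m with
  | zero =>
    intro s r hs hsr hr _
    have : s = r := by
      rw [pow_zero, one_mul] at hr
      exact le_antisymm hsr hr
    subst this
    simp
  | succ m ih =>
    intro s r hs hsr hr hr0
    have h2m : (1:ℝ) ≤ 2 ^ m := one_le_pow₀ (by norm_num)
    have h1 : s ≤ max s (r / 2) := le_max_left _ _
    have h2 : max s (r / 2) ≤ r := max_le hsr (by linarith)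
    have h3 : max s (r / 2) ≤ 2 ^ m * s := by
      refine max_le (by nlinarith) ?_
      rw [pow_succ] at hr
      linarith
    obtain ⟨a1, a2⟩ := ih s (max s (r / 2)) hs h1 h3 (h2.trans hr0)
    obtain ⟨b1, b2⟩ := hst (max s (r / 2)) r (hs.trans_le h1) (le_max_right _ _) h2 hr0
    have hqm : 0 ≤ q ^ m := by positivity
    constructor
    · calc ‖c s‖ ≤ q ^ m * ‖c (max s (r / 2))‖ := a1
        _ ≤ q ^ m * (q * ‖c r‖) := mul_le_mul_of_nonneg_left b1 hqm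
        _ = q ^ (m + 1) * ‖c r‖ := by ring
    · calc ‖c r‖ ≤ q * ‖c (max s (r / 2))‖ := b2
        _ ≤ q * (q ^ m * ‖c s‖) := mul_le_mul_of_nonneg_left a2 (by linarith)
        _ = q ^ (m + 1) * ‖c s‖ := by ring

theorem volle {r : ℝ} (hr : 0 < r) : volume.real (ball (0 : E) r) ≤ 5 * r ^ 4 := by
  have h1 : volume (ball (0 : E) r) = ENNReal.ofReal (r ^ 4 * (Real.pi ^ 2 / 2)) := by
    rw [EuclideanSpace.volume_ball, Fintype.card_fin]
    have h2 : ((4 : ℕ) : ℝ) / 2 + 1 = ((2 : ℕ) : ℝ) + 1 := by norm_num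
    have h3 : √Real.pi ^ 4 = Real.pi ^ 2 := by
      have : √Real.pi ^ 4 = (√Real.pi ^ 2) ^ 2 := by ring
      rw [this, Real.sq_sqrt Real.pi_pos.le]
    rw [h2, Real.Gamma_nat_eq_factorial, h3, ← ENNReal.ofReal_pow hr.le,
      ← ENNReal.ofReal_mul (by positivity)]
    norm_num [Nat.factorial]
  rw [Measure.real, h1, ENNReal.toReal_ofReal (by positivity)]
  have h4 : Real.pi < 3.15 := Real.pi_lt_d2
  have h5 : Real.pi ^ 2 / 2 ≤ 5 := by nlinarith [Real.pi_pos]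
  have h6 : 0 ≤ r ^ 4 := by positivity
  nlinarith

theorem sum_sq_le {ι : Type} (s : Finset ι) (f : ι → ℝ) (hf : ∀ i, 0 ≤ f i) :
    ∑ i ∈ s, f i ^ 2 ≤ (∑ i ∈ s, f i) ^ 2 := by
  classical
  induction s using Finset.induction_on with
  | empty => simp
  | insert a s ha ih =>
    rw [Finset.sum_insert ha, Finset.sum_insert ha]
    have h1 : 0 ≤ ∑ i ∈ s, f i := Finset.sum_nonneg fun i _ => hf i
    nlinarith [mul_nonneg (hf a) h1]

theorem nrm2_eq (T : Fin 4 → Fin 4 → ℝ) : nrm2 T = ∑ k : Fin 4 × Fin 4, T k.1 k.2 ^ 2 := by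
  unfold nrm2
  rw [Fintype.sum_prod_type]

theorem sqrt_nrm2_le (T : Fin 4 → Fin 4 → ℝ) :
    Real.sqrt (nrm2 T) ≤ ∑ k : Fin 4 × Fin 4, |T k.1 k.2| := by
  rw [Real.sqrt_le_left (Finset.sum_nonneg fun k _ => abs_nonneg _), nrm2_eq]
  refine le_trans (le_of_eq ?_) (sum_sq_le _ _ fun k => abs_nonneg _)
  exact Finset.sum_congr rfl fun k _ => (sq_abs _).symm

theorem nrm2_le_norm (T : Fin 4 → Fin 4 → ℝ) :
    nrm2 T ≤ 16 * ‖fun k : Fin 4 × Fin 4 => T k.1 k.2‖ ^ 2 := by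
  rw [nrm2_eq]
  calc ∑ k : Fin 4 × Fin 4, T k.1 k.2 ^ 2
      ≤ ∑ _k : Fin 4 × Fin 4, ‖fun k : Fin 4 × Fin 4 => T k.1 k.2‖ ^ 2 := by
        refine Finset.sum_le_sum fun k _ => ?_
        rw [← sq_abs]
        refine pow_le_pow_left₀ (abs_nonneg _) ?_ 2
        exact norm_le_pi_norm (fun k : Fin 4 × Fin 4 => T k.1 k.2) k
    _ = _ := by simp

theorem int_abs_le {f : E → ℝ} (hf : Continuous f) {r lam η c : ℝ} (hr : 0 < r) (hl : 0 < lam)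
    (hη : 0 ≤ η) (hη1 : η ≤ 1) (hc : |c| ≤ lam)
    (h : ∫ x in ball (0 : E) r, (f x - c) ^ 2 ≤ (η * lam) ^ 2 * r ^ 4) :
    ∫ x in ball (0 : E) r, |f x| ≤ 8 * lam * r ^ 4 := by
  have cf : Continuous fun x => (f x - c) ^ 2 := (hf.sub continuous_const).pow 2
  have h1 : ∫ x in ball (0 : E) r, |f x| ≤
      ∫ x in ball (0 : E) r, (lam⁻¹ / 2 * (f x - c) ^ 2 + 3 / 2 * lam) :=
    imono hf.abs ((cf.const_mul _).add continuous_const) fun x _ => by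
      have h2 : |f x| ≤ |f x - c| + |c| := by
        have := abs_add_le (f x - c) c
        rwa [sub_add_cancel] at this
      have h3 : |f x - c| ≤ lam⁻¹ / 2 * (f x - c) ^ 2 + 1 / 2 * lam := by
        have h4 : 0 ≤ lam⁻¹ / 2 * (|f x - c| - lam) ^ 2 := by positivity
        have h5 : lam⁻¹ / 2 * (|f x - c| - lam) ^ 2 =
            lam⁻¹ / 2 * (f x - c) ^ 2 - |f x - c| + 1 / 2 * lam := by
          have h6 : (|f x - c| - lam) ^ 2 = (f x - c) ^ 2 - 2 * |f x - c| * lam + lam ^ 2 := by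
            rw [sub_sq, sq_abs]
          rw [h6]
          field_simp
        linarith
      show |f x| ≤ lam⁻¹ / 2 * (f x - c) ^ 2 + 3 / 2 * lam
      linarith
  rw [integral_add ((intb cf r).const_mul _) (intb continuous_const r), integral_const_mul,
    setIntegral_const, smul_eq_mul] at h1
  have h2 := volle hr
  have h3 : lam⁻¹ / 2 * ∫ x in ball (0 : E) r, (f x - c) ^ 2 ≤ 1 / 2 * lam * r ^ 4 := by
    calc lam⁻¹ / 2 * ∫ x in ball (0 : E) r, (f x - c) ^ 2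
        ≤ lam⁻¹ / 2 * ((η * lam) ^ 2 * r ^ 4) := mul_le_mul_of_nonneg_left h (by positivity)
      _ = η ^ 2 * (1 / 2 * lam * r ^ 4) := by field_simp
      _ ≤ 1 * (1 / 2 * lam * r ^ 4) := by
          apply mul_le_mul_of_nonneg_right _ (by positivity)
          exact pow_le_one₀ hη hη1
      _ = _ := one_mul _
  have h4 : volume.real (ball (0 : E) r) * (3 / 2 * lam) ≤ 5 * r ^ 4 * (3 / 2 * lam) :=
    mul_le_mul_of_nonneg_right h2 (by positivity)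
  linarith

end GrowAux

open GrowAux FlatCAux

theorem growT (K : Type) [Fintype K] : ∃ η₀ : ℝ, 0 < η₀ ∧ ∀ (T : K → E → ℝ), (∀ k, Continuous (T k)) →
    ∀ (r₀ : ℝ) (c : ℝ → K → ℝ), (∀ r : ℝ, 0 < r → r ≤ r₀ → ∀ k,
      ∫ x in ball (0 : E) r, (T k x - c r k) ^ 2 ≤ (η₀ * ‖c r‖) ^ 2 * r ^ 4) →
    ∀ s r : ℝ, 0 < s → s ≤ r → r ≤ r₀ → ‖c s‖ ≤ 2 * (r / s) ^ (1 / 8 : ℝ) * ‖c r‖ ∧
      ‖c r‖ ≤ 2 * (r / s) ^ (1 / 8 : ℝ) * ‖c s‖ := by
  obtain ⟨q, hq⟩ : ∃ q : ℝ, q = (2:ℝ) ^ (1 / 8 : ℝ) := ⟨_, rfl⟩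
  have hq1 : 1 < q := by
    rw [hq]
    exact Real.one_lt_rpow (by norm_num) (by norm_num)
  have hq2 : q ≤ 2 := by
    rw [hq]
    calc (2:ℝ) ^ (1 / 8 : ℝ) ≤ 2 ^ (1:ℝ) :=
          Real.rpow_le_rpow_of_exponent_le (by norm_num) (by norm_num)
      _ = 2 := Real.rpow_one 2
  have hη : 0 < (q - 1) / (6 * (q + 1)) := div_pos (by linarith) (by linarith)
  refine ⟨(q - 1) / (6 * (q + 1)), hη, ?_⟩
  intro T hT r₀ c h s r hs hsr hr
  have he : 6 * ((q - 1) / (6 * (q + 1))) = (q - 1) / (q + 1) := by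
    field_simp
  have he1 : (q - 1) / (q + 1) < 1 := by
    rw [div_lt_one (by linarith)]
    linarith
  have he2 : 1 + (q - 1) / (q + 1) ≤ q * (1 - (q - 1) / (q + 1)) := by
    have h1 : q + 1 ≠ 0 := by linarith
    have e1 : 1 + (q - 1) / (q + 1) = 2 * q / (q + 1) := by
      field_simp
      ring
    have e2 : q * (1 - (q - 1) / (q + 1)) = 2 * q / (q + 1) := by
      field_simp
      ring
    rw [e1, e2]
  have hst : ∀ r' r : ℝ, 0 < r' → r / 2 ≤ r' → r' ≤ r → r ≤ r₀ → ‖c r'‖ ≤ q * ‖c r‖ ∧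
      ‖c r‖ ≤ q * ‖c r'‖ := by
    intro r' r h0 h1 h2 h3
    have g1 := step hT hη.le h h0 h1 h2 h3
    rw [he] at g1
    have g2 : |‖c r‖ - ‖c r'‖| ≤ (q - 1) / (q + 1) * (‖c r‖ + ‖c r'‖) :=
      (abs_norm_sub_norm_le _ _).trans g1
    have g3 : |‖c r'‖ - ‖c r‖| ≤ (q - 1) / (q + 1) * (‖c r'‖ + ‖c r‖) := by
      rw [abs_sub_comm, add_comm ‖c r'‖]
      exact g2
    exact ⟨ratio (norm_nonneg _) he1 he2 g2, ratio (norm_nonneg _) he1 he2 g3⟩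
  have hx : 1 ≤ r / s := by
    rw [le_div_iff₀ hs]
    linarith
  obtain ⟨m, hm1, hm2⟩ := exists_nat_pow_near hx (by norm_num : (1:ℝ) < 2)
  have hr2 : r ≤ 2 ^ (m + 1) * s := by
    rw [div_lt_iff₀ hs] at hm2
    exact hm2.le
  obtain ⟨a1, a2⟩ := iterq hq1.le hst (m + 1) s r hs hsr hr2 hr
  have hqm : q ^ (m + 1) ≤ 2 * (r / s) ^ (1 / 8 : ℝ) := by
    have e : q ^ m = ((2:ℝ) ^ m) ^ (1 / 8 : ℝ) := by
      rw [hq, ← Real.rpow_natCast, ← Real.rpow_natCast, ← Real.rpow_mul (by norm_num),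
        ← Real.rpow_mul (by norm_num), mul_comm]
    rw [pow_succ, e, mul_comm]
    have h1 : ((2:ℝ) ^ m) ^ (1 / 8 : ℝ) ≤ (r / s) ^ (1 / 8 : ℝ) :=
      Real.rpow_le_rpow (by positivity) hm1 (by norm_num)
    exact mul_le_mul hq2 h1 (by positivity) (by norm_num)
  exact ⟨a1.trans (mul_le_mul_of_nonneg_right hqm (norm_nonneg _)),
    a2.trans (mul_le_mul_of_nonneg_right hqm (norm_nonneg _))⟩

theorem growE : ∃ r₀ κ₀ A : ℝ, 0 < r₀ ∧ r₀ ≤ 1 ∧ 0 < κ₀ ∧ κ₀ ≤ 1 / 4 ∧ 1 ≤ A ∧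
    ∀ α : W → W →L[ℝ] ℝ, Conn α → Pinched κ₀ α → ∀ z u v : W, ON3 z u v → ∀ r : ℝ, 0 < r → r ≤ r₀ →
      ∫ x in ball (0 : E) r, Real.sqrt (nrm2 (fun i j => co (ch α z u v) i j x)) ≤ A * r ^ (15 / 4 : ℝ) := by
  obtain ⟨η₀, hη₀, hgrow⟩ := growT (Fin 4 × Fin 4)
  obtain ⟨η, hη0, hη1, hη2⟩ : ∃ η : ℝ, 0 < η ∧ η ≤ 1 / 4 ∧ η ≤ η₀ :=
    ⟨min (1 / 4) η₀, lt_min (by norm_num) hη₀, min_le_left _ _, min_le_right _ _⟩
  obtain ⟨ra, κa, hra0, hra1, hκa0, hκa1, hflat⟩ := flatc (η / 4) (by positivity)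
  obtain ⟨Ct, hCt, htop⟩ := topc
  obtain ⟨r₀, hr0, hr0a, hr0t⟩ : ∃ r₀ : ℝ, 0 < r₀ ∧ r₀ ≤ ra ∧ Ct * r₀ ^ 2 ≤ 1 / 100 := by
    refine ⟨min ra (1 / (10 * Ct)), lt_min hra0 (by positivity), min_le_left _ _, ?_⟩
    have h1 : min ra (1 / (10 * Ct)) ≤ 1 / (10 * Ct) := min_le_right _ _
    have h2 : 0 < min ra (1 / (10 * Ct)) := lt_min hra0 (by positivity)
    have h3 : (min ra (1 / (10 * Ct))) ^ 2 ≤ (1 / (10 * Ct)) ^ 2 := pow_le_pow_left₀ h2.le h1 2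
    calc Ct * (min ra (1 / (10 * Ct))) ^ 2 ≤ Ct * (1 / (10 * Ct)) ^ 2 :=
          mul_le_mul_of_nonneg_left h3 (by linarith)
      _ = 1 / (100 * Ct) := by field_simp; norm_num
      _ ≤ 1 / 100 := by
          apply one_div_le_one_div_of_le (by norm_num)
          linarith
  have hr01 : r₀ ≤ 1 := hr0a.trans hra1
  obtain ⟨κ₀, hκ0, hκ1, hκa, hκr⟩ : ∃ κ₀ : ℝ, 0 < κ₀ ∧ κ₀ ≤ 1 / 4 ∧ κ₀ ≤ κa ∧ κ₀ ≤ r₀ ^ 3 :=
    ⟨min κa (r₀ ^ 3), lt_min hκa0 (by positivity), (min_le_left _ _).trans hκa1, min_le_left _ _,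
      min_le_right _ _⟩
  refine ⟨r₀, κ₀, 2560, hr0, hr01, hκ0, hκ1, by norm_num, ?_⟩
  intro α hα hpin z u v hon r hr hrr
  have hpin' : Pinched κa α := by
    intro z u v h
    refine (hpin z u v h).trans ?_
    apply mul_le_mul_of_nonneg_right _ (nrm2_nonneg _)
    exact pow_le_pow_left₀ hκ0.le hκa 2
  have hsm := ch_smooth hon hα.smooth
  have hTc : ∀ i j, Continuous (co (ch α z u v) i j) := fun i j => (co_contDiff hsm i j).continuous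
  -- the constants
  have hex : ∀ t : ℝ, ∃ c : Fin 4 × Fin 4 → ℝ, 0 < t → t ≤ r₀ → 0 < ‖c‖ ∧
      ∀ k, ∫ x in ball (0 : E) t, (co (ch α z u v) k.1 k.2 x - c k) ^ 2 ≤ (η * ‖c‖) ^ 2 * t ^ 4 := by
    intro t
    by_cases ht : 0 < t ∧ t ≤ r₀
    · obtain ⟨c, _, hc1, _, hc3⟩ := (hflat α hα hpin' z u v hon).1 t ht.1 (ht.2.trans hr0a)
      refine ⟨fun k => c k.1 k.2, fun _ _ => ⟨?_, fun k => ?_⟩⟩
      · rw [norm_pos_iff]
        intro h0
        have h1 := nrm2_le_norm c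
        rw [h0, norm_zero] at h1
        norm_num at h1
        linarith
      · refine (hc3 k.1 k.2).trans ?_
        apply mul_le_mul_of_nonneg_right _ (by positivity)
        have h1 := nrm2_le_norm c
        calc (η / 4) ^ 2 * nrm2 c ≤ (η / 4) ^ 2 * (16 * ‖fun k : Fin 4 × Fin 4 => c k.1 k.2‖ ^ 2) :=
              mul_le_mul_of_nonneg_left h1 (by positivity)
          _ = _ := by ring
    · exact ⟨0, fun h1 h2 => absurd ⟨h1, h2⟩ ht⟩
  choose cc hcc using hex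
  have hg := hgrow (fun k x => co (ch α z u v) k.1 k.2 x) (fun k => hTc k.1 k.2) r₀ cc
    (fun t ht ht' k => ((hcc t ht ht').2 k).trans (by
      apply mul_le_mul_of_nonneg_right _ (by positivity)
      apply pow_le_pow_left₀ (by positivity)
      exact mul_le_mul_of_nonneg_right hη2 (norm_nonneg _))) r r₀ hr hrr le_rfl
  -- the size at scale r₀
  have hN : ‖cc r₀‖ ≤ 10 := by
    have h1 : ‖cc r₀‖ ≤ 2 + (2 * η * ‖cc r₀‖ + 1 / 5) := by
      rw [pi_norm_le_iff_of_nonneg (by positivity)]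
      intro k
      have h2 := two_const (hTc k.1 k.2) hr0 (cc r₀ k) (c0 k.1 k.2)
      have h3 := (hcc r₀ hr0 le_rfl).2 k
      have h4 := htop κ₀ hκ0.le hκ1 α hα hpin z u v hon k.1 k.2 r₀ hr0 hr01
      have h5 : Ct * (κ₀ ^ 2 + r₀ ^ 6) ≤ 2 / 100 * r₀ ^ 4 := by
        have h6 : κ₀ ^ 2 ≤ r₀ ^ 6 := by
          calc κ₀ ^ 2 ≤ (r₀ ^ 3) ^ 2 := pow_le_pow_left₀ hκ0.le hκr 2
            _ = r₀ ^ 6 := by ring
        calc Ct * (κ₀ ^ 2 + r₀ ^ 6) ≤ Ct * (r₀ ^ 6 + r₀ ^ 6) :=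
              mul_le_mul_of_nonneg_left (by linarith) (by linarith)
          _ = 2 * (Ct * r₀ ^ 2) * r₀ ^ 4 := by ring
          _ ≤ 2 * (1 / 100) * r₀ ^ 4 := by
              apply mul_le_mul_of_nonneg_right _ (by positivity)
              linarith
          _ = _ := by ring
      have hr4 : 0 < r₀ ^ 4 := by positivity
      have h7 : r₀ ^ 4 * (cc r₀ k - c0 k.1 k.2) ^ 2 ≤
          r₀ ^ 4 * (2 * (η * ‖cc r₀‖) ^ 2 + 1 / 25) := by
        calc r₀ ^ 4 * (cc r₀ k - c0 k.1 k.2) ^ 2 ≤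
              2 * ((η * ‖cc r₀‖) ^ 2 * r₀ ^ 4) + 2 * (2 / 100 * r₀ ^ 4) := by linarith
          _ = _ := by ring
      have h8 := le_of_mul_le_mul_left h7 hr4
      have h9 : |cc r₀ k - c0 k.1 k.2| ≤ 2 * η * ‖cc r₀‖ + 1 / 5 := by
        apply abs_le_of_sq_le_sq _ (by positivity)
        refine h8.trans ?_
        have h10 : 0 ≤ η * ‖cc r₀‖ := by positivity
        have e : 2 * η * ‖cc r₀‖ = 2 * (η * ‖cc r₀‖) := by ring
        rw [e]
        nlinarith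
      have h10 : |c0 k.1 k.2| ≤ 2 := by
        obtain ⟨i, j⟩ := k
        fin_cases i <;> fin_cases j <;> simp [c0]
      rw [Real.norm_eq_abs]
      have h11 : |cc r₀ k| ≤ |cc r₀ k - c0 k.1 k.2| + |c0 k.1 k.2| := by
        have := abs_add_le (cc r₀ k - c0 k.1 k.2) (c0 k.1 k.2)
        rwa [sub_add_cancel] at this
      linarith
    have h2 : 2 * η * ‖cc r₀‖ ≤ 1 / 2 * ‖cc r₀‖ :=
      mul_le_mul_of_nonneg_right (by linarith) (norm_nonneg _)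
    linarith
  obtain ⟨hlam, hX⟩ := hcc r hr hrr
  -- the integral
  have hcont : Continuous fun x => Real.sqrt (nrm2 (fun i j => co (ch α z u v) i j x)) := by
    refine Real.continuous_sqrt.comp ?_
    unfold nrm2
    exact continuous_finsetSum _ fun i _ => continuous_finsetSum _ fun j _ => (hTc i j).pow 2
  have hI : ∫ x in ball (0 : E) r, Real.sqrt (nrm2 (fun i j => co (ch α z u v) i j x)) ≤
      128 * ‖cc r‖ * r ^ 4 := by
    have h1 : ∫ x in ball (0 : E) r, Real.sqrt (nrm2 (fun i j => co (ch α z u v) i j x)) ≤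
        ∫ x in ball (0 : E) r, ∑ k : Fin 4 × Fin 4, |co (ch α z u v) k.1 k.2 x| :=
      imono hcont (continuous_finsetSum _ fun k _ => (hTc k.1 k.2).abs) fun x _ => sqrt_nrm2_le _
    rw [integral_finsetSum _ (f := fun (k : Fin 4 × Fin 4) (x : E) =>
      |co (ch α z u v) k.1 k.2 x|) (fun k _ => intb (hTc k.1 k.2).abs r)] at h1
    refine h1.trans ?_
    have h2 : ∀ k ∈ (Finset.univ : Finset (Fin 4 × Fin 4)),
        ∫ x in ball (0 : E) r, |co (ch α z u v) k.1 k.2 x| ≤ 8 * ‖cc r‖ * r ^ 4 := fun k _ =>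
      int_abs_le (hTc k.1 k.2) hr hlam hη0.le (by linarith) (norm_le_pi_norm (cc r) k) (hX k)
    refine (Finset.sum_le_card_nsmul _ _ _ h2).trans (le_of_eq ?_)
    rw [nsmul_eq_mul, Finset.card_univ, Fintype.card_prod, Fintype.card_fin]
    push_cast
    ring
  refine hI.trans ?_
  have h1 : ‖cc r‖ ≤ 20 * r ^ (-(1 / 8) : ℝ) := by
    refine hg.1.trans ?_
    have h2 : (r₀ / r) ^ (1 / 8 : ℝ) ≤ r ^ (-(1 / 8) : ℝ) := by
      rw [Real.rpow_neg hr.le, ← Real.inv_rpow hr.le]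
      apply Real.rpow_le_rpow (by positivity) _ (by norm_num)
      rw [div_eq_mul_inv]
      exact mul_le_of_le_one_left (by positivity) hr01
    calc 2 * (r₀ / r) ^ (1 / 8 : ℝ) * ‖cc r₀‖ ≤ 2 * r ^ (-(1 / 8) : ℝ) * 10 := by
          apply mul_le_mul _ hN (norm_nonneg _) (by positivity)
          exact mul_le_mul_of_nonneg_left h2 (by norm_num)
      _ = _ := by ring
  calc 128 * ‖cc r‖ * r ^ 4 ≤ 128 * (20 * r ^ (-(1 / 8) : ℝ)) * r ^ 4 := by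
        apply mul_le_mul_of_nonneg_right _ (by positivity)
        exact mul_le_mul_of_nonneg_left h1 (by norm_num)
    _ = 2560 * (r ^ (-(1 / 8) : ℝ) * r ^ (4:ℝ)) := by
        have : r ^ (4:ℝ) = r ^ 4 := by
          rw [← Real.rpow_natCast]
          norm_num
        rw [this]
        ring
    _ = 2560 * r ^ (31 / 8 : ℝ) := by
        rw [← Real.rpow_add hr]
        norm_num
    _ ≤ 2560 * r ^ (15 / 4 : ℝ) := by
        apply mul_le_mul_of_nonneg_left _ (by norm_num)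
        exact Real.rpow_le_rpow_of_exponent_ge hr (hrr.trans hr01) (by norm_num)

end Pool.Agent.Lib.Qcd
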