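import Pool.Agent.Lib.Qcd.StepB

set_option autoImplicit false

/-!
# The iteration

PROOF. `stepB cfB` gives `C`. `θ = 1 / (8 C)`, `δ = min (η θ ^ 2) (1 / (4 C))` (and `δ ≤ 1`), `κ = δ θ ^ 2 / (8 C)`. Claim for every `j`: there is `c_j ≠ 0` with `∫_{ball 0 r_j} (dm G k - c_j k)² ≤ (δ ‖c_j‖)² r_j⁴`, `r_j = θ ^ j r₀`. `j = 0`: `c₀`. Step: `δ ≤ η`, so the hypothesis at `r_j`, `c_j` gives `J`, and `sysB` and `stepB` give `c'` with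
`‖c' - c_j‖ ≤ C δ ‖c_j‖ ≤ ‖c_j‖ / 4`, so `c' ≠ 0`, `‖c_j‖ ≤ 2 ‖c'‖`, and the new bound `C (θ δ + κ / θ ^ 2) ‖c_j‖ = (δ/8 + δ/8) ‖c_j‖ ≤ δ ‖c'‖`. For `r_{j+1} < r ≤ r_j` (every `0 < r ≤ r₀` is of this kind): `∫_{ball 0 r} ≤ ∫_{ball 0 r_j} ≤ (δ ‖c_j‖)² r_j⁴ ≤ (δ θ⁻² ‖c_j‖)² r⁴ ≤ (η ‖c_j‖)² r⁴`.
Compare `iter` in `Psd.Iter`.
-/

open MeasureTheory Set Metric
open scoped ContDiff ENNReal

namespace Pool.Agent.Lib.Qcd

open Pool.Agent.P28b04d Pool.Agent.Lib.Psd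

namespace IterBAux

theorem intOn {f : E → ℝ} (hf : Continuous f) (r : ℝ) : IntegrableOn f (ball (0 : E) r) :=
  (hf.continuousOn.integrableOn_compact (isCompact_closedBall (0 : E) r)).mono_set
    ball_subset_closedBall

end IterBAux

open IterBAux

theorem iterB (η : ℝ) (hη : 0 < η) : ∃ δ κ : ℝ, 0 < δ ∧ δ ≤ η ∧ 0 < κ ∧ ∀ G : Fin 4 → E → ℝ,
    (∀ a, ContDiff ℝ ∞ (G a)) → ∀ (c₀ : Fin 4 × Fin 4 → ℝ) (r₀ : ℝ), 0 < r₀ → c₀ ≠ 0 →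
      (∀ k : Fin 4 × Fin 4, ∫ x in ball (0 : E) r₀, (dm G x k.1 k.2 - c₀ k) ^ 2 ≤ (δ * ‖c₀‖) ^ 2 * r₀ ^ 4) →
      (∀ r : ℝ, 0 < r → r ≤ r₀ → ∀ c : Fin 4 × Fin 4 → ℝ, c ≠ 0 →
        (∀ k : Fin 4 × Fin 4, ∫ x in ball (0 : E) r, (dm G x k.1 k.2 - c k) ^ 2 ≤ (η * ‖c‖) ^ 2 * r ^ 4) →
        ∃ J : Fin 4 → Fin 4 → ℝ, (∀ i j, J i j = -J j i) ∧ ∀ i a,
          ∫ x in ball (0 : E) r, (dJ J (dm G x) i a) ^ 2 ≤ (κ * ‖c‖) ^ 2 * r ^ 4) →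
      ∀ r : ℝ, 0 < r → r ≤ r₀ → ∃ c : Fin 4 × Fin 4 → ℝ, c ≠ 0 ∧
        ∀ k : Fin 4 × Fin 4, ∫ x in ball (0 : E) r, (dm G x k.1 k.2 - c k) ^ 2 ≤ (η * ‖c‖) ^ 2 * r ^ 4 := by
  obtain ⟨C, hC1, hstep⟩ := stepB (K := Fin 4 × Fin 4) (M := Fin 4 × Fin 4) cfB
  have hC0 : 0 < C := lt_of_lt_of_le one_pos hC1
  set θ : ℝ := 1 / (8 * C) with hθ
  have hθ0 : 0 < θ := by positivity
  have hθ8 : θ ≤ 1 / 8 := by
    rw [hθ]
    apply one_div_le_one_div_of_le (by norm_num)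
    linarith
  have hCθ : C * θ = 1 / 8 := by
    rw [hθ]
    field_simp
  set δ : ℝ := min (1 / (4 * C)) (min (η * θ ^ 2) η) with hδ
  have hδ0 : 0 < δ := lt_min (by positivity) (lt_min (by positivity) hη)
  have hδ1 : δ ≤ 1 / (4 * C) := min_le_left _ _
  have hδ2 : δ ≤ η * θ ^ 2 := (min_le_right _ _).trans (min_le_left _ _)
  have hδ3 : δ ≤ η := (min_le_right _ _).trans (min_le_right _ _)
  have hCδ : C * δ ≤ 1 / 4 := by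
    calc C * δ ≤ C * (1 / (4 * C)) := mul_le_mul_of_nonneg_left hδ1 hC0.le
      _ = 1 / 4 := by field_simp
  have hδ4 : δ ≤ 1 := by nlinarith
  set κ : ℝ := δ * θ ^ 2 / (8 * C) with hκ
  have hκ0 : 0 < κ := by positivity
  have hCκ : C * (θ * δ + κ / θ ^ 2) = δ / 4 := by
    have e1 : C * (κ / θ ^ 2) = δ / 8 := by
      rw [hκ]
      field_simp
    calc C * (θ * δ + κ / θ ^ 2) = (C * θ) * δ + C * (κ / θ ^ 2) := by ring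
      _ = δ / 4 := by rw [hCθ, e1]; ring
  refine ⟨δ, κ, hδ0, hδ3, hκ0, ?_⟩
  intro G hG c₀ r₀ hr₀ hc₀ hint hJ
  have hcont : ∀ k : Fin 4 × Fin 4, Continuous (fun x => dm G x k.1 k.2) := by
    intro k
    have hS := sysB (J := fun _ _ => 0) hG (fun _ _ => by simp)
    exact (hS.sT k).continuous
  have hind : ∀ j : ℕ, ∃ c : Fin 4 × Fin 4 → ℝ, c ≠ 0 ∧
      ∀ k : Fin 4 × Fin 4, ∫ x in ball (0 : E) (θ ^ j * r₀), (dm G x k.1 k.2 - c k) ^ 2 ≤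
        (δ * ‖c‖) ^ 2 * (θ ^ j * r₀) ^ 4 := by
    intro j
    induction j with
    | zero => exact ⟨c₀, hc₀, fun k => by simpa using hint k⟩
    | succ j ih =>
      obtain ⟨c, hc, hck⟩ := ih
      have hθj : θ ^ j ≤ 1 := pow_le_one₀ hθ0.le (by linarith)
      have hrj : θ ^ j * r₀ ≤ r₀ := mul_le_of_le_one_left hr₀.le hθj
      have hcn : 0 < ‖c‖ := norm_pos_iff.2 hc
      obtain ⟨J, hJs, hJb⟩ := hJ (θ ^ j * r₀) (by positivity) hrj c hc (fun k => (hck k).trans (by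
        refine mul_le_mul_of_nonneg_right ?_ (by positivity)
        exact pow_le_pow_left₀ (by positivity) (mul_le_mul_of_nonneg_right hδ3 hcn.le) 2))
      obtain ⟨c', h1, h2⟩ := hstep (fun k x => dm G x k.1 k.2) (fun m x => dJ J (dm G x) m.1 m.2)
        (sysB hG hJs) c (θ ^ j * r₀) δ κ θ (by positivity) hδ0.le hδ4 hκ0.le
        hθ0 (by linarith) (fun m => hJb m.1 m.2) hck
      have h3 : ‖c' - c‖ ≤ 1 / 4 * ‖c‖ :=
        h1.trans (mul_le_mul_of_nonneg_right hCδ (norm_nonneg _))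
      have h4 : 3 / 4 * ‖c‖ ≤ ‖c'‖ := by
        have h5 : ‖c‖ ≤ ‖c'‖ + ‖c' - c‖ := by
          calc ‖c‖ = ‖c' - (c' - c)‖ := by congr 1; abel
            _ ≤ _ := norm_sub_le _ _
        linarith
      have hc'n : 0 < ‖c'‖ := lt_of_lt_of_le (by positivity) h4
      refine ⟨c', norm_pos_iff.1 hc'n, fun k => ?_⟩
      have h5 := h2 k
      rw [hCκ] at h5
      have h6 : θ ^ (j + 1) * r₀ = θ * (θ ^ j * r₀) := by ring
      rw [h6]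
      refine h5.trans (mul_le_mul_of_nonneg_right ?_ (by positivity))
      refine pow_le_pow_left₀ (by positivity) ?_ 2
      nlinarith
  intro r hr hrr
  have hx0 : 0 < r / r₀ := by positivity
  have hx1 : r / r₀ ≤ 1 := by rwa [div_le_one hr₀]
  obtain ⟨j, hj1, hj2⟩ := exists_nat_pow_near_of_lt_one hx0 hx1 hθ0 (by linarith)
  obtain ⟨c, hc, hck⟩ := hind j
  have hj2' : r ≤ θ ^ j * r₀ := by rwa [div_le_iff₀ hr₀] at hj2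
  have hj1' : θ ^ (j + 1) * r₀ < r := by rwa [lt_div_iff₀ hr₀] at hj1
  refine ⟨c, hc, fun k => ?_⟩
  have hTk := hcont k
  have h1 : ∫ x in ball (0 : E) r, (dm G x k.1 k.2 - c k) ^ 2 ≤
      ∫ x in ball (0 : E) (θ ^ j * r₀), (dm G x k.1 k.2 - c k) ^ 2 := by
    refine setIntegral_mono_set (intOn (by fun_prop) _) ?_ ?_
    · exact Filter.Eventually.of_forall fun x => sq_nonneg _
    · exact (ball_subset_ball hj2').eventuallyLE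
  refine (h1.trans (hck k)).trans ?_
  have h2 : θ * (θ ^ j * r₀) ≤ r := by
    have : θ * (θ ^ j * r₀) = θ ^ (j + 1) * r₀ := by ring
    rw [this]
    exact hj1'.le
  have h3 : (θ * (θ ^ j * r₀)) ^ 4 ≤ r ^ 4 := pow_le_pow_left₀ (by positivity) h2 4
  calc (δ * ‖c‖) ^ 2 * (θ ^ j * r₀) ^ 4 ≤ (η * θ ^ 2 * ‖c‖) ^ 2 * (θ ^ j * r₀) ^ 4 := by
        gcongr
    _ = (η * ‖c‖) ^ 2 * (θ * (θ ^ j * r₀)) ^ 4 := by ring
    _ ≤ (η * ‖c‖) ^ 2 * r ^ 4 := by gcongr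

end Pool.Agent.Lib.Qcd
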