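import Pool.Agent.Lib.Qcd.InitG
import Pool.Agent.Lib.Qcd.BndG
import Pool.Agent.Lib.Qcd.IterB
import Pool.Agent.Lib.Qcd.Grow

set_option autoImplicit false

/-!
# The chart of a lift is flat at all small scales

PROOF. `η' = min η (min η₀ 1)`, `η₀` from `growT (Fin 4 × Fin 4)`; `iterB η'` gives `δ, κ`; `bndG κ` gives `ρ_b, ε_b`; `initG δ` gives `ρ_i`; `ctrlG` gives `ρ_c, ε_c`; `r₁ = min (1/16) (min ρ_b (min ρ_i (ρ_c / 2)))`, `ε_i` from `initG` at `r₁`, `ε₀ = min` of all (and `1`). `extG` with `ρ = ρ_c` replaces `DG` by `dm G` on `ball 0 r₁`.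
For `r = r₁` take the `c₀` of `initG`; `growT` compares the constants: `‖c r‖ ≤ 2 (r₁ / r) ^ (1/8) 4 ≤ 8 r ^ (-1/8)` and `1/4 ≤ ‖c r₁‖ ≤ 2 (r₁ / r) ^ (1/8) ‖c r‖`.
-/

open MeasureTheory Set Metric
open scoped ContDiff ENNReal

namespace Pool.Agent.Lib.Qcd

open Pool.Agent.P28b04d Pool.Agent.Lib.Psd

namespace FlatAux

lemma nsq_nn (z : W) : 0 ≤ nsq z := Finset.sum_nonneg fun _ _ => Complex.normSq_nonneg _

lemma qcl_mono {ε ε' : ℝ} {Φ : W → W} (h : QCL ε Φ) (he : ε ≤ ε') : QCL ε' Φ := by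
  intro z v w hz hv hw hvw
  refine (h z v w hz hv hw hvw).trans ?_
  exact mul_le_mul_of_nonneg_right (by linarith) (nsq_nn _)

end FlatAux

theorem flatG (η : ℝ) (hη : 0 < η) : ∃ r₁ ε₀ : ℝ, 0 < r₁ ∧ r₁ ≤ 1 / 16 ∧ 0 < ε₀ ∧ ∀ Φ : W → W, NL Φ →
    QCL ε₀ Φ → (∀ z v : W, nsq z = 1 → |pl Φ z v - a0 z v| ≤ ε₀ * ‖v‖) →
      ∀ z u v p q : W, ON3 z u v → ON3 (Φ z) p q → ∀ r : ℝ, 0 < r → r ≤ r₁ →
        ∃ c : Fin 4 × Fin 4 → ℝ, c ≠ 0 ∧ (∀ k : Fin 4 × Fin 4,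
          ∫ x in ball (0 : E) r, (DG Φ z u v p q x k.1 k.2 - c k) ^ 2 ≤ (η * ‖c‖) ^ 2 * r ^ 4) ∧
          r ^ (1 / 8 : ℝ) * ‖c‖ ≤ 8 ∧ r ^ (1 / 8 : ℝ) ≤ 8 * ‖c‖ := by
  obtain ⟨η₀, hη₀, hgrow⟩ := growT (Fin 4 × Fin 4)
  set η' : ℝ := min η (min η₀ 1) with hη'
  have hη'0 : 0 < η' := lt_min hη (lt_min hη₀ one_pos)
  have hη'1 : η' ≤ η := min_le_left _ _
  have hη'2 : η' ≤ η₀ := (min_le_right _ _).trans (min_le_left _ _)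
  have hη'3 : η' ≤ 1 := (min_le_right _ _).trans (min_le_right _ _)
  obtain ⟨δ, κ, hδ, hδη, hκ, hiter⟩ := iterB η' hη'0
  obtain ⟨ρb, εb, hρb, hεb, hbnd⟩ := bndG κ hκ
  obtain ⟨ρi, hρi, hinit⟩ := initG δ hδ
  obtain ⟨ρc, εc, A, hρc, hρc', hεc, hA, hAρ, hctrl⟩ := ctrlG
  set r₁ : ℝ := min (1 / 16) (min ρb (min ρi (ρc / 2))) with hr₁
  have hr₁0 : 0 < r₁ := by
    refine lt_min (by norm_num) (lt_min hρb (lt_min hρi (by linarith)))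
  have hr₁1 : r₁ ≤ 1 / 16 := min_le_left _ _
  have hr₁b : r₁ ≤ ρb := (min_le_right _ _).trans (min_le_left _ _)
  have hr₁i : r₁ ≤ ρi := ((min_le_right _ _).trans (min_le_right _ _)).trans (min_le_left _ _)
  have hr₁c : r₁ ≤ ρc / 2 := ((min_le_right _ _).trans (min_le_right _ _)).trans (min_le_right _ _)
  obtain ⟨εi, hεi, hinit'⟩ := hinit r₁ hr₁0 hr₁i
  set ε₀ : ℝ := min 1 (min εb (min εi εc)) with hε₀
  have hε₀0 : 0 < ε₀ := lt_min one_pos (lt_min hεb (lt_min hεi hεc))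
  have hε1 : ε₀ ≤ 1 := min_le_left _ _
  have hεb' : ε₀ ≤ εb := (min_le_right _ _).trans (min_le_left _ _)
  have hεi' : ε₀ ≤ εi := ((min_le_right _ _).trans (min_le_right _ _)).trans (min_le_left _ _)
  have hεc' : ε₀ ≤ εc := ((min_le_right _ _).trans (min_le_right _ _)).trans (min_le_right _ _)
  refine ⟨r₁, ε₀, hr₁0, hr₁1, hε₀0, ?_⟩
  intro Φ hΦ hq hpl z u v p q h h' r hr hrr
  have hpl1 : ∀ z v : W, nsq z = 1 → |pl Φ z v - a0 z v| ≤ ‖v‖ := fun z v hz =>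
    (hpl z v hz).trans (mul_le_of_le_one_left (norm_nonneg _) hε1)
  have hpli : ∀ z v : W, nsq z = 1 → |pl Φ z v - a0 z v| ≤ εi * ‖v‖ := fun z v hz =>
    (hpl z v hz).trans (mul_le_mul_of_nonneg_right hεi' (norm_nonneg _))
  have hc1 := hctrl Φ hΦ (FlatAux.qcl_mono hq hεc') hpl1 z u v p q h h'
  obtain ⟨G, hG, hGD⟩ := extG (p := p) (q := q) hΦ.loc h hρc (fun x hx => (hc1 x hx).2.2)
  have hb1 := hbnd Φ hΦ (FlatAux.qcl_mono hq hεb') hpl1 z u v p q h h'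
  obtain ⟨c₀, hc₀1, hc₀2, hc₀3⟩ := hinit' Φ hΦ (FlatAux.qcl_mono hq hεi') hpli z u v p q h h'
  have hGD' : ∀ s : ℝ, s ≤ r₁ → ∀ x ∈ ball (0 : E) s, dm G x = DG Φ z u v p q x := by
    intro s hs x hx
    rw [mem_ball, dist_zero_right] at hx
    exact hGD x (by linarith)
  have hint : ∀ s : ℝ, s ≤ r₁ → ∀ (c : Fin 4 × Fin 4 → ℝ) (k : Fin 4 × Fin 4),
      ∫ x in ball (0 : E) s, (dm G x k.1 k.2 - c k) ^ 2 =
        ∫ x in ball (0 : E) s, (DG Φ z u v p q x k.1 k.2 - c k) ^ 2 := by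
    intro s hs c k
    refine setIntegral_congr_fun measurableSet_ball fun x hx => ?_
    simp only [hGD' s hs x hx]
  have hint2 : ∀ s : ℝ, s ≤ r₁ → ∀ (J : Fin 4 → Fin 4 → ℝ) (i a : Fin 4),
      ∫ x in ball (0 : E) s, (dJ J (dm G x) i a) ^ 2 =
        ∫ x in ball (0 : E) s, (dJ J (DG Φ z u v p q x) i a) ^ 2 := by
    intro s hs J i a
    refine setIntegral_congr_fun measurableSet_ball fun x hx => ?_
    simp only [hGD' s hs x hx]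
  have hc₀0 : c₀ ≠ 0 := by
    intro h0
    rw [h0, norm_zero] at hc₀1
    linarith
  have hall := hiter G hG c₀ r₁ hr₁0 hc₀0 (fun k => by rw [hint r₁ le_rfl]; exact hc₀3 k)
    (by
      intro s hs hsr c hc hck
      obtain ⟨J, hJ, hJ'⟩ := hb1 s hs (hsr.trans hr₁b) c hc (fun k => by
        rw [← hint s hsr]
        refine (hck k).trans ?_
        have h1 : (η' * ‖c‖) ^ 2 ≤ (1 * ‖c‖) ^ 2 := by
          have := norm_nonneg c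
          gcongr
        exact mul_le_mul_of_nonneg_right h1 (by positivity))
      exact ⟨J, hJ, fun i a => by rw [hint2 s hsr]; exact hJ' i a⟩)
  choose! cc hcc0 hcc using hall
  set c : ℝ → Fin 4 × Fin 4 → ℝ := fun s => if s = r₁ then c₀ else cc s with hc
  have hcr1 : c r₁ = c₀ := by simp [hc]
  have hcb : ∀ s : ℝ, 0 < s → s ≤ r₁ → ∀ k : Fin 4 × Fin 4,
      ∫ x in ball (0 : E) s, (dm G x k.1 k.2 - c s k) ^ 2 ≤ (η' * ‖c s‖) ^ 2 * s ^ 4 := by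
    intro s hs hsr k
    by_cases h1 : s = r₁
    · subst h1
      rw [hcr1, hint r₁ le_rfl]
      refine (hc₀3 k).trans ?_
      have h2 : (δ * ‖c₀‖) ^ 2 ≤ (η' * ‖c₀‖) ^ 2 := by
        have := norm_nonneg c₀
        gcongr
      exact mul_le_mul_of_nonneg_right h2 (by positivity)
    · simp only [hc, h1, if_false]
      exact hcc s hs hsr k
  have hcc' : ∀ s : ℝ, 0 < s → s ≤ r₁ → ∀ k : Fin 4 × Fin 4,
      ∫ x in ball (0 : E) s, (dm G x k.1 k.2 - c s k) ^ 2 ≤ (η₀ * ‖c s‖) ^ 2 * s ^ 4 := by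
    intro s hs hsr k
    refine (hcb s hs hsr k).trans ?_
    have h2 : (η' * ‖c s‖) ^ 2 ≤ (η₀ * ‖c s‖) ^ 2 := by
      have := norm_nonneg (c s)
      gcongr
    exact mul_le_mul_of_nonneg_right h2 (by positivity)
  have hcont : ∀ k : Fin 4 × Fin 4, Continuous (fun x => dm G x k.1 k.2) := by
    intro k
    unfold dm
    exact (pd_contDiff (hG k.2) k.1).continuous
  obtain ⟨hg1, hg2⟩ := hgrow (fun k x => dm G x k.1 k.2) hcont r₁ c hcc' r r₁ hr hrr le_rfl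
  rw [hcr1] at hg1 hg2
  have hr8 : 0 < r ^ (1 / 8 : ℝ) := Real.rpow_pos_of_pos hr _
  have hr18 : r₁ ^ (1 / 8 : ℝ) ≤ 1 := Real.rpow_le_one hr₁0.le (by linarith) (by norm_num)
  have hr180 : 0 < r₁ ^ (1 / 8 : ℝ) := Real.rpow_pos_of_pos hr₁0 _
  have hdiv : (r₁ / r) ^ (1 / 8 : ℝ) = r₁ ^ (1 / 8 : ℝ) / r ^ (1 / 8 : ℝ) :=
    Real.div_rpow hr₁0.le hr.le _
  rw [hdiv] at hg1 hg2
  have hcn := norm_nonneg (c r)
  have e1 : r ^ (1 / 8 : ℝ) * ‖c r‖ ≤ 2 * r₁ ^ (1 / 8 : ℝ) * ‖c₀‖ := by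
    calc r ^ (1 / 8 : ℝ) * ‖c r‖ ≤
        r ^ (1 / 8 : ℝ) * (2 * (r₁ ^ (1 / 8 : ℝ) / r ^ (1 / 8 : ℝ)) * ‖c₀‖) :=
          mul_le_mul_of_nonneg_left hg1 hr8.le
      _ = 2 * r₁ ^ (1 / 8 : ℝ) * ‖c₀‖ := by
          field_simp
  have e2 : r ^ (1 / 8 : ℝ) * ‖c₀‖ ≤ 2 * r₁ ^ (1 / 8 : ℝ) * ‖c r‖ := by
    calc r ^ (1 / 8 : ℝ) * ‖c₀‖ ≤
        r ^ (1 / 8 : ℝ) * (2 * (r₁ ^ (1 / 8 : ℝ) / r ^ (1 / 8 : ℝ)) * ‖c r‖) :=
          mul_le_mul_of_nonneg_left hg2 hr8.le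
      _ = 2 * r₁ ^ (1 / 8 : ℝ) * ‖c r‖ := by
          field_simp
  have hcr0 : c r ≠ 0 := by
    intro h0
    rw [h0, norm_zero, mul_zero] at e2
    have : 0 < r ^ (1 / 8 : ℝ) * ‖c₀‖ := mul_pos hr8 (by linarith)
    linarith
  refine ⟨c r, hcr0, ?_, ?_, ?_⟩
  · intro k
    rw [← hint r hrr]
    refine (hcb r hr hrr k).trans ?_
    have h2 : (η' * ‖c r‖) ^ 2 ≤ (η * ‖c r‖) ^ 2 := by
      gcongr
    exact mul_le_mul_of_nonneg_right h2 (by positivity)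
  · refine e1.trans ?_
    have h3 : r₁ ^ (1 / 8 : ℝ) * ‖c₀‖ ≤ 1 * 4 :=
      mul_le_mul hr18 hc₀2 (norm_nonneg _) zero_le_one
    linarith
  · have h3 : r ^ (1 / 8 : ℝ) * (1 / 4) ≤ r ^ (1 / 8 : ℝ) * ‖c₀‖ :=
      mul_le_mul_of_nonneg_left hc₀1 hr8.le
    have h4 : r₁ ^ (1 / 8 : ℝ) * ‖c r‖ ≤ 1 * ‖c r‖ := mul_le_mul_of_nonneg_right hr18 hcn
    linarith

end Pool.Agent.Lib.Qcd
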