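import Pool.Agent.Lib.Qcd.Lift
import Pool.Agent.Lib.Qcd.Cov
import Pool.Agent.Lib.Psd.ChartA
import Pool.Agent.Lib.Psd.Rep

set_option autoImplicit false

/-!
# A normalised lift in charts, I

Notation: `σ = sig z u v`, `λ = lamG Φ z u v`, `G = Gc Φ z u v p q`, `g x = ∑ a, G x a • fr p q a ∈ span (p, q)`, `λ x = hp (Φ z) (Φ (σ x))`.
-/

open MeasureTheory Set Metric
open scoped ContDiff ENNReal

namespace Pool.Agent.Lib.Qcd

open Pool.Agent.P28b04d Pool.Agent.Lib.Psd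

variable {Φ : W → W} {z u v p q : W}

namespace GDefAAux

/-- `hp a` as a continuous linear map. -/
noncomputable def hpL (a : W) : W →L[ℝ] ℂ :=
  (∑ k, star (a k) • (ContinuousLinearMap.proj k : W →L[ℂ] ℂ)).restrictScalars ℝ

theorem hpL_apply (a b : W) : hpL a b = hp a b := by
  simp [hpL, hp]

theorem sig_smooth (z u v : W) : ContDiff ℝ ∞ (sig z u v) := contDiff_const.add (Lf u v).contDiff

theorem PS (hΦ : HLoc (n := 2) Φ) (h : ON3 z u v) : ContDiff ℝ ∞ (fun x => Φ (sig z u v x)) := by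
  rw [contDiff_iff_contDiffAt]
  intro x
  exact (hΦ.contDiffAt (sig_ne h x)).comp x (sig_smooth z u v).contDiffAt

theorem hpPS (hΦ : HLoc (n := 2) Φ) (h : ON3 z u v) (a : W) :
    ContDiff ℝ ∞ (fun x => hp a (Φ (sig z u v x))) := by
  have h1 : (fun x => hp a (Φ (sig z u v x))) = fun x => hpL a (Φ (sig z u v x)) := by
    funext x
    rw [hpL_apply]
  rw [h1]
  exact (hpL a).contDiff.comp (PS hΦ h)

theorem fr_sum (p q : W) (G : Fin 4 → ℝ) :
    ∑ a, G a • fr p q a = ((G 0 : ℂ) + G 1 * Complex.I) • p + ((G 2 : ℂ) + G 3 * Complex.I) • q := by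
  rw [Fin.sum_univ_four]
  ext i
  simp [fr]
  ring

end GDefAAux

open GDefAAux

theorem Phi_eq (h' : ON3 (Φ z) p q) {x : E} (hx : lamG Φ z u v x ≠ 0) :
    Φ (sig z u v x) = lamG Φ z u v x • (Φ z + ∑ a, Gc Φ z u v p q x a • fr p q a) := by
  have h1 := basis_eq h' (Φ (sig z u v x))
  have e0 : ((Gc Φ z u v p q x 0 : ℝ) : ℂ) + (Gc Φ z u v p q x 1 : ℝ) * Complex.I =
      hp p (Φ (sig z u v x)) / lamG Φ z u v x := Complex.re_add_im _
  have e1 : ((Gc Φ z u v p q x 2 : ℝ) : ℂ) + (Gc Φ z u v p q x 3 : ℝ) * Complex.I =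
      hp q (Φ (sig z u v x)) / lamG Φ z u v x := Complex.re_add_im _
  rw [fr_sum, e0, e1]
  conv_lhs => rw [h1]
  rw [smul_add, smul_add, smul_smul, smul_smul, mul_div_cancel₀ _ hx, mul_div_cancel₀ _ hx,
    add_assoc]
  rfl

theorem lamG_smooth (hΦ : HLoc (n := 2) Φ) (h : ON3 z u v) : ContDiff ℝ ∞ (lamG Φ z u v) :=
  hpPS hΦ h (Φ z)

theorem Gc_smooth (hΦ : HLoc (n := 2) Φ) (h : ON3 z u v) {x : E} (hx : lamG Φ z u v x ≠ 0) (a : Fin 4) :
    ContDiffAt ℝ ∞ (fun y => Gc Φ z u v p q y a) x := by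
  have hd : ∀ b : W, ContDiffAt ℝ ∞ (fun y => hp b (Φ (sig z u v y)) / lamG Φ z u v y) x := by
    intro b
    have hi : ContDiffAt ℝ ∞ (fun y => (lamG Φ z u v y)⁻¹) x :=
      (lamG_smooth hΦ h).contDiffAt.inv hx
    have h1 : (fun y => hp b (Φ (sig z u v y)) / lamG Φ z u v y) =
        fun y => hp b (Φ (sig z u v y)) * (lamG Φ z u v y)⁻¹ := by
      funext y
      rw [div_eq_mul_inv]
    rw [h1]
    exact (hpPS hΦ h b).contDiffAt.mul hi
  have hre : ∀ b : W, ContDiffAt ℝ ∞ (fun y => (hp b (Φ (sig z u v y)) / lamG Φ z u v y).re) x :=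
    fun b => Complex.reCLM.contDiff.contDiffAt.comp x (hd b)
  have him : ∀ b : W, ContDiffAt ℝ ∞ (fun y => (hp b (Φ (sig z u v y)) / lamG Φ z u v y).im) x :=
    fun b => Complex.imCLM.contDiff.contDiffAt.comp x (hd b)
  fin_cases a
  · exact hre p
  · exact him p
  · exact hre q
  · exact him q

theorem Phi_fderiv (hΦ : HLoc (n := 2) Φ) (h : ON3 z u v) (h' : ON3 (Φ z) p q) {x : E}
    (hx : lamG Φ z u v x ≠ 0) (w : E) :
    fderiv ℝ Φ (sig z u v x) (Lf u v w) =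
      (fderiv ℝ (lamG Φ z u v) x w) • (Φ z + ∑ a, Gc Φ z u v p q x a • fr p q a) +
        lamG Φ z u v x • ∑ a, (∑ i, w i * DG Φ z u v p q x i a) • fr p q a := by
  have hs : HasFDerivAt (sig z u v) (Lf u v) x := by
    have := (Lf u v).hasFDerivAt (x := x)
    exact this.const_add z
  have hP : HasFDerivAt Φ (fderiv ℝ Φ (sig z u v x)) (sig z u v x) :=
    ((hΦ.contDiffAt (sig_ne h x)).differentiableAt (by simp)).hasFDerivAt
  have h1 : HasFDerivAt (fun y => Φ (sig z u v y)) ((fderiv ℝ Φ (sig z u v x)).comp (Lf u v)) x :=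
    hP.comp x hs
  have hl : HasFDerivAt (lamG Φ z u v) (fderiv ℝ (lamG Φ z u v) x) x :=
    ((lamG_smooth hΦ h).differentiable (by simp) x).hasFDerivAt
  have hG : ∀ a, HasFDerivAt (fun y => Gc Φ z u v p q y a)
      (fderiv ℝ (fun y => Gc Φ z u v p q y a) x) x := fun a =>
    ((Gc_smooth hΦ h hx a).differentiableAt (by simp)).hasFDerivAt
  have hV : HasFDerivAt (fun y => Φ z + ∑ a, Gc Φ z u v p q y a • fr p q a)
      (∑ a, (fderiv ℝ (fun y => Gc Φ z u v p q y a) x).smulRight (fr p q a)) x := by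
    refine HasFDerivAt.const_add _ ?_
    exact HasFDerivAt.fun_sum fun a _ => (hG a).smul_const (fr p q a)
  have h2 := hl.smul hV
  have hev : (fun y => Φ (sig z u v y)) =ᶠ[nhds x]
      fun y => lamG Φ z u v y • (Φ z + ∑ a, Gc Φ z u v p q y a • fr p q a) := by
    have : ∀ᶠ y in nhds x, lamG Φ z u v y ≠ 0 :=
      (lamG_smooth hΦ h).continuous.continuousAt.eventually_ne hx
    filter_upwards [this] with y hy
    exact Phi_eq h' hy
  have h3 := h1.unique (h2.congr_of_eventuallyEq hev)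
  have h4 := congrArg (fun L : E →L[ℝ] W => L w) h3
  simp only [ContinuousLinearMap.comp_apply, _root_.add_apply, _root_.smul_apply,
    ContinuousLinearMap.smulRight_apply, _root_.sum_apply] at h4
  rw [h4, add_comm]
  congr 2
  refine Finset.sum_congr rfl fun a _ => ?_
  congr 1
  have hw : w = ∑ k, w k • ev k := by
    ext i
    simp [ev, Fin.sum_univ_four]
    fin_cases i <;> simp
  conv_lhs => rw [hw]
  rw [map_sum]
  refine Finset.sum_congr rfl fun i _ => ?_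
  rw [map_smul, smul_eq_mul]
  rfl

theorem lamG_nsq (hΦ : NL Φ) (h : ON3 z u v) (h' : ON3 (Φ z) p q) {x : E} (hx : lamG Φ z u v x ≠ 0) :
    Complex.normSq (lamG Φ z u v x) * (1 + ∑ a, Gc Φ z u v p q x a ^ 2) = 1 + ‖x‖ ^ 2 := by
  have h1 := nsq_sig h' (WithLp.toLp 2 (Gc Φ z u v p q x) : E)
  have h2 : sig (Φ z) p q (WithLp.toLp 2 (Gc Φ z u v p q x) : E) =
      Φ z + ∑ a, Gc Φ z u v p q x a • fr p q a := by
    rw [sig, Lf_apply]
  have h3 : ‖(WithLp.toLp 2 (Gc Φ z u v p q x) : E)‖ ^ 2 = ∑ a, Gc Φ z u v p q x a ^ 2 := by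
    rw [EuclideanSpace.norm_sq_eq]
    simp
  rw [h2, h3] at h1
  rw [← h1, ← ConnBAux.nsq_smul, ← Phi_eq h' hx, hΦ.nrm, nsq_sig h]

theorem extG (hΦ : HLoc (n := 2) Φ) (h : ON3 z u v) {ρ : ℝ} (hρ : 0 < ρ)
    (hl : ∀ x : E, ‖x‖ ≤ ρ → lamG Φ z u v x ≠ 0) :
    ∃ G : Fin 4 → E → ℝ, (∀ a, ContDiff ℝ ∞ (G a)) ∧
      ∀ x : E, ‖x‖ < 3 * ρ / 4 → dm G x = DG Φ z u v p q x := by
  refine ⟨fun a x => cutf ρ x * Gc Φ z u v p q x a, fun a => ?_, fun x hx => ?_⟩
  · rw [contDiff_iff_contDiffAt]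
    intro x
    by_cases hx : ‖x‖ ≤ ρ
    · exact (cutf_contDiff ρ).contDiffAt.mul (Gc_smooth hΦ h (hl x hx) a)
    · push Not at hx
      have : (fun x => cutf ρ x * Gc Φ z u v p q x a) =ᶠ[nhds x] fun _ => 0 := by
        have hop : IsOpen {y : E | ρ < ‖y‖} := isOpen_lt continuous_const continuous_norm
        filter_upwards [hop.mem_nhds hx] with y hy
        rw [cutf_zero hρ (le_of_lt hy), zero_mul]
      exact contDiffAt_const.congr_of_eventuallyEq this
  · funext i a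
    unfold DG dm pd
    have : (fun x => cutf ρ x * Gc Φ z u v p q x a) =ᶠ[nhds x] fun y => Gc Φ z u v p q y a := by
      have hop : IsOpen {y : E | ‖y‖ < 3 * ρ / 4} := isOpen_lt continuous_norm continuous_const
      filter_upwards [hop.mem_nhds hx] with y hy
      rw [cutf_one hρ (le_of_lt hy), one_mul]
    rw [this.fderiv_eq]

end Pool.Agent.Lib.Qcd
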