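import Pool.Agent.Lib.Qcd.Defs
import Pool.Agent.Lib.Psd.BdB

set_option autoImplicit false

/-!
# A bump function and the cut-off of a basic form near the origin

PROOFS. `exists_bump`: a `ContDiffBump` at `0` (or `k max (1 - ‖y‖) 0` with `k` the inverse of its integral).
`cut_basic`: `Basic.bound` and the same argument for `fderiv ℝ γ` (`BdBAux.sphere_bound`, `BdBAux.contFd`): `‖γ p‖ ≤ K / ‖p‖` (and only this is needed). Let `f : ℝ → ℝ` be `Real.smoothTransition` and `β p = f (nsq p / e ^ 2 - 1) • γ p` for `p ≠ 0`, `β 0 = 0`: it vanishes for `nsq p ≤ e ^ 2`, so it is smooth on `W`; it is `γ p` for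
`nsq p ≥ 2 e ^ 2`, in particular for `‖p‖ ≥ 1/2` if `e ≤ 1/4` (`nsq p ≥ ‖p‖ ^ 2`). `tn β p ≤ tn γ p + 2 ‖D(f (nsq p / e ^ 2 - 1))‖ ‖γ p‖` (`d(f γ) = f dγ + df ∧ γ`, `0 ≤ f ≤ 1`), and the second term is zero unless `e ^ 2 ≤ nsq p ≤ 2 e ^ 2`, where `‖p‖ ≥ e / 2`, and `‖D(..)‖ ≤ C ‖p‖ / e ^ 2 ≤ C' / e`; so it is at most `K' / e ^ 2` and
supported in `‖p‖ ≤ 2 e`: its integral over `W` is at most `K'' e ^ 4` (`volume (closedBall 0 (2 e)) = (2 e) ^ 6 volume (closedBall 0 1)`). For `nsq z = 1`: `‖z‖ ≥ 1 / √3 > 1/2 + 1/16`; if `closedBall z (2 s)` meets `‖p‖ ≤ 2 e ≤ 1/32` then `2 s ≥ 1/2`, `(s ^ 6)⁻¹ ≤ 4 ^ 6`. Choose `e` with `4 ^ 6 K'' e ^ 4 ≤ δ`.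
-/

open MeasureTheory Set Metric
open scoped ContDiff ENNReal

namespace Pool.Agent.Lib.Qcd

open Pool.Agent.P28b04d Pool.Agent.Lib.Psd

theorem exists_bump : ∃ (ν : W → ℝ) (b : ℝ), Continuous ν ∧ (∀ y, 0 ≤ ν y) ∧ (∀ y, ν y ≤ b) ∧
    (∀ y, 1 ≤ ‖y‖ → ν y = 0) ∧ ∫ y, ν y = 1 := by
  let f : ContDiffBump (0 : W) := ⟨1 / 2, 1, by norm_num, by norm_num⟩
  refine ⟨f.normed volume, 1 / (volume : Measure W).real (closedBall 0 f.rIn), ?_, ?_, ?_, ?_, ?_⟩
  · exact f.continuous_normed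
  · intro y
    exact f.nonneg_normed y
  · intro y
    exact f.normed_le_div_measure_closedBall_rIn volume y
  · intro y hy
    by_contra h
    have h1 : y ∈ Function.support (f.normed volume) := h
    rw [f.support_normed_eq] at h1
    have h2 : ‖y‖ < 1 := by simpa using h1
    exact absurd hy (not_le.2 h2)
  · exact f.integral_normed

namespace GauBAux

theorem norm_sq_le (z : W) : ‖z‖ ^ 2 ≤ nsq z := by
  have h0 : 0 ≤ nsq z := nsq_nonneg z
  have h1 : ‖z‖ ≤ √(nsq z) := by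
    refine (pi_norm_le_iff_of_nonneg (Real.sqrt_nonneg _)).2 ?_
    intro k
    refine Real.le_sqrt_of_sq_le ?_
    rw [← Complex.normSq_eq_norm_sq]
    exact Finset.single_le_sum (f := fun k => Complex.normSq (z k))
      (fun i _ => Complex.normSq_nonneg _) (Finset.mem_univ k)
  calc ‖z‖ ^ 2 ≤ √(nsq z) ^ 2 := by gcongr
    _ = nsq z := Real.sq_sqrt h0

theorem nsq_le (z : W) : nsq z ≤ 3 * ‖z‖ ^ 2 := by
  have h1 : nsq z ≤ ∑ _k : Fin 3, ‖z‖ ^ 2 := by
    refine Finset.sum_le_sum fun k _ => ?_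
    rw [Complex.normSq_eq_norm_sq]
    have := norm_le_pi_norm z k
    gcongr
  simpa using h1

/-- the cut-off at scale one -/
noncomputable def GG (p : W) : ℝ := Real.smoothTransition (nsq p - 1)

theorem GG_smooth : ContDiff ℝ ∞ GG :=
  Real.smoothTransition.contDiff.comp (ConnBAux.contDiff_nsq.sub contDiff_const)

theorem GG_zero {p : W} (h : nsq p ≤ 1) : GG p = 0 :=
  Real.smoothTransition.zero_of_nonpos (by linarith)

theorem GG_one {p : W} (h : 2 ≤ nsq p) : GG p = 1 :=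
  Real.smoothTransition.one_of_one_le (by linarith)

theorem contNsq : Continuous (fun z : W => nsq z) := ConnBAux.contDiff_nsq.continuous

theorem GG_der {p : W} (h : nsq p < 1 ∨ 2 < nsq p) : fderiv ℝ GG p = 0 := by
  rcases h with h | h
  · have h1 : GG =ᶠ[nhds p] fun _ => (0 : ℝ) := by
      filter_upwards [(isOpen_lt contNsq continuous_const).mem_nhds h] with q hq
      exact GG_zero (le_of_lt hq)
    rw [h1.fderiv_eq]
    simp
  · have h1 : GG =ᶠ[nhds p] fun _ => (1 : ℝ) := by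
      filter_upwards [(isOpen_lt continuous_const contNsq).mem_nhds h] with q hq
      exact GG_one (le_of_lt hq)
    rw [h1.fderiv_eq]
    simp

theorem GG_bound : ∃ M : ℝ, 0 ≤ M ∧ ∀ p : W, ‖fderiv ℝ GG p‖ ≤ M := by
  have hc : Continuous (fun p => fderiv ℝ GG p) := GG_smooth.continuous_fderiv (by simp)
  obtain ⟨C, hC⟩ := (isCompact_closedBall (0 : W) 2).exists_bound_of_continuousOn hc.continuousOn
  refine ⟨max C 0, le_max_right _ _, fun p => ?_⟩
  by_cases hp : p ∈ closedBall (0 : W) 2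
  · exact (hC p hp).trans (le_max_left _ _)
  · have h1 : 2 < ‖p‖ := by simpa using hp
    have h2 : 2 < nsq p := by
      have := norm_sq_le p
      nlinarith
    rw [GG_der (Or.inr h2), norm_zero]
    exact le_max_right _ _

/-- the cut-off at scale `e` -/
noncomputable def gg (e : ℝ) (p : W) : ℝ := GG (e⁻¹ • p)

theorem nsq_real (e : ℝ) (p : W) : nsq (e • p) = e ^ 2 * nsq p := by
  have h1 : e • p = (e : ℂ) • p := rfl
  rw [h1, ConnBAux.nsq_smul, Complex.normSq_ofReal, sq]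

theorem gg_smooth (e : ℝ) : ContDiff ℝ ∞ (gg e) :=
  GG_smooth.comp (contDiff_const_smul _)

theorem gg_zero {e : ℝ} (he : 0 < e) {p : W} (h : nsq p ≤ e ^ 2) : gg e p = 0 := by
  refine GG_zero ?_
  rw [nsq_real, inv_pow, inv_mul_le_iff₀ (by positivity)]
  simpa using h

theorem gg_one {e : ℝ} (he : 0 < e) {p : W} (h : 2 * e ^ 2 ≤ nsq p) : gg e p = 1 := by
  refine GG_one ?_
  rw [nsq_real, inv_pow, le_inv_mul_iff₀ (by positivity)]
  linarith

theorem gg_fderiv (e : ℝ) (p : W) : fderiv ℝ (gg e) p = e⁻¹ • fderiv ℝ GG (e⁻¹ • p) := by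
  have h1 : HasFDerivAt GG (fderiv ℝ GG (e⁻¹ • p)) (e⁻¹ • p) :=
    (GG_smooth.differentiable (by simp) _).hasFDerivAt
  have h2 : HasFDerivAt (fun q : W => e⁻¹ • q) (e⁻¹ • ContinuousLinearMap.id ℝ W) p :=
    (hasFDerivAt_id p).const_smul e⁻¹
  have h3 := h1.comp p h2
  have h4 : fderiv ℝ (gg e) p = (fderiv ℝ GG (e⁻¹ • p)).comp (e⁻¹ • ContinuousLinearMap.id ℝ W) :=
    h3.fderiv
  rw [h4]
  ext v
  simp

theorem gg_der {e : ℝ} (he : 0 < e) {p : W} (h : nsq p < e ^ 2 ∨ 2 * e ^ 2 < nsq p) :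
    fderiv ℝ (gg e) p = 0 := by
  rw [gg_fderiv, GG_der, smul_zero]
  rw [nsq_real, inv_pow, inv_mul_lt_iff₀ (by positivity), lt_inv_mul_iff₀ (by positivity)]
  rcases h with h | h
  · left
    simpa using h
  · right
    linarith

theorem gg_mem (e : ℝ) (p : W) : 0 ≤ gg e p ∧ gg e p ≤ 1 :=
  ⟨Real.smoothTransition.nonneg _, Real.smoothTransition.le_one _⟩

theorem gen0 {Y : Type} [SeminormedAddCommGroup Y] (L : Y) (h : L = 0) : ‖(0 : Y) - L‖ = 0 := by
  rw [h]
  simp

theorem norm_z {E : Type} [NormedAddCommGroup E] [NormedSpace ℝ E] :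
    ‖(0 : E →L[ℝ] E →L[ℝ] ℝ) - (0 : E →L[ℝ] E →L[ℝ] ℝ).flip‖ = 0 :=
  gen0 (Y := E →L[ℝ] E →L[ℝ] ℝ) _ (by ext v w; simp)

theorem gen {Y : Type} [SeminormedAddCommGroup Y] [NormedSpace ℝ Y] {a : ℝ} (ha : 0 ≤ a) (ha1 : a ≤ 1)
    (T B L L' : Y) {b : ℝ} (hL : ‖L‖ ≤ b) (hL' : ‖L'‖ = ‖L‖) (hT : T = a • B + (L - L')) :
    ‖T‖ ≤ ‖B‖ + 2 * b := by
  have e3 : ‖L - L'‖ ≤ ‖L‖ + ‖L'‖ := norm_sub_le _ _
  have e4 : ‖a • B‖ ≤ ‖B‖ := by
    rw [norm_smul, Real.norm_eq_abs, abs_of_nonneg ha]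
    exact mul_le_of_le_one_left (norm_nonneg _) ha1
  rw [hT]
  refine (norm_add_le _ _).trans ?_
  linarith

theorem key {E : Type} [NormedAddCommGroup E] [NormedSpace ℝ E] {a : ℝ} (ha : 0 ≤ a) (ha1 : a ≤ 1)
    (A : E →L[ℝ] E →L[ℝ] ℝ) (φ ψ : E →L[ℝ] ℝ) :
    ‖a • A + φ.smulRight ψ - (a • A + φ.smulRight ψ).flip‖ ≤ ‖A - A.flip‖ + 2 * (‖φ‖ * ‖ψ‖) := by
  refine gen (Y := E →L[ℝ] E →L[ℝ] ℝ) ha ha1 _ (A - A.flip) (φ.smulRight ψ) (φ.smulRight ψ).flip
    (b := ‖φ‖ * ‖ψ‖) ?_ ?_ ?_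
  · rw [ContinuousLinearMap.norm_smulRight_apply]
  · rw [ContinuousLinearMap.opNorm_flip]
  · ext v w
    simp only [ContinuousLinearMap.sub_apply, ContinuousLinearMap.add_apply,
      ContinuousLinearMap.smul_apply, ContinuousLinearMap.flip_apply, smul_eq_mul]
    ring

theorem tn_cut {γ : W → W →L[ℝ] ℝ} (hγ : Basic γ) : ∃ K : ℝ, 0 ≤ K ∧ ∀ e : ℝ, 0 < e → ∀ p : W,
    ENNReal.ofReal (tn (fun p => gg e p • γ p) p) ≤ ENNReal.ofReal (tn γ p) +
      (closedBall (0 : W) (2 * e)).indicator (fun _ => ENNReal.ofReal (K / e ^ 2)) p := by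
  obtain ⟨C, hC0, hC, -⟩ := hγ.bound
  obtain ⟨M, hM0, hM⟩ := GG_bound
  refine ⟨4 * M * C, by positivity, fun e he p => ?_⟩
  have hCn : ∀ z : W, z ≠ 0 → ‖γ z‖ ≤ C / ‖z‖ := by
    intro z hz
    refine ContinuousLinearMap.opNorm_le_bound _ (by positivity) fun v => ?_
    rw [Real.norm_eq_abs]
    refine (hC z hz v).trans (le_of_eq ?_)
    ring
  by_cases hp : p = 0
  · subst hp
    have h1 : (fun p => gg e p • γ p) =ᶠ[nhds (0 : W)] fun _ => (0 : W →L[ℝ] ℝ) := by
      have h0 : nsq (0 : W) < e ^ 2 := by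
        have : nsq (0 : W) = 0 := by
          unfold nsq
          simp
        rw [this]
        positivity
      filter_upwards [(isOpen_lt contNsq continuous_const).mem_nhds h0] with q hq
      rw [gg_zero he (le_of_lt hq), zero_smul]
    have h2 : tn (fun p => gg e p • γ p) 0 = 0 := by
      unfold tn
      rw [h1.fderiv_eq, fderiv_fun_const]
      exact norm_z
    rw [h2, ENNReal.ofReal_zero]
    exact bot_le
  have hgd : HasFDerivAt (gg e) (fderiv ℝ (gg e) p) p :=
    ((gg_smooth e).differentiable (by simp) _).hasFDerivAt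
  have hγd : HasFDerivAt γ (fderiv ℝ γ p) p :=
    ((hγ.smooth.contDiffAt (isOpen_compl_singleton.mem_nhds hp)).differentiableAt
      (by simp)).hasFDerivAt
  have hβ : fderiv ℝ (fun p => gg e p • γ p) p =
      gg e p • fderiv ℝ γ p + (fderiv ℝ (gg e) p).smulRight (γ p) := (hgd.smul hγd).fderiv
  have h3 : tn (fun p => gg e p • γ p) p ≤ tn γ p + 2 * (‖fderiv ℝ (gg e) p‖ * ‖γ p‖) := by
    unfold tn
    rw [hβ]
    exact key (gg_mem e p).1 (gg_mem e p).2 _ _ _
  have h4 : ∀ a b : ℝ, 0 ≤ b → ENNReal.ofReal (a + b) ≤ ENNReal.ofReal a + ENNReal.ofReal b :=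
    fun a b _ => ENNReal.ofReal_add_le
  refine (ENNReal.ofReal_le_ofReal h3).trans ((h4 _ _ (by positivity)).trans ?_)
  refine add_le_add le_rfl ?_
  by_cases hr : nsq p < e ^ 2 ∨ 2 * e ^ 2 < nsq p
  · rw [gg_der he hr, norm_zero, zero_mul, mul_zero, ENNReal.ofReal_zero]
    exact bot_le
  have hr1 : e ^ 2 ≤ nsq p := by
    by_contra hh
    exact hr (Or.inl (not_le.1 hh))
  have hr2 : nsq p ≤ 2 * e ^ 2 := by
    by_contra hh
    exact hr (Or.inr (not_le.1 hh))
  have hpn : 0 < ‖p‖ := norm_pos_iff.2 hp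
  have hmem : p ∈ closedBall (0 : W) (2 * e) := by
    rw [mem_closedBall_zero_iff]
    have h5 := norm_sq_le p
    nlinarith
  rw [indicator_of_mem hmem]
  refine ENNReal.ofReal_le_ofReal ?_
  have h6 : e / 2 ≤ ‖p‖ := by
    have h5 := nsq_le p
    nlinarith
  have h7 : ‖fderiv ℝ (gg e) p‖ ≤ M / e := by
    rw [gg_fderiv, norm_smul, norm_inv, Real.norm_eq_abs, abs_of_pos he, div_eq_inv_mul]
    exact mul_le_mul_of_nonneg_left (hM _) (by positivity)
  have h8 : ‖γ p‖ ≤ C / (e / 2) :=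
    (hCn p hp).trans (div_le_div_of_nonneg_left hC0 (by positivity) h6)
  calc 2 * (‖fderiv ℝ (gg e) p‖ * ‖γ p‖) ≤ 2 * ((M / e) * (C / (e / 2))) := by gcongr
    _ = 4 * M * C / e ^ 2 := by
        field_simp
        ring

end GauBAux

open GauBAux in
theorem cut_basic {γ : W → W →L[ℝ] ℝ} (hγ : Basic γ) {δ : ℝ} (hδ : 0 < δ) :
    ∃ β : W → W →L[ℝ] ℝ, ContDiff ℝ ∞ β ∧ (∀ z, 1 / 2 ≤ ‖z‖ → β z = γ z) ∧ ∀ z : W, nsq z = 1 →
      ∫⁻ s in Ioo (0 : ℝ) 1, (ENNReal.ofReal (s ^ 6))⁻¹ *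
          ∫⁻ p in closedBall z (2 * s), ENNReal.ofReal (tn β p) ≤
        ENNReal.ofReal δ + ∫⁻ s in Ioo (0 : ℝ) 1, (ENNReal.ofReal (s ^ 6))⁻¹ *
          ∫⁻ p in closedBall z (2 * s), ENNReal.ofReal (tn γ p) := by
  obtain ⟨K, hK0, hK⟩ := tn_cut hγ
  set V : ℝ := ((volume : Measure W) (ball 0 1)).toReal with hV
  have hV0 : 0 ≤ V := ENNReal.toReal_nonneg
  have hVe : (volume : Measure W) (ball 0 1) = ENNReal.ofReal V := by
    rw [hV, ENNReal.ofReal_toReal]
    exact measure_ball_lt_top.ne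
  set e : ℝ := min (1 / 64) (δ / (262144 * K * V + 1)) with he
  have hden : 0 < 262144 * K * V + 1 := by positivity
  have he0 : 0 < e := lt_min (by norm_num) (div_pos hδ hden)
  have he1 : e ≤ 1 / 64 := min_le_left _ _
  have he2 : 262144 * K * V * e ^ 4 ≤ δ := by
    have h1 : e ≤ δ / (262144 * K * V + 1) := min_le_right _ _
    have h2 : e * (262144 * K * V + 1) ≤ δ := by
      rwa [le_div_iff₀ hden] at h1
    have h3 : e ^ 4 ≤ e := by
      have : e ^ 4 = e * e ^ 3 := by ring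
      rw [this]
      have h4 : e ^ 3 ≤ 1 := pow_le_one₀ he0.le (by linarith)
      nlinarith
    have h5 : 0 ≤ 262144 * K * V := by positivity
    nlinarith
  refine ⟨fun p => gg e p • γ p, ?_, ?_, ?_⟩
  · rw [contDiff_iff_contDiffAt]
    intro p
    by_cases hp : p = 0
    · subst hp
      have h1 : (fun p => gg e p • γ p) =ᶠ[nhds (0 : W)] fun _ => (0 : W →L[ℝ] ℝ) := by
        have h0 : nsq (0 : W) < e ^ 2 := by
          have : nsq (0 : W) = 0 := by
            unfold nsq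
            simp
          rw [this]
          positivity
        filter_upwards [(isOpen_lt contNsq continuous_const).mem_nhds h0] with q hq
        rw [gg_zero he0 (le_of_lt hq), zero_smul]
      exact contDiffAt_const.congr_of_eventuallyEq h1
    · exact (gg_smooth e).contDiffAt.smul (hγ.smooth.contDiffAt (isOpen_compl_singleton.mem_nhds hp))
  · intro z hz
    show gg e z • γ z = γ z
    rw [gg_one he0, one_smul]
    have h1 := norm_sq_le z
    nlinarith
  · intro z hz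
    have hzn : 9 / 16 < ‖z‖ := by
      have h1 := nsq_le z
      rw [hz] at h1
      by_contra hh
      have h2 : ‖z‖ ≤ 9 / 16 := not_lt.1 hh
      have h3 := norm_nonneg z
      nlinarith
    have hmain : ∀ s ∈ Ioo (0 : ℝ) 1, (ENNReal.ofReal (s ^ 6))⁻¹ *
          ∫⁻ p in closedBall z (2 * s), ENNReal.ofReal (tn (fun p => gg e p • γ p) p) ≤
        ENNReal.ofReal δ + (ENNReal.ofReal (s ^ 6))⁻¹ *
          ∫⁻ p in closedBall z (2 * s), ENNReal.ofReal (tn γ p) := by
      intro s hs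
      have h1 : ∫⁻ p in closedBall z (2 * s), ENNReal.ofReal (tn (fun p => gg e p • γ p) p) ≤
          (∫⁻ p in closedBall z (2 * s), ENNReal.ofReal (tn γ p)) +
            ∫⁻ p in closedBall z (2 * s), (closedBall (0 : W) (2 * e)).indicator
              (fun _ => ENNReal.ofReal (K / e ^ 2)) p := by
        rw [← lintegral_add_right _ (measurable_const.indicator measurableSet_closedBall)]
        exact lintegral_mono fun p => hK e he0 p
      have h2 : (ENNReal.ofReal (s ^ 6))⁻¹ * ∫⁻ p in closedBall z (2 * s),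
          (closedBall (0 : W) (2 * e)).indicator (fun _ => ENNReal.ofReal (K / e ^ 2)) p ≤
          ENNReal.ofReal δ := by
        rw [lintegral_indicator_const measurableSet_closedBall,
          Measure.restrict_apply measurableSet_closedBall]
        by_cases hs4 : s < 1 / 4
        · have h3 : closedBall (0 : W) (2 * e) ∩ closedBall z (2 * s) = ∅ := by
            rw [eq_empty_iff_forall_notMem]
            rintro p ⟨hp1, hp2⟩
            rw [mem_closedBall_zero_iff] at hp1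
            rw [mem_closedBall, dist_eq_norm] at hp2
            have h4 : ‖z‖ ≤ ‖p‖ + ‖p - z‖ := by
              have h5 : z = p - (p - z) := by abel
              calc ‖z‖ = ‖p - (p - z)‖ := by rw [← h5]
                _ ≤ ‖p‖ + ‖p - z‖ := norm_sub_le _ _
            linarith
          rw [h3, measure_empty, mul_zero, mul_zero]
          exact bot_le
        · have hs5 : 1 / 4 ≤ s := not_lt.1 hs4
          have h3 : (ENNReal.ofReal (s ^ 6))⁻¹ ≤ ENNReal.ofReal 4096 := by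
            rw [← ENNReal.ofReal_inv_of_pos (by have := hs.1; positivity)]
            refine ENNReal.ofReal_le_ofReal ?_
            rw [inv_le_comm₀ (by have := hs.1; positivity) (by norm_num)]
            calc (4096 : ℝ)⁻¹ = (1 / 4) ^ 6 := by norm_num
              _ ≤ s ^ 6 := by gcongr
          have h4 : (volume : Measure W) (closedBall (0 : W) (2 * e) ∩ closedBall z (2 * s)) ≤
              ENNReal.ofReal ((2 * e) ^ 6) * ENNReal.ofReal V := by
            refine (measure_mono inter_subset_left).trans (le_of_eq ?_)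
            rw [Measure.addHaar_closedBall _ _ (by positivity), hVe]
            congr 3
            simp [Module.finrank_pi_fintype]
          calc (ENNReal.ofReal (s ^ 6))⁻¹ * (ENNReal.ofReal (K / e ^ 2) *
                (volume : Measure W) (closedBall (0 : W) (2 * e) ∩ closedBall z (2 * s)))
              ≤ ENNReal.ofReal 4096 * (ENNReal.ofReal (K / e ^ 2) *
                (ENNReal.ofReal ((2 * e) ^ 6) * ENNReal.ofReal V)) := by gcongr
            _ = ENNReal.ofReal (262144 * K * V * e ^ 4) := by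
                rw [← ENNReal.ofReal_mul (by positivity), ← ENNReal.ofReal_mul (by positivity),
                  ← ENNReal.ofReal_mul (by norm_num)]
                congr 1
                field_simp
                ring
            _ ≤ ENNReal.ofReal δ := ENNReal.ofReal_le_ofReal he2
      calc (ENNReal.ofReal (s ^ 6))⁻¹ *
          ∫⁻ p in closedBall z (2 * s), ENNReal.ofReal (tn (fun p => gg e p • γ p) p)
          ≤ (ENNReal.ofReal (s ^ 6))⁻¹ * ((∫⁻ p in closedBall z (2 * s), ENNReal.ofReal (tn γ p)) +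
            ∫⁻ p in closedBall z (2 * s), (closedBall (0 : W) (2 * e)).indicator
              (fun _ => ENNReal.ofReal (K / e ^ 2)) p) := by gcongr
        _ = ((ENNReal.ofReal (s ^ 6))⁻¹ * ∫⁻ p in closedBall z (2 * s), ENNReal.ofReal (tn γ p)) +
            (ENNReal.ofReal (s ^ 6))⁻¹ * ∫⁻ p in closedBall z (2 * s),
              (closedBall (0 : W) (2 * e)).indicator (fun _ => ENNReal.ofReal (K / e ^ 2)) p :=
            mul_add _ _ _
        _ ≤ ((ENNReal.ofReal (s ^ 6))⁻¹ * ∫⁻ p in closedBall z (2 * s), ENNReal.ofReal (tn γ p)) +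
            ENNReal.ofReal δ := add_le_add le_rfl h2
        _ = _ := add_comm _ _
    refine (setLIntegral_mono' measurableSet_Ioo hmain).trans ?_
    rw [lintegral_add_left measurable_const, setLIntegral_const, Real.volume_Ioo]
    simp

end Pool.Agent.Lib.Qcd
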