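import Pool.Agent.Lib.Qcd.GauA
import Pool.Agent.Lib.Qcd.GauB
import Pool.Agent.Lib.P28e.AvgSmooth

set_option autoImplicit false

/-!
# An almost primitive of a basic form

PROOF. Let `ν, b` be as in `exists_bump` and `δ' > 0` with `6 b δ' ≤ δ` (`b > 0` because `∫ ν = 1`). `β` from `cut_basic` with `δ'`, `X = hom1 ν β` (smooth on `W`). `hom1_bound` for `nsq z = 1` (`‖z‖ ≤ 1`; `β z = γ z` since `‖z‖ ≥ 1/√3 ≥ 1/2`): `|γ z v - fderiv ℝ X z v| ≤ 2 b (B + δ') ‖v‖` (all numbers are finite: `ENNReal.ofReal_le_ofReal_iff`).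
Let `χ z = (2 π)⁻¹ ∫_0^{2π} X ((exp (iθ) / √nsq z) z) dθ`. It is smooth on `{0}ᶜ` (integral over a compact interval of a function smooth in the parameter, jointly smooth: `contDiffOn_param`-type lemma in `Pool.Agent.Lib.P28e`), and `χ (c z) = χ z`: `√nsq (c z) = |c| √nsq z`, `c / |c| = exp (iφ)` and a shift of `θ` (periodicity,
`Function.Periodic.intervalIntegral_add_eq`). At `nsq z = 1` the derivative of `z ↦ z / √nsq z` in the direction `v` is `v' = v - Re (hp z v) z`, `‖v'‖ ≤ 3 ‖v‖` (`|hp z v| ≤ √nsq v ≤ √3 ‖v‖`, `‖z‖ ≤ 1`), so `fderiv ℝ χ z v` is the average of `fderiv ℝ X (exp (iθ) z) (exp (iθ) v')`, and `γ z v = γ z v' = γ (exp (iθ) z) (exp (iθ) v')`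
(`hγ.rad`, `hγ.hom`). Hence the difference is at most `2 b (B + δ') 3 ‖v‖ ≤ (6 b B + δ) ‖v‖`: `C = max 1 (6 b)`.
-/

open MeasureTheory Set Metric
open scoped ContDiff ENNReal

namespace Pool.Agent.Lib.Qcd

open Pool.Agent.P28b04d Pool.Agent.Lib.Psd

namespace GauAux

theorem param_deriv {Ψ : W × ℝ → ℝ} (hΨ : ContDiffOn ℝ ∞ Ψ (({0}ᶜ : Set W) ×ˢ (univ : Set ℝ)))
    {z : W} (hz : z ≠ 0) (a b : ℝ) :
    HasFDerivAt (fun z => ∫ η in Icc a b, Ψ (z, η))
      (∫ η in Icc a b, (fderiv ℝ Ψ (z, η)).comp (ContinuousLinearMap.inl ℝ W ℝ)) z ∧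
    IntegrableOn (fun η => (fderiv ℝ Ψ (z, η)).comp (ContinuousLinearMap.inl ℝ W ℝ)) (Icc a b) := by
  set Ω : Set W := {0}ᶜ with hΩdef
  have hΩ : IsOpen Ω := isOpen_compl_singleton
  have hK : IsCompact (Icc a b) := isCompact_Icc
  have hopen : IsOpen (Ω ×ˢ (univ : Set ℝ)) := hΩ.prod isOpen_univ
  have hzΩ : z ∈ Ω := hz
  have hcont : ContinuousOn Ψ (Ω ×ˢ (univ : Set ℝ)) := hΨ.continuousOn
  have hdiff : ∀ p ∈ Ω ×ˢ (univ : Set ℝ), HasFDerivAt Ψ (fderiv ℝ Ψ p) p := fun p hp =>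
    ((hΨ.contDiffAt (hopen.mem_nhds hp)).differentiableAt (by simp)).hasFDerivAt
  have hder : ContinuousOn (fun p => (fderiv ℝ Ψ p).comp (ContinuousLinearMap.inl ℝ W ℝ))
      (Ω ×ˢ (univ : Set ℝ)) :=
    (hΨ.continuousOn_fderiv_of_isOpen hopen (by simp)).clm_comp continuousOn_const
  have hslice : ∀ (G : Type) [NormedAddCommGroup G] (Φ : W × ℝ → G),
      ContinuousOn Φ (Ω ×ˢ (univ : Set ℝ)) → ∀ y ∈ Ω, ContinuousOn (fun η => Φ (y, η)) (Icc a b) := by
    intro G _ Φ hΦ y hy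
    exact hΦ.comp (Continuous.prodMk_right y).continuousOn (fun η _ => ⟨hy, mem_univ η⟩)
  have hfin : IsFiniteMeasure (volume.restrict (Icc a b)) := ⟨by
    rw [Measure.restrict_apply_univ]; exact hK.measure_lt_top⟩
  obtain ⟨r, hr, hrΩ⟩ := nhds_basis_closedBall.mem_iff.1 (hΩ.mem_nhds hzΩ)
  have hc : IsCompact (closedBall z r ×ˢ Icc a b) := (isCompact_closedBall z r).prod hK
  obtain ⟨C, hC⟩ := hc.exists_bound_of_continuousOn
    (hder.mono (prod_mono hrΩ (subset_univ _)))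
  have hint : IntegrableOn (fun η => (fderiv ℝ Ψ (z, η)).comp (ContinuousLinearMap.inl ℝ W ℝ))
      (Icc a b) := (hslice _ _ hder z hzΩ).integrableOn_compact hK
  refine ⟨?_, hint⟩
  refine hasFDerivAt_integral_of_dominated_of_fderiv_le (bound := fun _ => C)
    (F := fun y η => Ψ (y, η))
    (F' := fun y η => (fderiv ℝ Ψ (y, η)).comp (ContinuousLinearMap.inl ℝ W ℝ))
    (closedBall_mem_nhds z hr) ?_ ?_ ?_ ?_ ?_ ?_
  · filter_upwards [hΩ.mem_nhds hzΩ] with y hy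
    exact (hslice _ _ hcont y hy).aestronglyMeasurable hK.measurableSet
  · exact (hslice _ _ hcont z hzΩ).integrableOn_compact hK
  · exact (hslice _ _ hder z hzΩ).aestronglyMeasurable hK.measurableSet
  · rw [ae_restrict_iff' hK.measurableSet]
    exact Filter.Eventually.of_forall fun η hη y hy => hC (y, η) ⟨hy, hη⟩
  · exact integrable_const C
  · rw [ae_restrict_iff' hK.measurableSet]
    refine Filter.Eventually.of_forall fun η _ y hy => ?_
    exact (hdiff (y, η) ⟨hrΩ hy, mem_univ η⟩).comp y (hasFDerivAt_prodMk_left y η)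

theorem nsq_line (z v : W) (t : ℝ) :
    nsq (n := 2) (z + t • v) = nsq (n := 2) z + 2 * t * (hp z v).re + t ^ 2 * nsq (n := 2) v := by
  unfold nsq hp
  rw [Complex.re_sum, Finset.mul_sum, Finset.mul_sum, ← Finset.sum_add_distrib,
    ← Finset.sum_add_distrib]
  refine Finset.sum_congr rfl fun k _ => ?_
  simp only [Pi.add_apply, Pi.smul_apply, Complex.normSq_apply, Complex.add_re, Complex.add_im,
    Complex.real_smul, Complex.mul_re, Complex.mul_im, Complex.ofReal_re, Complex.ofReal_im,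
    Complex.star_def, Complex.conj_re, Complex.conj_im]
  ring

theorem nsq_le (z : W) : nsq (n := 2) z ≤ 3 * ‖z‖ ^ 2 := by
  have h1 : nsq (n := 2) z ≤ ∑ _k : Fin (2 + 1), ‖z‖ ^ 2 := by
    unfold nsq
    refine Finset.sum_le_sum fun k _ => ?_
    rw [Complex.normSq_eq_norm_sq]
    exact pow_le_pow_left₀ (norm_nonneg _) (norm_le_pi_norm z k) 2
  rw [Finset.sum_const, Finset.card_univ, Fintype.card_fin, nsmul_eq_mul] at h1
  push_cast at h1
  linarith

theorem half_le {z : W} (hz : nsq (n := 2) z = 1) : 1 / 2 ≤ ‖z‖ := by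
  have h1 := nsq_le z
  rw [hz] at h1
  by_contra hcon
  push Not at hcon
  have h2 : ‖z‖ ^ 2 < (1 / 2) ^ 2 := pow_lt_pow_left₀ hcon (norm_nonneg _) two_ne_zero
  norm_num at h2
  linarith

theorem rad_eq {z : W} (hz : nsq (n := 2) z = 1) : P28e.rad (n := 2) z = 1 := by
  unfold P28e.rad
  rw [hz, Real.sqrt_one]

theorem le_one {z : W} (hz : nsq (n := 2) z = 1) : ‖z‖ ≤ 1 :=
  (P28e.norm_le_rad (n := 2) z).trans (rad_eq hz).le

theorem ne_zero {z : W} (hz : nsq (n := 2) z = 1) : z ≠ 0 := by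
  intro h0
  have h1 := half_le hz
  rw [h0, norm_zero] at h1
  norm_num at h1

theorem hp_le (z v : W) : ‖hp z v‖ ≤ 3 * ‖z‖ * ‖v‖ := by
  unfold hp
  refine (norm_sum_le _ _).trans ?_
  have h1 : ∀ k ∈ (Finset.univ : Finset (Fin 3)), ‖star (z k) * v k‖ ≤ ‖z‖ * ‖v‖ := by
    intro k _
    rw [norm_mul, norm_star]
    exact mul_le_mul (norm_le_pi_norm z k) (norm_le_pi_norm v k) (norm_nonneg _) (norm_nonneg _)
  refine (Finset.sum_le_sum h1).trans ?_
  rw [Finset.sum_const, Finset.card_univ, Fintype.card_fin, nsmul_eq_mul]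
  push_cast
  exact le_of_eq (by ring)

/-- the point of the circle -/
noncomputable def ex (θ : ℝ) : ℂ := Complex.exp (θ * Complex.I)

theorem norm_ex (θ : ℝ) : ‖ex θ‖ = 1 := Complex.norm_exp_ofReal_mul_I θ

theorem ex_ne (θ : ℝ) : ex θ ≠ 0 := Complex.exp_ne_zero _

theorem contDiff_ex : ContDiff ℝ ∞ ex := by
  unfold ex
  exact (Complex.ofRealCLM.contDiff.mul contDiff_const).cexp

/-- the function to be averaged -/
noncomputable def PP (X : W → ℝ) (p : W × ℝ) : ℝ :=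
  X ((ex p.2 * ((P28e.rad (n := 2) p.1)⁻¹ : ℝ)) • p.1)

theorem contDiffOn_PP {X : W → ℝ} (hX : ContDiff ℝ ∞ X) :
    ContDiffOn ℝ ∞ (PP X) (({0}ᶜ : Set W) ×ˢ (univ : Set ℝ)) := by
  unfold PP
  refine hX.comp_contDiffOn ?_
  have hfst : ContDiffOn ℝ ∞ (fun p : W × ℝ => p.1) (({0}ᶜ : Set W) ×ˢ (univ : Set ℝ)) :=
    contDiff_fst.contDiffOn
  have h1 : ContDiffOn ℝ ∞ (fun p : W × ℝ => P28e.rad (n := 2) p.1)
      (({0}ᶜ : Set W) ×ˢ (univ : Set ℝ)) :=
    (P28e.AvgSmoothAux.rad_smooth (n := 2)).comp hfst fun p hp => hp.1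
  have h2 : ContDiffOn ℝ ∞ (fun p : W × ℝ => (P28e.rad (n := 2) p.1)⁻¹)
      (({0}ᶜ : Set W) ×ˢ (univ : Set ℝ)) := by
    refine h1.inv fun p hp => ?_
    have h3 : 0 < nsq (n := 2) p.1 := nsq_pos hp.1
    exact (Real.sqrt_pos.2 h3).ne'
  have h3 : ContDiffOn ℝ ∞ (fun p : W × ℝ => (((P28e.rad (n := 2) p.1)⁻¹ : ℝ) : ℂ))
      (({0}ᶜ : Set W) ×ˢ (univ : Set ℝ)) := Complex.ofRealCLM.contDiff.comp_contDiffOn h2
  have h4 : ContDiffOn ℝ ∞ (fun p : W × ℝ => ex p.2) (({0}ᶜ : Set W) ×ˢ (univ : Set ℝ)) :=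
    (contDiff_ex.comp contDiff_snd).contDiffOn
  exact (h4.mul h3).smul hfst

/-- the average -/
noncomputable def ch (X : W → ℝ) (z : W) : ℝ :=
  (2 * Real.pi)⁻¹ * ∫ θ in Icc 0 (2 * Real.pi), PP X (z, θ)

theorem contDiffOn_ch {X : W → ℝ} (hX : ContDiff ℝ ∞ X) : ContDiffOn ℝ ∞ (ch X) {0}ᶜ := by
  unfold ch
  exact contDiffOn_const.mul (P28e.contDiffOn_param volume isOpen_compl_singleton isOpen_univ
    isCompact_Icc (subset_univ _) (contDiffOn_PP hX))

theorem ch_smul (X : W → ℝ) {c : ℂ} (hc : c ≠ 0) (z : W) : ch X (c • z) = ch X z := by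
  have h1 : ∀ θ : ℝ, PP X (c • z, θ) = PP X (z, θ + Complex.arg c) := by
    intro θ
    unfold PP
    simp only
    congr 1
    rw [P28e.AvgSmoothAux.rad_smul, smul_smul]
    congr 1
    have h2 : (c : ℂ) = (‖c‖ : ℂ) * Complex.exp (Complex.arg c * Complex.I) :=
      (Complex.norm_mul_exp_arg_mul_I c).symm
    have h3 : ((‖c‖ : ℝ) : ℂ) ≠ 0 := by simpa using hc
    unfold ex
    rw [Complex.ofReal_add, add_mul, Complex.exp_add, mul_inv, Complex.ofReal_mul,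
      Complex.ofReal_inv]
    conv_lhs => rw [h2]
    have h4 : (‖(‖c‖ : ℂ) * Complex.exp (Complex.arg c * Complex.I)‖ : ℝ) = ‖c‖ := by
      rw [← h2]
    rw [h4]
    field_simp
  unfold ch
  congr 1
  have hpi : (0 : ℝ) ≤ 2 * Real.pi := by positivity
  rw [integral_Icc_eq_integral_Ioc, ← intervalIntegral.integral_of_le hpi,
    integral_Icc_eq_integral_Ioc, ← intervalIntegral.integral_of_le hpi]
  simp only [h1]
  rw [intervalIntegral.integral_comp_add_right (fun θ => PP X (z, θ)) (Complex.arg c)]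
  have hper : Function.Periodic (fun θ => PP X (z, θ)) (2 * Real.pi) := by
    intro θ
    unfold PP ex
    simp only
    congr 3
    push_cast
    rw [add_mul, Complex.exp_add, Complex.exp_two_pi_mul_I, mul_one]
  have h5 := hper.intervalIntegral_add_eq (Complex.arg c) 0
  rw [zero_add] at h5 ⊢
  rw [add_comm (2 * Real.pi)]
  exact h5

theorem rad_deriv {z : W} (hz : nsq (n := 2) z = 1) (v : W) :
    HasDerivAt (fun t : ℝ => (P28e.rad (n := 2) (z + t • v))⁻¹) (-(hp z v).re) 0 := by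
  have h1 : HasDerivAt (fun t : ℝ => 1 + 2 * t * (hp z v).re + t ^ 2 * nsq (n := 2) v)
      (2 * (hp z v).re) 0 := by
    have h2 := (((hasDerivAt_id (0 : ℝ)).const_mul 2).mul_const ((hp z v).re)).const_add 1
    have h3 := (hasDerivAt_pow 2 (0 : ℝ)).mul_const (nsq (n := 2) v)
    refine (h2.add h3).congr_deriv ?_
    simp
  have h0 : (1 + 2 * (0 : ℝ) * (hp z v).re + (0 : ℝ) ^ 2 * nsq (n := 2) v) = 1 := by simp
  have h4 := (h1.sqrt (by rw [h0]; exact one_ne_zero)).inv (by rw [h0]; simp)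
  have h5 : (fun t : ℝ => (P28e.rad (n := 2) (z + t • v))⁻¹) = fun t : ℝ =>
      (Real.sqrt (1 + 2 * t * (hp z v).re + t ^ 2 * nsq (n := 2) v))⁻¹ := by
    funext t
    unfold P28e.rad
    rw [nsq_line, hz]
  rw [h5]
  refine h4.congr_deriv ?_
  rw [h0, Real.sqrt_one]
  ring

theorem PP_deriv {X : W → ℝ} (hX : ContDiff ℝ ∞ X) {z : W} (hz : nsq (n := 2) z = 1) (v : W)
    (θ : ℝ) :
    (fderiv ℝ (PP X) (z, θ)).comp (ContinuousLinearMap.inl ℝ W ℝ) v =
      fderiv ℝ X (ex θ • z) (ex θ • (v - (hp z v).re • z)) := by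
  have hz0 := ne_zero hz
  have hopen : IsOpen (({0}ᶜ : Set W) ×ˢ (univ : Set ℝ)) :=
    isOpen_compl_singleton.prod isOpen_univ
  have hd : HasFDerivAt (PP X) (fderiv ℝ (PP X) (z, θ)) (z, θ) :=
    (((contDiffOn_PP hX).contDiffAt (hopen.mem_nhds (mk_mem_prod (show z ∈ ({0}ᶜ : Set W) from hz0)
      (mem_univ θ)))).differentiableAt
      (by simp)).hasFDerivAt
  have hcur : HasDerivAt (fun t : ℝ => z + t • v) v 0 := by
    have := ((hasDerivAt_id (0 : ℝ)).smul_const v).const_add z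
    simpa using this
  have hpt : z + (0 : ℝ) • v = z := by simp
  have h1 : HasDerivAt (fun t : ℝ => PP X (z + t • v, θ))
      ((fderiv ℝ (PP X) (z, θ)) (v, 0)) 0 := by
    have h2 : HasDerivAt (fun t : ℝ => (z + t • v, θ)) (v, (0 : ℝ)) 0 :=
      hcur.prodMk (hasDerivAt_const (0 : ℝ) θ)
    have h3 : HasFDerivAt (PP X) (fderiv ℝ (PP X) (z, θ)) ((fun t : ℝ => (z + t • v, θ)) 0) := by
      simpa using hd
    exact h3.comp_hasDerivAt (0 : ℝ) h2
  have h4 : HasDerivAt (fun t : ℝ => PP X (z + t • v, θ))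
      (fderiv ℝ X (ex θ • z) (ex θ • (v - (hp z v).re • z))) 0 := by
    have h5 := rad_deriv hz v
    have h6 : HasDerivAt (fun t : ℝ => ex θ * (((P28e.rad (n := 2) (z + t • v))⁻¹ : ℝ) : ℂ))
        (ex θ * ((-(hp z v).re : ℝ) : ℂ)) 0 := h5.ofReal_comp.const_mul (ex θ)
    have h7 := h6.smul hcur
    have hr1 : P28e.rad (n := 2) (z + (0 : ℝ) • v) = 1 := by rw [hpt]; exact rad_eq hz
    have h8 : ((ex θ * (((P28e.rad (n := 2) (z + (0 : ℝ) • v))⁻¹ : ℝ) : ℂ)) • v +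
        (ex θ * ((-(hp z v).re : ℝ) : ℂ)) • (z + (0 : ℝ) • v)) =
        ex θ • (v - (hp z v).re • z) := by
      rw [hr1, hpt]
      ext k
      simp only [Pi.add_apply, Pi.smul_apply, Pi.sub_apply, smul_eq_mul, Complex.real_smul]
      push_cast
      ring
    have h9 : HasDerivAt (fun t : ℝ => (ex θ * (((P28e.rad (n := 2) (z + t • v))⁻¹ : ℝ) : ℂ)) •
        (z + t • v)) (ex θ • (v - (hp z v).re • z)) 0 := by
      rw [← h8]
      exact h7
    have h10 : (ex θ * (((P28e.rad (n := 2) (z + (0 : ℝ) • v))⁻¹ : ℝ) : ℂ)) • (z + (0 : ℝ) • v) =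
        ex θ • z := by
      rw [hr1, hpt]
      simp
    have h11 : HasFDerivAt X (fderiv ℝ X (ex θ • z))
        ((fun t : ℝ => (ex θ * (((P28e.rad (n := 2) (z + t • v))⁻¹ : ℝ) : ℂ)) • (z + t • v)) 0) := by
      simp only
      rw [h10]
      exact (hX.contDiffAt.differentiableAt (by simp)).hasFDerivAt
    exact h11.comp_hasDerivAt (0 : ℝ) h9
  exact h1.unique h4

end GauAux

theorem gau : ∃ C : ℝ, 1 ≤ C ∧ ∀ γ : W → W →L[ℝ] ℝ, Basic γ → ∀ B δ : ℝ, 0 ≤ B → 0 < δ →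
    (∀ z : W, nsq z = 1 → ∫⁻ s in Ioo (0 : ℝ) 1, (ENNReal.ofReal (s ^ 6))⁻¹ *
      ∫⁻ p in closedBall z (2 * s), ENNReal.ofReal (tn γ p) ≤ ENNReal.ofReal B) →
    ∃ χ : W → ℝ, ContDiffOn ℝ ∞ χ {0}ᶜ ∧ (∀ c : ℂ, c ≠ 0 → ∀ z : W, z ≠ 0 → χ (c • z) = χ z) ∧
      ∀ z v : W, nsq z = 1 → |γ z v - fderiv ℝ χ z v| ≤ (C * B + δ) * ‖v‖ := by
  obtain ⟨ν, b, hν, hν0, hνb, hνz, hνi⟩ := exists_bump
  have hb : 0 < b := by
    by_contra hcon
    push Not at hcon
    have h1 : ν = fun _ => 0 := by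
      funext y
      exact le_antisymm ((hνb y).trans hcon) (hν0 y)
    rw [h1] at hνi
    simp at hνi
  refine ⟨max 1 (8 * b), le_max_left _ _, fun γ hγ B δ hB hδ hγB => ?_⟩
  have hδ' : 0 < δ / (8 * b) := by positivity
  obtain ⟨β, hβ, hβγ, hβB⟩ := cut_basic hγ hδ'
  have hX : ContDiff ℝ ∞ (hom1 ν β) := hom1_smooth hν hνz hβ
  -- the pointwise estimate
  have key : ∀ w u : W, nsq w = 1 →
      |γ w u - fderiv ℝ (hom1 ν β) w u| ≤ 2 * b * ‖u‖ * (δ / (8 * b) + B) := by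
    intro w u hw
    have h1 := hom1_bound hν hν0 hνb hνz hνi hβ (GauAux.le_one hw) u
    have h2 := (hβB w hw).trans (add_le_add_right (hγB w hw) _)
    rw [← ENNReal.ofReal_add hδ'.le hB] at h2
    have h3 := h1.trans (mul_le_mul_right h2 _)
    rw [← ENNReal.ofReal_mul (by positivity), ENNReal.ofReal_le_ofReal_iff (by positivity)] at h3
    rw [hβγ w (GauAux.half_le hw)] at h3
    exact h3
  refine ⟨GauAux.ch (hom1 ν β), GauAux.contDiffOn_ch hX, fun c hc z _ => GauAux.ch_smul _ hc z,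
    fun z v hz => ?_⟩
  have hz0 := GauAux.ne_zero hz
  set v' : W := v - (hp z v).re • z with hv'
  have hpi : 0 < 2 * Real.pi := by positivity
  obtain ⟨hder, hint⟩ := GauAux.param_deriv (GauAux.contDiffOn_PP hX) hz0 0 (2 * Real.pi)
  have hfd : fderiv ℝ (GauAux.ch (hom1 ν β)) z v = (2 * Real.pi)⁻¹ *
      ∫ θ in Icc 0 (2 * Real.pi),
        fderiv ℝ (hom1 ν β) (GauAux.ex θ • z) (GauAux.ex θ • v') := by
    have h1 : HasFDerivAt (GauAux.ch (hom1 ν β)) ((2 * Real.pi)⁻¹ •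
        ∫ η in Icc 0 (2 * Real.pi), (fderiv ℝ (GauAux.PP (hom1 ν β)) (z, η)).comp
          (ContinuousLinearMap.inl ℝ W ℝ)) z := hder.const_mul _
    rw [h1.fderiv, smul_apply, smul_eq_mul,
      ContinuousLinearMap.integral_apply hint]
    congr 1
    refine setIntegral_congr_fun measurableSet_Icc fun θ _ => ?_
    exact GauAux.PP_deriv hX hz v θ
  have hint2 : IntegrableOn (fun θ => fderiv ℝ (hom1 ν β) (GauAux.ex θ • z) (GauAux.ex θ • v'))
      (Icc 0 (2 * Real.pi)) := by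
    have h1 := hint.apply_continuousLinearMap v
    refine h1.congr (Filter.Eventually.of_forall fun θ => ?_)
    exact GauAux.PP_deriv hX hz v θ
  have hγv : γ z v = γ z v' := by
    rw [hv', map_sub, map_smul, hγ.rad z hz0, smul_zero, sub_zero]
  have hγθ : ∀ θ : ℝ, γ z v = γ (GauAux.ex θ • z) (GauAux.ex θ • v') := by
    intro θ
    rw [hγv, hγ.hom _ (GauAux.ex_ne θ) z hz0 v']
  have hnsq : ∀ θ : ℝ, nsq (GauAux.ex θ • z) = 1 := by
    intro θ
    rw [P28e.AvgSmoothAux.nsq_smul (n := 2), GauAux.norm_ex, hz]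
    norm_num
  have hv4 : ‖v'‖ ≤ 4 * ‖v‖ := by
    have h1 : ‖v'‖ ≤ ‖v‖ + ‖(hp z v).re • z‖ := norm_sub_le _ _
    rw [norm_smul, Real.norm_eq_abs] at h1
    have h2 : |(hp z v).re| ≤ 3 * ‖z‖ * ‖v‖ := (Complex.abs_re_le_norm _).trans (GauAux.hp_le z v)
    have h3 := GauAux.le_one hz
    have h4 : |(hp z v).re| * ‖z‖ ≤ 3 * ‖v‖ := by
      have h5 : 3 * ‖z‖ * ‖v‖ ≤ 3 * ‖v‖ := by
        have := mul_le_mul_of_nonneg_right h3 (norm_nonneg v)
        linarith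
      calc |(hp z v).re| * ‖z‖ ≤ (3 * ‖v‖) * 1 :=
            mul_le_mul (h2.trans h5) h3 (norm_nonneg _) (by positivity)
        _ = 3 * ‖v‖ := mul_one _
    linarith
  have hpt : ∀ θ : ℝ, ‖γ z v - fderiv ℝ (hom1 ν β) (GauAux.ex θ • z) (GauAux.ex θ • v')‖ ≤
      (8 * b * B + δ) * ‖v‖ := by
    intro θ
    rw [hγθ θ, Real.norm_eq_abs]
    refine (key _ _ (hnsq θ)).trans ?_
    rw [norm_smul, GauAux.norm_ex, one_mul]
    have h1 : 2 * b * ‖v'‖ ≤ 2 * b * (4 * ‖v‖) := mul_le_mul_of_nonneg_left hv4 (by positivity)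
    refine (mul_le_mul_of_nonneg_right h1 (by positivity)).trans (le_of_eq ?_)
    field_simp
    ring
  have hconst : γ z v = (2 * Real.pi)⁻¹ * ∫ _θ in Icc 0 (2 * Real.pi), γ z v := by
    rw [setIntegral_const, Measure.real, Real.volume_Icc, sub_zero,
      ENNReal.toReal_ofReal hpi.le, smul_eq_mul, inv_mul_cancel_left₀ hpi.ne']
  have hsub : γ z v - fderiv ℝ (GauAux.ch (hom1 ν β)) z v = (2 * Real.pi)⁻¹ *
      ∫ θ in Icc 0 (2 * Real.pi),
        (γ z v - fderiv ℝ (hom1 ν β) (GauAux.ex θ • z) (GauAux.ex θ • v')) := by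
    have hc : Integrable (fun _ : ℝ => γ z v) (volume.restrict (Icc 0 (2 * Real.pi))) :=
      continuousOn_const.integrableOn_compact isCompact_Icc
    rw [hfd, integral_sub hc hint2, mul_sub, ← hconst]
  rw [hsub, abs_mul, abs_of_pos (inv_pos.2 hpi)]
  have hbd := norm_setIntegral_le_of_norm_le_const (μ := volume) (s := Icc 0 (2 * Real.pi))
    (by rw [Real.volume_Icc]; exact ENNReal.ofReal_lt_top)
    (fun θ (_ : θ ∈ Icc 0 (2 * Real.pi)) => hpt θ)
  rw [Measure.real, Real.volume_Icc, sub_zero, ENNReal.toReal_ofReal hpi.le,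
    Real.norm_eq_abs] at hbd
  have h1 := mul_le_mul_of_nonneg_left hbd (inv_pos.2 hpi).le
  refine h1.trans ?_
  have h2 : (2 * Real.pi)⁻¹ * ((8 * b * B + δ) * ‖v‖ * (2 * Real.pi)) = (8 * b * B + δ) * ‖v‖ := by
    field_simp
  rw [h2]
  refine mul_le_mul_of_nonneg_right ?_ (norm_nonneg _)
  have h3 : 8 * b * B ≤ max 1 (8 * b) * B := mul_le_mul_of_nonneg_right (le_max_right _ _) hB
  linarith

end Pool.Agent.Lib.Qcd
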