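import Pool.Agent.Lib.Qcd.Lift

set_option autoImplicit false

/-!
# Change of the lift by a function

PROOF. `Φ z = m z • Φ₀ z`, `m z = (√(nsq z) / √(nsq (Φ₀ z))) exp (-i χ z)` for `z ≠ 0`, `Φ 0 = 0`; `nsq (Φ₀ z) > 0` for `z ≠ 0` (`lift_ne`). `m` is smooth off `0`, `m ≠ 0` and `m (c z) = m z` for `c ≠ 0`. `HLoc Φ`: smooth off `0`; `Φ (c z) = c Φ z` (also for `c = 0` or `z = 0`); `fderiv ℝ Φ z v = m z • fderiv ℝ Φ₀ z v + (fderiv ℝ m z v) • Φ₀ z`;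
if this is `0` then, with `k = - fderiv ℝ m z v / m z`, `fderiv ℝ Φ₀ z v = k Φ₀ z = fderiv ℝ Φ₀ z (k z)`, so `v = k z` by injectivity; `fderiv ℝ m z (k z) = 0` (homogeneity of degree `0`: derivative of `m ((1 + t k) z)`), so `k = 0`, `v = 0`. `nsq (Φ z) = |m|² nsq (Φ₀ z) = nsq z`.
`hd Φ z v = m z • hd Φ₀ z v` (multiples of `Φ₀ z` are killed: `hp (m a) (m b) = |m|² hp a b`, `hp (Φ₀) (k Φ₀) = k nsq Φ₀`), so `nsq (hd Φ z v) = |m|² nsq (hd Φ₀ z v)` and `QCL ε` is inherited. `pt (c y) = pt y`. `pl Φ z v = a0 (Φ z) (dΦ v)`: `a0 (m y) (m w) = a0 y w` and `a0 y (k y) = Im k` (`a0_apply`), so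
`pl Φ z v = pl Φ₀ z v + Im (fderiv ℝ m z v / m z) = pl Φ₀ z v - fderiv ℝ χ z v` (the real factor does not contribute to the imaginary part of the logarithmic derivative).
-/

open MeasureTheory Set Metric
open scoped ContDiff ENNReal

namespace Pool.Agent.Lib.Qcd

open Pool.Agent.P28b04d Pool.Agent.Lib.Psd

namespace GauMAux

/-- the factor -/
noncomputable def mm (Φ₀ : W → W) (χ : W → ℝ) (z : W) : ℂ :=
  ((√(nsq z) / √(nsq (Φ₀ z)) : ℝ) : ℂ) * Complex.exp (((-χ z : ℝ) : ℂ) * Complex.I)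

variable {Φ₀ : W → W} {χ : W → ℝ}

theorem smooth_rat (h : HLoc (n := 2) Φ₀) :
    ContDiffOn ℝ ∞ (fun z : W => √(nsq z) / √(nsq (Φ₀ z))) {0}ᶜ := by
  have h1 : ContDiffOn ℝ ∞ (fun z : W => √(nsq z)) {0}ᶜ := by
    refine ContDiffOn.sqrt ConnBAux.contDiff_nsq.contDiffOn ?_
    intro z hz
    exact (ConnBAux.nsq_pos hz).ne'
  have h2 : ContDiffOn ℝ ∞ (fun z : W => √(nsq (Φ₀ z))) {0}ᶜ := by
    refine ContDiffOn.sqrt ?_ ?_
    · exact ConnBAux.contDiff_nsq.comp_contDiffOn h.smooth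
    · intro z hz
      exact (ConnBAux.nsq_pos (lift_ne h hz)).ne'
  refine h1.div h2 ?_
  intro z hz
  exact (Real.sqrt_pos.2 (ConnBAux.nsq_pos (lift_ne h hz))).ne'

theorem smooth_mm (h : HLoc (n := 2) Φ₀) (hs : ContDiffOn ℝ ∞ χ {0}ᶜ) :
    ContDiffOn ℝ ∞ (mm Φ₀ χ) {0}ᶜ := by
  unfold mm
  refine ContDiffOn.mul ?_ ?_
  · exact Complex.ofRealCLM.contDiff.comp_contDiffOn (smooth_rat h)
  · have h1 : ContDiffOn ℝ ∞ (fun z : W => (((-χ z : ℝ) : ℂ) * Complex.I)) {0}ᶜ :=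
      (Complex.ofRealCLM.contDiff.comp_contDiffOn hs.neg).mul contDiffOn_const
    exact h1.cexp

theorem rat_pos (h : HLoc (n := 2) Φ₀) {z : W} (hz : z ≠ 0) : 0 < √(nsq z) / √(nsq (Φ₀ z)) :=
  div_pos (Real.sqrt_pos.2 (ConnBAux.nsq_pos hz)) (Real.sqrt_pos.2 (ConnBAux.nsq_pos (lift_ne h hz)))

theorem mm_ne (h : HLoc (n := 2) Φ₀) {z : W} (hz : z ≠ 0) : mm Φ₀ χ z ≠ 0 := by
  unfold mm
  refine mul_ne_zero ?_ (Complex.exp_ne_zero _)
  exact_mod_cast (rat_pos h hz).ne'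

theorem normSq_mm (h : HLoc (n := 2) Φ₀) {z : W} (hz : z ≠ 0) :
    Complex.normSq (mm Φ₀ χ z) = nsq z / nsq (Φ₀ z) := by
  unfold mm
  rw [Complex.normSq_mul, Complex.normSq_ofReal, Complex.normSq_eq_norm_sq (Complex.exp _),
    Complex.norm_exp_ofReal_mul_I, one_pow, mul_one]
  have h1 := Real.mul_self_sqrt (ConnBAux.nsq_pos hz).le
  have h2 := Real.mul_self_sqrt (ConnBAux.nsq_pos (lift_ne h hz)).le
  rw [div_mul_div_comm, h1, h2]

theorem mm_hom (h : HLoc (n := 2) Φ₀)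
    (hc : ∀ c : ℂ, c ≠ 0 → ∀ z : W, z ≠ 0 → χ (c • z) = χ z) {c : ℂ} (hc0 : c ≠ 0) {z : W}
    (hz : z ≠ 0) : mm Φ₀ χ (c • z) = mm Φ₀ χ z := by
  unfold mm
  have h0 : 0 < Complex.normSq c := Complex.normSq_pos.2 hc0
  rw [hc c hc0 z hz, h.hom c z, ConnBAux.nsq_smul, ConnBAux.nsq_smul, Real.sqrt_mul h0.le,
    Real.sqrt_mul h0.le, mul_div_mul_left _ _ (Real.sqrt_pos.2 h0).ne']

theorem curve (z v : W) : HasDerivAt (fun t : ℝ => z + t • v) v 0 := by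
  have h1 : HasDerivAt (fun t : ℝ => t • v) ((1 : ℝ) • v) 0 := (hasDerivAt_id (0 : ℝ)).smul_const v
  rw [one_smul] at h1
  exact h1.const_add z

theorem along {F : Type} [NormedAddCommGroup F] [NormedSpace ℝ F] {f : W → F}
    (hf : ContDiffOn ℝ ∞ f {0}ᶜ) {z : W} (hz : z ≠ 0) (v : W) :
    HasDerivAt (fun t : ℝ => f (z + t • v)) (fderiv ℝ f z v) 0 := by
  have h1 : HasFDerivAt f (fderiv ℝ f z) (z + (0 : ℝ) • v) := by
    rw [zero_smul, add_zero]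
    exact ((hf.contDiffAt (isOpen_compl_singleton.mem_nhds hz)).differentiableAt
      (by simp)).hasFDerivAt
  exact h1.comp_hasDerivAt (0 : ℝ) (curve z v)

theorem fderiv_self (h : HLoc (n := 2) Φ₀) (hs : ContDiffOn ℝ ∞ χ {0}ᶜ)
    (hc : ∀ c : ℂ, c ≠ 0 → ∀ z : W, z ≠ 0 → χ (c • z) = χ z) {z : W} (hz : z ≠ 0) (k : ℂ) :
    fderiv ℝ (mm Φ₀ χ) z (k • z) = 0 := by
  have h1 := along (smooth_mm h hs) hz (k • z)
  have h2 : ∀ᶠ t : ℝ in nhds 0, (1 + (t : ℂ) * k) ≠ 0 := by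
    have hcont : ContinuousAt (fun t : ℝ => 1 + (t : ℂ) * k) 0 := by fun_prop
    refine hcont.eventually_ne ?_
    simp
  have h3 : (fun t : ℝ => mm Φ₀ χ (z + t • (k • z))) =ᶠ[nhds 0] fun _ => mm Φ₀ χ z := by
    filter_upwards [h2] with t ht
    have e : z + t • (k • z) = (1 + (t : ℂ) * k) • z := by
      rw [add_smul, one_smul, mul_smul]
      rfl
    rw [e, mm_hom h hc ht hz]
  exact h1.unique ((hasDerivAt_const (0 : ℝ) (mm Φ₀ χ z)).congr_of_eventuallyEq h3)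

theorem fderiv_im (h : HLoc (n := 2) Φ₀) (hs : ContDiffOn ℝ ∞ χ {0}ᶜ) {z : W} (hz : z ≠ 0) (v : W) :
    (fderiv ℝ (mm Φ₀ χ) z v / mm Φ₀ χ z).im = - fderiv ℝ χ z v := by
  have h1 := along (smooth_mm h hs) hz v
  have h2 := (along (smooth_rat h) hz v).ofReal_comp
  have h3 : HasDerivAt (fun t : ℝ => Complex.exp (((-χ (z + t • v) : ℝ) : ℂ) * Complex.I))
      (Complex.exp (((-χ (z + (0 : ℝ) • v) : ℝ) : ℂ) * Complex.I) *
        (((-(fderiv ℝ χ z) v : ℝ) : ℂ) * Complex.I)) 0 :=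
    (((along hs hz v).neg).ofReal_comp.mul_const Complex.I).cexp
  have h4 := h2.mul h3
  have h5 := h1.unique h4
  simp only [zero_smul, add_zero] at h5
  set e : ℂ := Complex.exp (((-χ z : ℝ) : ℂ) * Complex.I) with he
  have he0 : e ≠ 0 := Complex.exp_ne_zero _
  set r : ℝ := √(nsq z) / √(nsq (Φ₀ z)) with hr
  have hr0 : (r : ℂ) ≠ 0 := by exact_mod_cast (rat_pos h hz).ne'
  have hm : mm Φ₀ χ z = (r : ℂ) * e := rfl
  set ρ : ℝ := fderiv ℝ (fun z : W => √(nsq z) / √(nsq (Φ₀ z))) z v with hρ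
  have h6 : fderiv ℝ (mm Φ₀ χ) z v / mm Φ₀ χ z =
      ((ρ / r : ℝ) : ℂ) + ((-(fderiv ℝ χ z v) : ℝ) : ℂ) * Complex.I := by
    rw [h5, hm]
    push_cast
    field_simp
  rw [h6, Complex.add_im, Complex.ofReal_im, Complex.im_ofReal_mul, Complex.I_im]
  ring

end GauMAux

open GauMAux in
theorem gau_lift {Φ₀ : W → W} (h : HLoc (n := 2) Φ₀) {χ : W → ℝ} (hs : ContDiffOn ℝ ∞ χ {0}ᶜ)
    (hc : ∀ c : ℂ, c ≠ 0 → ∀ z : W, z ≠ 0 → χ (c • z) = χ z) :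
    ∃ Φ : W → W, NL Φ ∧ (∀ ε : ℝ, QCL ε Φ₀ → QCL ε Φ) ∧ (∀ z : W, z ≠ 0 → pt (Φ z) = pt (Φ₀ z)) ∧
      ∀ z v : W, z ≠ 0 → pl Φ z v = pl Φ₀ z v - fderiv ℝ χ z v := by
  set m : W → ℂ := mm Φ₀ χ with hm
  have hsm : ContDiffOn ℝ ∞ m {0}ᶜ := smooth_mm h hs
  set Φ : W → W := fun z => m z • Φ₀ z with hΦ
  have hd1 : ∀ z : W, z ≠ 0 → ∀ v : W, fderiv ℝ Φ z v = m z • fderiv ℝ Φ₀ z v + fderiv ℝ m z v • Φ₀ z := by
    intro z hz v
    have h1 : HasFDerivAt m (fderiv ℝ m z) z :=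
      ((hsm.contDiffAt (isOpen_compl_singleton.mem_nhds hz)).differentiableAt (by simp)).hasFDerivAt
    have h2 : HasFDerivAt Φ₀ (fderiv ℝ Φ₀ z) z :=
      ((h.smooth.contDiffAt (isOpen_compl_singleton.mem_nhds hz)).differentiableAt
        (by simp)).hasFDerivAt
    have h3 := h1.smul h2
    have h4 : fderiv ℝ Φ z = m z • fderiv ℝ Φ₀ z + (fderiv ℝ m z).smulRight (Φ₀ z) := h3.fderiv
    rw [h4]
    simp
  have h0 : Φ₀ 0 = 0 := by
    have h1 := h.hom 0 0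
    rwa [zero_smul, zero_smul] at h1
  have hmne : ∀ z : W, z ≠ 0 → m z ≠ 0 := fun z hz => mm_ne h hz
  have hns : ∀ z : W, z ≠ 0 → nsq (Φ z) = nsq z := by
    intro z hz
    show nsq (m z • Φ₀ z) = nsq z
    rw [ConnBAux.nsq_smul, hm, normSq_mm h hz,
      div_mul_cancel₀ _ (ConnBAux.nsq_pos (lift_ne h hz)).ne']
  have hquot : ∀ z : W, z ≠ 0 → ∀ v : W, hp (Φ z) (fderiv ℝ Φ z v) / (nsq (Φ z) : ℂ) =
      hp (Φ₀ z) (fderiv ℝ Φ₀ z v) / (nsq (Φ₀ z) : ℂ) + fderiv ℝ m z v / m z := by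
    intro z hz v
    have e1 : fderiv ℝ Φ z v = m z • (fderiv ℝ Φ₀ z v + (fderiv ℝ m z v / m z) • Φ₀ z) := by
      rw [hd1 z hz v, smul_add, smul_smul, mul_div_cancel₀ _ (hmne z hz)]
    have e2 : nsq (Φ z) = Complex.normSq (m z) * nsq (Φ₀ z) := ConnBAux.nsq_smul _ _
    have e3 : hp (Φ z) (fderiv ℝ Φ z v) = (Complex.normSq (m z) : ℂ) *
        (hp (Φ₀ z) (fderiv ℝ Φ₀ z v) + (fderiv ℝ m z v / m z) * (nsq (Φ₀ z) : ℂ)) := by
      rw [e1]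
      show hp (m z • Φ₀ z) _ = _
      rw [ConnBAux.hp_smul_smul]
      congr 1
      have e4 : ∀ a b c : W, hp a (b + c) = hp a b + hp a c := by
        intro a b c
        simp only [hp, Pi.add_apply, mul_add, Finset.sum_add_distrib]
      rw [e4, ConnBAux.hp_smul_right, ConnBAux.hp_self]
    have n1 : (Complex.normSq (m z) : ℂ) ≠ 0 := by
      exact_mod_cast (Complex.normSq_pos.2 (hmne z hz)).ne'
    have n2 : (nsq (Φ₀ z) : ℂ) ≠ 0 := by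
      exact_mod_cast (ConnBAux.nsq_pos (lift_ne h hz)).ne'
    rw [e3, e2]
    push_cast
    rw [mul_div_mul_left _ _ n1, add_div, mul_div_assoc _ (nsq (Φ₀ z) : ℂ), div_self n2, mul_one]
  have hhd : ∀ z : W, z ≠ 0 → ∀ v : W, hd Φ z v = m z • hd Φ₀ z v := by
    intro z hz v
    unfold hd
    rw [hquot z hz v, hd1 z hz v]
    show _ - _ • (m z • Φ₀ z) = _
    have e1 : fderiv ℝ m z v • Φ₀ z = m z • ((fderiv ℝ m z v / m z) • Φ₀ z) := by
      rw [smul_smul, mul_div_cancel₀ _ (hmne z hz)]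
    rw [e1]
    module
  refine ⟨Φ, ⟨⟨?_, ?_, ?_⟩, ?_⟩, ?_, ?_, ?_⟩
  · exact hsm.smul h.smooth
  · intro c z
    by_cases hc0 : c = 0
    · subst hc0
      show m ((0 : ℂ) • z) • Φ₀ ((0 : ℂ) • z) = (0 : ℂ) • _
      rw [zero_smul, zero_smul, h0, smul_zero]
    by_cases hz : z = 0
    · subst hz
      show m (c • (0 : W)) • Φ₀ (c • (0 : W)) = c • (m 0 • Φ₀ 0)
      rw [smul_zero, h0, smul_zero, smul_zero]
    show m (c • z) • Φ₀ (c • z) = c • (m z • Φ₀ z)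
    rw [hm, mm_hom h hc hc0 hz, h.hom c z, smul_comm]
  · intro z hz v hv
    rw [hd1 z hz v] at hv
    have e1 : fderiv ℝ Φ₀ z v = (-(fderiv ℝ m z v) / m z) • Φ₀ z := by
      have e2 : m z • fderiv ℝ Φ₀ z v = -(fderiv ℝ m z v • Φ₀ z) := eq_neg_of_add_eq_zero_left hv
      have e3 : fderiv ℝ Φ₀ z v = (m z)⁻¹ • (m z • fderiv ℝ Φ₀ z v) := by
        rw [smul_smul, inv_mul_cancel₀ (hmne z hz), one_smul]
      rw [e3, e2, smul_neg, smul_smul, neg_div, neg_smul, div_eq_inv_mul]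
    set k : ℂ := -(fderiv ℝ m z v) / m z with hk
    have e4 : fderiv ℝ Φ₀ z (v - k • z) = 0 := by
      rw [map_sub, e1, fderiv_lift_self h hz, sub_self]
    have e5 : v = k • z := sub_eq_zero.1 (h.inj z hz _ e4)
    have e6 : fderiv ℝ m z v = 0 := by
      rw [e5]
      exact fderiv_self h hs hc hz k
    have e7 : k = 0 := by
      rw [hk, e6, neg_zero, zero_div]
    rw [e5, e7, zero_smul]
  · intro z
    by_cases hz : z = 0
    · subst hz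
      show nsq (m 0 • Φ₀ 0) = nsq (0 : W)
      rw [h0, smul_zero]
    exact hns z hz
  · intro ε hq z v w hz hv hw hvw
    have hz0 : z ≠ 0 := by
      rintro rfl
      have h1 : nsq (0 : W) = 0 := by
        unfold nsq
        simp
      rw [h1] at hz
      exact zero_ne_one hz
    rw [hhd z hz0 v, hhd z hz0 w, ConnBAux.nsq_smul, ConnBAux.nsq_smul]
    have h1 := hq z v w hz hv hw hvw
    have h2 : 0 ≤ Complex.normSq (m z) := Complex.normSq_nonneg _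
    calc Complex.normSq (m z) * nsq (hd Φ₀ z v)
        ≤ Complex.normSq (m z) * ((1 + ε) * nsq (hd Φ₀ z w)) := mul_le_mul_of_nonneg_left h1 h2
      _ = (1 + ε) * (Complex.normSq (m z) * nsq (hd Φ₀ z w)) := by ring
  · intro z hz
    exact pt_smul (hmne z hz) (Φ₀ z)
  · intro z v hz
    have e0 : ∀ (Ψ : W → W), pl Ψ z v = (hp (Ψ z) (fderiv ℝ Ψ z v) / (nsq (Ψ z) : ℂ)).im := by
      intro Ψ
      unfold pl
      rw [ContinuousLinearMap.comp_apply, a0_apply, Complex.div_ofReal_im]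
    rw [e0 Φ, e0 Φ₀, hquot z hz v, Complex.add_im, hm, fderiv_im h hs hz v]
    ring

end Pool.Agent.Lib.Qcd
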