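import Pool.Agent.Lib.Qcd.GrowW
import Pool.Agent.Lib.Qcd.Pin

set_option autoImplicit false

/-!
# The potential of the curvature of a quasiconformal lift is small

PROOF. `α = pl Φ₀` is `Conn` (`pl_conn`) and `Pinched κ` with `κ = √(C ε₀)` (`qpin`, for every `ε ≤ ε₀`); `γ = α - a0`, `tn γ p ≤ tn α p + tn a0 p` for `p ≠ 0` (both are differentiable there), `tn a0 p ≤ K / ‖p‖ ^ 2` (`a0` is `Conn`: `tn_hom` and continuity `tn_cont` on the compact unit sphere). Let `nsq z = 1`; `1 / √3 ≤ ‖z‖ ≤ 1`.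
For `s ≤ s₁` (`2 s₁ ≤ ρ₀ ≤ 1/4`): on `closedBall z (2 s)` `‖p‖ ≥ 1/4`, so `∫_{closedBall z (2 s)} tn γ ≤ A (2 s) ^ (23/4) + 16 K V (2 s) ^ 6 ≤ A' s ^ (23/4)` (`growW` with `κ ≤ κ₀`; `Pinched` is monotone in `κ`), and `∫_0^{s₁} s⁻⁶ A' s ^ (23/4) ds = A' ∫_0^{s₁} s ^ (-1/4) = (4/3) A' s₁ ^ (3/4) ≤ B / 2` for a suitable `s₁`.
For `s₁ ≤ s < 1`: `closedBall z (2 s) ⊆ closedBall 0 3`, `∫_{closedBall 0 3} tn γ = 3 ^ 4 ∫_{closedBall 0 1} tn γ ≤ 81 C κ` (`ballR` with `m = 2` and `tn_hom` for `γ` (`hom` holds for `α - a0`), `topW`), so this part is at most `s₁⁻⁶ 81 C κ ≤ B / 2` for `ε₀` small. (Measurability of `tn γ`: `tn_cont` on the complement of a point.)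
-/

open MeasureTheory Set Metric
open scoped ContDiff ENNReal

namespace Pool.Agent.Lib.Qcd

open Pool.Agent.P28b04d Pool.Agent.Lib.Psd

namespace GauSAux

theorem tn_sub_le {α β : W → W →L[ℝ] ℝ} (hα : ContDiffOn ℝ ∞ α {0}ᶜ) (hβ : ContDiffOn ℝ ∞ β {0}ᶜ)
    {p : W} (hp : p ≠ 0) : tn (fun y => α y - β y) p ≤ tn α p + tn β p := by
  have hmem : ({0}ᶜ : Set W) ∈ nhds p := isOpen_compl_singleton.mem_nhds hp
  have h1 : DifferentiableAt ℝ α p := (hα.contDiffAt hmem).differentiableAt (by simp)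
  have h2 : DifferentiableAt ℝ β p := (hβ.contDiffAt hmem).differentiableAt (by simp)
  have h3 : fderiv ℝ (fun y => α y - β y) p = fderiv ℝ α p - fderiv ℝ β p := fderiv_fun_sub h1 h2
  unfold tn
  rw [h3]
  have h4 : fderiv ℝ α p - fderiv ℝ β p - (fderiv ℝ α p - fderiv ℝ β p).flip =
      (fderiv ℝ α p - (fderiv ℝ α p).flip) - (fderiv ℝ β p - (fderiv ℝ β p).flip) := by
    ext v w
    simp only [ContinuousLinearMap.sub_apply, ContinuousLinearMap.flip_apply]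
    ring
  rw [h4]
  exact norm_sub_le (fderiv ℝ α p - (fderiv ℝ α p).flip) (fderiv ℝ β p - (fderiv ℝ β p).flip)

theorem a0_bd : ∃ K : ℝ, 0 ≤ K ∧ ∀ p : W, 1 / 4 ≤ ‖p‖ → ‖p‖ ≤ 2 → tn a0 p ≤ K := by
  have hc : IsCompact (closedBall (0 : W) 2 ∩ {p : W | 1 / 4 ≤ ‖p‖}) :=
    (isCompact_closedBall _ _).inter_right (isClosed_le continuous_const continuous_norm)
  have hcont : ContinuousOn (tn a0) (closedBall (0 : W) 2 ∩ {p : W | 1 / 4 ≤ ‖p‖}) := by
    refine (tn_cont a0_conn.smooth).mono fun p hp => ?_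
    rw [mem_compl_iff, mem_singleton_iff]
    rintro rfl
    have : (1 / 4 : ℝ) ≤ ‖(0 : W)‖ := hp.2
    rw [norm_zero] at this
    norm_num at this
  obtain ⟨K, hK⟩ := hc.exists_bound_of_continuousOn hcont
  refine ⟨max K 0, le_max_right _ _, fun p h1 h2 => ?_⟩
  have h3 := hK p ⟨by rwa [mem_closedBall, dist_zero_right], h1⟩
  exact (le_abs_self _).trans (h3.trans (le_max_left _ _))

theorem norm_z {z : W} (hz : nsq z = 1) : 1 / 2 ≤ ‖z‖ ∧ ‖z‖ ≤ 1 := by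
  have h1 : nsq z = ‖z 0‖ ^ 2 + ‖z 1‖ ^ 2 + ‖z 2‖ ^ 2 := by
    unfold nsq
    rw [Fin.sum_univ_three]
    simp only [Complex.normSq_eq_norm_sq]
  rw [h1] at hz
  constructor
  · by_contra hcon
    rw [not_le] at hcon
    have h2 : ∀ i, ‖z i‖ ≤ ‖z‖ := fun i => norm_le_pi_norm z i
    have h3 : ∀ i, ‖z i‖ ^ 2 ≤ (1 / 2) ^ 2 := fun i =>
      pow_le_pow_left₀ (norm_nonneg _) ((h2 i).trans hcon.le) 2
    have := h3 0
    have := h3 1
    have := h3 2
    nlinarith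
  · rw [pi_norm_le_iff_of_nonneg zero_le_one]
    intro i
    have h2 : ‖z i‖ ^ 2 ≤ 1 := by
      have a0 := sq_nonneg ‖z 0‖
      have a1 := sq_nonneg ‖z 1‖
      have a2 := sq_nonneg ‖z 2‖
      fin_cases i
      · show ‖z 0‖ ^ 2 ≤ 1
        linarith
      · show ‖z 1‖ ^ 2 ≤ 1
        linarith
      · show ‖z 2‖ ^ 2 ≤ 1
        linarith
    nlinarith [norm_nonneg (z i)]

theorem finrank_W : Module.finrank ℝ W = 6 := by
  rw [Module.finrank_pi_fintype]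
  simp [Complex.finrank_real_complex]

theorem vol_ball (z : W) {r : ℝ} (hr : 0 ≤ r) : volume (closedBall z r) =
    ENNReal.ofReal (r ^ 6 * (volume (ball (0 : W) 1)).toReal) := by
  rw [Measure.addHaar_closedBall volume z hr, finrank_W, ENNReal.ofReal_mul (by positivity),
    ENNReal.ofReal_toReal measure_ball_lt_top.ne]

/-- arithmetic of the exponents -/
theorem ar1 {A K V s : ℝ} (hA : 0 ≤ A) (hK : 0 ≤ K) (hV : 0 ≤ V) (hs : 0 < s) (hs1 : s ≤ 1) :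
    A * (2 * s) ^ (23 / 4 : ℝ) + K * ((2 * s) ^ 6 * V) ≤
      (A * 2 ^ (23 / 4 : ℝ) + 64 * K * V) * s ^ (23 / 4 : ℝ) := by
  have h1 : (2 * s) ^ (23 / 4 : ℝ) = 2 ^ (23 / 4 : ℝ) * s ^ (23 / 4 : ℝ) :=
    Real.mul_rpow (by norm_num) hs.le
  have h2 : s ^ 6 ≤ s ^ (23 / 4 : ℝ) := by
    rw [← Real.rpow_natCast s 6]
    exact Real.rpow_le_rpow_of_exponent_ge hs hs1 (by norm_num)
  have h3 : K * ((2 * s) ^ 6 * V) = 64 * K * V * s ^ 6 := by ring
  rw [h1, h3, add_mul]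
  have h4 : 64 * K * V * s ^ 6 ≤ 64 * K * V * s ^ (23 / 4 : ℝ) := by gcongr
  linarith

theorem ar2 {A s : ℝ} (hs : 0 < s) : (s ^ 6)⁻¹ * (A * s ^ (23 / 4 : ℝ)) =
    A * s ^ (-(1 / 4) : ℝ) := by
  have h1 : s ^ (23 / 4 : ℝ) = s ^ (-(1 / 4) : ℝ) * s ^ 6 := by
    rw [← Real.rpow_natCast s 6, ← Real.rpow_add hs]
    congr 1
    norm_num
  rw [h1]
  field_simp

theorem int_rp {A s : ℝ} (hA : 0 ≤ A) (hs : 0 < s) :
    ∫⁻ t in Ioc (0 : ℝ) s, ENNReal.ofReal (A * t ^ (-(1 / 4) : ℝ)) =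
      ENNReal.ofReal (A * (4 / 3 * s ^ (3 / 4 : ℝ))) := by
  have h1 : IntervalIntegrable (fun t : ℝ => t ^ (-(1 / 4) : ℝ)) volume 0 s :=
    intervalIntegral.intervalIntegrable_rpow' (by norm_num)
  have h2 : IntegrableOn (fun t : ℝ => A * t ^ (-(1 / 4) : ℝ)) (Ioc 0 s) :=
    ((intervalIntegrable_iff_integrableOn_Ioc_of_le hs.le).1 h1).const_mul A
  have h3 : 0 ≤ᵐ[volume.restrict (Ioc (0 : ℝ) s)] fun t : ℝ => A * t ^ (-(1 / 4) : ℝ) := by
    refine (ae_restrict_iff' measurableSet_Ioc).2 (Filter.Eventually.of_forall fun t ht => ?_)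
    have : 0 ≤ t ^ (-(1 / 4) : ℝ) := Real.rpow_nonneg ht.1.le _
    exact mul_nonneg hA this
  rw [← ofReal_integral_eq_lintegral_ofReal h2 h3, integral_const_mul,
    ← intervalIntegral.integral_of_le hs.le, integral_rpow (Or.inl (by norm_num))]
  congr 2
  have h4 : (-(1 / 4) : ℝ) + 1 = 3 / 4 := by norm_num
  rw [h4, Real.zero_rpow (by norm_num), sub_zero]
  ring

/-- the choice of the scale -/
theorem exists_scale {A B ρ : ℝ} (hA : 0 < A) (hB : 0 < B) (hρ : 0 < ρ) :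
    ∃ s : ℝ, 0 < s ∧ s ≤ ρ / 2 ∧ A * (4 / 3 * s ^ (3 / 4 : ℝ)) ≤ B / 2 := by
  set t : ℝ := 3 * B / (8 * A) with ht
  have ht0 : 0 < t := by positivity
  refine ⟨min (ρ / 2) (t ^ (4 / 3 : ℝ)), lt_min (by positivity) (by positivity), min_le_left _ _, ?_⟩
  have h1 : (min (ρ / 2) (t ^ (4 / 3 : ℝ))) ^ (3 / 4 : ℝ) ≤ t := by
    calc (min (ρ / 2) (t ^ (4 / 3 : ℝ))) ^ (3 / 4 : ℝ) ≤ (t ^ (4 / 3 : ℝ)) ^ (3 / 4 : ℝ) :=
          Real.rpow_le_rpow (le_min (by positivity) (by positivity)) (min_le_right _ _) (by norm_num)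
      _ = t := by
          rw [← Real.rpow_mul ht0.le]
          norm_num
  calc A * (4 / 3 * (min (ρ / 2) (t ^ (4 / 3 : ℝ))) ^ (3 / 4 : ℝ)) ≤ A * (4 / 3 * t) := by gcongr
    _ = B / 2 := by
      rw [ht]
      field_simp
      ring

end GauSAux

open GauSAux

theorem gau_small (B : ℝ) (hB : 0 < B) : ∃ ε₀ : ℝ, 0 < ε₀ ∧ ∀ ε : ℝ, 0 ≤ ε → ε ≤ ε₀ → ∀ Φ₀ : W → W,
    HLoc (n := 2) Φ₀ → QCL ε Φ₀ → ∀ z : W, nsq z = 1 →
      ∫⁻ s in Ioo (0 : ℝ) 1, (ENNReal.ofReal (s ^ 6))⁻¹ *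
        ∫⁻ p in closedBall z (2 * s), ENNReal.ofReal (tn (fun y => pl Φ₀ y - a0 y) p) ≤
          ENNReal.ofReal B := by
  obtain ⟨ρ₀, κ₀, A, hρ₀, hρ₁, hκ₀, hκ₁, hA, hgrow⟩ := growW
  obtain ⟨C, hC, htop⟩ := topW
  obtain ⟨Cq, hCq, hpin⟩ := qpin
  obtain ⟨K, hK, hKb⟩ := a0_bd
  set V : ℝ := (volume (ball (0 : W) 1)).toReal with hV
  have hV0 : 0 ≤ V := ENNReal.toReal_nonneg
  set A' : ℝ := A * 2 ^ (23 / 4 : ℝ) + 64 * K * V with hA'
  have hA'0 : 0 < A' := by positivity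
  obtain ⟨s₁, hs₁, hs₁ρ, hs₁B⟩ := exists_scale hA'0 hB hρ₀
  have hs₁1 : s₁ ≤ 1 / 8 := by linarith
  set κ : ℝ := min κ₀ (B * s₁ ^ 6 / (162 * C)) with hκ
  have hκpos : 0 < κ := lt_min hκ₀ (by positivity)
  have hκκ₀ : κ ≤ κ₀ := min_le_left _ _
  have hκB : κ * (162 * C) ≤ B * s₁ ^ 6 := by
    have : κ ≤ B * s₁ ^ 6 / (162 * C) := min_le_right _ _
    rwa [le_div_iff₀ (by positivity)] at this
  refine ⟨min (1 / Cq) (κ ^ 2 / Cq), lt_min (by positivity) (by positivity), ?_⟩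
  intro ε hε hε₀ Φ₀ hΦ hQ z hz
  have hCqε : Cq * ε ≤ κ ^ 2 := by
    have : ε ≤ κ ^ 2 / Cq := hε₀.trans (min_le_right _ _)
    rw [le_div_iff₀ (by positivity)] at this
    linarith
  have hP : Pinched κ (pl Φ₀) := hpin ε hε (hε₀.trans (min_le_left _ _)) Φ₀ hΦ hQ κ hCqε
  have hP₀ : Pinched κ₀ (pl Φ₀) := by
    intro z u v h
    refine (hP z u v h).trans (mul_le_mul_of_nonneg_right ?_ (nrm2_nonneg _))
    exact pow_le_pow_left₀ hκpos.le hκκ₀ 2
  have hα : Psd.Conn (pl Φ₀) := pl_conn hΦ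
  have hγ : Basic (fun y => pl Φ₀ y - a0 y) := hα.sub a0_conn
  set α : W → W →L[ℝ] ℝ := pl Φ₀ with hαd
  set γ : W → W →L[ℝ] ℝ := fun y => α y - a0 y with hγd
  obtain ⟨hz1, hz2⟩ := norm_z hz
  -- small scales
  have hsmall : ∀ s ∈ Ioc (0 : ℝ) s₁, (ENNReal.ofReal (s ^ 6))⁻¹ *
      (∫⁻ p in closedBall z (2 * s), ENNReal.ofReal (tn γ p)) ≤
        ENNReal.ofReal (A' * s ^ (-(1 / 4) : ℝ)) := by
    intro s hs
    have hs0 : 0 < s := hs.1
    have hs1 : s ≤ 1 / 8 := hs.2.trans hs₁1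
    have hpt : ∀ p ∈ closedBall z (2 * s), ENNReal.ofReal (tn γ p) ≤
        ENNReal.ofReal (tn α p) + ENNReal.ofReal K := by
      intro p hp
      rw [mem_closedBall, dist_eq_norm] at hp
      have h1 : ‖z‖ ≤ ‖p‖ + ‖p - z‖ := by
        have : z = p - (p - z) := by abel
        calc ‖z‖ = ‖p - (p - z)‖ := by rw [← this]
          _ ≤ _ := norm_sub_le _ _
      have h2 : ‖p‖ ≤ ‖z‖ + ‖p - z‖ := by
        have : p = z + (p - z) := by abel
        calc ‖p‖ = ‖z + (p - z)‖ := by rw [← this]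
          _ ≤ _ := norm_add_le _ _
      have h3 : 1 / 4 ≤ ‖p‖ := by linarith
      have hp0 : p ≠ 0 := by
        rintro rfl
        rw [norm_zero] at h3
        norm_num at h3
      rw [← ENNReal.ofReal_add (GrowWAux.tn_nonneg _ _) hK]
      refine ENNReal.ofReal_le_ofReal ((tn_sub_le hα.smooth a0_conn.smooth hp0).trans ?_)
      have := hKb p h3 (by linarith)
      linarith
    have h4 : ∫⁻ p in closedBall z (2 * s), ENNReal.ofReal (tn γ p) ≤
        ENNReal.ofReal (A' * s ^ (23 / 4 : ℝ)) := by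
      calc ∫⁻ p in closedBall z (2 * s), ENNReal.ofReal (tn γ p)
          ≤ ∫⁻ p in closedBall z (2 * s), (ENNReal.ofReal (tn α p) + ENNReal.ofReal K) :=
            setLIntegral_mono' measurableSet_closedBall hpt
        _ = (∫⁻ p in closedBall z (2 * s), ENNReal.ofReal (tn α p)) +
            ENNReal.ofReal K * volume (closedBall z (2 * s)) := by
            rw [lintegral_add_right _ measurable_const, setLIntegral_const]
        _ ≤ ENNReal.ofReal (A * (2 * s) ^ (23 / 4 : ℝ)) +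
            ENNReal.ofReal K * ENNReal.ofReal ((2 * s) ^ 6 * V) := by
            rw [vol_ball z (by positivity)]
            gcongr
            exact hgrow α hα hP₀ z hz (2 * s) (by positivity) (by linarith [hs.2])
        _ = ENNReal.ofReal (A * (2 * s) ^ (23 / 4 : ℝ) + K * ((2 * s) ^ 6 * V)) := by
            rw [← ENNReal.ofReal_mul hK, ← ENNReal.ofReal_add (by positivity) (by positivity)]
        _ ≤ _ := ENNReal.ofReal_le_ofReal (ar1 (by linarith) hK hV0 hs0 (by linarith))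
    calc (ENNReal.ofReal (s ^ 6))⁻¹ * (∫⁻ p in closedBall z (2 * s), ENNReal.ofReal (tn γ p))
        ≤ (ENNReal.ofReal (s ^ 6))⁻¹ * ENNReal.ofReal (A' * s ^ (23 / 4 : ℝ)) := by gcongr
      _ = ENNReal.ofReal (A' * s ^ (-(1 / 4) : ℝ)) := by
          rw [← ENNReal.ofReal_inv_of_pos (by positivity), ← ENNReal.ofReal_mul (by positivity),
            ar2 hs0]
  -- large scales
  have htn : Measurable fun x : W => ENNReal.ofReal (tn γ x) :=
    (measurable_of_continuousOn_compl_singleton 0 (tn_cont hγ.smooth)).ennreal_ofReal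
  have hbig : ∫⁻ p in closedBall (0 : W) 3, ENNReal.ofReal (tn γ p) ≤
      ENNReal.ofReal (81 * (C * κ)) := by
    rw [ballR (m := 2) htn (fun r hr x hx => ?_) (by norm_num : (0 : ℝ) < 3)]
    · have h1 : (3 : ℝ) ^ 6 / 3 ^ 2 = 81 := by norm_num
      rw [h1, ENNReal.ofReal_mul (by norm_num)]
      gcongr
      exact htop κ hκpos.le (hκκ₀.trans hκ₁) α hα hP
    · have hrc : (r : ℂ) ≠ 0 := by exact_mod_cast hr.ne'
      have h1 : r • x = (r : ℂ) • x := by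
        ext i
        simp
      rw [h1, tn_hom hγ.smooth hγ.hom hrc hx, Complex.norm_real, Real.norm_of_nonneg hr.le,
        ENNReal.ofReal_div_of_pos (by positivity)]
  have hlarge : ∀ s ∈ Ioo s₁ (1 : ℝ), (ENNReal.ofReal (s ^ 6))⁻¹ *
      (∫⁻ p in closedBall z (2 * s), ENNReal.ofReal (tn γ p)) ≤
        ENNReal.ofReal (B / 2) := by
    intro s hs
    have hs0 : 0 < s := hs₁.trans hs.1
    have h1 : closedBall z (2 * s) ⊆ closedBall (0 : W) 3 := by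
      intro p hp
      rw [mem_closedBall, dist_eq_norm] at hp
      rw [mem_closedBall, dist_zero_right]
      have h2 : ‖p‖ ≤ ‖z‖ + ‖p - z‖ := by
        have : p = z + (p - z) := by abel
        calc ‖p‖ = ‖z + (p - z)‖ := by rw [← this]
          _ ≤ _ := norm_add_le _ _
      linarith [hs.2]
    have h2 : (s ^ 6)⁻¹ ≤ (s₁ ^ 6)⁻¹ := by
      have : s₁ ^ 6 ≤ s ^ 6 := pow_le_pow_left₀ hs₁.le hs.1.le 6
      exact inv_anti₀ (by positivity) this
    calc (ENNReal.ofReal (s ^ 6))⁻¹ * (∫⁻ p in closedBall z (2 * s), ENNReal.ofReal (tn γ p))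
        ≤ ENNReal.ofReal ((s₁ ^ 6)⁻¹) * ENNReal.ofReal (81 * (C * κ)) := by
          rw [← ENNReal.ofReal_inv_of_pos (by positivity)]
          exact mul_le_mul' (ENNReal.ofReal_le_ofReal h2) ((lintegral_mono_set h1).trans hbig)
      _ = ENNReal.ofReal ((s₁ ^ 6)⁻¹ * (81 * (C * κ))) := by
          rw [← ENNReal.ofReal_mul (by positivity)]
      _ ≤ ENNReal.ofReal (B / 2) := by
          refine ENNReal.ofReal_le_ofReal ?_
          rw [inv_mul_le_iff₀ (by positivity)]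
          nlinarith
  have hsub : Ioo (0 : ℝ) 1 ⊆ Ioc 0 s₁ ∪ Ioo s₁ 1 := by
    intro s hs
    rcases le_or_gt s s₁ with h | h
    · exact Or.inl ⟨hs.1, h⟩
    · exact Or.inr ⟨h, hs.2⟩
  calc _ ≤ ∫⁻ s in Ioc 0 s₁ ∪ Ioo s₁ 1, (ENNReal.ofReal (s ^ 6))⁻¹ *
        (∫⁻ p in closedBall z (2 * s), ENNReal.ofReal (tn γ p)) := lintegral_mono_set hsub
    _ ≤ (∫⁻ s in Ioc 0 s₁, (ENNReal.ofReal (s ^ 6))⁻¹ *
        (∫⁻ p in closedBall z (2 * s), ENNReal.ofReal (tn γ p))) +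
        ∫⁻ s in Ioo s₁ 1, (ENNReal.ofReal (s ^ 6))⁻¹ *
        (∫⁻ p in closedBall z (2 * s), ENNReal.ofReal (tn γ p)) := lintegral_union_le _ _ _
    _ ≤ (∫⁻ s in Ioc 0 s₁, ENNReal.ofReal (A' * s ^ (-(1 / 4) : ℝ))) +
        ∫⁻ _s in Ioo s₁ 1, ENNReal.ofReal (B / 2) :=
        add_le_add (setLIntegral_mono' measurableSet_Ioc hsmall)
          (setLIntegral_mono' measurableSet_Ioo hlarge)
    _ ≤ ENNReal.ofReal (B / 2) + ENNReal.ofReal (B / 2) := by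
        rw [int_rp hA'0.le hs₁, setLIntegral_const]
        refine add_le_add (ENNReal.ofReal_le_ofReal hs₁B) ?_
        rw [Real.volume_Ioo]
        refine mul_le_of_le_one_right' ?_
        rw [← ENNReal.ofReal_one]
        exact ENNReal.ofReal_le_ofReal (by linarith)
    _ = ENNReal.ofReal B := by
        rw [← ENNReal.ofReal_add (by positivity) (by positivity)]
        congr 1
        ring

end Pool.Agent.Lib.Qcd
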