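import Pool.Agent.Lib.Qcd.Gau
import Pool.Agent.Lib.Qcd.GauM
import Pool.Agent.Lib.Qcd.GauS

set_option autoImplicit false

/-!
# Quasiconformal lifts in a good gauge

PROOF. `gau` gives `C`; `B = δ / (2 C)` in `gau_small`; `γ = pl Φ₀ - a0` is `Basic` (`Conn.sub`, `pl_conn`, `a0_conn`); `gau` with `B` and `δ / 2` gives `χ`, `gau_lift` gives `Φ`.
-/

open MeasureTheory Set Metric
open scoped ContDiff ENNReal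

namespace Pool.Agent.Lib.Qcd

open Pool.Agent.P28b04d Pool.Agent.Lib.Psd

theorem gauged (δ : ℝ) (hδ : 0 < δ) : ∃ ε₀ : ℝ, 0 < ε₀ ∧ ∀ ε : ℝ, 0 ≤ ε → ε ≤ ε₀ → ∀ Φ₀ : W → W,
    HLoc (n := 2) Φ₀ → QCL ε Φ₀ → ∃ Φ : W → W, NL Φ ∧ QCL ε Φ ∧
      (∀ z : W, z ≠ 0 → pt (Φ z) = pt (Φ₀ z)) ∧
      ∀ z v : W, nsq z = 1 → |pl Φ z v - a0 z v| ≤ δ * ‖v‖ := by
  obtain ⟨C, hC, hg⟩ := gau
  have hC0 : 0 < C := by linarith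
  obtain ⟨ε₀, hε₀, hs⟩ := gau_small (δ / (2 * C)) (by positivity)
  refine ⟨ε₀, hε₀, fun ε h0 h1 Φ₀ hΦ₀ hq => ?_⟩
  have hB : Basic (fun y => pl Φ₀ y - a0 y) := (pl_conn hΦ₀).sub a0_conn
  obtain ⟨χ, hχs, hχc, hχ⟩ := hg _ hB (δ / (2 * C)) (δ / 2) (by positivity) (by positivity)
    (hs ε h0 h1 Φ₀ hΦ₀ hq)
  obtain ⟨Φ, hN, hQ, hpt, hpl⟩ := gau_lift hΦ₀ hχs hχc
  refine ⟨Φ, hN, hQ ε hq, hpt, fun z v hz => ?_⟩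
  have hz0 : z ≠ 0 := by
    rintro rfl
    simp [nsq] at hz
  rw [hpl z v hz0]
  have h2 := hχ z v hz
  have e : C * (δ / (2 * C)) + δ / 2 = δ := by
    field_simp
    ring
  rw [e] at h2
  have e2 : pl Φ₀ z v - fderiv ℝ χ z v - a0 z v = (pl Φ₀ z - a0 z) v - fderiv ℝ χ z v := by
    rw [sub_apply]
    ring
  rw [e2]
  exact h2

end Pool.Agent.Lib.Qcd
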