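import Pool.Agent.Lib.Qcd.PtG
import Pool.Agent.Lib.Qcd.FlatG
import Pool.Agent.Lib.P28e.Defs

set_option autoImplicit false

/-!
# Mean flatness of the derivative of a lift at small scales

PROOF. Let `C₁` be the constant of `ballW`, `C₂` of `ptG`; `η` small (at most `η₂` of `ndC`) and `r₁, ε₁` from `flatG η`, `ρ_c, ε_c, A` from `ctrlG`. Let `nsq z = 1`, `u, v` and `p, q` with `ON3 z u v`, `ON3 (Φ z) p q` (`exists_ON3`, `nsq (Φ z) = 1`), `0 < ρ ≤ ρ₁`, `r = C₁' ρ ≤ r₁` (`C₁' = max C₁ 5`), `c` from `flatG` at `r`: `‖c‖ + 1/‖c‖ ≤ 16 r ^ (-1/8)`. `ndC` with `L = DG` (`nc 1 (DG x)` for `‖x‖ < r` by `nc_DG`, `ctrlG`, `ρ₁` small;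
continuous by `Gc_smooth`) gives the hypothesis of `ptG`. For `x ∈ closedBall z ρ`, `y = yc x`, `‖y‖ ≤ 4 ρ < r` (`ball_hp`): `‖lamG - 1‖ ≤ A (4ρ) ^ (7/8)`, `√(∑ Gc²) (‖c‖ + 1/‖c‖) ≤ A (4ρ) ^ (7/8) 16 r ^ (-1/8) ≤ C ρ ^ (3/4)` (so `≤ 1`, `≤ 1/2` for `ρ₁` small), and `ptG` with `δ = ε₀` gives `‖M⁻¹ fderiv ℝ Φ x - 1‖ ≤ C₂ (C ρ ^ (3/4) + ε₀ + B (yc x))`, `B y = √(∑_k (DG y k - c k)²) / ‖c‖`.
By `ballW` with `k y = ofReal (B y)` (`y ↦ B y` is continuous on the ball where `lamG ≠ 0`; make it measurable by an indicator of `ball 0 r`): `∫_{closedBall z ρ} B (yc x) ≤ C₁ ρ² ∫_{ball 0 (C₁ ρ)} B ≤ C₁ ρ² (V r⁴)^(1/2) (16 η² r⁴)^(1/2) = C η ρ⁶` (Cauchy-Schwarz). `volume (closedBall z ρ) = ρ⁶ volume (closedBall 0 1)`. So the mean is at most `C (ρ₁ ^ (3/4) + ε₀ + η) ≤ 1/4` for `η`, then `ρ₁`, `ε₀` small.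
-/

open MeasureTheory Set Metric
open scoped ContDiff ENNReal

namespace Pool.Agent.Lib.Qcd

open Pool.Agent.P28b04d Pool.Agent.Lib.Psd

namespace GoodSAux

theorem qcl_mono {Φ : W → W} {ε ε' : ℝ} (h : ε ≤ ε') (hq : QCL ε Φ) : QCL ε' Φ := by
  intro z v w hz hv hw hvw
  refine (hq z v w hz hv hw hvw).trans ?_
  have : 0 ≤ nsq (hd Φ z w) := nsq_nonneg _
  nlinarith

theorem vol_ball {r : ℝ} (hr : 0 < r) :
    volume.real (ball (0 : E) r) = r ^ 4 * volume.real (ball (0 : E) 1) := by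
  rw [Measure.real, Measure.addHaar_ball_of_pos volume (0 : E) hr, ENNReal.toReal_mul,
    ENNReal.toReal_ofReal (by positivity), finrank_euclideanSpace_fin, Measure.real]

theorem vol_cball (z : W) {r : ℝ} (hr : 0 ≤ r) :
    volume (closedBall z r) = ENNReal.ofReal (r ^ 6) * volume (closedBall (0 : W) 1) := by
  have h6 : Module.finrank ℝ W = 6 := by
    rw [Module.finrank_pi_fintype]
    simp
  rw [Measure.addHaar_closedBall' volume z hr, h6]

theorem mean_dev {L : E → Fin 4 → Fin 4 → ℝ} {c : Fin 4 × Fin 4 → ℝ} {η r : ℝ} (hη : 0 < η)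
    (hr : 0 < r) (hc : c ≠ 0) (hL : ∀ i a, ContinuousOn (fun x => L x i a) (closedBall 0 r))
    (hI : ∀ k : Fin 4 × Fin 4, ∫ x in ball (0 : E) r, (L x k.1 k.2 - c k) ^ 2 ≤
      (η * ‖c‖) ^ 2 * r ^ 4) :
    ∫⁻ x in ball (0 : E) r,
      ENNReal.ofReal (Real.sqrt (∑ k : Fin 4 × Fin 4, (L x k.1 k.2 - c k) ^ 2) / ‖c‖) ≤
        ENNReal.ofReal (η * (volume.real (ball (0 : E) 1) + 8) * r ^ 4) := by
  have hc0 : 0 < ‖c‖ := norm_pos_iff.2 hc
  have hint : ∀ k : Fin 4 × Fin 4,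
      IntegrableOn (fun x => (L x k.1 k.2 - c k) ^ 2) (ball (0 : E) r) := by
    intro k
    have h1 : ContinuousOn (fun x => (L x k.1 k.2 - c k) ^ 2) (closedBall (0 : E) r) :=
      ((hL k.1 k.2).sub continuousOn_const).pow 2
    exact (h1.integrableOn_compact (isCompact_closedBall _ _)).mono_set ball_subset_closedBall
  have hint2 : IntegrableOn (fun x => ∑ k : Fin 4 × Fin 4, (L x k.1 k.2 - c k) ^ 2)
      (ball (0 : E) r) := integrable_finsetSum _ fun k _ => hint k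
  have hint3 : IntegrableOn (fun x => 1 / (2 * η * ‖c‖ ^ 2) *
      ∑ k : Fin 4 × Fin 4, (L x k.1 k.2 - c k) ^ 2) (ball (0 : E) r) := hint2.const_mul _
  have hcon : IntegrableOn (fun _ : E => η / 2) (ball (0 : E) r) :=
    integrableOn_const measure_ball_lt_top.ne
  calc _ ≤ ∫⁻ x in ball (0 : E) r, ENNReal.ofReal (η / 2 + 1 / (2 * η * ‖c‖ ^ 2) *
          ∑ k : Fin 4 × Fin 4, (L x k.1 k.2 - c k) ^ 2) := by
        apply lintegral_mono
        intro x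
        apply ENNReal.ofReal_le_ofReal
        set S := ∑ k : Fin 4 × Fin 4, (L x k.1 k.2 - c k) ^ 2 with hS
        have hS0 : 0 ≤ S := Finset.sum_nonneg fun k _ => sq_nonneg _
        have h1 : S = (Real.sqrt S) ^ 2 := (Real.sq_sqrt hS0).symm
        have h2 : 1 / (2 * η * ‖c‖ ^ 2) * S = (Real.sqrt S / ‖c‖) ^ 2 / (2 * η) := by
          conv_lhs => rw [h1]
          field_simp
        rw [h2]
        set b := Real.sqrt S / ‖c‖ with hb
        have h3 : η / 2 + b ^ 2 / (2 * η) - b = (b - η) ^ 2 / (2 * η) := by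
          field_simp
          ring
        have h4 : 0 ≤ (b - η) ^ 2 / (2 * η) := by positivity
        linarith
    _ = ENNReal.ofReal (∫ x in ball (0 : E) r, (η / 2 + 1 / (2 * η * ‖c‖ ^ 2) *
          ∑ k : Fin 4 × Fin 4, (L x k.1 k.2 - c k) ^ 2)) := by
        have hsum : IntegrableOn (fun x => η / 2 + 1 / (2 * η * ‖c‖ ^ 2) *
          ∑ k : Fin 4 × Fin 4, (L x k.1 k.2 - c k) ^ 2) (ball (0 : E) r) := hcon.add hint3
        rw [ofReal_integral_eq_lintegral_ofReal hsum]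
        apply Filter.Eventually.of_forall
        intro x
        show 0 ≤ η / 2 + 1 / (2 * η * ‖c‖ ^ 2) * ∑ k : Fin 4 × Fin 4, (L x k.1 k.2 - c k) ^ 2
        have : 0 ≤ ∑ k : Fin 4 × Fin 4, (L x k.1 k.2 - c k) ^ 2 :=
          Finset.sum_nonneg fun k _ => sq_nonneg _
        positivity
    _ ≤ _ := by
        apply ENNReal.ofReal_le_ofReal
        rw [integral_add hcon hint3, integral_const_mul, integral_finsetSum _ (fun k _ => hint k),
          setIntegral_const, vol_ball hr, smul_eq_mul]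
        have h1 : ∑ k : Fin 4 × Fin 4, ∫ x in ball (0 : E) r, (L x k.1 k.2 - c k) ^ 2 ≤
            ∑ _k : Fin 4 × Fin 4, (η * ‖c‖) ^ 2 * r ^ 4 := Finset.sum_le_sum fun k _ => hI k
        have h2 : ∑ _k : Fin 4 × Fin 4, (η * ‖c‖) ^ 2 * r ^ 4 = 16 * ((η * ‖c‖) ^ 2 * r ^ 4) := by
          simp
        rw [h2] at h1
        have h3 : 1 / (2 * η * ‖c‖ ^ 2) * ∑ k : Fin 4 × Fin 4,
            ∫ x in ball (0 : E) r, (L x k.1 k.2 - c k) ^ 2 ≤
            1 / (2 * η * ‖c‖ ^ 2) * (16 * ((η * ‖c‖) ^ 2 * r ^ 4)) :=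
          mul_le_mul_of_nonneg_left h1 (by positivity)
        have h4 : 1 / (2 * η * ‖c‖ ^ 2) * (16 * ((η * ‖c‖) ^ 2 * r ^ 4)) = 8 * η * r ^ 4 := by
          field_simp
          ring
        have hV : 0 ≤ volume.real (ball (0 : E) 1) := measureReal_nonneg
        have h5 : 0 ≤ η * volume.real (ball (0 : E) 1) * r ^ 4 := by positivity
        nlinarith

/-- numerical estimate at a point -/
theorem num_pt {A t s n l ρ ε₀ B C₂ : ℝ} (hA : 1 ≤ A) (ht0 : 0 < t) (hC₂ : 1 ≤ C₂)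
    (ht : t ≤ 1 / (432 * A * C₂)) (hn : 0 < n) (htn : t * n ≤ 8) (htn' : t ≤ 8 * n)
    (hl : l ≤ A * t ^ 7) (hs0 : 0 ≤ s) (hs : s ≤ A * t ^ 7) (hρ : ρ ≤ t ^ 8)
    (hε : ε₀ ≤ 1 / (24 * C₂)) :
    l ≤ 1 / 2 ∧ s * (n + 1 / n) ≤ 1 ∧
      C₂ * (ρ + l + ε₀ + s * (n + 1 / n) + B) ≤ 1 / 12 + C₂ * B := by
  have hAC : 1 ≤ A * C₂ := by nlinarith
  have ht1 : t * (432 * A * C₂) ≤ 1 := by
    rw [le_div_iff₀ (by positivity)] at ht
    exact ht
  have htl : t ≤ 1 / 432 := by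
    refine ht.trans ?_
    apply div_le_div_of_nonneg_left (by norm_num) (by norm_num)
    nlinarith
  have ht1' : t ≤ 1 := by linarith
  have hAt : A * t * C₂ ≤ 1 / 432 := by nlinarith
  have hAt1 : A * t ≤ A * t * C₂ := le_mul_of_one_le_right (by positivity) hC₂
  have h7 : A * t ^ 7 ≤ A * t := by
    have : t ^ 7 ≤ t := by
      calc t ^ 7 ≤ t ^ 1 := pow_le_pow_of_le_one ht0.le ht1' (by norm_num)
        _ = t := pow_one t
    exact mul_le_mul_of_nonneg_left this (by linarith)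
  have h8 : t ^ 8 ≤ A * t := by
    have : t ^ 8 ≤ t := by
      calc t ^ 8 ≤ t ^ 1 := pow_le_pow_of_le_one ht0.le ht1' (by norm_num)
        _ = t := pow_one t
    nlinarith
  have h16 : t * (n + 1 / n) ≤ 16 := by
    have : t * (1 / n) ≤ 8 := by
      rw [mul_one_div, div_le_iff₀ hn]
      exact htn'
    rw [mul_add]
    linarith
  have hsn : s * (n + 1 / n) ≤ 16 * (A * t) := by
    have h6 : t ^ 7 * (n + 1 / n) ≤ 16 * t := by
      have h61 : t ^ 6 ≤ t := by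
        calc t ^ 6 ≤ t ^ 1 := pow_le_pow_of_le_one ht0.le ht1' (by norm_num)
          _ = t := pow_one t
      calc t ^ 7 * (n + 1 / n) = t ^ 6 * (t * (n + 1 / n)) := by ring
        _ ≤ t * 16 := mul_le_mul h61 h16 (by positivity) ht0.le
        _ = 16 * t := by ring
    calc s * (n + 1 / n) ≤ A * t ^ 7 * (n + 1 / n) := mul_le_mul_of_nonneg_right hs (by positivity)
      _ = A * (t ^ 7 * (n + 1 / n)) := by ring
      _ ≤ A * (16 * t) := mul_le_mul_of_nonneg_left h6 (by linarith)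
      _ = 16 * (A * t) := by ring
  refine ⟨by linarith, by linarith, ?_⟩
  have hε' : C₂ * ε₀ ≤ 1 / 24 := by
    rw [le_div_iff₀ (by positivity)] at hε
    linarith
  have h18 : C₂ * (ρ + l + s * (n + 1 / n)) ≤ C₂ * (18 * (A * t)) := by
    apply mul_le_mul_of_nonneg_left _ (by linarith)
    linarith
  nlinarith

end GoodSAux

theorem goodS : ∃ ρ₁ ε₀ : ℝ, 0 < ρ₁ ∧ ρ₁ ≤ 1 / 8 ∧ 0 < ε₀ ∧
    ∀ Φ : W → W, NL Φ → QCL ε₀ Φ →
      (∀ z v : W, nsq z = 1 → |pl Φ z v - a0 z v| ≤ ε₀ * ‖v‖) →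
      ∀ z : W, nsq z = 1 → ∀ ρ : ℝ, 0 < ρ → ρ ≤ ρ₁ →
        ∃ M : (P28e.EndW 2)ˣ, P28e.Good (n := 2) Φ z ρ (1 / 4) M := by
  obtain ⟨C₁, hC₁, hbW⟩ := ballW
  obtain ⟨C₂, hC₂, hpt⟩ := ptG
  obtain ⟨η₂, hη₂, hnd⟩ := ndC
  obtain ⟨ρc, εc, A, hρc, hρc16, hεc, hA, hAρ, hctrl⟩ := ctrlG
  set U : ℝ := volume.real (closedBall (0 : W) 1) with hU
  have hU0 : 0 < U := by
    rw [hU, Measure.real]
    exact ENNReal.toReal_pos (Metric.measure_closedBall_pos volume _ one_pos).ne'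
      measure_closedBall_lt_top.ne
  set V : ℝ := volume.real (ball (0 : E) 1) with hV
  have hV0 : 0 ≤ V := measureReal_nonneg
  set C₃ : ℝ := max C₁ 5 with hC₃
  have hC₃5 : 5 ≤ C₃ := le_max_right _ _
  have hC₃1 : C₁ ≤ C₃ := le_max_left _ _
  set K : ℝ := C₂ * (C₁ * (C₃ ^ 4 * (V + 8))) with hK
  have hK0 : 0 < K := by positivity
  set η : ℝ := min η₂ (U / (12 * K)) with hη
  have hη0 : 0 < η := by positivity
  have hηK : K * η ≤ U / 12 := by
    have : η ≤ U / (12 * K) := min_le_right _ _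
    rw [le_div_iff₀ (by positivity)] at this
    linarith
  obtain ⟨r₁, εf, hr₁, hr₁16, hεf, hflat⟩ := flatG η hη0
  set t₁ : ℝ := 1 / (432 * A * C₂) with ht₁
  have ht₁0 : 0 < t₁ := by positivity
  set ρ₁ : ℝ := min (min (r₁ / C₃) (ρc / C₃)) (t₁ ^ 8 / 4) with hρ₁
  have hρ₁0 : 0 < ρ₁ := by positivity
  have hρ₁r : C₃ * ρ₁ ≤ r₁ := by
    have : ρ₁ ≤ r₁ / C₃ := (min_le_left _ _).trans (min_le_left _ _)
    rw [le_div_iff₀ (by positivity)] at this
    linarith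
  have hρ₁c : C₃ * ρ₁ ≤ ρc := by
    have : ρ₁ ≤ ρc / C₃ := (min_le_left _ _).trans (min_le_right _ _)
    rw [le_div_iff₀ (by positivity)] at this
    linarith
  have hρ₁t : ρ₁ ≤ t₁ ^ 8 / 4 := min_le_right _ _
  set ε₀ : ℝ := min (min εf εc) (min (1 / 16) (1 / (24 * C₂))) with hε₀
  have hε₀0 : 0 < ε₀ := by positivity
  have hε₀f : ε₀ ≤ εf := (min_le_left _ _).trans (min_le_left _ _)
  have hε₀c : ε₀ ≤ εc := (min_le_left _ _).trans (min_le_right _ _)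
  have hε₀16 : ε₀ ≤ 1 / 16 := (min_le_right _ _).trans (min_le_left _ _)
  have hε₀C : ε₀ ≤ 1 / (24 * C₂) := (min_le_right _ _).trans (min_le_right _ _)
  have hρ₁16 : ρ₁ ≤ 1 / 16 := by nlinarith
  refine ⟨ρ₁, ε₀, hρ₁0, by linarith, hε₀0, fun Φ hΦ hq hpl z hz ρ hρ hρle => ?_⟩
  have hpl1 : ∀ z v : W, nsq z = 1 → |pl Φ z v - a0 z v| ≤ ‖v‖ := by
    intro z v hz
    refine (hpl z v hz).trans ?_
    have := norm_nonneg v
    nlinarith
  have hplf : ∀ z v : W, nsq z = 1 → |pl Φ z v - a0 z v| ≤ εf * ‖v‖ := by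
    intro z v hz
    exact (hpl z v hz).trans (mul_le_mul_of_nonneg_right hε₀f (norm_nonneg _))
  obtain ⟨u, v, h⟩ := exists_ON3 hz
  obtain ⟨p, q, h'⟩ := exists_ON3 (z := Φ z) (by rw [hΦ.nrm, hz])
  set r : ℝ := C₃ * ρ with hr
  have hr0 : 0 < r := by positivity
  have hrr₁ : r ≤ r₁ := (mul_le_mul_of_nonneg_left hρle (by positivity)).trans hρ₁r
  have hrc : r ≤ ρc := (mul_le_mul_of_nonneg_left hρle (by positivity)).trans hρ₁c
  have h4r : 4 * ρ ≤ r := by nlinarith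
  obtain ⟨c, hc, hI, hc1, hc2⟩ := hflat Φ hΦ (GoodSAux.qcl_mono hε₀f hq) hplf z u v p q h h' r hr0 hrr₁
  have hc0 : 0 < ‖c‖ := norm_pos_iff.2 hc
  have hctr := hctrl Φ hΦ (GoodSAux.qcl_mono hε₀c hq) hpl1 z u v p q h h'
  have hlam : ∀ x ∈ closedBall (0 : E) r, lamG Φ z u v x ≠ 0 := fun x hx =>
    (hctr x (le_trans (by simpa using hx) hrc)).2.2
  have hcont : ∀ i a, ContinuousOn (fun x => DG Φ z u v p q x i a) (closedBall (0 : E) r) := by
    intro i a x hx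
    have h1 := Gc_smooth (p := p) (q := q) hΦ.loc h (hlam x hx) a
    have h2 : ContinuousAt (fun y => fderiv ℝ (fun y => Gc Φ z u v p q y a) y) x :=
      (h1.fderiv_right (m := 0) (by simp)).continuousAt
    exact (h2.clm_apply continuousAt_const).continuousWithinAt
  have hnc : ∀ x : E, ‖x‖ < r → nc 1 (DG Φ z u v p q x) := by
    intro x hx
    have hx2 : ‖x‖ ≤ ρc := hx.le.trans hrc
    obtain ⟨-, h2, h3⟩ := hctr x hx2
    refine nc_DG hΦ.loc hε₀0.le hq h h' h3 ?_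
    have h4 : A * ‖x‖ ^ (7 / 8 : ℝ) ≤ 1 / 2 := by
      refine le_trans (mul_le_mul_of_nonneg_left ?_ (by linarith)) hAρ
      exact Real.rpow_le_rpow (norm_nonneg _) hx2 (by norm_num)
    have h5 : ∑ a, Gc Φ z u v p q x a ^ 2 ≤ 1 / 4 := by
      have h6 : Real.sqrt (∑ a, Gc Φ z u v p q x a ^ 2) ≤ 1 / 2 := h2.trans h4
      have h7 : 0 ≤ ∑ a, Gc Φ z u v p q x a ^ 2 := Finset.sum_nonneg fun k _ => sq_nonneg _
      have h8 := Real.sq_sqrt h7
      have h9 := Real.sqrt_nonneg (∑ a, Gc Φ z u v p q x a ^ 2)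
      nlinarith
    have h6 : ‖x‖ ^ 2 ≤ 1 / 256 := by
      have := norm_nonneg x
      nlinarith
    calc (1 + ε₀) * (1 + ‖x‖ ^ 2) * (1 + ∑ a, Gc Φ z u v p q x a ^ 2)
        ≤ (1 + 1 / 16) * (1 + 1 / 256) * (1 + 1 / 4) := by
          have h7 : 0 ≤ ∑ a, Gc Φ z u v p q x a ^ 2 := Finset.sum_nonneg fun k _ => sq_nonneg _
          gcongr
      _ ≤ 1 + 1 := by norm_num
  have hl := hnd (DG Φ z u v p q) r c hr0 hcont hnc (fun k => (hI k).trans (by
    have : η ≤ η₂ := min_le_left _ _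
    gcongr))
  obtain ⟨M, hM⟩ := hpt Φ hΦ ε₀ hε₀0.le (by linarith) hpl z u v p q h h' c hc hl
  refine ⟨M, ?_⟩
  set B : E → ℝ := fun y => Real.sqrt (∑ k : Fin 4 × Fin 4, (DG Φ z u v p q y k.1 k.2 - c k) ^ 2) / ‖c‖ with hB
  have hB0 : ∀ y, 0 ≤ B y := fun y => by simp only [hB]; positivity
  have hBm : Measurable (fun y => ENNReal.ofReal (B y)) := by
    apply ENNReal.measurable_ofReal.comp
    apply Measurable.div_const
    apply Real.continuous_sqrt.measurable.comp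
    refine Finset.measurable_sum _ fun k _ => ?_
    apply Measurable.pow_const
    apply Measurable.sub_const
    exact measurable_fderiv_apply_const ℝ (fun y => Gc Φ z u v p q y k.2) (ev k.1)
  -- the parameter `t`
  set t : ℝ := (4 * ρ) ^ (1 / 8 : ℝ) with ht
  have ht0 : 0 < t := Real.rpow_pos_of_pos (by positivity) _
  have ht8 : t ^ 8 = 4 * ρ := by
    rw [ht, ← Real.rpow_natCast, ← Real.rpow_mul (by positivity)]
    norm_num
  have htt : t ≤ t₁ := by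
    by_contra hcon
    rw [not_le] at hcon
    have : t₁ ^ 8 < t ^ 8 := pow_lt_pow_left₀ hcon ht₁0.le (by norm_num)
    linarith
  have htr : t ≤ r ^ (1 / 8 : ℝ) := Real.rpow_le_rpow (by positivity) h4r (by norm_num)
  have h78 : ∀ y : E, ‖y‖ ≤ 4 * ρ → ‖y‖ ^ (7 / 8 : ℝ) ≤ t ^ 7 := by
    intro y hy
    have h1 : ‖y‖ ^ (7 / 8 : ℝ) ≤ (4 * ρ) ^ (7 / 8 : ℝ) :=
      Real.rpow_le_rpow (norm_nonneg _) hy (by norm_num)
    refine h1.trans (le_of_eq ?_)
    rw [ht, ← Real.rpow_natCast, ← Real.rpow_mul (by positivity)]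
    norm_num
  have hpoint : ∀ x ∈ closedBall z ρ, ‖(↑M⁻¹ : W →L[ℝ] W) * fderiv ℝ Φ x - 1‖ ≤
      1 / 12 + C₂ * B (yc z u v x) := by
    intro x hx
    obtain ⟨-, hy⟩ := ball_hp h (by linarith : ρ ≤ 1 / 4) hx
    obtain ⟨h1, h2, -⟩ := hctr (yc z u v x) (hy.trans (h4r.trans hrc))
    have h3 := h78 _ hy
    obtain ⟨e1, e2, e3⟩ := GoodSAux.num_pt (s := Real.sqrt (∑ a, Gc Φ z u v p q (yc z u v x) a ^ 2))
      (l := ‖lamG Φ z u v (yc z u v x) - 1‖) (ρ := ρ) (ε₀ := ε₀) (B := B (yc z u v x)) hA ht0 hC₂ htt hc0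
      ((mul_le_mul_of_nonneg_right htr hc0.le).trans hc1) (htr.trans hc2)
      (h1.trans (mul_le_mul_of_nonneg_left h3 (by linarith))) (Real.sqrt_nonneg _)
      (h2.trans (mul_le_mul_of_nonneg_left h3 (by linarith))) (by linarith) hε₀C
    exact (hM ρ x (by linarith) hx e1 e2).trans e3
  have hint : ∫⁻ x in closedBall z ρ, ENNReal.ofReal (B (yc z u v x)) ≤
      ENNReal.ofReal (C₁ * ρ ^ 2 * (η * (V + 8) * r ^ 4)) := by
    refine (hbW z u v h ρ hρ (by linarith) _ hBm).trans ?_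
    have e : ENNReal.ofReal (C₁ * ρ ^ 2 * (η * (V + 8) * r ^ 4)) =
        ENNReal.ofReal (C₁ * ρ ^ 2) * ENNReal.ofReal (η * (V + 8) * r ^ 4) :=
      ENNReal.ofReal_mul (by positivity)
    rw [e]
    apply mul_le_mul_right
    refine le_trans ?_ (GoodSAux.mean_dev hη0 hr0 hc hcont hI)
    apply lintegral_mono_set
    apply ball_subset_ball
    rw [hr]
    exact mul_le_mul_of_nonneg_right hC₃1 hρ.le
  show ∫⁻ x in closedBall z ρ, ‖(↑M⁻¹ : W →L[ℝ] W) * fderiv ℝ Φ x - 1‖ₑ ≤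
    ENNReal.ofReal (1 / 4) * volume (closedBall z ρ)
  calc ∫⁻ x in closedBall z ρ, ‖(↑M⁻¹ : W →L[ℝ] W) * fderiv ℝ Φ x - 1‖ₑ
      ≤ ∫⁻ x in closedBall z ρ, (ENNReal.ofReal C₂ * ENNReal.ofReal (B (yc z u v x)) +
          ENNReal.ofReal (1 / 12)) := by
        apply setLIntegral_mono' measurableSet_closedBall
        intro x hx
        rw [← ofReal_norm_eq_enorm, ← ENNReal.ofReal_mul (by linarith),
          ← ENNReal.ofReal_add (mul_nonneg (by linarith) (hB0 _)) (by norm_num)]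
        apply ENNReal.ofReal_le_ofReal
        have := hpoint x hx
        linarith
    _ = ENNReal.ofReal C₂ * (∫⁻ x in closedBall z ρ, ENNReal.ofReal (B (yc z u v x))) +
          ENNReal.ofReal (1 / 12) * volume (closedBall z ρ) := by
        rw [lintegral_add_right _ measurable_const, lintegral_const_mul' _ _ ENNReal.ofReal_ne_top,
          setLIntegral_const]
    _ ≤ ENNReal.ofReal C₂ * ENNReal.ofReal (C₁ * ρ ^ 2 * (η * (V + 8) * r ^ 4)) +
          ENNReal.ofReal (1 / 12) * volume (closedBall z ρ) := by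
        gcongr
    _ ≤ ENNReal.ofReal (1 / 4) * volume (closedBall z ρ) := by
        rw [GoodSAux.vol_cball z hρ.le, ← ofReal_measureReal (s := closedBall (0 : W) 1)
          measure_closedBall_lt_top.ne, ← hU, ← ENNReal.ofReal_mul (by positivity),
          ← ENNReal.ofReal_mul (by positivity), ← ENNReal.ofReal_mul (by norm_num),
          ← ENNReal.ofReal_mul (by norm_num), ← ENNReal.ofReal_add (by positivity) (by positivity)]
        apply ENNReal.ofReal_le_ofReal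
        have e : C₂ * (C₁ * ρ ^ 2 * (η * (V + 8) * r ^ 4)) = K * η * ρ ^ 6 := by
          rw [hK, hr]
          ring
        rw [e]
        have h6 : 0 < ρ ^ 6 := by positivity
        nlinarith

end Pool.Agent.Lib.Qcd
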