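import Pool.Agent.Lib.Qcd.TopS
import Pool.Agent.Lib.P28e.Defs

set_option autoImplicit false

/-!
# Mean flatness of the derivative of a lift at large scales

PROOF. `A` from `topS` with a small `ε ≤ 1/2`: `nsq (A v) ≥ nsq v / 2`, so `A` is injective, hence invertible; `M` is `A` as a real endomorphism, `nsq (M⁻¹ w) ≤ 2 nsq w`, so `‖M⁻¹‖ ≤ 3` (`‖w‖² ≤ nsq w ≤ 3 ‖w‖²`). `‖M⁻¹ fderiv ℝ Φ x - 1‖ = ‖M⁻¹ (fderiv ℝ Φ x - A)‖ ≤ 3 ‖fderiv ℝ Φ x - A‖`, and by Cauchy-Schwarz over `closedBall z ρ ⊆ closedBall z (1/6)`: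
`∫ ≤ 3 vol^(1/2) ε^(1/2) ≤ e vol` as soon as `9 ε ≤ e² volume (closedBall z ρ₁)` (`vol = volume (closedBall z ρ) ≥ volume (closedBall 0 ρ₁)`).
-/

open MeasureTheory Set Metric
open scoped ContDiff ENNReal

namespace Pool.Agent.Lib.Qcd

open Pool.Agent.P28b04d Pool.Agent.Lib.Psd

namespace GoodTAux

lemma nsq_le (v : W) : nsq v ≤ 3 * ‖v‖ ^ 2 := by
  have h1 : nsq v ≤ ∑ _k : Fin 3, ‖v‖ ^ 2 := by
    refine Finset.sum_le_sum fun k _ => ?_
    rw [Complex.normSq_eq_norm_sq]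
    have h2 := norm_le_pi_norm v k
    have h3 := norm_nonneg (v k)
    nlinarith
  simpa using h1

lemma le_nsq (v : W) : ‖v‖ ^ 2 ≤ nsq v := by
  have h0 : 0 ≤ nsq v := Finset.sum_nonneg fun _ _ => Complex.normSq_nonneg _
  have h1 : ‖v‖ ≤ Real.sqrt (nsq v) := by
    refine (pi_norm_le_iff_of_nonneg (Real.sqrt_nonneg _)).2 fun k => ?_
    refine Real.le_sqrt_of_sq_le ?_
    rw [← Complex.normSq_eq_norm_sq]
    exact Finset.single_le_sum (f := fun k => Complex.normSq (v k))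
      (fun _ _ => Complex.normSq_nonneg _) (Finset.mem_univ k)
  calc ‖v‖ ^ 2 ≤ Real.sqrt (nsq v) ^ 2 := pow_le_pow_left₀ (norm_nonneg _) h1 2
    _ = nsq v := Real.sq_sqrt h0

lemma exists_unit {A : W →L[ℝ] W} (hA : ∀ v : W, nsq v ≤ 2 * nsq (A v)) :
    ∃ M : (W →L[ℝ] W)ˣ, (↑M : W →L[ℝ] W) = A ∧ ‖(↑M⁻¹ : W →L[ℝ] W)‖ ≤ 3 := by
  have hinj : Function.Injective (A : W →ₗ[ℝ] W) := by
    rw [← LinearMap.ker_eq_bot, LinearMap.ker_eq_bot']
    intro v hv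
    have h1 := hA v
    have hv' : A v = 0 := hv
    have h2 : nsq (0 : W) = 0 := by
      simp [nsq]
    rw [hv', h2, mul_zero] at h1
    have h3 := (le_nsq v).trans h1
    have h4 : ‖v‖ = 0 := by
      have := norm_nonneg v
      nlinarith
    exact norm_eq_zero.1 h4
  let e' : W ≃ₗ[ℝ] W := LinearEquiv.ofInjectiveEndo (A : W →ₗ[ℝ] W) hinj
  let B : W →L[ℝ] W := LinearMap.toContinuousLinearMap (e'.symm : W →ₗ[ℝ] W)
  have hAB : ∀ w, A (B w) = w := fun w => e'.apply_symm_apply w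
  have hBA : ∀ w, B (A w) = w := fun w => e'.symm_apply_apply w
  refine ⟨⟨A, B, ContinuousLinearMap.ext hAB, ContinuousLinearMap.ext hBA⟩, rfl, ?_⟩
  refine ContinuousLinearMap.opNorm_le_bound _ (by norm_num) fun w => ?_
  change ‖B w‖ ≤ 3 * ‖w‖
  have h1 := hA (B w)
  rw [hAB] at h1
  have h2 := le_nsq (B w)
  have h3 := nsq_le w
  have h4 := norm_nonneg w
  nlinarith [norm_nonneg (B w)]

lemma amgm (e : ℝ) (he : 0 < e) (a : ℝ) (ha : 0 ≤ a) :
    ENNReal.ofReal (3 * a) ≤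
      ENNReal.ofReal (e / 2) + ENNReal.ofReal (9 / (2 * e)) * ENNReal.ofReal a ^ 2 := by
  rw [← ENNReal.ofReal_pow ha, ← ENNReal.ofReal_mul (by positivity),
    ← ENNReal.ofReal_add (by positivity) (by positivity)]
  apply ENNReal.ofReal_le_ofReal
  have h1 : e / 2 + 9 / (2 * e) * a ^ 2 - 3 * a = (e - 3 * a) ^ 2 / (2 * e) := by
    field_simp
    ring
  have h2 : 0 ≤ (e - 3 * a) ^ 2 / (2 * e) := by positivity
  linarith

end GoodTAux

theorem goodT (ρ₁ e : ℝ) (hρ : 0 < ρ₁) (he : 0 < e) : ∃ ε₀ : ℝ, 0 < ε₀ ∧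
    ∀ Φ : W → W, NL Φ → QCL ε₀ Φ →
      (∀ z v : W, nsq z = 1 → |pl Φ z v - a0 z v| ≤ ε₀ * ‖v‖) →
      ∀ z : W, nsq z = 1 → ∀ ρ : ℝ, ρ₁ ≤ ρ → ρ ≤ 1 / 8 →
        ∃ M : (P28e.EndW 2)ˣ, P28e.Good (n := 2) Φ z ρ e M := by
  set V₁ : ℝ := (volume (closedBall (0 : W) ρ₁)).toReal with hV₁
  have hfin : volume (closedBall (0 : W) ρ₁) ≠ ⊤ := measure_closedBall_lt_top.ne
  have hV₁0 : 0 < V₁ := ENNReal.toReal_pos (measure_closedBall_pos volume 0 hρ).ne' hfin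
  set ε : ℝ := min (1 / 2) (e ^ 2 * V₁ / 9) with hε
  have hε0 : 0 < ε := lt_min (by norm_num) (by positivity)
  have hε1 : ε ≤ 1 / 2 := min_le_left _ _
  have hε2 : ε ≤ e ^ 2 * V₁ / 9 := min_le_right _ _
  obtain ⟨ε₀, hε₀, htop⟩ := topS ε hε0
  refine ⟨ε₀, hε₀, ?_⟩
  intro Φ hΦ hq hpl z hz ρ hρ1 hρ2
  obtain ⟨A, hA1, -, hA3⟩ := htop Φ hΦ hq hpl
  obtain ⟨M, hM1, hM2⟩ := GoodTAux.exists_unit (A := A.restrictScalars ℝ) (fun v => by
    have h1 := hA1 v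
    have h2 := (abs_le.1 h1).1
    have h3 : 0 ≤ nsq v := Finset.sum_nonneg fun _ _ => Complex.normSq_nonneg _
    have h4 : (A.restrictScalars ℝ) v = A v := rfl
    rw [h4]
    nlinarith)
  refine ⟨M, ?_⟩
  unfold P28e.Good
  have hpt : ∀ x : W, ‖(↑M⁻¹ : W →L[ℝ] W) * fderiv ℝ Φ x - 1‖ₑ ≤
      ENNReal.ofReal (e / 2) +
        ENNReal.ofReal (9 / (2 * e)) * ‖fderiv ℝ Φ x - A.restrictScalars ℝ‖ₑ ^ 2 := by
    intro x
    have e1 : (↑M⁻¹ : W →L[ℝ] W) * fderiv ℝ Φ x - 1 =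
        (↑M⁻¹ : W →L[ℝ] W) * (fderiv ℝ Φ x - A.restrictScalars ℝ) := by
      rw [mul_sub, ← hM1, Units.inv_mul]
    have e2 : ‖(↑M⁻¹ : W →L[ℝ] W) * fderiv ℝ Φ x - 1‖ ≤
        3 * ‖fderiv ℝ Φ x - A.restrictScalars ℝ‖ := by
      rw [e1]
      refine (norm_mul_le _ _).trans ?_
      exact mul_le_mul_of_nonneg_right hM2 (norm_nonneg _)
    rw [← ofReal_norm_eq_enorm, ← ofReal_norm_eq_enorm]
    exact (ENNReal.ofReal_le_ofReal e2).trans (GoodTAux.amgm e he _ (norm_nonneg _))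
  have hsub : closedBall z ρ ⊆ closedBall z (1 / 6) := closedBall_subset_closedBall (by linarith)
  have hvol : ENNReal.ofReal V₁ ≤ volume (closedBall z ρ) := by
    rw [hV₁, ENNReal.ofReal_toReal hfin, ← Measure.addHaar_closedBall_center volume z ρ₁]
    exact measure_mono (closedBall_subset_closedBall hρ1)
  have h1 : ∫⁻ x in closedBall z ρ, ‖(↑M⁻¹ : W →L[ℝ] W) * fderiv ℝ Φ x - 1‖ₑ ≤
      ENNReal.ofReal (e / 2) * volume (closedBall z ρ) +
        ENNReal.ofReal (9 / (2 * e)) * ENNReal.ofReal ε := by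
    refine (lintegral_mono hpt).trans ?_
    rw [lintegral_add_left measurable_const, setLIntegral_const,
      lintegral_const_mul' _ _ ENNReal.ofReal_ne_top]
    gcongr
    exact (lintegral_mono_set hsub).trans (hA3 z hz)
  refine h1.trans ?_
  have h2 : ENNReal.ofReal (9 / (2 * e)) * ENNReal.ofReal ε ≤
      ENNReal.ofReal (e / 2) * volume (closedBall z ρ) := by
    calc ENNReal.ofReal (9 / (2 * e)) * ENNReal.ofReal ε =
        ENNReal.ofReal (9 / (2 * e) * ε) := by rw [← ENNReal.ofReal_mul (by positivity)]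
      _ ≤ ENNReal.ofReal (e / 2 * V₁) := by
          apply ENNReal.ofReal_le_ofReal
          calc 9 / (2 * e) * ε ≤ 9 / (2 * e) * (e ^ 2 * V₁ / 9) :=
                mul_le_mul_of_nonneg_left hε2 (by positivity)
            _ = e / 2 * V₁ := by
                field_simp
      _ = ENNReal.ofReal (e / 2) * ENNReal.ofReal V₁ := by rw [← ENNReal.ofReal_mul (by positivity)]
      _ ≤ ENNReal.ofReal (e / 2) * volume (closedBall z ρ) := by gcongr
  calc ENNReal.ofReal (e / 2) * volume (closedBall z ρ) +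
        ENNReal.ofReal (9 / (2 * e)) * ENNReal.ofReal ε ≤
      ENNReal.ofReal (e / 2) * volume (closedBall z ρ) +
        ENNReal.ofReal (e / 2) * volume (closedBall z ρ) := by gcongr
    _ = ENNReal.ofReal e * volume (closedBall z ρ) := by
        rw [← add_mul, ← ENNReal.ofReal_add (by positivity) (by positivity), add_halves]

end Pool.Agent.Lib.Qcd
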