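import Pool.Agent.Lib.Qcd.TopF
import Pool.Agent.Lib.Qcd.Hol

set_option autoImplicit false

/-!
# Quasiconformal lifts in a good gauge are close to unitary maps

PROOF. For `x ≠ 0` let `x₁ = x / √(nsq x)`: `‖bb Φ x‖ ^ 2 = ‖bb Φ x₁‖ ^ 2 ≤ C (2 ε₀ + tn γ x₁) = C (2 ε₀ + nsq x tn γ x)`, `γ = pl Φ - a0` (`norm_bb_hom`, `bb_le` with `δ = ε₀ ≤ 1`, `tn_hom`), and `nsq x ≤ 3` for `‖x‖ ≤ 1`, so `∫_{closedBall 0 1} ‖bb Φ‖² ≤ C' (ε₀ + ∫_{closedBall 0 1} tn γ) ≤ C'' (ε₀ + κ)` with `κ = √(C ε₀) ≤ 1/4` (`qpin`, `topW`): at most `τ`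
of `topF` (for a small `ε'`) if `ε₀` is small. `topF` gives `A`, with the first and the third claim. Second claim: let `nsq z = 1`; for small `r ≤ 1/16` some `x ∈ closedBall z r` has `‖Φ x - A x‖² ≤ ε' / (V r⁶)`, and `‖Φ z - A z‖ ≤ ‖Φ z - Φ x‖ + ‖Φ x - A x‖ + ‖A (x - z)‖ ≤ A' r ^ (7/8) + √(ε' / (V r⁶)) + C r` (`hol`, whose hypotheses hold if `ε₀` is small and at most `1`
(`QCL` is monotone in `ε`: `nsq ≥ 0`); `‖A v‖² ≤ nsq (A v) ≤ 2 nsq v ≤ 6 ‖v‖²`). Choose `r`, then `ε'`, then `ε₀`.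
-/

open MeasureTheory Set Metric
open scoped ContDiff ENNReal

namespace Pool.Agent.Lib.Qcd

open Pool.Agent.P28b04d Pool.Agent.Lib.Psd

namespace TopSAux

open HolAux

theorem qcl_mono {ε ε' : ℝ} (h : ε ≤ ε') {Φ : W → W} (hq : QCL ε Φ) : QCL ε' Φ := by
  intro z v w hz hv hw hvw
  refine (hq z v w hz hv hw hvw).trans ?_
  have h0 : 0 ≤ nsq (hd Φ z w) := Finset.sum_nonneg fun k _ => Complex.normSq_nonneg _
  nlinarith

/-- pointwise bound of `bb` off the origin -/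
theorem bb_pt {C ε : ℝ} (hC : 1 ≤ C) (hε : 0 ≤ ε) (hε1 : ε ≤ 1) {Φ : W → W} (hΦ : NL Φ)
    (hb : ∀ z : W, nsq z = 1 → ‖bb Φ z‖ ^ 2 ≤ C * (ε + ε ^ 2 + tn (fun y => pl Φ y - a0 y) z))
    {x : W} (hx : x ≠ 0) (hx1 : ‖x‖ ≤ 1) :
    ‖bb Φ x‖ ^ 2 ≤ 2 * C * ε + 3 * C * tn (fun y => pl Φ y - a0 y) x := by
  have hp := nsq_pos' hx
  set r := Real.sqrt (nsq x) with hr
  have hr0 : 0 < r := Real.sqrt_pos.mpr hp
  have hr2 : r ^ 2 = nsq x := Real.sq_sqrt hp.le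
  have hc : ((r⁻¹ : ℝ) : ℂ) ≠ 0 := by
    simpa using hr0.ne'
  set x1 : W := ((r⁻¹ : ℝ) : ℂ) • x with hx1d
  have hn1 : nsq x1 = 1 := by
    rw [hx1d, rsmul, nsq_smul', ← hr2]
    field_simp
  have h1 := hb x1 hn1
  have h2 : ‖bb Φ x1‖ = ‖bb Φ x‖ := norm_bb_hom hΦ.loc hc hx
  have hB : Basic (fun y => pl Φ y - a0 y) := Conn.sub (pl_conn hΦ.loc) a0_conn
  have h3 : tn (fun y => pl Φ y - a0 y) x1 = tn (fun y => pl Φ y - a0 y) x / ‖((r⁻¹ : ℝ) : ℂ)‖ ^ 2 :=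
    tn_hom hB.smooth hB.hom hc hx
  have h4 : ‖((r⁻¹ : ℝ) : ℂ)‖ ^ 2 = (nsq x)⁻¹ := by
    rw [Complex.norm_real, Real.norm_eq_abs, sq_abs, inv_pow, hr2]
  rw [h4, div_inv_eq_mul] at h3
  have h5 : nsq x ≤ 3 := by
    have := nsq_le x
    have h6 := norm_nonneg x
    nlinarith
  have h7 := tn_nn (fun y => pl Φ y - a0 y) x
  rw [h2, h3] at h1
  have h8 : tn (fun y => pl Φ y - a0 y) x * nsq x ≤ 3 * tn (fun y => pl Φ y - a0 y) x := by nlinarith
  have h9 : ε ^ 2 ≤ ε := by nlinarith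
  have h10 : C * (ε + ε ^ 2 + tn (fun y => pl Φ y - a0 y) x * nsq x) ≤
      C * (ε + ε + 3 * tn (fun y => pl Φ y - a0 y) x) := by
    apply mul_le_mul_of_nonneg_left _ (by linarith)
    linarith
  calc ‖bb Φ x‖ ^ 2 ≤ _ := h1
    _ ≤ _ := h10
    _ = _ := by ring

theorem bb_int {C2 C3 ε κ : ℝ} (hC2 : 1 ≤ C2) (hC3 : 1 ≤ C3) (hε : 0 ≤ ε) (hε1 : ε ≤ 1) (hκ : 0 ≤ κ)
    {Φ : W → W} (hΦ : NL Φ)
    (hb : ∀ z : W, nsq z = 1 → ‖bb Φ z‖ ^ 2 ≤ C2 * (ε + ε ^ 2 + tn (fun y => pl Φ y - a0 y) z))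
    (ht : ∫⁻ x in closedBall (0 : W) 1, ENNReal.ofReal (tn (fun y => pl Φ y - a0 y) x) ≤
      ENNReal.ofReal (C3 * κ)) :
    ∫⁻ x in closedBall (0 : W) 1, ‖bb Φ x‖ₑ ^ 2 ≤
      ENNReal.ofReal (2 * C2 * ε * (volume (ball (0 : W) 1)).toReal + 3 * C2 * (C3 * κ)) := by
  set V : ℝ := (volume (ball (0 : W) 1)).toReal with hV
  have hV0 : 0 ≤ V := ENNReal.toReal_nonneg
  have hvol : volume (closedBall (0 : W) 1) = ENNReal.ofReal V := by
    rw [Measure.addHaar_closedBall _ _ zero_le_one, one_pow, ENNReal.ofReal_one, one_mul, hV,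
      ENNReal.ofReal_toReal measure_ball_lt_top.ne]
  have h0 : ∀ᵐ x : W, x ∉ ({0} : Set W) := measure_eq_zero_iff_ae_notMem.mp (measure_singleton _)
  calc ∫⁻ x in closedBall (0 : W) 1, ‖bb Φ x‖ₑ ^ 2
      ≤ ∫⁻ x in closedBall (0 : W) 1, (ENNReal.ofReal (2 * C2 * ε) +
          ENNReal.ofReal (3 * C2) * ENNReal.ofReal (tn (fun y => pl Φ y - a0 y) x)) := by
        refine setLIntegral_mono_ae' measurableSet_closedBall ?_
        filter_upwards [h0] with x hx hxm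
        rw [mem_singleton_iff] at hx
        rw [mem_closedBall_zero_iff] at hxm
        have h1 := bb_pt hC2 hε hε1 hΦ hb hx hxm
        have h2 := tn_nn (fun y => pl Φ y - a0 y) x
        rw [← ofReal_norm, ← ENNReal.ofReal_pow (norm_nonneg _), ← ENNReal.ofReal_mul (by positivity),
          ← ENNReal.ofReal_add (by positivity) (by positivity)]
        exact ENNReal.ofReal_le_ofReal h1
    _ = ENNReal.ofReal (2 * C2 * ε) * volume (closedBall (0 : W) 1) +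
          ENNReal.ofReal (3 * C2) * ∫⁻ x in closedBall (0 : W) 1,
            ENNReal.ofReal (tn (fun y => pl Φ y - a0 y) x) := by
        rw [lintegral_add_left measurable_const, setLIntegral_const,
          lintegral_const_mul' _ _ ENNReal.ofReal_ne_top]
    _ ≤ ENNReal.ofReal (2 * C2 * ε) * ENNReal.ofReal V + ENNReal.ofReal (3 * C2) * ENNReal.ofReal (C3 * κ) := by
        rw [hvol]
        gcongr
    _ = ENNReal.ofReal (2 * C2 * ε * V + 3 * C2 * (C3 * κ)) := by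
        rw [← ENNReal.ofReal_mul (by positivity), ← ENNReal.ofReal_mul (by positivity),
          ← ENNReal.ofReal_add (by positivity) (by positivity)]

/-- a point where the integrand is small -/
theorem exists_small {g f : W → ℝ≥0∞} {z : W} {r b : ℝ} (hr : 0 < r) (hr1 : r ≤ 1 / 6) (hb : 0 < b)
    (h : ∫⁻ x in closedBall z (1 / 6), (g x + f x) ≤
      ENNReal.ofReal (b * (r ^ 6 * (volume (ball (0 : W) 1)).toReal))) :
    ∃ x ∈ closedBall z r, f x ≤ ENNReal.ofReal (2 * b) := by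
  set V : ℝ := (volume (ball (0 : W) 1)).toReal with hV
  have hV0 : 0 < V := ENNReal.toReal_pos (measure_ball_pos _ _ one_pos).ne' measure_ball_lt_top.ne
  by_contra hc
  push Not at hc
  have hvol : volume (closedBall z r) = ENNReal.ofReal (r ^ 6 * V) := by
    rw [Measure.addHaar_closedBall _ _ hr.le, finrank_W, ENNReal.ofReal_mul (by positivity), hV,
      ENNReal.ofReal_toReal measure_ball_lt_top.ne]
  have h1 : ENNReal.ofReal (2 * b) * ENNReal.ofReal (r ^ 6 * V) ≤ ENNReal.ofReal (b * (r ^ 6 * V)) := by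
    calc ENNReal.ofReal (2 * b) * ENNReal.ofReal (r ^ 6 * V)
        = ∫⁻ _x in closedBall z r, ENNReal.ofReal (2 * b) := by
          rw [setLIntegral_const, hvol]
      _ ≤ ∫⁻ x in closedBall z r, (g x + f x) := by
          refine setLIntegral_mono' measurableSet_closedBall fun x hx => ?_
          exact (hc x hx).le.trans (le_add_left le_rfl)
      _ ≤ ∫⁻ x in closedBall z (1 / 6), (g x + f x) :=
          lintegral_mono_set (closedBall_subset_closedBall hr1)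
      _ ≤ _ := h
  rw [← ENNReal.ofReal_mul (by positivity), ENNReal.ofReal_le_ofReal_iff (by positivity)] at h1
  have h2 : 0 < b * (r ^ 6 * V) := by positivity
  linarith

end TopSAux

open HolAux TopSAux in
theorem topS (ε : ℝ) (hε : 0 < ε) : ∃ ε₀ : ℝ, 0 < ε₀ ∧ ∀ Φ : W → W, NL Φ → QCL ε₀ Φ →
    (∀ z v : W, nsq z = 1 → |pl Φ z v - a0 z v| ≤ ε₀ * ‖v‖) →
    ∃ A : W →L[ℂ] W, (∀ v : W, |nsq (A v) - nsq v| ≤ ε * nsq v) ∧
      (∀ z : W, nsq z = 1 → ‖Φ z - A z‖ ≤ ε) ∧ ∀ z : W, nsq z = 1 →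
        ∫⁻ x in closedBall z (1 / 6), ‖fderiv ℝ Φ x - A.restrictScalars ℝ‖ₑ ^ 2 ≤ ENNReal.ofReal ε := by
  obtain ⟨ρ1, ε1, A1, hρ1, hρ1', hε1, hA1, hhol⟩ := hol
  obtain ⟨C1, hC1, hpin⟩ := qpin
  obtain ⟨C2, hC2, hbb⟩ := bb_le
  obtain ⟨C3, hC3, htop⟩ := topW
  set V : ℝ := (volume (ball (0 : W) 1)).toReal with hV
  have hV0 : 0 < V := ENNReal.toReal_pos (measure_ball_pos _ _ one_pos).ne' measure_ball_lt_top.ne
  have hC1p : 0 < C1 := by linarith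
  have hC2p : 0 < C2 := by linarith
  have hC3p : 0 < C3 := by linarith
  have hA1p : 0 < A1 := by linarith
  -- the radius
  obtain ⟨r, hr0, hrρ, hr1, hr2⟩ : ∃ r : ℝ, 0 < r ∧ r ≤ ρ1 ∧ A1 * r ^ (7 / 8 : ℝ) ≤ ε / 3 ∧ 3 * r ≤ ε / 3 := by
    set a : ℝ := min (ε / (3 * A1)) 1 with ha
    have ha0 : 0 < a := by positivity
    refine ⟨min (min ρ1 (ε / 9)) (a ^ (8 / 7 : ℝ)), by positivity, (min_le_left _ _).trans (min_le_left _ _),
      ?_, ?_⟩
    · set r := min (min ρ1 (ε / 9)) (a ^ (8 / 7 : ℝ)) with hr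
      have hr0 : 0 < r := by positivity
      have h1 : r ^ (7 / 8 : ℝ) ≤ (a ^ (8 / 7 : ℝ)) ^ (7 / 8 : ℝ) :=
        Real.rpow_le_rpow hr0.le (min_le_right _ _) (by norm_num)
      rw [← Real.rpow_mul ha0.le] at h1
      norm_num at h1
      have h2 : a ≤ ε / (3 * A1) := min_le_left _ _
      have h3 : A1 * r ^ (7 / 8 : ℝ) ≤ A1 * (ε / (3 * A1)) :=
        mul_le_mul_of_nonneg_left (h1.trans h2) hA1p.le
      have h4 : A1 * (ε / (3 * A1)) = ε / 3 := by field_simp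
      linarith
    · have : min (min ρ1 (ε / 9)) (a ^ (8 / 7 : ℝ)) ≤ ε / 9 := (min_le_left _ _).trans (min_le_right _ _)
      linarith
  -- the parameter of `topF`
  set b : ℝ := min (ε ^ 2 / 18) (min ε 1 / (r ^ 6 * V)) with hb
  have hb0 : 0 < b := by positivity
  set ε' : ℝ := b * (r ^ 6 * V) with hε'
  have hε'0 : 0 < ε' := by positivity
  have hε'1 : ε' ≤ min ε 1 := by
    have h1 : b ≤ min ε 1 / (r ^ 6 * V) := min_le_right _ _
    rwa [le_div_iff₀ (by positivity)] at h1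
  have hε'ε : ε' ≤ ε := hε'1.trans (min_le_left _ _)
  have hε'11 : ε' ≤ 1 := hε'1.trans (min_le_right _ _)
  obtain ⟨τ, hτ, hF⟩ := topF ε' hε'0
  -- the parameter `ε₀`
  set κm : ℝ := min (1 / 4) (τ / (2 * (3 * C2 * C3))) with hκm
  have hκm0 : 0 < κm := by positivity
  set ε₀ : ℝ := min (min (min ε1 (1 / C2)) (min (1 / C1) 1)) (min (τ / (2 * (2 * C2 * V))) (κm ^ 2 / C1)) with hε₀
  have hε₀p : 0 < ε₀ := by positivity
  have hε₀1 : ε₀ ≤ ε1 := ((min_le_left _ _).trans (min_le_left _ _)).trans (min_le_left _ _)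
  have hε₀2 : ε₀ ≤ 1 / C2 := ((min_le_left _ _).trans (min_le_left _ _)).trans (min_le_right _ _)
  have hε₀3 : ε₀ ≤ 1 / C1 := ((min_le_left _ _).trans (min_le_right _ _)).trans (min_le_left _ _)
  have hε₀4 : ε₀ ≤ 1 := ((min_le_left _ _).trans (min_le_right _ _)).trans (min_le_right _ _)
  have hε₀5 : ε₀ ≤ τ / (2 * (2 * C2 * V)) := (min_le_right _ _).trans (min_le_left _ _)
  have hε₀6 : ε₀ ≤ κm ^ 2 / C1 := (min_le_right _ _).trans (min_le_right _ _)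
  refine ⟨ε₀, hε₀p, ?_⟩
  intro Φ hΦ hq hg
  have hκ1 : C1 * ε₀ ≤ κm ^ 2 := by
    rw [le_div_iff₀ hC1p] at hε₀6
    linarith
  have hP : Pinched κm (pl Φ) := hpin ε₀ hε₀p.le hε₀3 Φ hΦ.loc hq κm hκ1
  have ht := htop κm hκm0.le (min_le_left _ _) (pl Φ) (pl_conn hΦ.loc) hP
  have hbz := hbb ε₀ hε₀p.le hε₀2 Φ hΦ hq ε₀ hε₀p.le hg
  have hint := bb_int hC2 hC3 hε₀p.le hε₀4 hκm0.le hΦ hbz ht
  have hτ' : 2 * C2 * ε₀ * V + 3 * C2 * (C3 * κm) ≤ τ := by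
    have h1 : 2 * C2 * ε₀ * V ≤ τ / 2 := by
      rw [le_div_iff₀ (by positivity)] at hε₀5
      linarith
    have h2 : κm ≤ τ / (2 * (3 * C2 * C3)) := min_le_right _ _
    have h3 : 3 * C2 * (C3 * κm) ≤ τ / 2 := by
      rw [le_div_iff₀ (by positivity)] at h2
      linarith
    linarith
  obtain ⟨A, hA, hAint⟩ := hF Φ hΦ (hint.trans (ENNReal.ofReal_le_ofReal hτ'))
  refine ⟨A, ?_, ?_, ?_⟩
  · intro v
    have h0 : 0 ≤ nsq v := Finset.sum_nonneg fun k _ => Complex.normSq_nonneg _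
    exact (hA v).trans (mul_le_mul_of_nonneg_right hε'ε h0)
  · intro z hz
    obtain ⟨x, hx, hfx⟩ := exists_small (g := fun x => ‖fderiv ℝ Φ x - A.restrictScalars ℝ‖ₑ ^ 2)
      (f := fun x => ‖Φ x - A x‖ₑ ^ 2) hr0 (hrρ.trans (hρ1'.trans (by norm_num))) hb0 (hAint z hz)
    rw [mem_closedBall, dist_eq_norm] at hx
    have hb18 : b ≤ ε ^ 2 / 18 := min_le_left _ _
    have h1 : ‖Φ x - A x‖ ≤ ε / 3 := by
      have hfx' : ‖Φ x - A x‖ₑ ^ 2 ≤ ENNReal.ofReal (2 * b) := hfx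
      rw [← ofReal_norm, ← ENNReal.ofReal_pow (norm_nonneg _), ENNReal.ofReal_le_ofReal_iff (by positivity)] at hfx'
      have h2 : ‖Φ x - A x‖ ^ 2 ≤ (ε / 3) ^ 2 := by
        calc _ ≤ 2 * b := hfx'
          _ ≤ _ := by linarith
      exact abs_le_of_sq_le_sq' h2 (by positivity) |>.2
    have h2 : ‖Φ x - Φ z‖ ≤ ε / 3 := by
      have h3 := hhol Φ hΦ (qcl_mono hε₀1 hq) (fun z v hz => (hg z v hz).trans
        (by simpa using mul_le_mul_of_nonneg_right hε₀4 (norm_nonneg v))) z x hz (hx.trans hrρ)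
      refine h3.trans (le_trans ?_ hr1)
      exact mul_le_mul_of_nonneg_left (Real.rpow_le_rpow (norm_nonneg _) hx (by norm_num)) hA1p.le
    have h3 : ‖A (x - z)‖ ≤ ε / 3 := by
      set v := x - z with hv
      have h4 := norm_sq_le (A v)
      have h5 := (abs_le.mp (hA v)).2
      have h6 := nsq_le v
      have h7 : nsq (A v) ≤ 2 * nsq v := by
        have h0 : 0 ≤ nsq v := Finset.sum_nonneg fun k _ => Complex.normSq_nonneg _
        nlinarith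
      have h8 : ‖A v‖ ^ 2 ≤ (3 * ‖v‖) ^ 2 := by nlinarith
      have h9 : ‖A v‖ ≤ 3 * ‖v‖ := abs_le_of_sq_le_sq' h8 (by positivity) |>.2
      calc ‖A v‖ ≤ 3 * ‖v‖ := h9
        _ ≤ 3 * r := by linarith
        _ ≤ ε / 3 := hr2
    have h4 : Φ z - A z = (Φ z - Φ x) + (Φ x - A x) + A (x - z) := by
      rw [map_sub]; abel
    rw [h4]
    calc ‖(Φ z - Φ x) + (Φ x - A x) + A (x - z)‖ ≤ ‖Φ z - Φ x‖ + ‖Φ x - A x‖ + ‖A (x - z)‖ := norm_add₃_le
      _ ≤ ε / 3 + ε / 3 + ε / 3 := by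
          rw [norm_sub_rev (Φ z)]
          gcongr
      _ = ε := by ring
  · intro z hz
    refine le_trans ?_ ((hAint z hz).trans (ENNReal.ofReal_le_ofReal hε'ε))
    exact lintegral_mono fun x => le_add_right le_rfl

end Pool.Agent.Lib.Qcd
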