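import Pool.Agent.Lib.Qcd.CtrlG
import Pool.Agent.Lib.Qcd.GDefB
import Pool.Agent.Lib.Qcd.TopS
import Pool.Agent.Lib.Qcd.Ball
import Pool.Agent.Lib.Qcd.Tn

set_option autoImplicit false

/-!
# The chart of a lift at the first scale

PROOF. Let `A` be as in `topS` with a small `ε'`, and `c (i, a)` the real coordinates of `(hp p (A (fr u v i)), hp q (A (fr u v i)))` (`c (i,0) = Re hp p (A fr_i)`, `c (i,1) = Im hp p (..)`, `c (i,2), c (i,3)` the same with `q`); `|c k| ≤ √(nsq (A fr_i)) ≤ 2`. Lower bound: `Re hp (A a) (A b) = Re hp a b` up to `ε' (nsq a + nsq b)` (polarisation), so `|hp (A z) (A u)| ≤ 4 ε'`, `|hp (Φ z) (A u)| ≤ 4 ε' + 6 ε'`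
(`‖Φ z - A z‖ ≤ ε'`), hence `∑_a c (0, a)² = nsq (A u) - |hp (Φ z) (A u)|² ≥ 1/2` and some `|c (0, a)| ≥ 1/4`.
Let `ρ₀, A₁` be as in `ctrlG`, `‖y‖ < r ≤ ρ ≤ ρ₀`, `λ = lamG y`, `g = √(∑ Gc²)`, `D = ‖fderiv ℝ Φ (sig y) - A‖`. By `Phi_fderiv` with `w = ev i` the coordinates of `fderiv ℝ Φ (sig y) (fr_i)` along `Φ z` and in `span (p, q)` are `Dλ (ev i)` and `Dλ (ev i) G + λ DG_i`, so `DG_i = λ⁻¹ (coordinates of dΦ fr_i in span (p, q) - (hp (Φ z) (dΦ fr_i)) G)` (complex multiplication of `G ∈ ℂ²`), and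
`|DG_{i a} - c (i, a)| ≤ |λ⁻¹ - 1| |dΦ fr_i| + 2 D + 2 |λ⁻¹| |dΦ fr_i| g ≤ C r ^ (7/8) (1 + D) + C D ≤ C (r ^ (7/8) + D)` (`|dΦ fr_i| ≤ 3 + 2 D`, `|λ⁻¹| ≤ 2`). `∫_{ball 0 r} D² dy ≤ C r⁻² ∫_{closedBall z (C r)} ‖fderiv ℝ Φ x - A‖² ≤ C ε' r⁻²` by `ball4` with `k y = ‖fderiv ℝ Φ (sig y) - A‖²` (for `x = κ sig (yc x)`, `κ = hp z x ≠ 0`:
`fderiv ℝ Φ x v = κ fderiv ℝ Φ (sig y) (κ⁻¹ v)` (`fderiv_lift_hom`), `A` commutes with `κ`, so the norms of the differences agree), if `C r ≤ 1/6`. So `∫_{ball 0 r} (DG - c)² ≤ C (r ^ (7/4) r⁴ + ε' r⁻²) ≤ (δ / 4)² r⁴` if first `ρ` and then (for the given `r`) `ε'` and `ε₀` are small (`QCL` is monotone in `ε`). The integrand is continuous on `closedBall 0 r` (`Gc_smooth`).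
-/

open MeasureTheory Set Metric
open scoped ContDiff ENNReal

namespace Pool.Agent.Lib.Qcd

open Pool.Agent.P28b04d Pool.Agent.Lib.Psd

namespace InitGAux

open TnAux

theorem qcl_mono {ε ε' : ℝ} (h : ε ≤ ε') {Φ : W → W} (hq : QCL ε Φ) : QCL ε' Φ := by
  intro z v w hz hv hw hvw
  refine (hq z v w hz hv hw hvw).trans ?_
  exact mul_le_mul_of_nonneg_right (by linarith) (nsqn _)

theorem hp_sub_right (a b c : W) : hp a (b - c) = hp a b - hp a c := by
  simp only [hp, Pi.sub_apply, mul_sub, Finset.sum_sub_distrib]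

theorem hp_sub_left (a b c : W) : hp (a - b) c = hp a c - hp b c := by
  simp only [hp, Pi.sub_apply, star_sub, sub_mul, Finset.sum_sub_distrib]

theorem nsq_add (a b : W) : nsq (a + b) = nsq a + nsq b + 2 * (hp a b).re := by
  simp only [nsq, hp, Pi.add_apply, Complex.re_sum, Finset.mul_sum, ← Finset.sum_add_distrib]
  refine Finset.sum_congr rfl fun k _ => ?_
  rw [Complex.normSq_apply, Complex.normSq_apply, Complex.normSq_apply]
  simp
  ring

theorem nsq_I (a : W) : nsq (Complex.I • a) = nsq a := by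
  simp only [nsq, Pi.smul_apply, smul_eq_mul, Complex.normSq_mul, Complex.normSq_I, one_mul]

theorem nsq_one {a : W} (h : hp a a = 1) : nsq a = 1 := by
  have h2 := nsq_eq_hp a
  rw [h] at h2
  exact_mod_cast h2

theorem nsq_fr {z u v : W} (h : ON3 z u v) (i : Fin 4) : nsq (fr u v i) = 1 := by
  have hu := nsq_one h.uu
  have hv := nsq_one h.vv
  fin_cases i
  · exact hu
  · show nsq (Complex.I • u) = 1
    rw [nsq_I, hu]
  · exact hv
  · show nsq (Complex.I • v) = 1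
    rw [nsq_I, hv]

theorem parseval {z u v : W} (h : ON3 z u v) (y : W) :
    nsq y = Complex.normSq (hp z y) + ∑ i, rc u v y i ^ 2 := by
  have hL : ∀ a b c : W, hp (a + b) c = hp a c + hp b c := by
    intro a b c
    rw [← hp_star, hp_add_right, star_add, hp_star, hp_star]
  have hS : ∀ (a b : W) (c : ℂ), hp (c • a) b = star c * hp a b := fun a b c =>
    CmpFAux.hp_smul_left c a b
  have h1 : (nsq y : ℂ) = star (hp z y) * hp z y + star (hp u y) * hp u y +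
      star (hp v y) * hp v y := by
    rw [nsq_eq_hp]
    conv_lhs => rw [basis_eq h y]
    rw [hL, hL, hS, hS, hS]
    have e1 : hp z (hp z y • z + hp u y • u + hp v y • v) = hp z y := by rw [← basis_eq h y]
    have e2 : hp u (hp z y • z + hp u y • u + hp v y • v) = hp u y := by rw [← basis_eq h y]
    have e3 : hp v (hp z y • z + hp u y • u + hp v y • v) = hp v y := by rw [← basis_eq h y]
    rw [e1, e2, e3]
  have h2 : ∀ c : ℂ, star c * c = ((c.re ^ 2 + c.im ^ 2 : ℝ) : ℂ) := by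
    intro c
    rw [Complex.star_def, ← Complex.normSq_eq_conj_mul_self, Complex.normSq_apply]
    congr 1
    ring
  rw [h2, h2, h2] at h1
  have h3 : nsq y = (hp z y).re ^ 2 + (hp z y).im ^ 2 + ((hp u y).re ^ 2 + (hp u y).im ^ 2) +
      ((hp v y).re ^ 2 + (hp v y).im ^ 2) := by
    exact_mod_cast h1
  rw [h3, Fin.sum_univ_four, Complex.normSq_apply]
  simp only [rc, Matrix.cons_val_zero, Matrix.cons_val_one, Matrix.cons_val]
  ring

theorem hp_re_small {ε : ℝ} {A : W →L[ℂ] W} (hA : ∀ v : W, |nsq (A v) - nsq v| ≤ ε * nsq v) {z u : W}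
    (hz : nsq z = 1) (hu : nsq u = 1) (h : hp z u = 0) : |(hp (A z) (A u)).re| ≤ 2 * ε := by
  have h1 := hA (z + u)
  have h2 := hA z
  have h3 := hA u
  rw [map_add, nsq_add, nsq_add z u, h, hz, hu, Complex.zero_re] at h1
  rw [hz] at h2
  rw [hu] at h3
  rw [abs_le] at h1 h2 h3 ⊢
  constructor
  · linarith [h1.1, h2.2, h3.2]
  · linarith [h1.2, h2.1, h3.1]

theorem hp_small {ε : ℝ} {A : W →L[ℂ] W} (hA : ∀ v : W, |nsq (A v) - nsq v| ≤ ε * nsq v) {z u : W}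
    (hz : nsq z = 1) (hu : nsq u = 1) (h : hp z u = 0) : ‖hp (A z) (A u)‖ ≤ 4 * ε := by
  have h1 := hp_re_small hA hz hu h
  have h2 := hp_re_small hA hz (u := Complex.I • u) (by rw [nsq_I, hu])
    (by rw [Pool.Agent.Lib.Psd.hp_smul_right, h, mul_zero])
  rw [map_smul, Pool.Agent.Lib.Psd.hp_smul_right] at h2
  have e1 : (Complex.I * hp (A z) (A u)).re = -(hp (A z) (A u)).im := by simp
  rw [e1, abs_neg] at h2
  have h3 := Complex.norm_le_abs_re_add_abs_im (hp (A z) (A u))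
  linarith

theorem norm_three_half {a : W} (h : nsq a ≤ 2) : ‖a‖ ≤ 3 / 2 := by
  have h1 := norm_sq_le a
  have h2 := norm_nonneg a
  nlinarith

/-- the lower bound -/
theorem lower {ε : ℝ} (hε0 : 0 ≤ ε) (hε : ε ≤ 1 / 20) {A : W →L[ℂ] W}
    (hA : ∀ v : W, |nsq (A v) - nsq v| ≤ ε * nsq v) {z u v Z p q : W} (h : ON3 z u v)
    (h' : ON3 Z p q) (hz : ‖Z - A z‖ ≤ ε) : 1 / 2 ≤ ∑ a, rc p q (A u) a ^ 2 := by
  have hz1 := nsq_one h.zz
  have hu1 := nsq_one h.uu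
  have h1 := hp_small hA hz1 hu1 h.zu
  have h2 := hA u
  rw [hu1, abs_le] at h2
  have hAu : ‖A u‖ ≤ 3 / 2 := norm_three_half (by linarith [h2.2])
  have h3 : ‖hp (Z - A z) (A u)‖ ≤ 5 * ε := by
    refine (hp_le _ _).trans ?_
    have h4 := norm_nonneg (A u)
    have h5 := norm_nonneg (Z - A z)
    nlinarith
  have h6 : ‖hp Z (A u)‖ ≤ 9 * ε := by
    have e1 : hp Z (A u) = hp (Z - A z) (A u) + hp (A z) (A u) := by
      rw [hp_sub_left]
      ring
    rw [e1]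
    refine (norm_add_le _ _).trans ?_
    linarith
  have h7 := parseval h' (A u)
  rw [Complex.normSq_eq_norm_sq] at h7
  have h8 := norm_nonneg (hp Z (A u))
  have h9 : ‖hp Z (A u)‖ ^ 2 ≤ (9 / 20) ^ 2 := pow_le_pow_left₀ h8 (by linarith) 2
  linarith [h2.1]

theorem calg {lam Dl g d e P : ℂ} {η D : ℝ} (hP : P = Dl * g + lam * d) (h1 : ‖lam - 1‖ ≤ η)
    (hη : η ≤ 1 / 2) (h2 : ‖P - e‖ ≤ 3 * D) (h3 : ‖e‖ ≤ 5) (h4 : ‖Dl‖ ≤ 3 * D + 5)
    (h5 : ‖g‖ ≤ η) (hD : 0 ≤ D) : ‖d - e‖ ≤ 9 * D + 20 * η := by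
  have hη0 : 0 ≤ η := (norm_nonneg _).trans h1
  have e1 : lam * (d - e) = (P - e) - Dl * g - (lam - 1) * e := by
    rw [hP]
    ring
  have h6 : 1 / 2 ≤ ‖lam‖ := by
    have h7 : ‖(1 : ℂ)‖ ≤ ‖lam‖ + ‖lam - 1‖ := by
      have h8 := norm_sub_le lam (lam - 1)
      rwa [sub_sub_cancel] at h8
    rw [norm_one] at h7
    linarith
  have h8 : ‖lam‖ * ‖d - e‖ ≤ 3 * D + (3 * D + 5) * η + η * 5 := by
    rw [← norm_mul, e1]
    refine (norm_sub_le _ _).trans ?_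
    refine add_le_add ((norm_sub_le _ _).trans (add_le_add h2 ?_)) ?_
    · rw [norm_mul]
      exact mul_le_mul h4 h5 (norm_nonneg _) (by positivity)
    · rw [norm_mul]
      exact mul_le_mul h1 h3 (norm_nonneg _) hη0
  have h9 : 1 / 2 * ‖d - e‖ ≤ ‖lam‖ * ‖d - e‖ := mul_le_mul_of_nonneg_right h6 (norm_nonneg _)
  have h10 : D * η ≤ D * (1 / 2) := mul_le_mul_of_nonneg_left hη hD
  nlinarith

theorem hp_S1 {Z p q : W} (h : ON3 Z p q) (r : Fin 4 → ℝ) :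
    hp p (∑ a, r a • fr p q a) = r 0 + r 1 * Complex.I := by
  rw [hp_sum, Fin.sum_univ_four]
  have e0 : hp p (fr p q 0) = 1 := h.uu
  have e1 : hp p (fr p q 1) = Complex.I := by
    show hp p (Complex.I • p) = _
    rw [Pool.Agent.Lib.Psd.hp_smul_right, h.uu, mul_one]
  have e2 : hp p (fr p q 2) = 0 := h.uv
  have e3 : hp p (fr p q 3) = 0 := by
    show hp p (Complex.I • q) = _
    rw [Pool.Agent.Lib.Psd.hp_smul_right, h.uv, mul_zero]
  rw [e0, e1, e2, e3]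
  ring

theorem hp_S2 {Z p q : W} (h : ON3 Z p q) (r : Fin 4 → ℝ) :
    hp q (∑ a, r a • fr p q a) = r 2 + r 3 * Complex.I := by
  rw [hp_sum, Fin.sum_univ_four]
  have hqp : hp q p = 0 := by rw [← hp_star, h.uv, star_zero]
  have e0 : hp q (fr p q 0) = 0 := hqp
  have e1 : hp q (fr p q 1) = 0 := by
    show hp q (Complex.I • p) = _
    rw [Pool.Agent.Lib.Psd.hp_smul_right, hqp, mul_zero]
  have e2 : hp q (fr p q 2) = 1 := h.vv
  have e3 : hp q (fr p q 3) = Complex.I := by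
    show hp q (Complex.I • q) = _
    rw [Pool.Agent.Lib.Psd.hp_smul_right, h.vv, mul_one]
  rw [e0, e1, e2, e3]
  ring

theorem pair_le (r : Fin 4 → ℝ) {η : ℝ} (h : Real.sqrt (∑ a, r a ^ 2) ≤ η) :
    ‖(r 0 : ℂ) + r 1 * Complex.I‖ ≤ η ∧ ‖(r 2 : ℂ) + r 3 * Complex.I‖ ≤ η := by
  rw [Fin.sum_univ_four] at h
  constructor
  · rw [Complex.norm_add_mul_I]
    refine (Real.sqrt_le_sqrt ?_).trans h
    nlinarith [sq_nonneg (r 2), sq_nonneg (r 3)]
  · rw [Complex.norm_add_mul_I]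
    refine (Real.sqrt_le_sqrt ?_).trans h
    nlinarith [sq_nonneg (r 0), sq_nonneg (r 1)]

theorem point {Φ : W → W} (hΦ : HLoc (n := 2) Φ) {z u v p q : W} (h : ON3 z u v)
    (h' : ON3 (Φ z) p q) {x : E} (hx : lamG Φ z u v x ≠ 0) {η : ℝ} (hη : η ≤ 1 / 2)
    (h1 : ‖lamG Φ z u v x - 1‖ ≤ η) (h2 : Real.sqrt (∑ a, Gc Φ z u v p q x a ^ 2) ≤ η)
    {A : W →L[ℂ] W} (hA : ∀ v : W, nsq (A v) ≤ 2 * nsq v) (i a : Fin 4) :
    |DG Φ z u v p q x i a - rc p q (A (fr u v i)) a| ≤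
      9 * ‖fderiv ℝ Φ (sig z u v x) - A.restrictScalars ℝ‖ + 20 * η := by
  set B := fderiv ℝ Φ (sig z u v x) with hB
  set D := ‖B - A.restrictScalars ℝ‖ with hD
  set y := fr u v i with hy
  have hD0 : 0 ≤ D := norm_nonneg _
  have hy1 : ‖y‖ ≤ 1 := norm_fr h i
  have hyn : nsq y = 1 := nsq_fr h i
  have hAy : ‖A y‖ ≤ 3 / 2 := norm_three_half (by have := hA y; rw [hyn] at this; linarith)
  have hBA : ‖B y - A y‖ ≤ D := by
    have h3 := (B - A.restrictScalars ℝ).le_opNorm y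
    have h4 : (B - A.restrictScalars ℝ) y = B y - A y := rfl
    rw [h4] at h3
    refine h3.trans ?_
    have h5 := mul_le_mul_of_nonneg_left hy1 hD0
    linarith
  have hBy : ‖B y‖ ≤ D + 3 / 2 := by
    have e1 : B y = (B y - A y) + A y := by abel
    rw [e1]
    exact (norm_add_le _ _).trans (add_le_add hBA hAy)
  have hΦ1 := nsq_one h'.zz
  have hp1 := nsq_one h'.uu
  have hq1 := nsq_one h'.vv
  have hpΦ : hp p (Φ z) = 0 := by rw [← hp_star, h'.zu, star_zero]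
  have hqΦ : hp q (Φ z) = 0 := by rw [← hp_star, h'.zv, star_zero]
  have key := Phi_fderiv hΦ h h' hx (ev i)
  rw [Lf_ev] at key
  have e2 : ∀ a : Fin 4, (∑ j, (ev i) j * DG Φ z u v p q x j a) = DG Φ z u v p q x i a := by
    intro a
    rw [Finset.sum_eq_single i]
    · simp [ev]
    · intro j _ hj
      simp [ev, hj]
    · intro hn
      exact absurd (Finset.mem_univ i) hn
  simp only [e2] at key
  rw [← hB, ← hy] at key
  set Dl := fderiv ℝ (lamG Φ z u v) x (ev i) with hDl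
  have k0 : hp (Φ z) (B y) = Dl := by
    rw [key, hp_add_right, Pool.Agent.Lib.Psd.hp_smul_right, Pool.Agent.Lib.Psd.hp_smul_right,
      hp_add_right, h'.zz, sum_perp h', sum_perp h']
    ring
  have k1 : hp p (B y) = Dl * (Gc Φ z u v p q x 0 + Gc Φ z u v p q x 1 * Complex.I) +
      lamG Φ z u v x * (DG Φ z u v p q x i 0 + DG Φ z u v p q x i 1 * Complex.I) := by
    rw [key, hp_add_right, Pool.Agent.Lib.Psd.hp_smul_right, Pool.Agent.Lib.Psd.hp_smul_right,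
      hp_add_right, hpΦ, hp_S1 h', hp_S1 h', zero_add]
  have k2 : hp q (B y) = Dl * (Gc Φ z u v p q x 2 + Gc Φ z u v p q x 3 * Complex.I) +
      lamG Φ z u v x * (DG Φ z u v p q x i 2 + DG Φ z u v p q x i 3 * Complex.I) := by
    rw [key, hp_add_right, Pool.Agent.Lib.Psd.hp_smul_right, Pool.Agent.Lib.Psd.hp_smul_right,
      hp_add_right, hqΦ, hp_S2 h', hp_S2 h', zero_add]
  have hDl' : ‖Dl‖ ≤ 3 * D + 5 := by
    rw [← k0]
    refine (hp_abs hΦ1 _).trans ?_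
    linarith
  obtain ⟨g1, g2⟩ := pair_le _ h2
  have f1 : ‖hp p (B y) - hp p (A y)‖ ≤ 3 * D := by
    rw [← hp_sub_right]
    refine (hp_abs hp1 _).trans ?_
    linarith
  have f2 : ‖hp q (B y) - hp q (A y)‖ ≤ 3 * D := by
    rw [← hp_sub_right]
    refine (hp_abs hq1 _).trans ?_
    linarith
  have f3 : ‖hp p (A y)‖ ≤ 5 := (hp_abs hp1 _).trans (by linarith)
  have f4 : ‖hp q (A y)‖ ≤ 5 := (hp_abs hq1 _).trans (by linarith)
  have m1 := calg k1 h1 hη f1 f3 hDl' g1 hD0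
  have m2 := calg k2 h1 hη f2 f4 hDl' g2 hD0
  fin_cases a
  · refine le_trans (le_of_eq ?_) ((Complex.abs_re_le_norm _).trans m1)
    simp [rc]
  · refine le_trans (le_of_eq ?_) ((Complex.abs_im_le_norm _).trans m1)
    simp [rc]
  · refine le_trans (le_of_eq ?_) ((Complex.abs_re_le_norm _).trans m2)
    simp [rc]
  · refine le_trans (le_of_eq ?_) ((Complex.abs_im_le_norm _).trans m2)
    simp [rc]

theorem int_le {f : E → ℝ} {s : Set E} {B : ℝ} (hB : 0 ≤ B) (hf : ∀ x, 0 ≤ f x)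
    (h : ∫⁻ x in s, ENNReal.ofReal (f x) ≤ ENNReal.ofReal B) : ∫ x in s, f x ≤ B := by
  by_cases hi : IntegrableOn f s
  · have h1 := ofReal_integral_eq_lintegral_ofReal hi (Filter.Eventually.of_forall hf)
    rw [← h1] at h
    exact (ENNReal.ofReal_le_ofReal_iff hB).1 h
  · have h1 : ∫ x in s, f x = 0 := integral_undef hi
    rw [h1]
    exact hB

theorem ker_eq {Φ : W → W} (hΦ : HLoc (n := 2) Φ) {z u v : W} (h : ON3 z u v) (A : W →L[ℂ] W)
    {x : W} (hx : hp z x ≠ 0) :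
    ‖fderiv ℝ Φ (sig z u v (yc z u v x)) - A.restrictScalars ℝ‖ =
      ‖fderiv ℝ Φ x - A.restrictScalars ℝ‖ := by
  symm
  have e := sig_yc h hx
  refine norm_hom hx fun w => ?_
  have e1 : fderiv ℝ Φ x (hp z x • w) =
      hp z x • fderiv ℝ Φ (sig z u v (yc z u v x)) w := by
    have h1 := fderiv_lift_hom hΦ hx (sig_ne h (yc z u v x)) w
    rw [e] at h1
    exact h1
  show fderiv ℝ Φ x (hp z x • w) - A (hp z x • w) =
    hp z x • (fderiv ℝ Φ (sig z u v (yc z u v x)) w - A w)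
  rw [e1, map_smul, smul_sub]

/-- the integral of the square of the deviation -/
theorem dev {C : ℝ} (hC : 1 ≤ C) (hb : ∀ z u v : W, ON3 z u v → ∀ ρ : ℝ, 0 < ρ → ρ ≤ 1 / C →
    ∀ k : E → ℝ≥0∞, Measurable k →
      ENNReal.ofReal (ρ ^ 2) * ∫⁻ y in ball (0 : E) ρ, k y ≤
        ENNReal.ofReal C * ∫⁻ x in closedBall z (C * ρ), k (yc z u v x)) {r : ℝ} (hr : 0 < r)
    (hrC : r ≤ 1 / (6 * C)) {Φ : W → W} (hΦ : HLoc (n := 2) Φ) {z u v : W} (h : ON3 z u v)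
    {A : W →L[ℂ] W} {ε : ℝ} (hε : 0 ≤ ε)
    (hA : ∫⁻ x in closedBall z (1 / 6), ‖fderiv ℝ Φ x - A.restrictScalars ℝ‖ₑ ^ 2 ≤
      ENNReal.ofReal ε) :
    ∫⁻ y in ball (0 : E) r, ‖fderiv ℝ Φ (sig z u v y) - A.restrictScalars ℝ‖ₑ ^ 2 ≤
      ENNReal.ofReal (C * ε / r ^ 2) := by
  have hC0 : 0 < C := by linarith
  have hr6 : C * r ≤ 1 / 6 := by
    rw [le_div_iff₀ (by positivity)] at hrC
    linarith
  have hr1 : r ≤ 1 / C := by
    rw [le_div_iff₀ hC0]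
    linarith
  have hsig : Continuous (sig z u v) := continuous_const.add (Lf u v).continuous
  have hm : Measurable fun y : E =>
      ‖fderiv ℝ Φ (sig z u v y) - A.restrictScalars ℝ‖ₑ ^ 2 := by
    have h1 : Measurable fun y : E => fderiv ℝ Φ (sig z u v y) :=
      (measurable_fderiv ℝ Φ).comp hsig.measurable
    exact (h1.sub_const _).enorm.pow_const 2
  have h1 := hb z u v h r hr hr1 _ hm
  have h2 : ∫⁻ x in closedBall z (C * r),
      ‖fderiv ℝ Φ (sig z u v (yc z u v x)) - A.restrictScalars ℝ‖ₑ ^ 2 ≤ ENNReal.ofReal ε := by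
    refine le_trans ?_ hA
    refine le_trans (le_of_eq ?_) (lintegral_mono_set (closedBall_subset_closedBall hr6))
    refine setLIntegral_congr_fun measurableSet_closedBall fun x hx => ?_
    have hx' : x ∈ closedBall z (1 / 6) := closedBall_subset_closedBall hr6 hx
    have h3 := (ball_hp h (by norm_num : (1 / 6 : ℝ) ≤ 1 / 4) hx').1
    have h4 : hp z x ≠ 0 := by
      intro h0
      rw [h0, zero_sub, norm_neg, norm_one] at h3
      norm_num at h3
    have h5 := ker_eq hΦ h A h4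
    show ‖fderiv ℝ Φ (sig z u v (yc z u v x)) - A.restrictScalars ℝ‖ₑ ^ 2 =
      ‖fderiv ℝ Φ x - A.restrictScalars ℝ‖ₑ ^ 2
    rw [← ofReal_norm, ← ofReal_norm, h5]
  have h3 := h1.trans (mul_le_mul_right h2 (ENNReal.ofReal C))
  rw [← ENNReal.ofReal_mul hC0.le] at h3
  rw [ENNReal.ofReal_div_of_pos (by positivity), ENNReal.le_div_iff_mul_le, mul_comm]
  · exact h3
  · left
    simp [hr.ne']
  · left
    exact ENNReal.ofReal_ne_top

end InitGAux

open InitGAux TnAux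

theorem initG (δ : ℝ) (hδ : 0 < δ) : ∃ ρ : ℝ, 0 < ρ ∧ ∀ r : ℝ, 0 < r → r ≤ ρ → ∃ ε₀ : ℝ, 0 < ε₀ ∧
    ∀ Φ : W → W, NL Φ → QCL ε₀ Φ → (∀ z v : W, nsq z = 1 → |pl Φ z v - a0 z v| ≤ ε₀ * ‖v‖) →
      ∀ z u v p q : W, ON3 z u v → ON3 (Φ z) p q → ∃ c : Fin 4 × Fin 4 → ℝ, 1 / 4 ≤ ‖c‖ ∧ ‖c‖ ≤ 4 ∧
        ∀ k : Fin 4 × Fin 4, ∫ x in ball (0 : E) r, (DG Φ z u v p q x k.1 k.2 - c k) ^ 2 ≤
          (δ * ‖c‖) ^ 2 * r ^ 4 := by
  obtain ⟨ρ₀, e₁, A₁, hρ₀, -, he₁, hA₁, hAρ, hctrl⟩ := ctrlG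
  obtain ⟨C, hC, hb⟩ := ball4
  have hC0 : 0 < C := by linarith
  have hA0 : 0 < A₁ := by linarith
  set V : ℝ := (volume (ball (0 : E) 1)).toReal with hV
  have hV0 : 0 ≤ V := ENNReal.toReal_nonneg
  set s : ℝ := δ ^ 2 / (25600 * (V + 1)) with hs
  have hs0 : 0 < s := by positivity
  set t : ℝ := Real.sqrt s / A₁ with ht
  have ht0 : 0 < t := by positivity
  refine ⟨min ρ₀ (min (1 / (6 * C)) (t ^ (8 / 7 : ℝ))), by positivity, fun r hr hrρ => ?_⟩
  have hr0 : r ≤ ρ₀ := hrρ.trans (min_le_left _ _)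
  have hrC : r ≤ 1 / (6 * C) := hrρ.trans ((min_le_right _ _).trans (min_le_left _ _))
  have hrt : r ≤ t ^ (8 / 7 : ℝ) := hrρ.trans ((min_le_right _ _).trans (min_le_right _ _))
  set η : ℝ := A₁ * r ^ (7 / 8 : ℝ) with hη
  have hη0 : 0 ≤ η := by positivity
  have hη1 : η ≤ 1 / 2 := by
    refine le_trans ?_ hAρ
    exact mul_le_mul_of_nonneg_left (Real.rpow_le_rpow hr.le hr0 (by norm_num)) hA0.le
  have hη2 : η ^ 2 ≤ s := by
    have h1 : r ^ (7 / 8 : ℝ) ≤ t := by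
      refine (Real.rpow_le_rpow hr.le hrt (by norm_num)).trans (le_of_eq ?_)
      rw [← Real.rpow_mul ht0.le]
      norm_num
    have h2 : η ≤ Real.sqrt s := by
      rw [hη]
      refine (mul_le_mul_of_nonneg_left h1 hA0.le).trans (le_of_eq ?_)
      rw [ht]
      field_simp
    calc η ^ 2 ≤ Real.sqrt s ^ 2 := pow_le_pow_left₀ hη0 h2 2
      _ = s := Real.sq_sqrt hs0.le
  set e : ℝ := min (1 / 20) (δ ^ 2 * r ^ 6 / (5184 * C)) with he
  have he0 : 0 < e := by positivity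
  have he20 : e ≤ 1 / 20 := min_le_left _ _
  have he6 : e ≤ δ ^ 2 * r ^ 6 / (5184 * C) := min_le_right _ _
  obtain ⟨e₂, he₂, htop⟩ := topS e he0
  refine ⟨min e₁ (min e₂ 1), by positivity, fun Φ hΦ hq hpl z u v p q h h' => ?_⟩
  have hq1 := qcl_mono (min_le_left _ _) hq
  have hq2 := qcl_mono ((min_le_right _ _).trans (min_le_left _ _)) hq
  have hpl1 : ∀ z v : W, nsq z = 1 → |pl Φ z v - a0 z v| ≤ ‖v‖ := by
    intro z v hz
    refine (hpl z v hz).trans ?_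
    have h1 := mul_le_mul_of_nonneg_right
      (((min_le_right _ _).trans (min_le_right _ _)) : min e₁ (min e₂ 1) ≤ 1) (norm_nonneg v)
    linarith
  have hpl2 : ∀ z v : W, nsq z = 1 → |pl Φ z v - a0 z v| ≤ e₂ * ‖v‖ := by
    intro z v hz
    refine (hpl z v hz).trans ?_
    exact mul_le_mul_of_nonneg_right
      (((min_le_right _ _).trans (min_le_left _ _)) : min e₁ (min e₂ 1) ≤ e₂) (norm_nonneg v)
  obtain ⟨A, hA1, hA2, hA3⟩ := htop Φ hΦ hq2 hpl2
  have hz1 := nsq_one h.zz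
  have hA2' : ∀ w : W, nsq (A w) ≤ 2 * nsq w := by
    intro w
    have h1 := (abs_le.1 (hA1 w)).2
    have h2 := nsqn w
    nlinarith
  set c : Fin 4 × Fin 4 → ℝ := fun k => rc p q (A (fr u v k.1)) k.2 with hc
  have hlow := lower he0.le he20 hA1 h h' (hA2 z hz1)
  have hc1 : 1 / 4 ≤ ‖c‖ := by
    by_contra hcon
    rw [not_le] at hcon
    have h1 : ∀ a : Fin 4, rc p q (A u) a ^ 2 ≤ 1 / 16 := by
      intro a
      have h2 : ‖c (0, a)‖ ≤ ‖c‖ := norm_le_pi_norm c (0, a)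
      have h3 : c (0, a) = rc p q (A u) a := rfl
      rw [h3, Real.norm_eq_abs] at h2
      have h4 : |rc p q (A u) a| ^ 2 ≤ (1 / 4) ^ 2 :=
        pow_le_pow_left₀ (abs_nonneg _) (by linarith) 2
      rw [sq_abs] at h4
      linarith
    have h2 := Finset.sum_le_sum (s := Finset.univ) fun a _ => h1 a
    rw [Finset.sum_const, Finset.card_univ, Fintype.card_fin] at h2
    norm_num at h2
    linarith
  have hc4 : ‖c‖ ≤ 4 := by
    rw [pi_norm_le_iff_of_nonneg (by norm_num)]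
    rintro ⟨i, a⟩
    have h1 : rc p q (A (fr u v i)) a ^ 2 ≤ ∑ b, rc p q (A (fr u v i)) b ^ 2 :=
      Finset.single_le_sum (f := fun b => rc p q (A (fr u v i)) b ^ 2)
        (fun _ _ => sq_nonneg _) (Finset.mem_univ a)
    have h2 := h1.trans ((rc_sq_le h' _).trans (hA2' _))
    rw [nsq_fr h] at h2
    show ‖rc p q (A (fr u v i)) a‖ ≤ 4
    rw [Real.norm_eq_abs]
    refine abs_le_of_sq_le_sq ?_ (by norm_num)
    linarith
  refine ⟨c, hc1, hc4, fun k => ?_⟩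
  have hB0 : 0 ≤ (δ * ‖c‖) ^ 2 * r ^ 4 := by positivity
  refine int_le hB0 (fun x => sq_nonneg _) ?_
  have hdev := dev hC hb hr hrC hΦ.loc h he0.le (hA3 z hz1)
  have hpt : ∀ x ∈ ball (0 : E) r,
      ENNReal.ofReal ((DG Φ z u v p q x k.1 k.2 - c k) ^ 2) ≤
        ENNReal.ofReal 162 * ‖fderiv ℝ Φ (sig z u v x) - A.restrictScalars ℝ‖ₑ ^ 2 +
          ENNReal.ofReal (800 * η ^ 2) := by
    intro x hx
    rw [mem_ball_zero_iff] at hx
    obtain ⟨c1, c2, c3⟩ := hctrl Φ hΦ hq1 hpl1 z u v p q h h' x (hx.le.trans hr0)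
    have h1 : A₁ * ‖x‖ ^ (7 / 8 : ℝ) ≤ η :=
      mul_le_mul_of_nonneg_left (Real.rpow_le_rpow (norm_nonneg _) hx.le (by norm_num)) hA0.le
    have h2 := point hΦ.loc h h' c3 hη1 (c1.trans h1) (c2.trans h1) hA2' k.1 k.2
    set D := ‖fderiv ℝ Φ (sig z u v x) - A.restrictScalars ℝ‖ with hD
    have h3 : (DG Φ z u v p q x k.1 k.2 - c k) ^ 2 ≤ 162 * D ^ 2 + 800 * η ^ 2 := by
      have h4 : |DG Φ z u v p q x k.1 k.2 - c k| ^ 2 ≤ (9 * D + 20 * η) ^ 2 :=
        pow_le_pow_left₀ (abs_nonneg _) h2 2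
      rw [sq_abs] at h4
      nlinarith [sq_nonneg (9 * D - 20 * η)]
    rw [← ofReal_norm, ← hD, ← ENNReal.ofReal_pow (norm_nonneg _),
      ← ENNReal.ofReal_mul (by norm_num), ← ENNReal.ofReal_add (by positivity) (by positivity)]
    exact ENNReal.ofReal_le_ofReal h3
  refine (setLIntegral_mono' measurableSet_ball hpt).trans ?_
  have hsig : Continuous (sig z u v) := continuous_const.add (Lf u v).continuous
  have hm : Measurable fun y : E =>
      ‖fderiv ℝ Φ (sig z u v y) - A.restrictScalars ℝ‖ₑ ^ 2 := by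
    have h1 : Measurable fun y : E => fderiv ℝ Φ (sig z u v y) :=
      (measurable_fderiv ℝ Φ).comp hsig.measurable
    exact (h1.sub_const _).enorm.pow_const 2
  rw [lintegral_add_right _ measurable_const, lintegral_const_mul _ hm, lintegral_const,
    Measure.restrict_apply MeasurableSet.univ, univ_inter, Measure.addHaar_ball volume _ hr.le]
  have hfin : volume (ball (0 : E) 1) = ENNReal.ofReal V := by
    rw [hV, ENNReal.ofReal_toReal]
    exact measure_ball_lt_top.ne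
  have hrank : Module.finrank ℝ E = 4 := by simp
  rw [hfin, hrank, ← ENNReal.ofReal_mul (by positivity), ← ENNReal.ofReal_mul (by positivity)]
  refine (add_le_add (mul_le_mul_right hdev (ENNReal.ofReal 162)) le_rfl).trans ?_
  rw [← ENNReal.ofReal_mul (by norm_num), ← ENNReal.ofReal_add (by positivity) (by positivity)]
  refine ENNReal.ofReal_le_ofReal ?_
  have hc16 : 1 / 16 ≤ ‖c‖ ^ 2 := by nlinarith
  have i1 : 162 * (C * e / r ^ 2) ≤ δ ^ 2 / 32 * r ^ 4 := by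
    have h1 : C * e ≤ C * (δ ^ 2 * r ^ 6 / (5184 * C)) := mul_le_mul_of_nonneg_left he6 hC0.le
    have h2 : C * (δ ^ 2 * r ^ 6 / (5184 * C)) = δ ^ 2 * r ^ 6 / 5184 := by
      field_simp
    rw [h2] at h1
    have h3 : C * e / r ^ 2 ≤ δ ^ 2 * r ^ 6 / 5184 / r ^ 2 :=
      div_le_div_of_nonneg_right h1 (by positivity)
    have h4 : 162 * (δ ^ 2 * r ^ 6 / 5184 / r ^ 2) = δ ^ 2 / 32 * r ^ 4 := by
      field_simp
      ring
    linarith
  have i2 : 800 * η ^ 2 * (r ^ 4 * V) ≤ δ ^ 2 / 32 * r ^ 4 := by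
    have h1 : 800 * η ^ 2 * V ≤ δ ^ 2 / 32 := by
      have h2 : η ^ 2 * V ≤ s * (V + 1) := by
        refine mul_le_mul hη2 (by linarith) hV0 hs0.le
      have h3 : s * (V + 1) = δ ^ 2 / 25600 := by
        rw [hs]
        field_simp
      rw [h3] at h2
      linarith
    have h4 := mul_le_mul_of_nonneg_right h1 (by positivity : (0 : ℝ) ≤ r ^ 4)
    linarith
  have i3 : δ ^ 2 / 16 * r ^ 4 ≤ (δ * ‖c‖) ^ 2 * r ^ 4 := by
    refine mul_le_mul_of_nonneg_right ?_ (by positivity)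
    have h1 := mul_le_mul_of_nonneg_left hc16 (by positivity : (0 : ℝ) ≤ δ ^ 2)
    nlinarith
  linarith

end Pool.Agent.Lib.Qcd
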