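import Pool.Agent.Lib.Qcd.Lift

set_option autoImplicit false

/-!
# Kernels on `W`, and lifts are Lipschitz

PROOFS. `exists_KW`: `G x = k S (1 - nsq x)`, `S = Real.smoothTransition`, `φ x = 2 k S' (1 - nsq x)` (`S' = deriv S ≥ 0`, `S` is monotone), `k > 0` such that `∫ φ = 1`: `d(nsq)_x v = 2 Re hp x v`. `nsq x ≥ ‖x‖ ^ 2`, so both vanish for `‖x‖ ≥ 1` (`S t = 0` for `t ≤ 0`, so also `S' t = 0` for `t ≤ 0` by continuity of `S'`).
`∫ 2 S' (1 - nsq x) dx > 0` (before normalisation): `S 0 = 0`, `S 1 = 1`, so `S' t > 0` for some `t ∈ (0, 1)`; `1 - nsq x = t` for some `x` and the integrand is continuous and nonnegative. `nsq (c x) = nsq x` for `|c| = 1`. Rescale by `k = 1 / ∫`.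
`lift_lip`: `‖fderiv ℝ Φ x‖` is continuous off `0` and invariant under complex multiples (compare `P28e.fderiv_mulC`, `norm_mulC`), hence bounded by some `L` (compact unit sphere); `Φ x = fderiv ℝ Φ x x` (`fderiv_lift_self` with `c = 1`), so `‖Φ x‖ ≤ L ‖x‖`. If the segment `[x, y]` does not contain `0` the mean value inequality
(`Convex.norm_image_sub_le_of_norm_fderiv_le` on the segment or along the path `t ↦ Φ (x + t (y - x))`) gives `‖Φ x - Φ y‖ ≤ L ‖x - y‖`; if it does, `‖x - y‖ = ‖x‖ + ‖y‖` and `‖Φ x - Φ y‖ ≤ L (‖x‖ + ‖y‖)`. `nl_norm`: `‖Φ x‖ ^ 2 ≤ nsq (Φ x) = nsq x ≤ 3 ‖x‖ ^ 2`.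
-/

open MeasureTheory Set Metric
open scoped ContDiff ENNReal

namespace Pool.Agent.Lib.Qcd

open Pool.Agent.P28b04d Pool.Agent.Lib.Psd

namespace KerAux

theorem nsq_line (x v : W) (t : ℝ) : nsq (x + t • v) = nsq x + t * (2 * (hp x v).re) + t ^ 2 * nsq v := by
  simp only [nsq, hp, Complex.re_sum, Finset.mul_sum, ← Finset.sum_add_distrib]
  refine Finset.sum_congr rfl fun k _ => ?_
  simp only [Pi.add_apply, Pi.smul_apply, Complex.normSq_apply, Complex.add_re, Complex.add_im,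
    Complex.real_smul, Complex.mul_re, Complex.mul_im, Complex.ofReal_re, Complex.ofReal_im,
    Complex.star_def, Complex.conj_re, Complex.conj_im]
  ring

theorem fderiv_nsq (x v : W) : fderiv ℝ (fun z : W => nsq z) x v = 2 * (hp x v).re := by
  have hd : HasFDerivAt (fun z : W => nsq z) (fderiv ℝ (fun z : W => nsq z) x) (x + (0 : ℝ) • v) := by
    simpa using ((contDiff_nsq (n := 2)).differentiable (by simp) x).hasFDerivAt
  have h1 : HasDerivAt (fun s : ℝ => x + s • v) v 0 := by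
    simpa using ((hasDerivAt_id (0 : ℝ)).smul_const v).const_add x
  have h2 : HasDerivAt ((fun z : W => nsq z) ∘ fun s : ℝ => x + s • v)
      (fderiv ℝ (fun z : W => nsq z) x v) 0 := hd.comp_hasDerivAt (0 : ℝ) h1
  have h3 : HasDerivAt (fun s : ℝ => nsq (x + s • v)) (2 * (hp x v).re) 0 := by
    have e : (fun s : ℝ => nsq (x + s • v)) = fun s => nsq x + s * (2 * (hp x v).re) + s ^ 2 * nsq v := by
      funext s
      exact nsq_line x v s
    rw [e]
    have h4 := (((hasDerivAt_id' (0 : ℝ)).mul_const (2 * (hp x v).re)).const_add (nsq x)).fun_add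
      (((hasDerivAt_id' (0 : ℝ)).fun_pow 2).mul_const (nsq v))
    have e2 : 1 * (2 * (hp x v).re) + ((2 : ℕ) : ℝ) * 0 ^ (2 - 1) * 1 * nsq v = 2 * (hp x v).re := by
      norm_num
    rw [e2] at h4
    exact h4
  exact h2.unique h3

theorem norm_sq_le (x : W) : ‖x‖ ^ 2 ≤ nsq x := by
  have h1 : ‖x‖ ≤ Real.sqrt (nsq x) := by
    rw [pi_norm_le_iff_of_nonneg (Real.sqrt_nonneg _)]
    intro k
    apply Real.le_sqrt_of_sq_le
    rw [← Complex.normSq_eq_norm_sq]
    exact Finset.single_le_sum (f := fun k => Complex.normSq (x k)) (fun i _ => Complex.normSq_nonneg _)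
      (Finset.mem_univ k)
  calc ‖x‖ ^ 2 ≤ Real.sqrt (nsq x) ^ 2 := by gcongr
    _ = nsq x := Real.sq_sqrt (nsq_nonneg _)

theorem nsq_le (x : W) : nsq x ≤ 3 * ‖x‖ ^ 2 := by
  have h1 : ∀ k, Complex.normSq (x k) ≤ ‖x‖ ^ 2 := by
    intro k
    rw [Complex.normSq_eq_norm_sq]
    have := norm_le_pi_norm x k
    gcongr
  have h2 : nsq x ≤ ∑ _k : Fin 3, ‖x‖ ^ 2 := Finset.sum_le_sum fun k _ => h1 k
  simpa using h2

theorem dS_zero {t : ℝ} (ht : t ≤ 0) : deriv Real.smoothTransition t = 0 := by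
  apply IsLocalMin.deriv_eq_zero
  apply Filter.Eventually.of_forall
  intro u
  rw [Real.smoothTransition.zero_of_nonpos ht]
  exact Real.smoothTransition.nonneg u

theorem dS_smooth : ContDiff ℝ ∞ (deriv Real.smoothTransition) :=
  (contDiff_infty_iff_deriv.1 (Real.smoothTransition.contDiff (n := ⊤))).2

theorem dS_one : ∃ t : ℝ, 0 < t ∧ t < 1 ∧ deriv Real.smoothTransition t = 1 := by
  obtain ⟨t, ht, h⟩ := exists_deriv_eq_slope Real.smoothTransition (zero_lt_one' ℝ)
    Real.smoothTransition.continuous.continuousOn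
    (((Real.smoothTransition.contDiff (n := 1)).differentiable (by simp)).differentiableOn)
  refine ⟨t, ht.1, ht.2, ?_⟩
  rw [h, Real.smoothTransition.zero, Real.smoothTransition.one]
  norm_num

theorem seg {Φ : W → W} {L : ℝ} (h : HLoc (n := 2) Φ)
    (hL : ∀ x : W, x ≠ 0 → ‖fderiv ℝ Φ x‖ ≤ L) (hL0 : ∀ x : W, ‖Φ x‖ ≤ L * ‖x‖) (x y : W) :
    ‖Φ x - Φ y‖ ≤ L * ‖x - y‖ := by
  by_cases h0 : (0 : W) ∈ segment ℝ y x
  · have h1 := dist_add_dist_of_mem_segment h0
    rw [dist_eq_norm, dist_eq_norm, dist_eq_norm, sub_zero, zero_sub, norm_neg] at h1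
    calc ‖Φ x - Φ y‖ ≤ ‖Φ x‖ + ‖Φ y‖ := norm_sub_le _ _
      _ ≤ L * ‖x‖ + L * ‖y‖ := add_le_add (hL0 x) (hL0 y)
      _ = L * ‖x - y‖ := by rw [← norm_sub_rev, ← h1]; ring
  · exact Convex.norm_image_sub_le_of_norm_fderiv_le (𝕜 := ℝ) (s := segment ℝ y x)
      (fun z hz => (h.contDiffAt (fun e => h0 (e ▸ hz))).differentiableAt (by simp))
      (fun z hz => hL z (fun e => h0 (e ▸ hz))) (convex_segment _ _) (left_mem_segment _ _ _)
      (right_mem_segment _ _ _)

end KerAux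

theorem exists_KW : ∃ φ G : W → ℝ, KW φ G := by
  set S := Real.smoothTransition with hS
  set f : W → ℝ := fun x => 2 * deriv S (1 - nsq x) with hf
  have hns : ContDiff ℝ ∞ (fun x : W => 1 - nsq x) := contDiff_const.sub contDiff_nsq
  have hfs : ContDiff ℝ ∞ f := contDiff_const.mul (KerAux.dS_smooth.comp hns)
  have hf0 : ∀ x, 0 ≤ f x := by
    intro x
    have : 0 ≤ deriv S (1 - nsq x) := Real.smoothTransition.monotone.deriv_nonneg
    simp only [hf]
    linarith
  have hlow : ∀ x : W, 1 ≤ ‖x‖ → 1 - nsq x ≤ 0 := by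
    intro x hx
    have h1 := KerAux.norm_sq_le x
    nlinarith
  have hfz : ∀ x : W, 1 ≤ ‖x‖ → f x = 0 := by
    intro x hx
    simp only [hf]
    rw [KerAux.dS_zero (hlow x hx), mul_zero]
  have hcs : HasCompactSupport f := by
    apply HasCompactSupport.of_support_subset_isCompact (isCompact_closedBall (0 : W) 1)
    intro x hx
    by_contra hc
    rw [mem_closedBall_zero_iff, not_le] at hc
    exact hx (hfz x hc.le)
  have hpos : 0 < ∫ x, f x := by
    obtain ⟨t, ht0, ht1, ht⟩ := KerAux.dS_one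
    refine hfs.continuous.integral_pos_of_hasCompactSupport_nonneg_nonzero hcs hf0
      (x := Pi.single 0 ((Real.sqrt (1 - t) : ℝ) : ℂ)) ?_
    have h1 : nsq (Pi.single 0 ((Real.sqrt (1 - t) : ℝ) : ℂ) : W) = 1 - t := by
      rw [nsq, Fin.sum_univ_three]
      simp only [Pi.single_apply]
      have : Real.sqrt (1 - t) * Real.sqrt (1 - t) = 1 - t := Real.mul_self_sqrt (by linarith)
      simp [Complex.normSq_ofReal, this]
    simp only [hf]
    rw [h1, sub_sub_cancel, hS, ht]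
    norm_num
  set k : ℝ := (∫ x, f x)⁻¹ with hk
  have hk0 : 0 < k := inv_pos.2 hpos
  refine ⟨fun x => k * f x, fun x => k * S (1 - nsq x), ?_⟩
  refine ⟨contDiff_const.mul hfs, contDiff_const.mul
    ((Real.smoothTransition.contDiff (n := ⊤)).comp hns), fun x => mul_nonneg hk0.le (hf0 x),
    fun x hx => by rw [hfz x hx, mul_zero], fun x hx => ?_, ?_, fun c hc x => ?_, fun x v => ?_⟩
  · rw [hS, Real.smoothTransition.zero_of_nonpos (hlow x hx), mul_zero]
  · rw [integral_const_mul, hk, inv_mul_cancel₀ hpos.ne']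
  · have : nsq (c • x) = nsq x := by
      rw [nsq_smul, Complex.normSq_eq_norm_sq, hc]
      ring
    simp only [hf, this]
  · have h1 : HasFDerivAt (fun x : W => 1 - nsq x) (-(fderiv ℝ (fun z : W => nsq z) x)) x := by
      have := ((contDiff_nsq (n := 2)).differentiable (by simp) x).hasFDerivAt
      simpa using this.const_sub 1
    have h2 : HasDerivAt S (deriv S (1 - nsq x)) (1 - nsq x) :=
      ((Real.smoothTransition.contDiff (n := 1)).differentiable (by simp) _).hasDerivAt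
    have h3' : HasFDerivAt (S ∘ fun x : W => 1 - nsq x)
        (deriv S (1 - nsq x) • (-(fderiv ℝ (fun z : W => nsq z) x))) x := h2.comp_hasFDerivAt x h1
    have h3 : HasFDerivAt (fun x : W => k * S (1 - nsq x))
        (k • (deriv S (1 - nsq x) • (-(fderiv ℝ (fun z : W => nsq z) x)))) x := h3'.const_mul k
    rw [h3.fderiv]
    simp only [FunLike.coe_smul, FunLike.coe_neg, Pi.smul_apply, Pi.neg_apply, smul_eq_mul,
      KerAux.fderiv_nsq, hf]
    ring

theorem lift_lip {Φ : W → W} (h : HLoc (n := 2) Φ) : ∃ L : NNReal, LipschitzWith L Φ := by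
  have hc : ContinuousOn (fun x => fderiv ℝ Φ x) (sphere (0 : W) 1) := by
    intro x hx
    have hx0 : x ≠ 0 := by
      rintro rfl
      simp at hx
    exact ((h.contDiffAt hx0).fderiv_right (m := 0) (by simp)).continuousAt.continuousWithinAt
  obtain ⟨L, hL⟩ := (isCompact_sphere (0 : W) 1).exists_bound_of_continuousOn hc
  have hLx : ∀ x : W, x ≠ 0 → ‖fderiv ℝ Φ x‖ ≤ max L 0 := by
    intro x hx
    have hn : 0 < ‖x‖ := norm_pos_iff.2 hx
    have hc0 : ((‖x‖⁻¹ : ℝ) : ℂ) ≠ 0 := by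
      exact_mod_cast (inv_pos.2 hn).ne'
    have hs : ∀ v : W, (((‖x‖⁻¹ : ℝ) : ℂ) • v : W) = ‖x‖⁻¹ • v := by
      intro v
      ext i
      simp
    have e : fderiv ℝ Φ (‖x‖⁻¹ • x) = fderiv ℝ Φ x := by
      ext1 v
      have h1 := fderiv_lift_hom h hc0 hx v
      rw [hs, hs, hs, map_smul] at h1
      exact smul_right_injective W (inv_pos.2 hn).ne' h1
    rw [← e]
    refine (hL _ ?_).trans (le_max_left _ _)
    rw [mem_sphere_iff_norm, sub_zero, norm_smul, norm_inv, norm_norm, inv_mul_cancel₀ hn.ne']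
  have hL0 : ∀ x : W, ‖Φ x‖ ≤ max L 0 * ‖x‖ := by
    intro x
    by_cases hx : x = 0
    · rw [hx, h.zero, norm_zero, mul_zero]
    · have h1 := fderiv_lift_self h hx 1
      rw [one_smul, one_smul] at h1
      rw [← h1]
      exact ((fderiv ℝ Φ x).le_opNorm x).trans
        (mul_le_mul_of_nonneg_right (hLx x hx) (norm_nonneg _))
  refine ⟨⟨max L 0, le_max_right _ _⟩, LipschitzWith.of_dist_le_mul fun x y => ?_⟩
  rw [dist_eq_norm, dist_eq_norm]
  exact KerAux.seg h hLx hL0 x y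

theorem nl_norm {Φ : W → W} (h : NL Φ) (x : W) : ‖Φ x‖ ≤ 2 * ‖x‖ := by
  have h1 := KerAux.norm_sq_le (Φ x)
  have h2 := KerAux.nsq_le x
  rw [h.nrm] at h1
  have h3 := norm_nonneg x
  apply abs_le_of_sq_le_sq' _ (by positivity) |>.2
  nlinarith

end Pool.Agent.Lib.Qcd
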