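import Pool.Agent.Lib.Qcd.Defs

set_option autoImplicit false

/-!
# Lifts and their horizontal derivatives

PROOFS. `HLoc Φ`: `Φ` is smooth off `0`, `Φ (c z) = c Φ z` for complex `c`, `dΦ_z` injective for `z ≠ 0`. `lift_ne`: if `Φ z = 0`, `z ≠ 0`, then `dΦ_z z = 0` (derivative of `t ↦ Φ ((1 + t) z)`), contradiction. `fderiv_lift_hom`, `fderiv_lift_self`: differentiate
`Φ (c y) = c Φ y` in `y`, and `t ↦ Φ ((1 + t c) z) = (1 + t c) Φ z` (compare `Hom46.fderiv_mulC` in `Pool.Agent.Lib.P28e.Homog`). `hp_hd`: `hp (Φ z) (Φ z) = nsq (Φ z)`. `hd_self`: `dΦ_z (c z) = c Φ z`. `hd_inj`: if `hd Φ z v = 0` then `dΦ_z v = k Φ z = dΦ_z (k z)`,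
so `v = k z` and `0 = hp z v = k nsq z`. `hd_hom`: from `fderiv_lift_hom` (`hp (c a) (c b) = |c|² hp a b`). `pl_conn`: `smooth`: `z ↦ (a0 (Φ z)).comp (fderiv ℝ Φ z)` (composition of smooth maps, `contDiffOn_a0` in `ConnBAux`, `ContDiffOn.fderiv`); `hom`, `rad`, `rot` from
the two derivative formulas and `a0_conn`. `dd_pull`: `d (Φ^* a0) = Φ^* (d a0)`: `fderiv ℝ (pl Φ) z v w = fderiv ℝ a0 (Φ z) (dΦ v) (dΦ w) + a0 (Φ z) (D²Φ v w)` and `D²Φ_z` is symmetric (see `dd_pb` in `Psd.AmbA` for the same computation with `pt`).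
`dd_pl`: write `dΦ v = k Φ z + hd v`; `dd a0 y (k y) w = 0` (`a0_conn.dd_left`), skew-symmetry, `dd_a0` at `y = Φ z` for the two horizontal vectors.
`nl_re`: differentiate `nsq (Φ z) = nsq z`. `nl_fderiv`: for `NL Φ`, `nsq z = 1`: `hp (Φ z) (dΦ v) = Re hp z v + i a0 (Φ z) (dΦ v)` (`a0_apply`, `nsq (Φ z) = 1`).
-/

open MeasureTheory Set Metric
open scoped ContDiff ENNReal

namespace Pool.Agent.Lib.Qcd

open Pool.Agent.P28b04d Pool.Agent.Lib.Psd

variable {Φ : W → W}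

namespace LiftAux

theorem hp_add_right (a b c : W) : hp a (b + c) = hp a b + hp a c := by
  unfold hp
  rw [← Finset.sum_add_distrib]
  refine Finset.sum_congr rfl fun k _ => ?_
  rw [Pi.add_apply]
  ring

theorem hp_sub_right (a b c : W) : hp a (b - c) = hp a b - hp a c := by
  unfold hp
  rw [← Finset.sum_sub_distrib]
  refine Finset.sum_congr rfl fun k _ => ?_
  rw [Pi.sub_apply]
  ring

theorem real_smul_eq (r : ℝ) (v : W) : r • v = (r : ℂ) • v := by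
  funext k
  simp

theorem hasFDerivAt (h : HLoc (n := 2) Φ) {z : W} (hz : z ≠ 0) :
    HasFDerivAt Φ (fderiv ℝ Φ z) z :=
  ((h.contDiffAt hz).differentiableAt (by simp)).hasFDerivAt

theorem contDiffOn_fderiv (h : HLoc (n := 2) Φ) : ContDiffOn ℝ ∞ (fderiv ℝ Φ) {0}ᶜ :=
  h.smooth.fderiv_of_isOpen isOpen_compl_singleton (by simp)

theorem nsq_curve (z v : W) (t : ℝ) :
    nsq (z + t • v) = nsq z + 2 * t * (hp z v).re + t ^ 2 * nsq v := by
  have h1 : (hp z v).re = ∑ k, ((z k).re * (v k).re + (z k).im * (v k).im) := by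
    unfold hp
    rw [Complex.re_sum]
    refine Finset.sum_congr rfl fun k _ => ?_
    rw [Complex.mul_re, Complex.star_def, Complex.conj_re, Complex.conj_im]
    ring
  rw [h1]
  unfold nsq
  rw [Finset.mul_sum, Finset.mul_sum, ← Finset.sum_add_distrib, ← Finset.sum_add_distrib]
  refine Finset.sum_congr rfl fun k _ => ?_
  rw [Complex.normSq_apply, Complex.normSq_apply, Complex.normSq_apply]
  simp only [Pi.add_apply, Pi.smul_apply, Complex.add_re, Complex.add_im, Complex.real_smul,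
    Complex.mul_re, Complex.mul_im, Complex.ofReal_re, Complex.ofReal_im]
  ring

theorem hasDerivAt_nsq (z v : W) : HasDerivAt (fun t : ℝ => nsq (z + t • v)) (2 * (hp z v).re) 0 := by
  have e : (fun t : ℝ => nsq (z + t • v)) =
      fun t : ℝ => nsq z + 2 * t * (hp z v).re + t ^ 2 * nsq v := funext fun t => nsq_curve z v t
  rw [e]
  have hid : HasDerivAt (fun t : ℝ => t) 1 0 := hasDerivAt_id 0
  have h1 := (((hid.const_mul 2).mul_const (hp z v).re).const_add (nsq z)).add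
    ((hid.pow 2).mul_const (nsq v))
  refine h1.congr_deriv ?_
  simp

theorem hasFDerivAt_nsq (z : W) : HasFDerivAt (fun y : W => nsq y) (fderiv ℝ (fun y : W => nsq y) z) z :=
  ((ConnBAux.contDiff_nsq.differentiable (by simp)) z).hasFDerivAt

theorem fderiv_nsq (z v : W) : fderiv ℝ (fun y : W => nsq y) z v = 2 * (hp z v).re := by
  have hcur := ConnBAux.curve z v
  have h1 : HasFDerivAt (fun y : W => nsq y) (fderiv ℝ (fun y : W => nsq y) z) (z + (0 : ℝ) • v) := by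
    rw [zero_smul, add_zero]
    exact hasFDerivAt_nsq z
  have h2 := h1.comp_hasDerivAt (0 : ℝ) hcur
  exact h2.unique (hasDerivAt_nsq z v)

end LiftAux

open LiftAux

theorem lift_ne (h : HLoc (n := 2) Φ) {z : W} (hz : z ≠ 0) : Φ z ≠ 0 := h.ne hz

theorem fderiv_lift_hom (h : HLoc (n := 2) Φ) {c : ℂ} (hc : c ≠ 0) {z : W} (hz : z ≠ 0) (v : W) :
    fderiv ℝ Φ (c • z) (c • v) = c • fderiv ℝ Φ z v := by
  have hcz : c • z ≠ 0 := smul_ne_zero hc hz
  have hM : HasFDerivAt (fun y : W => c • y) (c • ContinuousLinearMap.id ℝ W) z :=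
    (hasFDerivAt_id z).const_smul c
  have h1 := (LiftAux.hasFDerivAt h hcz).comp z hM
  have h2 := (LiftAux.hasFDerivAt h hz).const_smul c
  have h3 : (Φ ∘ fun y : W => c • y) = c • Φ := by
    funext y
    exact h.hom c y
  rw [h3] at h1
  have h5 := DFunLike.congr_fun (h1.unique h2) v
  simpa using h5

theorem fderiv_lift_self (h : HLoc (n := 2) Φ) {z : W} (hz : z ≠ 0) (c : ℂ) :
    fderiv ℝ Φ z (c • z) = c • Φ z := by
  have hcur := ConnBAux.curve z (c • z)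
  have h1 : HasFDerivAt Φ (fderiv ℝ Φ z) (z + (0 : ℝ) • (c • z)) := by
    rw [zero_smul, add_zero]
    exact LiftAux.hasFDerivAt h hz
  have h2 := h1.comp_hasDerivAt (0 : ℝ) hcur
  have h3 : (Φ ∘ fun t : ℝ => z + t • (c • z)) = fun t : ℝ => Φ z + t • (c • Φ z) := by
    funext t
    have e1 : z + t • (c • z) = ((1 : ℂ) + (t : ℂ) * c) • z := by
      rw [add_smul, one_smul, mul_smul, real_smul_eq]
    rw [Function.comp_apply, e1, h.hom, add_smul, one_smul, mul_smul, real_smul_eq]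
  rw [h3] at h2
  exact h2.unique (ConnBAux.curve (Φ z) (c • Φ z))

theorem hp_hd (h : HLoc (n := 2) Φ) {z : W} (hz : z ≠ 0) (v : W) : hp (Φ z) (hd Φ z v) = 0 := by
  have hn : ((nsq (Φ z) : ℝ) : ℂ) ≠ 0 := by
    exact_mod_cast (ConnBAux.nsq_pos (h.ne hz)).ne'
  unfold hd
  rw [LiftAux.hp_sub_right, ConnBAux.hp_smul_right, ConnBAux.hp_self, div_mul_cancel₀ _ hn, sub_self]

theorem hd_add (Φ : W → W) (z v w : W) : hd Φ z (v + w) = hd Φ z v + hd Φ z w := by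
  unfold hd
  rw [map_add, LiftAux.hp_add_right, add_div, add_smul]
  abel

theorem hd_smul (Φ : W → W) (z : W) (r : ℝ) (v : W) : hd Φ z (r • v) = r • hd Φ z v := by
  unfold hd
  rw [map_smul, real_smul_eq, real_smul_eq, ConnBAux.hp_smul_right, smul_sub, smul_smul, mul_div_assoc]

theorem hd_self (h : HLoc (n := 2) Φ) {z : W} (hz : z ≠ 0) (c : ℂ) : hd Φ z (c • z) = 0 := by
  have hn : ((nsq (Φ z) : ℝ) : ℂ) ≠ 0 := by
    exact_mod_cast (ConnBAux.nsq_pos (h.ne hz)).ne'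
  unfold hd
  rw [fderiv_lift_self h hz, ConnBAux.hp_smul_right, ConnBAux.hp_self, mul_div_cancel_right₀ _ hn,
    sub_self]

theorem hd_hom (h : HLoc (n := 2) Φ) {c : ℂ} (hc : c ≠ 0) {z : W} (hz : z ≠ 0) (v : W) :
    hd Φ (c • z) (c • v) = c • hd Φ z v := by
  have hc2 : ((Complex.normSq c : ℝ) : ℂ) ≠ 0 := by
    exact_mod_cast (Complex.normSq_pos.2 hc).ne'
  unfold hd
  rw [fderiv_lift_hom h hc hz, h.hom, ConnBAux.hp_smul_smul, ConnBAux.nsq_smul, Complex.ofReal_mul,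
    mul_div_mul_left _ _ hc2, smul_sub, smul_smul, smul_smul, mul_comm c]

theorem hd_inj (h : HLoc (n := 2) Φ) {z v : W} (hz : z ≠ 0) (hv : hp z v = 0) (h0 : hd Φ z v = 0) :
    v = 0 := by
  set k : ℂ := hp (Φ z) (fderiv ℝ Φ z v) / (nsq (Φ z) : ℂ) with hk
  have h1 : fderiv ℝ Φ z v = k • Φ z := by
    unfold hd at h0
    exact sub_eq_zero.1 h0
  have h2 : fderiv ℝ Φ z (v - k • z) = 0 := by
    rw [map_sub, h1, fderiv_lift_self h hz, sub_self]
  have h3 : v = k • z := sub_eq_zero.1 (h.inj z hz _ h2)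
  have h4 : k * ((nsq z : ℝ) : ℂ) = 0 := by
    rw [← ConnBAux.hp_self, ← ConnBAux.hp_smul_right, ← h3]
    exact hv
  have hn : ((nsq z : ℝ) : ℂ) ≠ 0 := by
    exact_mod_cast (ConnBAux.nsq_pos hz).ne'
  have h5 : k = 0 := (mul_eq_zero.1 h4).resolve_right hn
  rw [h3, h5, zero_smul]

theorem pl_conn (h : HLoc (n := 2) Φ) : Conn (pl Φ) :=
  { smooth := (ConnBAux.contDiffOn_a0.comp h.smooth fun z hz => h.ne hz).clm_comp
      (contDiffOn_fderiv h)
    hom := by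
      intro c hc z hz v
      show a0 (Φ (c • z)) (fderiv ℝ Φ (c • z) (c • v)) = a0 (Φ z) (fderiv ℝ Φ z v)
      rw [fderiv_lift_hom h hc hz, h.hom, a0_conn.hom c hc _ (h.ne hz)]
    rad := by
      intro z hz
      show a0 (Φ z) (fderiv ℝ Φ z z) = 0
      have h1 := fderiv_lift_self h hz 1
      rw [one_smul, one_smul] at h1
      rw [h1, a0_conn.rad _ (h.ne hz)]
    rot := by
      intro z hz
      show a0 (Φ z) (fderiv ℝ Φ z (Complex.I • z)) = 1
      rw [fderiv_lift_self h hz, a0_conn.rot _ (h.ne hz)] }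

theorem dd_pull (h : HLoc (n := 2) Φ) {z : W} (hz : z ≠ 0) (v w : W) :
    dd (pl Φ) z v w = dd a0 (Φ z) (fderiv ℝ Φ z v) (fderiv ℝ Φ z w) := by
  have hp1 := LiftAux.hasFDerivAt h hz
  have hβ1 : HasFDerivAt a0 (fderiv ℝ a0 (Φ z)) (Φ z) := ConnBAux.diffAt ConnBAux.contDiffOn_a0 (h.ne hz)
  have hc : HasFDerivAt (fun y : W => a0 (Φ y)) ((fderiv ℝ a0 (Φ z)).comp (fderiv ℝ Φ z)) z :=
    hβ1.comp z hp1
  have hd : HasFDerivAt (fderiv ℝ Φ) (fderiv ℝ (fderiv ℝ Φ) z) z := by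
    have h1 : ContDiffAt ℝ ∞ (fderiv ℝ Φ) z :=
      (contDiffOn_fderiv h).contDiffAt (isOpen_compl_singleton.mem_nhds hz)
    exact (h1.differentiableAt (by simp)).hasFDerivAt
  have hcd := (hc.clm_comp hd).fderiv
  have hpb : ∀ a b : W, fderiv ℝ (pl Φ) z a b =
      a0 (Φ z) (fderiv ℝ (fderiv ℝ Φ) z a b) +
        fderiv ℝ a0 (Φ z) (fderiv ℝ Φ z a) (fderiv ℝ Φ z b) := by
    intro a b
    have e : fderiv ℝ (pl Φ) z = fderiv ℝ (fun y : W => (a0 (Φ y)).comp (fderiv ℝ Φ y)) z := rfl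
    rw [e, hcd]
    simp
  have hsym : fderiv ℝ (fderiv ℝ Φ) z v w = fderiv ℝ (fderiv ℝ Φ) z w v := by
    have h1 : ContDiffAt ℝ ∞ Φ z := h.contDiffAt hz
    refine (h1.isSymmSndFDerivAt ?_) v w
    rw [minSmoothness_of_isRCLikeNormedField]
    have h2 : ((2 : ℕ∞) : WithTop ℕ∞) ≤ ((⊤ : ℕ∞) : WithTop ℕ∞) := WithTop.coe_le_coe.2 le_top
    exact h2
  unfold dd
  rw [hpb, hpb, hsym]
  ring

theorem dd_pl (h : HLoc (n := 2) Φ) {z : W} (hz : z ≠ 0) (v w : W) :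
    dd (pl Φ) z v w = 2 * (hp (hd Φ z v) (hd Φ z w)).im / nsq (Φ z) := by
  have hy := h.ne hz
  have e : ∀ u : W, fderiv ℝ Φ z u =
      hd Φ z u + (hp (Φ z) (fderiv ℝ Φ z u) / (nsq (Φ z) : ℂ)) • Φ z := by
    intro u
    unfold hd
    rw [sub_add_cancel]
  have h0 : ∀ (c : ℂ) (u : W), dd a0 (Φ z) (c • Φ z) u = 0 := fun c u => a0_conn.dd_left hy c u
  have h0' : ∀ (c : ℂ) (u : W), dd a0 (Φ z) u (c • Φ z) = 0 := fun c u => by
    rw [dd_skew, h0, neg_zero]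
  rw [dd_pull h hz, e v, e w, dd_add_left, dd_add_right, h0, h0', add_zero, add_zero,
    dd_a0 hy (hp_hd h hz v) (hp_hd h hz w)]

theorem nl_re (h : NL Φ) {z : W} (hz : z ≠ 0) (v : W) : (hp (Φ z) (fderiv ℝ Φ z v)).re = (hp z v).re := by
  have h1 : HasFDerivAt (fun y : W => nsq (Φ y))
      ((fderiv ℝ (fun y : W => nsq y) (Φ z)).comp (fderiv ℝ Φ z)) z :=
    (hasFDerivAt_nsq (Φ z)).comp z (LiftAux.hasFDerivAt h.loc hz)
  have h2 : (fun y : W => nsq (Φ y)) = fun y : W => nsq y := funext h.nrm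
  rw [h2] at h1
  have h3 := DFunLike.congr_fun (h1.unique (hasFDerivAt_nsq z)) v
  rw [fderiv_nsq, ContinuousLinearMap.comp_apply, fderiv_nsq] at h3
  linarith

/-- the derivative of a normalised lift at a unit vector -/
theorem nl_fderiv (h : NL Φ) {z : W} (hz : nsq z = 1) (v : W) :
    fderiv ℝ Φ z v = hd Φ z v + ((hp z v).re + pl Φ z v * Complex.I : ℂ) • Φ z := by
  have hz0 : z ≠ 0 := by
    rintro rfl
    have h0 : nsq (0 : W) = 0 := by
      unfold nsq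
      simp
    rw [h0] at hz
    exact zero_ne_one hz
  have h1 : nsq (Φ z) = 1 := by rw [h.nrm, hz]
  have h2 : pl Φ z v = (hp (Φ z) (fderiv ℝ Φ z v)).im := by
    show a0 (Φ z) (fderiv ℝ Φ z v) = _
    rw [a0_apply, h1, div_one]
  have h3 : (((hp z v).re : ℝ) + pl Φ z v * Complex.I : ℂ) = hp (Φ z) (fderiv ℝ Φ z v) := by
    rw [← nl_re h hz0, h2]
    exact Complex.re_add_im _
  rw [h3]
  unfold hd
  rw [h1, Complex.ofReal_one, div_one, sub_add_cancel]

end Pool.Agent.Lib.Qcd
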