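import Pool.Agent.Lib.Qcd.Gauged
import Pool.Agent.Lib.Qcd.GoodS
import Pool.Agent.Lib.Qcd.GoodT
import Pool.Agent.Lib.P28h.Top
import Pool.Agent.Lib.P28h.ExistsLift
import Pool.Agent.Lib.P28e.Homog

set_option autoImplicit false

/-!
# Quasiconformal diffeomorphisms of the projective plane

PROOF. `top_gap 2` gives the tolerance `ε` at the scale `1/8`; `goodS` gives `ρ₁` and `goodT ρ₁ (min ε (1/4))` the large scales. The lift (`exists_lift`) is put in a good gauge (`gauged`).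
-/

open MeasureTheory Set Metric
open scoped ContDiff ENNReal

namespace Pool.Agent.Lib.Qcd

open Pool.Agent.P28b04d Pool.Agent.Lib.Psd

theorem QCL.mono {ε ε' : ℝ} {Φ : W → W} (h : QCL ε Φ) (hε : ε ≤ ε') : QCL ε' Φ := by
  intro z v w hz hv hw hvw
  have h1 := h z v w hz hv hw hvw
  have h2 : 0 ≤ nsq (hd Φ z w) := Finset.sum_nonneg fun k _ => Complex.normSq_nonneg _
  nlinarith

theorem flat_of_qcl (ε : ℝ) (hε : 0 < ε) : ∃ ε₀ : ℝ, 0 < ε₀ ∧ ∀ Φ : W → W, NL Φ → QCL ε₀ Φ →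
    (∀ z v : W, nsq z = 1 → |pl Φ z v - a0 z v| ≤ ε₀ * ‖v‖) →
      P28h.Flat (n := 2) Φ (1 / 8) (1 / 4) ε := by
  obtain ⟨ρ₁, ε₁, hρ₁, hρ₁', hε₁, hS⟩ := goodS
  obtain ⟨ε₂, hε₂, hT⟩ := goodT (min ρ₁ (1 / 16)) (min ε (1 / 4)) (by positivity) (by positivity)
  refine ⟨min ε₁ ε₂, by positivity, fun Φ hN hq hg => ?_⟩
  have hq1 := hq.mono (min_le_left ε₁ ε₂)
  have hq2 := hq.mono (min_le_right ε₁ ε₂)
  have hg1 : ∀ z v : W, nsq z = 1 → |pl Φ z v - a0 z v| ≤ ε₁ * ‖v‖ := fun z v hz =>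
    (hg z v hz).trans (mul_le_mul_of_nonneg_right (min_le_left _ _) (norm_nonneg _))
  have hg2 : ∀ z v : W, nsq z = 1 → |pl Φ z v - a0 z v| ≤ ε₂ * ‖v‖ := fun z v hz =>
    (hg z v hz).trans (mul_le_mul_of_nonneg_right (min_le_right _ _) (norm_nonneg _))
  -- reduction to unit vectors
  have key : ∀ z : W, z ≠ 0 → ∃ (s : ℝ) (z₁ : W), 0 < s ∧ nsq z₁ = 1 ∧ z = s • z₁ ∧ ‖z₁‖ ≤ 1 ∧ z₁ ≠ 0 := by
    intro z hz
    have hn : 0 < nsq z := ConnBAux.nsq_pos hz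
    have hs : 0 < Real.sqrt (nsq z) := Real.sqrt_pos.2 hn
    refine ⟨Real.sqrt (nsq z), (Real.sqrt (nsq z))⁻¹ • z, hs, ?_, ?_, ?_, ?_⟩
    · have e : (Real.sqrt (nsq z))⁻¹ • z = (((Real.sqrt (nsq z))⁻¹ : ℝ) : ℂ) • z := by
        ext k
        simp
      rw [e, ConnBAux.nsq_smul, Complex.normSq_ofReal, ← mul_inv, Real.mul_self_sqrt hn.le,
        inv_mul_cancel₀ hn.ne']
    · rw [smul_smul, mul_inv_cancel₀ hs.ne', one_smul]
    · rw [norm_smul, norm_inv, Real.norm_of_nonneg hs.le, inv_mul_le_iff₀ hs, mul_one]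
      rw [pi_norm_le_iff_of_nonneg hs.le]
      intro k
      apply Real.le_sqrt_of_sq_le
      rw [← Complex.normSq_eq_norm_sq]
      exact Finset.single_le_sum (f := fun k => Complex.normSq (z k))
        (fun i _ => Complex.normSq_nonneg _) (Finset.mem_univ k)
    · intro h0
      rw [smul_eq_zero] at h0
      rcases h0 with h0 | h0
      · exact (inv_pos.2 hs).ne' h0
      · exact hz h0
  have gen : ∀ z : W, z ≠ 0 → ∀ ρ : ℝ, 0 < ρ → ρ ≤ 1 / 8 * ‖z‖ → ∀ (s : ℝ) (z₁ : W), 0 < s → nsq z₁ = 1 →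
      z = s • z₁ → ‖z₁‖ ≤ 1 → z₁ ≠ 0 → 0 < ρ / s ∧ ρ / s ≤ 1 / 8 ∧ ρ / s < ‖z₁‖ ∧ s * (ρ / s) = ρ := by
    intro z hz ρ hρ hρ1 s z₁ hs h1 hz1 hz2 hz3
    have hpos := norm_pos_iff.2 hz3
    have e : ‖z‖ = s * ‖z₁‖ := by rw [hz1, norm_smul, Real.norm_of_nonneg hs.le]
    rw [e] at hρ1
    have h2 : ρ / s ≤ 1 / 8 * ‖z₁‖ := by
      rw [div_le_iff₀ hs]
      linarith
    refine ⟨by positivity, by linarith, by linarith, by field_simp⟩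
  intro z hz
  obtain ⟨s, z₁, hs, h1, hz1, hz2, hz3⟩ := key z hz
  constructor
  · intro ρ hρ hρ1
    obtain ⟨g1, g2, g3, g4⟩ := gen z hz ρ hρ hρ1 s z₁ hs h1 hz1 hz2 hz3
    by_cases hc : ρ / s ≤ ρ₁
    · obtain ⟨M, hM⟩ := hS Φ hN hq1 hg1 z₁ h1 (ρ / s) g1 hc
      refine ⟨M, ?_⟩
      have := (P28e.good_smul hN.loc hs hz3 g1 g3).2 hM
      rw [g4, ← hz1] at this
      exact this
    · obtain ⟨M, hM⟩ := hT Φ hN hq2 hg2 z₁ h1 (ρ / s) ((min_le_left _ _).trans (not_le.1 hc).le) g2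
      refine ⟨M, ?_⟩
      have := (P28e.good_smul hN.loc hs hz3 g1 g3).2 hM
      rw [g4, ← hz1] at this
      exact P28e.ChnAux.good_mono this (min_le_right _ _)
  · have hρ : 0 < 1 / 8 * ‖z‖ := by
      have := norm_pos_iff.2 hz
      positivity
    obtain ⟨g1, g2, g3, g4⟩ := gen z hz _ hρ le_rfl s z₁ hs h1 hz1 hz2 hz3
    have hlow : min ρ₁ (1 / 16) ≤ 1 / 8 * ‖z‖ / s := by
      have h3 : (1 : ℝ) ≤ 3 * ‖z₁‖ ^ 2 := by
        rw [← h1]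
        have h4 : nsq z₁ ≤ ∑ _k : Fin 3, ‖z₁‖ ^ 2 := by
          refine Finset.sum_le_sum fun k _ => ?_
          rw [Complex.normSq_eq_norm_sq]
          have h2 := norm_le_pi_norm z₁ k
          have h3 := norm_nonneg (z₁ k)
          nlinarith
        rw [Finset.sum_const, Finset.card_univ, Fintype.card_fin, nsmul_eq_mul] at h4
        exact_mod_cast h4
      have h5 : 1 / 2 ≤ ‖z₁‖ := by nlinarith [norm_nonneg z₁]
      refine (min_le_right _ _).trans ?_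
      rw [le_div_iff₀ hs, hz1, norm_smul, Real.norm_of_nonneg hs.le]
      nlinarith
    obtain ⟨M, hM⟩ := hT Φ hN hq2 hg2 z₁ h1 _ hlow g2
    refine ⟨M, ?_⟩
    have := (P28e.good_smul hN.loc hs hz3 g1 g3).2 hM
    rw [g4, ← hz1] at this
    exact P28e.ChnAux.good_mono this (min_le_left _ _)

theorem main : ∃ K₀ : ℝ, 1 < K₀ ∧ ∀ F G : Mat → Mat, ContDiff ℝ ∞ F → ContDiff ℝ ∞ G →
    (∀ P ∈ CP 2, F P ∈ CP 2) → (∀ P ∈ CP 2, G P ∈ CP 2) →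
    (∀ P ∈ CP 2, G (F P) = P) → (∀ P ∈ CP 2, F (G P) = P) →
    (∃ H : ℝ × Mat → Mat, ContinuousOn H (Icc (0 : ℝ) 1 ×ˢ CP 2) ∧
      (∀ t ∈ Icc (0 : ℝ) 1, ∀ P ∈ CP 2, H (t, P) ∈ CP 2) ∧
      (∀ P ∈ CP 2, H (0, P) = P) ∧ ∀ P ∈ CP 2, H (1, P) = F P) →
    QC K₀ F → IsotopicToId 2 F := by
  obtain ⟨ε, c, hε, -, hgap, -⟩ := P28h.top_gap 2 (by norm_num)
  obtain ⟨ε₀, hε₀, hflat⟩ := flat_of_qcl ε hε
  obtain ⟨ε₁, hε₁, hga⟩ := gauged ε₀ hε₀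
  set e : ℝ := min ε₀ ε₁ with he
  have he0 : 0 < e := by positivity
  refine ⟨Real.sqrt (1 + e), ?_, fun F G hF hG hFm hGm hGF hFG hH hq => ?_⟩
  · exact Real.lt_sqrt_of_sq_lt (by linarith)
  obtain ⟨H, h1, h2, h3, h4⟩ := hH
  obtain ⟨Φ₀, hΦ₀, hpt⟩ := P28h.exists_lift (n := 2) hF hG hFm hGF h1 h2 h3 h4
  have hK : Real.sqrt (1 + e) ^ 2 ≤ 1 + e := (Real.sq_sqrt (by linarith)).le
  have hQ : QCL e Φ₀ := qcl hF hΦ₀ hpt hK hq
  obtain ⟨Φ, hN, hQ', hpt', hg⟩ := hga e he0.le (min_le_right _ _) Φ₀ hΦ₀ hQ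
  have hf := hflat Φ hN (hQ'.mono (min_le_left _ _)) hg
  exact hgap Φ hN.loc (1 / 4) (by norm_num) hf F fun z hz => (hpt z hz).trans (hpt' z hz).symm

end Pool.Agent.Lib.Qcd
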