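import Pool.Agent.Lib.Qcd.Cov
import Pool.Agent.Lib.Qcd.Alg

set_option autoImplicit false

/-!
# Invertible matrices from charts

PROOFS. `exists_M`: `M v = hp z v • y + ∑_a (∑_i t_i c (i, a)) • fr p q a` with `t = ![Re hp u v', Im hp u v', Re hp v v', Im hp v v']` the coordinates of the vector `v'`; it is linear over `ℝ`; `basis_eq` for both bases and `hl` (`c` is injective, so bijective on `ℝ⁴`, `‖c‖ > 0`) show that it is bijective (`LinearEquiv.ofBijective`, finite dimension; or injective and `LinearEquiv.ofInjectiveEndo`), continuous.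
If `∑_i w_i c (i, a) = b_a` then `M⁻¹ (α y + ∑ b_a fr_a) = α z + ∑ w_i fr_i`, `|w| ≤ 4 |b| / ‖c‖` by `hl`, and `‖∑ w_i fr u v i‖ ≤ √(nsq ..) = |w|`, `‖z‖ ≤ 1`.
`ndC`: with `V = volume.real (ball 0 1)` and `η₂ = √V / 64` (or smaller): if `∑_k (L x k - c k)² > ‖c‖² / 256` for every `x` in `ball 0 r` then `V r⁴ ‖c‖² / 256 ≤ 16 η₂² ‖c‖² r⁴`, a contradiction. So there is `x` with `|L x k - c k| ≤ ‖c‖ / 16` and `(∑_k ..)^(1/2) ≤ ‖c‖ / 16`. Let `|c (i, a)| = ‖c‖`: `∑_a (L x i a)² ≥ (15/16)² ‖c‖²`; `nc 1 (L x)` (with `x = |w| e_i`, `y = w`): `∑_a (∑_i w_i L x i a)² ≥ 1/2 (15/16)² ‖c‖² |w|²`,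
and `(∑_a (∑_i w_i (L x i a - c (i, a)))²)^(1/2) ≤ |w| ‖c‖ / 16` by Cauchy-Schwarz; `√(1/2) 15/16 - 1/16 ≥ 1/4`.
-/

open MeasureTheory Set Metric
open scoped ContDiff ENNReal

namespace Pool.Agent.Lib.Qcd

open Pool.Agent.P28b04d Pool.Agent.Lib.Psd

namespace MkMAux

/-- real coordinates in the frame -/
noncomputable def tc (u v x : W) : Fin 4 → ℝ := ![(hp u x).re, (hp u x).im, (hp v x).re, (hp v x).im]

lemma sum_fr (u v : W) (w : Fin 4 → ℝ) : ∑ i, w i • fr u v i =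
    ((w 0 : ℂ) + w 1 * Complex.I) • u + ((w 2 : ℂ) + w 3 * Complex.I) • v := by
  rw [Fin.sum_univ_four]
  funext k
  simp [fr]
  ring

lemma dec {z u v : W} (h : ON3 z u v) (x : W) : x = hp z x • z + ∑ i, tc u v x i • fr u v i := by
  conv_lhs => rw [basis_eq h x]
  rw [sum_fr, add_assoc]
  simp only [tc, Matrix.cons_val_zero, Matrix.cons_val_one, Matrix.cons_val, Complex.re_add_im]

lemma hp_z {z u v : W} (h : ON3 z u v) (α : ℂ) (w : Fin 4 → ℝ) :
    hp z (α • z + ∑ i, w i • fr u v i) = α := by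
  rw [sum_fr, ← add_assoc, CovAux.hp_comb, h.zz, h.zu, h.zv]
  ring

lemma hp_u {z u v : W} (h : ON3 z u v) (α : ℂ) (w : Fin 4 → ℝ) :
    hp u (α • z + ∑ i, w i • fr u v i) = (w 0 : ℂ) + w 1 * Complex.I := by
  have h7 : hp u z = 0 := by rw [CovAux.hp_swap, h.zu, star_zero]
  rw [sum_fr, ← add_assoc, CovAux.hp_comb, h.uu, h7, h.uv]
  ring

lemma hp_v {z u v : W} (h : ON3 z u v) (α : ℂ) (w : Fin 4 → ℝ) :
    hp v (α • z + ∑ i, w i • fr u v i) = (w 2 : ℂ) + w 3 * Complex.I := by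
  have h8 : hp v z = 0 := by rw [CovAux.hp_swap, h.zv, star_zero]
  have h9 : hp v u = 0 := by rw [CovAux.hp_swap, h.uv, star_zero]
  rw [sum_fr, ← add_assoc, CovAux.hp_comb, h.vv, h8, h9]
  ring

lemma tc_comb {z u v : W} (h : ON3 z u v) (α : ℂ) (w : Fin 4 → ℝ) :
    tc u v (α • z + ∑ i, w i • fr u v i) = w := by
  unfold tc
  rw [hp_u h, hp_v h]
  funext i
  fin_cases i <;> simp

lemma tc_add (u v x y : W) : tc u v (x + y) = tc u v x + tc u v y := by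
  unfold tc
  rw [hp_add_right, hp_add_right]
  funext i
  fin_cases i <;> simp

lemma hp_real (a x : W) (r : ℝ) : hp a (r • x) = (r : ℂ) * hp a x := by
  have : r • x = (r : ℂ) • x := by
    funext k
    simp
  rw [this, Psd.hp_smul_right]

lemma tc_smul (u v x : W) (r : ℝ) : tc u v (r • x) = r • tc u v x := by
  unfold tc
  rw [hp_real, hp_real]
  funext i
  fin_cases i <;> simp

/-- the linear map with the matrix `C` in the two frames -/
noncomputable def mk (z u v y p q : W) (C : Matrix (Fin 4) (Fin 4) ℝ) : W →ₗ[ℝ] W where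
  toFun x := hp z x • y + ∑ a, (Matrix.vecMul (tc u v x) C a) • fr p q a
  map_add' x x' := by
    rw [tc_add, Matrix.add_vecMul, hp_add_right, add_smul]
    simp only [Pi.add_apply, add_smul, Finset.sum_add_distrib]
    abel
  map_smul' r x := by
    rw [tc_smul, Matrix.smul_vecMul, hp_real]
    simp only [Pi.smul_apply, smul_eq_mul, mul_smul, RingHom.id_apply, smul_add, Finset.smul_sum]
    congr 1

lemma mk_comb {z u v : W} (h : ON3 z u v) (y p q : W) (C : Matrix (Fin 4) (Fin 4) ℝ) (α : ℂ)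
    (w : Fin 4 → ℝ) : mk z u v y p q C (α • z + ∑ i, w i • fr u v i) =
      α • y + ∑ a, (Matrix.vecMul w C a) • fr p q a := by
  change hp z _ • y + ∑ a, (Matrix.vecMul (tc u v _) C a) • fr p q a = _
  rw [hp_z h, tc_comb h]

lemma mk_mk {z u v y p q : W} (h : ON3 z u v) (h' : ON3 y p q) {C D : Matrix (Fin 4) (Fin 4) ℝ}
    (hCD : C * D = 1) (x : W) : mk y p q z u v D (mk z u v y p q C x) = x := by
  have e := dec h x
  set α := hp z x with hα
  set w := tc u v x with hw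
  rw [e, mk_comb h, mk_comb h', Matrix.vecMul_vecMul, hCD, Matrix.vecMul_one]

lemma norm_sq_le (w : W) : ‖w‖ ^ 2 ≤ nsq w := by
  obtain ⟨j, hj⟩ : ∃ j, ‖w‖ = ‖w j‖ := by
    obtain ⟨j, _, hj⟩ := Finset.exists_mem_eq_sup' Finset.univ_nonempty (fun j => ‖w j‖₊)
    refine ⟨j, ?_⟩
    have h1 : ‖w‖₊ = Finset.univ.sup' Finset.univ_nonempty (fun j => ‖w j‖₊) := by
      rw [Pi.nnnorm_def, Finset.sup'_eq_sup]
    rw [hj] at h1
    rw [← coe_nnnorm, ← coe_nnnorm, h1]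
  rw [hj, ← Complex.normSq_eq_norm_sq]
  exact Finset.single_le_sum (f := fun j => Complex.normSq (w j)) (fun i _ => Complex.normSq_nonneg _)
    (Finset.mem_univ j)

lemma exists_abs {K : Type} [Fintype K] [Nonempty K] (c : K → ℝ) : ∃ k, ‖c‖ = |c k| := by
  obtain ⟨j, _, hj⟩ := Finset.exists_mem_eq_sup' Finset.univ_nonempty (fun j => ‖c j‖₊)
  refine ⟨j, ?_⟩
  have h1 : ‖c‖₊ = Finset.univ.sup' Finset.univ_nonempty (fun j => ‖c j‖₊) := by
    rw [Pi.nnnorm_def, Finset.sup'_eq_sup]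
  rw [hj] at h1
  rw [← Real.norm_eq_abs, ← coe_nnnorm, ← coe_nnnorm, h1]

lemma nsq_sum {z u v : W} (h : ON3 z u v) (w : Fin 4 → ℝ) : nsq (∑ i, w i • fr u v i) = ∑ i, w i ^ 2 := by
  set x : W := ∑ i, w i • fr u v i with hx
  have e0 : x = (0 : ℂ) • z + ∑ i, w i • fr u v i := by rw [zero_smul, zero_add]
  have h1 : hp u x = (w 0 : ℂ) + w 1 * Complex.I := by rw [e0, hp_u h]
  have h2 : hp v x = (w 2 : ℂ) + w 3 * Complex.I := by rw [e0, hp_v h]
  have e1 : x = ((w 0 : ℂ) + w 1 * Complex.I) • u + ((w 2 : ℂ) + w 3 * Complex.I) • v := sum_fr u v w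
  have h3 : hp x x = ((w 0 : ℂ) + w 1 * Complex.I) * star ((w 0 : ℂ) + w 1 * Complex.I) +
      ((w 2 : ℂ) + w 3 * Complex.I) * star ((w 2 : ℂ) + w 3 * Complex.I) := by
    refine (congrArg (hp x) e1).trans ?_
    rw [hp_add_right, Psd.hp_smul_right, Psd.hp_smul_right, CovAux.hp_swap u x, CovAux.hp_swap v x, h1, h2]
  have h4 : (nsq x : ℂ) = hp x x := nsq_eq_hp x
  rw [h3] at h4
  have h5 := congrArg Complex.re h4
  simp at h5
  rw [h5, Fin.sum_univ_four]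
  ring

end MkMAux

open MkMAux

theorem exists_M {z u v y p q : W} (h : ON3 z u v) (h' : ON3 y p q)
    {c : Fin 4 × Fin 4 → ℝ} (hc : c ≠ 0)
    (hl : ∀ w : Fin 4 → ℝ, (‖c‖ / 4) ^ 2 * ∑ i, w i ^ 2 ≤ ∑ a, (∑ i, w i * c (i, a)) ^ 2) :
    ∃ M : (W →L[ℝ] W)ˣ, (∀ (α : ℂ) (w : Fin 4 → ℝ), (M : W →L[ℝ] W) (α • z + ∑ i, w i • fr u v i) =
      α • y + ∑ a, (∑ i, w i * c (i, a)) • fr p q a) ∧ ∀ (α : ℂ) (b : Fin 4 → ℝ),
        ‖(↑M⁻¹ : W →L[ℝ] W) (α • y + ∑ a, b a • fr p q a)‖ ≤ ‖α‖ + 4 / ‖c‖ * Real.sqrt (∑ a, b a ^ 2) := by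
  have hcn : 0 < ‖c‖ := norm_pos_iff.2 hc
  set C : Matrix (Fin 4) (Fin 4) ℝ := Matrix.of fun i a => c (i, a) with hC
  have hvm : ∀ (w : Fin 4 → ℝ) (a : Fin 4), Matrix.vecMul w C a = ∑ i, w i * c (i, a) := fun w a => rfl
  have hdet : C.det ≠ 0 := by
    intro h0
    obtain ⟨w, hw0, hw⟩ := Matrix.exists_vecMul_eq_zero_iff.2 h0
    have h1 := hl w
    have h2 : ∑ a, (∑ i, w i * c (i, a)) ^ 2 = 0 := by
      refine Finset.sum_eq_zero fun a _ => ?_
      rw [← hvm w a, hw]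
      simp
    rw [h2] at h1
    have h3 : 0 < (‖c‖ / 4) ^ 2 := by positivity
    have h4 : ∑ i, w i ^ 2 ≤ 0 := by
      by_contra h5
      push Not at h5
      have := mul_pos h3 h5
      linarith
    apply hw0
    funext i
    have h5 : w i ^ 2 ≤ ∑ i, w i ^ 2 :=
      Finset.single_le_sum (f := fun i => w i ^ 2) (fun i _ => sq_nonneg _) (Finset.mem_univ i)
    have h6 : w i ^ 2 = 0 := le_antisymm (h5.trans h4) (sq_nonneg _)
    exact pow_eq_zero_iff (two_ne_zero) |>.1 h6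
  have hunit : IsUnit C.det := isUnit_iff_ne_zero.2 hdet
  have hCD : C * C⁻¹ = 1 := Matrix.mul_nonsing_inv C hunit
  have hDC : C⁻¹ * C = 1 := Matrix.nonsing_inv_mul C hunit
  set M0 : W →L[ℝ] W := LinearMap.toContinuousLinearMap (mk z u v y p q C) with hM0
  set N0 : W →L[ℝ] W := LinearMap.toContinuousLinearMap (mk y p q z u v C⁻¹) with hN0
  have hMN : M0 * N0 = 1 := by
    ext1 x
    exact mk_mk h' h hDC x
  have hNM : N0 * M0 = 1 := by
    ext1 x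
    exact mk_mk h h' hCD x
  refine ⟨⟨M0, N0, hMN, hNM⟩, fun α w => ?_, fun α b => ?_⟩
  · exact mk_comb h y p q C α w
  · have e1 : (↑(⟨M0, N0, hMN, hNM⟩ : (W →L[ℝ] W)ˣ)⁻¹ : W →L[ℝ] W) (α • y + ∑ a, b a • fr p q a) =
        α • z + ∑ i, (Matrix.vecMul b C⁻¹ i) • fr u v i := mk_comb h' z u v C⁻¹ α b
    rw [e1]
    set w : Fin 4 → ℝ := Matrix.vecMul b C⁻¹ with hw
    have hwC : Matrix.vecMul w C = b := by
      rw [hw, Matrix.vecMul_vecMul, hDC, Matrix.vecMul_one]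
    have h1 := hl w
    have h2 : ∑ a, (∑ i, w i * c (i, a)) ^ 2 = ∑ a, b a ^ 2 := by
      refine Finset.sum_congr rfl fun a _ => ?_
      rw [← hvm w a, hwC]
    rw [h2] at h1
    have hz1 : ‖z‖ ≤ 1 := by
      have h3 := norm_sq_le z
      have h4 : (nsq z : ℂ) = hp z z := nsq_eq_hp z
      rw [h.zz] at h4
      have h5 : nsq z = 1 := by exact_mod_cast h4
      rw [h5] at h3
      nlinarith [norm_nonneg z]
    have hs : ‖∑ i, w i • fr u v i‖ ≤ 4 / ‖c‖ * Real.sqrt (∑ a, b a ^ 2) := by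
      have h3 := norm_sq_le (∑ i, w i • fr u v i)
      rw [nsq_sum h] at h3
      have hB0 : 0 ≤ ∑ a, b a ^ 2 := Finset.sum_nonneg fun a _ => sq_nonneg _
      have h4 : ‖∑ i, w i • fr u v i‖ ^ 2 ≤ (4 / ‖c‖ * Real.sqrt (∑ a, b a ^ 2)) ^ 2 := by
        rw [mul_pow, Real.sq_sqrt hB0, div_pow]
        refine h3.trans ?_
        rw [div_mul_eq_mul_div, le_div_iff₀ (by positivity)]
        have h5 : (‖c‖ / 4) ^ 2 = ‖c‖ ^ 2 / 16 := by ring
        rw [h5] at h1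
        linarith
      exact (sq_le_sq₀ (norm_nonneg _) (by positivity)).1 h4
    calc ‖α • z + ∑ i, w i • fr u v i‖ ≤ ‖α • z‖ + ‖∑ i, w i • fr u v i‖ := norm_add_le _ _
      _ ≤ ‖α‖ + 4 / ‖c‖ * Real.sqrt (∑ a, b a ^ 2) := by
          refine add_le_add ?_ hs
          rw [norm_smul]
          exact mul_le_of_le_one_right (norm_nonneg _) hz1

theorem ndC : ∃ η₂ : ℝ, 0 < η₂ ∧ ∀ (L : E → Fin 4 → Fin 4 → ℝ) (r : ℝ) (c : Fin 4 × Fin 4 → ℝ), 0 < r →
    (∀ i a, ContinuousOn (fun x => L x i a) (closedBall 0 r)) → (∀ x : E, ‖x‖ < r → nc 1 (L x)) →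
    (∀ k : Fin 4 × Fin 4, ∫ x in ball (0 : E) r, (L x k.1 k.2 - c k) ^ 2 ≤ (η₂ * ‖c‖) ^ 2 * r ^ 4) →
    ∀ w : Fin 4 → ℝ, (‖c‖ / 4) ^ 2 * ∑ i, w i ^ 2 ≤ ∑ a, (∑ i, w i * c (i, a)) ^ 2 := by
  set V : ℝ := (volume : Measure E).real (ball (0 : E) 1) with hV
  have hV0 : 0 < V := by
    rw [hV, Measure.real, ENNReal.toReal_pos_iff]
    exact ⟨measure_ball_pos _ _ one_pos, measure_ball_lt_top⟩
  refine ⟨Real.sqrt (V / 8192), Real.sqrt_pos.2 (by positivity), ?_⟩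
  intro L r c hr hL hnc hint w
  rcases eq_or_ne c 0 with rfl | hc
  · simp
  have hcn : 0 < ‖c‖ := norm_pos_iff.2 hc
  have hvol : (volume : Measure E).real (ball (0 : E) r) = r ^ 4 * V := by
    have h := Measure.addHaar_ball (volume : Measure E) (0 : E) hr.le
    rw [Measure.real, h, ENNReal.toReal_mul, ENNReal.toReal_ofReal (by positivity),
      finrank_euclideanSpace_fin]
    rfl
  -- a good point
  obtain ⟨x, hx, hxs⟩ : ∃ x : E, ‖x‖ < r ∧ ∑ k : Fin 4 × Fin 4, (L x k.1 k.2 - c k) ^ 2 ≤ ‖c‖ ^ 2 / 256 := by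
    by_contra hcon
    push Not at hcon
    have hIk : ∀ k : Fin 4 × Fin 4, IntegrableOn (fun x => (L x k.1 k.2 - c k) ^ 2) (ball (0 : E) r) := by
      intro k
      have h1 : ContinuousOn (fun x => (L x k.1 k.2 - c k) ^ 2) (closedBall 0 r) :=
        ((hL k.1 k.2).sub continuousOn_const).pow 2
      exact (h1.integrableOn_compact (isCompact_closedBall (0 : E) r)).mono_set ball_subset_closedBall
    have h1 : ∫ _x in ball (0 : E) r, ‖c‖ ^ 2 / 256 ≤
        ∫ x in ball (0 : E) r, ∑ k : Fin 4 × Fin 4, (L x k.1 k.2 - c k) ^ 2 := by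
      refine setIntegral_mono_on ?_ ?_ measurableSet_ball fun x hx => ?_
      · exact (continuousOn_const.integrableOn_compact (isCompact_closedBall (0 : E) r)).mono_set
          ball_subset_closedBall
      · exact integrable_finsetSum _ fun k _ => hIk k
      · rw [mem_ball_zero_iff] at hx
        exact (hcon x hx).le
    rw [setIntegral_const, smul_eq_mul, hvol, integral_finsetSum _ fun k _ => hIk k] at h1
    have h2 : ∑ k : Fin 4 × Fin 4, ∫ x in ball (0 : E) r, (L x k.1 k.2 - c k) ^ 2 ≤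
        16 * ((Real.sqrt (V / 8192) * ‖c‖) ^ 2 * r ^ 4) := by
      refine (Finset.sum_le_sum fun k _ => hint k).trans (le_of_eq ?_)
      rw [Finset.sum_const, Finset.card_univ, Fintype.card_prod, Fintype.card_fin, nsmul_eq_mul]
      norm_num
    rw [mul_pow, Real.sq_sqrt (by positivity)] at h2
    have h3 : 0 < r ^ 4 * V * ‖c‖ ^ 2 := by positivity
    nlinarith
  obtain ⟨k0, hk0⟩ := exists_abs c
  -- the row of `k0`
  have hrow : (15 / 16 * ‖c‖) ^ 2 ≤ ∑ a, (L x k0.1 a) ^ 2 := by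
    have h1 : (L x k0.1 k0.2 - c k0) ^ 2 ≤ ‖c‖ ^ 2 / 256 :=
      (Finset.single_le_sum (f := fun k : Fin 4 × Fin 4 => (L x k.1 k.2 - c k) ^ 2)
        (fun k _ => sq_nonneg _) (Finset.mem_univ k0)).trans hxs
    have h2 : |L x k0.1 k0.2 - c k0| ≤ ‖c‖ / 16 := by
      refine (sq_le_sq₀ (abs_nonneg _) (by positivity)).1 ?_
      have : (‖c‖ / 16) ^ 2 = ‖c‖ ^ 2 / 256 := by ring
      rw [this, sq_abs]
      exact h1
    have h3 : 15 / 16 * ‖c‖ ≤ |L x k0.1 k0.2| := by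
      have h4 : |c k0| ≤ |L x k0.1 k0.2| + |L x k0.1 k0.2 - c k0| := by
        have e : c k0 = L x k0.1 k0.2 - (L x k0.1 k0.2 - c k0) := by ring
        conv_lhs => rw [e]
        exact abs_sub _ _
      rw [← hk0] at h4
      linarith
    calc (15 / 16 * ‖c‖) ^ 2 ≤ |L x k0.1 k0.2| ^ 2 := pow_le_pow_left₀ (by positivity) h3 2
      _ = (L x k0.1 k0.2) ^ 2 := sq_abs _
      _ ≤ ∑ a, (L x k0.1 a) ^ 2 :=
          Finset.single_le_sum (f := fun a => (L x k0.1 a) ^ 2) (fun a _ => sq_nonneg _) (Finset.mem_univ k0.2)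
  set S : ℝ := ∑ i, w i ^ 2 with hS
  have hS0 : 0 ≤ S := Finset.sum_nonneg fun i _ => sq_nonneg _
  have h5 : S * ∑ a, (L x k0.1 a) ^ 2 ≤ 2 * ∑ a, (∑ i, w i * L x i a) ^ 2 := by
    have h6 := hnc x hx (fun i => if i = k0.1 then Real.sqrt S else 0) w (by
      rw [Finset.sum_eq_single k0.1]
      · rw [if_pos rfl, Real.sq_sqrt hS0]
      · intro i _ hi
        simp [hi]
      · intro hi
        exact absurd (Finset.mem_univ _) hi)
    have e : ∑ a, (∑ i, (if i = k0.1 then Real.sqrt S else 0) * L x i a) ^ 2 =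
        S * ∑ a, (L x k0.1 a) ^ 2 := by
      rw [Finset.mul_sum]
      refine Finset.sum_congr rfl fun a _ => ?_
      rw [Finset.sum_eq_single k0.1]
      · rw [if_pos rfl, mul_pow, Real.sq_sqrt hS0]
      · intro i _ hi
        rw [if_neg hi, zero_mul]
      · intro hi
        exact absurd (Finset.mem_univ _) hi
    rw [e] at h6
    linarith
  -- the error
  have h7 : ∑ a, (∑ i, w i * (L x i a - c (i, a))) ^ 2 ≤ S * (‖c‖ ^ 2 / 256) := by
    calc ∑ a, (∑ i, w i * (L x i a - c (i, a))) ^ 2 ≤ ∑ a, S * ∑ i, (L x i a - c (i, a)) ^ 2 :=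
          Finset.sum_le_sum fun a _ => Finset.sum_mul_sq_le_sq_mul_sq _ _ _
      _ = S * ∑ k : Fin 4 × Fin 4, (L x k.1 k.2 - c k) ^ 2 := by
          rw [← Finset.mul_sum, Fintype.sum_prod_type, Finset.sum_comm]
      _ ≤ S * (‖c‖ ^ 2 / 256) := mul_le_mul_of_nonneg_left hxs hS0
  have h8 : ∑ a, (∑ i, w i * L x i a) ^ 2 ≤ 2 * ∑ a, (∑ i, w i * c (i, a)) ^ 2 +
      2 * ∑ a, (∑ i, w i * (L x i a - c (i, a))) ^ 2 := by
    rw [Finset.mul_sum, Finset.mul_sum, ← Finset.sum_add_distrib]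
    refine Finset.sum_le_sum fun a _ => ?_
    have e : ∑ i, w i * L x i a = ∑ i, w i * c (i, a) + ∑ i, w i * (L x i a - c (i, a)) := by
      rw [← Finset.sum_add_distrib]
      exact Finset.sum_congr rfl fun i _ => by ring
    rw [e]
    nlinarith [sq_nonneg (∑ i, w i * c (i, a) - ∑ i, w i * (L x i a - c (i, a)))]
  have h9 : S * (15 / 16 * ‖c‖) ^ 2 ≤ S * ∑ a, (L x k0.1 a) ^ 2 := mul_le_mul_of_nonneg_left hrow hS0
  have h10 : 0 ≤ S * ‖c‖ ^ 2 := by positivity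
  nlinarith

end Pool.Agent.Lib.Qcd
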