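import Pool.Agent.Lib.Qcd.Defs

set_option autoImplicit false

/-!
# A Morrey type estimate on `W`

PROOF. `W` has real dimension `6`; `|B_s| = V s⁶` for the closed balls of radius `s`. (1) For `x` with `‖x - z‖ ≤ r` and `0 < s ≤ r`: for `‖η‖ ≤ 1`, `g (x + s η) - g x = ∫_0^1 Dg(x + t s η)(s η) dt` (the closed ball of radius `s` around `x` lies in `ball z (3 r)`), so by Tonelli and the substitution `y = x + t s η`
`∫_{‖η‖ ≤ 1} ‖g (x + s η) - g x‖ dη ≤ s ∫_0^1 (t s)⁻⁶ ∫_{closedBall x (t s)} ‖Dg‖ dt ≤ s ∫_0^1 A (t s)^(-1/8) dt ≤ (8/7) A s^(7/8)`.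
(2) Given `x` with `s = ‖x - z‖ ∈ (0, r]`: let `m` be the midpoint; `closedBall m (s/2) ⊆ closedBall x s ∩ closedBall z s`. By (1) at `x` and at `z` the integrals of `‖g y - g x‖` and `‖g y - g z‖` over `closedBall m (s/2)` (volume `V (s/2)⁶`) are at most `(8/7) A s^(7/8) s⁶`; so
`‖g x - g z‖ V (s/2)⁶ ≤ (16/7) A s^(7/8) s⁶`. `C = 2⁶ (16/7) / V` or any larger number.
-/

open MeasureTheory Set Metric
open scoped ContDiff ENNReal

namespace Pool.Agent.Lib.Qcd

open Pool.Agent.P28b04d Pool.Agent.Lib.Psd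

namespace MorAux

lemma finW : Module.finrank ℝ W = 6 := by
  rw [Module.finrank_pi_fintype]
  simp

lemma shift (F : W → ℝ≥0∞) (p : W) (s : ℝ) :
    ∫⁻ y in closedBall p s, F y = ∫⁻ w in closedBall (0 : W) s, F (p + w) := by
  rw [← lintegral_indicator measurableSet_closedBall, ← lintegral_indicator measurableSet_closedBall,
    ← lintegral_add_left_eq_self _ p]
  refine lintegral_congr fun w => ?_
  by_cases h : w ∈ closedBall (0 : W) s
  · have h' : p + w ∈ closedBall p s := by
      rw [mem_closedBall, dist_self_add_left]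
      rwa [mem_closedBall, dist_zero_right] at h
    rw [indicator_of_mem h', indicator_of_mem h]
  · have h' : p + w ∉ closedBall p s := by
      rw [mem_closedBall, dist_self_add_left]
      rwa [mem_closedBall, dist_zero_right] at h
    rw [indicator_of_notMem h', indicator_of_notMem h]

lemma scale {F : W → ℝ≥0∞} (hF : Measurable F) {t s : ℝ} (ht : 0 < t) :
    ∫⁻ w in closedBall (0 : W) s, F (t • w) =
      ENNReal.ofReal ((t ^ 6)⁻¹) * ∫⁻ v in closedBall (0 : W) (t * s), F v := by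
  set H : W → ℝ≥0∞ := (closedBall (0 : W) (t * s)).indicator F with hH
  have hHm : Measurable H := hF.indicator measurableSet_closedBall
  have e1 : ∫⁻ w in closedBall (0 : W) s, F (t • w) = ∫⁻ w, H (t • w) := by
    rw [← lintegral_indicator measurableSet_closedBall]
    refine lintegral_congr fun w => ?_
    have hiff : t • w ∈ closedBall (0 : W) (t * s) ↔ w ∈ closedBall (0 : W) s := by
      rw [mem_closedBall, mem_closedBall, dist_zero_right, dist_zero_right, norm_smul,
        Real.norm_of_nonneg ht.le]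
      exact mul_le_mul_iff_right₀ ht
    by_cases h : w ∈ closedBall (0 : W) s
    · rw [hH, indicator_of_mem h, indicator_of_mem (hiff.2 h)]
    · rw [hH, indicator_of_notMem h, indicator_of_notMem (fun h' => h (hiff.1 h'))]
  have e2 : ∫⁻ w, H (t • w) = ∫⁻ v, H v ∂(Measure.map (t • ·) (volume : Measure W)) :=
    (lintegral_map hHm (measurable_const_smul t)).symm
  rw [e1, e2, Measure.map_addHaar_smul volume ht.ne', lintegral_smul_measure, finW,
    abs_of_pos (by positivity), hH, lintegral_indicator measurableSet_closedBall, smul_eq_mul]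

/-- the fundamental theorem of calculus on a segment -/
lemma seg {g : W → W} {p w : W} {U : Set W} (hU : IsOpen U) (hg : ContDiffOn ℝ 1 g U)
    (hpw : ∀ t ∈ Icc (0 : ℝ) 1, p + t • w ∈ U) :
    ‖g (p + w) - g p‖ₑ ≤ ∫⁻ t in Ioc (0 : ℝ) 1, ‖w‖ₑ * ‖fderiv ℝ g (p + t • w)‖ₑ := by
  have hcont : ContinuousOn (fderiv ℝ g) U := hg.continuousOn_fderiv_of_isOpen hU le_rfl
  have hder : ∀ t ∈ uIcc (0 : ℝ) 1, HasDerivAt (fun t : ℝ => g (p + t • w))
      (fderiv ℝ g (p + t • w) w) t := by
    intro t ht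
    rw [uIcc_of_le zero_le_one] at ht
    have h1 : HasFDerivAt g (fderiv ℝ g (p + t • w)) (p + t • w) :=
      ((hg.differentiableOn one_ne_zero).differentiableAt (hU.mem_nhds (hpw t ht))).hasFDerivAt
    have h2 : HasDerivAt (fun t : ℝ => p + t • w) w t := by
      have := ((hasDerivAt_id t).smul_const w).const_add p
      simpa using this
    exact h1.comp_hasDerivAt t h2
  have hc2 : ContinuousOn (fun t : ℝ => fderiv ℝ g (p + t • w) w) (Icc (0 : ℝ) 1) := by
    have h1 : ContinuousOn (fun t : ℝ => fderiv ℝ g (p + t • w)) (Icc (0 : ℝ) 1) :=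
      hcont.comp (by fun_prop) hpw
    exact h1.clm_apply continuousOn_const
  have hint : IntervalIntegrable (fun t : ℝ => fderiv ℝ g (p + t • w) w) volume 0 1 := by
    apply ContinuousOn.intervalIntegrable
    rwa [uIcc_of_le zero_le_one]
  have h := intervalIntegral.integral_eq_sub_of_hasDerivAt hder hint
  simp only [one_smul, zero_smul, add_zero] at h
  rw [← h, intervalIntegral.integral_of_le zero_le_one]
  refine (enorm_integral_le_lintegral_enorm _).trans (lintegral_mono fun t => ?_)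
  rw [mul_comm]
  exact (fderiv ℝ g (p + t • w)).le_opENorm w

lemma ball_bound {g : W → W} {p : W} {s A : ℝ} {U : Set W} (hs : 0 < s) (hA : 0 ≤ A)
    (hU : IsOpen U) (hg : ContDiffOn ℝ 1 g U) (hp : closedBall p s ⊆ U)
    (hD : ∀ τ : ℝ, 0 < τ → τ ≤ s →
      ∫⁻ y in closedBall p τ, ‖fderiv ℝ g y‖ₑ ≤ ENNReal.ofReal (A * τ ^ (47 / 8 : ℝ))) :
    ∫⁻ y in closedBall p s, ‖g y - g p‖ₑ ≤ ENNReal.ofReal (8 / 7 * A * s ^ (55 / 8 : ℝ)) := by
  have hmf : Measurable (fun y : W => ‖fderiv ℝ g y‖ₑ) := (measurable_fderiv ℝ g).enorm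
  rw [shift]
  have h1 : ∫⁻ w in closedBall (0 : W) s, ‖g (p + w) - g p‖ₑ ≤
      ∫⁻ w in closedBall (0 : W) s, ∫⁻ t in Ioc (0 : ℝ) 1,
        ENNReal.ofReal s * ‖fderiv ℝ g (p + t • w)‖ₑ := by
    refine setLIntegral_mono' measurableSet_closedBall fun w hw => ?_
    rw [mem_closedBall, dist_zero_right] at hw
    refine (seg hU hg (p := p) (w := w) fun t ht => hp ?_).trans (lintegral_mono fun t => ?_)
    · rw [mem_closedBall, dist_self_add_left, norm_smul, Real.norm_of_nonneg ht.1]
      calc t * ‖w‖ ≤ 1 * ‖w‖ := mul_le_mul_of_nonneg_right ht.2 (norm_nonneg _)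
        _ ≤ s := by rw [one_mul]; exact hw
    · refine mul_le_mul' ?_ le_rfl
      rw [← ofReal_norm_eq_enorm]
      exact ENNReal.ofReal_le_ofReal hw
  refine h1.trans ?_
  rw [lintegral_lintegral_swap]
  · have h2 : ∀ t ∈ Ioc (0 : ℝ) 1, ∫⁻ w in closedBall (0 : W) s,
        ENNReal.ofReal s * ‖fderiv ℝ g (p + t • w)‖ₑ ≤
          ENNReal.ofReal (A * s ^ (55 / 8 : ℝ) * t ^ (-(1 / 8) : ℝ)) := by
      intro t ht
      have ht0 := ht.1
      have hm2 : Measurable (fun v : W => ‖fderiv ℝ g (p + v)‖ₑ) :=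
        hmf.comp (measurable_const_add p)
      have hm3 : Measurable (fun w : W => ‖fderiv ℝ g (p + t • w)‖ₑ) :=
        hm2.comp (measurable_const_smul t)
      rw [lintegral_const_mul _ hm3]
      have h3 := scale hm2 (s := s) ht0
      have h4 : ∫⁻ v in closedBall (0 : W) (t * s), ‖fderiv ℝ g (p + v)‖ₑ ≤
          ENNReal.ofReal (A * (t * s) ^ (47 / 8 : ℝ)) := by
        rw [← shift (fun y => ‖fderiv ℝ g y‖ₑ) p (t * s)]
        refine hD (t * s) (by positivity) ?_
        calc t * s ≤ 1 * s := mul_le_mul_of_nonneg_right ht.2 hs.le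
          _ = s := one_mul s
      calc ENNReal.ofReal s * ∫⁻ w in closedBall (0 : W) s, ‖fderiv ℝ g (p + t • w)‖ₑ =
          ENNReal.ofReal s * (ENNReal.ofReal ((t ^ 6)⁻¹) *
            ∫⁻ v in closedBall (0 : W) (t * s), ‖fderiv ℝ g (p + v)‖ₑ) := by rw [← h3]
        _ ≤ ENNReal.ofReal s * (ENNReal.ofReal ((t ^ 6)⁻¹) *
            ENNReal.ofReal (A * (t * s) ^ (47 / 8 : ℝ))) := by gcongr
        _ = ENNReal.ofReal (s * ((t ^ 6)⁻¹ * (A * (t * s) ^ (47 / 8 : ℝ)))) := by
            rw [ENNReal.ofReal_mul hs.le, ENNReal.ofReal_mul (p := (t ^ 6)⁻¹) (by positivity)]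
        _ = ENNReal.ofReal (A * s ^ (55 / 8 : ℝ) * t ^ (-(1 / 8) : ℝ)) := by
            congr 1
            rw [Real.mul_rpow ht0.le hs.le]
            have e1 : (t ^ 6)⁻¹ * t ^ (47 / 8 : ℝ) = t ^ (-(1 / 8) : ℝ) := by
              rw [← Real.rpow_natCast, ← Real.rpow_neg ht0.le, ← Real.rpow_add ht0]
              congr 1
              norm_num
            have e2 : s * s ^ (47 / 8 : ℝ) = s ^ (55 / 8 : ℝ) := by
              nth_rewrite 1 [← Real.rpow_one s]
              rw [← Real.rpow_add hs]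
              congr 1
              norm_num
            rw [← e1, ← e2]
            ring
    refine (setLIntegral_mono' measurableSet_Ioc h2).trans ?_
    have hint : IntegrableOn (fun t : ℝ => A * s ^ (55 / 8 : ℝ) * t ^ (-(1 / 8) : ℝ)) (Ioc 0 1) := by
      have h5 : IntervalIntegrable (fun t : ℝ => t ^ (-(1 / 8) : ℝ)) volume 0 1 :=
        intervalIntegral.intervalIntegrable_rpow' (by norm_num)
      rw [intervalIntegrable_iff_integrableOn_Ioc_of_le zero_le_one] at h5
      exact h5.const_mul _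
    rw [← ofReal_integral_eq_lintegral_ofReal hint]
    · refine ENNReal.ofReal_le_ofReal ?_
      rw [← intervalIntegral.integral_of_le zero_le_one, intervalIntegral.integral_const_mul,
        integral_rpow (Or.inl (by norm_num))]
      rw [Real.one_rpow, Real.zero_rpow (by norm_num)]
      norm_num
      linarith
    · refine (ae_restrict_iff' measurableSet_Ioc).2 (Filter.Eventually.of_forall fun t ht => ?_)
      have := ht.1
      positivity
  · have hjoint : Measurable (fun q : W × ℝ => ENNReal.ofReal s * ‖fderiv ℝ g (p + q.2 • q.1)‖ₑ) := by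
      have hc : Measurable (fun q : W × ℝ => p + q.2 • q.1) := by
        have : Continuous (fun q : W × ℝ => p + q.2 • q.1) := by fun_prop
        exact this.measurable
      exact (hmf.comp hc).const_mul _
    exact hjoint.aemeasurable

end MorAux

open MorAux

theorem morrey : ∃ C : ℝ, 1 ≤ C ∧ ∀ (g : W → W) (z : W) (r A : ℝ), 0 < r → 0 ≤ A →
    ContDiffOn ℝ 1 g (ball z (3 * r)) →
    (∀ x : W, ‖x - z‖ ≤ r → ∀ s : ℝ, 0 < s → s ≤ r →
      ∫⁻ y in closedBall x s, ‖fderiv ℝ g y‖ₑ ≤ ENNReal.ofReal (A * s ^ (47 / 8 : ℝ))) →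
    ∀ x : W, ‖x - z‖ ≤ r → ‖g x - g z‖ ≤ C * A * ‖x - z‖ ^ (7 / 8 : ℝ) := by
  set V : ℝ := (volume (closedBall (0 : W) 1)).toReal with hV
  have hVtop : volume (closedBall (0 : W) 1) ≠ ⊤ := measure_closedBall_lt_top.ne
  have hV0 : 0 < V := ENNReal.toReal_pos (measure_closedBall_pos volume (0 : W) one_pos).ne' hVtop
  refine ⟨max 1 (1024 / 7 / V), le_max_left _ _, ?_⟩
  intro g z r A hr hA hg hD x hx
  rcases eq_or_ne x z with rfl | hxz
  · simp [Real.zero_rpow]
  set s : ℝ := ‖x - z‖ with hs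
  have hs0 : 0 < s := norm_pos_iff.2 (sub_ne_zero.2 hxz)
  set m : W := (1 / 2 : ℝ) • (x + z) with hm
  have hmx : ‖m - x‖ = s / 2 := by
    have e : m - x = (-(1 / 2) : ℝ) • (x - z) := by
      rw [hm]
      module
    rw [e, norm_smul, ← hs]
    norm_num
    ring
  have hmz : ‖m - z‖ = s / 2 := by
    have e : m - z = ((1 / 2) : ℝ) • (x - z) := by
      rw [hm]
      module
    rw [e, norm_smul, ← hs]
    norm_num
    ring
  have hsubx : closedBall m (s / 2) ⊆ closedBall x s := by
    refine closedBall_subset_closedBall' ?_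
    rw [dist_eq_norm, hmx]
    linarith
  have hsubz : closedBall m (s / 2) ⊆ closedBall z s := by
    refine closedBall_subset_closedBall' ?_
    rw [dist_eq_norm, hmz]
    linarith
  have hbx : closedBall x s ⊆ ball z (3 * r) := by
    intro y hy
    rw [mem_closedBall, dist_eq_norm] at hy
    rw [mem_ball, dist_eq_norm]
    have : ‖y - z‖ ≤ ‖y - x‖ + ‖x - z‖ := by
      have e : y - z = (y - x) + (x - z) := by abel
      rw [e]
      exact norm_add_le _ _
    linarith
  have hbz : closedBall z s ⊆ ball z (3 * r) := closedBall_subset_ball (by linarith)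
  have I1 := ball_bound hs0 hA isOpen_ball hg hbx (fun τ h1 h2 => hD x hx τ h1 (h2.trans hx))
  have I2 := ball_bound hs0 hA isOpen_ball hg hbz
    (fun τ h1 h2 => hD z (by simpa using hr.le) τ h1 (h2.trans hx))
  have hgc : ContinuousOn g (ball z (3 * r)) := hg.continuousOn
  have hmain : ‖g x - g z‖ₑ * volume (closedBall m (s / 2)) ≤
      ENNReal.ofReal (2 * (8 / 7 * A * s ^ (55 / 8 : ℝ))) := by
    calc ‖g x - g z‖ₑ * volume (closedBall m (s / 2)) = ∫⁻ _y in closedBall m (s / 2), ‖g x - g z‖ₑ := by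
          rw [setLIntegral_const]
      _ ≤ ∫⁻ y in closedBall m (s / 2), (‖g y - g x‖ₑ + ‖g y - g z‖ₑ) := by
          refine lintegral_mono fun y => ?_
          have e : g x - g z = (g y - g z) - (g y - g x) := by abel
          rw [e, add_comm]
          exact enorm_sub_le
      _ = (∫⁻ y in closedBall m (s / 2), ‖g y - g x‖ₑ) + ∫⁻ y in closedBall m (s / 2), ‖g y - g z‖ₑ := by
          refine lintegral_add_left' ?_ _
          have h1 : ContinuousOn (fun y => g y - g x) (closedBall m (s / 2)) :=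
            (hgc.mono (hsubx.trans hbx)).sub continuousOn_const
          exact (h1.aemeasurable measurableSet_closedBall).enorm
      _ ≤ (∫⁻ y in closedBall x s, ‖g y - g x‖ₑ) + ∫⁻ y in closedBall z s, ‖g y - g z‖ₑ :=
          add_le_add (lintegral_mono_set hsubx) (lintegral_mono_set hsubz)
      _ ≤ ENNReal.ofReal (8 / 7 * A * s ^ (55 / 8 : ℝ)) + ENNReal.ofReal (8 / 7 * A * s ^ (55 / 8 : ℝ)) :=
          add_le_add I1 I2
      _ = _ := by
          rw [← ENNReal.ofReal_add (by positivity) (by positivity), two_mul]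
  have hvol : volume (closedBall m (s / 2)) = ENNReal.ofReal ((s / 2) ^ 6 * V) := by
    rw [Measure.addHaar_closedBall volume m (by positivity : (0 : ℝ) ≤ s / 2), finW,
      ENNReal.ofReal_mul (by positivity), hV]
    congr 1
    rw [← Measure.addHaar_closedBall_eq_addHaar_ball, ENNReal.ofReal_toReal hVtop]
  rw [hvol, ← ofReal_norm_eq_enorm, ← ENNReal.ofReal_mul (norm_nonneg _),
    ENNReal.ofReal_le_ofReal_iff (by positivity)] at hmain
  have e2 : s ^ (55 / 8 : ℝ) = s ^ 6 * s ^ (7 / 8 : ℝ) := by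
    rw [← Real.rpow_natCast, ← Real.rpow_add hs0]
    congr 1
    norm_num
  rw [e2] at hmain
  have hs6 : 0 < s ^ 6 := by positivity
  have h3 : ‖g x - g z‖ * V ≤ 1024 / 7 * (A * s ^ (7 / 8 : ℝ)) := by
    have h4 : (‖g x - g z‖ * V) * s ^ 6 ≤ (1024 / 7 * (A * s ^ (7 / 8 : ℝ))) * s ^ 6 := by
      have e3 : (‖g x - g z‖ * V) * s ^ 6 = 64 * (‖g x - g z‖ * ((s / 2) ^ 6 * V)) := by ring
      rw [e3]
      have e4 : (1024 / 7 * (A * s ^ (7 / 8 : ℝ))) * s ^ 6 =
          64 * (2 * (8 / 7 * A * (s ^ 6 * s ^ (7 / 8 : ℝ)))) := by ring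
      rw [e4]
      linarith
    exact le_of_mul_le_mul_right h4 hs6
  have hAs : 0 ≤ A * s ^ (7 / 8 : ℝ) := by positivity
  calc ‖g x - g z‖ ≤ 1024 / 7 / V * (A * s ^ (7 / 8 : ℝ)) := by
        rw [div_mul_eq_mul_div, le_div_iff₀ hV0]
        exact h3
    _ ≤ max 1 (1024 / 7 / V) * (A * s ^ (7 / 8 : ℝ)) :=
        mul_le_mul_of_nonneg_right (le_max_right _ _) hAs
    _ = _ := by ring

end Pool.Agent.Lib.Qcd
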