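import Pool.Agent.Lib.Qcd.Defs

set_option autoImplicit false

/-!
# The difference of the Pfaffians of two connection forms integrates to zero

PROOF: the same as `Psd.PfInt` with a bilinear version. `Vg lam mu i x = 1/2 ∑ j, lam x (ev j) * st (co mu) i j`; as in `Psd.Ibp` (`div_Vf`, `ibp`, `xV`; the file uses only that `st (co mu)` is divergence free, `star_div2`):
`∑ i, pd i (Vg lam mu i) x = 1/2 ∑_{i<j} co lam i j * st (co mu) i j` (the polarisation `P (d lam, d mu)` of `Pf`, symmetric), and `P (dα - dβ, dα + dβ) = Pf (dα) - Pf (dβ)`. Use `lam = ch (α - β) z u v`, `mu = ch (α + β) z u v` (`γ = α - β` is `Basic` by `Conn.sub`).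
The identity for `∑ x_i Vg_i` as in `xV` (twice the field `Vf` is replaced by the bilinear one): it involves `lam x (J4 x)` and `d mu x (J4 x) b`. With `y = sig z u v x`, `|lam x (J4 x)| = |γ y (I • z)| ≤ C / ‖y‖`; `dd μ y (I • (y - z)) (Lf b) = - dd μ y (I • z) (Lf b)`
for `μ = α + β` (`Conn.dd_left`), at most `C ‖b‖ / ‖y‖²`: `|dd μ y v w| ≤ C ‖v‖ ‖w‖ / ‖y‖²` holds for `μ = α + β` by homogeneity and compactness of the unit sphere exactly as in `Basic.bound` (`BdBAux.sphere_bound`; `dd` of `α` is homogeneous by `Conn.dd_hom`).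
Hence `|∑ x_i Vg_i x| ≤ C / ‖y‖³` and the integral against `pd i (cutR R)` is `O(1/R)`. (Here `mu = (α + β) / 2` is used, a connection form by `Conn.lin`.)
-/

open MeasureTheory Set Metric
open scoped ContDiff ENNReal

namespace Pool.Agent.Lib.Qcd

open Pool.Agent.P28b04d Pool.Agent.Lib.Psd

namespace PfBAux

open Pool.Agent.Lib.Psd.ClosedAux Pool.Agent.Lib.Psd.IbpAux Pool.Agent.Lib.Psd.PfIntAux

/-- The bilinear version of the vector field. -/
noncomputable def Vg (lam mu : E → E →L[ℝ] ℝ) (i : Fin 4) (x : E) : ℝ :=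
  1 / 2 * ∑ j, l1 lam j x * co mu (sx i j).1 (sx i j).2 x

/-- Polarisation of the Pfaffian. -/
noncomputable def PP (S T : Fin 4 → Fin 4 → ℝ) : ℝ :=
  (S 0 1 * T 2 3 + S 2 3 * T 0 1 - S 0 2 * T 1 3 - S 1 3 * T 0 2 + S 0 3 * T 1 2 + S 1 2 * T 0 3) / 2

theorem Vg_smooth {lam mu : E → E →L[ℝ] ℝ} (h : ContDiff ℝ ∞ lam) (h' : ContDiff ℝ ∞ mu)
    (i : Fin 4) : ContDiff ℝ ∞ (Vg lam mu i) := by
  unfold Vg
  refine contDiff_const.mul (ContDiff.sum fun j _ => ?_)
  exact (l1_contDiff h j).mul (co_smooth h' _ _)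

theorem pd_Vg {lam mu : E → E →L[ℝ] ℝ} (h : ContDiff ℝ ∞ lam) (h' : ContDiff ℝ ∞ mu)
    (i : Fin 4) (x : E) :
    pd i (Vg lam mu i) x = 1 / 2 * ∑ j, (pd i (l1 lam j) x * co mu (sx i j).1 (sx i j).2 x +
      l1 lam j x * pd i (co mu (sx i j).1 (sx i j).2) x) := by
  have h1 : ∀ j, DifferentiableAt ℝ (fun x => l1 lam j x * co mu (sx i j).1 (sx i j).2 x) x :=
    fun j => (IbpAux.diffAt (l1_contDiff h j) x).mul (IbpAux.diffAt (co_smooth h' _ _) x)
  have h2 : DifferentiableAt ℝ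
      (fun x => ∑ j, l1 lam j x * co mu (sx i j).1 (sx i j).2 x) x :=
    DifferentiableAt.fun_sum fun j _ => h1 j
  have h3 : Vg lam mu i = fun x => 1 / 2 * ∑ j, l1 lam j x * co mu (sx i j).1 (sx i j).2 x := rfl
  unfold pd
  rw [h3, fderiv_const_mul h2, fderiv_fun_sum fun j _ => h1 j]
  simp only [FunLike.coe_smul, FunLike.coe_sum, Pi.smul_apply, Finset.sum_apply, smul_eq_mul]
  congr 1
  refine Finset.sum_congr rfl fun j _ => ?_
  rw [fderiv_fun_mul (IbpAux.diffAt (l1_contDiff h j) x) (IbpAux.diffAt (co_smooth h' _ _) x)]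
  simp only [FunLike.coe_add, FunLike.coe_smul, Pi.add_apply, Pi.smul_apply, smul_eq_mul]
  ring

theorem div_Vg {lam mu : E → E →L[ℝ] ℝ} (h : ContDiff ℝ ∞ lam) (h' : ContDiff ℝ ∞ mu) (x : E) :
    ∑ i, pd i (Vg lam mu i) x = PP (fun i j => co lam i j x) (fun i j => co mu i j x) := by
  have e1 : ∑ i, pd i (Vg lam mu i) x =
      1 / 2 * (∑ i, ∑ j, pd i (l1 lam j) x * co mu (sx i j).1 (sx i j).2 x) +
      1 / 2 * ∑ j, l1 lam j x * ∑ i, pd i (co mu (sx i j).1 (sx i j).2) x := by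
    have : ∑ j, l1 lam j x * ∑ i, pd i (co mu (sx i j).1 (sx i j).2) x =
        ∑ i, ∑ j, l1 lam j x * pd i (co mu (sx i j).1 (sx i j).2) x := by
      rw [Finset.sum_comm]
      refine Finset.sum_congr rfl fun j _ => ?_
      rw [Finset.mul_sum]
    rw [this, ← mul_add, ← Finset.sum_add_distrib, Finset.mul_sum]
    refine Finset.sum_congr rfl fun i _ => ?_
    rw [pd_Vg h h', ← Finset.sum_add_distrib]
  rw [e1]
  have e2 : ∑ j, l1 lam j x * ∑ i, pd i (co mu (sx i j).1 (sx i j).2) x = 0 := by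
    refine Finset.sum_eq_zero fun j _ => ?_
    rw [star_div2 h', mul_zero]
  rw [e2]
  unfold PP
  simp only [co_eq h, co_eq h', Fin.sum_univ_four, sx, Matrix.cons_val]
  ring

theorem ibp2 {lam mu : E → E →L[ℝ] ℝ} (h : ContDiff ℝ ∞ lam) (h' : ContDiff ℝ ∞ mu) {η : E → ℝ}
    (hη : ContDiff ℝ ∞ η) (hc : HasCompactSupport η) :
    ∫ x, η x * PP (fun i j => co lam i j x) (fun i j => co mu i j x) =
      -∫ x, ∑ i, pd i η x * Vg lam mu i x := by
  have hcη : ∀ i, HasCompactSupport (pd i η) := fun i => hc.fderiv_apply (𝕜 := ℝ) (ev i)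
  have i1 : ∀ i, Integrable (fun x => pd i η x * Vg lam mu i x) := by
    intro i
    refine Continuous.integrable_of_hasCompactSupport ?_ ?_
    · exact (ClosedAux.pd_contDiff' hη i).continuous.mul (Vg_smooth h h' i).continuous
    · exact (hcη i).mul_right
  have i2 : ∀ i, Integrable (fun x => η x * pd i (Vg lam mu i) x) := by
    intro i
    refine Continuous.integrable_of_hasCompactSupport ?_ ?_
    · exact hη.continuous.mul (ClosedAux.pd_contDiff' (Vg_smooth h h' i) i).continuous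
    · exact hc.mul_right
  have i3 : ∀ i, Integrable (fun x => η x * Vg lam mu i x) := by
    intro i
    refine Continuous.integrable_of_hasCompactSupport ?_ ?_
    · exact hη.continuous.mul (Vg_smooth h h' i).continuous
    · exact hc.mul_right
  have e1 : ∀ x, η x * PP (fun i j => co lam i j x) (fun i j => co mu i j x) =
      ∑ i, η x * pd i (Vg lam mu i) x := by
    intro x
    rw [← div_Vg h h', Finset.mul_sum]
  simp only [e1]
  rw [integral_finsetSum _ fun i _ => i2 i, integral_finsetSum _ fun i _ => i1 i,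
    ← Finset.sum_neg_distrib]
  refine Finset.sum_congr rfl fun i _ => ?_
  exact integral_mul_fderiv_eq_neg_fderiv_mul_of_integrable (i1 i) (i2 i) (i3 i)
    (fun x _ => IbpAux.diffAt hη x) (fun x _ => IbpAux.diffAt (Vg_smooth h h' i) x)

theorem xVg (lam mu : E → E →L[ℝ] ℝ) (x : E) :
    ∑ i, x i * Vg lam mu i x = (co mu 0 1 x + co mu 2 3 x) / 2 * lam x (J4 x) -
      1 / 2 * ∑ j, lam x (ev j) * dd mu x (J4 x) (J4 (ev j)) := by
  have hl : lam x (J4 x) = -x 1 * lam x (ev 0) + x 0 * lam x (ev 1) + -x 3 * lam x (ev 2) +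
      x 2 * lam x (ev 3) := by
    rw [J4_eq]
    simp only [map_add, map_smul, smul_eq_mul]
  have hdd : ∀ w, dd mu x (J4 x) w = -x 1 * dd mu x (ev 0) w + x 0 * dd mu x (ev 1) w +
      -x 3 * dd mu x (ev 2) w + x 2 * dd mu x (ev 3) w := by
    intro w
    unfold dd
    rw [J4_eq]
    simp only [map_add, map_smul, smul_eq_mul, FunLike.coe_add, FunLike.coe_smul, Pi.add_apply,
      Pi.smul_apply]
    ring
  have hneg : ∀ v w, dd mu x v (-w) = - dd mu x v w := by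
    intro v w
    unfold dd
    simp only [map_neg, FunLike.coe_neg, Pi.neg_apply]
    ring
  have hsk : ∀ i j, dd mu x (ev i) (ev j) = - dd mu x (ev j) (ev i) := by
    intro i j
    unfold dd
    ring
  have hd : ∀ i, dd mu x (ev i) (ev i) = 0 := by
    intro i
    unfold dd
    ring
  simp only [hl, Fin.sum_univ_four, J4_ev0, J4_ev1, J4_ev2, J4_ev3, hneg, hdd]
  simp only [Vg, Fin.sum_univ_four, ClosedAux.sx, Matrix.cons_val, ClosedAux.l1]
  unfold co
  rw [hsk 1 0, hsk 2 0, hsk 2 1, hsk 3 0, hsk 3 1, hsk 3 2, hd 0, hd 1, hd 2, hd 3]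
  ring

/-- The exterior derivative of a connection form is homogeneous. -/
theorem conn_bound {γ : W → W →L[ℝ] ℝ} (h : Conn γ) : ∃ C : ℝ, 0 ≤ C ∧
    ∀ z : W, z ≠ 0 → ∀ v w, |dd γ z v w| ≤ C * ‖v‖ * ‖w‖ / ‖z‖ ^ 2 := by
  obtain ⟨C2, h20, h2⟩ := BdBAux.sphere_bound (F := W →L[ℝ] (W →L[ℝ] ℝ)) (BdBAux.contFd h.smooth)
  refine ⟨2 * C2, by positivity, ?_⟩
  intro z hz v w
  obtain ⟨hc, hu, hv⟩ := BdBAux.unit_vec hz
  have hz' : 0 < ‖z‖ := norm_pos_iff.mpr hz
  rw [← h.dd_hom hc hz v w]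
  set c : ℂ := (((‖z‖⁻¹ : ℝ) : ℂ)) with hcdef
  have hA : ∀ a b : W, |fderiv ℝ γ (c • z) a b| ≤ C2 * ‖a‖ * ‖b‖ := by
    intro a b
    rw [← Real.norm_eq_abs]
    calc ‖fderiv ℝ γ (c • z) a b‖ ≤ ‖fderiv ℝ γ (c • z) a‖ * ‖b‖ :=
          ContinuousLinearMap.le_opNorm _ _
      _ ≤ (‖fderiv ℝ γ (c • z)‖ * ‖a‖) * ‖b‖ :=
          mul_le_mul_of_nonneg_right (ContinuousLinearMap.le_opNorm _ _) (norm_nonneg _)
      _ ≤ (C2 * ‖a‖) * ‖b‖ :=
          mul_le_mul_of_nonneg_right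
            (mul_le_mul_of_nonneg_right (h2 _ hu) (norm_nonneg _)) (norm_nonneg _)
  have h3 := hA (c • v) (c • w)
  have h4 := hA (c • w) (c • v)
  rw [hv v, hv w] at h3 h4
  have h5 : |dd γ (c • z) (c • v) (c • w)| ≤
      C2 * (‖v‖ / ‖z‖) * (‖w‖ / ‖z‖) + C2 * (‖w‖ / ‖z‖) * (‖v‖ / ‖z‖) := by
    unfold dd
    exact (abs_sub _ _).trans (add_le_add h3 h4)
  refine h5.trans (le_of_eq ?_)
  field_simp
  ring

theorem xV_bound2 {γ μ : W → W →L[ℝ] ℝ} (h : Basic γ) (hμ : Conn μ) {z u v : W} (hz : ON3 z u v)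
    {C : ℝ} (hC : 0 ≤ C) (h1 : ∀ z : W, z ≠ 0 → ∀ v, |γ z v| ≤ C * ‖v‖ / ‖z‖)
    (h2 : ∀ z : W, z ≠ 0 → ∀ v w, |dd μ z v w| ≤ C * ‖v‖ * ‖w‖ / ‖z‖ ^ 2) (x : E) :
    |∑ i, x i * Vg (ch γ z u v) (ch μ z u v) i x| ≤ 5 * C ^ 2 / ‖sig z u v x‖ ^ 3 := by
  set y : W := sig z u v x with hy
  have hy0 : y ≠ 0 := sig_ne hz x
  have hyn : 0 < ‖y‖ := norm_pos_iff.2 hy0
  obtain ⟨hz1, _, _⟩ := norm_le_one hz
  have hL : Lf u v x = y - z := by
    rw [hy, sig]
    abel
  have hLJ : Lf u v (J4 x) = Complex.I • y - Complex.I • z := by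
    rw [Lf_J4, hL, smul_sub]
  have hIz : ‖Complex.I • z‖ ≤ 1 := by
    rw [norm_smul, Complex.norm_I, one_mul]
    exact hz1
  -- the values
  have a1 : |ch γ z u v x (J4 x)| ≤ C / ‖y‖ := by
    have e1 : ch γ z u v x (J4 x) = -(γ y (Complex.I • z)) := by
      show γ y (Lf u v (J4 x)) = _
      rw [hLJ, map_sub, h.rot y hy0, zero_sub]
    rw [e1, abs_neg]
    refine (h1 y hy0 _).trans ?_
    gcongr
    exact mul_le_of_le_one_right hC hIz
  have a2 : ∀ b : E, |dd (ch μ z u v) x (J4 x) b| ≤ 2 * C * ‖b‖ / ‖y‖ ^ 2 := by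
    intro b
    have e1 : dd (ch μ z u v) x (J4 x) b = -(dd μ y (Complex.I • z) (Lf u v b)) := by
      rw [dd_ch hz hμ.smooth, hLJ, sub_eq_add_neg, ← hy, dd_add_left, hμ.dd_left hy0, zero_add]
      have e2 : -(Complex.I • z) = (-1 : ℝ) • (Complex.I • z) := by
        rw [neg_one_smul]
      rw [e2, dd_smul_left]
      ring
    rw [e1, abs_neg]
    refine (h2 y hy0 _ _).trans (div_le_div_of_nonneg_right ?_ (by positivity))
    calc C * ‖Complex.I • z‖ * ‖Lf u v b‖ ≤ C * 1 * (2 * ‖b‖) := by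
          gcongr
          exact Lf_norm hz b
      _ = 2 * C * ‖b‖ := by ring
  have a3 : ∀ j, |ch γ z u v x (ev j)| ≤ C / ‖y‖ := by
    intro j
    have e1 : ch γ z u v x (ev j) = γ y (fr u v j) := by
      show γ y (Lf u v (ev j)) = _
      rw [Lf_ev]
    rw [e1]
    refine (h1 y hy0 _).trans ?_
    gcongr
    exact mul_le_of_le_one_right hC (norm_fr hz j)
  have a4 : ∀ i j, |co (ch μ z u v) i j x| ≤ C / ‖y‖ ^ 2 := by
    intro i j
    rw [co_ch hz hμ.smooth]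
    refine (h2 y hy0 _ _).trans ?_
    gcongr
    calc C * ‖fr u v i‖ * ‖fr u v j‖ ≤ C * 1 * 1 := by
          gcongr
          · exact norm_fr hz i
          · exact norm_fr hz j
      _ = C := by ring
  rw [xVg]
  have b1 : |(co (ch μ z u v) 0 1 x + co (ch μ z u v) 2 3 x) / 2 * ch γ z u v x (J4 x)| ≤
      C / ‖y‖ ^ 2 * (C / ‖y‖) := by
    rw [abs_mul]
    refine mul_le_mul ?_ a1 (abs_nonneg _) (by positivity)
    rw [abs_div, abs_of_pos (by norm_num : (0 : ℝ) < 2), div_le_iff₀ (by norm_num)]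
    refine (abs_add_le _ _).trans ?_
    have := a4 0 1
    have := a4 2 3
    linarith
  have b2 : |∑ j, ch γ z u v x (ev j) * dd (ch μ z u v) x (J4 x) (J4 (ev j))| ≤
      4 * (C / ‖y‖ * (2 * C / ‖y‖ ^ 2)) := by
    refine (Finset.abs_sum_le_sum_abs _ _).trans ?_
    have e1 : ∀ j ∈ (Finset.univ : Finset (Fin 4)),
        |ch γ z u v x (ev j) * dd (ch μ z u v) x (J4 x) (J4 (ev j))| ≤
        C / ‖y‖ * (2 * C / ‖y‖ ^ 2) := by
      intro j _
      rw [abs_mul]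
      refine mul_le_mul (a3 j) ?_ (abs_nonneg _) (by positivity)
      refine (a2 _).trans (le_of_eq ?_)
      rw [norm_J4, norm_ev, mul_one]
    refine (Finset.sum_le_sum e1).trans (le_of_eq ?_)
    rw [Finset.sum_const, Finset.card_univ, Fintype.card_fin, nsmul_eq_mul]
    norm_num
  refine (abs_sub _ _).trans ?_
  have b3 : |1 / 2 * ∑ j, ch γ z u v x (ev j) * dd (ch μ z u v) x (J4 x) (J4 (ev j))| ≤
      1 / 2 * (4 * (C / ‖y‖ * (2 * C / ‖y‖ ^ 2))) := by
    rw [abs_mul, abs_of_pos (by norm_num : (0 : ℝ) < 1 / 2)]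
    exact mul_le_mul_of_nonneg_left b2 (by norm_num)
  refine (add_le_add b1 b3).trans (le_of_eq ?_)
  field_simp
  ring

/-- Linearity of the components of the exterior derivatives of charts. -/
theorem co_sub {α β : W → W →L[ℝ] ℝ} (hα : Conn α) (hβ : Conn β) {z u v : W} (hz : ON3 z u v)
    (i j : Fin 4) (x : E) : co (ch (fun w => α w - β w) z u v) i j x =
      co (ch α z u v) i j x - co (ch β z u v) i j x := by
  rw [co_ch hz (hα.sub hβ).smooth, co_ch hz hα.smooth, co_ch hz hβ.smooth,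
    dd_sub hα.smooth hβ.smooth (sig_ne hz x)]

theorem co_avg {α β : W → W →L[ℝ] ℝ} (hα : Conn α) (hβ : Conn β) {z u v : W} (hz : ON3 z u v)
    (i j : Fin 4) (x : E) :
    co (ch (fun w => (1 - (1 / 2 : ℝ)) • α w + (1 / 2 : ℝ) • β w) z u v) i j x =
      (co (ch α z u v) i j x + co (ch β z u v) i j x) / 2 := by
  rw [co_ch hz (hα.lin hβ (1 / 2)).smooth, co_ch hz hα.smooth, co_ch hz hβ.smooth,
    dd_lin hα.smooth hβ.smooth (1 / 2) (sig_ne hz x)]
  ring

end PfBAux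

open PfBAux Pool.Agent.Lib.Psd.PfIntAux

theorem pfint2 {α β : W → W →L[ℝ] ℝ} (hα : Conn α) (hβ : Conn β) {z u v : W} (hz : ON3 z u v) (ε : ℝ)
    (hε : 0 < ε) : ∃ R₀ : ℝ, 0 < R₀ ∧ ∀ R : ℝ, R₀ ≤ R →
      |∫ x, cutR R x * (Pf (fun i j => co (ch α z u v) i j x) - Pf (fun i j => co (ch β z u v) i j x))| ≤ ε := by
  obtain ⟨M, hM0, hM, hχ0, hχ1⟩ := chi_deriv
  have hγ := hα.sub hβ
  have hμ := hα.lin hβ (1 / 2)
  set γ : W → W →L[ℝ] ℝ := fun w => α w - β w with hγd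
  set μ : W → W →L[ℝ] ℝ := fun w => (1 - (1 / 2 : ℝ)) • α w + (1 / 2 : ℝ) • β w with hμd
  obtain ⟨C1, hC1, h1, _⟩ := hγ.bound
  obtain ⟨C2, hC2, h2⟩ := conn_bound hμ
  set C : ℝ := C1 + C2 with hCd
  have hC : 0 ≤ C := by positivity
  have h1' : ∀ z : W, z ≠ 0 → ∀ v, |γ z v| ≤ C * ‖v‖ / ‖z‖ := by
    intro z hz v
    refine (h1 z hz v).trans ?_
    gcongr
    linarith
  have h2' : ∀ z : W, z ≠ 0 → ∀ v w, |dd μ z v w| ≤ C * ‖v‖ * ‖w‖ / ‖z‖ ^ 2 := by
    intro z hz v w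
    refine (h2 z hz v w).trans ?_
    gcongr
    linarith
  set v₁ : ℝ := (volume : Measure E).real (closedBall (0 : E) 1) with hv
  have hv0 : 0 ≤ v₁ := ENNReal.toReal_nonneg
  set K : ℝ := 160 * M * C ^ 2 * 16 * v₁ with hK
  have hK0 : 0 ≤ K := by positivity
  refine ⟨max 1 (K / ε), lt_of_lt_of_le one_pos (le_max_left _ _), fun R hR => ?_⟩
  have hR1 : 1 ≤ R := (le_max_left _ _).trans hR
  have hR0 : 0 < R := lt_of_lt_of_le one_pos hR1
  have hRK : K / ε ≤ R := (le_max_right _ _).trans hR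
  have hPf : ∀ x, cutR R x * (Pf (fun i j => co (ch α z u v) i j x) -
      Pf (fun i j => co (ch β z u v) i j x)) =
      2 * (cutR R x * PP (fun i j => co (ch γ z u v) i j x) (fun i j => co (ch μ z u v) i j x)) := by
    intro x
    unfold Pf PP
    simp only [hγd, hμd, co_sub hα hβ hz, co_avg hα hβ hz]
    ring
  simp only [hPf]
  rw [integral_const_mul, ibp2 (ch_smooth hz hγ.smooth) (ch_smooth hz hμ.smooth) (contDiff_cutR R)
    (compact_cutR hR0), mul_neg, abs_neg, abs_mul, abs_of_pos (by norm_num : (0 : ℝ) < 2)]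
  set F : E → ℝ := fun x => ∑ i, pd i (cutR R) x * Vg (ch γ z u v) (ch μ z u v) i x with hF
  have hF0 : ∀ x, ‖x‖ < R ∨ 2 * R < ‖x‖ → F x = 0 := by
    intro x hx
    rw [hF]
    refine Finset.sum_eq_zero fun i _ => ?_
    rw [pd_zero (M := M) hR0 hχ0 hχ1 x hx, zero_mul]
  have hFb : ∀ x, |F x| ≤ 80 * M * C ^ 2 / R ^ 5 := by
    intro x
    by_cases hx : ‖x‖ < R
    · rw [hF0 x (Or.inl hx), abs_zero]
      positivity
    · have hx' : R ≤ ‖x‖ := not_lt.1 hx
      have e1 : F x = deriv Real.smoothTransition (2 - ‖x‖ ^ 2 / R ^ 2) * (-(2 / R ^ 2)) *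
          ∑ i, x i * Vg (ch γ z u v) (ch μ z u v) i x := by
        rw [hF, Finset.mul_sum]
        refine Finset.sum_congr rfl fun i _ => ?_
        rw [pd_cutR]
        ring
      have e2 := xV_bound2 hγ hμ hz hC h1' h2' x
      have hy : R ≤ 2 * ‖sig z u v x‖ := by
        have e3 := norm_sig_lower hz x
        have e4 : R ^ 2 ≤ ‖x‖ ^ 2 := pow_le_pow_left₀ hR0.le hx' 2
        have e5 : R ^ 2 ≤ (2 * ‖sig z u v x‖) ^ 2 := by nlinarith [norm_nonneg (sig z u v x)]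
        exact (sq_le_sq₀ hR0.le (by positivity)).1 e5
      have hyn : 0 < ‖sig z u v x‖ := by linarith
      have e6 : 5 * C ^ 2 / ‖sig z u v x‖ ^ 3 ≤ 40 * C ^ 2 / R ^ 3 := by
        rw [div_le_div_iff₀ (by positivity) (by positivity)]
        have e7 : R ^ 3 ≤ (2 * ‖sig z u v x‖) ^ 3 := pow_le_pow_left₀ hR0.le hy 3
        calc 5 * C ^ 2 * R ^ 3 ≤ 5 * C ^ 2 * (2 * ‖sig z u v x‖) ^ 3 := by gcongr
          _ = 40 * C ^ 2 * ‖sig z u v x‖ ^ 3 := by ring
      rw [e1, abs_mul, abs_mul, abs_neg, abs_of_pos (by positivity : 0 < 2 / R ^ 2)]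
      calc |deriv Real.smoothTransition (2 - ‖x‖ ^ 2 / R ^ 2)| * (2 / R ^ 2) *
            |∑ i, x i * Vg (ch γ z u v) (ch μ z u v) i x| ≤ M * (2 / R ^ 2) * (40 * C ^ 2 / R ^ 3) := by
            gcongr
            · exact hM _
            · exact e2.trans e6
        _ = 80 * M * C ^ 2 / R ^ 5 := by
            field_simp
            ring
  have hset : ∫ x, F x = ∫ x in closedBall (0 : E) (2 * R), F x := by
    symm
    refine setIntegral_eq_integral_of_forall_compl_eq_zero fun x hx => ?_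
    rw [mem_closedBall_zero_iff, not_le] at hx
    exact hF0 x (Or.inr hx)
  have hvol : (volume : Measure E).real (closedBall (0 : E) (2 * R)) = (2 * R) ^ 4 * v₁ := by
    have e1 := Measure.addHaar_closedBall' (volume : Measure E) (0 : E)
      (by positivity : (0 : ℝ) ≤ 2 * R)
    rw [Measure.real, e1, ENNReal.toReal_mul, ENNReal.toReal_ofReal (by positivity),
      finrank_euclideanSpace_fin]
    rfl
  have hmain : |∫ x, F x| ≤ 80 * M * C ^ 2 / R ^ 5 * ((2 * R) ^ 4 * v₁) := by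
    rw [hset, ← Real.norm_eq_abs, ← hvol]
    refine norm_setIntegral_le_of_norm_le_const measure_closedBall_lt_top fun x _ => ?_
    rw [Real.norm_eq_abs]
    exact hFb x
  have e1 : 2 * (80 * M * C ^ 2 / R ^ 5 * ((2 * R) ^ 4 * v₁)) = K / R := by
    rw [hK]
    field_simp
    ring
  calc 2 * |∫ x, F x| ≤ 2 * (80 * M * C ^ 2 / R ^ 5 * ((2 * R) ^ 4 * v₁)) :=
        mul_le_mul_of_nonneg_left hmain (by norm_num)
    _ = K / R := e1
    _ ≤ ε := by
        rw [div_le_iff₀ hR0, mul_comm]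
        rwa [div_le_iff₀ hε] at hRK

end Pool.Agent.Lib.Qcd
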