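import Pool.Agent.Lib.Qcd.MkM
import Pool.Agent.Lib.Qcd.GDefB
import Pool.Agent.Lib.Qcd.Ball

set_option autoImplicit false

/-!
# The derivative of a lift at a point of a small ball

PROOF. `M` from `exists_M` (`y = Φ z`). Let `x ∈ closedBall z ρ`, `κ = hp z x`, `‖κ - 1‖ ≤ 2 ρ ≤ 1/8`, `y = yc z u v x`, `‖y‖ ≤ 4 ρ` (`ball_hp`), `x = κ • sig z u v y` (`sig_yc`). For `ζ ∈ W` let `ζ' = κ⁻¹ • ζ`, `a = hp z ζ'` and `w ∈ E` with `ζ' = a • sig z u v y + Lf u v w` (`Lf w = ζ' - a z - a Lf y`, orthogonal to `z`), `|w| ≤ C ‖ζ‖`. `fderiv ℝ Φ x ζ = κ • fderiv ℝ Φ (sig y) ζ'`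
(`fderiv_lift_hom`) `= κ • (a λ • H + Dλ w • H + λ • ξ_w)` (`fderiv_lift_self`, `Phi_eq`, `Phi_fderiv`), `H = Φ z + g`, `g = ∑ Gc_a fr p q a`, `ξ_w = ∑_a (∑_i w_i DG i a) fr p q a`. `M ζ = hp z ζ • Φ z + c(t)`, `c(t) = ∑_a (∑_i t_i c (i, a)) fr p q a`, `t` the coordinates of `ζ - hp z ζ • z`; `κ a = hp z ζ`, `|w - t| ≤ C ρ ‖ζ‖`. So `fderiv ℝ Φ x ζ - M ζ = α • Φ z + (vector b of span (p, q))`,
`α = κ a (λ - 1) + κ Dλ w`, `b = κ (a λ + Dλ w) g + κ λ ξ_w - c(t)`, `|b| ≤ C (1 + |Dλ|) s ‖ζ‖ + C |DG - c| ‖ζ‖ + |κ λ - 1| 4 ‖c‖ C ‖ζ‖ + 4 ‖c‖ C ρ ‖ζ‖` (write `ξ_w = c(w) + (DG - c)(w)`; `s = √(∑ Gc²)`, `|DG - c| = √(∑_k ..)`, `|λ| ≤ 3/2`). By the second property of `M` with `B = |DG - c| / ‖c‖`, `β = s (‖c‖ + 1/‖c‖) ≤ 1`: `‖M⁻¹ (fderiv ℝ Φ x ζ - M ζ)‖ ≤ C ‖ζ‖ (‖λ - 1‖ + |Dλ| + β (1 + |Dλ|) + B + ρ)`.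
`|Dλ|` (operator norm): `lamG_fderiv`, `√(nrm2 (DG)) ≤ |DG - c| + 4 ‖c‖`, so `s √(nrm2 DG) ≤ β (B + 4)`; `|pl Φ (sig y) (Lf w) - a0 (sig y) (Lf w)| ≤ 2 δ ‖w‖` (homogeneity of `pl Φ` and `a0` (`pl_conn`, `a0_conn`): divide by `√(nsq (sig y)) ≥ 1`; `‖Lf w‖ ≤ 2 ‖w‖`): `|Dλ| ≤ C (ρ + δ + β + B)`. As `β ≤ 1`, `δ ≤ 1` and `|Dλ| β ≤ |Dλ|`: total at most `C (ρ + ‖λ - 1‖ + δ + β + B) ‖ζ‖`.
-/

open MeasureTheory Set Metric
open scoped ContDiff ENNReal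

namespace Pool.Agent.Lib.Qcd

open Pool.Agent.P28b04d Pool.Agent.Lib.Psd

namespace PtGAux

theorem frsum (p q : W) (b : Fin 4 → ℝ) : ∑ a, b a • fr p q a =
    ((b 0 : ℂ) + b 1 * Complex.I) • p + ((b 2 : ℂ) + b 3 * Complex.I) • q := by
  rw [Fin.sum_univ_four]
  funext k
  simp [fr]
  ring

theorem Lf_cx (u v : W) (y : E) : Lf u v y =
    ((y 0 : ℂ) + y 1 * Complex.I) • u + ((y 2 : ℂ) + y 3 * Complex.I) • v := by
  rw [Lf_apply]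
  exact frsum u v (fun i => y i)

/-- complex coordinates -/
noncomputable def ee (a b : Fin 4) (T : Fin 4 → Fin 4 → ℝ) (w : Fin 4 → ℝ) : ℂ :=
  ∑ i, (w i : ℂ) * ((T i a : ℂ) + T i b * Complex.I)

theorem e_sum (p q : W) (T : Fin 4 → Fin 4 → ℝ) (w : Fin 4 → ℝ) :
    ∑ a, (∑ i, w i * T i a) • fr p q a = ee 0 1 T w • p + ee 2 3 T w • q := by
  rw [frsum]
  have h : ∀ a b : Fin 4, (((∑ i, w i * T i a : ℝ) : ℂ) + ((∑ i, w i * T i b : ℝ) : ℂ) * Complex.I) =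
      ee a b T w := by
    intro a b
    rw [ee]
    push_cast
    rw [Finset.sum_mul, ← Finset.sum_add_distrib]
    refine Finset.sum_congr rfl fun i _ => ?_
    ring
  rw [h, h]

theorem ee_le (a b : Fin 4) {T : Fin 4 → Fin 4 → ℝ} {w : Fin 4 → ℝ} {R S : ℝ}
    (hR : ∀ i, |w i| ≤ R) (hS : ∀ i a, |T i a| ≤ S) : ‖ee a b T w‖ ≤ 8 * (R * S) := by
  have hR0 : 0 ≤ R := (abs_nonneg _).trans (hR 0)
  have h1 : ∀ i, ‖(w i : ℂ) * ((T i a : ℂ) + T i b * Complex.I)‖ ≤ R * (S + S) := by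
    intro i
    rw [norm_mul, Complex.norm_real, Real.norm_eq_abs]
    refine mul_le_mul (hR i) ?_ (norm_nonneg _) hR0
    refine (norm_add_le _ _).trans (add_le_add ?_ ?_)
    · rw [Complex.norm_real, Real.norm_eq_abs]
      exact hS i a
    · rw [norm_mul, Complex.norm_I, mul_one, Complex.norm_real, Real.norm_eq_abs]
      exact hS i b
  calc ‖ee a b T w‖ ≤ ∑ i : Fin 4, ‖(w i : ℂ) * ((T i a : ℂ) + T i b * Complex.I)‖ :=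
        norm_sum_le _ _
    _ ≤ ∑ _i : Fin 4, R * (S + S) := Finset.sum_le_sum fun i _ => h1 i
    _ = 8 * (R * S) := by
      rw [Finset.sum_const, Finset.card_univ, Fintype.card_fin, nsmul_eq_mul]
      push_cast
      ring

theorem ee_id (a b : Fin 4) (T T' : Fin 4 → Fin 4 → ℝ) (w t : Fin 4 → ℝ) (k : ℂ) :
    k * ee a b T w - ee a b T' t = k * ee a b (fun i j => T i j - T' i j) w +
      (k - 1) * ee a b T' w + ee a b T' (fun i => w i - t i) := by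
  have h1 : ee a b (fun i j => T i j - T' i j) w = ee a b T w - ee a b T' w := by
    simp only [ee]
    rw [← Finset.sum_sub_distrib]
    refine Finset.sum_congr rfl fun i _ => ?_
    push_cast
    ring
  have h2 : ee a b T' (fun i => w i - t i) = ee a b T' w - ee a b T' t := by
    simp only [ee]
    rw [← Finset.sum_sub_distrib]
    refine Finset.sum_congr rfl fun i _ => ?_
    push_cast
    ring
  rw [h1, h2]
  ring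

theorem hp_le {a : W} (ha : ‖a‖ ≤ 1) (x : W) : ‖hp a x‖ ≤ 3 * ‖x‖ := by
  have h1 : ∀ k, ‖star (a k) * x k‖ ≤ ‖x‖ := by
    intro k
    rw [norm_mul, norm_star]
    have e1 := (norm_le_pi_norm a k).trans ha
    have e2 := norm_le_pi_norm x k
    have e3 := norm_nonneg (x k)
    calc ‖a k‖ * ‖x k‖ ≤ 1 * ‖x k‖ := mul_le_mul_of_nonneg_right e1 e3
      _ = ‖x k‖ := one_mul _
      _ ≤ ‖x‖ := e2
  calc ‖hp a x‖ ≤ ∑ k : Fin 3, ‖star (a k) * x k‖ := norm_sum_le _ _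
    _ ≤ ∑ _k : Fin 3, ‖x‖ := Finset.sum_le_sum fun k _ => h1 k
    _ = 3 * ‖x‖ := by
      rw [Finset.sum_const, Finset.card_univ, Fintype.card_fin, nsmul_eq_mul]
      push_cast
      ring

/-- the inverse matrix in complex coordinates -/
theorem inv_le {y p q : W} {cn : ℝ} (hcn : 0 < cn) {N : W →L[ℝ] W}
    (hN : ∀ (α : ℂ) (b : Fin 4 → ℝ),
      ‖N (α • y + ∑ a, b a • fr p q a)‖ ≤ ‖α‖ + 4 / cn * Real.sqrt (∑ a, b a ^ 2)) (α b1 b2 : ℂ) :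
    ‖N (α • y + (b1 • p + b2 • q))‖ ≤ ‖α‖ + 4 / cn * (‖b1‖ + ‖b2‖) := by
  have h := hN α ![b1.re, b1.im, b2.re, b2.im]
  have e : ∑ a, (![b1.re, b1.im, b2.re, b2.im] : Fin 4 → ℝ) a • fr p q a = b1 • p + b2 • q := by
    rw [frsum]
    have e1 : (((![b1.re, b1.im, b2.re, b2.im] : Fin 4 → ℝ) 0 : ℝ) : ℂ) +
        (((![b1.re, b1.im, b2.re, b2.im] : Fin 4 → ℝ) 1 : ℝ) : ℂ) * Complex.I = b1 :=
      Complex.re_add_im b1
    have e2 : (((![b1.re, b1.im, b2.re, b2.im] : Fin 4 → ℝ) 2 : ℝ) : ℂ) +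
        (((![b1.re, b1.im, b2.re, b2.im] : Fin 4 → ℝ) 3 : ℝ) : ℂ) * Complex.I = b2 :=
      Complex.re_add_im b2
    rw [e1, e2]
  rw [e] at h
  refine h.trans ?_
  have h1 : Real.sqrt (∑ a, (![b1.re, b1.im, b2.re, b2.im] : Fin 4 → ℝ) a ^ 2) ≤ ‖b1‖ + ‖b2‖ := by
    refine Real.sqrt_le_iff.mpr ⟨by positivity, ?_⟩
    have e1 : ∑ a, (![b1.re, b1.im, b2.re, b2.im] : Fin 4 → ℝ) a ^ 2 = ‖b1‖ ^ 2 + ‖b2‖ ^ 2 := by
      rw [Fin.sum_univ_four, ← Complex.normSq_eq_norm_sq, ← Complex.normSq_eq_norm_sq,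
        Complex.normSq_apply, Complex.normSq_apply]
      simp
      ring
    rw [e1]
    have := mul_nonneg (norm_nonneg b1) (norm_nonneg b2)
    nlinarith
  have h2 : 0 ≤ 4 / cn := by positivity
  have h3 := mul_le_mul_of_nonneg_left h1 h2
  linarith

/-- norm of a pair of coordinates -/
theorem pair_le (x : Fin 4 → ℝ) {s : ℝ} (hs : 0 ≤ s) (h : ∑ a, x a ^ 2 ≤ s ^ 2) :
    ‖(x 0 : ℂ) + x 1 * Complex.I‖ ≤ s ∧ ‖(x 2 : ℂ) + x 3 * Complex.I‖ ≤ s := by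
  rw [Fin.sum_univ_four] at h
  constructor
  · refine le_of_sq_le_sq ?_ hs
    rw [← Complex.normSq_eq_norm_sq, Complex.normSq_add_mul_I]
    nlinarith [sq_nonneg (x 2), sq_nonneg (x 3)]
  · refine le_of_sq_le_sq ?_ hs
    rw [← Complex.normSq_eq_norm_sq, Complex.normSq_add_mul_I]
    nlinarith [sq_nonneg (x 0), sq_nonneg (x 1)]

/-- the distance of `pl Φ` and `a0` at an arbitrary point of the chart -/
theorem pl_a0 {Φ : W → W} (hΦ : NL Φ) {δ : ℝ} (hδ0 : 0 ≤ δ)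
    (hpl : ∀ z v : W, nsq z = 1 → |pl Φ z v - a0 z v| ≤ δ * ‖v‖) {z u v : W} (h : ON3 z u v)
    (Y : E) (V : W) : |pl Φ (sig z u v Y) V - a0 (sig z u v Y) V| ≤ δ * ‖V‖ := by
  have hn : nsq (sig z u v Y) = 1 + ‖Y‖ ^ 2 := nsq_sig h Y
  have hn0 : 0 ≤ nsq (sig z u v Y) := by rw [hn]; positivity
  obtain ⟨r, hr⟩ : ∃ r, r = Real.sqrt (nsq (sig z u v Y)) := ⟨_, rfl⟩
  have hr1 : 1 ≤ r := by
    rw [hr, hn]
    refine Real.le_sqrt_of_sq_le ?_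
    nlinarith [sq_nonneg ‖Y‖]
  have hr0 : 0 < r := by linarith
  have hrr : r * r = nsq (sig z u v Y) := by rw [hr]; exact Real.mul_self_sqrt hn0
  have hrc : (r : ℂ) ≠ 0 := by exact_mod_cast hr0.ne'
  obtain ⟨σ, hσ⟩ : ∃ σ, σ = ((r : ℂ)⁻¹) • sig z u v Y := ⟨_, rfl⟩
  have hσ1 : nsq σ = 1 := by
    rw [hσ, nsq_smul, ← hrr, map_inv₀, Complex.normSq_ofReal]
    field_simp
  have hσ0 : σ ≠ 0 := by
    intro h0
    rw [h0] at hσ1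
    simp [nsq] at hσ1
  have e1 : sig z u v Y = (r : ℂ) • σ := by
    rw [hσ, smul_smul, mul_inv_cancel₀ hrc, one_smul]
  have e2 : V = (r : ℂ) • (((r : ℂ)⁻¹) • V) := by
    rw [smul_smul, mul_inv_cancel₀ hrc, one_smul]
  have e3 : pl Φ (sig z u v Y) V = pl Φ σ (((r : ℂ)⁻¹) • V) := by
    conv_lhs => rw [e1, e2]
    exact (pl_conn hΦ.loc).hom _ hrc σ hσ0 _
  have e4 : a0 (sig z u v Y) V = a0 σ (((r : ℂ)⁻¹) • V) := by
    conv_lhs => rw [e1, e2]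
    exact a0_conn.hom _ hrc σ hσ0 _
  rw [e3, e4]
  refine (hpl σ _ hσ1).trans ?_
  refine mul_le_mul_of_nonneg_left ?_ hδ0
  rw [norm_smul, norm_inv, Complex.norm_real, Real.norm_eq_abs, abs_of_pos hr0]
  have h5 : r⁻¹ ≤ 1 := inv_le_one_of_one_le₀ hr1
  calc r⁻¹ * ‖V‖ ≤ 1 * ‖V‖ := mul_le_mul_of_nonneg_right h5 (norm_nonneg _)
    _ = ‖V‖ := one_mul _

/-- the size of the matrix of derivatives -/
theorem nrm_le (T : Fin 4 → Fin 4 → ℝ) (c : Fin 4 × Fin 4 → ℝ) :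
    Real.sqrt (nrm2 T) ≤ 2 * Real.sqrt (∑ k : Fin 4 × Fin 4, (T k.1 k.2 - c k) ^ 2) + 6 * ‖c‖ := by
  have hF0 : 0 ≤ ∑ k : Fin 4 × Fin 4, (T k.1 k.2 - c k) ^ 2 := Finset.sum_nonneg fun _ _ => sq_nonneg _
  refine Real.sqrt_le_iff.mpr ⟨by positivity, ?_⟩
  have h1 : nrm2 T = ∑ k : Fin 4 × Fin 4, T k.1 k.2 ^ 2 := by
    rw [Fintype.sum_prod_type]
    rfl
  have h2 : ∀ k : Fin 4 × Fin 4, T k.1 k.2 ^ 2 ≤ 2 * (T k.1 k.2 - c k) ^ 2 + 2 * ‖c‖ ^ 2 := by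
    intro k
    have h3 : |c k| ≤ ‖c‖ := norm_le_pi_norm c k
    have h4 : c k ^ 2 ≤ ‖c‖ ^ 2 := by
      rw [← sq_abs]
      exact pow_le_pow_left₀ (abs_nonneg _) h3 2
    nlinarith [sq_nonneg (T k.1 k.2 - 2 * c k)]
  have h3 : nrm2 T ≤ 2 * (∑ k : Fin 4 × Fin 4, (T k.1 k.2 - c k) ^ 2) + 32 * ‖c‖ ^ 2 := by
    rw [h1]
    calc ∑ k : Fin 4 × Fin 4, T k.1 k.2 ^ 2
        ≤ ∑ k : Fin 4 × Fin 4, (2 * (T k.1 k.2 - c k) ^ 2 + 2 * ‖c‖ ^ 2) :=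
          Finset.sum_le_sum fun k _ => h2 k
      _ = _ := by
        rw [Finset.sum_add_distrib, ← Finset.mul_sum, Finset.sum_const, Finset.card_univ,
          Fintype.card_prod, Fintype.card_fin, nsmul_eq_mul]
        push_cast
        ring
  have h4 := Real.sq_sqrt hF0
  have h5 := Real.sqrt_nonneg (∑ k : Fin 4 × Fin 4, (T k.1 k.2 - c k) ^ 2)
  have h6 := norm_nonneg c
  have h7 := mul_nonneg h5 h6
  nlinarith

theorem comp_le (a b : Fin 4) {D c' : Fin 4 → Fin 4 → ℝ} {w t : Fin 4 → ℝ} {m κ l dl γ : ℂ}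
    {Z ρ δ β B cn s F Θ : ℝ} (hZ : 0 ≤ Z) (hρ : 0 ≤ ρ) (hδ : 0 ≤ δ) (hB : 0 ≤ B)
    (hΘ : Θ = ρ + ‖l - 1‖ + δ + β + B) (hw : ∀ i, |w i| ≤ 8 * Z)
    (hwt : ∀ i, |w i - t i| ≤ 36 * ρ * Z) (hD : ∀ i a, |D i a - c' i a| ≤ F)
    (hc : ∀ i a, |c' i a| ≤ cn) (hcn : 0 < cn) (hm : ‖m‖ ≤ 3 * Z) (hκ : ‖κ‖ ≤ 2)
    (hκ1 : ‖κ - 1‖ ≤ 2 * ρ) (hl : ‖l‖ ≤ 3 / 2) (hdl : ‖dl‖ ≤ 216 * Z * Θ) (hγ : ‖γ‖ ≤ s)
    (hs : s / cn ≤ β) (hβ : β ≤ 1) (hFB : F / cn = B) :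
    4 / cn * ‖(m * l + κ * dl) * γ + (κ * l * ee a b D w - ee a b c' t)‖ ≤ 4434 * (Z * Θ) := by
  have hs0 : 0 ≤ s := (norm_nonneg _).trans hγ
  obtain ⟨s', hs'⟩ : ∃ s', s' = s / cn := ⟨_, rfl⟩
  have hs'0 : 0 ≤ s' := by rw [hs']; positivity
  have hse : s = s' * cn := by rw [hs']; field_simp
  have hFe : F = B * cn := by rw [← hFB]; field_simp
  rw [← hs'] at hs
  have hβ0 : 0 ≤ β := hs'0.trans hs
  have hl10 := norm_nonneg (l - 1)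
  have hΘ0 : 0 ≤ Θ := by rw [hΘ]; positivity
  have hF0 : 0 ≤ F := (abs_nonneg _).trans (hD 0 0)
  have n1 : ‖(m * l + κ * dl) * γ‖ ≤ (3 * Z * (3 / 2) + 2 * (216 * Z * Θ)) * (s' * cn) := by
    rw [norm_mul, ← hse]
    refine mul_le_mul ?_ hγ (norm_nonneg _) (by positivity)
    refine (norm_add_le _ _).trans (add_le_add ?_ ?_)
    · rw [norm_mul]
      exact mul_le_mul hm hl (norm_nonneg _) (by positivity)
    · rw [norm_mul]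
      exact mul_le_mul hκ hdl (norm_nonneg _) (by norm_num)
  have n2 : ‖κ * l * ee a b (fun i j => D i j - c' i j) w‖ ≤ 3 * (8 * (8 * Z * (B * cn))) := by
    rw [norm_mul, ← hFe]
    refine mul_le_mul ?_ (ee_le a b hw hD) (norm_nonneg _) (by norm_num)
    rw [norm_mul]
    calc ‖κ‖ * ‖l‖ ≤ 2 * (3 / 2) := mul_le_mul hκ hl (norm_nonneg _) (by norm_num)
      _ = 3 := by norm_num
  have n3 : ‖(κ * l - 1) * ee a b c' w‖ ≤ (3 * ρ + ‖l - 1‖) * (8 * (8 * Z * cn)) := by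
    rw [norm_mul]
    refine mul_le_mul ?_ (ee_le a b hw hc) (norm_nonneg _) (by positivity)
    have e : κ * l - 1 = (κ - 1) * l + (l - 1) := by ring
    rw [e]
    refine (norm_add_le _ _).trans (add_le_add ?_ le_rfl)
    rw [norm_mul]
    calc ‖κ - 1‖ * ‖l‖ ≤ 2 * ρ * (3 / 2) := mul_le_mul hκ1 hl (norm_nonneg _) (by positivity)
      _ = 3 * ρ := by ring
  have n4 : ‖ee a b c' (fun i => w i - t i)‖ ≤ 8 * (36 * ρ * Z * cn) := ee_le a b hwt hc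
  have hsum : ‖(m * l + κ * dl) * γ + (κ * l * ee a b D w - ee a b c' t)‖ ≤
      ((3 * Z * (3 / 2) + 2 * (216 * Z * Θ)) * s' + 3 * (8 * (8 * Z * B)) +
        (3 * ρ + ‖l - 1‖) * (8 * (8 * Z)) + 8 * (36 * ρ * Z)) * cn := by
    rw [ee_id]
    have e1 := norm_add_le ((m * l + κ * dl) * γ)
      (κ * l * ee a b (fun i j => D i j - c' i j) w + (κ * l - 1) * ee a b c' w +
        ee a b c' (fun i => w i - t i))
    have e2 := norm_add_le (κ * l * ee a b (fun i j => D i j - c' i j) w +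
      (κ * l - 1) * ee a b c' w) (ee a b c' (fun i => w i - t i))
    have e3 := norm_add_le (κ * l * ee a b (fun i j => D i j - c' i j) w)
      ((κ * l - 1) * ee a b c' w)
    have e4 : ((3 * Z * (3 / 2) + 2 * (216 * Z * Θ)) * s' + 3 * (8 * (8 * Z * B)) +
        (3 * ρ + ‖l - 1‖) * (8 * (8 * Z)) + 8 * (36 * ρ * Z)) * cn =
        (3 * Z * (3 / 2) + 2 * (216 * Z * Θ)) * (s' * cn) + 3 * (8 * (8 * Z * (B * cn))) +
        (3 * ρ + ‖l - 1‖) * (8 * (8 * Z * cn)) + 8 * (36 * ρ * Z * cn) := by ring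
    rw [e4]
    linarith
  have h4 : 0 ≤ 4 / cn := by positivity
  refine (mul_le_mul_of_nonneg_left hsum h4).trans ?_
  have e5 : 4 / cn * (((3 * Z * (3 / 2) + 2 * (216 * Z * Θ)) * s' + 3 * (8 * (8 * Z * B)) +
        (3 * ρ + ‖l - 1‖) * (8 * (8 * Z)) + 8 * (36 * ρ * Z)) * cn) =
      4 * ((3 * Z * (3 / 2) + 2 * (216 * Z * Θ)) * s' + 3 * (8 * (8 * Z * B)) +
        (3 * ρ + ‖l - 1‖) * (8 * (8 * Z)) + 8 * (36 * ρ * Z)) := by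
    field_simp
  rw [e5]
  have f1 : Z * s' ≤ Z * Θ := mul_le_mul_of_nonneg_left (by rw [hΘ]; linarith) hZ
  have f2 : Z * Θ * s' ≤ Z * Θ := by
    have : s' ≤ 1 := hs.trans hβ
    calc Z * Θ * s' ≤ Z * Θ * 1 := mul_le_mul_of_nonneg_left this (by positivity)
      _ = Z * Θ := mul_one _
  have f3 : Z * B + (Z * ρ + Z * ‖l - 1‖) ≤ Z * Θ := by
    have : B + (ρ + ‖l - 1‖) ≤ Θ := by rw [hΘ]; linarith
    have := mul_le_mul_of_nonneg_left this hZ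
    linarith
  have g1 : 0 ≤ Z * B := by positivity
  have g2 : 0 ≤ Z * ρ := by positivity
  have g3 : 0 ≤ Z * ‖l - 1‖ := by positivity
  have g4 : 0 ≤ Z * Θ := by positivity
  nlinarith

end PtGAux

open PtGAux

theorem ptG : ∃ C : ℝ, 1 ≤ C ∧ ∀ Φ : W → W, NL Φ → ∀ δ : ℝ, 0 ≤ δ → δ ≤ 1 →
    (∀ z v : W, nsq z = 1 → |pl Φ z v - a0 z v| ≤ δ * ‖v‖) →
    ∀ z u v p q : W, ON3 z u v → ON3 (Φ z) p q → ∀ c : Fin 4 × Fin 4 → ℝ, c ≠ 0 →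
      (∀ w : Fin 4 → ℝ, (‖c‖ / 4) ^ 2 * ∑ i, w i ^ 2 ≤ ∑ a, (∑ i, w i * c (i, a)) ^ 2) →
      ∃ M : (W →L[ℝ] W)ˣ, ∀ (ρ : ℝ) (x : W), ρ ≤ 1 / 16 → x ∈ closedBall z ρ →
        ‖lamG Φ z u v (yc z u v x) - 1‖ ≤ 1 / 2 →
        Real.sqrt (∑ a, Gc Φ z u v p q (yc z u v x) a ^ 2) * (‖c‖ + 1 / ‖c‖) ≤ 1 →
        ‖(↑M⁻¹ : W →L[ℝ] W) * fderiv ℝ Φ x - 1‖ ≤ C * (ρ + ‖lamG Φ z u v (yc z u v x) - 1‖ + δ +
          Real.sqrt (∑ a, Gc Φ z u v p q (yc z u v x) a ^ 2) * (‖c‖ + 1 / ‖c‖) +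
          Real.sqrt (∑ k : Fin 4 × Fin 4, (DG Φ z u v p q (yc z u v x) k.1 k.2 - c k) ^ 2) / ‖c‖) := by
  refine ⟨20000, by norm_num, fun Φ hΦ δ hδ0 hδ1 hpl z u v p q h h' c hc hl => ?_⟩
  obtain ⟨M, hM1, hM2⟩ := exists_M h h' hc hl
  refine ⟨M, fun ρ x hρ hx hlam hβ => ?_⟩
  have hρ0 : 0 ≤ ρ := dist_nonneg.trans (mem_closedBall.mp hx)
  obtain ⟨hκ1, hY⟩ := ball_hp h (show ρ ≤ 1 / 4 by linarith) hx
  have hcn : 0 < ‖c‖ := norm_pos_iff.mpr hc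
  have hsy := sig_yc h (x := x)
  obtain ⟨κ, hκ⟩ : ∃ κ, κ = hp z x := ⟨_, rfl⟩
  obtain ⟨Y, hYd⟩ : ∃ Y, Y = yc z u v x := ⟨_, rfl⟩
  obtain ⟨l, hld⟩ : ∃ l, l = lamG Φ z u v Y := ⟨_, rfl⟩
  obtain ⟨s, hsd⟩ : ∃ s, s = Real.sqrt (∑ a, Gc Φ z u v p q Y a ^ 2) := ⟨_, rfl⟩
  obtain ⟨F, hFd⟩ : ∃ F, F = Real.sqrt (∑ k : Fin 4 × Fin 4, (DG Φ z u v p q Y k.1 k.2 - c k) ^ 2) :=
    ⟨_, rfl⟩
  obtain ⟨cn, hcnd⟩ : ∃ cn, cn = ‖c‖ := ⟨_, rfl⟩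
  obtain ⟨β, hβd⟩ : ∃ β, β = s * (cn + 1 / cn) := ⟨_, rfl⟩
  obtain ⟨B, hBd⟩ : ∃ B, B = F / cn := ⟨_, rfl⟩
  have hnrm := nrm_le (DG Φ z u v p q Y) c
  rw [← hκ] at hκ1 hsy
  rw [← hYd] at hY hsy hlam hβ ⊢
  rw [← hsd, ← hcnd, ← hβd] at hβ
  rw [← hld] at hlam ⊢
  rw [← hsd, ← hcnd, ← hβd, ← hFd, ← hBd]
  rw [← hFd, ← hcnd] at hnrm
  rw [← hcnd] at hcn hM2
  -- elementary facts
  have hl0 : lamG Φ z u v Y ≠ 0 := by
    rw [← hld]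
    intro h0
    rw [h0] at hlam
    norm_num at hlam
  have hl32 : ‖l‖ ≤ 3 / 2 := by
    have e : l = (l - 1) + 1 := by ring
    rw [e]
    refine (norm_add_le _ _).trans ?_
    rw [norm_one]
    linarith
  have hκ2 : ‖κ‖ ≤ 2 := by
    have e : κ = (κ - 1) + 1 := by ring
    rw [e]
    refine (norm_add_le _ _).trans ?_
    rw [norm_one]
    linarith
  have hκl : 7 / 8 ≤ ‖κ‖ := by
    have h1 := norm_sub_norm_le (1 : ℂ) (1 - κ)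
    rw [norm_one, norm_sub_rev, sub_sub_cancel] at h1
    linarith
  have hκ0 : κ ≠ 0 := by
    intro h0
    rw [h0, norm_zero] at hκl
    norm_num at hκl
  have hκp : 0 < ‖κ‖ := norm_pos_iff.mpr hκ0
  have hκi : ‖κ⁻¹‖ ≤ 2 := by
    rw [norm_inv, inv_le_comm₀ hκp (by norm_num)]
    linarith
  have hκi1 : ‖κ⁻¹ - 1‖ ≤ 4 * ρ := by
    have e : κ⁻¹ - 1 = κ⁻¹ * (1 - κ) := by
      rw [mul_sub, mul_one, inv_mul_cancel₀ hκ0]
    rw [e, norm_mul, norm_sub_rev 1 κ]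
    calc ‖κ⁻¹‖ * ‖κ - 1‖ ≤ 2 * (2 * ρ) := mul_le_mul hκi hκ1 (norm_nonneg _) (by norm_num)
      _ = 4 * ρ := by ring
  have hs0 : 0 ≤ s := by rw [hsd]; exact Real.sqrt_nonneg _
  have hF0 : 0 ≤ F := by rw [hFd]; exact Real.sqrt_nonneg _
  have hB0 : 0 ≤ B := by rw [hBd]; positivity
  have hscn : s * cn ≤ β := by
    rw [hβd, mul_add]
    have : 0 ≤ s * (1 / cn) := by positivity
    linarith
  have hsdc : s / cn ≤ β := by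
    rw [hβd, mul_add]
    have h1 : 0 ≤ s * cn := by positivity
    have h2 : s / cn = s * (1 / cn) := by rw [mul_one_div]
    linarith
  have hβ0 : 0 ≤ β := le_trans (by positivity) hscn
  obtain ⟨Θ, hΘ⟩ : ∃ Θ, Θ = ρ + ‖l - 1‖ + δ + β + B := ⟨_, rfl⟩
  rw [← hΘ]
  have hΘ0 : 0 ≤ Θ := by rw [hΘ]; positivity
  refine ContinuousLinearMap.opNorm_le_bound _ (by positivity) fun ζ => ?_
  obtain ⟨Z, hZ⟩ : ∃ Z, Z = ‖ζ‖ := ⟨_, rfl⟩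
  have hZ0 : 0 ≤ Z := by rw [hZ]; exact norm_nonneg _
  rw [← hZ]
  -- coordinates
  obtain ⟨hz1, hu1, hv1⟩ := norm_le_one h
  obtain ⟨m, hmd⟩ : ∃ m, m = hp z ζ := ⟨_, rfl⟩
  obtain ⟨U, hUd⟩ : ∃ U, U = hp u ζ := ⟨_, rfl⟩
  obtain ⟨V, hVd⟩ : ∃ V, V = hp v ζ := ⟨_, rfl⟩
  have hm : ‖m‖ ≤ 3 * Z := by rw [hmd, hZ]; exact hp_le hz1 ζ
  have hU : ‖U‖ ≤ 3 * Z := by rw [hUd, hZ]; exact hp_le hu1 ζ
  have hV : ‖V‖ ≤ 3 * Z := by rw [hVd, hZ]; exact hp_le hv1 ζ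
  have hbas : ζ = m • z + U • u + V • v := by rw [hmd, hUd, hVd]; exact basis_eq h ζ
  obtain ⟨y1, hy1⟩ : ∃ y1 : ℂ, y1 = (Y 0 : ℂ) + Y 1 * Complex.I := ⟨_, rfl⟩
  obtain ⟨y2, hy2⟩ : ∃ y2 : ℂ, y2 = (Y 2 : ℂ) + Y 3 * Complex.I := ⟨_, rfl⟩
  have hYsq : ∑ a, (fun a => Y a) a ^ 2 ≤ (4 * ρ) ^ 2 := by
    have e : ∑ a, (fun a => Y a) a ^ 2 = ‖Y‖ ^ 2 := by
      rw [EuclideanSpace.norm_sq_eq]
      refine Finset.sum_congr rfl fun a _ => ?_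
      rw [Real.norm_eq_abs, sq_abs]
    rw [e]
    exact pow_le_pow_left₀ (norm_nonneg _) hY 2
  obtain ⟨hy1n, hy2n⟩ := pair_le (fun a => Y a) (show 0 ≤ 4 * ρ by positivity) hYsq
  change ‖(Y 0 : ℂ) + Y 1 * Complex.I‖ ≤ 4 * ρ at hy1n
  change ‖(Y 2 : ℂ) + Y 3 * Complex.I‖ ≤ 4 * ρ at hy2n
  rw [← hy1] at hy1n
  rw [← hy2] at hy2n
  obtain ⟨a, had⟩ : ∃ a, a = κ⁻¹ * m := ⟨_, rfl⟩
  have hκa : κ * a = m := by rw [had, mul_inv_cancel_left₀ hκ0]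
  have ha : ‖a‖ ≤ 6 * Z := by
    rw [had, norm_mul]
    calc ‖κ⁻¹‖ * ‖m‖ ≤ 2 * (3 * Z) := mul_le_mul hκi hm (norm_nonneg _) (by norm_num)
      _ = 6 * Z := by ring
  obtain ⟨W1, hW1d⟩ : ∃ W1, W1 = κ⁻¹ * U - a * y1 := ⟨_, rfl⟩
  obtain ⟨W2, hW2d⟩ : ∃ W2, W2 = κ⁻¹ * V - a * y2 := ⟨_, rfl⟩
  have hWle : ∀ X y : ℂ, ‖X‖ ≤ 3 * Z → ‖y‖ ≤ 4 * ρ → ‖κ⁻¹ * X - a * y‖ ≤ 8 * Z ∧
      ‖κ⁻¹ * X - a * y - X‖ ≤ 36 * ρ * Z := by
    intro X y hX hy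
    have e1 : ‖a * y‖ ≤ 24 * ρ * Z := by
      rw [norm_mul]
      calc ‖a‖ * ‖y‖ ≤ 6 * Z * (4 * ρ) := mul_le_mul ha hy (norm_nonneg _) (by positivity)
        _ = 24 * ρ * Z := by ring
    have e2 : ‖κ⁻¹ * X‖ ≤ 6 * Z := by
      rw [norm_mul]
      calc ‖κ⁻¹‖ * ‖X‖ ≤ 2 * (3 * Z) := mul_le_mul hκi hX (norm_nonneg _) (by norm_num)
        _ = 6 * Z := by ring
    have e3 : ‖(κ⁻¹ - 1) * X‖ ≤ 12 * ρ * Z := by
      rw [norm_mul]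
      calc ‖κ⁻¹ - 1‖ * ‖X‖ ≤ 4 * ρ * (3 * Z) := mul_le_mul hκi1 hX (norm_nonneg _) (by positivity)
        _ = 12 * ρ * Z := by ring
    constructor
    · have e4 : 24 * ρ * Z ≤ 24 * (1 / 16) * Z := by gcongr
      have := norm_sub_le (κ⁻¹ * X) (a * y)
      linarith
    · have e4 : κ⁻¹ * X - a * y - X = (κ⁻¹ - 1) * X - a * y := by ring
      rw [e4]
      have := norm_sub_le ((κ⁻¹ - 1) * X) (a * y)
      linarith
  obtain ⟨hW1, hW1'⟩ := hWle U y1 hU hy1n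
  obtain ⟨hW2, hW2'⟩ := hWle V y2 hV hy2n
  rw [← hW1d] at hW1 hW1'
  rw [← hW2d] at hW2 hW2'
  obtain ⟨w, hwd⟩ : ∃ w : E, w = !₂[W1.re, W1.im, W2.re, W2.im] := ⟨_, rfl⟩
  have hw0 : w 0 = W1.re := by rw [hwd]; rfl
  have hw1 : w 1 = W1.im := by rw [hwd]; rfl
  have hw2 : w 2 = W2.re := by rw [hwd]; rfl
  have hw3 : w 3 = W2.im := by rw [hwd]; rfl
  have hLw : Lf u v w = W1 • u + W2 • v := by
    rw [Lf_cx, hw0, hw1, hw2, hw3, Complex.re_add_im, Complex.re_add_im]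
  have hwn : ‖w‖ ≤ 12 * Z := by
    refine le_of_sq_le_sq ?_ (by positivity)
    rw [EuclideanSpace.norm_sq_eq, Fin.sum_univ_four]
    simp only [Real.norm_eq_abs, sq_abs]
    rw [hw0, hw1, hw2, hw3]
    have e1 : W1.re ^ 2 + W1.im ^ 2 = ‖W1‖ ^ 2 := by
      rw [← Complex.normSq_eq_norm_sq, Complex.normSq_apply]
      ring
    have e2 : W2.re ^ 2 + W2.im ^ 2 = ‖W2‖ ^ 2 := by
      rw [← Complex.normSq_eq_norm_sq, Complex.normSq_apply]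
      ring
    have e3 := pow_le_pow_left₀ (norm_nonneg _) hW1 2
    have e4 := pow_le_pow_left₀ (norm_nonneg _) hW2 2
    nlinarith [sq_nonneg Z]
  have hwi : ∀ i : Fin 4, |w i| ≤ 8 * Z := by
    intro i
    fin_cases i
    · change |w 0| ≤ _
      rw [hw0]
      exact (Complex.abs_re_le_norm _).trans hW1
    · change |w 1| ≤ _
      rw [hw1]
      exact (Complex.abs_im_le_norm _).trans hW1
    · change |w 2| ≤ _
      rw [hw2]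
      exact (Complex.abs_re_le_norm _).trans hW2
    · change |w 3| ≤ _
      rw [hw3]
      exact (Complex.abs_im_le_norm _).trans hW2
  obtain ⟨t, htd⟩ : ∃ t : Fin 4 → ℝ, t = ![U.re, U.im, V.re, V.im] := ⟨_, rfl⟩
  have hwt : ∀ i : Fin 4, |w i - t i| ≤ 36 * ρ * Z := by
    intro i
    rw [htd]
    fin_cases i
    · change |w 0 - U.re| ≤ _
      rw [hw0, ← Complex.sub_re]
      exact (Complex.abs_re_le_norm _).trans hW1'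
    · change |w 1 - U.im| ≤ _
      rw [hw1, ← Complex.sub_im]
      exact (Complex.abs_im_le_norm _).trans hW1'
    · change |w 2 - V.re| ≤ _
      rw [hw2, ← Complex.sub_re]
      exact (Complex.abs_re_le_norm _).trans hW2'
    · change |w 3 - V.im| ≤ _
      rw [hw3, ← Complex.sub_im]
      exact (Complex.abs_im_le_norm _).trans hW2'
  -- the derivative
  have hσ0 : sig z u v Y ≠ 0 := sig_ne h Y
  have hx' : x = κ • sig z u v Y := (hsy hκ0).symm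
  have hζ : ζ = κ • (a • sig z u v Y + Lf u v w) := by
    have e1 : sig z u v Y = z + (y1 • u + y2 • v) := by rw [sig, Lf_cx, hy1, hy2]
    have e2 : κ * W1 = U - m * y1 := by
      rw [hW1d, mul_sub, mul_inv_cancel_left₀ hκ0, ← mul_assoc, hκa]
    have e3 : κ * W2 = V - m * y2 := by
      rw [hW2d, mul_sub, mul_inv_cancel_left₀ hκ0, ← mul_assoc, hκa]
    have e4 : κ • (a • sig z u v Y + Lf u v w) = (κ * a) • sig z u v Y + ((κ * W1) • u +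
        (κ * W2) • v) := by
      rw [hLw]
      module
    rw [e4, e1, hκa, e2, e3, hbas]
    module
  obtain ⟨dl, hdl⟩ : ∃ dl, dl = fderiv ℝ (lamG Φ z u v) Y w := ⟨_, rfl⟩
  obtain ⟨D, hD⟩ : ∃ D, D = DG Φ z u v p q Y := ⟨_, rfl⟩
  obtain ⟨γ1, hγ1⟩ : ∃ γ1 : ℂ, γ1 = (Gc Φ z u v p q Y 0 : ℂ) + Gc Φ z u v p q Y 1 * Complex.I :=
    ⟨_, rfl⟩
  obtain ⟨γ2, hγ2⟩ : ∃ γ2 : ℂ, γ2 = (Gc Φ z u v p q Y 2 : ℂ) + Gc Φ z u v p q Y 3 * Complex.I :=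
    ⟨_, rfl⟩
  have hfd : fderiv ℝ Φ x ζ = κ • (a • (l • (Φ z + (γ1 • p + γ2 • q))) +
      (dl • (Φ z + (γ1 • p + γ2 • q)) +
        l • (ee 0 1 D (fun i => w i) • p + ee 2 3 D (fun i => w i) • q))) := by
    rw [hx', hζ, fderiv_lift_hom hΦ.loc hκ0 hσ0, map_add, fderiv_lift_self hΦ.loc hσ0,
      Phi_fderiv hΦ.loc h h' hl0 w, Phi_eq h' hl0, frsum, e_sum p q (DG Φ z u v p q Y) (fun i => w i),
      ← hγ1, ← hγ2, ← hdl, ← hld, ← hD]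
  have hMζ : (M : W →L[ℝ] W) ζ = m • Φ z + (ee 0 1 (fun i j => c (i, j)) t • p +
      ee 2 3 (fun i j => c (i, j)) t • q) := by
    have e1 : ζ = m • z + ∑ i, t i • fr u v i := by
      rw [frsum, htd]
      change ζ = m • z + (((U.re : ℂ) + U.im * Complex.I) • u + ((V.re : ℂ) + V.im * Complex.I) • v)
      rw [Complex.re_add_im, Complex.re_add_im, hbas, add_assoc]
    rw [e1, hM1, e_sum p q (fun i j => c (i, j)) t]
  have hdiff : fderiv ℝ Φ x ζ - (M : W →L[ℝ] W) ζ = (m * l + κ * dl - m) • Φ z +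
      (((m * l + κ * dl) * γ1 + (κ * l * ee 0 1 D (fun i => w i) -
        ee 0 1 (fun i j => c (i, j)) t)) • p +
      ((m * l + κ * dl) * γ2 + (κ * l * ee 2 3 D (fun i => w i) -
        ee 2 3 (fun i j => c (i, j)) t)) • q) := by
    rw [hfd, hMζ, ← hκa]
    module
  have hval : ((↑M⁻¹ : W →L[ℝ] W) * fderiv ℝ Φ x - 1) ζ =
      (↑M⁻¹ : W →L[ℝ] W) (fderiv ℝ Φ x ζ - (M : W →L[ℝ] W) ζ) := by
    have e1 : (↑M⁻¹ : W →L[ℝ] W) ((M : W →L[ℝ] W) ζ) = ζ := by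
      have := M.inv_mul
      exact congrArg (fun f : W →L[ℝ] W => f ζ) this
    rw [map_sub, e1]
    rfl
  rw [hval, hdiff]
  refine (inv_le hcn hM2 _ _ _).trans ?_
  -- the derivative of the coefficient
  have hdln : ‖dl‖ ≤ 216 * Z * Θ := by
    have e0 := lamG_fderiv hΦ h h' hl0 w
    rw [← hdl, ← hld, ← hsd, ← hD] at e0
    have e1 := pl_a0 hΦ hδ0 hpl h Y (Lf u v w)
    have e2 : ‖Lf u v w‖ ≤ 2 * ‖w‖ := Lf_norm h w
    rw [← hD] at hnrm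
    have e3 : s * Real.sqrt (nrm2 D) ≤ 2 * B + 6 * β := by
      have e4 := mul_le_mul_of_nonneg_left hnrm hs0
      have e5 : s * (2 * F + 6 * cn) = 2 * ((s * cn) * B) + 6 * (s * cn) := by
        rw [hBd]
        field_simp
      rw [e5] at e4
      have e6 : (s * cn) * B ≤ 1 * B := mul_le_mul_of_nonneg_right (hscn.trans hβ) hB0
      linarith
    have e7 : 2 * ‖Y‖ * ‖w‖ ≤ 2 * (4 * ρ) * (12 * Z) := by
      gcongr
    have e8 : |pl Φ (sig z u v Y) (Lf u v w) - a0 (sig z u v Y) (Lf u v w)| ≤ δ * (2 * (12 * Z)) := by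
      refine e1.trans (mul_le_mul_of_nonneg_left ?_ hδ0)
      linarith
    have e9 : 2 * s * Real.sqrt (nrm2 D) * ‖w‖ ≤ 2 * (2 * B + 6 * β) * (12 * Z) := by
      have e10 : 2 * s * Real.sqrt (nrm2 D) = 2 * (s * Real.sqrt (nrm2 D)) := by ring
      rw [e10]
      have e11 : 0 ≤ s * Real.sqrt (nrm2 D) := mul_nonneg hs0 (Real.sqrt_nonneg _)
      exact mul_le_mul (by linarith) hwn (norm_nonneg _) (by positivity)
    have e12 : ‖dl‖ ≤ 3 / 2 * (2 * (4 * ρ) * (12 * Z) + δ * (2 * (12 * Z)) +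
        2 * (2 * B + 6 * β) * (12 * Z)) := by
      refine e0.trans (mul_le_mul hl32 (by linarith) ?_ (by norm_num))
      positivity
    refine e12.trans ?_
    have e13 : 3 / 2 * (2 * (4 * ρ) * (12 * Z) + δ * (2 * (12 * Z)) +
        2 * (2 * B + 6 * β) * (12 * Z)) = Z * (144 * ρ + 36 * δ + 72 * B + 216 * β) := by ring
    have e14 : 144 * ρ + 36 * δ + 72 * B + 216 * β ≤ 216 * Θ := by
      rw [hΘ]
      have := norm_nonneg (l - 1)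
      linarith
    rw [e13]
    calc Z * (144 * ρ + 36 * δ + 72 * B + 216 * β) ≤ Z * (216 * Θ) :=
          mul_le_mul_of_nonneg_left e14 hZ0
      _ = 216 * Z * Θ := by ring
  have hα : ‖m * l + κ * dl - m‖ ≤ 435 * (Z * Θ) := by
    have e : m * l + κ * dl - m = m * (l - 1) + κ * dl := by ring
    rw [e]
    refine (norm_add_le _ _).trans ?_
    have e1 : ‖m * (l - 1)‖ ≤ 3 * Z * Θ := by
      rw [norm_mul]
      refine mul_le_mul hm ?_ (norm_nonneg _) (by positivity)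
      rw [hΘ]
      linarith
    have e2 : ‖κ * dl‖ ≤ 2 * (216 * Z * Θ) := by
      rw [norm_mul]
      exact mul_le_mul hκ2 hdln (norm_nonneg _) (by norm_num)
    linarith
  have hγs : ∑ a, Gc Φ z u v p q Y a ^ 2 ≤ s ^ 2 := by
    rw [hsd, Real.sq_sqrt (Finset.sum_nonneg fun _ _ => sq_nonneg _)]
  obtain ⟨hγ1n, hγ2n⟩ := pair_le (Gc Φ z u v p q Y) hs0 hγs
  rw [← hγ1] at hγ1n
  rw [← hγ2] at hγ2n
  have hDc : ∀ i j, |D i j - (fun i j => c (i, j)) i j| ≤ F := by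
    intro i j
    rw [hFd, ← hD]
    refine Real.le_sqrt_of_sq_le ?_
    rw [sq_abs]
    exact Finset.single_le_sum (f := fun k : Fin 4 × Fin 4 => (D k.1 k.2 - c k) ^ 2)
      (fun _ _ => sq_nonneg _) (Finset.mem_univ (i, j))
  have hcc : ∀ i j, |(fun i j => c (i, j)) i j| ≤ cn := by
    intro i j
    rw [hcnd]
    exact norm_le_pi_norm c (i, j)
  have c1 := comp_le 0 1 hZ0 hρ0 hδ0 hB0 hΘ hwi hwt hDc hcc hcn hm hκ2 hκ1 hl32 hdln hγ1n hsdc hβ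
    hBd.symm
  have c2 := comp_le 2 3 hZ0 hρ0 hδ0 hB0 hΘ hwi hwt hDc hcc hcn hm hκ2 hκ1 hl32 hdln hγ2n hsdc hβ
    hBd.symm
  rw [mul_add]
  have hZΘ : 0 ≤ Z * Θ := by positivity
  linarith

end Pool.Agent.Lib.Qcd
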