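import Pool.Agent.Lib.Qcd.PfB
import Pool.Agent.Lib.Psd.NdP

set_option autoImplicit false

/-!
# The sign of the Pfaffian

PROOF. Fix a frame `z, u, v`. By `chart_frame` the components `co (ch α z u v) i j x` are `tr a d m₁ m₂` of the components `τ` of `dd α (sig z u v x)` in a frame `p, q` with `ON3 (ρ⁻¹ • sig z u v x) p q` (the last hypothesis of that clause is `hα.dd_left`), `Pf (tr τ) = (a d)² Pf τ` (`Pf_tr`) and
`τ = ρ⁻² cmp (dd α (ρ⁻¹ sig)) p q` (`Conn.dd_hom` with `c = ρ⁻¹`), so `Pf (co (ch α z u v) · · x) ≠ 0` for every `x`. It is continuous in `x ∈ E` (`ch_smooth`, `co` of a smooth form is continuous) and `E` is connected, so it has a constant sign. If it were negative everywhere, then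
`∫ cutR R * Pf (ch α) ≤ 0` for every `R`, whereas `∫ cutR R * Pf (ch a0) ≥ ∫_{ball 0 1} Pf (ch a0) > 0` for `R ≥ 1`: for `a0` the same frame gives `τ = ρ⁻² c0`, `Pf (co (ch a0)) = (a d)² ρ⁻⁴ Pf c0 > 0` (`c0_facts`). This contradicts `pfint2` for `α` and `a0` with a small `ε`.
So it is positive, and at `x = 0` it is `Pf (cmp (dd α z) u v)` (`co_ch_zero`). (`cutR R ≥ 0` continuous with compact support for `R > 0`, `= 1` on the unit ball for `R ≥ 1`; see the lemmas in `Psd.TopC`, `Psd.PfInt`.)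
-/

open MeasureTheory Set Metric
open scoped ContDiff ENNReal

namespace Pool.Agent.Lib.Qcd

open Pool.Agent.P28b04d Pool.Agent.Lib.Psd

namespace SgnAux

open Pool.Agent.Lib.Psd.TopCAux

theorem Pf_smul (c : ℝ) (T : Fin 4 → Fin 4 → ℝ) : Pf (fun i j => c * T i j) = c ^ 2 * Pf T := by
  simp only [Pf]
  ring

/-- the Pfaffian in the chart does not vanish -/
theorem ne_zero {α : W → W →L[ℝ] ℝ} (hα : Conn α)
    (h : ∀ z u v : W, ON3 z u v → Pf (cmp (dd α z) u v) ≠ 0) {z u v : W} (hz : ON3 z u v) (x : E) :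
    Pf (fun i j => co (ch α z u v) i j x) ≠ 0 := by
  obtain ⟨p, q, a, d, m₁, m₂, ρ, hρ, hρ2, hON, ha0, ha1, hd0, hd1, hm1, hm2, had, -, -, -, -, h1, -, -⟩ :=
    chart_frame hz x
  have hy : sig z u v x ≠ 0 := sig_ne hz x
  have hρc : (ρ : ℂ) ≠ 0 := by exact_mod_cast hρ.ne'
  have hz0 : (ρ⁻¹ : ℝ) • sig z u v x ≠ 0 := smul_ne_zero (inv_ne_zero hρ.ne') hy
  have h2 := h1 α hα.smooth (fun c w => hα.dd_left hy c w)
  have h3 : (fun i j => co (ch α z u v) i j x) =
      tr a d m₁ m₂ (cmp (dd α (sig z u v x)) p q) := by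
    funext i j
    exact h2 i j
  rw [h3, Pf_tr (cmp_skew α _ p q)]
  have h4 := h _ _ _ hON
  have h5 : cmp (dd α ((ρ⁻¹ : ℝ) • sig z u v x)) p q =
      fun i j => ρ ^ 2 * cmp (dd α (sig z u v x)) p q i j := by
    funext i j
    have h6 := hα.dd_hom hρc hz0 (fr p q i) (fr p q j)
    have h7 : (ρ : ℂ) • ((ρ⁻¹ : ℝ) • sig z u v x) = sig z u v x := by
      rw [Complex.coe_smul, smul_smul, mul_inv_cancel₀ hρ.ne', one_smul]
    rw [h7, Complex.coe_smul, Complex.coe_smul, dd_smul_left, dd_smul_right] at h6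
    simp only [Psd.cmp]
    rw [← h6]
    ring
  rw [h5, Pf_smul] at h4
  have h6 : (a * d) ^ 2 ≠ 0 := by positivity
  exact mul_ne_zero h6 (right_ne_zero_of_mul h4)

/-- the Pfaffian of the Fubini-Study form in the chart is positive -/
theorem a0_pos {z u v : W} (hz : ON3 z u v) (x : E) :
    0 < Pf (fun i j => co (ch a0 z u v) i j x) := by
  obtain ⟨p, q, a, d, m₁, m₂, ρ, hρ, hρ2, hON, ha0, ha1, hd0, hd1, hm1, hm2, had, -, -, -, -, h1, h2, -⟩ :=
    chart_frame hz x
  have hy : sig z u v x ≠ 0 := sig_ne hz x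
  have h3 := h1 a0 a0_conn.smooth (fun c w => a0_conn.dd_left hy c w)
  have h4 : (fun i j => co (ch a0 z u v) i j x) =
      tr a d m₁ m₂ (cmp (dd a0 (sig z u v x)) p q) := by
    funext i j
    exact h3 i j
  have h5 : cmp (dd a0 (sig z u v x)) p q = fun i j => (ρ ^ 2)⁻¹ * c0 i j := by
    funext i j
    exact h2 i j
  rw [h4, Pf_tr (cmp_skew a0 _ p q), h5, Pf_smul, c0_facts.2.2.2.2]
  positivity

end SgnAux

open SgnAux Pool.Agent.Lib.Psd.TopCAux

theorem pf_pos {α : W → W →L[ℝ] ℝ} (hα : Conn α)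
    (h : ∀ z u v : W, ON3 z u v → Pf (cmp (dd α z) u v) ≠ 0) :
    ∀ z u v : W, ON3 z u v → 0 < Pf (cmp (dd α z) u v) := by
  intro z u v hz
  by_contra hc
  have hneg : Pf (cmp (dd α z) u v) < 0 := lt_of_le_of_ne (not_lt.1 hc) (h z u v hz)
  set P : E → ℝ := fun x => Pf (fun i j => co (ch α z u v) i j x) with hP
  set P0 : E → ℝ := fun x => Pf (fun i j => co (ch a0 z u v) i j x) with hP0
  have hPc : Continuous P := Pf_cont fun i j => co_cont (ch_smooth hz hα.smooth) i j
  have hP0c : Continuous P0 := Pf_cont fun i j => co_cont (ch_smooth hz a0_conn.smooth) i j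
  have hPz : P 0 < 0 := by
    have : P 0 = Pf (cmp (dd α z) u v) := by
      simp only [hP]
      congr 1
      funext i j
      exact co_ch_zero hz hα.smooth i j
    rw [this]
    exact hneg
  have hPn : ∀ x, P x < 0 := by
    intro x
    by_contra hx
    have h1 : (0 : ℝ) ∈ range P :=
      mem_range_of_exists_le_of_exists_ge hPc ⟨0, hPz.le⟩ ⟨x, not_lt.1 hx⟩
    obtain ⟨y, hy⟩ := h1
    exact ne_zero hα h hz y hy
  have hP0p : ∀ x, 0 < P0 x := a0_pos hz
  set c : ℝ := ∫ x in ball (0 : E) 1, P0 x with hcd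
  have hc0 : 0 < c := by
    rw [hcd, setIntegral_pos_iff_support_of_nonneg_ae
      (Filter.Eventually.of_forall fun x => (hP0p x).le) (ball_int hP0c 1)]
    have h1 : Function.support P0 = univ := by
      rw [Set.eq_univ_iff_forall]
      intro x
      exact (hP0p x).ne'
    rw [h1, univ_inter]
    exact measure_ball_pos volume (0 : E) one_pos
  obtain ⟨R₀, -, hR⟩ := pfint2 hα a0_conn hz (c / 2) (by positivity)
  set R := max R₀ 1 with hRdef
  have hR1 : 1 ≤ R := le_max_right _ _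
  have h1 := hR R (le_max_left _ _)
  have hcP : Integrable fun x => cutR R x * P x :=
    ((cutR_cont R).mul hPc).integrable_of_hasCompactSupport (cutR_supp hR1).mul_right
  have hcP0 : Integrable fun x => cutR R x * P0 x :=
    ((cutR_cont R).mul hP0c).integrable_of_hasCompactSupport (cutR_supp hR1).mul_right
  have h2 : c ≤ ∫ x, cutR R x * P0 x := by
    have h3 : c = ∫ x in ball (0 : E) 1, cutR R x * P0 x := by
      rw [hcd]
      refine setIntegral_congr_fun measurableSet_ball fun x hx => ?_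
      rw [mem_ball, dist_zero_right] at hx
      show P0 x = cutR R x * P0 x
      rw [cutR_one hR1 hx.le, one_mul]
    rw [h3]
    exact setIntegral_le_integral hcP0
      (Filter.Eventually.of_forall fun x => mul_nonneg (cutR_nonneg R x) (hP0p x).le)
  have h3 : ∫ x, cutR R x * P x ≤ 0 :=
    integral_nonpos fun x => mul_nonpos_of_nonneg_of_nonpos (cutR_nonneg R x) (hPn x).le
  have h4 : ∫ x, cutR R x * (P x - P0 x) = (∫ x, cutR R x * P x) - ∫ x, cutR R x * P0 x := by
    rw [← integral_sub hcP hcP0]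
    refine integral_congr_ae (Filter.Eventually.of_forall fun x => ?_)
    simp only
    ring
  have h5 : |∫ x, cutR R x * (P x - P0 x)| ≤ c / 2 := h1
  rw [h4, abs_le] at h5
  linarith [h5.1]

end Pool.Agent.Lib.Qcd
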