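import Pool.Agent.Lib.Psd.Step1
import Pool.Agent.Lib.Qcd.Defs

set_option autoImplicit false

/-!
# One step of the iteration with an integral bound

PROOF. The same as the proof of `step` in `Psd.Step1`, which first deduces from the pointwise bound of `B` a bound of `∫_{ball 0 r} (B m)²`; here this bound is the hypothesis. (The final constant may differ: sum over the finitely many `m`.)
`sysB`: `T (k, a) = pd k (G a)`, `B (i, b) = dJ J (dm G ·) i b = ∑_j J j i pd j (G b) - J0 (row i) b`. `∑_i pd i (B (i, b)) = ∑_{i,j} J j i D2 i j (G b) - J0 (lap G) b = - J0 (lap G) b` (`J` skew, `D2` symmetric), and `J0 (J0 y) = - y`, so `lap (G a) = J0 (fun b => ∑_i pd i (B (i, b))) a = ∑_b jc a b ∑_i pd i (B (i, b))` with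
`jc 0 1 = -1, jc 1 0 = 1, jc 2 3 = -1, jc 3 2 = 1` and the other entries `0`. Hence `lap (T (k, a)) = pd k (lap (G a)) = ∑_{i, b} jc a b D2 k i (B (i, b))`: `cfB (k, a) k' i (i', b) = if k' = k ∧ i' = i then jc a b else 0`.
-/

open MeasureTheory Set Metric
open scoped ContDiff ENNReal

namespace Pool.Agent.Lib.Qcd

open Pool.Agent.P28b04d Pool.Agent.Lib.Psd

open Step1Aux in
theorem stepB {K M : Type} [Fintype K] [Fintype M] (cf : K → Fin 4 → Fin 4 → M → ℝ) :
    ∃ C : ℝ, 1 ≤ C ∧ ∀ (T : K → E → ℝ) (B : M → E → ℝ), Sys cf T B → ∀ (c : K → ℝ) (r δ κ θ : ℝ),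
      0 < r → 0 ≤ δ → δ ≤ 1 → 0 ≤ κ → 0 < θ → θ ≤ 1 / 4 →
      (∀ m, ∫ x in ball (0 : E) r, (B m x) ^ 2 ≤ (κ * ‖c‖) ^ 2 * r ^ 4) →
      (∀ k, ∫ x in ball (0 : E) r, (T k x - c k) ^ 2 ≤ (δ * ‖c‖) ^ 2 * r ^ 4) →
      ∃ c' : K → ℝ, ‖c' - c‖ ≤ C * δ * ‖c‖ ∧
        ∀ k, ∫ x in ball (0 : E) (θ * r), (T k x - c' k) ^ 2 ≤
          (C * (θ * δ + κ / θ ^ 2) * ‖c‖) ^ 2 * (θ * r) ^ 4 := by
  obtain ⟨C1, hC1, hnear⟩ := near
  obtain ⟨C2, hC2, hl2⟩ := l2b cf
  have hV := V0_nonneg
  set S := Real.sqrt V0 with hS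
  have hS0 : 0 ≤ S := Real.sqrt_nonneg _
  have hSS : S ^ 2 = V0 := Real.sq_sqrt hV
  set nM : ℝ := (Fintype.card M : ℝ) with hnM
  have hnM0 : 0 ≤ nM := Nat.cast_nonneg _
  set P : ℝ := 2 * C2 * nM with hP
  have hP0 : 0 ≤ P := by positivity
  set C : ℝ := 1 + P + C1 * S + 2 * C1 * V0 with hC
  have hCS : 0 ≤ C1 * S := by positivity
  have hCV : 0 ≤ C1 * V0 := by positivity
  have hC1' : 1 ≤ C := by linarith
  refine ⟨C, hC1', ?_⟩
  intro T B hs c r δ κ θ hr hδ hδ1 hκ hθ hθ4 hpin hL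
  have hTc : ∀ k, Continuous (T k) := fun k => (hs.sT k).continuous
  have hBc : ∀ m, Continuous (B m) := fun m => (hs.sB m).continuous
  have hr4 : 0 < r ^ 4 := pow_pos hr 4
  have hcn : 0 ≤ ‖c‖ := norm_nonneg c
  -- mean deviation
  have hA : ∀ k, (r ^ 4)⁻¹ * ∫ y in ball (0 : E) r, |T k y - c k| ≤ S * δ * ‖c‖ := by
    intro k
    have h1 := cs ((hTc k).sub continuous_const : Continuous fun y => T k y - c k) hr
    have h2 : (∫ y in ball (0 : E) r, |T k y - c k|) ^ 2 ≤ (S * δ * ‖c‖ * r ^ 4) ^ 2 := by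
      calc (∫ y in ball (0 : E) r, |T k y - c k|) ^ 2
          ≤ V0 * r ^ 4 * ∫ y in ball (0 : E) r, (T k y - c k) ^ 2 := h1
        _ ≤ V0 * r ^ 4 * ((δ * ‖c‖) ^ 2 * r ^ 4) := by
            gcongr
            exact hL k
        _ = (S * δ * ‖c‖ * r ^ 4) ^ 2 := by rw [← hSS]; ring
    have h3 : ∫ y in ball (0 : E) r, |T k y - c k| ≤ S * δ * ‖c‖ * r ^ 4 :=
      le_of_sq_le_sq h2 (by positivity)
    rw [inv_mul_le_iff₀ hr4]
    linarith
  have hA0 : ∀ k, 0 ≤ (r ^ 4)⁻¹ * ∫ y in ball (0 : E) r, |T k y - c k| := fun k =>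
    mul_nonneg (by positivity) (integral_nonneg fun _ => abs_nonneg _)
  refine ⟨fun k => Kav phi (r / 4) (T k) 0, ?_, ?_⟩
  · rw [pi_norm_le_iff_of_nonneg (by positivity)]
    intro k
    rw [Pi.sub_apply, Real.norm_eq_abs]
    calc |Kav phi (r / 4) (T k) 0 - c k| ≤ C1 * ((r ^ 4)⁻¹ * ∫ y in ball (0 : E) r, |T k y - c k|) :=
          (hnear (T k) (hTc k) (c k) r hr).1
      _ ≤ C1 * (S * δ * ‖c‖) := mul_le_mul_of_nonneg_left (hA k) hC1
      _ = (C1 * S) * (δ * ‖c‖) := by ring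
      _ ≤ C * (δ * ‖c‖) := by
          apply mul_le_mul_of_nonneg_right _ (by positivity)
          linarith
      _ = C * δ * ‖c‖ := by ring
  · intro k
    set c' := Kav phi (r / 4) (T k) 0 with hc'
    set G : E → ℝ := fun x => Kav phi (r / 4) (T k) x with hG
    have hGc : Continuous G := by
      have := (Kav_continuous kerOK_phi (hTc k)).comp (Continuous.prodMk continuous_const continuous_id :
        Continuous fun x : E => ((r / 4 : ℝ), x))
      exact this
    have hθr : 0 < θ * r := mul_pos hθ hr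
    have hsub : ball (0 : E) (θ * r) ⊆ ball (0 : E) (r / 4) := ball_subset_ball (by nlinarith)
    -- decomposition
    have hdec : ∫ x in ball (0 : E) (θ * r), (T k x - c') ^ 2 ≤
        2 * (∫ x in ball (0 : E) (θ * r), (T k x - G x) ^ 2) +
        2 * ∫ x in ball (0 : E) (θ * r), (G x - c') ^ 2 := by
      have i1 : IntegrableOn (fun x => 2 * (T k x - G x) ^ 2) (ball (0 : E) (θ * r)) :=
        iOn (continuous_const.mul (((hTc k).sub hGc).pow 2)) _
      have i2 : IntegrableOn (fun x => 2 * (G x - c') ^ 2) (ball (0 : E) (θ * r)) :=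
        iOn (continuous_const.mul ((hGc.sub continuous_const).pow 2)) _
      have e1 : ∫ x in ball (0 : E) (θ * r), (2 * (T k x - G x) ^ 2 + 2 * (G x - c') ^ 2) =
          (∫ x in ball (0 : E) (θ * r), 2 * (T k x - G x) ^ 2) +
            ∫ x in ball (0 : E) (θ * r), 2 * (G x - c') ^ 2 := integral_add i1 i2
      rw [← integral_const_mul, ← integral_const_mul, ← e1]
      refine integral_mono (iOn (((hTc k).sub continuous_const).pow 2) _)
        (i1.add i2) fun x => ?_
      simp only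
      nlinarith [sq_nonneg ((T k x - G x) - (G x - c'))]
    -- second part
    have h2 : ∫ x in ball (0 : E) (θ * r), (G x - c') ^ 2 ≤
        (C1 * (θ * (S * δ * ‖c‖))) ^ 2 * (V0 * (θ * r) ^ 4) := by
      have : ∫ x in ball (0 : E) (θ * r), (G x - c') ^ 2 ≤
          ∫ x in ball (0 : E) (θ * r), (C1 * (θ * (S * δ * ‖c‖))) ^ 2 := by
        refine setIntegral_mono_on (iOn ((hGc.sub continuous_const).pow 2) _)
          (iOn continuous_const _) measurableSet_ball fun x hx => ?_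
        rw [mem_ball, dist_zero_right] at hx
        have hx4 : ‖x‖ ≤ r / 4 := by nlinarith
        have h3 := (hnear (T k) (hTc k) (c k) r hr).2 x hx4
        have h4 : |G x - c'| ≤ C1 * (θ * (S * δ * ‖c‖)) := by
          calc |G x - c'| ≤ C1 * (‖x‖ / r) * ((r ^ 4)⁻¹ * ∫ y in ball (0 : E) r, |T k y - c k|) := h3
            _ ≤ C1 * θ * (S * δ * ‖c‖) := by
                have h5 : ‖x‖ / r ≤ θ := by rw [div_le_iff₀ hr]; exact hx.le
                exact mul_le_mul (mul_le_mul_of_nonneg_left h5 hC1) (hA k) (hA0 k) (by positivity)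
            _ = C1 * (θ * (S * δ * ‖c‖)) := by ring
        rw [← sq_abs]
        exact pow_le_pow_left₀ (abs_nonneg _) h4 2
      refine this.trans ?_
      rw [setIntegral_const, vol_ball hθr, smul_eq_mul]
      linarith
    -- first part
    have h1 : ∫ x in ball (0 : E) (θ * r), (T k x - G x) ^ 2 ≤
        C2 * (nM * ((κ * ‖c‖) ^ 2 * r ^ 4)) := by
      calc ∫ x in ball (0 : E) (θ * r), (T k x - G x) ^ 2
          ≤ ∫ x in ball (0 : E) (r / 4), (T k x - G x) ^ 2 :=
            setIntegral_mono_set (iOn (((hTc k).sub hGc).pow 2) _)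
              (Filter.Eventually.of_forall fun x => sq_nonneg _) hsub.eventuallyLE
        _ ≤ C2 * ∑ m, ∫ x in ball (0 : E) r, (B m x) ^ 2 := hl2 T B hs r hr k
        _ ≤ C2 * (nM * ((κ * ‖c‖) ^ 2 * r ^ 4)) := by
            apply mul_le_mul_of_nonneg_left _ hC2
            calc ∑ m, ∫ x in ball (0 : E) r, (B m x) ^ 2
                ≤ ∑ _m : M, (κ * ‖c‖) ^ 2 * r ^ 4 := Finset.sum_le_sum fun m _ => hpin m
              _ = _ := by rw [Finset.sum_const, Finset.card_univ, nsmul_eq_mul]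
    -- conclusion
    set a := θ * δ with ha
    set b := κ / θ ^ 2 with hb
    have ha0 : 0 ≤ a := by positivity
    have hb0 : 0 ≤ b := by positivity
    set X := ‖c‖ ^ 2 * (θ * r) ^ 4 with hX
    have hX0 : 0 ≤ X := by positivity
    have hfirst : C2 * (nM * ((κ * ‖c‖) ^ 2 * r ^ 4)) = P / 2 * (b ^ 2 * X) := by
      have h5 : b ^ 2 * X = κ ^ 2 * ‖c‖ ^ 2 * r ^ 4 := by
        rw [hb, hX]
        field_simp
      rw [h5, hP]
      ring
    have hsecond : (C1 * (θ * (S * δ * ‖c‖))) ^ 2 * (V0 * (θ * r) ^ 4) = (C1 * V0) ^ 2 * (a ^ 2 * X) := by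
      have : (C1 * (θ * (S * δ * ‖c‖))) ^ 2 * (V0 * (θ * r) ^ 4) =
          C1 ^ 2 * S ^ 2 * V0 * (a ^ 2 * X) := by rw [ha, hX]; ring
      rw [this, hSS]; ring
    have hCP : P ≤ C ^ 2 := by nlinarith
    have hCQ : 2 * (C1 * V0) ^ 2 ≤ C ^ 2 := by nlinarith
    calc ∫ x in ball (0 : E) (θ * r), (T k x - c') ^ 2
        ≤ 2 * (P / 2 * (b ^ 2 * X)) + 2 * ((C1 * V0) ^ 2 * (a ^ 2 * X)) := by
          have := h1.trans_eq hfirst
          have := h2.trans_eq hsecond
          linarith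
      _ = P * (b ^ 2 * X) + (2 * (C1 * V0) ^ 2) * (a ^ 2 * X) := by ring
      _ ≤ C ^ 2 * (b ^ 2 * X) + C ^ 2 * (a ^ 2 * X) := by gcongr
      _ ≤ C ^ 2 * ((a + b) ^ 2 * X) := by
          have : b ^ 2 * X + a ^ 2 * X ≤ (a + b) ^ 2 * X := by
            have := mul_nonneg (mul_nonneg ha0 hb0) hX0
            nlinarith
          nlinarith [sq_nonneg C]
      _ = (C * (a + b) * ‖c‖) ^ 2 * (θ * r) ^ 4 := by rw [hX]; ring

/-- the coefficients of the system of a map `E → ℝ⁴` -/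
def cfB (k : Fin 4 × Fin 4) (k' i : Fin 4) (m : Fin 4 × Fin 4) : ℝ :=
  if k' = k.1 ∧ m.1 = i then
    (![![0, -1, 0, 0], ![1, 0, 0, 0], ![0, 0, 0, -1], ![0, 0, 1, 0]] : Fin 4 → Fin 4 → ℝ) k.2 m.2
  else 0

namespace StepBAux

/-- the matrix of `J0` -/
def jc : Fin 4 → Fin 4 → ℝ := ![![0, -1, 0, 0], ![1, 0, 0, 0], ![0, 0, 0, -1], ![0, 0, 1, 0]]

theorem J0_eq (y : Fin 4 → ℝ) (b : Fin 4) : J0 y b = ∑ c, jc b c * y c := by
  fin_cases b <;> simp [J0, jc, Fin.sum_univ_four]

theorem jc_J0 (y : Fin 4 → ℝ) (a : Fin 4) : ∑ b, jc a b * (-J0 y b) = y a := by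
  fin_cases a <;> simp [J0, jc, Fin.sum_univ_four]

theorem pdC {f : E → ℝ} (h : ContDiff ℝ ∞ f) (i : Fin 4) : ContDiff ℝ ∞ (pd i f) := by
  have h1 : ContDiff ℝ ∞ (fderiv ℝ f) := h.fderiv_right (by simp)
  exact h1.clm_apply contDiff_const

theorem pdS {f : E → ℝ} (h : ContDiff ℝ ∞ f) (i j : Fin 4) : pd i (pd j f) = pd j (pd i f) := by
  funext x
  have hd : DifferentiableAt ℝ (fderiv ℝ f) x :=
    ((h.fderiv_right (m := ∞) (by simp)).differentiable (by simp)).differentiableAt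
  have key : ∀ a b : E, fderiv ℝ (fun y => fderiv ℝ f y a) x b = fderiv ℝ (fderiv ℝ f) x b a := by
    intro a b
    rw [fderiv_clm_apply hd (differentiableAt_const _)]
    simp
  unfold pd
  rw [key, key]
  have hs : IsSymmSndFDerivAt ℝ f x := h.contDiffAt.isSymmSndFDerivAt (by
    rw [minSmoothness_of_isRCLikeNormedField]
    exact WithTop.coe_le_coe.2 le_top)
  exact hs.eq _ _

theorem pdL {ι : Type} (s : Finset ι) (c : ι → ℝ) {f : ι → E → ℝ} (h : ∀ j, ContDiff ℝ ∞ (f j))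
    (i : Fin 4) : pd i (fun x => ∑ j ∈ s, c j * f j x) = fun x => ∑ j ∈ s, c j * pd i (f j) x := by
  funext x
  unfold pd
  have hd : ∀ j, DifferentiableAt ℝ (f j) x := fun j =>
    ((h j).differentiable (by simp)).differentiableAt
  rw [fderiv_fun_sum fun j _ => (hd j).const_mul (c j), _root_.sum_apply]
  refine Finset.sum_congr rfl fun j _ => ?_
  rw [fderiv_const_mul (hd j)]
  rfl

theorem rhs_eq (k a : Fin 4) (H : Fin 4 → Fin 4 → Fin 4 × Fin 4 → ℝ) :
    ∑ k', ∑ i, ∑ m, cfB (k, a) k' i m * H k' i m = ∑ i, ∑ b, jc a b * H k i (i, b) := by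
  rw [Finset.sum_eq_single k]
  · refine Finset.sum_congr rfl fun i _ => ?_
    rw [Fintype.sum_prod_type, Finset.sum_eq_single i]
    · refine Finset.sum_congr rfl fun b _ => ?_
      simp [cfB, jc]
    · intro i' _ hi'
      refine Finset.sum_eq_zero fun b _ => ?_
      simp [cfB, hi']
    · intro h
      exact absurd (Finset.mem_univ _) h
  · intro k' _ hk'
    refine Finset.sum_eq_zero fun i _ => Finset.sum_eq_zero fun m _ => ?_
    simp [cfB, hk']
  · intro h
    exact absurd (Finset.mem_univ _) h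

end StepBAux

open StepBAux in
theorem sysB {G : Fin 4 → E → ℝ} (hG : ∀ a, ContDiff ℝ ∞ (G a)) {J : Fin 4 → Fin 4 → ℝ}
    (hJ : ∀ i j, J i j = -J j i) :
    Sys cfB (fun k x => dm G x k.1 k.2) (fun m x => dJ J (dm G x) m.1 m.2) := by
  have hB : ∀ m : Fin 4 × Fin 4, (fun x => dJ J (dm G x) m.1 m.2) = fun x =>
      ∑ p : Fin 4 × Fin 4, ((if p.2 = m.2 then J p.1 m.1 else 0) -
        (if p.1 = m.1 then jc m.2 p.2 else 0)) * pd p.1 (G p.2) x := by
    intro m
    funext x
    unfold dJ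
    rw [J0_eq, Fintype.sum_prod_type]
    simp only [sub_mul, Finset.sum_sub_distrib, ite_mul, zero_mul]
    congr 1
    · refine Finset.sum_congr rfl fun j _ => ?_
      rw [Finset.sum_ite_eq' Finset.univ m.2]
      simp [dm]
    · refine Eq.symm ?_
      rw [Finset.sum_eq_single m.1]
      · simp [dm]
      · intro j _ hj
        simp [hj]
      · intro h
        exact absurd (Finset.mem_univ _) h
  have hpG : ∀ p : Fin 4 × Fin 4, ContDiff ℝ ∞ (pd p.1 (G p.2)) := fun p => pdC (hG p.2) p.1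
  refine ⟨fun k => pdC (hG k.2) k.1, fun m => ?_, ?_⟩
  · rw [hB m]
    exact ContDiff.sum fun p _ => contDiff_const.mul (hpG p)
  · rintro ⟨k, a⟩ x
    rw [rhs_eq k a (fun k' i m => D2 k' i (fun x => dJ J (dm G x) m.1 m.2) x)]
    -- third derivatives
    have hD : ∀ i b, D2 k i (fun x => dJ J (dm G x) i b) x =
        (∑ j, J j i * pd k (pd i (pd j (G b))) x) -
          J0 (fun c => pd k (pd i (pd i (G c))) x) b := by
      intro i b
      have h1 := hB (i, b)
      simp only at h1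
      unfold D2
      rw [h1, pdL _ _ hpG, pdL _ _ (fun p => pdC (hpG p) i), J0_eq]
      beta_reduce
      rw [Fintype.sum_prod_type]
      simp only [sub_mul, Finset.sum_sub_distrib, ite_mul, zero_mul]
      congr 1
      · refine Finset.sum_congr rfl fun j _ => ?_
        rw [Finset.sum_ite_eq' Finset.univ b]
        simp
      · rw [Finset.sum_eq_single i]
        · simp
        · intro j _ hj
          simp [hj]
        · intro h
          exact absurd (Finset.mem_univ _) h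
    simp only [hD]
    have hzero : ∀ b, ∑ i, ∑ j, J j i * pd k (pd i (pd j (G b))) x = 0 := by
      intro b
      have h1 : ∑ i, ∑ j, J j i * pd k (pd i (pd j (G b))) x =
          -∑ i, ∑ j, J j i * pd k (pd i (pd j (G b))) x := by
        conv_lhs => rw [Finset.sum_comm]
        rw [← Finset.sum_neg_distrib]
        refine Finset.sum_congr rfl fun i _ => ?_
        rw [← Finset.sum_neg_distrib]
        refine Finset.sum_congr rfl fun j _ => ?_
        rw [pdS (hG b) j i, hJ i j]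
        ring
      linarith
    have hlap : lap (fun x => dm G x k a) x = ∑ i, pd k (pd i (pd i (G a))) x := by
      unfold lap
      refine Finset.sum_congr rfl fun i _ => ?_
      change pd i (pd i (pd k (G a))) x = _
      rw [pdS (hG a) i k, pdS (pdC (hG a) i) i k]
    change lap (fun x => dm G x k a) x = _
    rw [hlap, Finset.sum_comm]
    have hb : ∀ b, ∑ i, jc a b * ((∑ j, J j i * pd k (pd i (pd j (G b))) x) -
        J0 (fun c => pd k (pd i (pd i (G c))) x) b) =
        jc a b * (-J0 (fun c => ∑ i, pd k (pd i (pd i (G c))) x) b) := by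
      intro b
      rw [← Finset.mul_sum, Finset.sum_sub_distrib, hzero b, zero_sub]
      congr 2
      simp only [J0_eq]
      rw [Finset.sum_comm]
      refine Finset.sum_congr rfl fun c _ => ?_
      rw [Finset.mul_sum]
    simp only [hb]
    rw [jc_J0]

end Pool.Agent.Lib.Qcd
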