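import Pool.Agent.Lib.Qcd.TopL
import Pool.Agent.Lib.Qcd.Cacc

set_option autoImplicit false

/-!
# A lift which is nearly holomorphic is close to a unitary map with its derivative

`topF` from `topL` (closeness in `L¹`, with `bb Φ` small in `L²` on the unit ball), the Caccioppoli inequality `cacc` with
`r = 1 / 6`, and `ballR`. `near_unit`: `A` nearly preserves `nsq`, because every ball of radius `r` contains a point where
`Φ` is close to `A`. `near_grad`: the bound for the derivative.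
-/

open MeasureTheory Set Metric
open scoped ContDiff ENNReal

namespace Pool.Agent.Lib.Qcd

open Pool.Agent.P28b04d Pool.Agent.Lib.Psd

namespace TopFAux

theorem nsq_le (x : W) : nsq x ≤ 3 * ‖x‖ ^ 2 := by
  have h1 : nsq x ≤ ∑ _k : Fin 3, ‖x‖ ^ 2 := by
    refine Finset.sum_le_sum fun k _ => ?_
    rw [Complex.normSq_eq_norm_sq]
    exact pow_le_pow_left₀ (norm_nonneg _) (norm_le_pi_norm x k) 2
  refine h1.trans (le_of_eq ?_)
  simp

theorem le_nsq (x : W) : ‖x‖ ^ 2 ≤ nsq x := by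
  have h0 : 0 ≤ nsq x := Finset.sum_nonneg fun k _ => Complex.normSq_nonneg _
  have h1 : ‖x‖ ≤ Real.sqrt (nsq x) := by
    rw [pi_norm_le_iff_of_nonneg (Real.sqrt_nonneg _)]
    intro k
    apply Real.le_sqrt_of_sq_le
    rw [← Complex.normSq_eq_norm_sq]
    exact Finset.single_le_sum (f := fun k => Complex.normSq (x k))
      (fun i _ => Complex.normSq_nonneg _) (Finset.mem_univ k)
  calc ‖x‖ ^ 2 ≤ Real.sqrt (nsq x) ^ 2 := pow_le_pow_left₀ (norm_nonneg _) h1 2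
    _ = nsq x := Real.sq_sqrt h0

theorem nsq_sub_le (a b : W) : |nsq a - nsq b| ≤ 3 * ‖a - b‖ * (‖a‖ + ‖b‖) := by
  unfold nsq
  rw [← Finset.sum_sub_distrib]
  refine (Finset.abs_sum_le_sum_abs _ _).trans ?_
  have h : ∀ k ∈ (Finset.univ : Finset (Fin 3)),
      |Complex.normSq (a k) - Complex.normSq (b k)| ≤ ‖a - b‖ * (‖a‖ + ‖b‖) := by
    intro k _
    rw [Complex.normSq_eq_norm_sq, Complex.normSq_eq_norm_sq, sq_sub_sq, abs_mul, mul_comm]
    have h1 : |‖a k‖ - ‖b k‖| ≤ ‖a - b‖ :=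
      (abs_norm_sub_norm_le _ _).trans (norm_le_pi_norm (a - b) k)
    have h2 : |‖a k‖ + ‖b k‖| ≤ ‖a‖ + ‖b‖ := by
      rw [abs_of_nonneg (by positivity)]
      exact add_le_add (norm_le_pi_norm a k) (norm_le_pi_norm b k)
    exact mul_le_mul h1 h2 (abs_nonneg _) (norm_nonneg _)
  refine (Finset.sum_le_card_nsmul _ _ _ h).trans ?_
  simp
  linarith

theorem nsq_rsmul (c : ℝ) (x : W) : nsq (c • x) = c ^ 2 * nsq x := by
  unfold nsq
  rw [Finset.mul_sum]
  refine Finset.sum_congr rfl fun k _ => ?_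
  rw [Pi.smul_apply, Complex.real_smul, Complex.normSq_mul, Complex.normSq_ofReal]
  ring

theorem finrankW : Module.finrank ℝ W = 6 := by
  rw [Module.finrank_pi_fintype]
  simp

/-- Volume of the unit ball. -/
noncomputable def VV : ℝ := (volume (ball (0 : W) 1)).toReal

theorem VV_pos : 0 < VV :=
  ENNReal.toReal_pos (measure_ball_pos volume 0 one_pos).ne' measure_ball_lt_top.ne

theorem ofReal_VV : ENNReal.ofReal VV = volume (ball (0 : W) 1) :=
  ENNReal.ofReal_toReal measure_ball_lt_top.ne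

theorem vol_closedBall (x : W) {r : ℝ} (hr : 0 ≤ r) :
    volume (closedBall x r) = ENNReal.ofReal (r ^ 6 * VV) := by
  rw [Measure.addHaar_closedBall _ _ hr, finrankW, ENNReal.ofReal_mul (by positivity), ofReal_VV]

theorem exists_near {f : W → ℝ≥0∞} {v : W} {r δ e : ℝ} (hr : 0 < r) (hδ : 0 ≤ δ) (he : 0 ≤ e)
    (hf : ∫⁻ x in closedBall v r, f x ≤ ENNReal.ofReal e) (hlt : e < δ * (r ^ 6 * VV)) :
    ∃ x ∈ closedBall v r, f x ≤ ENNReal.ofReal δ := by
  by_contra hcon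
  push Not at hcon
  have h1 : ENNReal.ofReal δ * volume (closedBall v r) ≤ ∫⁻ x in closedBall v r, f x := by
    rw [← setLIntegral_const]
    exact setLIntegral_mono' measurableSet_closedBall fun x hx => (hcon x hx).le
  rw [vol_closedBall v hr.le, ← ENNReal.ofReal_mul hδ] at h1
  have h2 := h1.trans hf
  rw [ENNReal.ofReal_le_ofReal_iff he] at h2
  linarith

theorem am {a : ℝ≥0∞} {l : ℝ} (hl : 0 < l) :
    a ≤ ENNReal.ofReal l + a ^ 2 * (ENNReal.ofReal l)⁻¹ := by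
  by_cases h : a ≤ ENNReal.ofReal l
  · exact h.trans le_self_add
  · push Not at h
    have hl0 : ENNReal.ofReal l ≠ 0 := by
      rw [Ne, ENNReal.ofReal_eq_zero, not_le]
      exact hl
    calc a = a * ENNReal.ofReal l * (ENNReal.ofReal l)⁻¹ := by
          rw [mul_assoc, ENNReal.mul_inv_cancel hl0 ENNReal.ofReal_ne_top, mul_one]
      _ ≤ a * a * (ENNReal.ofReal l)⁻¹ := by gcongr
      _ = a ^ 2 * (ENNReal.ofReal l)⁻¹ := by rw [pow_two]
      _ ≤ ENNReal.ofReal l + a ^ 2 * (ENNReal.ofReal l)⁻¹ := le_add_self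

theorem l1_of_l2 {f : W → ℝ≥0∞} {τ l : ℝ} (hτ : 0 ≤ τ) (hl : 0 < l)
    (hf : ∫⁻ x in closedBall (0 : W) 1, f x ^ 2 ≤ ENNReal.ofReal τ) :
    ∫⁻ x in closedBall (0 : W) 1, f x ≤ ENNReal.ofReal (l * VV + τ / l) := by
  have hl0 : ENNReal.ofReal l ≠ 0 := by
    rw [Ne, ENNReal.ofReal_eq_zero, not_le]
    exact hl
  have hinv : (ENNReal.ofReal l)⁻¹ ≠ ⊤ := ENNReal.inv_ne_top.2 hl0
  calc ∫⁻ x in closedBall (0 : W) 1, f x
      ≤ ∫⁻ x in closedBall (0 : W) 1, (ENNReal.ofReal l + f x ^ 2 * (ENNReal.ofReal l)⁻¹) :=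
        lintegral_mono fun x => am hl
    _ = ENNReal.ofReal l * volume (closedBall (0 : W) 1) +
        (∫⁻ x in closedBall (0 : W) 1, f x ^ 2) * (ENNReal.ofReal l)⁻¹ := by
        rw [lintegral_add_left measurable_const, setLIntegral_const, lintegral_mul_const' _ _ hinv]
    _ ≤ ENNReal.ofReal l * ENNReal.ofReal (1 ^ 6 * VV) +
        ENNReal.ofReal τ * (ENNReal.ofReal l)⁻¹ := by
        rw [vol_closedBall 0 zero_le_one]
        gcongr
    _ = ENNReal.ofReal (l * VV + τ / l) := by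
        rw [one_pow, one_mul, ENNReal.ofReal_add (mul_nonneg hl.le VV_pos.le) (by positivity),
          ENNReal.ofReal_mul hl.le, ENNReal.ofReal_div_of_pos hl, ENNReal.div_eq_inv_mul,
          mul_comm (ENNReal.ofReal τ)]

/-- `bb` of the derivative. -/
noncomputable def bL (L : W →L[ℝ] W) : W →L[ℝ] W := L.comp mI - mI.comp L

theorem bL_clm (A : W →L[ℂ] W) : bL (A.restrictScalars ℝ) = 0 := by
  refine ContinuousLinearMap.ext fun v => ?_
  show A (Complex.I • v) - Complex.I • A v = 0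
  rw [map_smul, sub_self]

theorem bL_sub (L M : W →L[ℝ] W) : bL (L - M) = bL L - bL M := by
  refine ContinuousLinearMap.ext fun v => ?_
  show (L - M) (Complex.I • v) - Complex.I • (L - M) v =
    (L (Complex.I • v) - Complex.I • L v) - (M (Complex.I • v) - Complex.I • M v)
  rw [_root_.sub_apply, _root_.sub_apply, smul_sub]
  abel

theorem norm_sub_cont {X Y : Type} [TopologicalSpace X] [SeminormedAddCommGroup Y] {f g : X → Y}
    (hf : Continuous f) (hg : Continuous g) : Continuous (fun x => ‖f x - g x‖) :=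
  (hf.sub hg).norm

theorem bL_cont : Continuous (fun L : W →L[ℝ] W => ‖bL L‖) := by
  have h1 : Continuous (fun L : W →L[ℝ] W => L.comp mI) :=
    ((ContinuousLinearMap.compL ℝ W W W).flip mI).continuous
  have h2 : Continuous (fun L : W →L[ℝ] W => mI.comp L) :=
    ((ContinuousLinearMap.compL ℝ W W W) mI).continuous
  exact norm_sub_cont h1 h2

theorem bb_meas (Φ : W → W) : Measurable (fun x => ‖bb Φ x‖ₑ) := by
  have h1 : Measurable (fun x => ‖bL (fderiv ℝ Φ x)‖) :=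
    bL_cont.measurable.comp (measurable_fderiv ℝ Φ)
  have h2 : (fun x => ‖bb Φ x‖ₑ) = fun x => ENNReal.ofReal ‖bL (fderiv ℝ Φ x)‖ := by
    funext x
    rw [ofReal_norm]
    rfl
  rw [h2]
  exact h1.ennreal_ofReal

theorem bb2_ball {Φ : W → W} (hΦ : NL Φ) {τ : ℝ}
    (h : ∫⁻ x in closedBall (0 : W) 1, ‖bb Φ x‖ₑ ^ 2 ≤ ENNReal.ofReal τ) :
    ∫⁻ x in closedBall (0 : W) 2, ‖bb Φ x‖ₑ ^ 2 ≤ ENNReal.ofReal (64 * τ) := by
  have h1 := ballR (k := fun x => ‖bb Φ x‖ₑ ^ 2) ((bb_meas Φ).pow_const 2) (m := 0) (by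
    intro r hr x hx
    have hrc : (r : ℂ) ≠ 0 := by exact_mod_cast hr.ne'
    have h2 : r • x = (r : ℂ) • x := by
      ext i
      simp
    have h3 := norm_bb_hom hΦ.loc hrc hx
    have h4 : ‖bb Φ (r • x)‖ₑ = ‖bb Φ x‖ₑ := by
      rw [← ofReal_norm, ← ofReal_norm, h2, h3]
    simp only [h4, pow_zero, ENNReal.ofReal_one, div_one]) (R := 2) (by norm_num)
  rw [h1, ENNReal.ofReal_mul (by norm_num : (0 : ℝ) ≤ 64)]
  have h5 : (2 : ℝ) ^ 6 / 2 ^ 0 = 64 := by norm_num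
  rw [h5]
  gcongr

theorem norm_lift_le {Φ : W → W} (hΦ : NL Φ) {x : W} (hx : ‖x‖ ≤ 2) : ‖Φ x‖ ≤ 4 := by
  have h1 := le_nsq (Φ x)
  rw [hΦ.nrm] at h1
  have h2 := nsq_le x
  have h3 := norm_nonneg x
  have h4 := norm_nonneg (Φ x)
  nlinarith

theorem unit_norm {z : W} (hz : nsq z = 1) : ‖z‖ ≤ 1 ∧ 1 / 2 < ‖z‖ := by
  have h1 := le_nsq z
  have h2 := nsq_le z
  have h3 := norm_nonneg z
  rw [hz] at h1 h2
  constructor <;> nlinarith

/-- The first part: nearly unitary. -/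
theorem near_unit {Φ : W → W} (hΦ : NL Φ) {A : W →L[ℂ] W} {C ε r δ e : ℝ} (hC : 1 ≤ C)
    (hr : 0 < r) (hr2 : r ≤ 1 / 2) (hrC : 18 * C ^ 2 * r ≤ ε / 2) (hδ : 0 < δ) (hδ1 : δ ≤ 1)
    (hδC : 3 * δ * (4 * C + 1) ≤ ε / 2) (he : 0 ≤ e) (hA : ‖A‖ ≤ C)
    (hf : ∫⁻ x in closedBall (0 : W) 2, ‖Φ x - A x‖ₑ ≤ ENNReal.ofReal e)
    (hlt : e < δ * (r ^ 6 * VV)) (v : W) : |nsq (A v) - nsq v| ≤ ε * nsq v := by
  have hunit : ∀ v : W, nsq v = 1 → |nsq (A v) - nsq v| ≤ ε := by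
    intro v hv
    obtain ⟨hv1, -⟩ := unit_norm hv
    have hsub : closedBall v r ⊆ closedBall (0 : W) 2 := by
      intro x hx
      rw [mem_closedBall, dist_eq_norm] at hx
      rw [mem_closedBall_zero_iff]
      calc ‖x‖ = ‖(x - v) + v‖ := by rw [sub_add_cancel]
        _ ≤ ‖x - v‖ + ‖v‖ := norm_add_le _ _
        _ ≤ 2 := by linarith
    have hf' : ∫⁻ x in closedBall v r, ‖Φ x - A x‖ₑ ≤ ENNReal.ofReal e :=
      (lintegral_mono_set hsub).trans hf
    obtain ⟨x, hx, hxδ⟩ := exists_near hr hδ.le he hf' hlt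
    rw [← ofReal_norm, ENNReal.ofReal_le_ofReal_iff hδ.le] at hxδ
    rw [mem_closedBall, dist_eq_norm] at hx
    have hx1 : ‖x‖ ≤ 3 / 2 := by
      calc ‖x‖ = ‖(x - v) + v‖ := by rw [sub_add_cancel]
        _ ≤ ‖x - v‖ + ‖v‖ := norm_add_le _ _
        _ ≤ 3 / 2 := by linarith
    have hAx : ‖A x‖ ≤ 2 * C := by
      refine (A.le_opNorm x).trans ?_
      calc ‖A‖ * ‖x‖ ≤ C * 2 := mul_le_mul hA (by linarith) (norm_nonneg _) (by linarith)
        _ = 2 * C := by ring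
    have hAv : ‖A v‖ ≤ C := by
      refine (A.le_opNorm v).trans ?_
      calc ‖A‖ * ‖v‖ ≤ C * 1 := mul_le_mul hA hv1 (norm_nonneg _) (by linarith)
        _ = C := by ring
    have hAd : ‖A v - A x‖ ≤ C * r := by
      rw [← map_sub]
      refine (A.le_opNorm _).trans ?_
      exact mul_le_mul hA (by rw [norm_sub_rev]; exact hx) (norm_nonneg _) (by linarith)
    have hΦx : ‖Φ x‖ ≤ 2 * C + 1 := by
      calc ‖Φ x‖ = ‖(Φ x - A x) + A x‖ := by rw [sub_add_cancel]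
        _ ≤ ‖Φ x - A x‖ + ‖A x‖ := norm_add_le _ _
        _ ≤ 2 * C + 1 := by linarith
    have e1 : |nsq (A v) - nsq (A x)| ≤ 9 * C ^ 2 * r := by
      refine (nsq_sub_le _ _).trans ?_
      have h1 : 3 * ‖A v - A x‖ * (‖A v‖ + ‖A x‖) ≤ 3 * (C * r) * (C + 2 * C) := by
        apply mul_le_mul _ (add_le_add hAv hAx) (by positivity) (by positivity)
        linarith
      linarith
    have e2 : |nsq (A x) - nsq (Φ x)| ≤ 3 * δ * (4 * C + 1) := by
      refine (nsq_sub_le _ _).trans ?_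
      have h0 : ‖A x - Φ x‖ ≤ δ := by rw [norm_sub_rev]; exact hxδ
      apply mul_le_mul _ _ (by positivity) (by positivity)
      · linarith
      · linarith
    have e3 : |nsq x - nsq v| ≤ 9 * C ^ 2 * r := by
      refine (nsq_sub_le _ _).trans ?_
      have h1 : 3 * ‖x - v‖ * (‖x‖ + ‖v‖) ≤ 3 * r * 3 := by
        apply mul_le_mul _ (by linarith) (by positivity) (by positivity)
        linarith
      have h2 : 1 ≤ C ^ 2 := by nlinarith
      nlinarith
    have e4 : nsq (A v) - nsq v = (nsq (A v) - nsq (A x)) + (nsq (A x) - nsq (Φ x)) +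
        (nsq x - nsq v) := by
      rw [hΦ.nrm]
      ring
    rw [e4]
    refine (abs_add_le _ _).trans ?_
    have e5 := abs_add_le (nsq (A v) - nsq (A x)) (nsq (A x) - nsq (Φ x))
    linarith
  have h0 : 0 ≤ nsq v := Finset.sum_nonneg fun k _ => Complex.normSq_nonneg _
  rcases h0.eq_or_lt with h | h
  · have hv : v = 0 := by
      by_contra hne
      exact (nsq_pos hne).ne h
    rw [hv, map_zero]
    have : nsq (0 : W) = 0 := by simp [nsq]
    rw [this]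
    simp
  · set t := Real.sqrt (nsq v) with ht
    have htp : 0 < t := Real.sqrt_pos.2 h
    have ht2 : t ^ 2 = nsq v := Real.sq_sqrt h0
    have h1 : nsq (t⁻¹ • v) = 1 := by
      rw [nsq_rsmul, ← ht2, inv_pow, inv_mul_cancel₀ (by positivity)]
    have h2 := hunit _ h1
    have h3 : A (t⁻¹ • v) = t⁻¹ • A v := by
      have : (A.restrictScalars ℝ) (t⁻¹ • v) = t⁻¹ • (A.restrictScalars ℝ) v := map_smul _ _ _
      exact this
    rw [h3, nsq_rsmul, nsq_rsmul, ← mul_sub, abs_mul, abs_of_nonneg (by positivity), inv_pow,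
      inv_mul_le_iff₀ (by positivity)] at h2
    rw [← ht2, mul_comm]
    rw [ht2] at h2 ⊢
    exact h2

/-- The second part. -/
theorem near_grad {Φ : W → W} (hΦ : NL Φ) {A : W →L[ℂ] W} {C C1 τ e : ℝ} (hC : 1 ≤ C) (hC1 : 1 ≤ C1)
    (hcacc : ∀ (w : W → W) (z : W) (r : ℝ), 0 < r → ContDiffOn ℝ ∞ w (ball z (3 * r)) →
      ∫⁻ x in closedBall z r, ‖fderiv ℝ w x‖ₑ ^ 2 ≤
        ENNReal.ofReal (C1 / r ^ 2) * (∫⁻ x in closedBall z (2 * r), ‖w x‖ₑ ^ 2) +
          ENNReal.ofReal C1 * ∫⁻ x in closedBall z (2 * r), ‖bb w x‖ₑ ^ 2)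
    (he : 0 ≤ e) (hτ : 0 ≤ τ) (hA : ‖A‖ ≤ C)
    (hf : ∫⁻ x in closedBall (0 : W) 2, ‖Φ x - A x‖ₑ ≤ ENNReal.ofReal e)
    (hb : ∫⁻ x in closedBall (0 : W) 1, ‖bb Φ x‖ₑ ^ 2 ≤ ENNReal.ofReal τ) {z : W} (hz : nsq z = 1) :
    ∫⁻ x in closedBall z (1 / 6), (‖fderiv ℝ Φ x - A.restrictScalars ℝ‖ₑ ^ 2 + ‖Φ x - A x‖ₑ ^ 2) ≤
        ENNReal.ofReal ((36 * C1 + 1) * ((4 + 2 * C) * e) + 64 * C1 * τ) := by
  obtain ⟨hz1, hz2⟩ := unit_norm hz
  set w : W → W := fun x => Φ x - A x with hw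
  have hne : ∀ x ∈ ball z (3 * (1 / 6)), x ≠ 0 := by
    intro x hx h0
    rw [mem_ball, dist_eq_norm, h0, zero_sub, norm_neg] at hx
    linarith
  have hdA : ∀ x, HasFDerivAt (fun x => A x) (A.restrictScalars ℝ) x := fun x =>
    (A.restrictScalars ℝ).hasFDerivAt
  have hfd : ∀ x ∈ ball z (3 * (1 / 6)), fderiv ℝ w x = fderiv ℝ Φ x - A.restrictScalars ℝ := by
    intro x hx
    have h1 : HasFDerivAt Φ (fderiv ℝ Φ x) x :=
      ((hΦ.loc.contDiffAt (hne x hx)).differentiableAt (by simp)).hasFDerivAt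
    exact (h1.sub (hdA x)).fderiv
  have hws : ContDiffOn ℝ ∞ w (ball z (3 * (1 / 6))) := by
    intro x hx
    have h1 : ContDiffAt ℝ ∞ (fun x => A x) x := (A.restrictScalars ℝ).contDiff.contDiffAt
    exact ((hΦ.loc.contDiffAt (hne x hx)).sub h1).contDiffWithinAt
  have hc := hcacc w z (1 / 6) (by norm_num) hws
  have hsub : closedBall z (2 * (1 / 6)) ⊆ closedBall (0 : W) 2 := by
    intro x hx
    rw [mem_closedBall, dist_eq_norm] at hx
    rw [mem_closedBall_zero_iff]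
    calc ‖x‖ = ‖(x - z) + z‖ := by rw [sub_add_cancel]
      _ ≤ ‖x - z‖ + ‖z‖ := norm_add_le _ _
      _ ≤ 2 := by linarith
  have hsub6 : closedBall z (1 / 6) ⊆ closedBall z (2 * (1 / 6)) :=
    closedBall_subset_closedBall (by norm_num)
  have hsubb : closedBall z (2 * (1 / 6)) ⊆ ball z (3 * (1 / 6)) :=
    closedBall_subset_ball (by norm_num)
  -- the `L²` norm of `w`
  have hw2 : ∫⁻ x in closedBall (0 : W) 2, ‖w x‖ₑ ^ 2 ≤ ENNReal.ofReal ((4 + 2 * C) * e) := by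
    calc ∫⁻ x in closedBall (0 : W) 2, ‖w x‖ₑ ^ 2
        ≤ ∫⁻ x in closedBall (0 : W) 2, ENNReal.ofReal (4 + 2 * C) * ‖w x‖ₑ := by
          refine setLIntegral_mono' measurableSet_closedBall fun x hx => ?_
          rw [pow_two]
          refine mul_le_mul' ?_ le_rfl
          rw [← ofReal_norm]
          apply ENNReal.ofReal_le_ofReal
          rw [mem_closedBall_zero_iff] at hx
          have h1 := norm_lift_le hΦ hx
          have h2 : ‖A x‖ ≤ 2 * C := by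
            refine (A.le_opNorm x).trans ?_
            calc ‖A‖ * ‖x‖ ≤ C * 2 := mul_le_mul hA hx (norm_nonneg _) (by linarith)
              _ = 2 * C := by ring
          calc ‖w x‖ ≤ ‖Φ x‖ + ‖A x‖ := norm_sub_le _ _
            _ ≤ 4 + 2 * C := by linarith
      _ = ENNReal.ofReal (4 + 2 * C) * ∫⁻ x in closedBall (0 : W) 2, ‖w x‖ₑ :=
          lintegral_const_mul' _ _ ENNReal.ofReal_ne_top
      _ ≤ ENNReal.ofReal (4 + 2 * C) * ENNReal.ofReal e := by
          gcongr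
      _ = ENNReal.ofReal ((4 + 2 * C) * e) := by
          rw [ENNReal.ofReal_mul (by linarith)]
  have hbw : ∫⁻ x in closedBall z (2 * (1 / 6)), ‖bb w x‖ₑ ^ 2 ≤ ENNReal.ofReal (64 * τ) := by
    have h1 : ∫⁻ x in closedBall z (2 * (1 / 6)), ‖bb w x‖ₑ ^ 2 =
        ∫⁻ x in closedBall z (2 * (1 / 6)), ‖bb Φ x‖ₑ ^ 2 := by
      refine setLIntegral_congr_fun measurableSet_closedBall fun x hx => ?_
      have h2 : bb w x = bb Φ x := by
        have h3 : bb w x = bL (fderiv ℝ w x) := rfl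
        rw [h3, hfd x (hsubb hx), bL_sub, bL_clm, sub_zero]
        rfl
      simp only [h2]
    rw [h1]
    exact (lintegral_mono_set hsub).trans (bb2_ball hΦ hb)
  have hgrad : ∫⁻ x in closedBall z (1 / 6), ‖fderiv ℝ Φ x - A.restrictScalars ℝ‖ₑ ^ 2 ≤
      ENNReal.ofReal (36 * C1 * ((4 + 2 * C) * e) + 64 * C1 * τ) := by
    have h1 : ∫⁻ x in closedBall z (1 / 6), ‖fderiv ℝ Φ x - A.restrictScalars ℝ‖ₑ ^ 2 =
        ∫⁻ x in closedBall z (1 / 6), ‖fderiv ℝ w x‖ₑ ^ 2 := by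
      refine setLIntegral_congr_fun measurableSet_closedBall fun x hx => ?_
      simp only [hfd x (hsubb (hsub6 hx))]
    rw [h1]
    refine hc.trans ?_
    have h2 : C1 / (1 / 6 : ℝ) ^ 2 = 36 * C1 := by ring
    have h3 : ∫⁻ x in closedBall z (2 * (1 / 6)), ‖w x‖ₑ ^ 2 ≤ ENNReal.ofReal ((4 + 2 * C) * e) :=
      (lintegral_mono_set hsub).trans hw2
    calc ENNReal.ofReal (C1 / (1 / 6 : ℝ) ^ 2) *
            (∫⁻ x in closedBall z (2 * (1 / 6)), ‖w x‖ₑ ^ 2) +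
          ENNReal.ofReal C1 * ∫⁻ x in closedBall z (2 * (1 / 6)), ‖bb w x‖ₑ ^ 2
        ≤ ENNReal.ofReal (36 * C1) * ENNReal.ofReal ((4 + 2 * C) * e) +
          ENNReal.ofReal C1 * ENNReal.ofReal (64 * τ) := by
          rw [h2]
          exact add_le_add (mul_le_mul' le_rfl h3) (mul_le_mul' le_rfl hbw)
      _ = ENNReal.ofReal (36 * C1 * ((4 + 2 * C) * e) + 64 * C1 * τ) := by
          rw [← ENNReal.ofReal_mul (by linarith), ← ENNReal.ofReal_mul (by linarith),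
            ← ENNReal.ofReal_add (by positivity) (by positivity)]
          congr 1
          ring
  have hmeas : Measurable (fun x => ‖fderiv ℝ Φ x - A.restrictScalars ℝ‖ₑ ^ 2) := by
    have h1 : Continuous (fun L : W →L[ℝ] W => ‖L - A.restrictScalars ℝ‖) :=
      norm_sub_cont continuous_id continuous_const
    have h2 : Measurable (fun x => ‖fderiv ℝ Φ x - A.restrictScalars ℝ‖) :=
      h1.measurable.comp (measurable_fderiv ℝ Φ)
    have h3 : (fun x => ‖fderiv ℝ Φ x - A.restrictScalars ℝ‖ₑ ^ 2) =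
        fun x => ENNReal.ofReal ‖fderiv ℝ Φ x - A.restrictScalars ℝ‖ ^ 2 := by
      funext x
      rw [ofReal_norm]
    rw [h3]
    exact h2.ennreal_ofReal.pow_const 2
  rw [lintegral_add_left hmeas]
  have hw6 : ∫⁻ x in closedBall z (1 / 6), ‖Φ x - A x‖ₑ ^ 2 ≤ ENNReal.ofReal ((4 + 2 * C) * e) :=
    (lintegral_mono_set (hsub6.trans hsub)).trans hw2
  refine (add_le_add hgrad hw6).trans ?_
  rw [← ENNReal.ofReal_add (by positivity) (by positivity)]
  apply ENNReal.ofReal_le_ofReal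
  apply le_of_eq
  ring

end TopFAux

open TopFAux

theorem topF (ε : ℝ) (hε : 0 < ε) : ∃ τ : ℝ, 0 < τ ∧ ∀ Φ : W → W, NL Φ →
    ∫⁻ x in closedBall (0 : W) 1, ‖bb Φ x‖ₑ ^ 2 ≤ ENNReal.ofReal τ →
    ∃ A : W →L[ℂ] W, (∀ v : W, |nsq (A v) - nsq v| ≤ ε * nsq v) ∧ ∀ z : W, nsq z = 1 →
      ∫⁻ x in closedBall z (1 / 6), (‖fderiv ℝ Φ x - A.restrictScalars ℝ‖ₑ ^ 2 + ‖Φ x - A x‖ₑ ^ 2) ≤
        ENNReal.ofReal ε := by
  obtain ⟨C, hC, htop⟩ := topL
  obtain ⟨C1, hC1, hcacc⟩ := cacc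
  have hV := VV_pos
  set r : ℝ := min (1 / 2) (ε / (36 * C ^ 2)) with hr
  set δ : ℝ := min 1 (ε / (6 * (4 * C + 1))) with hδ
  have hr0 : 0 < r := lt_min (by norm_num) (by positivity)
  have hδ0 : 0 < δ := lt_min one_pos (by positivity)
  set e : ℝ := min (δ * (r ^ 6 * VV) / 2) (ε / (2 * ((36 * C1 + 1) * (4 + 2 * C)))) with he
  have he0 : 0 < e := lt_min (by positivity) (by positivity)
  obtain ⟨τ', hτ', hA⟩ := htop e he0
  set l : ℝ := τ' / (2 * VV) with hl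
  have hl0 : 0 < l := by positivity
  refine ⟨min (l * (τ' / 2)) (ε / (128 * C1)), lt_min (by positivity) (by positivity), ?_⟩
  intro Φ hΦ hb
  set τ : ℝ := min (l * (τ' / 2)) (ε / (128 * C1)) with hτ
  have hτ0 : 0 < τ := lt_min (by positivity) (by positivity)
  have h1 : ∫⁻ x in closedBall (0 : W) 1, ‖bb Φ x‖ₑ ≤ ENNReal.ofReal τ' := by
    refine (l1_of_l2 hτ0.le hl0 hb).trans (ENNReal.ofReal_le_ofReal ?_)
    have h2 : l * VV = τ' / 2 := by
      rw [hl]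
      field_simp
    have h3 : τ / l ≤ τ' / 2 := by
      rw [div_le_iff₀ hl0, mul_comm]
      exact min_le_left _ _
    linarith
  obtain ⟨A, hAC, hAe⟩ := hA Φ hΦ h1
  have hrC : 18 * C ^ 2 * r ≤ ε / 2 := by
    have h2 : r ≤ ε / (36 * C ^ 2) := min_le_right _ _
    rw [le_div_iff₀ (by positivity)] at h2
    linarith
  have hδC : 3 * δ * (4 * C + 1) ≤ ε / 2 := by
    have h2 : δ ≤ ε / (6 * (4 * C + 1)) := min_le_right _ _
    rw [le_div_iff₀ (by positivity)] at h2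
    linarith
  have helt : e < δ * (r ^ 6 * VV) := by
    have h2 : e ≤ δ * (r ^ 6 * VV) / 2 := min_le_left _ _
    have h3 : 0 < δ * (r ^ 6 * VV) := by positivity
    linarith
  refine ⟨A, fun v => near_unit hΦ hC hr0 (min_le_left _ _) hrC hδ0 (min_le_left _ _) hδC he0.le
    hAC hAe helt v, fun z hz => ?_⟩
  refine (near_grad hΦ hC hC1 hcacc he0.le hτ0.le hAC hAe hb hz).trans
    (ENNReal.ofReal_le_ofReal ?_)
  have h2 : e ≤ ε / (2 * ((36 * C1 + 1) * (4 + 2 * C))) := min_le_right _ _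
  rw [le_div_iff₀ (by positivity)] at h2
  have h3 : τ ≤ ε / (128 * C1) := min_le_right _ _
  rw [le_div_iff₀ (by positivity)] at h3
  linarith

end Pool.Agent.Lib.Qcd
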