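import Pool.Agent.Lib.Qcd.AvgL
import Pool.Agent.Lib.Qcd.Ball
import Pool.Agent.Lib.Qcd.Tn

set_option autoImplicit false

/-!
# A lift which is nearly holomorphic is close to a linear map

PROOF. `φ, G` from `exists_KW`. Let `A v = - ∫ (fderiv ℝ φ y v) • Φ y dy` (integral over the unit ball; `φ` and its derivatives vanish for `‖y‖ > 1`, `‖Φ y‖ ≤ 2 ‖y‖` by `nl_norm`): real-linear, `‖A v‖ ≤ C ‖v‖`; for `|c| = 1`, `fderiv ℝ φ (c y) (c v) = fderiv ℝ φ y v` (`KW.rot`) and the rotation `y ↦ c y` preserves the volume, so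
`A (c v) = c A v` (`Φ (c y) = c Φ y`); with `c = i` it is `ℂ`-linear. Let `g ξ = ∫ φ (y - ξ) • Φ y dy = ∫ φ y • Φ (y + ξ) dy`; `g 0 = 0` (rotate by `c = -1`: `g 0 = - g 0`). Taylor: `|φ (y - ξ) - φ y + fderiv ℝ φ y ξ| ≤ M ‖ξ‖ ^ 2` (`M` a bound of the second derivative), so `‖g ξ - A ξ‖ ≤ M ‖ξ‖ ^ 2 ∫_{‖y‖ ≤ 2} 2 ‖y‖ ≤ C ‖ξ‖ ^ 2` for `‖ξ‖ ≤ 1`.
For `‖x‖ ≤ 2`, `N ≥ 2`: `∫ φ y • Φ (x + N y) dy = N g (x / N)` (`Φ (N w) = N Φ w`), `‖N g (x / N) - A x‖ ≤ 4 C / N` (`A x = N A (x / N)`). By `avgL`, Tonelli and translation invariance `∫_{‖x‖ ≤ 2} ‖Φ x - N g (x/N)‖ dx ≤ C N V ∫_{‖w‖ ≤ N + 2} ‖bb Φ w‖ dw = C N V (N + 2) ^ 6 ∫_{‖w‖ ≤ 1} ‖bb Φ w‖ ≤ C' N (N + 2) ^ 6 τ` (`ballR` with `m = 0`, `norm_bb_hom`;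
`V` the volume of the unit ball; `bb Φ` is continuous off `0`, so measurable). Choose `N` with `4 C V 2 ^ 6 / N ≤ ε / 2`, then `τ`.
-/

open MeasureTheory Set Metric
open scoped ContDiff ENNReal

namespace Pool.Agent.Lib.Qcd

open Pool.Agent.P28b04d Pool.Agent.Lib.Psd

namespace TopLAux

theorem mp_I : MeasurePreserving (fun y : W => Complex.I • y) := by
  have h1 : MeasurePreserving (fun z : ℂ => Complex.I * z) := by
    have h := (rotation (⟨Complex.I, by simp [Submonoid.unitSphere]⟩ : Circle)).measurePreserving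
    convert h using 1
    funext z
    rw [rotation_apply]
  exact volume_preserving_pi (fun _ => h1)

theorem bound_int {f : W → W} {R C : ℝ} (h0 : ∀ y, R < ‖y‖ → f y = 0)
    (hC : ∀ y, ‖y‖ ≤ R → ‖f y‖ ≤ C) : ‖∫ y, f y‖ ≤ C * volume.real (closedBall (0 : W) R) := by
  rw [← setIntegral_eq_integral_of_forall_compl_eq_zero (s := closedBall (0 : W) R)
    (fun y hy => h0 y (by simpa using hy))]
  exact norm_setIntegral_le_of_norm_le_const measure_closedBall_lt_top
    (fun y hy => hC y (by simpa using hy))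

variable {φ G : W → ℝ}

theorem tsub (h : KW φ G) : tsupport φ ⊆ closedBall (0 : W) 1 := by
  apply closure_minimal _ isClosed_closedBall
  intro x hx
  by_contra hc
  rw [mem_closedBall_zero_iff, not_le] at hc
  exact hx (h.zφ x hc.le)

theorem cs (h : KW φ G) : HasCompactSupport φ :=
  (isCompact_closedBall (0 : W) 1).of_isClosed_subset (isClosed_tsupport φ) (tsub h)

theorem fd_zero (h : KW φ G) {y : W} (hy : 1 < ‖y‖) : fderiv ℝ φ y = 0 := by
  by_contra hc
  have h1 : y ∈ Function.support (fderiv ℝ φ) := hc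
  have h2 := tsub h (support_fderiv_subset ℝ h1)
  rw [mem_closedBall_zero_iff] at h2
  linarith

theorem fd_bdd (h : KW φ G) : ∃ M : ℝ, 0 ≤ M ∧ ∀ y, ‖fderiv ℝ φ y‖ ≤ M := by
  obtain ⟨M, hM⟩ := h.sφ.lipschitzWith_of_hasCompactSupport (cs h) (by simp)
  exact ⟨M, M.2, fun y => norm_fderiv_le_of_lipschitz ℝ hM⟩

theorem fd_cont (h : KW φ G) : Continuous (fderiv ℝ φ) := h.sφ.continuous_fderiv (by simp)

theorem int_phi (h : KW φ G) {f : W → W} (hf : Continuous f) : Integrable (fun y => φ y • f y) := by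
  apply Continuous.integrable_of_hasCompactSupport (h.sφ.continuous.smul hf)
  exact (cs h).smul_right

theorem int_fd (h : KW φ G) {f : W → W} (hf : Continuous f) (v : W) :
    Integrable (fun y => (fderiv ℝ φ y v) • f y) := by
  have h1 : Continuous (fun y => fderiv ℝ φ y v) := (fd_cont h).clm_apply continuous_const
  apply Continuous.integrable_of_hasCompactSupport (h1.smul hf)
  apply HasCompactSupport.of_support_subset_isCompact (isCompact_closedBall (0 : W) 1)
  intro y hy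
  by_contra hc
  rw [mem_closedBall_zero_iff, not_le] at hc
  apply hy
  simp [fd_zero h hc]

theorem taylor (h : KW φ G) : ∃ M : ℝ, 0 ≤ M ∧ ∀ y ξ : W,
    ‖φ (y - ξ) - φ y + fderiv ℝ φ y ξ‖ ≤ M * ‖ξ‖ ^ 2 := by
  have h1 : ContDiff ℝ 1 (fderiv ℝ φ) := (h.sφ.of_le (by norm_cast)).fderiv_right (m := 1) (n := 2) (by norm_num)
  obtain ⟨M, hM⟩ := h1.lipschitzWith_of_hasCompactSupport ((cs h).fderiv (𝕜 := ℝ)) (by simp)
  refine ⟨M, M.2, fun y ξ => ?_⟩
  have h2 := Convex.norm_image_sub_le_of_norm_fderiv_le' (𝕜 := ℝ) (f := φ) (s := closedBall y ‖ξ‖)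
    (x := y) (y := y - ξ) (φ := fderiv ℝ φ y) (C := M * ‖ξ‖)
    (fun x _ => (h.sφ.differentiable (by simp)) x) (fun x hx => ?_) (convex_closedBall _ _)
    (mem_closedBall_self (norm_nonneg _)) (by simp [mem_closedBall, dist_eq_norm])
  · have e : φ (y - ξ) - φ y - fderiv ℝ φ y (y - ξ - y) = φ (y - ξ) - φ y + fderiv ℝ φ y ξ := by
      rw [sub_sub_cancel_left, map_neg, sub_neg_eq_add]
    rw [e] at h2
    refine h2.trans (le_of_eq ?_)
    rw [sub_sub_cancel_left, norm_neg]
    ring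
  · rw [← dist_eq_norm]
    refine (hM.dist_le_mul _ _).trans ?_
    exact mul_le_mul_of_nonneg_left hx M.2

/-- derivative at the origin of the average of the translates -/
noncomputable def AR (φ : W → ℝ) (Φ : W → W) (v : W) : W := - ∫ y, (fderiv ℝ φ y v) • Φ y

theorem AR_add (h : KW φ G) {Φ : W → W} (hf : Continuous Φ) (v w : W) :
    AR φ Φ (v + w) = AR φ Φ v + AR φ Φ w := by
  simp only [AR]
  rw [← neg_add, ← integral_add (int_fd h hf v) (int_fd h hf w)]
  congr 2
  funext y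
  rw [map_add, add_smul]

theorem AR_smul (φ : W → ℝ) (Φ : W → W) (r : ℝ) (v : W) : AR φ Φ (r • v) = r • AR φ Φ v := by
  simp only [AR]
  rw [smul_neg, ← integral_smul]
  congr 2
  funext y
  rw [map_smul, smul_eq_mul, mul_smul]

theorem fd_rot (h : KW φ G) (y v : W) : fderiv ℝ φ (Complex.I • y) (Complex.I • v) = fderiv ℝ φ y v := by
  have h1 : (fun x : W => φ (mI x)) = φ := by
    funext x
    have : mI x = Complex.I • x := by simp [mI]
    rw [this]
    exact h.rot Complex.I (by simp) x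
  have h2 : HasFDerivAt (fun x : W => φ (mI x)) ((fderiv ℝ φ (mI y)).comp mI) y :=
    HasFDerivAt.comp y ((h.sφ.differentiable (by simp)) (mI y)).hasFDerivAt mI.hasFDerivAt
  rw [h1] at h2
  rw [h2.fderiv]
  simp [mI]

theorem AR_I (h : KW φ G) {Φ : W → W} (hh : ∀ (c : ℂ) (z : W), Φ (c • z) = c • Φ z) (v : W) :
    AR φ Φ (Complex.I • v) = Complex.I • AR φ Φ v := by
  simp only [AR]
  have hme : MeasurableEmbedding (fun y : W => Complex.I • y) :=
    (Homeomorph.smulOfNeZero Complex.I Complex.I_ne_zero : W ≃ₜ W).measurableEmbedding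
  rw [← mp_I.integral_comp hme (fun y => (fderiv ℝ φ y (Complex.I • v)) • Φ y), smul_neg, ← integral_smul]
  congr 2
  funext y
  rw [fd_rot h, hh, smul_comm]

theorem AR_norm (h : KW φ G) : ∃ C : ℝ, 1 ≤ C ∧ ∀ Φ : W → W, NL Φ → ∀ v : W, ‖AR φ Φ v‖ ≤ C * ‖v‖ := by
  obtain ⟨M, hM0, hM⟩ := fd_bdd h
  refine ⟨1 + M * 2 * volume.real (closedBall (0 : W) 1), ?_, fun Φ hΦ v => ?_⟩
  · have : 0 ≤ M * 2 * volume.real (closedBall (0 : W) 1) := by positivity
    linarith
  · simp only [AR, norm_neg]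
    have h1 := bound_int (f := fun y => (fderiv ℝ φ y v) • Φ y) (R := 1) (C := M * ‖v‖ * 2)
      (fun y hy => by simp [fd_zero h hy]) (fun y hy => by
        rw [norm_smul]
        apply mul_le_mul _ _ (norm_nonneg _) (by positivity)
        · exact ((fderiv ℝ φ y).le_opNorm v).trans (mul_le_mul_of_nonneg_right (hM y) (norm_nonneg _))
        · have := nl_norm hΦ y
          linarith)
    refine h1.trans ?_
    have : 0 ≤ ‖v‖ := norm_nonneg _
    nlinarith

theorem avg_zero (h : KW φ G) {Φ : W → W} (hh : ∀ (c : ℂ) (z : W), Φ (c • z) = c • Φ z) :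
    ∫ y, φ y • Φ y = 0 := by
  have h1 : ∫ y, φ y • Φ y = - ∫ y, φ y • Φ y := by
    conv_lhs => rw [← integral_neg_eq_self (fun y => φ y • Φ y)]
    rw [← integral_neg]
    congr 1
    funext y
    have h2 := h.rot (-1) (by simp) y
    have h3 := hh (-1) y
    simp only [neg_smul, one_smul] at h2 h3
    rw [h2, h3, smul_neg]
  have h2 : (2 : ℝ) • ∫ y, φ y • Φ y = 0 := by
    rw [two_smul]
    nth_rewrite 1 [h1]
    simp
  rcases smul_eq_zero.1 h2 with h3 | h3
  · norm_num at h3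
  · exact h3

theorem g_lin (h : KW φ G) : ∃ C : ℝ, 0 ≤ C ∧ ∀ Φ : W → W, NL Φ → ∀ ξ : W, ‖ξ‖ ≤ 1 →
    ‖(∫ y, φ y • Φ (ξ + y)) - AR φ Φ ξ‖ ≤ C * ‖ξ‖ ^ 2 := by
  obtain ⟨M, hM0, hM⟩ := taylor h
  refine ⟨M * 4 * volume.real (closedBall (0 : W) 2), by positivity, fun Φ hΦ ξ hξ => ?_⟩
  have hc : Continuous Φ := hΦ.loc.continuous
  have e1 : (∫ y, φ y • Φ (ξ + y)) = ∫ y, φ (y - ξ) • Φ y := by
    rw [← integral_sub_right_eq_self (fun y => φ y • Φ (ξ + y)) ξ]
    congr 1
    funext y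
    simp
  have i1 : Integrable (fun y => φ (y - ξ) • Φ y) := by
    have := (int_phi h (f := fun y => Φ (y + ξ)) (by fun_prop)).comp_sub_right ξ
    simpa using this
  have e2 : (∫ y, φ (y - ξ) • Φ y) - AR φ Φ ξ =
      ∫ y, (φ (y - ξ) - φ y + fderiv ℝ φ y ξ) • Φ y := by
    have e3 : ∀ y, (φ (y - ξ) - φ y + fderiv ℝ φ y ξ) • Φ y =
        (φ (y - ξ) • Φ y - φ y • Φ y) + (fderiv ℝ φ y ξ) • Φ y := by
      intro y
      rw [add_smul, sub_smul]
    simp only [e3]
    have i2 : Integrable (fun y => φ (y - ξ) • Φ y - φ y • Φ y) := i1.sub (int_phi h hc)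
    rw [integral_add i2 (int_fd h hc ξ), integral_sub i1 (int_phi h hc),
      avg_zero h hΦ.loc.hom, AR]
    simp
  rw [e1, e2]
  have h1 := bound_int (f := fun y => (φ (y - ξ) - φ y + fderiv ℝ φ y ξ) • Φ y) (R := 2)
    (C := M * ‖ξ‖ ^ 2 * 4) (fun y hy => by
      have h2 : 1 ≤ ‖y - ξ‖ := by
        have := norm_sub_norm_le y ξ
        linarith
      simp [fd_zero h (by linarith : 1 < ‖y‖), h.zφ y (by linarith), h.zφ _ h2]) (fun y hy => by
      rw [norm_smul]
      apply mul_le_mul (hM y ξ) _ (norm_nonneg _) (by positivity)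
      have := nl_norm hΦ y
      linarith)
  refine h1.trans (le_of_eq (by ring))

theorem far (h : KW φ G) : ∃ C : ℝ, 0 ≤ C ∧ ∀ Φ : W → W, NL Φ → ∀ N : ℝ, 2 ≤ N → ∀ x : W, ‖x‖ ≤ 2 →
    ‖(∫ y, φ y • Φ (x + N • y)) - AR φ Φ x‖ ≤ C / N := by
  obtain ⟨C, hC0, hC⟩ := g_lin h
  refine ⟨4 * C, by positivity, fun Φ hΦ N hN x hx => ?_⟩
  have hN0 : 0 < N := by linarith
  have hr : ∀ (r : ℝ) (z : W), Φ (r • z) = r • Φ z := by
    intro r z
    have := hΦ.loc.hom (r : ℂ) z
    simpa using this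
  have e1 : (∫ y, φ y • Φ (x + N • y)) = N • ∫ y, φ y • Φ (N⁻¹ • x + y) := by
    rw [← integral_smul]
    congr 1
    funext y
    have e : Φ (x + N • y) = N • Φ (N⁻¹ • x + y) := by
      rw [← hr, smul_add, smul_inv_smul₀ hN0.ne']
    rw [e, smul_comm]
  have e2 : AR φ Φ x = N • AR φ Φ (N⁻¹ • x) := by
    rw [← AR_smul, smul_inv_smul₀ hN0.ne']
  have hn : ‖N⁻¹ • x‖ ≤ 2 / N := by
    rw [norm_smul, norm_inv, Real.norm_eq_abs, abs_of_pos hN0, inv_mul_eq_div]
    gcongr
  have hn1 : ‖N⁻¹ • x‖ ≤ 1 := hn.trans (by rw [div_le_one hN0]; exact hN)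
  rw [e1, e2, ← smul_sub, norm_smul, Real.norm_eq_abs, abs_of_pos hN0]
  calc N * ‖(∫ y, φ y • Φ (N⁻¹ • x + y)) - AR φ Φ (N⁻¹ • x)‖ ≤ N * (C * (2 / N) ^ 2) := by
        apply mul_le_mul_of_nonneg_left _ hN0.le
        exact (hC Φ hΦ _ hn1).trans (by gcongr)
    _ = 4 * C / N := by field_simp; ring

theorem meas_bb (Φ : W → W) : Measurable (fun w => ‖bb Φ w‖ₑ) := by
  have h1 : Measurable (fderiv ℝ Φ) := measurable_fderiv ℝ Φ
  have h2 : Continuous (fun L : W →L[ℝ] W => ‖L.comp mI - mI.comp L‖ₑ) := by fun_prop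
  exact h2.measurable.comp h1

theorem tonelli {k : W → ℝ≥0∞} (hk : Measurable k) {N : ℝ} (hN : 0 < N) :
    ∫⁻ x in closedBall (0 : W) 2, ∫⁻ s in Ioo (0 : ℝ) N, ∫⁻ y in closedBall (0 : W) 1, k (x + s • y) ≤
      ENNReal.ofReal N * (volume (closedBall (0 : W) 1) * ∫⁻ w in closedBall (0 : W) (N + 2), k w) := by
  rw [lintegral_lintegral_swap]
  · calc ∫⁻ s in Ioo (0 : ℝ) N, ∫⁻ x in closedBall (0 : W) 2, ∫⁻ y in closedBall (0 : W) 1, k (x + s • y)
        ≤ ∫⁻ s in Ioo (0 : ℝ) N, (volume (closedBall (0 : W) 1) *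
            ∫⁻ w in closedBall (0 : W) (N + 2), k w) := by
          apply setLIntegral_mono' measurableSet_Ioo
          intro s hs
          rw [lintegral_lintegral_swap]
          · calc ∫⁻ y in closedBall (0 : W) 1, ∫⁻ x in closedBall (0 : W) 2, k (x + s • y)
                ≤ ∫⁻ y in closedBall (0 : W) 1, ∫⁻ w in closedBall (0 : W) (N + 2), k w := by
                  apply setLIntegral_mono' measurableSet_closedBall
                  intro y hy
                  rw [← lintegral_indicator measurableSet_closedBall,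
                    ← lintegral_indicator measurableSet_closedBall,
                    ← lintegral_add_right_eq_self ((closedBall (0 : W) (N + 2)).indicator k) (s • y)]
                  apply lintegral_mono
                  intro x
                  by_cases hx : x ∈ closedBall (0 : W) 2
                  · have hx2 : x + s • y ∈ closedBall (0 : W) (N + 2) := by
                      rw [mem_closedBall_zero_iff] at hx hy ⊢
                      have h1 : ‖s • y‖ ≤ N := by
                        rw [norm_smul, Real.norm_eq_abs, abs_of_pos hs.1]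
                        have := hs.2
                        have h3 := norm_nonneg y
                        nlinarith [hs.1]
                      have := norm_add_le x (s • y)
                      linarith
                    simp only [indicator_of_mem hx, indicator_of_mem hx2]
                    exact le_rfl
                  · simp [indicator_of_notMem hx]
              _ = volume (closedBall (0 : W) 1) * ∫⁻ w in closedBall (0 : W) (N + 2), k w := by
                  rw [setLIntegral_const, mul_comm]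
          · apply Measurable.aemeasurable
            exact hk.comp (by fun_prop)
      _ = ENNReal.ofReal N * (volume (closedBall (0 : W) 1) *
            ∫⁻ w in closedBall (0 : W) (N + 2), k w) := by
          rw [setLIntegral_const, Real.volume_Ioo, sub_zero, mul_comm]
  · apply Measurable.aemeasurable
    have h1 : Measurable (fun p : (W × ℝ) × W => k (p.1.1 + p.1.2 • p.2)) := hk.comp (by fun_prop)
    exact h1.lintegral_prod_right'

end TopLAux

theorem topL : ∃ C : ℝ, 1 ≤ C ∧ ∀ ε : ℝ, 0 < ε → ∃ τ : ℝ, 0 < τ ∧ ∀ Φ : W → W, NL Φ →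
    ∫⁻ x in closedBall (0 : W) 1, ‖bb Φ x‖ₑ ≤ ENNReal.ofReal τ →
    ∃ A : W →L[ℂ] W, ‖A‖ ≤ C ∧ ∫⁻ x in closedBall (0 : W) 2, ‖Φ x - A x‖ₑ ≤ ENNReal.ofReal ε := by
  obtain ⟨φ, G, h⟩ := exists_KW
  obtain ⟨C, hC1, hC⟩ := TopLAux.AR_norm h
  obtain ⟨C1, hC11, hav⟩ := avgL h
  obtain ⟨C2, hC20, hfar⟩ := TopLAux.far h
  refine ⟨C, hC1, fun ε hε => ?_⟩
  set V1 : ℝ := volume.real (closedBall (0 : W) 1) with hV1
  set V2 : ℝ := volume.real (closedBall (0 : W) 2) with hV2
  have hV10 : 0 ≤ V1 := measureReal_nonneg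
  have hV20 : 0 ≤ V2 := measureReal_nonneg
  set N : ℝ := 2 + 2 * (C2 * V2) / ε with hN
  have hN2 : 2 ≤ N := by
    have : 0 ≤ 2 * (C2 * V2) / ε := by positivity
    linarith
  have hN0 : 0 < N := by linarith
  set K : ℝ := C1 * (N * (V1 * (N + 2) ^ 6)) with hK
  have hK0 : 0 ≤ K := by positivity
  refine ⟨ε / 2 / (K + 1), by positivity, fun Φ hΦ hτ => ?_⟩
  have hc : Continuous Φ := hΦ.loc.continuous
  let L : W →ₗ[ℂ] W :=
    { toFun := TopLAux.AR φ Φ
      map_add' := TopLAux.AR_add h hc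
      map_smul' := by
        intro c v
        have e : c • v = c.re • v + c.im • (Complex.I • v) := by
          ext k
          simp only [Pi.smul_apply, Pi.add_apply, smul_eq_mul, Complex.real_smul]
          conv_lhs => rw [← Complex.re_add_im c]
          ring
        have e' : c • TopLAux.AR φ Φ v = c.re • TopLAux.AR φ Φ v + c.im • (Complex.I • TopLAux.AR φ Φ v) := by
          ext k
          simp only [Pi.smul_apply, Pi.add_apply, smul_eq_mul, Complex.real_smul]
          conv_lhs => rw [← Complex.re_add_im c]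
          ring
        rw [RingHom.id_apply, e, TopLAux.AR_add h hc, TopLAux.AR_smul, TopLAux.AR_smul,
          TopLAux.AR_I h hΦ.loc.hom, ← e'] }
  refine ⟨L.mkContinuous C (hC Φ hΦ), LinearMap.mkContinuous_norm_le _ (by linarith) _, ?_⟩
  have hA : ∀ x, (L.mkContinuous C (hC Φ hΦ)) x = TopLAux.AR φ Φ x := fun x => rfl
  simp only [hA]
  have hk := TopLAux.meas_bb Φ
  have hball : ∫⁻ w in closedBall (0 : W) (N + 2), ‖bb Φ w‖ₑ ≤
      ENNReal.ofReal ((N + 2) ^ 6) * ENNReal.ofReal (ε / 2 / (K + 1)) := by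
    rw [ballR hk (m := 0) (fun r hr x hx => ?_) (by linarith : 0 < N + 2)]
    · rw [pow_zero, div_one]
      exact mul_le_mul_right hτ _
    · have h1 := norm_bb_hom hΦ.loc (c := (r : ℂ)) (by exact_mod_cast hr.ne') hx
      have h2 : ((r : ℂ) • x : W) = r • x := by
        ext k
        simp
      rw [h2] at h1
      simp only [pow_zero, ENNReal.ofReal_one, div_one]
      rw [← ofReal_norm_eq_enorm, ← ofReal_norm_eq_enorm, h1]
  calc ∫⁻ x in closedBall (0 : W) 2, ‖Φ x - TopLAux.AR φ Φ x‖ₑ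
      ≤ ∫⁻ x in closedBall (0 : W) 2, (ENNReal.ofReal C1 * (∫⁻ s in Ioo (0 : ℝ) N,
          ∫⁻ y in closedBall (0 : W) 1, ‖bb Φ (x + s • y)‖ₑ) + ENNReal.ofReal (C2 / N)) := by
        apply setLIntegral_mono' measurableSet_closedBall
        intro x hx
        have e : Φ x - TopLAux.AR φ Φ x = -((∫ y, φ y • Φ (x + N • y)) - Φ x) +
            ((∫ y, φ y • Φ (x + N • y)) - TopLAux.AR φ Φ x) := by abel
        rw [e]
        refine (enorm_add_le _ _).trans (add_le_add ?_ ?_)
        · rw [enorm_neg]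
          exact hav Φ hΦ.loc N hN0 x
        · rw [← ofReal_norm_eq_enorm]
          exact ENNReal.ofReal_le_ofReal (hfar Φ hΦ N hN2 x (by simpa using hx))
    _ = ENNReal.ofReal C1 * (∫⁻ x in closedBall (0 : W) 2, ∫⁻ s in Ioo (0 : ℝ) N,
          ∫⁻ y in closedBall (0 : W) 1, ‖bb Φ (x + s • y)‖ₑ) +
          ENNReal.ofReal (C2 / N) * volume (closedBall (0 : W) 2) := by
        rw [lintegral_add_right _ measurable_const, lintegral_const_mul' _ _ ENNReal.ofReal_ne_top,
          setLIntegral_const]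
    _ ≤ ENNReal.ofReal C1 * (ENNReal.ofReal N * (volume (closedBall (0 : W) 1) *
          (ENNReal.ofReal ((N + 2) ^ 6) * ENNReal.ofReal (ε / 2 / (K + 1))))) +
          ENNReal.ofReal (C2 / N) * volume (closedBall (0 : W) 2) := by
        gcongr
        refine (TopLAux.tonelli hk hN0).trans ?_
        gcongr
    _ = ENNReal.ofReal (K * (ε / 2 / (K + 1)) + C2 / N * V2) := by
        rw [← ofReal_measureReal (s := closedBall (0 : W) 1) measure_closedBall_lt_top.ne,
          ← ofReal_measureReal (s := closedBall (0 : W) 2) measure_closedBall_lt_top.ne, ← hV1, ← hV2,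
          ← ENNReal.ofReal_mul (by positivity), ← ENNReal.ofReal_mul (by positivity),
          ← ENNReal.ofReal_mul (by positivity), ← ENNReal.ofReal_mul (by positivity),
          ← ENNReal.ofReal_mul (by positivity), ← ENNReal.ofReal_add (by positivity) (by positivity)]
        congr 1
        rw [hK]
        ring
    _ ≤ ENNReal.ofReal ε := by
        apply ENNReal.ofReal_le_ofReal
        have h1 : K * (ε / 2 / (K + 1)) ≤ ε / 2 := by
          rw [mul_div_assoc', div_le_iff₀ (by positivity)]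
          nlinarith
        have h2 : C2 / N * V2 ≤ ε / 2 := by
          rw [div_mul_eq_mul_div, div_le_iff₀ hN0, hN]
          have : ε / 2 * (2 + 2 * (C2 * V2) / ε) = ε + C2 * V2 := by field_simp
          rw [this]
          linarith
        linarith

end Pool.Agent.Lib.Qcd
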